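import Mathlib

/-!
# MP_72b45c_co, quadratic-size obstructions. Block W: words and cells (paper 321, section 0)

A letter `k` (`1 ≤ k < n`) swaps the labels at the positions `k`, `k+1`; it must find them in increasing order.
Gap `k` lies between the positions `k` and `k+1`. A node is a pair (gap, time). The cell of a node `(k, t)` is named
by the last letter `k` among the first `t` letters (1-based), or, if there is none, by the last letter `n - k` of the
whole word (projective identification `(k, length) ~ (n - k, 0)`); the outer cell (gaps `0` and `n`) has the name `0`.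
-/

namespace Pool.Agent.Lib.MP_72b45c_co.Q

open Equiv Equiv.Perm

/-- the state (position ↦ label) after a word -/
def run : Perm ℕ → List ℕ → Perm ℕ
  | π, [] => π
  | π, k :: u => run (π * swap k (k + 1)) u

/-- every letter swaps an increasing pair -/
def Asc (n : ℕ) : Perm ℕ → List ℕ → Prop
  | _, [] => True
  | π, k :: u => 1 ≤ k ∧ k < n ∧ π k < π (k + 1) ∧ Asc n (π * swap k (k + 1)) u

/-- reduced words of the longest element: from the identity to the reversal -/
def Red (n : ℕ) (u : List ℕ) : Prop :=
  Asc n 1 u ∧ ∀ i, 1 ≤ i → i ≤ n → run 1 u i = n + 1 - i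

/-- all letters are between `1` and `n - 1`, and each of them occurs -/
def Full (n : ℕ) (u : List ℕ) : Prop :=
  (∀ k ∈ u, 1 ≤ k ∧ k < n) ∧ ∀ k, 1 ≤ k → k < n → k ∈ u

/-- the last occurrence (1-based) of `k` among the first `t` letters, `0` if there is none -/
def lastOcc (u : List ℕ) (k : ℕ) : ℕ → ℕ
  | 0 => 0
  | t + 1 => if u[t]? = some k then t + 1 else lastOcc u k t

theorem lastOcc_le_length (u : List ℕ) (k t : ℕ) : lastOcc u k t ≤ u.length := by
  induction t with
  | zero => exact Nat.zero_le _
  | succ t ih =>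
    rw [lastOcc]
    split_ifs with h
    · have h1 : t < u.length := by
        by_contra h2
        rw [List.getElem?_eq_none (not_lt.mp h2)] at h
        exact absurd h (by simp)
      exact h1
    · exact ih

/-- the name of the cell of the node `(k, t)` -/
def cellN (n : ℕ) (u : List ℕ) (k t : ℕ) : ℕ :=
  if k = 0 ∨ n ≤ k then 0
  else if lastOcc u k t ≠ 0 then lastOcc u k t else lastOcc u (n - k) u.length

theorem cellN_lt (n : ℕ) (u : List ℕ) (k t : ℕ) : cellN n u k t < u.length + 1 := by
  unfold cellN
  have h1 := lastOcc_le_length u k t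
  have h2 := lastOcc_le_length u (n - k) u.length
  split_ifs <;> omega

/-- the cell of the node `(k, t)` -/
def cell (n : ℕ) (u : List ℕ) (k t : ℕ) : Fin (u.length + 1) := ⟨cellN n u k t, cellN_lt n u k t⟩

/-- the pair of opposite corners of colour `e` (mod 2) at the letter `t` -/
def pr (n : ℕ) (u : List ℕ) (e : ℕ) (t : Fin u.length) : Sym2 (Fin (u.length + 1)) :=
  if (u[t] + e) % 2 = 0 then s(cell n u u[t] t, cell n u u[t] (t + 1))
  else s(cell n u (u[t] - 1) t, cell n u (u[t] + 1) t)

/-- the colour of a cell: parity of its gap -/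
def col (u : List ℕ) (c : ℕ) : ℕ := if c = 0 then 0 else (u.getD (c - 1) 0) % 2

/-- the graph of the cells of colour `e` (the other cells are isolated vertices) -/
def BG (n : ℕ) (u : List ℕ) (e : ℕ) : SimpleGraph (Fin (u.length + 1)) where
  Adj i j := i ≠ j ∧ ∃ t, pr n u e t = s(i, j)
  symm := ⟨fun i j ⟨h1, t, h2⟩ => ⟨h1.symm, t, by rw [h2, Sym2.eq_swap]⟩⟩
  loopless := ⟨fun i h => h.1 rfl⟩

/-- isomorphism of the two complexes (letters, cells, opposite pairs); `δ = 1` exchanges the colours -/
structure CIso (n : ℕ) (u u' : List ℕ) (δ : ℕ) where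
  /-- letters -/
  θ : Fin u.length ≃ Fin u'.length
  /-- cells -/
  κ : Fin (u.length + 1) ≃ Fin (u'.length + 1)
  h : ∀ e t, pr n u' (e + δ) (θ t) = (pr n u e t).map κ

/-- `s` and `c` are adjacent corners of some letter (`s` black, `c` white) -/
def Near (n : ℕ) (u : List ℕ) (c s : Fin (u.length + 1)) : Prop :=
  ∃ t, s ∈ pr n u 1 t ∧ c ∈ pr n u 0 t

/-- one commutation of neighbouring letters -/
inductive Comm : List ℕ → List ℕ → Prop
  | mk (a b : List ℕ) (k k' : ℕ) (h : k + 2 ≤ k' ∨ k' + 2 ≤ k) :
      Comm (a ++ k :: k' :: b) (a ++ k' :: k :: b)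

/-- the labels at the positions `1..k` at time `t` -/
def lset (u : List ℕ) (k t : ℕ) : Finset ℕ := (Finset.Icc 1 k).image (run 1 (u.take t))

/-- the sorting action of a letter (the larger value goes to the left) -/
def srt (x : ℕ → ℕ) : List ℕ → ℕ → ℕ
  | [] => x
  | k :: u => srt (if x k < x (k + 1) then x ∘ swap k (k + 1) else x) u

end Pool.Agent.Lib.MP_72b45c_co.Q
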