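import Pool.Agent.Lib.MP_72b45c_co.Q.W4
import Pool.Agent.Lib.MP_72b45c_co.Q.WDefs

section

section

/-! # MP_72b45c_co, block L (maps), job L1a: components -/

namespace Pool.Agent.Lib.MP_72b45c_co.Q

open SimpleGraph Equiv Equiv.Perm

variable {X : Type*} [Finite X] [DecidableEq X]

omit [Finite X] [DecidableEq X] in
theorem con_apply_left (σ α : Perm X) (x : X) : con σ α x (σ x) :=
  Relation.EqvGen.rel _ _ (Or.inl rfl)

omit [Finite X] [DecidableEq X] in
theorem con_apply_right (σ α : Perm X) (x : X) : con σ α x (α x) :=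
  Relation.EqvGen.rel _ _ (Or.inr rfl)

omit [Finite X] [DecidableEq X] in
private theorem L1a_zpow (π : Perm X) (r : Setoid X) (h : ∀ x, r x (π x)) (i : ℤ) :
    ∀ x, r x ((π ^ i) x) := by
  induction i using Int.induction_on with
  | zero =>
    intro x
    exact r.refl' x
  | succ n ih =>
    intro x
    rw [zpow_add_one, Perm.mul_apply]
    exact r.trans' (h x) (ih (π x))
  | pred n ih =>
    intro x
    rw [zpow_sub_one, Perm.mul_apply]
    have h1 : r (π⁻¹ x) x := by
      have := h (π⁻¹ x)
      rwa [← Perm.mul_apply, mul_inv_cancel, Perm.one_apply] at this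
    exact r.trans' (r.symm' h1) (ih (π⁻¹ x))

omit [Finite X] [DecidableEq X] in
theorem con_of_sameCycle (σ α : Perm X) {x y : X} (h : σ.SameCycle x y) : con σ α x y := by
  obtain ⟨i, rfl⟩ := h
  exact L1a_zpow σ (con σ α) (con_apply_left σ α) i x

omit [Finite X] [DecidableEq X] in
theorem con_of_sameCycle_face (σ α : Perm X) {x y : X} (h : (σ * α).SameCycle x y) :
    con σ α x y := by
  obtain ⟨i, rfl⟩ := h
  refine L1a_zpow (σ * α) (con σ α) (fun z => ?_) i x
  rw [Perm.mul_apply]
  exact (con σ α).trans' (con_apply_right σ α z) (con_apply_left σ α (α z))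

omit [Finite X] [DecidableEq X] in
/-- a relation invariant under `σ` and `α` contains `con` -/
theorem con_le (σ α : Perm X) (r : Setoid X) (h1 : ∀ x, r x (σ x)) (h2 : ∀ x, r x (α x)) :
    con σ α ≤ r := by
  intro x y h
  induction h with
  | rel x y h =>
    rcases h with rfl | rfl
    · exact h1 x
    · exact h2 x
  | refl x => exact r.refl' x
  | symm x y _ ih => exact r.symm' ih
  | trans x y z _ _ ih1 ih2 => exact r.trans' ih1 ih2

omit [Finite X] [DecidableEq X] in
theorem con_mono {σ σ' α : Perm X} (h : ∀ x, σ'.SameCycle x (σ x)) : con σ α ≤ con σ' α :=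
  con_le σ α (con σ' α) (fun x => con_of_sameCycle σ' α (h x)) (con_apply_right σ' α)

omit [Finite X] [DecidableEq X] in
private theorem L1a_merge (r : Setoid X) (a b : X) :
    ∃ s : Setoid X, ∀ x y, s x y ↔ (r x y ∨ (r x a ∧ r b y) ∨ (r x b ∧ r a y)) := by
  refine ⟨⟨fun x y => r x y ∨ (r x a ∧ r b y) ∨ (r x b ∧ r a y), ?_, ?_, ?_⟩, fun x y => Iff.rfl⟩
  · intro x
    exact Or.inl (r.refl' x)
  · intro x y h
    rcases h with h | ⟨h, h'⟩ | ⟨h, h'⟩
    · exact Or.inl (r.symm' h)
    · exact Or.inr (Or.inr ⟨r.symm' h', r.symm' h⟩)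
    · exact Or.inr (Or.inl ⟨r.symm' h', r.symm' h⟩)
  · intro x y z h k
    rcases h with h | ⟨h, h'⟩ | ⟨h, h'⟩
    · rcases k with k | ⟨k, k'⟩ | ⟨k, k'⟩
      · exact Or.inl (r.trans' h k)
      · exact Or.inr (Or.inl ⟨r.trans' h k, k'⟩)
      · exact Or.inr (Or.inr ⟨r.trans' h k, k'⟩)
    · rcases k with k | ⟨k, k'⟩ | ⟨k, k'⟩
      · exact Or.inr (Or.inl ⟨h, r.trans' h' k⟩)
      · have hba : r b a := r.trans' h' k
        exact Or.inl (r.trans' h (r.trans' (r.symm' hba) k'))
      · exact Or.inl (r.trans' h k')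
    · rcases k with k | ⟨k, k'⟩ | ⟨k, k'⟩
      · exact Or.inr (Or.inr ⟨h, r.trans' h' k⟩)
      · exact Or.inl (r.trans' h k')
      · have hab : r a b := r.trans' h' k
        exact Or.inl (r.trans' h (r.trans' (r.symm' hab) k'))

/-- Multiplication by a transposition that joins two cycles (`sameCycle_mul_swap`: the cycles of `σ`
are contained in those of `σ * swap a b`, and `a, b` are in one cycle). For the last part: the relation on the
right is an equivalence relation (take cases) and contains `x ~ (σ * swap a b) x` (`(σ * swap a b) x = σ x`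
for `x ≠ a, b`, `= σ b` for `x = a`, `= σ a` for `x = b`) and `x ~ α x`; or use `Relation.EqvGen` induction. -/
theorem con_merge (σ α : Perm X) {a b : X} (h : ¬ σ.SameCycle a b) :
    con σ α ≤ con (σ * swap a b) α ∧ con (σ * swap a b) α a b ∧
    ∀ x y, con (σ * swap a b) α x y →
      con σ α x y ∨ (con σ α x a ∧ con σ α b y) ∨ (con σ α x b ∧ con σ α a y) := by
  obtain ⟨h1, h2⟩ := sameCycle_mul_swap σ h
  refine ⟨con_mono fun x => h2 x (σ x) (sameCycle_apply_right.2 (SameCycle.refl _ _)),
    con_of_sameCycle _ _ h1, fun x y hxy => ?_⟩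
  obtain ⟨s, hs⟩ := L1a_merge (con σ α) a b
  refine (hs x y).1 (con_le (σ * swap a b) α s (fun z => ?_) (fun z => ?_) hxy)
  · rw [hs]
    by_cases hza : z = a
    · subst hza
      rw [CycleCount_swap_left]
      exact Or.inr (Or.inl ⟨(con σ α).refl' z, con_apply_left σ α b⟩)
    · by_cases hzb : z = b
      · subst hzb
        rw [CycleCount_swap_right]
        exact Or.inr (Or.inr ⟨(con σ α).refl' z, con_apply_left σ α a⟩)
      · rw [CycleCount_swap_ne σ hza hzb]
        exact Or.inl (con_apply_left σ α z)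
  · rw [hs]
    exact Or.inl (con_apply_right σ α z)

end Pool.Agent.Lib.MP_72b45c_co.Q
end

section

/-! # MP_72b45c_co, block L (maps), job L1b: number of components -/

namespace Pool.Agent.Lib.MP_72b45c_co.Q

open SimpleGraph Equiv Equiv.Perm

variable {X : Type*} [Finite X] [DecidableEq X]

/-- if `a, b` are already in one component, `con` does not change (`con_merge`) -/
theorem ncomp_merge_of_con (σ α : Perm X) {a b : X} (h : ¬ σ.SameCycle a b) (h' : con σ α a b) :
    ncomp (σ * swap a b) α = ncomp σ α := by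
  obtain ⟨h1, -, h3⟩ := con_merge σ α h
  have e : con (σ * swap a b) α = con σ α := by
    refine le_antisymm (fun x y hxy => ?_) h1
    rcases h3 x y hxy with h4 | ⟨h4, h5⟩ | ⟨h4, h5⟩
    · exact h4
    · exact (con σ α).trans' h4 ((con σ α).trans' h' h5)
    · exact (con σ α).trans' h4 ((con σ α).trans' ((con σ α).symm' h') h5)
  unfold ncomp
  rw [e]

omit [DecidableEq X] in
private theorem L1b_card (r r' : Setoid X) {a b : X} (h1 : r ≤ r') (h2 : r' a b)
    (h3 : ∀ x y, r' x y → r x y ∨ (r x a ∧ r b y) ∨ (r x b ∧ r a y)) (h4 : ¬ r a b) :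
    Nat.card (Quotient r') + 1 = Nat.card (Quotient r) := by
  classical
  let F : {c : Quotient r // c ≠ Quotient.mk r b} → Quotient r' := fun c =>
    Quotient.map' (s₁ := r) (s₂ := r') id (fun _ _ h => h1 h) c.1
  have hF : ∀ (x : X) (hx : Quotient.mk r x ≠ Quotient.mk r b),
      F ⟨Quotient.mk r x, hx⟩ = Quotient.mk r' x := fun _ _ => rfl
  have hbij : Function.Bijective F := by
    constructor
    · rintro ⟨c, hc⟩ ⟨c', hc'⟩ heq
      induction c using Quotient.inductionOn with | _ x => ?_
      induction c' using Quotient.inductionOn with | _ y => ?_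
      rw [hF, hF] at heq
      have h5 : r' x y := Quotient.exact heq
      rcases h3 x y h5 with h6 | ⟨-, h6⟩ | ⟨h6, -⟩
      · exact Subtype.ext (Quotient.sound h6)
      · exact absurd (Quotient.sound (r.symm' h6)) hc'
      · exact absurd (Quotient.sound h6) hc
    · intro c
      induction c using Quotient.inductionOn with | _ y => ?_
      by_cases hy : Quotient.mk r y = Quotient.mk r b
      · have h5 : Quotient.mk r a ≠ Quotient.mk r b := fun h => h4 (Quotient.exact h)
        refine ⟨⟨_, h5⟩, ?_⟩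
        rw [hF]
        have h6 : r y b := Quotient.exact hy
        exact Quotient.sound (r'.trans' h2 (r'.symm' (h1 h6)))
      · exact ⟨⟨_, hy⟩, rfl⟩
  rw [← Nat.card_congr (Equiv.ofBijective F hbij), ← Finite.card_option]
  exact Nat.card_congr (Equiv.optionSubtypeNe (Quotient.mk r b))

/-- Otherwise exactly the classes of `a` and `b` are joined: the quotient map between the two quotients is
surjective, and injective except that it identifies the classes of `a` and `b` (compare
`cyc_mul_swap_of_not_sameCycle` in CycleCount.lean, the same argument with `Option`, or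
`Nat.card {c // c ≠ [b]} = ...`). -/
theorem ncomp_merge_of_not_con (σ α : Perm X) {a b : X} (h' : ¬ con σ α a b) :
    ncomp (σ * swap a b) α + 1 = ncomp σ α := by
  have h : ¬ σ.SameCycle a b := fun h => h' (con_of_sameCycle σ α h)
  obtain ⟨h1, h2, h3⟩ := con_merge σ α h
  exact L1b_card _ _ h1 h2 h3 h'

end Pool.Agent.Lib.MP_72b45c_co.Q
end

section

/-! # MP_72b45c_co, block L (maps), job L1: components under a transposition (parts) -/
end
end

section

/-! # MP_72b45c_co, block U (upper bound), job U0a: merges -/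

namespace Pool.Agent.Lib.MP_72b45c_co.Q

open SimpleGraph Equiv Equiv.Perm

variable {X : Type*} [Finite X] [DecidableEq X]

/-- The cycles after a merge. `←`: `sameCycle_mul_swap` (CycleCount.lean). `→`: the relation on the right is preserved by
`y ↦ (σ * swap a b) y`. -/
theorem sameCycle_merge_iff {σ : Perm X} {a b : X} (h : ¬ σ.SameCycle a b) (x y : X) :
    (σ * swap a b).SameCycle x y ↔
      σ.SameCycle x y ∨ (σ.SameCycle x a ∧ σ.SameCycle b y) ∨ (σ.SameCycle x b ∧ σ.SameCycle a y) := by
  obtain ⟨hab, hmono⟩ := sameCycle_mul_swap σ h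
  constructor
  · intro hxy
    have hO : ∀ z ∈ {z | σ.SameCycle x z ∨ (σ.SameCycle x a ∧ σ.SameCycle b z) ∨
        (σ.SameCycle x b ∧ σ.SameCycle a z)}, (σ * swap a b) z ∈ {z | σ.SameCycle x z ∨
        (σ.SameCycle x a ∧ σ.SameCycle b z) ∨ (σ.SameCycle x b ∧ σ.SameCycle a z)} := by
      intro z hz
      simp only [Set.mem_ofPred_eq] at hz ⊢
      by_cases hza : z = a
      · subst hza
        rw [CycleCount_swap_left]
        rcases hz with h1 | ⟨h1, h2⟩ | ⟨h1, h2⟩
        · exact Or.inr (Or.inl ⟨h1, sameCycle_apply_right.2 (SameCycle.refl _ _)⟩)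
        · exact absurd h2.symm h
        · exact Or.inl (sameCycle_apply_right.2 h1)
      · by_cases hzb : z = b
        · subst hzb
          rw [CycleCount_swap_right]
          rcases hz with h1 | ⟨h1, h2⟩ | ⟨h1, h2⟩
          · exact Or.inr (Or.inr ⟨h1, sameCycle_apply_right.2 (SameCycle.refl _ _)⟩)
          · exact Or.inl (sameCycle_apply_right.2 h1)
          · exact absurd h2 h
        · rw [CycleCount_swap_ne σ hza hzb, sameCycle_apply_right, sameCycle_apply_right,
            sameCycle_apply_right]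
          exact hz
    exact CycleCount_closed _ _ hO (Or.inl (SameCycle.refl _ _)) hxy
  · rintro (h1 | ⟨h1, h2⟩ | ⟨h1, h2⟩)
    · exact hmono _ _ h1
    · exact (hmono _ _ h1).trans (hab.trans (hmono _ _ h2))
    · exact (hmono _ _ h1).trans (hab.symm.trans (hmono _ _ h2))

theorem merge_label {Λ : Type*} [DecidableEq Λ] {σ : Perm X} {ν : X → Λ}
    (hν : ∀ x y, σ.SameCycle x y ↔ ν x = ν y) {a b : X} (hab : ν a ≠ ν b) :
    (∀ x y, (σ * swap a b).SameCycle x y ↔
      (if ν x = ν b then ν a else ν x) = (if ν y = ν b then ν a else ν y)) ∧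
    cyc (σ * swap a b) + 1 = cyc σ := by
  have h : ¬ σ.SameCycle a b := fun h => hab ((hν a b).1 h)
  refine ⟨fun x y => ?_, cyc_mul_swap_of_not_sameCycle σ h⟩
  rw [sameCycle_merge_iff h, hν, hν, hν, hν, hν]
  by_cases h1 : ν x = ν b
  · rw [if_pos h1]
    by_cases h2 : ν y = ν b
    · rw [if_pos h2]
      simp [h1, h2]
    · rw [if_neg h2]
      constructor
      · rintro (h3 | ⟨h3, h4⟩ | ⟨h3, h4⟩)
        · exact absurd (h3.symm.trans h1) h2
        · exact absurd h4.symm h2
        · exact h4
      · intro h3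
        exact Or.inr (Or.inr ⟨h1, h3⟩)
  · rw [if_neg h1]
    by_cases h2 : ν y = ν b
    · rw [if_pos h2]
      constructor
      · rintro (h3 | ⟨h3, h4⟩ | ⟨h3, h4⟩)
        · exact absurd (h3.trans h2) h1
        · exact h3
        · exact absurd h3 h1
      · intro h3
        exact Or.inr (Or.inl ⟨h3, h2.symm⟩)
    · rw [if_neg h2]
      constructor
      · rintro (h3 | ⟨h3, h4⟩ | ⟨h3, h4⟩)
        · exact h3
        · exact absurd h4.symm h2
        · exact absurd h3 h1
      · exact Or.inl

end Pool.Agent.Lib.MP_72b45c_co.Q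
end

section

section

/-!
# MP_72b45c_co, block U (upper bound), definitions (paper 321, section 3)

`u = w ++ [K]`, `M = w.length`, `n = 2 r`. A black gap is `2 i + 1`, `i < r`. The letter `t < M` at an odd position has the
darts `S_t = (inl t, false)` (at the lower cell, pointing up) and `N_t = (inl t, true)` (at the upper cell, pointing
down); at an even position `W_t = (inl t, false)` (at the left cell) and `E_t = (inl t, true)` (at the right cell).
`β_i = (inr i, false)` is a dummy dart at the bottom corner of the cell of the node `(2i+1, 0)`, its reverse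
`(inr i, true)` is at a leaf.
-/

namespace Pool.Agent.Lib.MP_72b45c_co.Q

open SimpleGraph Equiv Equiv.Perm

/-- darts -/
abbrev DD (M r : ℕ) := (Fin M ⊕ Fin r) × Bool

/-- reversal of darts -/
def rv (M r : ℕ) : Perm (DD M r) := Equiv.prodCongr (Equiv.refl _) Equiv.boolNot

/-- the dummy dart of the gap `2 i + 1` -/
def bt {M r : ℕ} (i : Fin r) : DD M r := (Sum.inr i, false)

/-- its leaf -/
def lf {M r : ℕ} (i : Fin r) : DD M r := (Sum.inr i, true)

/-- disc cell (gap, bottom letter or 0) of the vertex of a dart; the leaf of the gap `2 i + 1` gets `(0, i)` -/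
def dnu (w : List ℕ) {r : ℕ} : DD w.length r → ℕ × ℕ
  | (Sum.inl t, b) =>
    if w[t] % 2 = 1 then (w[t], if b then t.val + 1 else lastOcc w w[t] t)
    else if b then (w[t] + 1, lastOcc w (w[t] + 1) t) else (w[t] - 1, lastOcc w (w[t] - 1) t)
  | (Sum.inr i, b) => if b then (0, i.val) else (2 * i.val + 1, 0)

/-- the cell of a disc cell -/
def nm (n : ℕ) (u : List ℕ) (p : ℕ × ℕ) : ℕ := if p.2 ≠ 0 then p.2 else lastOcc u (n - p.1) u.length

/-- the cell of the vertex of a dart -/
def vx (n : ℕ) (w : List ℕ) (K : ℕ) {r : ℕ} (x : DD w.length r) : ℕ := nm n (w ++ [K]) (dnu w x)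

/-- the white cell of the face of a dart -/
def lam (n : ℕ) (w : List ℕ) (K : ℕ) {r : ℕ} : DD w.length r → ℕ
  | (Sum.inl t, b) =>
    if w[t] % 2 = 1 then
      (if b then cellN n (w ++ [K]) (w[t] - 1) t else cellN n (w ++ [K]) (w[t] + 1) t)
    else (if b then cellN n (w ++ [K]) w[t] (t + 1) else cellN n (w ++ [K]) w[t] t)
  | (Sum.inr i, _) => cellN n (w ++ [K]) (2 * i.val) 0

/-- the dart belongs to one of the first `t` letters or to a dummy edge -/
def used {M r : ℕ} (t : ℕ) : DD M r → Prop
  | (Sum.inl s, _) => s.val < t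
  | (Sum.inr _, _) => True

/-- not a leaf -/
def nonleaf {M r : ℕ} (x : DD M r) : Prop := ∀ i, x ≠ lf i

/-- The state of the construction after `t` letters: rotation `σ`, markers `m` (`m i` = last dart before the top corner
of the current cell of the gap `2 i + 1`). -/
structure Inv (n : ℕ) (w : List ℕ) (K r t : ℕ) (σ : Perm (DD w.length r))
    (m : Fin r → DD w.length r) : Prop where
  fix : ∀ x, ¬ used t x → σ x = x
  leaf : ∀ i, σ (lf i) = lf i
  used_m : ∀ i, used t (m i)
  dnu_m : ∀ i, dnu w (m i) = (2 * i.val + 1, lastOcc w (2 * i.val + 1) t)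
  same : ∀ x y, used t x → used t y → (σ.SameCycle x y ↔ dnu w x = dnu w y)
  lam_m : ∀ i, lam n w K (σ (m i)) = cellN n (w ++ [K]) (2 * i.val) t
  lam_a : ∀ i, (m i = bt i ∧
      cellN n (w ++ [K]) (2 * i.val + 2) t = cellN n (w ++ [K]) (2 * i.val + 2) 0) ∨
    (m i ≠ bt i ∧ lam n w K (rv _ _ (m i)) = cellN n (w ++ [K]) (2 * i.val + 2) t ∧
      lam n w K (σ (bt i)) = cellN n (w ++ [K]) (2 * i.val + 2) 0)
  lam_x : ∀ x, used t x → nonleaf x → (∀ i, rv _ _ x ≠ m i) →
    lam n w K (σ (rv _ _ x)) = lam n w K x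
  cyc_eq : cyc σ + (w.take t).countP (fun k => k % 2 == 1) +
    2 * (w.take t).countP (fun k => k % 2 == 0) = 2 * (w.length + r)

/-- the vertex after the contraction of the last letter (`K` even): its right cell becomes its left cell -/
def vxE (n : ℕ) (w : List ℕ) (K : ℕ) {r : ℕ} (x : DD w.length r) : ℕ :=
  if vx n w K x = cellN n (w ++ [K]) (K + 1) w.length then cellN n (w ++ [K]) (K - 1) w.length
  else vx n w K x

end Pool.Agent.Lib.MP_72b45c_co.Q
end

section

/-! # MP_72b45c_co, block U (upper bound), job U1a: darts -/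

namespace Pool.Agent.Lib.MP_72b45c_co.Q

open SimpleGraph Equiv Equiv.Perm

variable {n r K : ℕ} {w : List ℕ}

theorem rv_rv (M r : ℕ) (x : DD M r) : rv M r (rv M r x) = x := by
  obtain ⟨a, b⟩ := x
  simp [rv]

theorem rv_ne (M r : ℕ) (x : DD M r) : rv M r x ≠ x := by
  obtain ⟨a, b⟩ := x
  simp [rv]

theorem rv_bt {M r : ℕ} (i : Fin r) : rv M r (bt i) = lf i := by
  simp [rv, bt, lf]

theorem rv_lf {M r : ℕ} (i : Fin r) : rv M r (lf i) = bt i := by
  simp [rv, bt, lf]

private theorem U1a_fst {M r : ℕ} (x : DD M r) : (rv M r x).1 = x.1 := by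
  simp [rv]

private theorem U1a_same {M r : ℕ} (x y : DD M r) : (rv M r).SameCycle x y ↔ x.1 = y.1 := by
  constructor
  · intro h
    have h1 := CycleCount_closed (rv M r) {z | x.1 = z.1} (fun z hz => by
      simp only [Set.mem_ofPred_eq] at hz ⊢
      rw [U1a_fst]
      exact hz) (x := x) (y := y) rfl h
    exact h1
  · intro h
    obtain ⟨a, b⟩ := x
    obtain ⟨a', b'⟩ := y
    simp only at h
    subst h
    by_cases hb : b = b'
    · subst hb
      exact SameCycle.refl _ _
    · have h2 : ((a, b') : DD M r) = rv M r (a, b) := by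
        have h3 : b' = !b := by
          cases b <;> cases b' <;> simp_all
        simp [rv, h3]
      rw [h2]
      exact sameCycle_apply_right.2 (SameCycle.refl _ _)

/-- `rv` is a fixed point free involution on `2 (M + r)` points -/
theorem cyc_rv (M r : ℕ) : cyc (rv M r) = M + r := by
  have h1 : Function.Bijective (Quotient.lift (s := SameCycle.setoid (rv M r))
      (fun x : DD M r => x.1) (fun x y h => (U1a_same x y).1 h)) := by
    constructor
    · intro p q
      induction p using Quotient.inductionOn with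
      | h x =>
        induction q using Quotient.inductionOn with
        | h y =>
          intro h
          exact Quotient.sound ((U1a_same x y).2 h)
    · intro a
      exact ⟨Quotient.mk _ (a, false), rfl⟩
  unfold cyc
  rw [Nat.card_congr (Equiv.ofBijective _ h1)]
  simp

theorem card_DD (M r : ℕ) : Nat.card (DD M r) = 2 * (M + r) := by
  simp [DD, Nat.card_eq_fintype_card]
  ring

theorem lastOcc_le (u : List ℕ) (k t : ℕ) : lastOcc u k t ≤ t := by
  induction t with
  | zero => exact Nat.zero_le _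
  | succ t ih =>
    rw [lastOcc]
    split_ifs
    · exact le_refl _
    · omega

theorem lastOcc_append {k t : ℕ} (ht : t ≤ w.length) :
    lastOcc (w ++ [K]) k t = lastOcc w k t := by
  induction t with
  | zero => rfl
  | succ t ih =>
    rw [lastOcc, lastOcc, List.getElem?_append_left (by omega), ih (by omega)]

/-- the letters of `w ++ [K]` -/
theorem letter_bounds (h : Red n (w ++ [K])) (t : Fin w.length) : 1 ≤ w[t] ∧ w[t] < n :=
  h.1.mem w[t] (List.mem_append_left _ (List.getElem_mem _))

theorem K_bounds (h : Red n (w ++ [K])) : 1 ≤ K ∧ K < n :=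
  h.1.mem K (by simp)

theorem mem_of_ne (h : Red n (w ++ [K])) {k : ℕ} (h1 : 1 ≤ k) (h2 : k < n) (hK : k ≠ K) :
    k ∈ w := by
  have h3 := h.mem h1 h2
  rw [List.mem_append, List.mem_singleton] at h3
  exact h3.resolve_right hK

/-- disc cells: the first coordinate of a nonleaf dart is an odd gap, the second one is `lastOcc w gap t` for some `t` -/
theorem dnu_spec (hn : n = 2 * r) (h : Red n (w ++ [K])) (x : DD w.length r) (hx : nonleaf x) :
    ∃ i : Fin r, ∃ t ≤ w.length, dnu w x = (2 * i.val + 1, lastOcc w (2 * i.val + 1) t) := by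
  obtain ⟨s | i, b⟩ := x
  · have hb := letter_bounds h s
    by_cases h1 : w[s] % 2 = 1
    · have h2 : 2 * ((w[s] - 1) / 2) + 1 = w[s] := by omega
      refine ⟨⟨(w[s] - 1) / 2, by omega⟩, if b then s.val + 1 else s.val, ?_, ?_⟩
      · have := s.isLt
        split_ifs <;> omega
      · simp only [dnu, h1, if_true, h2]
        cases b
        · simp
        · simp only [if_true]
          have h3 : lastOcc w w[s] (s.val + 1) = s.val + 1 := lastOcc_succ_self s.isLt rfl
          rw [h3]
    · cases b
      · refine ⟨⟨(w[s] - 1) / 2, by omega⟩, s.val, s.isLt.le, ?_⟩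
        have h2 : 2 * ((w[s] - 1) / 2) + 1 = w[s] - 1 := by omega
        simp only [dnu, h1, if_false, h2]
        simp
      · refine ⟨⟨w[s] / 2, by omega⟩, s.val, s.isLt.le, ?_⟩
        have h2 : 2 * (w[s] / 2) + 1 = w[s] + 1 := by omega
        simp only [dnu, h1, if_false, h2]
        simp
  · cases b
    · exact ⟨i, 0, Nat.zero_le _, rfl⟩
    · exact absurd rfl (hx i)

theorem dnu_lf (i : Fin r) : dnu w (lf i) = (0, i.val) :=
  rfl

theorem dnu_bt (i : Fin r) : dnu w (bt i) = (2 * i.val + 1, 0) :=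
  rfl

end Pool.Agent.Lib.MP_72b45c_co.Q
end

section

/-! # MP_72b45c_co, block U (upper bound), job U1b: cells of the darts -/

namespace Pool.Agent.Lib.MP_72b45c_co.Q

open SimpleGraph Equiv Equiv.Perm

variable {n r K : ℕ} {w : List ℕ}

/-- the name of a disc cell is the cell of its node -/
theorem nm_eq_cellN (hn : n = 2 * r) {i t : ℕ} (hi : i < r) (ht : t ≤ w.length) :
    nm n (w ++ [K]) (2 * i + 1, lastOcc w (2 * i + 1) t) = cellN n (w ++ [K]) (2 * i + 1) t := by
  unfold nm cellN
  rw [if_neg (show ¬ (2 * i + 1 = 0 ∨ n ≤ 2 * i + 1) by omega), lastOcc_append ht]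

theorem vx_spec (hn : n = 2 * r) (h : Red n (w ++ [K])) (x : DD w.length r) (hx : nonleaf x) :
    ∃ i : Fin r, ∃ t ≤ w.length, vx n w K x = cellN n (w ++ [K]) (2 * i.val + 1) t := by
  obtain ⟨i, t, ht, he⟩ := dnu_spec hn h x hx
  refine ⟨i, t, ht, ?_⟩
  unfold vx
  rw [he, nm_eq_cellN hn i.isLt ht]

theorem vx_bt (hn : n = 2 * r) (i : Fin r) :
    vx n w K (bt i : DD w.length r) = cellN n (w ++ [K]) (2 * i.val + 1) 0 := by
  rw [← nm_eq_cellN hn i.isLt (Nat.zero_le _)]
  rfl

/-- letters at odd positions `k`: `S = (k, t)`, `N = (k, t+1)`; at even positions `W = (k-1, t)`, `E = (k+1, t)` -/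
theorem vx_letter_odd (hn : n = 2 * r) (h : Red n (w ++ [K])) (t : Fin w.length)
    (hk : w[t] % 2 = 1) :
    vx n w K ((Sum.inl t, false) : DD w.length r) = cellN n (w ++ [K]) w[t] t ∧
    vx n w K ((Sum.inl t, true) : DD w.length r) = cellN n (w ++ [K]) w[t] (t + 1) := by
  have hb := letter_bounds h t
  obtain ⟨i, hi⟩ : ∃ i, w[t] = 2 * i + 1 := ⟨w[t] / 2, by omega⟩
  have hir : i < r := by omega
  have ht := t.isLt
  have h0 : dnu w ((Sum.inl t, false) : DD w.length r) = (w[t], lastOcc w w[t] t) := by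
    unfold dnu
    dsimp only
    rw [if_pos hk]
    rfl
  have h1 : dnu w ((Sum.inl t, true) : DD w.length r) = (w[t], t.val + 1) := by
    unfold dnu
    dsimp only
    rw [if_pos hk]
    rfl
  have h2 : lastOcc w w[t] (t.val + 1) = t.val + 1 := by
    rw [lastOcc, if_pos]
    rw [List.getElem?_eq_getElem ht]
    rfl
  unfold vx
  constructor
  · rw [h0, hi, nm_eq_cellN hn hir ht.le]
  · rw [h1]
    nth_rewrite 1 [← h2]
    rw [hi, nm_eq_cellN hn hir (by omega)]

theorem vx_letter_even (hn : n = 2 * r) (h : Red n (w ++ [K])) (t : Fin w.length)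
    (hk : w[t] % 2 = 0) :
    vx n w K ((Sum.inl t, false) : DD w.length r) = cellN n (w ++ [K]) (w[t] - 1) t ∧
    vx n w K ((Sum.inl t, true) : DD w.length r) = cellN n (w ++ [K]) (w[t] + 1) t := by
  have hb := letter_bounds h t
  obtain ⟨i, hi⟩ : ∃ i, w[t] = 2 * i + 2 := ⟨w[t] / 2 - 1, by omega⟩
  have hir : i < r := by omega
  have hir2 : i + 1 < r := by omega
  have ht := t.isLt
  have h0 : dnu w ((Sum.inl t, false) : DD w.length r) =
      (w[t] - 1, lastOcc w (w[t] - 1) t) := by
    unfold dnu
    dsimp only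
    rw [if_neg (by omega)]
    rfl
  have h1 : dnu w ((Sum.inl t, true) : DD w.length r) = (w[t] + 1, lastOcc w (w[t] + 1) t) := by
    unfold dnu
    dsimp only
    rw [if_neg (by omega)]
    rfl
  unfold vx
  have e1 : w[t] - 1 = 2 * i + 1 := by omega
  have e2 : w[t] + 1 = 2 * (i + 1) + 1 := by omega
  constructor
  · rw [h0, e1, nm_eq_cellN hn hir ht.le]
  · rw [h1, e2, nm_eq_cellN hn hir2 ht.le]

/-- the two darts of a letter are at the two black corners -/
theorem vx_letter (hn : n = 2 * r) (h : Red n (w ++ [K])) (t : Fin w.length) :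
    (pr n (w ++ [K]) 1 ⟨t.val, by simp⟩).map Fin.val =
      s(vx n w K ((Sum.inl t, false) : DD w.length r),
        vx n w K ((Sum.inl t, true) : DD w.length r)) := by
  have hg : (w ++ [K])[(⟨t.val, by simp⟩ : Fin (w ++ [K]).length)] = w[t] := by
    simp
  unfold pr
  rw [hg]
  by_cases hk : w[t] % 2 = 1
  · rw [if_pos (by omega), (vx_letter_odd hn h t hk).1, (vx_letter_odd hn h t hk).2, Sym2.map_mk]
    rfl
  · rw [if_neg (by omega), (vx_letter_even hn h t (by omega)).1,
      (vx_letter_even hn h t (by omega)).2, Sym2.map_mk]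
    rfl

end Pool.Agent.Lib.MP_72b45c_co.Q
end

section

/-! # MP_72b45c_co, block U (upper bound), job U1: basic facts (parts) -/
end
end

section

section

/-! # MP_72b45c_co, block U (upper bound), job U0b: gluing -/

namespace Pool.Agent.Lib.MP_72b45c_co.Q

open SimpleGraph Equiv Equiv.Perm

variable {X : Type*} [Finite X] [DecidableEq X]

/-- Gluing along a matching of cycles: induction on `S`, `τ = τ' * swap (a i) (b i)`; `sameCycle_merge_iff`,
`cyc_mul_swap_of_not_sameCycle`. -/
theorem glue {Λ ι : Type*} [DecidableEq ι] {σ : Perm X} {ν : X → Λ}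
    (hν : ∀ x y, σ.SameCycle x y ↔ ν x = ν y) (a b : ι → X) (S : Finset ι)
    (h1 : ∀ i ∈ S, ∀ j ∈ S, ν (a i) ≠ ν (b j))
    (h2 : ∀ i ∈ S, ∀ j ∈ S, i ≠ j → ν (a i) ≠ ν (a j) ∧ ν (b i) ≠ ν (b j)) :
    ∃ τ : Perm X, (∀ i ∈ S, τ (a i) = b i ∧ τ (b i) = a i) ∧
      (∀ x, (∀ i ∈ S, x ≠ a i ∧ x ≠ b i) → τ x = x) ∧
      (∀ x y, (σ * τ).SameCycle x y ↔ ν x = ν y ∨
        ∃ i ∈ S, (ν x = ν (a i) ∧ ν y = ν (b i)) ∨ (ν x = ν (b i) ∧ ν y = ν (a i))) ∧
      cyc (σ * τ) + S.card = cyc σ := by
  induction S using Finset.induction_on with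
  | empty =>
    refine ⟨1, by simp, fun x _ => rfl, fun x y => ?_, by simp⟩
    rw [mul_one, hν]
    simp
  | insert i0 S hi0 ih =>
    have h1' : ∀ i ∈ S, ∀ j ∈ S, ν (a i) ≠ ν (b j) := fun i hi j hj =>
      h1 i (Finset.mem_insert_of_mem hi) j (Finset.mem_insert_of_mem hj)
    have h2' : ∀ i ∈ S, ∀ j ∈ S, i ≠ j → ν (a i) ≠ ν (a j) ∧ ν (b i) ≠ ν (b j) :=
      fun i hi j hj => h2 i (Finset.mem_insert_of_mem hi) j (Finset.mem_insert_of_mem hj)
    obtain ⟨τ, t1, t2, t3, t4⟩ := ih h1' h2'
    have hm : i0 ∈ insert i0 S := Finset.mem_insert_self i0 S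
    -- the labels of the new pair differ from those of the old pairs
    have n0 : ν (a i0) ≠ ν (b i0) := h1 i0 hm i0 hm
    have n1 : ∀ i ∈ S, ν (a i0) ≠ ν (a i) ∧ ν (b i0) ≠ ν (b i) := fun i hi =>
      h2 i0 hm i (Finset.mem_insert_of_mem hi) fun h => hi0 (h ▸ hi)
    have n2 : ∀ i ∈ S, ν (a i0) ≠ ν (b i) := fun i hi => h1 i0 hm i (Finset.mem_insert_of_mem hi)
    have n3 : ∀ i ∈ S, ν (a i) ≠ ν (b i0) := fun i hi => h1 i (Finset.mem_insert_of_mem hi) i0 hm
    have scA : ∀ x, (σ * τ).SameCycle x (a i0) ↔ ν x = ν (a i0) := by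
      intro x
      rw [t3]
      constructor
      · rintro (h | ⟨i, hi, ⟨_, h⟩ | ⟨_, h⟩⟩)
        · exact h
        · exact absurd h (n2 i hi)
        · exact absurd h (n1 i hi).1
      · exact Or.inl
    have scB : ∀ x, (σ * τ).SameCycle x (b i0) ↔ ν x = ν (b i0) := by
      intro x
      rw [t3]
      constructor
      · rintro (h | ⟨i, hi, ⟨_, h⟩ | ⟨_, h⟩⟩)
        · exact h
        · exact absurd h (n1 i hi).2
        · exact absurd h.symm (n3 i hi)
      · exact Or.inl
    have scA' : ∀ y, (σ * τ).SameCycle (a i0) y ↔ ν y = ν (a i0) := fun y => by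
      rw [sameCycle_comm, scA]
    have scB' : ∀ y, (σ * τ).SameCycle (b i0) y ↔ ν y = ν (b i0) := fun y => by
      rw [sameCycle_comm, scB]
    have hns : ¬ (σ * τ).SameCycle (a i0) (b i0) := by
      rw [scB]
      exact n0
    have ne : ∀ {x y : X}, ν x ≠ ν y → x ≠ y := fun h h' => h (congrArg ν h')
    refine ⟨τ * swap (a i0) (b i0), fun i hi => ?_, fun x hx => ?_, fun x y => ?_, ?_⟩
    · rcases Finset.mem_insert.1 hi with rfl | hi
      · have e1 : τ (b i) = b i := t2 _ fun j hj => ⟨(ne (n3 j hj)).symm, ne (n1 j hj).2⟩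
        have e2 : τ (a i) = a i := t2 _ fun j hj => ⟨ne (n1 j hj).1, ne (n2 j hj)⟩
        rw [Perm.mul_apply, Perm.mul_apply, swap_apply_left, swap_apply_right]
        exact ⟨e1, e2⟩
      · rw [Perm.mul_apply, Perm.mul_apply,
          swap_apply_of_ne_of_ne (ne (n1 i hi).1).symm (ne (n3 i hi)),
          swap_apply_of_ne_of_ne (ne (n2 i hi)).symm (ne (n1 i hi).2).symm]
        exact t1 i hi
    · have hx0 := hx i0 hm
      rw [Perm.mul_apply, swap_apply_of_ne_of_ne hx0.1 hx0.2]
      exact t2 x fun i hi => hx i (Finset.mem_insert_of_mem hi)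
    · rw [← mul_assoc, sameCycle_merge_iff hns, scA, scB', scB, scA', t3]
      constructor
      · rintro ((h | ⟨i, hi, h⟩) | h | h)
        · exact Or.inl h
        · exact Or.inr ⟨i, Finset.mem_insert_of_mem hi, h⟩
        · exact Or.inr ⟨i0, hm, Or.inl h⟩
        · exact Or.inr ⟨i0, hm, Or.inr h⟩
      · rintro (h | ⟨i, hi, h⟩)
        · exact Or.inl (Or.inl h)
        · rcases Finset.mem_insert.1 hi with rfl | hi
          · rcases h with h | h
            · exact Or.inr (Or.inl h)
            · exact Or.inr (Or.inr h)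
          · exact Or.inl (Or.inr ⟨i, hi, h⟩)
    · have h5 := cyc_mul_swap_of_not_sameCycle (σ * τ) hns
      rw [← mul_assoc, Finset.card_insert_of_notMem hi0]
      omega

end Pool.Agent.Lib.MP_72b45c_co.Q
end

section

/-! # MP_72b45c_co, block U (upper bound), job U0c: small lemmas -/

namespace Pool.Agent.Lib.MP_72b45c_co.Q

open SimpleGraph Equiv Equiv.Perm

variable {X : Type*} [Finite X] [DecidableEq X]

omit [DecidableEq X] in
/-- a function invariant under `π` has at most `cyc π` values -/
theorem card_range_le_cyc {β : Type*} (π : Perm X) (f : X → β) (h : ∀ x, f (π x) = f x) :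
    Nat.card (Set.range f) ≤ cyc π := by
  have hf : ∀ x y, π.SameCycle x y → f x = f y := by
    intro x y hxy
    obtain ⟨n, rfl⟩ := hxy.exists_nat_pow_eq
    induction n with
    | zero => rfl
    | succ n ih =>
      rw [pow_succ', Perm.mul_apply, h]
      exact ih ⟨(n : ℤ), by rw [zpow_natCast]⟩
  have hfin : Finite (Quotient (SameCycle.setoid π)) := Quotient.finite _
  unfold cyc
  refine Nat.card_le_card_of_surjective
    (fun q : Quotient (SameCycle.setoid π) =>
      (⟨Quotient.lift f (fun x y hxy => hf x y hxy) q, by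
        induction q using Quotient.inductionOn with
        | _ x => exact ⟨x, rfl⟩⟩ : Set.range f)) ?_
  rintro ⟨_, x, rfl⟩
  exact ⟨Quotient.mk _ x, rfl⟩

omit [Finite X] [DecidableEq X] in
/-- For every edge `ij`, `i < j`, choose a dart `x` with `P x`, `v x = i`, `v (α x) = j`; `ι` takes it for the dart
from `i` to `j` and `α x` for the dart from `j` to `i`. -/
theorem exists_iota {V : Type*} [LinearOrder V] (H : SimpleGraph V) (α : Perm X)
    (hα : ∀ x, α (α x) = x) (P : X → Prop) (hP : ∀ x, P x → P (α x)) (v : X → V)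
    (h : ∀ i j, H.Adj i j → ∃ x, P x ∧ v x = i ∧ v (α x) = j) :
    ∃ ι : H.Dart → X, Function.Injective ι ∧ (∀ d, ι d.symm = α (ι d)) ∧
      (∀ d, v (ι d) = d.fst) ∧ ∀ d, P (ι d) := by
  classical
  choose c hc1 hc2 hc3 using h
  have hlt : ∀ d : H.Dart, ¬ d.fst < d.snd → d.snd < d.fst := fun d hd =>
    lt_of_le_of_ne (not_lt.mp hd) d.adj.ne'
  set ι : H.Dart → X := fun d =>
    if d.fst < d.snd then c d.fst d.snd d.adj else α (c d.snd d.fst d.adj.symm) with hι
  have hsymm : ∀ d : H.Dart, ι d.symm = α (ι d) := by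
    intro d
    by_cases hd : d.fst < d.snd
    · have h1 : ι d = c d.fst d.snd d.adj := if_pos hd
      have h2 : ι d.symm = α (c d.fst d.snd d.adj) := if_neg (not_lt.mpr hd.le)
      rw [h1, h2]
    · have h1 : ι d = α (c d.snd d.fst d.adj.symm) := if_neg hd
      have h2 : ι d.symm = c d.snd d.fst d.adj.symm := if_pos (hlt d hd)
      rw [h1, h2, hα]
  have hv : ∀ d : H.Dart, v (ι d) = d.fst := by
    intro d
    by_cases hd : d.fst < d.snd
    · have h1 : ι d = c d.fst d.snd d.adj := if_pos hd
      rw [h1, hc2]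
    · have h1 : ι d = α (c d.snd d.fst d.adj.symm) := if_neg hd
      rw [h1, hc3]
  have hPι : ∀ d, P (ι d) := by
    intro d
    by_cases hd : d.fst < d.snd
    · have h1 : ι d = c d.fst d.snd d.adj := if_pos hd
      rw [h1]
      exact hc1 _ _ _
    · have h1 : ι d = α (c d.snd d.fst d.adj.symm) := if_neg hd
      rw [h1]
      exact hP _ (hc1 _ _ _)
  refine ⟨ι, ?_, hsymm, hv, hPι⟩
  intro d d' hdd
  have h1 : d.fst = d'.fst := by rw [← hv d, ← hv d', hdd]
  have h2 : d.snd = d'.snd := by
    have h3 := hv d.symm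
    have h4 := hv d'.symm
    rw [hsymm] at h3 h4
    rw [hdd] at h3
    exact h3.symm.trans h4
  exact SimpleGraph.Dart.ext _ _ (Prod.ext h1 h2)

end Pool.Agent.Lib.MP_72b45c_co.Q
end

section

/-! # MP_72b45c_co, block U (upper bound), job U0: gluing cycles along a matching; choice of darts (parts) -/
end

section

/-! # MP_72b45c_co, block U (upper bound), job U2a: start -/

namespace Pool.Agent.Lib.MP_72b45c_co.Q

open SimpleGraph Equiv Equiv.Perm

variable {n r K : ℕ} {w : List ℕ}

private theorem U2a_cyc_one (X : Type*) : cyc (1 : Perm X) = Nat.card X := by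
  unfold cyc
  refine (Nat.card_congr (Equiv.ofBijective
    (fun x : X => (Quotient.mk (SameCycle.setoid (1 : Perm X)) x)) ⟨?_, ?_⟩)).symm
  · intro x y hxy
    have h : (1 : Perm X).SameCycle x y := Quotient.exact hxy
    obtain ⟨k, hk⟩ := h
    simpa using hk
  · intro q
    exact Quotient.exists_rep q

/-- `σ = 1`, `m = bt` -/
theorem Inv_zero (n : ℕ) (w : List ℕ) (K r : ℕ) : Inv n w K r 0 1 (fun i => bt i) := by
  refine ⟨fun x _ => rfl, fun i => rfl, fun i => trivial, fun i => ?_, ?_, fun i => rfl,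
    fun i => Or.inl ⟨rfl, rfl⟩, ?_, ?_⟩
  · rw [dnu_bt]
    rfl
  · rintro ⟨x | x, b⟩ ⟨y | y, c⟩ hx hy
    · exact absurd hx (Nat.not_lt_zero _)
    · exact absurd hx (Nat.not_lt_zero _)
    · exact absurd hy (Nat.not_lt_zero _)
    · constructor
      · rintro ⟨k, hk⟩
        have h : ((Sum.inr x, b) : DD w.length r) = (Sum.inr y, c) := by simpa using hk
        rw [h]
      · intro h
        have h2 : ((Sum.inr x, b) : DD w.length r) = (Sum.inr y, c) := by
          cases b <;> cases c
          · have h3 : ((2 * x.val + 1, 0) : ℕ × ℕ) = (2 * y.val + 1, 0) := h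
            have h4 : x = y := Fin.ext (by have := congrArg Prod.fst h3; simp only at this; omega)
            rw [h4]
          · have h3 : ((2 * x.val + 1, 0) : ℕ × ℕ) = (0, y.val) := h
            have := congrArg Prod.fst h3
            simp only at this
            omega
          · have h3 : ((0, x.val) : ℕ × ℕ) = (2 * y.val + 1, 0) := h
            have := congrArg Prod.fst h3
            simp only at this
            omega
          · have h3 : ((0, x.val) : ℕ × ℕ) = (0, y.val) := h
            have h4 : x = y := Fin.ext (congrArg Prod.snd h3)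
            rw [h4]
        rw [h2]
  · rintro ⟨x | x, b⟩ hx hn _
    · exact absurd hx (Nat.not_lt_zero _)
    · cases b
      · rfl
      · exact absurd rfl (hn x)
  · have h1 := U2a_cyc_one (DD w.length r)
    rw [h1, card_DD]
    simp

end Pool.Agent.Lib.MP_72b45c_co.Q
end

section

/-! # MP_72b45c_co, block U (upper bound), job U2b: insertion of a dart -/

namespace Pool.Agent.Lib.MP_72b45c_co.Q

open SimpleGraph Equiv Equiv.Perm

variable {n r K : ℕ} {w : List ℕ}

/-- Insertion of an unused dart `d` (a fixed point of `σ`) after the used dart `a`: the cycles of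
`σ * swap a d` are those of `σ` with `d` added to the cycle of `a`. -/
theorem insert_dart {X : Type*} [Finite X] [DecidableEq X] {σ : Perm X} {a d : X} (hd : σ d = d)
    (had : a ≠ d) :
    (σ * swap a d) a = d ∧ (σ * swap a d) d = σ a ∧
    (∀ x, x ≠ a → x ≠ d → (σ * swap a d) x = σ x) ∧
    (∀ x y, x ≠ d → y ≠ d → ((σ * swap a d).SameCycle x y ↔ σ.SameCycle x y)) ∧
    (∀ x, x ≠ d → ((σ * swap a d).SameCycle x d ↔ σ.SameCycle x a)) ∧
    cyc (σ * swap a d) + 1 = cyc σ := by
  have hfix : ∀ x, σ.SameCycle x d → x = d := fun x h => h.eq_of_right hd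
  have hns : ¬ σ.SameCycle a d := fun h => had (hfix a h)
  obtain ⟨hτ1, hτ2⟩ := sameCycle_mul_swap σ hns
  have e1 : (σ * swap a d) a = d := by simp [hd]
  have e2 : (σ * swap a d) d = σ a := by simp
  have e3 : ∀ x, x ≠ a → x ≠ d → (σ * swap a d) x = σ x := by
    intro x h1 h2
    rw [Perm.mul_apply, swap_apply_of_ne_of_ne h1 h2]
  have key : ∀ x, x ≠ d → ∀ y, (σ * swap a d).SameCycle x y →
      σ.SameCycle x y ∨ (y = d ∧ σ.SameCycle x a) := by
    intro x hx y hxy
    have hO : ∀ z ∈ {z | σ.SameCycle x z ∨ (z = d ∧ σ.SameCycle x a)},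
        (σ * swap a d) z ∈ {z | σ.SameCycle x z ∨ (z = d ∧ σ.SameCycle x a)} := by
      intro z hz
      simp only [Set.mem_ofPred_eq] at hz ⊢
      by_cases hza : z = a
      · subst hza
        rw [e1]
        rcases hz with hz | hz
        · exact Or.inr ⟨rfl, hz⟩
        · exact Or.inr ⟨rfl, hz.2⟩
      · by_cases hzd : z = d
        · subst hzd
          rw [e2]
          rcases hz with hz | hz
          · exact absurd (hfix x hz) hx
          · exact Or.inl (sameCycle_apply_right.2 hz.2)
        · rw [e3 z hza hzd]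
          rcases hz with hz | hz
          · exact Or.inl (sameCycle_apply_right.2 hz)
          · exact absurd hz.1 hzd
    exact CycleCount_closed _ _ hO (Or.inl (SameCycle.refl _ _)) hxy
  refine ⟨e1, e2, e3, ?_, ?_, cyc_mul_swap_of_not_sameCycle σ hns⟩
  · intro x y hx hy
    constructor
    · intro h
      rcases key x hx y h with h1 | h1
      · exact h1
      · exact absurd h1.1 hy
    · exact hτ2 x y
  · intro x hx
    constructor
    · intro h
      rcases key x hx d h with h1 | h1
      · exact absurd (hfix x h1) hx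
      · exact h1.2
    · intro h
      exact (hτ2 x a h).trans hτ1

end Pool.Agent.Lib.MP_72b45c_co.Q
end

section

/-! # MP_72b45c_co, block U (upper bound), job U2: start of the construction (parts) -/
end

section

/-! # MP_72b45c_co, block U (upper bound), job U3: a letter at an odd position -/

namespace Pool.Agent.Lib.MP_72b45c_co.Q

open SimpleGraph Equiv Equiv.Perm

variable {n r K : ℕ} {w : List ℕ}

private theorem U3_cellN (n K : ℕ) {w : List ℕ} {k t : ℕ} (ht : t < w.length) (h : w[t] ≠ k) :
    cellN n (w ++ [K]) k (t + 1) = cellN n (w ++ [K]) k t := by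
  have ht' : t < (w ++ [K]).length := by
    rw [List.length_append]
    omega
  have h1 : (w ++ [K])[t]'ht' ≠ k := by
    rw [List.getElem_append_left ht]
    exact h
  exact congrArg Fin.val (cell_succ_of_ne n ht' h1)

private theorem U3_used {M r t : ℕ} (ht : t < M) (x : DD M r) (hx : used (t + 1) x) :
    used t x ∨ x = (Sum.inl ⟨t, ht⟩, false) ∨ x = (Sum.inl ⟨t, ht⟩, true) := by
  obtain ⟨s | j, b⟩ := x
  · have h1 : s.val < t + 1 := hx
    by_cases h2 : s.val < t
    · exact Or.inl h2
    · have h3 : s = ⟨t, ht⟩ := Fin.ext (by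
        show s.val = t
        omega)
      subst h3
      cases b
      · exact Or.inr (Or.inl rfl)
      · exact Or.inr (Or.inr rfl)
  · exact Or.inl trivial

private theorem U3_used_mono {M r t : ℕ} {x : DD M r} (hx : used t x) : used (t + 1) x := by
  obtain ⟨s | j, b⟩ := x
  · exact Nat.lt_succ_of_lt hx
  · trivial

private theorem U3_not_used {M r t : ℕ} (ht : t < M) (b : Bool) :
    ¬ used t ((Sum.inl ⟨t, ht⟩, b) : DD M r) := fun h => lt_irrefl t h

private theorem U3_used_rv {M r t : ℕ} {x : DD M r} (hx : used t x) : used t (rv M r x) := by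
  obtain ⟨s | j, b⟩ := x
  · exact hx
  · trivial

private theorem U3_snd {w : List ℕ} {r t : ℕ} {x : DD w.length r} (hx : used t x)
    (h0 : (dnu w x).1 ≠ 0) : (dnu w x).2 ≤ t := by
  obtain ⟨s | j, b⟩ := x
  · have h1 : s.val < t := hx
    have h2 : ∀ k, lastOcc w k s ≤ s := fun k => lastOcc_le w k s
    unfold dnu
    dsimp only
    split_ifs
    · exact h1
    · exact (h2 _).trans h1.le
    · exact (h2 _).trans h1.le
    · exact (h2 _).trans h1.le
  · cases b
    · exact Nat.zero_le _
    · exact absurd rfl h0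

private theorem U3_ins {X : Type*} [Finite X] [DecidableEq X] {σ : Perm X} {a d : X}
    (hd : σ d = d) (had : a ≠ d) (x y : X) :
    (σ * swap a d).SameCycle x y ↔
      σ.SameCycle (if x = d then a else x) (if y = d then a else y) := by
  obtain ⟨_, _, _, h4, h5, _⟩ := insert_dart hd had
  by_cases hx : x = d
  · by_cases hy : y = d
    · rw [if_pos hx, if_pos hy, hx, hy]
      exact ⟨fun _ => SameCycle.refl _ _, fun _ => SameCycle.refl _ _⟩
    · rw [if_pos hx, if_neg hy, hx, sameCycle_comm, h5 y hy, sameCycle_comm]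
  · by_cases hy : y = d
    · rw [if_neg hx, if_pos hy, hy, h5 x hx]
    · rw [if_neg hx, if_neg hy, h4 x y hx hy]

/-- The letter `k = w[t] = 2 i + 1`: `σ' = σ * swap (m i) S_t`, `m' i = N_t`, other markers unchanged.
`same`: `insert_dart`; `S_t` gets the label `dnu (m i) = (k, lastOcc w k t)`, `N_t` the new label `(k, t + 1)`.
`lam_m`, `j = i`: `σ' N_t = N_t`, `lam N_t = cell (k-1) t`. `j ≠ i`: unchanged (`m` is injective by `dnu_m`; `2 j ≠ k`).
`lam_a`, `j = i`: `lam S_t = cell (k+1) t`; `σ' (bt i) = S_t` if `m i = bt i`, then `cell (2i+2) t = cell (2i+2) 0`; otherwise unchanged.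
`lam_x`: `x = N_t`: `lam (σ' S_t) = lam (σ (m i)) = cell (2i) t = lam N_t`. `rv x = m i`, `x` not a leaf, so `m i ≠ bt i`:
`lam (σ' (m i)) = lam S_t = cell (k+1) t = lam (rv (m i)) = lam x`. All other darts are unchanged.
(Checked by computer.) -/
theorem Inv_odd (hn : n = 2 * r) (h : Red n (w ++ [K])) {t : ℕ} (ht : t < w.length) {i : Fin r}
    (hk : w[t] = 2 * i.val + 1) {σ : Perm (DD w.length r)} {m : Fin r → DD w.length r}
    (hI : Inv n w K r t σ m) :
    Inv n w K r (t + 1) (σ * swap (m i) (Sum.inl ⟨t, ht⟩, false))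
      (Function.update m i (Sum.inl ⟨t, ht⟩, true)) := by
  have hodd : w[t] % 2 = 1 := by omega
  set S : DD w.length r := (Sum.inl ⟨t, ht⟩, false) with hS
  set N : DD w.length r := (Sum.inl ⟨t, ht⟩, true) with hN
  have hSN : S ≠ N := fun h => Bool.noConfusion (congrArg Prod.snd h)
  have uS : ¬ used t S := U3_not_used ht false
  have uN : ¬ used t N := U3_not_used ht true
  have uS' : used (t + 1) S := Nat.lt_succ_self t
  have uN' : used (t + 1) N := Nat.lt_succ_self t
  have um : ∀ j, m j ≠ S ∧ m j ≠ N := fun j =>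
    ⟨fun h => uS (h ▸ hI.used_m j), fun h => uN (h ▸ hI.used_m j)⟩
  have hmm : ∀ j j', m j = m j' → j = j' := by
    intro j j' h
    have h1 := congrArg (fun x => (dnu w x).1) h
    simp only [hI.dnu_m] at h1
    exact Fin.ext (by omega)
  have hmb : ∀ j j', m j = bt j' → j = j' := by
    intro j j' h
    have h1 := congrArg (fun x => (dnu w x).1) h
    simp only [hI.dnu_m, dnu_bt] at h1
    exact Fin.ext (by omega)
  have hml : ∀ j j', m j ≠ lf j' := by
    intro j j' h
    have h1 := congrArg (fun x => (dnu w x).1) h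
    simp only [hI.dnu_m, dnu_lf] at h1
    omega
  have hbS : ∀ j, bt j ≠ S ∧ bt j ≠ N := fun j =>
    ⟨fun h => Sum.inr_ne_inl (congrArg Prod.fst h), fun h => Sum.inr_ne_inl (congrArg Prod.fst h)⟩
  have hlS : ∀ j, lf j ≠ S ∧ lf j ≠ N := fun j =>
    ⟨fun h => Sum.inr_ne_inl (congrArg Prod.fst h), fun h => Sum.inr_ne_inl (congrArg Prod.fst h)⟩
  have hrS : rv _ _ S = N := rfl
  have hrN : rv _ _ N = S := rfl
  have dS : dnu w S = (w[t], lastOcc w w[t] t) := by
    show (if w[t] % 2 = 1 then (w[t], if false then t + 1 else lastOcc w w[t] t)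
      else _) = _
    rw [if_pos hodd]
    rfl
  have dN : dnu w N = (w[t], t + 1) := by
    show (if w[t] % 2 = 1 then (w[t], if true then t + 1 else lastOcc w w[t] t)
      else _) = _
    rw [if_pos hodd]
    rfl
  have lS : lam n w K S = cellN n (w ++ [K]) (2 * i.val + 2) t := by
    show (if w[t] % 2 = 1 then (if false then cellN n (w ++ [K]) (w[t] - 1) t
      else cellN n (w ++ [K]) (w[t] + 1) t) else _) = _
    rw [if_pos hodd, hk]
    rfl
  have lN : lam n w K N = cellN n (w ++ [K]) (2 * i.val) t := by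
    show (if w[t] % 2 = 1 then (if true then cellN n (w ++ [K]) (w[t] - 1) t
      else cellN n (w ++ [K]) (w[t] + 1) t) else _) = _
    rw [if_pos hodd, hk]
    rfl
  have hne : ∀ k, k ≠ 2 * i.val + 1 →
      cellN n (w ++ [K]) k (t + 1) = cellN n (w ++ [K]) k t := fun k h =>
    U3_cellN n K ht (by rw [hk]; exact h.symm)
  have hfS : σ S = S := hI.fix S uS
  obtain ⟨a1, a2, a3, _, _, a6⟩ := insert_dart hfS (um i).1
  have a0 := U3_ins hfS (um i).1
  set σ' := σ * swap (m i) S with hσ'
  have σN : σ' N = N := by rw [a3 N (um i).2.symm hSN.symm, hI.fix N uN]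
  have mi : Function.update m i N i = N := Function.update_self i N m
  have mj : ∀ j, j ≠ i → Function.update m i N j = m j := fun j hj =>
    Function.update_of_ne hj N m
  have dSm : dnu w S = dnu w (m i) := by rw [dS, hI.dnu_m, hk]
  refine ⟨?_, ?_, ?_, ?_, ?_, ?_, ?_, ?_, ?_⟩
  · -- fix
    intro x hx
    have h1 : ¬ used t x := fun h => hx (U3_used_mono h)
    have h2 : x ≠ S := fun h => hx (h ▸ uS')
    have h3 : x ≠ m i := fun h => h1 (h ▸ hI.used_m i)
    rw [a3 x h3 h2, hI.fix x h1]
  · -- leaf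
    intro j
    rw [a3 _ (hml i j).symm (hlS j).1, hI.leaf]
  · -- used_m
    intro j
    by_cases hj : j = i
    · rw [hj, mi]
      exact uN'
    · rw [mj j hj]
      exact U3_used_mono (hI.used_m j)
  · -- dnu_m
    intro j
    by_cases hj : j = i
    · rw [hj, mi, dN, hk, lastOcc_succ_self ht hk]
    · rw [mj j hj, hI.dnu_m, lastOcc_succ_of_ne ht]
      rw [hk]
      intro h
      exact hj (Fin.ext (by omega))
  · -- same
    intro x y hx hy
    -- darts different from `N`
    have key : ∀ z, used (t + 1) z → z ≠ N →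
        used t (if z = S then m i else z) ∧ dnu w (if z = S then m i else z) = dnu w z ∧
        dnu w z ≠ dnu w N := by
      intro z hz hzN
      by_cases hzS : z = S
      · rw [if_pos hzS, hzS]
        refine ⟨hI.used_m i, dSm.symm, ?_⟩
        rw [dS, dN]
        intro h
        have h1 := lastOcc_le w w[t] t
        have h2 : lastOcc w w[t] t = t + 1 := congrArg Prod.snd h
        omega
      · rw [if_neg hzS]
        have hzu : used t z := by
          rcases U3_used ht z hz with h | h | h
          · exact h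
          · exact absurd h hzS
          · exact absurd h hzN
        refine ⟨hzu, rfl, ?_⟩
        intro h
        have h1 : (dnu w z).1 = w[t] := by rw [h, dN]
        have h2 : (dnu w z).2 = t + 1 := by rw [h, dN]
        have h3 := U3_snd hzu (by omega)
        omega
    by_cases hxN : x = N
    · by_cases hyN : y = N
      · rw [hxN, hyN]
        exact ⟨fun _ => rfl, fun _ => SameCycle.refl _ _⟩
      · obtain ⟨_, _, h3⟩ := key y hy hyN
        rw [hxN]
        constructor
        · intro h
          exact absurd ((h.eq_of_left σN).symm) hyN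
        · intro h
          exact absurd h.symm h3
    · obtain ⟨x1, x2, x3⟩ := key x hx hxN
      by_cases hyN : y = N
      · rw [hyN]
        constructor
        · intro h
          exact absurd (h.eq_of_right σN) hxN
        · intro h
          exact absurd h x3
      · obtain ⟨y1, y2, _⟩ := key y hy hyN
        rw [a0 x y, hI.same _ _ x1 y1, x2, y2]
  · -- lam_m
    intro j
    by_cases hj : j = i
    · rw [hj, mi, σN, lN, hne _ (by omega)]
    · rw [mj j hj, a3 _ (fun h => hj (hmm _ _ h)) (um j).1, hI.lam_m, hne _ (by omega)]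
  · -- lam_a
    intro j
    by_cases hj : j = i
    · subst hj
      right
      rw [mi]
      refine ⟨(hbS j).2.symm, ?_, ?_⟩
      · rw [hrN, lS, hne _ (by omega)]
      · rcases hI.lam_a j with ⟨h1, h2⟩ | ⟨h1, _, h3⟩
        · rw [← h1, a1, lS, h2]
        · rw [a3 _ h1.symm (hbS j).1, h3]
    · have hj' : j.val ≠ i.val := fun h => hj (Fin.ext h)
      rw [mj j hj, hne _ (by omega)]
      rcases hI.lam_a j with ⟨h1, h2⟩ | ⟨h1, h2, h3⟩
      · exact Or.inl ⟨h1, h2⟩
      · refine Or.inr ⟨h1, h2, ?_⟩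
        rw [a3 _ (fun h => hj (hmb _ _ h.symm).symm) (hbS j).1, h3]
  · -- lam_x
    intro x hx hxl hxm
    rcases U3_used ht x hx with h | h | h
    · by_cases hy : rv _ _ x = m i
      · have h1 : x = rv _ _ (m i) := by rw [← hy, rv_rv]
        have h2 : m i ≠ bt i := by
          intro h3
          rw [h3, rv_bt] at h1
          exact hxl i h1
        rw [hy, a1, lS]
        rcases hI.lam_a i with ⟨h3, _⟩ | ⟨_, h4, _⟩
        · exact absurd h3 h2
        · rw [← h4, ← h1]
      · have hy' : rv _ _ x ≠ S := fun h3 => uS (h3 ▸ U3_used_rv h)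
        rw [a3 _ hy hy']
        refine hI.lam_x x h hxl fun j => ?_
        by_cases hj : j = i
        · rw [hj]
          exact hy
        · have := hxm j
          rwa [mj j hj] at this
    · exfalso
      apply hxm i
      rw [mi, h]
      exact hrS
    · rw [h, hrN, a2, hI.lam_m, lN]
  · -- cyc_eq
    have h1 := hI.cyc_eq
    have h2 : (w.take (t + 1)).countP (fun k => k % 2 == 1) =
        (w.take t).countP (fun k => k % 2 == 1) + 1 := by
      rw [List.take_succ_eq_append_getElem ht, List.countP_append, List.countP_singleton]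
      simp [hodd]
    have h3 : (w.take (t + 1)).countP (fun k => k % 2 == 0) =
        (w.take t).countP (fun k => k % 2 == 0) := by
      rw [List.take_succ_eq_append_getElem ht, List.countP_append, List.countP_singleton]
      simp [hodd]
    rw [h2, h3]
    omega

end Pool.Agent.Lib.MP_72b45c_co.Q
end

section

/-! # MP_72b45c_co, block U (upper bound), job U4: a letter at an even position -/

namespace Pool.Agent.Lib.MP_72b45c_co.Q

open SimpleGraph Equiv Equiv.Perm

variable {n r K : ℕ} {w : List ℕ}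

private theorem U4_cellN (n K : ℕ) {w : List ℕ} {k t : ℕ} (ht : t < w.length) (h : w[t] ≠ k) :
    cellN n (w ++ [K]) k (t + 1) = cellN n (w ++ [K]) k t := by
  have ht' : t < (w ++ [K]).length := by
    rw [List.length_append]
    omega
  have h1 : (w ++ [K])[t]'ht' ≠ k := by
    rw [List.getElem_append_left ht]
    exact h
  exact congrArg Fin.val (cell_succ_of_ne n ht' h1)

private theorem U4_used {M r t : ℕ} (ht : t < M) (x : DD M r) (hx : used (t + 1) x) :
    used t x ∨ x = (Sum.inl ⟨t, ht⟩, false) ∨ x = (Sum.inl ⟨t, ht⟩, true) := by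
  obtain ⟨s | j, b⟩ := x
  · have h1 : s.val < t + 1 := hx
    by_cases h2 : s.val < t
    · exact Or.inl h2
    · have h3 : s = ⟨t, ht⟩ := Fin.ext (by
        show s.val = t
        omega)
      subst h3
      cases b
      · exact Or.inr (Or.inl rfl)
      · exact Or.inr (Or.inr rfl)
  · exact Or.inl trivial

private theorem U4_used_mono {M r t : ℕ} {x : DD M r} (hx : used t x) : used (t + 1) x := by
  obtain ⟨s | j, b⟩ := x
  · exact Nat.lt_succ_of_lt hx
  · trivial

private theorem U4_not_used {M r t : ℕ} (ht : t < M) (b : Bool) :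
    ¬ used t ((Sum.inl ⟨t, ht⟩, b) : DD M r) := fun h => lt_irrefl t h

private theorem U4_used_rv {M r t : ℕ} {x : DD M r} (hx : used t x) : used t (rv M r x) := by
  obtain ⟨s | j, b⟩ := x
  · exact hx
  · trivial

private theorem U4_snd {w : List ℕ} {r t : ℕ} {x : DD w.length r} (hx : used t x)
    (h0 : (dnu w x).1 ≠ 0) : (dnu w x).2 ≤ t := by
  obtain ⟨s | j, b⟩ := x
  · have h1 : s.val < t := hx
    have h2 : ∀ k, lastOcc w k s ≤ s := fun k => lastOcc_le w k s
    unfold dnu
    dsimp only
    split_ifs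
    · exact h1
    · exact (h2 _).trans h1.le
    · exact (h2 _).trans h1.le
    · exact (h2 _).trans h1.le
  · cases b
    · exact Nat.zero_le _
    · exact absurd rfl h0

private theorem U4_ins {X : Type*} [Finite X] [DecidableEq X] {σ : Perm X} {a d : X}
    (hd : σ d = d) (had : a ≠ d) (x y : X) :
    (σ * swap a d).SameCycle x y ↔
      σ.SameCycle (if x = d then a else x) (if y = d then a else y) := by
  obtain ⟨_, _, _, h4, h5, _⟩ := insert_dart hd had
  by_cases hx : x = d
  · by_cases hy : y = d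
    · rw [if_pos hx, if_pos hy, hx, hy]
      exact ⟨fun _ => SameCycle.refl _ _, fun _ => SameCycle.refl _ _⟩
    · rw [if_pos hx, if_neg hy, hx, sameCycle_comm, h5 y hy, sameCycle_comm]
  · by_cases hy : y = d
    · rw [if_neg hx, if_pos hy, hy, h5 x hx]
    · rw [if_neg hx, if_neg hy, h4 x y hx hy]

/-- The letter `k = w[t] = 2 j + 2` (`i = j`, `i' = j + 1`): `σ' = σ * swap (m i) W_t * swap (m i') E_t`, `m' i = W_t`, other markers
unchanged. Values: `σ' (m i) = W_t`, `σ' W_t = σ (m i)`, `σ' (m i') = E_t`, `σ' E_t = σ (m i')`.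
`same`: `insert_dart` twice; `W_t` gets the label `dnu (m i)`, `E_t` the label `dnu (m i')`.
`lam_m`: `i`: `lam (σ' W_t) = lam (σ (m i)) = cell (2j) t`; `i'`: `lam (σ' (m i')) = lam E_t = cell k (t+1) = cell (2j+2) (t+1)`.
`lam_a`: `i`: `lam (rv W_t) = lam E_t = cell k (t+1)`; `σ' (bt i) = W_t` with `lam W_t = cell k t = cell (2j+2) 0` if `m i = bt i`, otherwise
unchanged; `i'`: unchanged (`2j+4 ≠ k`; `bt i' ≠ m i, W_t, E_t`; if `m i' ≠ bt i'` then `σ' (bt i') = σ (bt i')`).
`lam_x`: `x = W_t`: `lam (σ' E_t) = lam (σ (m i')) = cell (2j+2) t = lam W_t`. `rv x = m i`, `x` not a leaf, so `m i ≠ bt i`: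
`lam (σ' (m i)) = lam W_t = cell k t = lam (rv (m i)) = lam x`. (Checked by computer.) -/
theorem Inv_even (hn : n = 2 * r) (h : Red n (w ++ [K])) {t : ℕ} (ht : t < w.length) {i i' : Fin r}
    (hi : i'.val = i.val + 1) (hk : w[t] = 2 * i.val + 2) {σ : Perm (DD w.length r)}
    {m : Fin r → DD w.length r} (hI : Inv n w K r t σ m) :
    Inv n w K r (t + 1)
      (σ * swap (m i) (Sum.inl ⟨t, ht⟩, false) * swap (m i') (Sum.inl ⟨t, ht⟩, true))
      (Function.update m i (Sum.inl ⟨t, ht⟩, false)) := by
  have hev : ¬ w[t] % 2 = 1 := by omega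
  set S : DD w.length r := (Sum.inl ⟨t, ht⟩, false) with hS
  set N : DD w.length r := (Sum.inl ⟨t, ht⟩, true) with hN
  have hSN : S ≠ N := fun h => Bool.noConfusion (congrArg Prod.snd h)
  have uS : ¬ used t S := U4_not_used ht false
  have uN : ¬ used t N := U4_not_used ht true
  have uS' : used (t + 1) S := Nat.lt_succ_self t
  have uN' : used (t + 1) N := Nat.lt_succ_self t
  have um : ∀ j, m j ≠ S ∧ m j ≠ N := fun j =>
    ⟨fun h => uS (h ▸ hI.used_m j), fun h => uN (h ▸ hI.used_m j)⟩
  have hmm : ∀ j j', m j = m j' → j = j' := by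
    intro j j' h
    have h1 := congrArg (fun x => (dnu w x).1) h
    simp only [hI.dnu_m] at h1
    exact Fin.ext (by omega)
  have hmb : ∀ j j', m j = bt j' → j = j' := by
    intro j j' h
    have h1 := congrArg (fun x => (dnu w x).1) h
    simp only [hI.dnu_m, dnu_bt] at h1
    exact Fin.ext (by omega)
  have hml : ∀ j j', m j ≠ lf j' := by
    intro j j' h
    have h1 := congrArg (fun x => (dnu w x).1) h
    simp only [hI.dnu_m, dnu_lf] at h1
    omega
  have hbS : ∀ j, bt j ≠ S ∧ bt j ≠ N := fun j =>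
    ⟨fun h => Sum.inr_ne_inl (congrArg Prod.fst h), fun h => Sum.inr_ne_inl (congrArg Prod.fst h)⟩
  have hlS : ∀ j, lf j ≠ S ∧ lf j ≠ N := fun j =>
    ⟨fun h => Sum.inr_ne_inl (congrArg Prod.fst h), fun h => Sum.inr_ne_inl (congrArg Prod.fst h)⟩
  have hii : i' ≠ i := fun h => by
    rw [h] at hi
    omega
  have hrS : rv _ _ S = N := rfl
  have hrN : rv _ _ N = S := rfl
  have dS : dnu w S = (w[t] - 1, lastOcc w (w[t] - 1) t) := by
    show (if w[t] % 2 = 1 then _ else if false then _ else (w[t] - 1, lastOcc w (w[t] - 1) t)) = _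
    rw [if_neg hev]
    rfl
  have dN : dnu w N = (w[t] + 1, lastOcc w (w[t] + 1) t) := by
    show (if w[t] % 2 = 1 then _ else if true then (w[t] + 1, lastOcc w (w[t] + 1) t) else _) = _
    rw [if_neg hev]
    rfl
  have lS : lam n w K S = cellN n (w ++ [K]) (2 * i.val + 2) t := by
    show (if w[t] % 2 = 1 then _ else (if false then _ else cellN n (w ++ [K]) w[t] t)) = _
    rw [if_neg hev, hk]
    rfl
  have lN : lam n w K N = cellN n (w ++ [K]) (2 * i.val + 2) (t + 1) := by
    show (if w[t] % 2 = 1 then _ else (if true then cellN n (w ++ [K]) w[t] (t + 1) else _)) = _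
    rw [if_neg hev, hk]
    rfl
  have hne : ∀ k, k ≠ 2 * i.val + 2 →
      cellN n (w ++ [K]) k (t + 1) = cellN n (w ++ [K]) k t := fun k h =>
    U4_cellN n K ht (by rw [hk]; exact h.symm)
  have hfS : σ S = S := hI.fix S uS
  obtain ⟨a1, a2, a3, _, _, a6⟩ := insert_dart hfS (um i).1
  have a0 := U4_ins hfS (um i).1
  set σ₁ := σ * swap (m i) S with hσ₁
  have hfN : σ₁ N = N := by rw [a3 N (um i).2.symm hSN.symm, hI.fix N uN]
  obtain ⟨b1, b2, b3, _, _, b6⟩ := insert_dart hfN (um i').2
  have b0 := U4_ins hfN (um i').2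
  set σ' := σ₁ * swap (m i') N with hσ'
  -- values of the new rotation
  have c1 : σ' (m i) = S := by
    rw [b3 _ (fun h => hii (hmm _ _ h).symm) (um i).2, a1]
  have c2 : σ' S = σ (m i) := by
    rw [b3 _ (um i').1.symm hSN, a2]
  have c3 : σ' N = σ (m i') := by
    rw [b2, a3 _ (fun h => hii (hmm _ _ h)) (um i').1]
  have c4 : ∀ x, x ≠ m i → x ≠ m i' → x ≠ S → x ≠ N → σ' x = σ x := by
    intro x h1 h2 h3 h4
    rw [b3 x h2 h4, a3 x h1 h3]
  have mi : Function.update m i S i = S := Function.update_self i S m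
  have mj : ∀ j, j ≠ i → Function.update m i S j = m j := fun j hj =>
    Function.update_of_ne hj S m
  have dSm : dnu w S = dnu w (m i) := by
    rw [dS, hI.dnu_m, hk]
    rfl
  have dNm : dnu w N = dnu w (m i') := by
    rw [dN, hI.dnu_m, hk, show 2 * i.val + 2 + 1 = 2 * i'.val + 1 by omega]
  refine ⟨?_, ?_, ?_, ?_, ?_, ?_, ?_, ?_, ?_⟩
  · -- fix
    intro x hx
    have h1 : ¬ used t x := fun h => hx (U4_used_mono h)
    have h2 : x ≠ S := fun h => hx (h ▸ uS')
    have h2' : x ≠ N := fun h => hx (h ▸ uN')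
    have h3 : ∀ j, x ≠ m j := fun j h => h1 (h ▸ hI.used_m j)
    rw [c4 x (h3 i) (h3 i') h2 h2', hI.fix x h1]
  · -- leaf
    intro j
    rw [c4 _ (hml i j).symm (hml i' j).symm (hlS j).1 (hlS j).2, hI.leaf]
  · -- used_m
    intro j
    by_cases hj : j = i
    · rw [hj, mi]
      exact uS'
    · rw [mj j hj]
      exact U4_used_mono (hI.used_m j)
  · -- dnu_m
    intro j
    have h1 : lastOcc w (2 * j.val + 1) (t + 1) = lastOcc w (2 * j.val + 1) t :=
      lastOcc_succ_of_ne ht (by rw [hk]; omega)
    rw [h1]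
    by_cases hj : j = i
    · rw [hj, mi, dSm, hI.dnu_m]
    · rw [mj j hj, hI.dnu_m]
  · -- same
    intro x y hx hy
    have key : ∀ z, used (t + 1) z →
        used t (if (if z = N then m i' else z) = S then m i else (if z = N then m i' else z)) ∧
        dnu w (if (if z = N then m i' else z) = S then m i else (if z = N then m i' else z)) =
          dnu w z := by
      intro z hz
      by_cases hzN : z = N
      · rw [if_pos hzN, if_neg (um i').1, hzN]
        exact ⟨hI.used_m i', dNm.symm⟩
      · rw [if_neg hzN]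
        by_cases hzS : z = S
        · rw [if_pos hzS, hzS]
          exact ⟨hI.used_m i, dSm.symm⟩
        · rw [if_neg hzS]
          refine ⟨?_, rfl⟩
          rcases U4_used ht z hz with h | h | h
          · exact h
          · exact absurd h hzS
          · exact absurd h hzN
    obtain ⟨x1, x2⟩ := key x hx
    obtain ⟨y1, y2⟩ := key y hy
    rw [b0 x y, a0, hI.same _ _ x1 y1, x2, y2]
  · -- lam_m
    intro j
    by_cases hj : j = i
    · rw [hj, mi, c2, hI.lam_m, hne _ (by omega)]
    · rw [mj j hj]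
      by_cases hj' : j = i'
      · rw [hj', b1, lN, show 2 * i'.val = 2 * i.val + 2 by omega]
      · have hj2 : j.val ≠ i'.val := fun h => hj' (Fin.ext h)
        rw [c4 _ (fun h => hj (hmm _ _ h)) (fun h => hj' (hmm _ _ h)) (um j).1 (um j).2,
          hI.lam_m, hne _ (by omega)]
  · -- lam_a
    intro j
    by_cases hj : j = i
    · subst hj
      right
      rw [mi]
      refine ⟨(hbS j).1.symm, ?_, ?_⟩
      · rw [hrS, lN]
      · rcases hI.lam_a j with ⟨h1, h2⟩ | ⟨h1, _, h3⟩
        · rw [← h1, c1, lS, h2]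
        · rw [c4 _ h1.symm (fun h => hii (hmb _ _ h.symm)) (hbS j).1 (hbS j).2, h3]
    · have hj' : j.val ≠ i.val := fun h => hj (Fin.ext h)
      rw [mj j hj, hne _ (by omega)]
      rcases hI.lam_a j with ⟨h1, h2⟩ | ⟨h1, h2, h3⟩
      · exact Or.inl ⟨h1, h2⟩
      · refine Or.inr ⟨h1, h2, ?_⟩
        rw [c4 _ (fun h => hj (hmb _ _ h.symm).symm)
          (fun h => h1 (by
            have e := hmb _ _ h.symm
            rw [e] at h
            exact h.symm)) (hbS j).1 (hbS j).2, h3]
  · -- lam_x
    intro x hx hxl hxm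
    rcases U4_used ht x hx with h | h | h
    · by_cases hy : rv _ _ x = m i
      · have h1 : x = rv _ _ (m i) := by rw [← hy, rv_rv]
        have h2 : m i ≠ bt i := by
          intro h3
          rw [h3, rv_bt] at h1
          exact hxl i h1
        rw [hy, c1, lS]
        rcases hI.lam_a i with ⟨h3, _⟩ | ⟨_, h4, _⟩
        · exact absurd h3 h2
        · rw [← h4, ← h1]
      · have hy1 : rv _ _ x ≠ S := fun h3 => uS (h3 ▸ U4_used_rv h)
        have hy2 : rv _ _ x ≠ N := fun h3 => uN (h3 ▸ U4_used_rv h)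
        have hy3 : rv _ _ x ≠ m i' := by
          have := hxm i'
          rwa [mj i' hii] at this
        rw [c4 _ hy hy3 hy1 hy2]
        refine hI.lam_x x h hxl fun j => ?_
        by_cases hj : j = i
        · rw [hj]
          exact hy
        · have := hxm j
          rwa [mj j hj] at this
    · rw [h, hrS, c3, hI.lam_m, lS, show 2 * i'.val = 2 * i.val + 2 by omega]
    · exfalso
      apply hxm i
      rw [mi, h]
      exact hrN
  · -- cyc_eq
    have h1 := hI.cyc_eq
    have h2 : (w.take (t + 1)).countP (fun k => k % 2 == 1) =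
        (w.take t).countP (fun k => k % 2 == 1) := by
      rw [List.take_succ_eq_append_getElem ht, List.countP_append, List.countP_singleton]
      simp [hev]
    have h3 : (w.take (t + 1)).countP (fun k => k % 2 == 0) =
        (w.take t).countP (fun k => k % 2 == 0) + 1 := by
      rw [List.take_succ_eq_append_getElem ht, List.countP_append, List.countP_singleton]
      have h4 : w[t] % 2 = 0 := by omega
      simp [h4]
    rw [h2, h3]
    omega

end Pool.Agent.Lib.MP_72b45c_co.Q
end

section

/-! # MP_72b45c_co, block U (upper bound), job U5: the state after all letters -/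

namespace Pool.Agent.Lib.MP_72b45c_co.Q

open SimpleGraph Equiv Equiv.Perm

variable {n r K : ℕ} {w : List ℕ}

/-- induction on `t`: `Inv_zero`, `Inv_odd`, `Inv_even` (`1 ≤ w[t] < n = 2 r`) -/
theorem exists_inv (hn : n = 2 * r) (h : Red n (w ++ [K])) (t : ℕ) (ht : t ≤ w.length) :
    ∃ σ m, Inv n w K r t σ m := by
  induction t with
  | zero => exact ⟨1, fun i => bt i, Inv_zero n w K r⟩
  | succ t ih =>
    obtain ⟨σ, m, hI⟩ := ih (Nat.le_of_succ_le ht)
    have ht' : t < w.length := ht
    have hb : 1 ≤ w[t] ∧ w[t] < n := letter_bounds h ⟨t, ht'⟩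
    rcases Nat.even_or_odd' w[t] with ⟨c, hc | hc⟩
    · exact ⟨_, _, Inv_even hn h ht' (i := ⟨c - 1, by omega⟩) (i' := ⟨c, by omega⟩)
        (by simp only; omega) (by simp only; omega) hI⟩
    · exact ⟨_, _, Inv_odd hn h ht' (i := ⟨c, by omega⟩) hc hI⟩

/-- what the invariant says at the end; all darts are used -/
theorem used_all {M r : ℕ} (x : DD M r) : used M x := by
  rcases x with ⟨s | i, b⟩
  · exact s.2
  · exact trivial

theorem Inv.same_all {σ : Perm (DD w.length r)} {m : Fin r → DD w.length r}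
    (hI : Inv n w K r w.length σ m) (x y : DD w.length r) :
    σ.SameCycle x y ↔ dnu w x = dnu w y := by
  exact hI.same x y (used_all x) (used_all y)

theorem Inv.injective {t : ℕ} {σ : Perm (DD w.length r)} {m : Fin r → DD w.length r}
    (hI : Inv n w K r t σ m) : Function.Injective m := by
  intro i j hij
  have h1 := hI.dnu_m i
  rw [hij, hI.dnu_m j] at h1
  have h2 := (Prod.mk.injEq _ _ _ _).mp h1
  exact Fin.ext (by omega)

theorem Inv.nonleaf_m {t : ℕ} {σ : Perm (DD w.length r)} {m : Fin r → DD w.length r}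
    (hI : Inv n w K r t σ m) (i : Fin r) : nonleaf (m i) := by
  intro j hj
  have h1 := hI.dnu_m i
  rw [hj, dnu_lf] at h1
  have h2 := (Prod.mk.injEq _ _ _ _).mp h1
  omega

private theorem lastOcc_ne_zero_aux {u : List ℕ} {k s : ℕ} (hs : u[s]? = some k) :
    ∀ t, s < t → lastOcc u k t ≠ 0 := by
  intro t
  induction t with
  | zero => intro h; exact absurd h (Nat.not_lt_zero _)
  | succ t ih =>
    intro h
    rw [lastOcc]
    split_ifs with h1
    · exact Nat.succ_ne_zero t
    · refine ih ?_
      rcases Nat.lt_succ_iff_lt_or_eq.mp h with h2 | h2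
      · exact h2
      · rw [h2] at hs
        exact absurd hs h1

private theorem lastOcc_ne_zero {u : List ℕ} {k : ℕ} (hk : k ∈ u) : lastOcc u k u.length ≠ 0 := by
  obtain ⟨s, hs, rfl⟩ := List.mem_iff_getElem.mp hk
  exact lastOcc_ne_zero_aux (List.getElem?_eq_getElem hs) _ hs

/-- if the letter `2 i + 1` occurs in `w`, the marker is not the dummy dart of any gap -/
theorem Inv.m_ne_bt {σ : Perm (DD w.length r)} {m : Fin r → DD w.length r}
    (hI : Inv n w K r w.length σ m) {i : Fin r} (hi : 2 * i.val + 1 ∈ w) (j : Fin r) :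
    m i ≠ bt j := by
  intro hj
  have h1 := hI.dnu_m i
  rw [hj, dnu_bt] at h1
  have h2 := (Prod.mk.injEq _ _ _ _).mp h1
  exact lastOcc_ne_zero hi h2.2.symm

end Pool.Agent.Lib.MP_72b45c_co.Q
end
end
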