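import Pool.Agent.Lib.MP_72b45c_co.Q.W4
import Pool.Agent.Lib.MP_72b45c_co.Q.U5
import Pool.Agent.Lib.MP_72b45c_co.HitCount

section

section

/-! # MP_72b45c_co, block L (maps), job L4a: parity -/

namespace Pool.Agent.Lib.MP_72b45c_co.Q

open SimpleGraph Equiv Equiv.Perm

variable {X : Type*} [Finite X] [DecidableEq X]

/-- `sign π = (-1)^(card X + cyc π)`: `Perm.swap_induction_on` (both sides change under multiplication by a
transposition `swap a b`, `a ≠ b`: `cyc_mul_swap_of_sameCycle`, `cyc_mul_swap_of_not_sameCycle`), or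
`Perm.sign_of_cycleType`. -/
theorem sign_eq_cyc [Fintype X] (π : Perm X) :
    ((Perm.sign π : ℤˣ) : ℤ) = (-1) ^ (Nat.card X + cyc π) := by
  induction π using Perm.swap_induction_on' with
  | one =>
    have h1 : cyc (1 : Perm X) = Nat.card X := by
      unfold cyc
      refine Nat.card_congr (Equiv.ofBijective (fun q => Quotient.out q) ⟨?_, ?_⟩)
      · exact Quotient.out_injective
      · intro x
        refine ⟨Quotient.mk _ x, ?_⟩
        have h := Quotient.mk_out (s := SameCycle.setoid (1 : Perm X)) x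
        exact sameCycle_one.1 h
    rw [h1, ← two_mul, pow_mul]
    simp
  | mul_swap f x y hxy ih =>
    rw [Perm.sign_mul, Perm.sign_swap hxy]
    by_cases h : f.SameCycle x y
    · rw [cyc_mul_swap_of_sameCycle f hxy h, ← add_assoc, pow_succ, ← ih]
      simp
    · have h1 := cyc_mul_swap_of_not_sameCycle f h
      rw [← h1, ← add_assoc, pow_succ] at ih
      simp only [mul_neg, mul_one, Units.val_neg]
      rw [ih]
      ring

/-- `sign (σ * α) = sign σ * sign α`, and `card X` is even because `α` is a fixed point free involution. -/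
theorem gen2_even {σ α : Perm X} (hα : ∀ x, α (α x) = x) (hα' : ∀ x, α x ≠ x) :
    Even (gen2 σ α) := by
  classical
  have := Fintype.ofFinite X
  have h1 := sign_eq_cyc (σ * α)
  have h2 := sign_eq_cyc σ
  have h3 := sign_eq_cyc α
  rw [Perm.sign_mul, Units.val_mul, h2, h3, ← pow_add] at h1
  have hN : Even (Nat.card X) := by
    have h4 : α ^ 2 = 1 := by
      ext x
      simp [pow_two, hα x]
    have h5 := Perm.two_dvd_card_support h4
    have h6 : α.support = Finset.univ := by
      ext x
      simp [hα' x]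
    rw [h6, Finset.card_univ, ← Nat.card_eq_fintype_card] at h5
    exact even_iff_two_dvd.2 h5
  obtain ⟨k, hk⟩ := hN
  rw [hk] at h1
  have h7 : Even (cyc σ + cyc α + cyc (σ * α)) := by
    have h8 : ((-1 : ℤ)) ^ (cyc σ + cyc α + cyc (σ * α)) = 1 := by
      have e1 : ∀ c : ℕ, ((-1 : ℤ)) ^ (k + k + c) = (-1) ^ c := by
        intro c
        rw [pow_add, ← two_mul, pow_mul]
        simp
      have e2 : k + k + cyc σ + (k + k + cyc α) = k + k + (k + k + (cyc σ + cyc α)) := by ring
      rw [e2, e1, e1, e1] at h1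
      rw [pow_add, h1, ← pow_add, ← two_mul, pow_mul]
      simp
    rcases Nat.even_or_odd (cyc σ + cyc α + cyc (σ * α)) with h | h
    · exact h
    · rw [h.neg_one_pow] at h8
      norm_num at h8
  obtain ⟨m, hm⟩ := h7
  refine ⟨(ncomp σ α : ℤ) + cyc α - m, ?_⟩
  unfold gen2
  have hm' : (cyc σ : ℤ) + cyc α + cyc (σ * α) = m + m := by exact_mod_cast hm
  linarith

end Pool.Agent.Lib.MP_72b45c_co.Q
end

section

/-! # MP_72b45c_co, block L (maps), job L4b: rank of the boundaries -/

namespace Pool.Agent.Lib.MP_72b45c_co.Q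

open SimpleGraph Equiv Equiv.Perm

variable {X : Type*} [Finite X] [DecidableEq X]

omit [DecidableEq X] in
/-- `Bd σ α` is the image of the space of functions invariant under `σ * α` (dimension `cyc (σ * α)`: functions on
the quotient by `SameCycle.setoid (σ * α)`) under `c ↦ c + c ∘ α`; the kernel contains the functions constant on
the classes of `con σ α` (dimension `ncomp σ α`; they are invariant under `σ * α` and `α`). Rank-nullity. -/
theorem finrank_Bd_add_ncomp_le (σ α : Perm X) :
    Module.finrank (ZMod 2) (Bd σ α) + ncomp σ α ≤ cyc (σ * α) := by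
  classical
  have : Fintype X := Fintype.ofFinite X
  -- invariant functions
  let Inv : Submodule (ZMod 2) (X → ZMod 2) :=
    { carrier := {c | ∀ x, c (σ (α x)) = c x}
      add_mem' := by
        intro c c' h h' x
        simp only [Pi.add_apply]
        rw [h x, h' x]
      zero_mem' := fun x => rfl
      smul_mem' := by
        intro a c h x
        simp only [Pi.smul_apply]
        rw [h x] }
  let T : Inv →ₗ[ZMod 2] (X → ZMod 2) :=
    { toFun := fun c => fun x => (c : X → ZMod 2) x + (c : X → ZMod 2) (α x)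
      map_add' := by
        intro c c'
        funext x
        simp only [Submodule.coe_add, Pi.add_apply]
        ring
      map_smul' := by
        intro a c
        funext x
        simp only [Submodule.coe_smul, Pi.smul_apply, smul_eq_mul, RingHom.id_apply]
        ring }
  have hrange : LinearMap.range T = Bd σ α := by
    ext z
    constructor
    · rintro ⟨c, rfl⟩
      exact ⟨c, c.2, fun x => rfl⟩
    · rintro ⟨c, h1, h2⟩
      refine ⟨⟨c, h1⟩, ?_⟩
      funext x
      exact (h2 x).symm
  have hrn := LinearMap.finrank_range_add_finrank_ker T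
  rw [hrange] at hrn
  -- dimension of the space of invariant functions
  have hInv : Module.finrank (ZMod 2) Inv ≤ cyc (σ * α) := by
    have : Finite (Quotient (SameCycle.setoid (σ * α))) := Quotient.finite _
    have : Fintype (Quotient (SameCycle.setoid (σ * α))) := Fintype.ofFinite _
    let A : Inv →ₗ[ZMod 2] (Quotient (SameCycle.setoid (σ * α)) → ZMod 2) :=
      { toFun := fun c => fun q => (c : X → ZMod 2) q.out
        map_add' := by intro c c'; funext q; rfl
        map_smul' := by intro a c; funext q; rfl }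
    have hA : Function.Injective A := by
      rw [← LinearMap.ker_eq_bot, LinearMap.ker_eq_bot']
      intro c hc
      apply Subtype.ext
      funext x
      have h1 : ∀ k : ℕ, ∀ y : X, (c : X → ZMod 2) (((σ * α) ^ k) y) = (c : X → ZMod 2) y := by
        intro k
        induction k with
        | zero => intro y; simp
        | succ k ih =>
          intro y
          rw [pow_succ', Perm.mul_apply]
          have := c.2 (((σ * α) ^ k) y)
          rw [← ih y]
          exact this
      have h2 : SameCycle (σ * α) (Quotient.out (s := SameCycle.setoid (σ * α))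
          (Quotient.mk (SameCycle.setoid (σ * α)) x)) x :=
        Quotient.exact (s := SameCycle.setoid (σ * α)) (Quotient.out_eq _)
      obtain ⟨k, hk⟩ := h2.exists_nat_pow_eq
      have h3 := congrFun hc (Quotient.mk (SameCycle.setoid (σ * α)) x)
      have h4 : (c : X → ZMod 2) (Quotient.out (s := SameCycle.setoid (σ * α))
          (Quotient.mk (SameCycle.setoid (σ * α)) x)) = 0 := h3
      rw [← hk, h1, h4]
      rfl
    have h5 := LinearMap.finrank_le_finrank_of_injective hA
    rw [Module.finrank_fintype_fun_eq_card, ← Nat.card_eq_fintype_card] at h5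
    exact h5
  have hker : ncomp σ α ≤ Module.finrank (ZMod 2) (LinearMap.ker T) := by
    have : Finite (Quotient (con σ α)) := Quotient.finite _
    have : Fintype (Quotient (con σ α)) := Fintype.ofFinite _
    let B : (Quotient (con σ α) → ZMod 2) →ₗ[ZMod 2] (LinearMap.ker T) :=
      { toFun := fun f => ⟨⟨fun x => f (Quotient.mk (con σ α) x), by
          intro x
          have e1 : Quotient.mk (con σ α) (α x) = Quotient.mk (con σ α) x :=
            Quotient.sound ((con σ α).symm (Relation.EqvGen.rel _ _ (Or.inr rfl)))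
          have e2 : Quotient.mk (con σ α) (σ (α x)) = Quotient.mk (con σ α) (α x) :=
            Quotient.sound ((con σ α).symm (Relation.EqvGen.rel _ _ (Or.inl rfl)))
          change f (Quotient.mk (con σ α) (σ (α x))) = f (Quotient.mk (con σ α) x)
          rw [e2, e1]⟩, by
          rw [LinearMap.mem_ker]
          funext x
          have e1 : Quotient.mk (con σ α) (α x) = Quotient.mk (con σ α) x :=
            Quotient.sound ((con σ α).symm (Relation.EqvGen.rel _ _ (Or.inr rfl)))
          change f (Quotient.mk (con σ α) x) + f (Quotient.mk (con σ α) (α x)) = 0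
          rw [e1]
          exact CharTwo.add_self_eq_zero _⟩
        map_add' := by intro f g; rfl
        map_smul' := by intro a f; rfl }
    have hB : Function.Injective B := by
      intro f g hfg
      funext q
      induction q using Quotient.inductionOn with
      | h x =>
        have h6 := congrArg (fun w => ((w : LinearMap.ker T) : Inv)) hfg
        have h7 := congrArg (fun w : Inv => (w : X → ZMod 2) x) h6
        exact h7
    have h5 := LinearMap.finrank_le_finrank_of_injective hB
    rw [Module.finrank_fintype_fun_eq_card, ← Nat.card_eq_fintype_card] at h5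
    exact h5
  omega

end Pool.Agent.Lib.MP_72b45c_co.Q
end

section

/-! # MP_72b45c_co, block L (maps), job L2a: merging -/

namespace Pool.Agent.Lib.MP_72b45c_co.Q

open SimpleGraph Equiv Equiv.Perm

variable {X : Type*} [Finite X] [DecidableEq X]

omit [Finite X] in
theorem face_mul_swap (σ α : Perm X) (hα : ∀ x, α (α x) = x) (a b : X) :
    (σ * swap a b) * α = (σ * α) * swap (α a) (α b) := by
  have h1 : α * α = 1 := by
    ext x
    rw [Perm.mul_apply, hα, Perm.one_apply]
  have h2 : α⁻¹ = α := inv_eq_of_mul_eq_one_left h1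
  rw [Equiv.swap_apply_apply, h2]
  calc σ * swap a b * α = σ * 1 * swap a b * α := by rw [mul_one]
    _ = σ * (α * α) * swap a b * α := by rw [h1]
    _ = σ * α * (α * swap a b * α) := by simp only [mul_assoc]

/-- Merging two vertices at corners of one face does not change the genus.
`cyc σ` drops by one (`cyc_mul_swap_of_not_sameCycle`), `cyc (σ * α)` grows by one
(`face_mul_swap`, `cyc_mul_swap_of_sameCycle`; `α a ≠ α b` because `a ≠ b`), and `ncomp` does not change
(`ncomp_merge_of_con`; `a ~ α a ~ α b ~ b` by `con_of_sameCycle_face`). -/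
theorem gen2_merge_face {σ α : Perm X} (hα : ∀ x, α (α x) = x) {a b : X} (h : ¬ σ.SameCycle a b)
    (hf : (σ * α).SameCycle (α a) (α b)) : gen2 (σ * swap a b) α = gen2 σ α := by
  have hab : a ≠ b := fun h1 => h (h1 ▸ SameCycle.refl σ a)
  have hab' : α a ≠ α b := fun h1 => hab (α.injective h1)
  have hcon : con σ α a b := by
    have h1 : con σ α a (α a) := con_apply_right σ α a
    have h2 : con σ α b (α b) := con_apply_right σ α b
    have h3 : con σ α (α a) (α b) := con_of_sameCycle_face σ α hf
    exact (con σ α).trans ((con σ α).trans h1 h3) ((con σ α).symm h2)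
  have h1 := ncomp_merge_of_con σ α h hcon
  have h2 := cyc_mul_swap_of_not_sameCycle σ h
  have h3 := cyc_mul_swap_of_sameCycle (σ * α) hab' hf
  unfold gen2
  rw [face_mul_swap σ α hα a b, h1]
  omega

omit [Finite X] [DecidableEq X] in
theorem Prel.refl (α σ : Perm X) : Prel α σ σ := Or.inr ⟨le_rfl, le_rfl⟩

omit [Finite X] [DecidableEq X] in
theorem Prel.trans {α σ σ' σ'' : Perm X} (h : Prel α σ σ') (h' : Prel α σ' σ'') :
    Prel α σ σ'' := by
  rcases h with h1 | ⟨h1, h2⟩ <;> rcases h' with h3 | ⟨h3, h4⟩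
  · exact Or.inl (by omega)
  · exact Or.inl (by omega)
  · exact Or.inl (by omega)
  · exact Or.inr ⟨h3.trans h1, h4.trans h2⟩

omit [Finite X] [DecidableEq X] in
theorem Prel.le {α σ σ' : Perm X} (h : Prel α σ σ') : gen2 σ' α ≤ gen2 σ α := by
  rcases h with h1 | ⟨h1, _⟩
  · omega
  · exact h1

end Pool.Agent.Lib.MP_72b45c_co.Q
end

section

/-! # MP_72b45c_co, block L (maps), job L2b: splitting -/

namespace Pool.Agent.Lib.MP_72b45c_co.Q

open SimpleGraph Equiv Equiv.Perm

variable {X : Type*} [Finite X] [DecidableEq X]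

omit [DecidableEq X] in
private theorem L2b_inv_sameCycle {Y : Type*} (π : Perm X) (c : X → Y) (hc : ∀ x, c (π x) = c x)
    {x y : X} (h : π.SameCycle x y) : c x = c y :=
  (CycleCount_closed π {y | c x = c y} (fun z hz => by
    have h1 : c x = c z := hz
    show c x = c (π z)
    rw [hc, h1]) rfl h)

omit [Finite X] in
private theorem L2b_inv {σ α : Perm X} (hα : ∀ x, α (α x) = x) {a b : X} (c : X → ZMod 2)
    (hc : ∀ x, c ((σ * swap a b) (α x)) = c x) (hab : c (α a) = c (α b)) (x : X) :
    c (σ (α x)) = c x := by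
  by_cases h1 : α x = a
  · have h2 : σ (α x) = (σ * swap a b) b := by rw [h1, CycleCount_swap_right]
    have h3 := hc (α b)
    rw [hα] at h3
    have h4 : x = α a := by rw [← h1, hα]
    rw [h2, h3, ← hab, ← h4]
  · by_cases h2 : α x = b
    · have h3 : σ (α x) = (σ * swap a b) a := by rw [h2, CycleCount_swap_left]
      have h4 := hc (α a)
      rw [hα] at h4
      have h5 : x = α b := by rw [← h2, hα]
      rw [h3, h4, hab, ← h5]
    · have h3 := hc x
      rwa [CycleCount_swap_ne σ h1 h2] at h3

omit [Finite X] in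
private theorem L2b_Bd_con {σ α : Perm X} (hα : ∀ x, α (α x) = x) {a b : X}
    (hnc : ¬ con (σ * swap a b) α a b) : Bd (σ * swap a b) α ≤ Bd σ α := by
  classical
  rintro z ⟨c', h1, h2⟩
  set σ' := σ * swap a b with hσ'
  let K : X → ZMod 2 := fun x => if con σ' α a x then 1 else 0
  have hKα : ∀ x, K (α x) = K x := by
    intro x
    have : con σ' α a (α x) ↔ con σ' α a x :=
      ⟨fun h => (con σ' α).trans' h ((con σ' α).symm' (con_apply_right σ' α x)),
        fun h => (con σ' α).trans' h (con_apply_right σ' α x)⟩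
    show (if con σ' α a (α x) then (1 : ZMod 2) else 0) = if con σ' α a x then 1 else 0
    rw [if_congr this rfl rfl]
  have hKσ : ∀ x, K (σ' x) = K x := by
    intro x
    have : con σ' α a (σ' x) ↔ con σ' α a x :=
      ⟨fun h => (con σ' α).trans' h ((con σ' α).symm' (con_apply_left σ' α x)),
        fun h => (con σ' α).trans' h (con_apply_left σ' α x)⟩
    show (if con σ' α a (σ' x) then (1 : ZMod 2) else 0) = if con σ' α a x then 1 else 0
    rw [if_congr this rfl rfl]
  have hKa : K (α a) = 1 := by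
    rw [hKα]
    exact if_pos ((con σ' α).refl' a)
  have hKb : K (α b) = 0 := by
    rw [hKα]
    exact if_neg hnc
  have h22 : ∀ u : ZMod 2, u + u = 0 := CharTwo.add_self_eq_zero
  refine ⟨fun x => c' x + (c' (α a) + c' (α b)) * K x, fun x => ?_, fun x => ?_⟩
  · refine L2b_inv (a := a) (b := b) hα (fun x => c' x + (c' (α a) + c' (α b)) * K x)
      (fun y => ?_) ?_ x
    · show c' (σ' (α y)) + (c' (α a) + c' (α b)) * K (σ' (α y)) =
        c' y + (c' (α a) + c' (α b)) * K y
      rw [hKσ, hKα, h1]
    · show c' (α a) + (c' (α a) + c' (α b)) * K (α a) =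
        c' (α b) + (c' (α a) + c' (α b)) * K (α b)
      rw [hKa, hKb, mul_one, mul_zero, add_zero, ← add_assoc, h22, zero_add]
  · show z x = c' x + (c' (α a) + c' (α b)) * K x +
      (c' (α x) + (c' (α a) + c' (α b)) * K (α x))
    rw [hKα, h2]
    have h3 := h22 ((c' (α a) + c' (α b)) * K x)
    linear_combination -h3

/-- Splitting a vertex. Put `σ' = σ * swap a b`, `φ = σ * α`, `φ' = σ' * α = φ * swap (α a) (α b)`;
`σ = σ' * swap a b` and `σ'` has `a, b` in different cycles (`not_sameCycle_mul_swap`), so `cyc σ' = cyc σ + 1`.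
Case 1: `α a, α b` in one cycle of `φ`: `cyc φ' = cyc φ + 1`. If `con σ' α a b` then `ncomp` is unchanged
(`ncomp_merge_of_con` for `σ'`) and `gen2` drops by 2. If not, `ncomp σ' = ncomp σ + 1`, `gen2` is unchanged, and
`Bd σ' α ≤ Bd σ α`: let `z = c' + c' ∘ α`, `c'` invariant under `φ'`; let `K` be the indicator of the component of
`a` in `con σ' α` (invariant under `σ', α`), `s = c' (α a) + c' (α b)`, `c = c' + s K`. Then `c + c ∘ α = z` and
`c (α a) = c (α b)`, and `c` is invariant under `φ`: `φ x = φ' x` for `x ≠ α a, α b`, `φ (α a) = φ' (α b)`,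
`φ (α b) = φ' (α a)`.
Case 2: `α a, α b` in different cycles of `φ`: `cyc φ' + 1 = cyc φ`, they are in one cycle of `φ'`
(`sameCycle_mul_swap`), so `con σ' α a b`, `ncomp` is unchanged, `gen2` is unchanged; a function invariant under
`φ'` is invariant under `φ` (same formulas, `c (α a) = c (α b)`). -/
theorem split_step {σ α : Perm X} (hα : ∀ x, α (α x) = x) {a b : X} (hab : a ≠ b)
    (h : σ.SameCycle a b) : Prel α σ (σ * swap a b) := by
  have hne := not_sameCycle_mul_swap σ hab h
  have hcyc := cyc_mul_swap_of_sameCycle σ hab h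
  have hback : σ * swap a b * swap a b = σ := by rw [mul_assoc, swap_mul_self, mul_one]
  have hface := face_mul_swap σ α hα a b
  have hαab : α a ≠ α b := fun h => hab (α.injective h)
  by_cases hf : (σ * α).SameCycle (α a) (α b)
  · have hφ := cyc_mul_swap_of_sameCycle (σ * α) hαab hf
    rw [← hface] at hφ
    by_cases hcon : con (σ * swap a b) α a b
    · have hn := ncomp_merge_of_con (σ * swap a b) α hne hcon
      rw [hback] at hn
      left
      unfold gen2
      rw [hcyc, hφ, ← hn]
      push_cast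
      linarith
    · have hn := ncomp_merge_of_not_con (σ * swap a b) α hcon
      rw [hback] at hn
      right
      refine ⟨?_, L2b_Bd_con hα hcon⟩
      unfold gen2
      rw [hcyc, hφ, ← hn]
      push_cast
      linarith
  · have hφ := cyc_mul_swap_of_not_sameCycle (σ * α) hf
    have hsame := (sameCycle_mul_swap (σ * α) hf).1
    rw [← hface] at hφ hsame
    have hcon : con (σ * swap a b) α a b := by
      have h1 := con_of_sameCycle_face (σ * swap a b) α hsame
      exact (con _ α).trans' (con_apply_right _ α a)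
        ((con _ α).trans' h1 ((con _ α).symm' (con_apply_right _ α b)))
    have hn := ncomp_merge_of_con (σ * swap a b) α hne hcon
    rw [hback] at hn
    right
    refine ⟨?_, ?_⟩
    · unfold gen2
      rw [hcyc, ← hφ, ← hn]
      push_cast
      linarith
    · rintro z ⟨c', h1, h2⟩
      refine ⟨c', fun x => L2b_inv hα c' h1 ?_ x, h2⟩
      exact L2b_inv_sameCycle ((σ * swap a b) * α) c' h1 hsame

end Pool.Agent.Lib.MP_72b45c_co.Q
end

section

/-! # MP_72b45c_co, block L (maps), job L2: splitting and merging (parts) -/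
end

section

/-! # MP_72b45c_co, block L (maps), job L3a: detaching darts -/

namespace Pool.Agent.Lib.MP_72b45c_co.Q

open SimpleGraph Equiv Equiv.Perm

variable {X : Type*} [Finite X] [DecidableEq X]

omit [Finite X] [DecidableEq X] in
private theorem sc_mono {σ σ' : Perm X} (h : ∀ z, σ.SameCycle z (σ' z)) {x y : X}
    (hxy : σ'.SameCycle x y) : σ.SameCycle x y := by
  obtain ⟨i, rfl⟩ := hxy
  have hn : ∀ n : ℕ, σ.SameCycle x ((σ' ^ n) x) := by
    intro n
    induction n with
    | zero => exact SameCycle.refl _ _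
    | succ n ih =>
      rw [pow_succ', Perm.mul_apply]
      exact ih.trans (h _)
  have hn' : ∀ n : ℕ, σ.SameCycle x ((σ' ^ (-(n : ℤ))) x) := by
    intro n
    induction n with
    | zero => simpa using SameCycle.refl σ x
    | succ n ih =>
      refine ih.trans ?_
      have h1 := h ((σ' ^ (-((n + 1 : ℕ) : ℤ))) x)
      have h2 : σ' ((σ' ^ (-((n + 1 : ℕ) : ℤ))) x) = (σ' ^ (-(n : ℤ))) x := by
        rw [← Perm.mul_apply, ← zpow_one_add]
        congr 2
        push_cast
        ring
      rw [h2] at h1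
      exact h1.symm
  obtain ⟨n, hi⟩ := i.eq_nat_or_neg
  rcases hi with rfl | rfl
  · simpa using hn n
  · exact hn' n

/-- One dart: if `σ d = d` take `σ' = σ`; otherwise `σ' = σ * swap (σ⁻¹ d) d` (`split_step`):
`σ' d = d`, `σ' (σ⁻¹ d) = σ d`, `σ' x = σ x` otherwise. -/
theorem detach_one {α σ : Perm X} (hα : ∀ x, α (α x) = x) (d : X) :
    ∃ σ' : Perm X, σ' d = d ∧ (∀ x y, x ≠ d → y ≠ d → (σ'.SameCycle x y ↔ σ.SameCycle x y)) ∧
      (∀ x, σ x = x → σ' x = x) ∧ (∀ x, x ≠ d → σ x ≠ d → σ' x = σ x) ∧ Prel α σ σ' := by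
  by_cases hd : σ d = d
  · exact ⟨σ, hd, fun x y _ _ => Iff.rfl, fun x hx => hx, fun x _ _ => rfl, Prel.refl _ _⟩
  · have hinv : σ⁻¹ d ≠ d := by
      intro h
      apply hd
      rw [Perm.inv_eq_iff_eq] at h
      exact h.symm
    have e1 : (σ * swap (σ⁻¹ d) d) d = d := by
      rw [Perm.mul_apply, swap_apply_right]
      simp
    have e2 : ∀ x, σ x = d → (σ * swap (σ⁻¹ d) d) x = σ d := by
      intro x hx
      have : x = σ⁻¹ d := by rw [← hx]; simp
      rw [this, Perm.mul_apply, swap_apply_left]
    have e3 : ∀ x, x ≠ d → σ x ≠ d → (σ * swap (σ⁻¹ d) d) x = σ x := by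
      intro x hx hx'
      rw [Perm.mul_apply, swap_apply_of_ne_of_ne _ hx]
      intro h
      apply hx'
      rw [h]
      simp
    refine ⟨σ * swap (σ⁻¹ d) d, e1, ?_, ?_, e3, ?_⟩
    · intro x y hx hy
      constructor
      · intro h
        refine sc_mono (σ := σ) (fun z => ?_) h
        by_cases hz : z = d
        · rw [hz, e1]
        · by_cases hz' : σ z = d
          · rw [e2 z hz', ← hz']
            exact (sameCycle_apply_right.2 (sameCycle_apply_right.2 (SameCycle.refl _ _)))
          · rw [e3 z hz hz']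
            exact sameCycle_apply_right.2 (SameCycle.refl _ _)
      · intro h
        have key : ∀ n : ℕ, ∀ x, x ≠ d → (σ ^ n) x = y →
            (σ * swap (σ⁻¹ d) d).SameCycle x y := by
          intro n
          induction n using Nat.strong_induction_on with
          | _ n ih =>
            intro x hx hxy
            rcases n with _ | n
            · rw [pow_zero, Perm.one_apply] at hxy
              rw [hxy]
            · rw [pow_succ, Perm.mul_apply] at hxy
              by_cases hz : σ x = d
              · rw [hz] at hxy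
                rcases n with _ | n
                · rw [pow_zero, Perm.one_apply] at hxy
                  exact absurd hxy.symm hy
                · rw [pow_succ, Perm.mul_apply] at hxy
                  have h1 := ih n (by omega) (σ d) hd hxy
                  rw [← e2 x hz] at h1
                  exact sameCycle_apply_left.1 h1
              · have h1 := ih n (by omega) (σ x) hz hxy
                rw [← e3 x hx hz] at h1
                exact sameCycle_apply_left.1 h1
        obtain ⟨n, hn⟩ := h.exists_nat_pow_eq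
        exact key n x hx hn
    · intro x hx
      by_cases hxd : x = d
      · rw [hxd] at hx
        exact absurd hx hd
      · have : σ x ≠ d := by rw [hx]; exact hxd
        rw [e3 x hxd this, hx]
    · refine split_step hα hinv ?_
      have h1 : σ.SameCycle (σ⁻¹ d) (σ (σ⁻¹ d)) := sameCycle_apply_right.2 (SameCycle.refl _ _)
      have h2 : σ (σ⁻¹ d) = d := by simp
      rwa [h2] at h1

/-- Induction over `S` with `detach_one`, `Prel.trans`. -/
theorem detach {α σ : Perm X} (hα : ∀ x, α (α x) = x) (S : Finset X) :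
    ∃ σ' : Perm X, (∀ x ∈ S, σ' x = x) ∧
      (∀ x y, x ∉ S → y ∉ S → (σ'.SameCycle x y ↔ σ.SameCycle x y)) ∧ Prel α σ σ' := by
  induction S using Finset.induction_on with
  | empty => exact ⟨σ, by simp, fun x y _ _ => Iff.rfl, Prel.refl _ _⟩
  | insert d S _ ih =>
    obtain ⟨σ₁, h1, h2, h3⟩ := ih
    obtain ⟨σ₂, k1, k2, k3, _, k5⟩ := detach_one hα (σ := σ₁) d
    refine ⟨σ₂, ?_, ?_, h3.trans k5⟩
    · intro x hx
      rcases Finset.mem_insert.1 hx with rfl | hx
      · exact k1
      · exact k3 x (h1 x hx)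
    · intro x y hx hy
      rw [Finset.mem_insert, not_or] at hx hy
      exact (k2 x y hx.1 hy.1).trans (h2 x y hx.2 hy.2)

end Pool.Agent.Lib.MP_72b45c_co.Q
end

section

/-! # MP_72b45c_co, block L (maps), job L3b: splitting into pairs -/

namespace Pool.Agent.Lib.MP_72b45c_co.Q

open SimpleGraph Equiv Equiv.Perm

variable {X : Type*} [Finite X] [DecidableEq X]

omit [DecidableEq X] in
private theorem L3b_card (σ : Perm X) (r : X) :
    Function.minimalPeriod (σ • ·) r = Nat.card {y // σ.SameCycle r y} := by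
  classical
  have : Fintype X := Fintype.ofFinite X
  rw [MulAction.minimalPeriod_eq_card, ← Nat.card_eq_fintype_card]
  refine Nat.card_congr (Equiv.subtypeEquivRight fun y => ?_)
  rw [MulAction.mem_orbit_iff]
  constructor
  · rintro ⟨⟨g, hg⟩, h⟩
    obtain ⟨k, rfl⟩ := Subgroup.mem_zpowers_iff.1 hg
    exact ⟨k, h⟩
  · rintro ⟨k, h⟩
    exact ⟨⟨σ ^ k, Subgroup.mem_zpowers_iff.2 ⟨k, rfl⟩⟩, h⟩

omit [DecidableEq X] in
private theorem L3b_color {σ : Perm X} (S : Finset X)
    (hev : ∀ x ∈ S, Even (Nat.card {y // σ.SameCycle x y})) :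
    ∃ c : X → Bool, ∀ x ∈ S, c (σ x) = !c x := by
  classical
  let r : X → X := fun x => (Quotient.mk (SameCycle.setoid σ) x).out
  have hr : ∀ x, σ.SameCycle (r x) x := fun x => Quotient.mk_out (s := SameCycle.setoid σ) x
  have hr' : ∀ x, r (σ x) = r x := fun x =>
    congrArg Quotient.out (Quotient.sound (s := SameCycle.setoid σ)
      (sameCycle_apply_left.2 (SameCycle.refl σ x)))
  choose i hi using hr
  refine ⟨fun x => decide (Even (i x)), fun x hx => ?_⟩
  have h1 : (σ ^ (i (σ x))) (r x) = σ x := by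
    have := hi (σ x)
    rwa [hr'] at this
  have h2 : (σ ^ (1 + i x)) (r x) = σ x := by
    rw [zpow_one_add, Perm.mul_apply, hi x]
  have h3 : (σ ^ (i (σ x) - (1 + i x))) • r x = r x := by
    show (σ ^ (i (σ x) - (1 + i x))) (r x) = r x
    have h3 : σ ^ (i (σ x) - (1 + i x)) = (σ ^ (1 + i x))⁻¹ * σ ^ (i (σ x)) := by
      rw [← zpow_neg, ← zpow_add]
      congr 1
      ring
    rw [h3, Perm.mul_apply, h1, Perm.inv_eq_iff_eq, h2]
  rw [MulAction.zpow_smul_eq_iff_minimalPeriod_dvd, L3b_card] at h3
  have h4 : Nat.card {y // σ.SameCycle (r x) y} = Nat.card {y // σ.SameCycle x y} :=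
    Nat.card_congr (Equiv.subtypeEquivRight fun y =>
      ⟨fun h => (SameCycle.symm ⟨i x, hi x⟩).trans h, fun h => SameCycle.trans ⟨i x, hi x⟩ h⟩)
  have h5 : Even (i (σ x) - (1 + i x)) := by
    obtain ⟨k, hk⟩ := hev x hx
    obtain ⟨m, hm⟩ := h3
    rw [h4, hk] at hm
    exact ⟨k * m, by rw [hm]; push_cast; ring⟩
  have h6 : Even (i (σ x)) ↔ ¬ Even (i x) := by
    rw [Int.even_sub, Int.even_add] at h5
    have h7 : ¬ Even (1 : ℤ) := by decide
    tauto
  by_cases h : Even (i x)
  · have : ¬ Even (i (σ x)) := fun h' => (h6.1 h') h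
    simp [h, this]
  · have : Even (i (σ x)) := h6.2 h
    simp [h, this]

private theorem L3b_main {α : Perm X} (hα : ∀ x, α (α x) = x) (S : Finset X) (c : X → Bool) :
    ∀ (n : ℕ) (σ : Perm X), (S.filter fun x => σ (σ x) ≠ x).card = n → (∀ x ∈ S, σ x ∈ S) →
      (∀ x ∈ S, c (σ x) = !c x) →
      ∃ σ' : Perm X, (∀ x ∉ S, σ' x = σ x) ∧
        (∀ x ∈ S, σ' x ∈ S ∧ σ' (σ' x) = x ∧ σ' x ≠ x) ∧ Prel α σ σ' := by
  intro n
  induction n using Nat.strong_induction_on with
  | _ n ih =>
    intro σ hn hS hc
    by_cases h : ∃ y ∈ S, σ (σ y) ≠ y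
    · obtain ⟨y, hy, hyy⟩ := h
      have hay : σ (σ⁻¹ y) = y := by simp
      have hab : σ⁻¹ y ≠ σ y := by
        intro h
        apply hyy
        rw [← h, hay]
      have hya : y ≠ σ⁻¹ y := by
        intro h
        have h1 : σ y = y := by
          conv_lhs => rw [h]
          exact hay
        exact hyy (by rw [h1, h1])
      have hyb : y ≠ σ y := by
        intro h
        exact hyy (by rw [← h, ← h])
      have hSinv : ∀ x, σ x ∈ S → x ∈ S := by
        intro x hx
        have hinj : Set.InjOn σ (S : Set X) := σ.injective.injOn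
        have himg : S.image σ = S := by
          apply Finset.eq_of_subset_of_card_le
          · intro z hz
            obtain ⟨w, hw, rfl⟩ := Finset.mem_image.1 hz
            exact hS w hw
          · rw [Finset.card_image_of_injective _ σ.injective]
        rw [← himg, Finset.mem_image] at hx
        obtain ⟨w, hw, hwx⟩ := hx
        rwa [← σ.injective hwx]
      have ha : σ⁻¹ y ∈ S := hSinv _ (by rw [hay]; exact hy)
      have hb : σ y ∈ S := hS y hy
      set σ₁ := σ * swap (σ⁻¹ y) (σ y) with hσ₁
      have e1 : σ₁ (σ⁻¹ y) = σ (σ y) := by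
        rw [hσ₁, Perm.mul_apply, swap_apply_left]
      have e2 : σ₁ (σ y) = y := by
        rw [hσ₁, Perm.mul_apply, swap_apply_right, hay]
      have e3 : ∀ x, x ≠ σ⁻¹ y → x ≠ σ y → σ₁ x = σ x := by
        intro x h1 h2
        rw [hσ₁, Perm.mul_apply, swap_apply_of_ne_of_ne h1 h2]
      have hS₁ : ∀ x ∈ S, σ₁ x ∈ S := by
        intro x hx
        by_cases h1 : x = σ⁻¹ y
        · rw [h1, e1]
          exact hS _ hb
        · by_cases h2 : x = σ y
          · rw [h2, e2]
            exact hy
          · rw [e3 x h1 h2]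
            exact hS x hx
      have hc₁ : ∀ x ∈ S, c (σ₁ x) = !c x := by
        intro x hx
        have k1 := hc _ ha
        rw [hay] at k1
        have k2 := hc _ hy
        have k3 := hc _ hb
        by_cases h1 : x = σ⁻¹ y
        · rw [h1, e1, k3, k2, k1]
          simp
        · by_cases h2 : x = σ y
          · rw [h2, e2, k2]
            simp
          · rw [e3 x h1 h2]
            exact hc x hx
      have hlt : (S.filter fun x => σ₁ (σ₁ x) ≠ x).card < n := by
        rw [← hn]
        apply Finset.card_lt_card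
        rw [Finset.ssubset_iff_of_subset]
        · refine ⟨y, Finset.mem_filter.2 ⟨hy, hyy⟩, ?_⟩
          intro h
          apply (Finset.mem_filter.1 h).2
          rw [e3 y hya hyb, e2]
        · intro x hx
          rw [Finset.mem_filter] at hx ⊢
          refine ⟨hx.1, fun hxx => hx.2 ?_⟩
          have n1 : x ≠ σ⁻¹ y := by
            intro h
            rw [h, hay] at hxx
            exact hab hxx.symm
          have n2 : x ≠ σ y := by
            intro h
            rw [h] at hxx
            exact hyy (σ.injective hxx)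
          have n3 : σ x ≠ σ⁻¹ y := by
            intro h
            rw [h, hay] at hxx
            rw [hxx] at hyy
            rw [← hxx] at h
            exact hab h.symm
          have n4 : σ x ≠ σ y := by
            intro h
            rw [σ.injective h] at hxx
            exact hyy hxx
          rw [e3 x n1 n2, e3 _ n3 n4, hxx]
      obtain ⟨σ', f1, f2, f3⟩ := ih _ hlt σ₁ rfl hS₁ hc₁
      refine ⟨σ', ?_, f2, Prel.trans (split_step hα hab ?_) f3⟩
      · intro x hx
        rw [f1 x hx]
        apply e3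
        · rintro rfl
          exact hx ha
        · rintro rfl
          exact hx hb
      · have g1 : σ.SameCycle (σ⁻¹ y) (σ (σ (σ⁻¹ y))) :=
          sameCycle_apply_right.2 (sameCycle_apply_right.2 (SameCycle.refl _ _))
        rwa [hay] at g1
    · push Not at h
      refine ⟨σ, fun x _ => rfl, fun x hx => ⟨hS x hx, h x hx, ?_⟩, Prel.refl _ _⟩
      intro hx'
      have := hc x hx
      rw [hx'] at this
      simp at this

/-- Cycles of even length inside `S` are split into 2-cycles. Strong induction on the number of `x ∈ S` with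
`σ (σ x) ≠ x`. If there is none take `σ' = σ` (`σ x ≠ x` because a fixed point is a cycle of length 1). If
`y ∈ S` has `σ (σ y) ≠ y`, take `σ₁ = σ * swap (σ⁻¹ y) (σ y)` (`split_step`): `σ₁ y = σ y`, `σ₁ (σ y) = y`,
`σ₁ (σ⁻¹ y) = σ (σ y)`, `σ₁ x = σ x` otherwise; the cycle of `y` is split into `{y, σ y}` and the rest, whose
length is even again; the other cycles are unchanged. -/
theorem split_pairs {α σ : Perm X} (hα : ∀ x, α (α x) = x) (S : Finset X)
    (hS : ∀ x ∈ S, σ x ∈ S) (hev : ∀ x ∈ S, Even (Nat.card {y // σ.SameCycle x y})) :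
    ∃ σ' : Perm X, (∀ x ∉ S, σ' x = σ x) ∧
      (∀ x ∈ S, σ' x ∈ S ∧ σ' (σ' x) = x ∧ σ' x ≠ x) ∧ Prel α σ σ' := by
  obtain ⟨c, hc⟩ := L3b_color S hev
  exact L3b_main hα S c _ σ rfl hS hc

end Pool.Agent.Lib.MP_72b45c_co.Q
end

section

/-! # MP_72b45c_co, block L (maps), job L4c: two involutions -/

namespace Pool.Agent.Lib.MP_72b45c_co.Q

open SimpleGraph Equiv Equiv.Perm

variable {X : Type*} [Finite X] [DecidableEq X]

/-- Two fixed point free involutions: there is a function that changes under both. Let `ρ = s * t`. `s` maps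
cycles of `ρ` to cycles of `ρ` (`s ρ s = ρ⁻¹`), and `s y` is never in the cycle of `y`: if `s y = ρ^i y`, then
`i = 2 j` gives `s (ρ^j y) = ρ^j y` and `i = 2 j + 1` gives `t (ρ^j' y) = ρ^j' y` for a suitable `j'`
(`s ρ^i = ρ^(-i) s`), impossible. Take an injection `f` of the cycles of `ρ` into `ℕ` and `c y = 0` if
`f [y] < f [s y]`, `1` otherwise; `[t y] = [s y]` up to `ρ`. -/
theorem exists_two_coloring (s t : Perm X) (hs : ∀ y, s (s y) = y) (hs' : ∀ y, s y ≠ y)
    (ht : ∀ y, t (t y) = y) (ht' : ∀ y, t y ≠ y) :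
    ∃ c : X → ZMod 2, (∀ y, c (s y) = c y + 1) ∧ ∀ y, c (t y) = c y + 1 := by
  have hss : s⁻¹ = s := by
    ext y
    rw [Perm.inv_eq_iff_eq, hs]
  have htt : t⁻¹ = t := by
    ext y
    rw [Perm.inv_eq_iff_eq, ht]
  have hconj : ∀ i : ℤ, s * (s * t) ^ i = (s * t) ^ (-i) * s := by
    intro i
    have h1 : s * (s * t) * s⁻¹ = (s * t)⁻¹ := by
      rw [mul_inv_rev, hss, htt, ← mul_assoc]
      have : s * s = 1 := by
        ext y
        simp [hs]
      rw [this, one_mul]
    have h2 : s * (s * t) ^ i * s⁻¹ = ((s * t)⁻¹) ^ i := by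
      rw [← h1, conj_zpow]
    rw [zpow_neg, ← inv_zpow, ← h2, inv_mul_cancel_right]
  have hcy : ∀ (i : ℤ) (y : X), s (((s * t) ^ i) y) = ((s * t) ^ (-i)) (s y) := by
    intro i y
    have := congrArg (fun p : Perm X => p y) (hconj i)
    simpa only [Perm.mul_apply] using this
  have hne : ∀ y, ¬ SameCycle (s * t) y (s y) := by
    rintro y ⟨i, hi⟩
    rcases Int.even_or_odd' i with ⟨j, rfl | rfl⟩
    · apply hs' (((s * t) ^ j) y)
      rw [hcy, ← hi, ← Perm.mul_apply, ← zpow_add]
      congr 2
      ring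
    · apply ht' (((s * t) ^ j) y)
      have h1 : s (((s * t) ^ j) y) = s (t (((s * t) ^ j) y)) := by
        rw [hcy, ← hi, ← Perm.mul_apply, ← zpow_add, ← Perm.mul_apply, ← Perm.mul_apply,
          ← zpow_one_add]
        congr 2
        ring
      exact (s.injective h1).symm
  have hmap : ∀ x y, SameCycle (s * t) x y → SameCycle (s * t) (s x) (s y) := by
    rintro x y ⟨i, rfl⟩
    exact ⟨-i, (hcy i x).symm⟩
  have hts : ∀ y, SameCycle (s * t) (t y) (s y) := by
    intro y
    refine ⟨1, ?_⟩
    rw [zpow_one, Perm.mul_apply, ht]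
  obtain ⟨g, hg⟩ := Countable.exists_injective_nat (Quotient (SameCycle.setoid (s * t)))
  let f : X → ℕ := fun x => g (Quotient.mk (SameCycle.setoid (s * t)) x)
  have hf : ∀ x y, f x = f y ↔ SameCycle (s * t) x y := by
    intro x y
    constructor
    · intro h
      exact Quotient.exact (hg h)
    · intro h
      exact congrArg g (Quotient.sound h)
  have hcts : ∀ y, f (t y) = f (s y) := fun y => (hf _ _).2 (hts y)
  have hcst : ∀ y, f (s (t y)) = f y := by
    intro y
    have := hmap _ _ (hts y)
    rw [hs] at this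
    exact (hf _ _).2 this
  have hfne : ∀ y, f y ≠ f (s y) := fun y h => hne y ((hf _ _).1 h)
  have h1 : ∀ y, (if f (s y) < f (s (s y)) then (0 : ZMod 2) else 1) =
      (if f y < f (s y) then (0 : ZMod 2) else 1) + 1 := by
    intro y
    rw [hs]
    have := hfne y
    by_cases h : f y < f (s y)
    · rw [if_pos h, if_neg (by omega), zero_add]
    · rw [if_neg h, if_pos (by omega)]
      decide
  refine ⟨fun y => if f y < f (s y) then 0 else 1, h1, ?_⟩
  intro y
  have h2 := h1 y
  rw [hs] at h2
  change (if f (t y) < f (s (t y)) then (0 : ZMod 2) else 1) =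
      (if f y < f (s y) then (0 : ZMod 2) else 1) + 1
  rw [hcts, hcst]
  exact h2

end Pool.Agent.Lib.MP_72b45c_co.Q
end
end

section

section

/-! # MP_72b45c_co, block L (maps), job L4: parity, rank of the boundaries (parts) -/
end

section

/-! # MP_72b45c_co, block L (maps), job L3: detaching darts; splitting into pairs (parts) -/
end

section

/-! # MP_72b45c_co, block L (maps), job L5a: restriction -/

namespace Pool.Agent.Lib.MP_72b45c_co.Q

open SimpleGraph Equiv Equiv.Perm

/-- counting the classes of a setoid that splits along the range of an injection -/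
private theorem restr_card {X Y : Type*} [Finite X] [Finite Y] (ι : Y → X)
    (hι : Function.Injective ι) (s : Setoid X) (sY : Setoid Y)
    (rZ : Setoid {x : X // x ∉ Set.range ι})
    (hF : ∀ F : X → Quotient sY ⊕ Quotient rZ, (∀ y, F (ι y) = Sum.inl (Quotient.mk sY y)) →
      (∀ z : {x : X // x ∉ Set.range ι}, F z.1 = Sum.inr (Quotient.mk rZ z)) →
      ∀ x x', s x x' → F x = F x')
    (hY : ∀ y y', sY y y' → s (ι y) (ι y'))
    (hZ : ∀ z z' : {x : X // x ∉ Set.range ι}, rZ z z' → s z.1 z'.1) :
    Nat.card (Quotient s) = Nat.card (Quotient sY) + Nat.card (Quotient rZ) := by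
  classical
  let F : X → Quotient sY ⊕ Quotient rZ := fun x =>
    if h : x ∈ Set.range ι then Sum.inl (Quotient.mk sY h.choose) else
      Sum.inr (Quotient.mk rZ ⟨x, h⟩)
  have hF1 : ∀ y, F (ι y) = Sum.inl (Quotient.mk sY y) := by
    intro y
    have h : ι y ∈ Set.range ι := ⟨y, rfl⟩
    have h2 : h.choose = y := hι h.choose_spec
    simp only [F, dif_pos h, h2]
  have hF2 : ∀ z : {x : X // x ∉ Set.range ι}, F z.1 = Sum.inr (Quotient.mk rZ z) := by
    intro z
    simp only [F, dif_neg z.2]
  have hF3 := hF F hF1 hF2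
  have hker : ∀ x x', s x x' ↔ F x = F x' := by
    intro x x'
    refine ⟨hF3 x x', fun h => ?_⟩
    by_cases hx : x ∈ Set.range ι
    · obtain ⟨y, rfl⟩ := hx
      by_cases hx' : x' ∈ Set.range ι
      · obtain ⟨y', rfl⟩ := hx'
        rw [hF1, hF1] at h
        exact hY y y' (Quotient.exact (Sum.inl.inj h))
      · rw [hF1, hF2 ⟨x', hx'⟩] at h
        exact absurd h (by simp)
    · by_cases hx' : x' ∈ Set.range ι
      · obtain ⟨y', rfl⟩ := hx'
        rw [hF1, hF2 ⟨x, hx⟩] at h
        exact absurd h (by simp)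
      · rw [hF2 ⟨x, hx⟩, hF2 ⟨x', hx'⟩] at h
        exact hZ _ _ (Quotient.exact (Sum.inr.inj h))
  have hsur : Function.Surjective F := by
    rintro (q | q)
    · obtain ⟨y, rfl⟩ := Quotient.exists_rep q
      exact ⟨ι y, hF1 y⟩
    · obtain ⟨z, rfl⟩ := Quotient.exists_rep q
      exact ⟨z.1, hF2 z⟩
  have hs : s = Setoid.ker F := by
    ext x x'
    exact hker x x'
  have hcard : Nat.card (Quotient s) = Nat.card (Quotient sY ⊕ Quotient rZ) := by
    rw [hs]
    exact Nat.card_congr (Setoid.quotientKerEquivOfSurjective F hsur)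
  rw [hcard, Nat.card_sum]

private theorem restr_invariant {X Y : Type*} (ι : Y → X) (π : Perm X)
    (πY : Perm Y) (h : ∀ y, ι (πY y) = π (ι y)) {x : X} (hx : x ∉ Set.range ι) :
    π x ∉ Set.range ι := by
  rintro ⟨y, hy⟩
  apply hx
  refine ⟨πY.symm y, ?_⟩
  apply π.injective
  rw [← h, Equiv.apply_symm_apply, hy]

private theorem restr_cyc {X Y : Type*} [Finite X] [Finite Y] (ι : Y → X)
    (hι : Function.Injective ι) (π : Perm X) (πY : Perm Y) (h : ∀ y, ι (πY y) = π (ι y))
    (rZ : Setoid {x : X // x ∉ Set.range ι})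
    (h1 : ∀ z z' : {x : X // x ∉ Set.range ι}, z'.1 = π z.1 → rZ z z')
    (h2 : ∀ z z' : {x : X // x ∉ Set.range ι}, rZ z z' → π.SameCycle z.1 z'.1) :
    cyc π = cyc πY + Nat.card (Quotient rZ) := by
  refine restr_card ι hι (SameCycle.setoid π) (SameCycle.setoid πY) rZ ?_ ?_ h2
  · intro F hF1 hF2 x x' hxx
    refine dartIso_invariant (π := π) (f := F) ?_ hxx
    intro u
    by_cases hu : u ∈ Set.range ι
    · obtain ⟨y, rfl⟩ := hu
      rw [← h, hF1, hF1]
      congr 1
      exact Quotient.sound (s := SameCycle.setoid πY)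
        (show πY.SameCycle (πY y) y from (sameCycle_apply_left.2 (SameCycle.refl πY y)))
    · have hu' := restr_invariant ι π πY h hu
      rw [hF2 ⟨u, hu⟩, hF2 ⟨π u, hu'⟩]
      congr 1
      exact Quotient.sound (s := rZ) (rZ.symm (h1 ⟨u, hu⟩ ⟨π u, hu'⟩ rfl))
  · intro y y' hyy
    have h3 := dartIso_invariant (π := πY)
      (f := fun y => Quotient.mk (SameCycle.setoid π) (ι y)) (fun y => by
        rw [h]
        exact Quotient.sound (s := SameCycle.setoid π)
          (show π.SameCycle (π (ι y)) (ι y) from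
            (sameCycle_apply_left.2 (SameCycle.refl π (ι y))))) hyy
    exact Quotient.exact (s := SameCycle.setoid π) h3

private theorem restr_con {X Y : Type*} [Finite X] [Finite Y] (ι : Y → X)
    (hι : Function.Injective ι) (σ α : Perm X) (σY αY : Perm Y)
    (hs : ∀ y, ι (σY y) = σ (ι y)) (ha : ∀ y, ι (αY y) = α (ι y))
    (rZ : Setoid {x : X // x ∉ Set.range ι})
    (h1 : ∀ z z' : {x : X // x ∉ Set.range ι}, z'.1 = σ z.1 → rZ z z')
    (h1' : ∀ z z' : {x : X // x ∉ Set.range ι}, z'.1 = α z.1 → rZ z z')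
    (h2 : ∀ z z' : {x : X // x ∉ Set.range ι}, rZ z z' → con σ α z.1 z'.1) :
    ncomp σ α = ncomp σY αY + Nat.card (Quotient rZ) := by
  refine restr_card ι hι (con σ α) (con σY αY) rZ ?_ ?_ h2
  · intro F hF1 hF2 x x' hxx
    refine con_le σ α (Setoid.ker F) ?_ ?_ hxx
    · intro u
      show F u = F (σ u)
      by_cases hu : u ∈ Set.range ι
      · obtain ⟨y, rfl⟩ := hu
        rw [← hs, hF1, hF1]
        congr 1
        exact Quotient.sound (s := con σY αY) (con_apply_left σY αY y)
      · have hu' := restr_invariant ι σ σY hs hu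
        rw [hF2 ⟨u, hu⟩, hF2 ⟨σ u, hu'⟩]
        congr 1
        exact Quotient.sound (s := rZ) (h1 ⟨u, hu⟩ ⟨σ u, hu'⟩ rfl)
    · intro u
      show F u = F (α u)
      by_cases hu : u ∈ Set.range ι
      · obtain ⟨y, rfl⟩ := hu
        rw [← ha, hF1, hF1]
        congr 1
        exact Quotient.sound (s := con σY αY) (con_apply_right σY αY y)
      · have hu' := restr_invariant ι α αY ha hu
        rw [hF2 ⟨u, hu⟩, hF2 ⟨α u, hu'⟩]
        congr 1
        exact Quotient.sound (s := rZ) (h1' ⟨u, hu⟩ ⟨α u, hu'⟩ rfl)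
  · intro y y' hyy
    refine con_le σY αY ((con σ α).comap ι) ?_ ?_ hyy
    · intro y
      show con σ α (ι y) (ι (σY y))
      rw [hs]
      exact con_apply_left σ α _
    · intro y
      show con σ α (ι y) (ι (αY y))
      rw [ha]
      exact con_apply_right σ α _

/-- a fixed point free involution has `|Z| / 2` orbits -/
private theorem restr_pairs {Z : Type*} [Finite Z] (β : Z → Z)
    (hβ' : ∀ z, β z ≠ z) (r : Setoid Z) (hr : ∀ z z', r z z' ↔ z' = z ∨ z' = β z) :
    Nat.card Z = 2 * Nat.card (Quotient r) := by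
  classical
  have := Fintype.ofFinite Z
  have := Fintype.ofFinite (Quotient r)
  have h1 : Nat.card Z = Nat.card (Σ q : Quotient r, {z : Z // Quotient.mk r z = q}) :=
    Nat.card_congr (Equiv.sigmaFiberEquiv (fun z : Z => Quotient.mk r z)).symm
  rw [h1, Nat.card_sigma]
  have h2 : ∀ q : Quotient r, Nat.card {z : Z // Quotient.mk r z = q} = 2 := by
    intro q
    obtain ⟨z0, rfl⟩ := Quotient.exists_rep q
    have h3 : {z : Z | Quotient.mk r z = Quotient.mk r z0} = {z0, β z0} := by
      ext z
      simp only [Set.mem_ofPred_eq, Set.mem_insert_iff, Set.mem_singleton_iff]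
      constructor
      · intro h
        exact (hr z0 z).1 (r.symm (Quotient.exact h))
      · intro h
        exact Quotient.sound (s := r) (r.symm ((hr z0 z).2 h))
    have h4 : Set.ncard {z : Z | Quotient.mk r z = Quotient.mk r z0} = 2 := by
      rw [h3]
      exact Set.ncard_pair (hβ' z0).symm
    exact h4
  simp only [h2, Finset.sum_const, smul_eq_mul, Finset.card_univ, Nat.card_eq_fintype_card]
  ring

variable {X : Type*} [Finite X] [DecidableEq X]

/-- Restriction to a subset outside of which `σ` is the identity. Let `Z` be the complement of the range of `ι`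
(`σ`, `α` map the range to itself, so also `Z`). Then `cyc σ = cyc σY + |Z|`, `cyc α = cyc αY + |Z| / 2`,
`cyc (σ * α) = cyc (σY * αY) + |Z| / 2` (on `Z` it is `α`), `ncomp σ α = ncomp σY αY + |Z| / 2`
(`α` has no fixed points). -/
theorem gen2_restrict {σ α : Perm X} (hα : ∀ x, α (α x) = x) (hα' : ∀ x, α x ≠ x)
    {Y : Type*} [Finite Y] (ι : Y → X) (hι : Function.Injective ι)
    (σY αY : Perm Y) (h1 : ∀ y, ι (σY y) = σ (ι y)) (h2 : ∀ y, ι (αY y) = α (ι y))
    (h3 : ∀ x, x ∉ Set.range ι → σ x = x) : gen2 σY αY = gen2 σ α := by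
  have hZα : ∀ z : {x : X // x ∉ Set.range ι}, α z.1 ∉ Set.range ι := fun z =>
    restr_invariant ι α αY h2 z.2
  -- the relation on the complement
  let r : Setoid {x : X // x ∉ Set.range ι} :=
    { r := fun z z' => z'.1 = z.1 ∨ z'.1 = α z.1
      iseqv := by
        refine ⟨fun z => Or.inl rfl, ?_, ?_⟩
        · rintro z z' (h | h)
          · exact Or.inl h.symm
          · exact Or.inr (by rw [h, hα])
        · rintro z z' z'' (h | h) (h' | h')
          · exact Or.inl (h'.trans h)
          · exact Or.inr (by rw [h', h])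
          · exact Or.inr (h'.trans h)
          · exact Or.inl (by rw [h', h, hα]) }
  have hr : ∀ z z' : {x : X // x ∉ Set.range ι}, r z z' ↔ (z'.1 = z.1 ∨ z'.1 = α z.1) :=
    fun z z' => Iff.rfl
  have e1 : cyc α = cyc αY + Nat.card (Quotient r) := by
    refine restr_cyc ι hι α αY h2 r ?_ ?_
    · intro z z' h
      exact (hr z z').2 (Or.inr h)
    · intro z z' h
      rcases (hr z z').1 h with h | h
      · rw [h]
      · rw [h]
        exact sameCycle_apply_right.2 (SameCycle.refl α z.1)
  have e2 : cyc (σ * α) = cyc (σY * αY) + Nat.card (Quotient r) := by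
    have hz : ∀ z : {x : X // x ∉ Set.range ι}, (σ * α) z.1 = α z.1 := by
      intro z
      rw [Perm.mul_apply]
      exact h3 _ (hZα z)
    refine restr_cyc ι hι (σ * α) (σY * αY) ?_ r ?_ ?_
    · intro y
      rw [Perm.mul_apply, Perm.mul_apply, h1, h2]
    · intro z z' h
      rw [hz] at h
      exact (hr z z').2 (Or.inr h)
    · intro z z' h
      rcases (hr z z').1 h with h | h
      · rw [h]
      · rw [h, ← hz]
        exact sameCycle_apply_right.2 (SameCycle.refl (σ * α) z.1)
  have e3 : ncomp σ α = ncomp σY αY + Nat.card (Quotient r) := by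
    refine restr_con ι hι σ α σY αY h1 h2 r ?_ ?_ ?_
    · intro z z' h
      rw [h3 _ z.2] at h
      exact (hr z z').2 (Or.inl h)
    · intro z z' h
      exact (hr z z').2 (Or.inr h)
    · intro z z' h
      rcases (hr z z').1 h with h | h
      · rw [h]
      · rw [h]
        exact con_apply_right σ α z.1
  have e4 : cyc σ = cyc σY + Nat.card {x : X // x ∉ Set.range ι} := by
    have h4 := restr_cyc ι hι σ σY h1 (⊥ : Setoid {x : X // x ∉ Set.range ι}) ?_ ?_
    · rw [h4]
      congr 1
      refine Nat.card_congr ⟨fun q => Quotient.liftOn q id (fun _ _ h => h),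
        fun z => Quotient.mk ⊥ z, fun q => ?_, fun z => rfl⟩
      obtain ⟨z, rfl⟩ := Quotient.exists_rep q
      rfl
    · intro z z' h
      rw [h3 _ z.2] at h
      exact (Subtype.ext h.symm : z = z')
    · intro z z' h
      have h' : z = z' := h
      rw [h']
  have e5 : Nat.card {x : X // x ∉ Set.range ι} = 2 * Nat.card (Quotient r) := by
    refine restr_pairs (fun z => ⟨α z.1, hZα z⟩) (fun z h =>
      hα' z.1 (congrArg Subtype.val h)) r ?_
    intro z z'
    rw [hr, Subtype.ext_iff, Subtype.ext_iff]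
  unfold gen2
  rw [e1, e2, e3, e4, e5]
  push_cast
  ring

end Pool.Agent.Lib.MP_72b45c_co.Q
end

section

/-! # MP_72b45c_co, block L (maps), job L5b: rotation systems -/

namespace Pool.Agent.Lib.MP_72b45c_co.Q

open SimpleGraph Equiv Equiv.Perm

variable {X : Type*} [Finite X] [DecidableEq X]

private lemma l5b_edge {V : Type*} (G : SimpleGraph V) :
    cyc (rev G) = Nat.card G.edgeSet := by
  unfold cyc
  refine Nat.card_eq_of_bijective (Quotient.lift (s := SameCycle.setoid (rev G))
    (fun d : G.Dart => (⟨d.edge, d.edge_mem⟩ : G.edgeSet)) ?_) ⟨?_, ?_⟩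
  · intro d d' h
    exact Subtype.ext (dartIso_invariant (f := fun d : G.Dart => d.edge)
      (fun d => Dart.edge_symm d) h)
  · intro a b
    induction a using Quotient.inductionOn with | h d =>
    induction b using Quotient.inductionOn with | h d' =>
    intro h
    have h1 : d.edge = d'.edge := congrArg Subtype.val h
    apply Quotient.sound
    show (rev G).SameCycle d d'
    rcases (dart_edge_eq_iff d d').1 h1 with h2 | h2
    · rw [h2]
    · rw [h2]
      exact sameCycle_apply_left.2 (SameCycle.refl (rev G) d')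
  · rintro ⟨e, he⟩
    induction e using Sym2.ind with | _ u v =>
    exact ⟨Quotient.mk _ ⟨(u, v), he⟩, rfl⟩

private lemma l5b_walk {V : Type*} {G : SimpleGraph V} (R : RotationSystem G) {u v : V}
    (p : G.Walk u v) :
    ∀ d d' : G.Dart, d.fst = u → d'.fst = v → con R.next (rev G) d d' := by
  have hA : ∀ d d' : G.Dart, d.fst = d'.fst → con R.next (rev G) d d' := fun d d' hd =>
    con_of_sameCycle _ _ (R.sameCycle d d' hd)
  induction p with
  | nil => intro d d' h1 h2; exact hA d d' (h1.trans h2.symm)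
  | @cons u w v huw p ih =>
    intro d d' h1 h2
    have e1 : con R.next (rev G) d ⟨(u, w), huw⟩ := hA _ _ h1
    have e2 : con R.next (rev G) (⟨(u, w), huw⟩ : G.Dart) (Dart.symm ⟨(u, w), huw⟩) :=
      con_apply_right _ _ _
    exact Setoid.trans' _ e1 (Setoid.trans' _ e2 (ih _ d' rfl h2))

private lemma l5b_comp {V : Type*} [Finite V] (G : SimpleGraph V) (R : RotationSystem G) :
    ncomp R.next (rev G) + numIsolated G = Nat.card G.ConnectedComponent := by
  classical
  have hinv : con R.next (rev G) ≤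
      Setoid.ker (fun d : G.Dart => G.connectedComponentMk d.fst) := by
    refine con_le _ _ _ (fun d => ?_) (fun d => ?_)
    · show G.connectedComponentMk d.fst = G.connectedComponentMk (R.next d).fst
      rw [R.fst_next]
    · show G.connectedComponentMk d.fst = G.connectedComponentMk (rev G d).fst
      exact ConnectedComponent.sound d.adj.reachable
  have h1 : ncomp R.next (rev G) = Nat.card {c : G.ConnectedComponent //
      ∃ d : G.Dart, G.connectedComponentMk d.fst = c} := by
    unfold ncomp
    refine Nat.card_eq_of_bijective (Quotient.lift (s := con R.next (rev G))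
      (fun d : G.Dart => (⟨G.connectedComponentMk d.fst, d, rfl⟩ :
        {c : G.ConnectedComponent // ∃ d : G.Dart, G.connectedComponentMk d.fst = c}))
      ?_) ⟨?_, ?_⟩
    · intro d d' hd
      exact Subtype.ext (hinv hd)
    · intro a b
      induction a using Quotient.inductionOn with | h d =>
      induction b using Quotient.inductionOn with | h d' =>
      intro hdd
      apply Quotient.sound
      have h2 : G.connectedComponentMk d.fst = G.connectedComponentMk d'.fst :=
        congrArg Subtype.val hdd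
      obtain ⟨p⟩ := ConnectedComponent.exact h2
      exact l5b_walk R p d d' rfl rfl
    · rintro ⟨c, d, hd⟩
      exact ⟨Quotient.mk _ d, Subtype.ext hd⟩
  have hiso : ∀ {v w : V}, (∀ w, ¬ G.Adj v w) → G.Reachable v w → v = w := by
    rintro v w hv ⟨p⟩
    cases p with
    | nil => rfl
    | cons h _ => exact absurd h (hv _)
  have h2 : numIsolated G = Nat.card {c : G.ConnectedComponent //
      ¬ ∃ d : G.Dart, G.connectedComponentMk d.fst = c} := by
    unfold numIsolated
    refine Nat.card_eq_of_bijective (fun v => (⟨G.connectedComponentMk v.1, ?_⟩ :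
        {c : G.ConnectedComponent // ¬ ∃ d : G.Dart, G.connectedComponentMk d.fst = c}))
      ⟨?_, ?_⟩
    · rintro ⟨d, hd⟩
      have h3 := hiso v.2 (ConnectedComponent.exact hd).symm
      exact v.2 d.snd (h3 ▸ d.adj)
    · intro v v' hv
      have h3 : G.connectedComponentMk v.1 = G.connectedComponentMk v'.1 :=
        congrArg Subtype.val hv
      exact Subtype.ext (hiso v.2 (ConnectedComponent.exact h3))
    · rintro ⟨c, hc⟩
      induction c using ConnectedComponent.ind with | h v =>
      refine ⟨⟨v, fun w hw => hc ⟨⟨(v, w), hw⟩, rfl⟩⟩, rfl⟩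
  rw [h1, h2, ← Nat.card_sum]
  exact Nat.card_congr (Equiv.sumCompl _)

/-- `cyc R.next + numIsolated G = Nat.card V` (`cyc_next`), `cyc (rev G) = Nat.card G.edgeSet` (the map
`d ↦ d.edge` is two to one), `ncomp R.next (rev G) + numIsolated G = Nat.card G.ConnectedComponent` (as in
`cyc_components`), `cyc (R.next * rev G) = R.numFaces` (definition of `RotationSystem.face`). -/
theorem gen2_rotation {V : Type*} [Finite V] (G : SimpleGraph V) (R : RotationSystem G) :
    gen2 R.next (rev G) = (Nat.card G.edgeSet : ℤ) + 2 * Nat.card G.ConnectedComponent -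
      (Nat.card V + (R.numFaces + numIsolated G)) := by
  have h1 := cyc_next G R
  have h2 := l5b_edge G
  have h3 := l5b_comp G R
  have h4 : cyc (R.next * rev G) = R.numFaces := rfl
  unfold gen2
  rw [h2, h4]
  omega

theorem embeds_iff {V : Type*} [Finite V] (G : SimpleGraph V) (g : ℕ) :
    Embeds g G ↔ ∃ R : RotationSystem G, gen2 R.next (rev G) ≤ 2 * (g : ℤ) := by
  constructor
  · rintro ⟨R, hR⟩
    refine ⟨R, ?_⟩
    rw [gen2_rotation]
    omega
  · rintro ⟨R, hR⟩
    refine ⟨R, ?_⟩
    rw [gen2_rotation] at hR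
    omega

end Pool.Agent.Lib.MP_72b45c_co.Q
end

section

/-! # MP_72b45c_co, block L (maps), job L5c: embeddings from maps -/

namespace Pool.Agent.Lib.MP_72b45c_co.Q

open SimpleGraph Equiv Equiv.Perm

variable {X : Type*} [Finite X] [DecidableEq X]

/-- Detach all `x` outside the range of `ι` (`detach`); the new `σ'` maps the range of `ι` to itself, so it is
the image of a permutation `next` of `H.Dart` (`d ↦` the `ι`-preimage of `σ' (ι d)`); its cycles are the sets of
darts with a common start by `hc`. `gen2_restrict`, `Prel.le`, `embeds_iff`. -/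
theorem embeds_of_map {α σ : Perm X} (hα : ∀ x, α (α x) = x) (hα' : ∀ x, α x ≠ x) {g : ℕ}
    (hg : gen2 σ α ≤ 2 * (g : ℤ)) {W : Type*} [Finite W] (H : SimpleGraph W) (ι : H.Dart → X)
    (hι : Function.Injective ι) (hs : ∀ d, ι d.symm = α (ι d))
    (hc : ∀ d d' : H.Dart, σ.SameCycle (ι d) (ι d') ↔ d.fst = d'.fst) : Embeds g H := by
  classical
  have : Fintype X := Fintype.ofFinite X
  have : Finite H.Dart := dartIso_finite H
  obtain ⟨S, hS⟩ : ∃ S : Finset X, ∀ x, x ∈ S ↔ x ∉ Set.range ι :=
    ⟨Finset.univ.filter fun x => x ∉ Set.range ι, fun x => by simp⟩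
  obtain ⟨σ', h1, h2, h3⟩ := detach hα (σ := σ) S
  have hr : ∀ x, σ' x ∈ Set.range ι ↔ x ∈ Set.range ι := by
    intro x
    constructor
    · intro h
      by_contra hx
      rw [h1 x ((hS x).2 hx)] at h
      exact hx h
    · intro h
      by_contra hx
      have h4 := h1 (σ' x) ((hS _).2 hx)
      have h5 : σ' x = x := σ'.injective h4
      rw [h5] at hx
      exact hx h
  obtain ⟨π, hπ⟩ : ∃ π : Perm H.Dart, ∀ d, ι (π d) = σ' (ι d) := by
    refine ⟨(Equiv.ofInjective ι hι).symm.permCongr (σ'.subtypePerm hr), fun d => ?_⟩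
    rw [Equiv.permCongr_apply, Equiv.symm_symm]
    exact Equiv.apply_ofInjective_symm hι
      ((σ'.subtypePerm hr) ((Equiv.ofInjective ι hι) d))
  have hn : ∀ d : H.Dart, ι d ∉ S := fun d h => (hS _).1 h ⟨d, rfl⟩
  have hc' : ∀ d d' : H.Dart, σ'.SameCycle (ι d) (ι d') ↔ d.fst = d'.fst := fun d d' =>
    (h2 _ _ (hn d) (hn d')).trans (hc d d')
  have hpow : ∀ (k : ℕ) (d : H.Dart), ι ((π ^ k) d) = (σ' ^ k) (ι d) := by
    intro k
    induction k with
    | zero => exact fun d => rfl
    | succ k ih =>
      intro d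
      rw [pow_succ, pow_succ, Perm.mul_apply, Perm.mul_apply, ih, hπ]
  let R : RotationSystem H :=
    { next := π
      fst_next := fun d => (hc' _ _).1 (by
        rw [hπ]
        exact (SameCycle.refl σ' (ι d)).apply_left)
      sameCycle := fun d d' h => by
        obtain ⟨k, hk⟩ := ((hc' d d').2 h).exists_nat_pow_eq
        rw [← hpow] at hk
        exact ⟨(k : ℤ), by rw [zpow_natCast]; exact hι hk⟩ }
  rw [embeds_iff]
  refine ⟨R, ?_⟩
  have h4 := gen2_restrict (σ := σ') hα hα' ι hι π (rev H) hπ (fun d => hs d) (fun x hx =>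
    h1 x ((hS x).2 hx))
  have h5 : gen2 R.next (rev H) = gen2 σ' α := h4
  rw [h5]
  exact h3.le.trans hg

end Pool.Agent.Lib.MP_72b45c_co.Q
end

section

/-! # MP_72b45c_co, block L (maps), job L5d: simple consequences -/

namespace Pool.Agent.Lib.MP_72b45c_co.Q

open SimpleGraph Equiv Equiv.Perm

variable {X : Type*} [Finite X] [DecidableEq X]

theorem Embeds.mono {V : Type*} {G : SimpleGraph V} {g g' : ℕ} (h : Embeds g G) (hg : g ≤ g') :
    Embeds g' G := by
  obtain ⟨R, hR⟩ := h
  exact ⟨R, hR.trans (by omega)⟩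

private theorem l5d_fst {V : Type*} {G : SimpleGraph V} (R : RotationSystem G) (d d' : G.Dart) :
    R.next.SameCycle d d' ↔ d.fst = d'.fst :=
  ⟨fun h => dartIso_invariant (f := fun d : G.Dart => d.fst) R.fst_next h, R.sameCycle d d'⟩

/-- isolated vertices do not matter: `embeds_of_map` with `ι : G.Dart → (G.induce S).Dart` -/
theorem embeds_of_induce {V : Type*} [Finite V] {G : SimpleGraph V} {g : ℕ} (S : Set V)
    (hS : ∀ v w, G.Adj v w → v ∈ S) (h : Embeds g (G.induce S)) : Embeds g G := by
  classical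
  have : Finite (G.induce S).Dart := dartIso_finite _
  rw [embeds_iff] at h
  obtain ⟨R, hR⟩ := h
  refine embeds_of_map (α := rev (G.induce S)) (σ := R.next) (fun d => Dart.symm_involutive d)
    (fun d => Dart.symm_ne d) hR G
    (fun d => ⟨(⟨d.fst, hS _ _ d.adj⟩, ⟨d.snd, hS _ _ d.adj.symm⟩), d.adj⟩) ?_ (fun d => rfl) ?_
  · intro d d' hdd
    apply Dart.ext
    have h1 := congrArg (fun e : (G.induce S).Dart => (e.fst : V)) hdd
    have h2 := congrArg (fun e : (G.induce S).Dart => (e.snd : V)) hdd
    exact Prod.ext h1 h2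
  · intro d d'
    rw [l5d_fst R]
    exact Subtype.mk_eq_mk

theorem Embeds.iso {V W : Type*} [Finite V] [Finite W] {G : SimpleGraph V} {H : SimpleGraph W} {g : ℕ}
    (e : G ≃g H) (h : Embeds g G) : Embeds g H := by
  classical
  have : Finite G.Dart := dartIso_finite _
  rw [embeds_iff] at h
  obtain ⟨R, hR⟩ := h
  refine embeds_of_map (α := rev G) (σ := R.next) (fun d => Dart.symm_involutive d)
    (fun d => Dart.symm_ne d) hR H
    (fun d => ⟨(e.symm d.fst, e.symm d.snd), e.symm.map_rel_iff.2 d.adj⟩) ?_ (fun d => rfl) ?_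
  · intro d d' hdd
    apply Dart.ext
    have h1 := congrArg (fun e : G.Dart => e.fst) hdd
    have h2 := congrArg (fun e : G.Dart => e.snd) hdd
    exact Prod.ext (e.symm.injective h1) (e.symm.injective h2)
  · intro d d'
    rw [l5d_fst R]
    exact e.symm.injective.eq_iff

end Pool.Agent.Lib.MP_72b45c_co.Q
end

section

/-! # MP_72b45c_co, block L (maps), job L5: from maps to embeddings of simple graphs (parts) -/
end

section

/-! # MP_72b45c_co, block L (maps), job L6a: contraction -/

namespace Pool.Agent.Lib.MP_72b45c_co.Q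

open SimpleGraph Equiv Equiv.Perm

private theorem L6a_label {V W : Type*} (B : W → Set V)
    (hd : ∀ x y, x ≠ y → Disjoint (B x) (B y)) :
    ∃ f : V → V ⊕ W, ∀ u v, f u = f v ↔ (u = v ∨ ∃ x, u ∈ B x ∧ v ∈ B x) := by
  classical
  have huniq : ∀ {v : V} {x y : W}, v ∈ B x → v ∈ B y → x = y := by
    intro v x y hx hy
    by_contra hne
    exact Set.disjoint_left.1 (hd x y hne) hx hy
  let f : V → V ⊕ W := fun v => if h : ∃ x, v ∈ B x then Sum.inr h.choose else Sum.inl v
  have hf1 : ∀ {v : V} {x : W}, v ∈ B x → f v = Sum.inr x := by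
    intro v x hx
    have h : ∃ x, v ∈ B x := ⟨x, hx⟩
    simp only [f]
    rw [dif_pos h, huniq h.choose_spec hx]
  have hf2 : ∀ {v : V}, (¬ ∃ x, v ∈ B x) → f v = Sum.inl v := by
    intro v h
    simp only [f]
    rw [dif_neg h]
  refine ⟨f, fun u v => ⟨fun h => ?_, fun h => ?_⟩⟩
  · by_cases hu : ∃ x, u ∈ B x
    · obtain ⟨x, hx⟩ := hu
      rw [hf1 hx] at h
      by_cases hv : ∃ y, v ∈ B y
      · obtain ⟨y, hy⟩ := hv
        rw [hf1 hy] at h
        have hxy : x = y := Sum.inr.inj h
        exact Or.inr ⟨x, hx, hxy ▸ hy⟩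
      · rw [hf2 hv] at h
        exact absurd h (by simp)
    · rw [hf2 hu] at h
      by_cases hv : ∃ y, v ∈ B y
      · obtain ⟨y, hy⟩ := hv
        rw [hf1 hy] at h
        exact absurd h (by simp)
      · rw [hf2 hv] at h
        exact Or.inl (Sum.inl.inj h)
  · rcases h with h | ⟨x, hu, hv⟩
    · rw [h]
    · rw [hf1 hu, hf1 hv]

private theorem L6a_walk {V : Type*} (G : SimpleGraph V) (B : Set V) (σ : Perm G.Dart)
    (h1 : ∀ d d' : G.Dart, d.fst = d'.fst → σ.SameCycle d d')
    (h2 : ∀ d : G.Dart, d.fst ∈ B → d.snd ∈ B → σ.SameCycle d d.symm)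
    {u v : B} (p : (G.induce B).Walk u v) :
    ∀ d d' : G.Dart, d.fst = u → d'.fst = v → σ.SameCycle d d' := by
  induction p with
  | nil => intro d d' e1 e2; exact h1 d d' (e1.trans e2.symm)
  | @cons u w v huw p ih =>
    intro d d' e1 e2
    have hadj : G.Adj (u : V) (w : V) := huw
    have s1 : σ.SameCycle d ⟨((u : V), (w : V)), hadj⟩ := h1 _ _ e1
    have s2 : σ.SameCycle (⟨((u : V), (w : V)), hadj⟩ : G.Dart)
        (Dart.symm ⟨((u : V), (w : V)), hadj⟩) := h2 _ u.2 w.2
    exact s1.trans (s2.trans (ih _ d' rfl e2))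

/-- Contraction inside the branch sets. Among the permutations `σ` of `G.Dart` with `gen2 σ (rev G) ≤ gen2 R.next (rev G)`,
whose cycles are unions of sets of darts with a common start (`R.next.SameCycle ≤ σ.SameCycle`), such that
`σ.SameCycle d d'` implies `d.fst = d'.fst` or both starts in one `B x`, take one with the least `cyc σ`. If two
darts with starts in `B x` are in different cycles, then there is a dart `d` with both ends in `B x` and `d`,
`d.symm` in different cycles (`(G.induce (B x)).Connected`); then `σ * swap (σ⁻¹ d) d.symm` contradicts minimality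
(`gen2_merge_face`: `rev (σ⁻¹ d) = (σ * rev G)⁻¹ d`, so `rev (σ⁻¹ d)` and `rev (d.symm) = d` are in one face). -/
theorem exists_contract {V W : Type*} [Finite V] (G : SimpleGraph V) (R : RotationSystem G)
    (B : W → Set V) (hB : ∀ x, (G.induce (B x)).Connected)
    (hd : ∀ x y, x ≠ y → Disjoint (B x) (B y)) :
    ∃ σ : Perm G.Dart, gen2 σ (rev G) ≤ gen2 R.next (rev G) ∧
      ∀ d d' : G.Dart, σ.SameCycle d d' ↔
        (d.fst = d'.fst ∨ ∃ x, d.fst ∈ B x ∧ d'.fst ∈ B x) := by
  classical
  have : Finite G.Dart := dartIso_finite G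
  obtain ⟨f, hf⟩ := L6a_label B hd
  let P : Perm G.Dart → Prop := fun σ => gen2 σ (rev G) ≤ gen2 R.next (rev G) ∧
    (∀ d d' : G.Dart, d.fst = d'.fst → σ.SameCycle d d') ∧
    (∀ d : G.Dart, f (σ d).fst = f d.fst)
  have hex : ∃ n : ℕ, ∃ σ, P σ ∧ cyc σ = n :=
    ⟨_, R.next, ⟨le_refl _, R.sameCycle, fun d => by rw [R.fst_next]⟩, rfl⟩
  obtain ⟨σ, ⟨hg, hs, hi⟩, hn⟩ := Nat.find_spec hex
  have hmin := fun m (hm : m < Nat.find hex) => Nat.find_min hex hm
  refine ⟨σ, hg, fun d d' => ?_⟩
  have hinv : ∀ d d' : G.Dart, σ.SameCycle d d' → f d.fst = f d'.fst := fun d d' h =>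
    dartIso_invariant (f := fun d : G.Dart => f d.fst) hi h
  constructor
  · intro h
    exact (hf _ _).1 (hinv d d' h)
  · rintro (h | ⟨x, hx, hx'⟩)
    · exact hs d d' h
    · have key : ∀ e : G.Dart, e.fst ∈ B x → e.snd ∈ B x → σ.SameCycle e e.symm := by
        intro e he he'
        by_contra hcon
        set a := σ⁻¹ e with ha
        set b := e.symm with hb
        have hσa : σ a = e := by
          rw [ha]
          exact Equiv.apply_symm_apply σ e
        have hae : σ.SameCycle a e := ⟨1, by rw [zpow_one, hσa]⟩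
        have hab : ¬ σ.SameCycle a b := fun h => hcon (hae.symm.trans h)
        have hrev : ∀ y : G.Dart, rev G (rev G y) = y := fun y => by
          change y.symm.symm = y
          exact Dart.symm_symm y
        have hface : (σ * rev G).SameCycle (rev G a) (rev G b) := by
          refine ⟨1, ?_⟩
          rw [zpow_one, Perm.mul_apply, hrev, hσa]
          change e = e.symm.symm
          rw [Dart.symm_symm]
        have hgen := gen2_merge_face (σ := σ) (α := rev G) hrev hab hface
        have hcyc := cyc_mul_swap_of_not_sameCycle σ hab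
        have hP : P (σ * swap a b) := by
          refine ⟨by rw [hgen]; exact hg, fun d d' h => (sameCycle_mul_swap σ hab).2 _ _ (hs d d' h),
            fun d => ?_⟩
          have hfab : f a.fst = f b.fst := by
            rw [hinv a e hae]
            exact (hf _ _).2 (Or.inr ⟨x, he, he'⟩)
          by_cases h1 : d = a
          · rw [h1, CycleCount_swap_left, hi, hfab]
          · by_cases h2 : d = b
            · rw [h2, CycleCount_swap_right, hi, hfab]
            · rw [CycleCount_swap_ne σ h1 h2, hi]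
        refine hmin (cyc (σ * swap a b)) ?_ ⟨_, hP, rfl⟩
        omega
      obtain ⟨p⟩ := (hB x).preconnected ⟨d.fst, hx⟩ ⟨d'.fst, hx'⟩
      exact L6a_walk G (B x) σ hs key p d d' rfl rfl

end Pool.Agent.Lib.MP_72b45c_co.Q
end

section

/-! # MP_72b45c_co, block L (maps), job L6b: minors -/

namespace Pool.Agent.Lib.MP_72b45c_co.Q

open SimpleGraph Equiv Equiv.Perm

/-- `exists_contract`, and `embeds_of_map` with `ι` choosing for every edge `xy` of `H` a dart of `G` from
`B x` to `B y` (the same edge for `yx`, reversed; e.g. via a linear order or choice on `H.edgeSet`). -/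
theorem embeds_minor {V W : Type*} [Finite V] [Finite W] {H : SimpleGraph W} {G : SimpleGraph V}
    {g : ℕ} (hm : IsMinor H G) (h : Embeds g G) : Embeds g H := by
  classical
  have : Finite G.Dart := dartIso_finite G
  obtain ⟨B, hB, hd, he⟩ := hm
  rw [embeds_iff] at h
  obtain ⟨R, hR⟩ := h
  obtain ⟨σ, hσ, hsc⟩ := exists_contract G R B hB hd
  have hdis : ∀ {x y : W} {v : V}, v ∈ B x → v ∈ B y → x = y := by
    intro x y v h1 h2
    by_contra hxy
    exact Set.disjoint_left.1 (hd x y hxy) h1 h2
  have hf : ∀ d : H.Dart, ∃ f : G.Dart, f.fst ∈ B d.fst ∧ f.snd ∈ B d.snd := by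
    intro d
    obtain ⟨u, hu, v, hv, huv⟩ := he d.fst d.snd d.adj
    exact ⟨⟨(u, v), huv⟩, hu, hv⟩
  choose f hf1 hf2 using hf
  obtain ⟨k, hk⟩ := Countable.exists_injective_nat W
  obtain ⟨ι, hι⟩ : ∃ ι : H.Dart → G.Dart, ∀ d : H.Dart,
      ι d = if k d.fst < k d.snd then f d else (f d.symm).symm := ⟨_, fun d => rfl⟩
  have h1 : ∀ d : H.Dart, (ι d).fst ∈ B d.fst ∧ (ι d).snd ∈ B d.snd := by
    intro d
    rw [hι]
    by_cases hkd : k d.fst < k d.snd
    · rw [if_pos hkd]
      exact ⟨hf1 d, hf2 d⟩
    · rw [if_neg hkd]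
      exact ⟨hf2 d.symm, hf1 d.symm⟩
  have hs : ∀ d : H.Dart, ι d.symm = rev G (ι d) := by
    intro d
    have hne : k d.fst ≠ k d.snd := fun h2 => d.adj.ne (hk h2)
    show ι d.symm = (ι d).symm
    rw [hι, hι]
    show (if k d.snd < k d.fst then f d.symm else (f d.symm.symm).symm) = _
    rw [Dart.symm_symm]
    by_cases hkd : k d.fst < k d.snd
    · rw [if_pos hkd, if_neg (by omega)]
    · rw [if_neg hkd, if_pos (by omega), Dart.symm_symm]
  refine embeds_of_map (α := rev G) (σ := σ) (fun d => Dart.symm_involutive d)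
    (fun d => Dart.symm_ne d) (hσ.trans hR) H ι ?_ hs ?_
  · intro d d' hdd
    apply Dart.ext
    have h2 := (h1 d).1
    have h3 := (h1 d).2
    rw [hdd] at h2 h3
    exact Prod.ext (hdis h2 (h1 d').1) (hdis h3 (h1 d').2)
  · intro d d'
    rw [hsc]
    constructor
    · rintro (h2 | ⟨x, h2, h3⟩)
      · have h4 := (h1 d).1
        rw [h2] at h4
        exact hdis h4 (h1 d').1
      · exact (hdis (h1 d).1 h2).trans (hdis h3 (h1 d').1)
    · intro h2
      refine Or.inr ⟨d.fst, (h1 d).1, ?_⟩
      rw [h2]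
      exact (h1 d').1

end Pool.Agent.Lib.MP_72b45c_co.Q
end

section

/-! # MP_72b45c_co, block L (maps), job L6c: nonseparating cycles -/

namespace Pool.Agent.Lib.MP_72b45c_co.Q

open SimpleGraph Equiv Equiv.Perm

theorem L6c_same {X : Type*} [Finite X] (f g : Perm X) (O : Set X) (hO : ∀ x ∈ O, f x ∈ O)
    (hfg : ∀ x ∈ O, f x = g x) {x y : X} (hx : x ∈ O) (h : f.SameCycle x y) :
    y ∈ O ∧ g.SameCycle x y := by
  refine CycleCount_closed f {y | y ∈ O ∧ g.SameCycle x y} ?_ ⟨hx, SameCycle.refl _ _⟩ h
  rintro y ⟨hy, hxy⟩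
  refine ⟨hO y hy, ?_⟩
  rw [hfg y hy]
  exact sameCycle_apply_right.mpr hxy

/-- Nonseparating cycles. `σ₀ = R.next`, `α = rev G`.
(1) `detach` the darts `d` with (`d.fst ∈ V0` or `d.snd ∈ V0`) and `z d = 0`: `σ₁`. On the darts with `z d ≠ 0`
(a set closed under `σ₁` and `α`: they start in `V0`, the other darts starting in `V0` are fixed by `σ₁`) the
cycles of `σ₁` are the sets of darts `d` with `z d ≠ 0` and a common start; their number is even by `hzv`.
(2) `split_pairs` with `S = {d | z d ≠ 0}`: `σ₂`.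
(3) `z ∈ Bd σ₂ α`: `exists_two_coloring` for `σ₂`, `α` restricted to `S` gives `c`; extend by `0`
(`z d = 1` for `z d ≠ 0`; on `S`, `c (σ₂ (α x)) = c x + 1 + 1 = c x`; outside `S` all values are `0`).
(4) By `Prel.trans` and `hB`: `gen2 σ₂ α + 2 ≤ gen2 σ₀ α ≤ 2 g`. `embeds_of_map` for `H = G.induce V0ᶜ`
(the darts of `H` are darts of `G` not touching `V0`; on them the cycles of `σ₂` are those of `σ₀`). -/
theorem nonsep {V : Type*} [Finite V] (G : SimpleGraph V) {g : ℕ} (hg : 1 ≤ g)
    (R : RotationSystem G) (hR : gen2 R.next (rev G) ≤ 2 * (g : ℤ)) (V0 : Set V)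
    (z : G.Dart → ZMod 2) (hz : ∀ d, z d.symm = z d) (hz0 : ∀ d, z d ≠ 0 → d.fst ∈ V0)
    (hzv : ∀ v, Even (Nat.card {d : G.Dart // d.fst = v ∧ z d ≠ 0}))
    (hB : z ∉ Bd R.next (rev G)) : Embeds (g - 1) (G.induce V0ᶜ) := by
  classical
  have : Finite G.Dart := dartIso_finite G
  have : Fintype G.Dart := Fintype.ofFinite _
  have hα : ∀ x, rev G (rev G x) = x := fun x => Dart.symm_symm x
  have hα' : ∀ x, rev G x ≠ x := fun x => Dart.symm_ne x
  have hzα : ∀ x, z (rev G x) = z x := fun x => hz x
  obtain ⟨σ₁, h1a, h1b, h1c⟩ := detach (σ := R.next) hα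
    (Finset.univ.filter fun d => (d.fst ∈ V0 ∨ d.snd ∈ V0) ∧ z d = 0)
  simp only [Finset.mem_filter, Finset.mem_univ, true_and] at h1a h1b
  have hfst : ∀ {x y}, R.next.SameCycle x y → x.fst = y.fst := fun {x y} h =>
    dartIso_invariant (f := fun d : G.Dart => d.fst) R.fst_next h
  have hnS : ∀ x, z x ≠ 0 → ¬ ((x.fst ∈ V0 ∨ x.snd ∈ V0) ∧ z x = 0) := fun x hx h => hx h.2
  have hσ₁S : ∀ x, z x ≠ 0 → z (σ₁ x) ≠ 0 := by
    intro x hx
    by_cases hT : ((σ₁ x).fst ∈ V0 ∨ (σ₁ x).snd ∈ V0) ∧ z (σ₁ x) = 0
    · have h2 := σ₁.injective (h1a _ hT)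
      rw [h2]
      exact hx
    · have h2 := (h1b x (σ₁ x) (hnS x hx) hT).mp (sameCycle_apply_right.mpr (SameCycle.refl _ _))
      have h3 : (σ₁ x).fst ∈ V0 := by
        rw [← hfst h2]
        exact hz0 x hx
      intro h4
      exact hT ⟨Or.inl h3, h4⟩
  obtain ⟨σ₂, h2a, h2b, h2c⟩ := split_pairs (σ := σ₁) hα (Finset.univ.filter fun d => z d ≠ 0)
    (fun x hx => by
      simp only [Finset.mem_filter, Finset.mem_univ, true_and] at hx ⊢
      exact hσ₁S x hx)
    (fun x hx => by
      simp only [Finset.mem_filter, Finset.mem_univ, true_and] at hx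
      have e : Nat.card {y // σ₁.SameCycle x y} = Nat.card {d : G.Dart // d.fst = x.fst ∧ z d ≠ 0} := by
        refine Nat.card_congr (Equiv.subtypeEquivRight fun y => ⟨fun h => ?_, fun h => ?_⟩)
        · have hy : z y ≠ 0 := CycleCount_closed σ₁ {d | z d ≠ 0} hσ₁S hx h
          exact ⟨(hfst ((h1b x y (hnS x hx) (hnS y hy)).mp h)).symm, hy⟩
        · exact (h1b x y (hnS x hx) (hnS y h.2)).mpr (R.sameCycle x y h.1.symm)
      rw [e]
      exact hzv x.fst)
  simp only [Finset.mem_filter, Finset.mem_univ, true_and, not_not] at h2a h2b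
  have hne1 : ∀ a : ZMod 2, a ≠ 0 → a = 1 := by decide
  have hBd : z ∈ Bd σ₂ (rev G) := by
    let s : Perm {d : G.Dart // z d ≠ 0} := Function.Involutive.toPerm (fun y => ⟨σ₂ y.1, (h2b y.1 y.2).1⟩)
      (fun y => Subtype.ext (h2b y.1 y.2).2.1)
    let t : Perm {d : G.Dart // z d ≠ 0} := Function.Involutive.toPerm
      (fun y => ⟨rev G y.1, by rw [hzα]; exact y.2⟩) (fun y => Subtype.ext (hα y.1))
    obtain ⟨c, hc1, hc2⟩ := exists_two_coloring s t (fun y => Subtype.ext (h2b y.1 y.2).2.1)
      (fun y h => (h2b y.1 y.2).2.2 (congrArg Subtype.val h))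
      (fun y => Subtype.ext (hα y.1)) (fun y h => hα' y.1 (congrArg Subtype.val h))
    refine ⟨fun x => if h : z x ≠ 0 then c ⟨x, h⟩ else 0, fun x => ?_, fun x => ?_⟩
    · by_cases hx : z x ≠ 0
      · have hx' : z (rev G x) ≠ 0 := by rw [hzα]; exact hx
        have hx2 := (h2b (rev G x) hx').1
        simp only [dif_pos hx, dif_pos hx2]
        have e1 : (⟨σ₂ (rev G x), hx2⟩ : {d : G.Dart // z d ≠ 0}) = s (t ⟨x, hx⟩) := rfl
        rw [e1, hc1, hc2, add_assoc, CharTwo.add_self_eq_zero, add_zero]
      · have hx0 : z x = 0 := not_not.mp hx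
        have hx2 : ¬ z (σ₂ (rev G x)) ≠ 0 := by
          intro h
          obtain ⟨h3, h4, _⟩ := h2b _ h
          have h5 := σ₂.injective h4
          rw [h5, hzα] at h3
          exact hx h3
        simp only [dif_neg hx, dif_neg hx2]
    · by_cases hx : z x ≠ 0
      · have hx' : z (rev G x) ≠ 0 := by rw [hzα]; exact hx
        simp only [dif_pos hx, dif_pos hx']
        have e1 : (⟨rev G x, hx'⟩ : {d : G.Dart // z d ≠ 0}) = t ⟨x, hx⟩ := rfl
        rw [e1, hc2, ← add_assoc, CharTwo.add_self_eq_zero, zero_add]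
        exact hne1 _ hx
      · have hx' : ¬ z (rev G x) ≠ 0 := by rw [hzα]; exact hx
        simp only [dif_neg hx, dif_neg hx', add_zero]
        exact not_not.mp hx
  have hprel := h1c.trans h2c
  have hg2 : gen2 σ₂ (rev G) ≤ 2 * ((g - 1 : ℕ) : ℤ) := by
    rcases hprel with h | h
    · have : ((g - 1 : ℕ) : ℤ) = (g : ℤ) - 1 := by
        rw [Nat.cast_sub hg]
        rfl
      rw [this]
      linarith
    · exact absurd (h.2 hBd) hB
  let f : (G.induce V0ᶜ).Dart → G.Dart := fun d => ⟨(d.fst.1, d.snd.1), d.adj⟩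
  refine embeds_of_map (α := rev G) (σ := σ₂) hα hα' hg2 (G.induce V0ᶜ) f ?_ (fun d => rfl) ?_
  · intro d d' h
    have h3 : (f d).toProd = (f d').toProd := congrArg _ h
    refine Dart.ext _ _ (Prod.ext (Subtype.ext ?_) (Subtype.ext ?_))
    · exact congrArg Prod.fst h3
    · exact congrArg Prod.snd h3
  · intro d d'
    have hd1 : ∀ d : (G.induce V0ᶜ).Dart, z (f d) = 0 := by
      intro d
      by_contra h
      exact d.fst.2 (hz0 _ h)
    have hd2 : ∀ d : (G.induce V0ᶜ).Dart, ¬ (((f d).fst ∈ V0 ∨ (f d).snd ∈ V0) ∧ z (f d) = 0) := by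
      rintro d ⟨h | h, _⟩
      · exact d.fst.2 h
      · exact d.snd.2 h
    have hσ₁0 : ∀ x, z x = 0 → z (σ₁ x) = 0 := by
      intro x hx
      by_contra h
      have h3 : z x ≠ 0 := by
        refine CycleCount_closed σ₁ {d | z d ≠ 0} hσ₁S h ?_
        exact sameCycle_apply_left.mpr (SameCycle.refl _ _)
      exact h3 hx
    constructor
    · intro h
      have h3 := (L6c_same σ₂ σ₁ {x | z x = 0} (fun x hx => by
        have := hσ₁0 x hx
        rw [← h2a x hx] at this
        exact this) (fun x hx => h2a x hx) (hd1 d) h).2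
      have h4 := hfst ((h1b _ _ (hd2 d) (hd2 d')).mp h3)
      exact Subtype.ext h4
    · intro h
      have h4 : R.next.SameCycle (f d) (f d') := R.sameCycle _ _ (congrArg Subtype.val h)
      have h3 := (h1b _ _ (hd2 d) (hd2 d')).mpr h4
      exact (L6c_same σ₁ σ₂ {x | z x = 0} (fun x hx => hσ₁0 x hx) (fun x hx => (h2a x hx).symm) (hd1 d) h3).2

end Pool.Agent.Lib.MP_72b45c_co.Q
end

section

/-! # MP_72b45c_co, block L (maps), job L6d: K33 -/

namespace Pool.Agent.Lib.MP_72b45c_co.Q

open SimpleGraph Equiv Equiv.Perm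

/-- Every face of `K_(3,3)` has length at least 4 (`girth_mul_numFaces_le` in GirthFaces.lean), so
`4 F ≤ 18`, `F ≤ 4`, and `9 + 2 ≤ 6 + 4` is false; connected, no isolated vertices. -/
theorem K33_not_planar : ¬ Embeds 0 (completeBipartiteGraph (Fin 3) (Fin 3)) := by
  rintro ⟨R, hR⟩
  have hE : Nat.card (completeBipartiteGraph (Fin 3) (Fin 3)).edgeSet = 9 := by
    have h1 := encard_edgeSet_completeBipartiteGraph (W₁ := Fin 3) (W₂ := Fin 3)
    have h2 : Nat.card (completeBipartiteGraph (Fin 3) (Fin 3)).edgeSet =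
        (completeBipartiteGraph (Fin 3) (Fin 3)).edgeSet.ncard := rfl
    rw [h2, Set.ncard, h1, ENat.card_eq_coe_natCard, Nat.card_eq_fintype_card, Fintype.card_fin]
    rfl
  have hne : ∀ a : Fin 3, ∃ b : Fin 3, b ≠ a := by decide
  have hF := girth_mul_numFaces_le (completeBipartiteGraph (Fin 3) (Fin 3)) 4 (by
    intro v p hp
    have h3 := hp.three_le_length
    have h4 : Even p.length :=
      ((CompleteBipartiteGraph.bicoloring (Fin 3) (Fin 3)).even_length_iff_congr p).2 Iff.rfl
    obtain ⟨k, hk⟩ := h4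
    omega) (by
    intro v w hvw
    rcases v with v | v <;> rcases w with w | w
    · simp at hvw
    · obtain ⟨b, hb⟩ := hne w
      exact ⟨Sum.inr b, fun h => hb (Sum.inr_injective h), by simp⟩
    · obtain ⟨b, hb⟩ := hne w
      exact ⟨Sum.inl b, fun h => hb (Sum.inl_injective h), by simp⟩
    · simp at hvw) R
  have hC : 1 ≤ Nat.card (completeBipartiteGraph (Fin 3) (Fin 3)).ConnectedComponent := by
    have : Nonempty (completeBipartiteGraph (Fin 3) (Fin 3)).ConnectedComponent :=
      ⟨connectedComponentMk _ (Sum.inl 0)⟩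
    exact Nat.card_pos
  have hV : Nat.card (Fin 3 ⊕ Fin 3) = 6 := by
    rw [Nat.card_eq_fintype_card]
    rfl
  have hI : numIsolated (completeBipartiteGraph (Fin 3) (Fin 3)) = 0 := by
    unfold numIsolated
    have : IsEmpty {v : Fin 3 ⊕ Fin 3 // ∀ w, ¬ (completeBipartiteGraph (Fin 3) (Fin 3)).Adj v w} := by
      refine ⟨fun ⟨v, hv⟩ => ?_⟩
      rcases v with v | v
      · exact hv (Sum.inr 0) (by simp)
      · exact hv (Sum.inl 0) (by simp)
    exact Nat.card_of_isEmpty
  rw [hE, hV, hI] at hR
  rw [hE] at hF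
  omega

end Pool.Agent.Lib.MP_72b45c_co.Q
end

section

/-! # MP_72b45c_co, block L (maps), job L6e: proper minors -/

namespace Pool.Agent.Lib.MP_72b45c_co.Q

open SimpleGraph Equiv Equiv.Perm

theorem L6e_reach {α β : Type*} {G₁ : SimpleGraph α} {G₂ : SimpleGraph β} (F : α → β)
    (hF : ∀ u v, G₁.Adj u v → G₂.Reachable (F u) (F v)) {u v : α} (h : G₁.Reachable u v) :
    G₂.Reachable (F u) (F v) := by
  obtain ⟨p⟩ := h
  induction p with
  | nil => exact Reachable.refl _
  | cons h p ih => exact (hF _ _ h).trans ih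

theorem L6e_con {V W : Type*} {G : SimpleGraph V} {H : SimpleGraph W} {B : W → Set V}
    (h1 : ∀ x, (G.induce (B x)).Connected) (h2 : ∀ x y, x ≠ y → Disjoint (B x) (B y))
    (h3 : ∀ x y, H.Adj x y → ∃ u ∈ B x, ∃ v ∈ B y, G.Adj u v) {x : W} {a b : V} (ha : a ∈ B x)
    (hb : b ∈ B x) (hab : G.Adj a b) : IsMinor H (conG G a b) := by
  classical
  have hne : a ≠ b := hab.ne
  have hadj : ∀ u v, u ≠ b → v ≠ b → G.Adj u v → (conG G a b).Adj u v := fun u v hu hv h =>
    ⟨h.ne, hu, hv, Or.inl h⟩
  have hadj1 : ∀ v, v ≠ b → v ≠ a → G.Adj b v → (conG G a b).Adj a v := fun v hv hva h =>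
    ⟨hva.symm, hne, hv, Or.inr (Or.inl ⟨rfl, h⟩)⟩
  have hadj2 : ∀ u, u ≠ b → u ≠ a → G.Adj u b → (conG G a b).Adj u a := fun u hu hua h =>
    ⟨hua, hu, hne, Or.inr (Or.inr ⟨rfl, h⟩)⟩
  refine ⟨fun y => B y \ {b}, fun y => ?_, fun y z hyz => ?_, fun y z hyz => ?_⟩
  · have hF : ∀ v : B y, (if v.1 = b then a else v.1) ∈ B y \ {b} := by
      rintro ⟨v, hv⟩
      by_cases hvb : v = b
      · simp only [if_pos hvb]
        rw [hvb] at hv
        rw [Minor_inj h2 hv hb]
        exact ⟨ha, hne⟩
      · simp only [if_neg hvb]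
        exact ⟨hv, hvb⟩
    have key : ∀ u v : B y, ((conG G a b).induce (B y \ {b})).Reachable
        ⟨if u.1 = b then a else u.1, hF u⟩ ⟨if v.1 = b then a else v.1, hF v⟩ := by
      intro u v
      refine L6e_reach (G₁ := G.induce (B y)) (G₂ := (conG G a b).induce (B y \ {b}))
        (fun v : B y => (⟨if v.1 = b then a else v.1, hF v⟩ : ↥(B y \ {b}))) ?_ ((h1 y).preconnected u v)
      rintro ⟨u, hu⟩ ⟨v, hv⟩ huv
      have huv' : G.Adj u v := huv
      by_cases hub : u = b
      · have hvb : v ≠ b := fun h => huv'.ne (hub.trans h.symm)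
        by_cases hva : v = a
        · have e : (⟨if u = b then a else u, hF ⟨u, hu⟩⟩ : ↥(B y \ {b})) =
              ⟨if v = b then a else v, hF ⟨v, hv⟩⟩ := by
            apply Subtype.ext
            simp only [if_pos hub, if_neg hvb]
            exact hva.symm
          simp only [e]
          exact Reachable.refl _
        · refine Adj.reachable ?_
          change (conG G a b).Adj (if u = b then a else u) (if v = b then a else v)
          rw [if_pos hub, if_neg hvb]
          exact hadj1 v hvb hva (hub ▸ huv')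
      · by_cases hvb : v = b
        · by_cases hua : u = a
          · have e : (⟨if u = b then a else u, hF ⟨u, hu⟩⟩ : ↥(B y \ {b})) =
                ⟨if v = b then a else v, hF ⟨v, hv⟩⟩ := by
              apply Subtype.ext
              simp only [if_pos hvb, if_neg hub]
              exact hua
            simp only [e]
            exact Reachable.refl _
          · refine Adj.reachable ?_
            change (conG G a b).Adj (if u = b then a else u) (if v = b then a else v)
            rw [if_neg hub, if_pos hvb]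
            exact hadj2 u hub hua (hvb ▸ huv')
        · refine Adj.reachable ?_
          change (conG G a b).Adj (if u = b then a else u) (if v = b then a else v)
          rw [if_neg hub, if_neg hvb]
          exact hadj u v hub hvb huv'
    obtain ⟨w⟩ := (h1 y).nonempty
    refine { preconnected := ?_, nonempty := ⟨⟨_, hF w⟩⟩ }
    rintro ⟨u, hu⟩ ⟨v, hv⟩
    have h4 := key ⟨u, hu.1⟩ ⟨v, hv.1⟩
    have e1 : (⟨if u = b then a else u, hF ⟨u, hu.1⟩⟩ : ↥(B y \ {b})) = ⟨u, hu⟩ :=
      Subtype.ext (if_neg hu.2)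
    have e2 : (⟨if v = b then a else v, hF ⟨v, hv.1⟩⟩ : ↥(B y \ {b})) = ⟨v, hv⟩ :=
      Subtype.ext (if_neg hv.2)
    simp only [e1, e2] at h4
    exact h4
  · exact (h2 y z hyz).mono Set.sdiff_subset Set.sdiff_subset
  · obtain ⟨u, hu, v, hv, huv⟩ := h3 y z hyz
    by_cases hub : u = b
    · have hvb : v ≠ b := fun h => huv.ne (hub.trans h.symm)
      have hyx : y = x := Minor_inj h2 hu (hub ▸ hb)
      have hva : v ≠ a := by
        intro h
        have hzx : z = x := Minor_inj h2 hv (h ▸ ha)
        exact hyz.ne (hyx.trans hzx.symm)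
      refine ⟨a, ⟨hyx ▸ ha, hne⟩, v, ⟨hv, hvb⟩, hadj1 v hvb hva (hub ▸ huv)⟩
    · by_cases hvb : v = b
      · have hzx : z = x := Minor_inj h2 hv (hvb ▸ hb)
        have hua : u ≠ a := by
          intro h
          have hyx : y = x := Minor_inj h2 hu (h ▸ ha)
          exact hyz.ne (hyx.trans hzx.symm)
        refine ⟨u, ⟨hu, hub⟩, a, ⟨hzx ▸ ha, hne⟩, hadj2 u hub hua (hvb ▸ huv)⟩
      · exact ⟨u, ⟨hu, hub⟩, v, ⟨hv, hvb⟩, hadj u v hub hvb huv⟩

/-- Let `B` be the branch sets. (A) Some `B x` contains adjacent `a, b`: `H` is a minor of `conG G a b` with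
the branch sets `B y \ {b}` (for `y ≠ x` nothing changes; for `x` a walk of `G` inside `B x` becomes a walk in
`conG G a b` after replacing `b` by `a`). (B) All `B x` are single points `p x` (`(G.induce (B x)).Connected`
without edges), `p` injective. If `p` is not surjective, take `v` not in the image and a neighbour `w`; if it is
surjective, some edge `uv` of `G` is not the image of an edge of `H` (`hne`). In both cases `H` is a minor of
`G.deleteEdges {s(u, v)}` with the same branch sets. -/
theorem minor_cases {V W : Type*} [Finite V] {G : SimpleGraph V} {H : SimpleGraph W}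
    (hiso : ∀ v, ∃ w, G.Adj v w) (hm : IsMinor H G) (hne : ¬ Nonempty (H ≃g G)) :
    ∃ a b, G.Adj a b ∧ (IsMinor H (conG G a b) ∨ IsMinor H (G.deleteEdges {s(a, b)})) := by
  obtain ⟨B, h1, h2, h3⟩ := hm
  by_cases hA : ∃ x a b, a ∈ B x ∧ b ∈ B x ∧ G.Adj a b
  · obtain ⟨x, a, b, ha, hb, hab⟩ := hA
    exact ⟨a, b, hab, Or.inl (L6e_con h1 h2 h3 ha hb hab)⟩
  · push Not at hA
    have hsing : ∀ x, ∀ u ∈ B x, ∀ v ∈ B x, u = v := by
      intro x u hu v hv
      obtain ⟨p⟩ := (h1 x).preconnected ⟨u, hu⟩ ⟨v, hv⟩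
      cases p with
      | nil => rfl
      | cons h p => exact absurd h (hA x _ _ hu (Subtype.coe_prop _))
    have hp : ∀ x, ∃ a, a ∈ B x := fun x => by
      obtain ⟨⟨a, ha⟩⟩ := (h1 x).nonempty
      exact ⟨a, ha⟩
    choose p hp using hp
    have hinj : Function.Injective p := fun x y hxy =>
      Minor_inj h2 (hp x) (by rw [hxy]; exact hp y)
    have hadj : ∀ x y, H.Adj x y → G.Adj (p x) (p y) := by
      intro x y hxy
      obtain ⟨u, hu, v, hv, huv⟩ := h3 x y hxy
      rwa [hsing x u hu (p x) (hp x), hsing y v hv (p y) (hp y)] at huv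
    have hdel : ∀ a b, (∀ x y, H.Adj x y → s(p x, p y) ≠ s(a, b)) →
        IsMinor H (G.deleteEdges {s(a, b)}) := by
      intro a b hab
      refine ⟨B, fun x => ?_, h2, fun x y hxy => ?_⟩
      · refine { preconnected := ?_, nonempty := ⟨⟨p x, hp x⟩⟩ }
        rintro ⟨u, hu⟩ ⟨v, hv⟩
        have e : (⟨u, hu⟩ : ↥(B x)) = ⟨v, hv⟩ := Subtype.ext (hsing x u hu v hv)
        rw [e]
      · refine ⟨p x, hp x, p y, hp y, ?_⟩
        rw [deleteEdges_adj]
        exact ⟨hadj x y hxy, fun h => hab x y hxy h⟩
    by_cases hsurj : Function.Surjective p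
    · have hex : ∃ x y, G.Adj (p x) (p y) ∧ ¬ H.Adj x y := by
        by_contra hcon
        push Not at hcon
        refine hne ⟨⟨Equiv.ofBijective p ⟨hinj, hsurj⟩, ?_⟩⟩
        intro x y
        exact ⟨fun h => hcon x y h, fun h => hadj x y h⟩
      obtain ⟨x, y, hxy, hn⟩ := hex
      refine ⟨p x, p y, hxy, Or.inr (hdel _ _ fun x' y' h' he => ?_)⟩
      rw [Sym2.eq_iff] at he
      rcases he with ⟨h5, h6⟩ | ⟨h5, h6⟩
      · rw [hinj h5, hinj h6] at h'
        exact hn h'
      · rw [hinj h5, hinj h6] at h'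
        exact hn h'.symm
    · unfold Function.Surjective at hsurj
      push Not at hsurj
      obtain ⟨v, hv⟩ := hsurj
      obtain ⟨w, hw⟩ := hiso v
      refine ⟨v, w, hw, Or.inr (hdel _ _ fun x' y' h' he => ?_)⟩
      rw [Sym2.eq_iff] at he
      rcases he with ⟨h5, h6⟩ | ⟨h5, h6⟩
      · exact hv _ h5
      · exact hv _ h6

end Pool.Agent.Lib.MP_72b45c_co.Q
end

section

/-! # MP_72b45c_co, block L (maps), job L6: minors; nonseparating cycles (parts) -/
end
end
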