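import Pool.Agent.Lib.MP_72b45c_co.Q.WDefs
import Pool.Agent.Lib.MP_72b45c_co.Defs

/-! # MP_72b45c_co: the graph of the black cells, on its own vertex set, and on `Fin m` -/

namespace Pool.Agent.Lib.MP_72b45c_co.Q

open SimpleGraph

/-- the graph of the black cells of the word `u` -/
abbrev BB (n : ℕ) (u : List ℕ) : SimpleGraph {c : Fin (u.length + 1) // col u c = 1} :=
  (BG n u 1).induce {c : Fin (u.length + 1) | col u c = 1}

/-- the same graph on the vertex set `Fin m`, `m` = number of black cells -/
noncomputable def FG (n : ℕ) (u : List ℕ) :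
    SimpleGraph (Fin (Nat.card {c : Fin (u.length + 1) // col u c = 1})) :=
  (BB n u).comap (Finite.equivFin {c : Fin (u.length + 1) // col u c = 1}).symm

/-- the isomorphism between the two -/
noncomputable def FGiso (n : ℕ) (u : List ℕ) : FG n u ≃g BB n u :=
  SimpleGraph.Iso.comap (Finite.equivFin {c : Fin (u.length + 1) // col u c = 1}).symm (BB n u)

end Pool.Agent.Lib.MP_72b45c_co.Q
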