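import Pool.Agent.Lib.MP_72b45c_co.Q.WDefs
import Pool.Agent.Lib.MP_72b45c_co.Q.BBDefs
import Pool.Agent.Lib.MP_72b45c_co.HitCount
import Pool.Agent.Lib.MP_72b45c_co.Minor

section

section

/-! # MP_72b45c_co, block W (words), job W1a: states -/

namespace Pool.Agent.Lib.MP_72b45c_co.Q

open Equiv Equiv.Perm

theorem run_append (π : Perm ℕ) (u v : List ℕ) : run π (u ++ v) = run (run π u) v := by
  induction u generalizing π with
  | nil => rfl
  | cons k u ih => exact ih _

theorem Asc_append {n : ℕ} {π : Perm ℕ} {u v : List ℕ} :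
    Asc n π (u ++ v) ↔ Asc n π u ∧ Asc n (run π u) v := by
  induction u generalizing π with
  | nil => simp [Asc, run]
  | cons k u ih => simp [Asc, run, ih, and_assoc]

theorem run_mul (π ρ : Perm ℕ) (u : List ℕ) : run (π * ρ) u = π * run ρ u := by
  induction u generalizing ρ with
  | nil => rfl
  | cons k u ih =>
    rw [run, run, ← ih, mul_assoc]

theorem Asc.mem {n : ℕ} {π : Perm ℕ} {u : List ℕ} (h : Asc n π u) : ∀ k ∈ u, 1 ≤ k ∧ k < n := by
  induction u generalizing π with
  | nil => simp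
  | cons k u ih =>
    intro j hj
    rcases List.mem_cons.mp hj with rfl | hj
    · exact ⟨h.1, h.2.1⟩
    · exact ih h.2.2.2 j hj

/-- the state at the next time -/
theorem run_take_succ (u : List ℕ) {t : ℕ} (ht : t < u.length) :
    run 1 (u.take (t + 1)) = run 1 (u.take t) * swap u[t] (u[t] + 1) := by
  rw [List.take_succ_eq_append_getElem ht, run_append]
  rfl

/-- positions outside `1..n` are fixed -/
theorem run_of_not_mem {n : ℕ} (π : Perm ℕ) {u : List ℕ} (h : ∀ k ∈ u, 1 ≤ k ∧ k < n) {i : ℕ}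
    (hi : i = 0 ∨ n < i) : run π u i = π i := by
  induction u generalizing π with
  | nil => rfl
  | cons k u ih =>
    have hk := h k List.mem_cons_self
    rw [run, ih (π * swap k (k + 1)) (fun j hj => h j (List.mem_cons_of_mem _ hj)), Perm.mul_apply,
      swap_apply_of_ne_of_ne (by omega) (by omega)]

/-- the labels at the positions `1..n` are `1..n` (`run 1 u` is injective and fixes everything outside `1..n`) -/
theorem run_mem {n : ℕ} {u : List ℕ} (h : ∀ k ∈ u, 1 ≤ k ∧ k < n) {i : ℕ} (h1 : 1 ≤ i)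
    (h2 : i ≤ n) : 1 ≤ run 1 u i ∧ run 1 u i ≤ n := by
  by_contra hc
  have h3 : run 1 u i = 0 ∨ n < run 1 u i := by omega
  have h4 := run_of_not_mem 1 h h3
  rw [Perm.one_apply] at h4
  have h5 := (run 1 u).injective h4
  omega

/-- An inverted pair of labels stays inverted (induction on the word; a letter `k` changes the relative order of
the labels at the positions `k`, `k+1` only, and they are not inverted before). -/
theorem Asc.inv {n : ℕ} {π : Perm ℕ} {u : List ℕ} (h : Asc n π u) {x y : ℕ} (hxy : x < y)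
    (hi : π.symm y < π.symm x) : (run π u).symm y < (run π u).symm x := by
  induction u generalizing π with
  | nil => exact hi
  | cons k u ih =>
    obtain ⟨h1, h2, h3, h4⟩ := h
    rw [run]
    apply ih h4
    have e : ∀ z, (π * swap k (k + 1)).symm z = swap k (k + 1) (π.symm z) := by
      intro z
      rw [Equiv.symm_apply_eq, Perm.mul_apply, swap_apply_self, Equiv.apply_symm_apply]
    rw [e, e]
    have h5 : ¬ (π.symm y = k ∧ π.symm x = k + 1) := by
      rintro ⟨h6, h7⟩
      have h8 : y = π k := by rw [← h6, Equiv.apply_symm_apply]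
      have h9 : x = π (k + 1) := by rw [← h7, Equiv.apply_symm_apply]
      omega
    rw [swap_apply_def, swap_apply_def]
    split_ifs <;> omega

end Pool.Agent.Lib.MP_72b45c_co.Q
end

section

/-! # MP_72b45c_co, block W (words), job W1b: letters occur, pairs cross once -/

namespace Pool.Agent.Lib.MP_72b45c_co.Q

open Equiv Equiv.Perm

private theorem w1b_run_le {k : ℕ} {u : List ℕ} (hk : k ∉ u) :
    ∀ π : Perm ℕ, (∀ i, i ≤ k → π i ≤ k) → ∀ i, i ≤ k → run π u i ≤ k := by
  induction u with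
  | nil => exact fun π h i hi => h i hi
  | cons j u ih =>
    intro π h i hi
    have hjk : k ≠ j := fun h' => hk (h' ▸ List.mem_cons_self)
    have hku : k ∉ u := fun h' => hk (List.mem_cons_of_mem _ h')
    refine ih hku _ ?_ i hi
    intro i hi
    rw [Equiv.Perm.mul_apply]
    apply h
    by_cases h1 : i = j
    · subst h1
      rw [swap_apply_left]
      omega
    · by_cases h2 : i = j + 1
      · subst h2
        rw [swap_apply_right]
        omega
      · rw [swap_apply_of_ne_of_ne h1 h2]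
        exact hi

/-- Every letter occurs: if `k` does not occur, the labels at the positions `1..k` are always `1..k`, but
the label of position `1` at the end is `n > k`. -/
theorem Red.mem {n : ℕ} {u : List ℕ} (h : Red n u) {k : ℕ} (h1 : 1 ≤ k) (h2 : k < n) : k ∈ u := by
  by_contra hk
  have h3 := w1b_run_le hk 1 (fun i hi => hi) 1 h1
  have h4 := h.2 1 le_rfl (by omega)
  omega

theorem Red.full {n : ℕ} {u : List ℕ} (h : Red n u) : Full n u :=
  ⟨h.1.mem, fun _ h1 h2 => h.mem h1 h2⟩

/-- Two labels are exchanged only once: after the letter `s` the pair is inverted (`Asc.inv` for the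
rest of the word), before the letter `t` it is not. -/
theorem Asc.cross_once {n : ℕ} {u : List ℕ} (h : Asc n 1 u) {s t : ℕ} (hst : s < t)
    (ht : t < u.length) (x y : ℕ)
    (h1 : run 1 (u.take s) (u[s]'(hst.trans ht)) = x)
    (h2 : run 1 (u.take s) ((u[s]'(hst.trans ht)) + 1) = y)
    (h3 : run 1 (u.take t) u[t] = x) (h4 : run 1 (u.take t) (u[t] + 1) = y) : False := by
  have hs : s < u.length := hst.trans ht
  -- the letter `s` finds an increasing pair
  have e1 : u = u.take s ++ u[s] :: u.drop (s + 1) := by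
    rw [← List.drop_eq_getElem_cons hs, List.take_append_drop]
  have a1 : Asc n (run 1 (u.take s)) (u[s] :: u.drop (s + 1)) := by
    have h' := h
    rw [e1] at h'
    exact (Asc_append.1 h').2
  have hxy : x < y := by
    have h5 := a1.2.2.1
    rwa [h1, h2] at h5
  -- the state after the letter `s`
  have e2 := run_take_succ u hs
  have p1 : (run 1 (u.take (s + 1))).symm y = u[s] := by
    rw [Equiv.symm_apply_eq, e2, Equiv.Perm.mul_apply, swap_apply_left]
    exact h2.symm
  have p2 : (run 1 (u.take (s + 1))).symm x = u[s] + 1 := by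
    rw [Equiv.symm_apply_eq, e2, Equiv.Perm.mul_apply, swap_apply_right]
    exact h1.symm
  -- the rest of the word up to `t`
  have a2 : Asc n (run 1 (u.take (s + 1))) (u.drop (s + 1)) := by
    have h' := h
    rw [← List.take_append_drop (s + 1) u] at h'
    exact (Asc_append.1 h').2
  have a3 : Asc n (run 1 (u.take (s + 1))) ((u.drop (s + 1)).take (t - (s + 1))) := by
    rw [← List.take_append_drop (t - (s + 1)) (u.drop (s + 1))] at a2
    exact (Asc_append.1 a2).1
  have e3 : u.take t = u.take (s + 1) ++ (u.drop (s + 1)).take (t - (s + 1)) := by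
    conv_lhs => rw [show t = (s + 1) + (t - (s + 1)) by omega]
    exact List.take_add
  have h5 := a3.inv hxy (by rw [p1, p2]; exact Nat.lt_succ_self _)
  rw [← run_append, ← e3] at h5
  have p3 : (run 1 (u.take t)).symm x = u[t] := by
    rw [Equiv.symm_apply_eq]
    exact h3.symm
  have p4 : (run 1 (u.take t)).symm y = u[t] + 1 := by
    rw [Equiv.symm_apply_eq]
    exact h4.symm
  rw [p3, p4] at h5
  omega

end Pool.Agent.Lib.MP_72b45c_co.Q
end

section

/-! # MP_72b45c_co, block W (words), job W1c: length -/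

namespace Pool.Agent.Lib.MP_72b45c_co.Q

open Equiv Equiv.Perm

/-- the inverted pairs of positions in `1..n` -/
private def invS (n : ℕ) (π : Perm ℕ) : Finset (ℕ × ℕ) :=
  ((Finset.Icc 1 n) ×ˢ (Finset.Icc 1 n)).filter fun p => p.1 < p.2 ∧ π p.2 < π p.1

private lemma mem_invS {n : ℕ} {π : Perm ℕ} {a b : ℕ} :
    (a, b) ∈ invS n π ↔ ((1 ≤ a ∧ a ≤ n) ∧ 1 ≤ b ∧ b ≤ n) ∧ a < b ∧ π b < π a := by
  simp [invS, Finset.mem_filter, Finset.mem_product, Finset.mem_Icc]

private lemma invS_step {n k : ℕ} {π : Perm ℕ} (h1 : 1 ≤ k) (h2 : k < n) (h3 : π k < π (k + 1)) :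
    (invS n (π * swap k (k + 1))).card = (invS n π).card + 1 := by
  classical
  have hinj : Function.Injective (fun p : ℕ × ℕ => (swap k (k + 1) p.1, swap k (k + 1) p.2)) := by
    rintro ⟨a, b⟩ ⟨c, d⟩ h
    have h4 := (Prod.mk.injEq _ _ _ _).mp h
    exact Prod.ext ((swap k (k + 1)).injective h4.1) ((swap k (k + 1)).injective h4.2)
  have him : ∀ a b : ℕ, (a, b) ∈ (invS n π).image
      (fun p : ℕ × ℕ => (swap k (k + 1) p.1, swap k (k + 1) p.2)) ↔
      (swap k (k + 1) a, swap k (k + 1) b) ∈ invS n π := by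
    intro a b
    rw [Finset.mem_image]
    constructor
    · rintro ⟨⟨c, d⟩, h, he⟩
      have h4 := (Prod.mk.injEq _ _ _ _).mp he
      rw [← h4.1, ← h4.2]
      simpa using h
    · intro h
      exact ⟨_, h, by simp⟩
  have hset : invS n (π * swap k (k + 1)) = insert (k, k + 1) ((invS n π).image
      (fun p : ℕ × ℕ => (swap k (k + 1) p.1, swap k (k + 1) p.2))) := by
    ext ⟨a, b⟩
    rw [Finset.mem_insert, him, mem_invS, mem_invS, Perm.mul_apply, Perm.mul_apply, Prod.mk.injEq]
    rcases eq_or_ne a k with rfl | ha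
    · rcases eq_or_ne b (a + 1) with rfl | hb
      · rw [swap_apply_left, swap_apply_right]
        exact ⟨fun _ => Or.inl ⟨rfl, rfl⟩, fun _ => ⟨⟨⟨h1, h2.le⟩, by omega, h2⟩, by omega, h3⟩⟩
      · rcases eq_or_ne b a with rfl | hb'
        · simp only [swap_apply_left]
          omega
        · rw [swap_apply_left, swap_apply_of_ne_of_ne hb' hb]
          omega
    · rcases eq_or_ne a (k + 1) with rfl | ha'
      · rcases eq_or_ne b k with rfl | hb
        · simp only [swap_apply_left, swap_apply_right]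
          omega
        · rcases eq_or_ne b (k + 1) with rfl | hb'
          · simp only [swap_apply_right]
            omega
          · rw [swap_apply_right, swap_apply_of_ne_of_ne hb hb']
            omega
      · rcases eq_or_ne b k with rfl | hb
        · rw [swap_apply_left, swap_apply_of_ne_of_ne ha ha']
          omega
        · rcases eq_or_ne b (k + 1) with rfl | hb'
          · rw [swap_apply_right, swap_apply_of_ne_of_ne ha ha']
            omega
          · rw [swap_apply_of_ne_of_ne ha ha', swap_apply_of_ne_of_ne hb hb']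
            omega
  have hnot : (k, k + 1) ∉ (invS n π).image
      (fun p : ℕ × ℕ => (swap k (k + 1) p.1, swap k (k + 1) p.2)) := by
    rw [him, mem_invS, swap_apply_left, swap_apply_right]
    omega
  rw [hset, Finset.card_insert_of_notMem hnot, Finset.card_image_of_injective _ hinj]

private lemma invS_run {n : ℕ} {u : List ℕ} : ∀ {π : Perm ℕ}, Asc n π u →
    (invS n (run π u)).card = (invS n π).card + u.length := by
  induction u with
  | nil => intro π _; rfl
  | cons k u ih =>
    intro π h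
    rw [run, ih h.2.2.2, invS_step h.1 h.2.1 h.2.2.1, List.length_cons]
    omega

/-- The number of pairs `x < y` in `1..n` with `(run 1 u).symm y < (run 1 u).symm x` grows by one with every letter
(`Asc.inv`, only the pair at the positions `k`, `k+1` is new), from `0` to `n (n - 1) / 2`. -/
theorem Red.length {n : ℕ} {u : List ℕ} (h : Red n u) : 2 * u.length = n * (n - 1) := by
  classical
  have h1 := invS_run h.1
  have h2 : invS n 1 = ∅ := by
    refine Finset.eq_empty_of_forall_notMem ?_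
    rintro ⟨a, b⟩ hab
    rw [mem_invS, Perm.one_apply, Perm.one_apply] at hab
    omega
  have h3 : (Finset.Icc 1 n).offDiag = invS n (run 1 u) ∪ (invS n (run 1 u)).image Prod.swap := by
    ext ⟨a, b⟩
    have e1 : (a, b) ∈ (invS n (run 1 u)).image Prod.swap ↔ (b, a) ∈ invS n (run 1 u) := by
      rw [Finset.mem_image]
      constructor
      · rintro ⟨⟨c, d⟩, hcd, he⟩
        have h4 := (Prod.mk.injEq _ _ _ _).mp he
        rw [← h4.1, ← h4.2]
        exact hcd
      · intro hba
        exact ⟨_, hba, rfl⟩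
    rw [Finset.mem_union, e1, Finset.mem_offDiag, mem_invS, mem_invS, Finset.mem_Icc, Finset.mem_Icc]
    constructor
    · rintro ⟨ha, hb, hne⟩
      have ea := h.2 a ha.1 ha.2
      have eb := h.2 b hb.1 hb.2
      simp only at ea eb hne ⊢
      rw [ea, eb]
      omega
    · rintro (⟨⟨ha, hb⟩, hlt, -⟩ | ⟨⟨hb, ha⟩, hlt, -⟩)
      · exact ⟨ha, hb, hlt.ne⟩
      · exact ⟨ha, hb, hlt.ne'⟩
  have h4 : Disjoint (invS n (run 1 u)) ((invS n (run 1 u)).image Prod.swap) := by
    rw [Finset.disjoint_left]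
    rintro ⟨a, b⟩ hab hba
    rw [Finset.mem_image] at hba
    obtain ⟨⟨c, d⟩, hcd, he⟩ := hba
    have h5 := (Prod.mk.injEq _ _ _ _).mp he
    rw [mem_invS] at hab hcd
    have e1 : d = a := h5.1
    have e2 : c = b := h5.2
    omega
  have h5 := congrArg Finset.card h3
  rw [Finset.offDiag_card, Finset.card_union_of_disjoint h4,
    Finset.card_image_of_injective _ Prod.swap_injective, Nat.card_Icc, h1, h2,
    Finset.card_empty, zero_add, Nat.add_sub_cancel] at h5
  rw [Nat.mul_sub_one]
  omega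

end Pool.Agent.Lib.MP_72b45c_co.Q
end

section

/-! # MP_72b45c_co, block W (words), job W1: states (parts) -/
end
end

section

section

/-! # MP_72b45c_co, block W (words), job W2a: rotation and commutation -/

namespace Pool.Agent.Lib.MP_72b45c_co.Q

open Equiv Equiv.Perm

private theorem w2a_swap_lt {k x y : ℕ} (h : x < y) (hn : ¬ (x = k ∧ y = k + 1)) :
    swap k (k + 1) x < swap k (k + 1) y := by
  rw [swap_apply_def, swap_apply_def]
  split_ifs <;> omega

private theorem w2a_self (a b x : ℕ) : swap a b (swap a b x) = x := by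
  rw [← Perm.mul_apply, swap_mul_self, Perm.one_apply]

private theorem w2a_swap_comm {k k' : ℕ} (h : k + 2 ≤ k' ∨ k' + 2 ≤ k) :
    swap k (k + 1) * swap k' (k' + 1) = swap k' (k' + 1) * swap k (k + 1) := by
  ext x
  simp only [Perm.mul_apply, swap_apply_def]
  split_ifs <;> omega

private theorem w2a_swap_far {k k' : ℕ} (h : k + 2 ≤ k' ∨ k' + 2 ≤ k) :
    swap k (k + 1) k' = k' ∧ swap k (k + 1) (k' + 1) = k' + 1 := by
  constructor
  · exact swap_apply_of_ne_of_ne (by omega) (by omega)
  · exact swap_apply_of_ne_of_ne (by omega) (by omega)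

/-- Relabelling by the adjacent transposition of the labels `k`, `k+1`: if `k+1` stands before `k` in `π`, all
letters stay admissible (the order of no other pair of labels changes, and the pair `k`, `k+1` stays inverted,
so it is never exchanged). Induction on the word. -/
theorem Asc.relabel {n : ℕ} {π : Perm ℕ} {u : List ℕ} (h : Asc n π u) {k : ℕ}
    (hi : π.symm (k + 1) < π.symm k) : Asc n (swap k (k + 1) * π) u := by
  induction u generalizing π with
  | nil => trivial
  | cons j u ih =>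
    obtain ⟨h1, h2, h3, h4⟩ := h
    refine ⟨h1, h2, ?_, ?_⟩
    · rw [Perm.mul_apply, Perm.mul_apply]
      refine w2a_swap_lt h3 ?_
      rintro ⟨e1, e2⟩
      rw [← e2, Equiv.symm_apply_apply, ← e1, Equiv.symm_apply_apply] at hi
      omega
    · rw [mul_assoc]
      refine ih h4 ?_
      have e : ∀ x, (π * swap j (j + 1)).symm x = swap j (j + 1) (π.symm x) := by
        intro x
        rw [Equiv.symm_apply_eq, Perm.mul_apply, w2a_self, Equiv.apply_symm_apply]
      rw [e, e]
      refine w2a_swap_lt hi ?_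
      rintro ⟨e1, e2⟩
      rw [Equiv.symm_apply_eq] at e1 e2
      rw [← e1, ← e2] at h3
      omega

/-- (M1). From `Asc n (swap k (k+1)) v` follows `Asc n 1 v` (`Asc.relabel`), and `run 1 v = swap k (k+1) * rev` on
`1..n`, so the letter `n - k` finds the labels `k`, `k+1`. -/
theorem Red.rotate {n k : ℕ} {v : List ℕ} (h : Red n (k :: v)) : Red n (v ++ [n - k]) := by
  obtain ⟨⟨h1, h2, _, h4⟩, h5⟩ := h
  rw [one_mul] at h4
  have hv : Asc n 1 v := by
    have h6 := Asc.relabel h4 (k := k) (by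
      rw [symm_swap, swap_apply_left, swap_apply_right]
      omega)
    rwa [swap_mul_self] at h6
  have hr : ∀ i, 1 ≤ i → i ≤ n → run 1 v i = swap k (k + 1) (n + 1 - i) := by
    intro i hi1 hi2
    have h6 := h5 i hi1 hi2
    rw [run, one_mul] at h6
    have h7 : run (swap k (k + 1)) v = swap k (k + 1) * run 1 v := by
      rw [← run_mul, mul_one]
    rw [h7, Perm.mul_apply] at h6
    rw [← h6, w2a_self]
  refine ⟨Asc_append.2 ⟨hv, by omega, by omega, ?_, trivial⟩, ?_⟩
  · rw [hr _ (by omega) (by omega), hr _ (by omega) (by omega)]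
    rw [show n + 1 - (n - k) = k + 1 by omega, show n + 1 - (n - k + 1) = k by omega,
      swap_apply_left, swap_apply_right]
    omega
  · intro i hi1 hi2
    rw [run_append]
    change (run 1 v * swap (n - k) (n - k + 1)) i = _
    rw [Perm.mul_apply]
    by_cases e1 : i = n - k
    · rw [e1, swap_apply_left, hr _ (by omega) (by omega),
        show n + 1 - (n - k + 1) = k by omega, swap_apply_left]
      omega
    · by_cases e2 : i = n - k + 1
      · rw [e2, swap_apply_right, hr _ (by omega) (by omega),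
          show n + 1 - (n - k) = k + 1 by omega, swap_apply_right]
        omega
      · rw [swap_apply_of_ne_of_ne e1 e2, hr _ hi1 hi2]
        exact swap_apply_of_ne_of_ne (by omega) (by omega)

/-- (M2) -/
theorem Red.comm {n : ℕ} {u u' : List ℕ} (h : Red n u) (hc : Comm u u') : Red n u' := by
  obtain ⟨a, b, k, k', hk⟩ := hc
  obtain ⟨h1, h2⟩ := h
  obtain ⟨h3, h4, h5, h6, h7, h8, h9, h10⟩ := Asc_append.1 h1
  have e1 := w2a_swap_far hk
  have e2 := w2a_swap_far hk.symm
  have e3 : run 1 a * swap k (k + 1) * swap k' (k' + 1)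
      = run 1 a * swap k' (k' + 1) * swap k (k + 1) := by
    rw [mul_assoc, w2a_swap_comm hk, ← mul_assoc]
  rw [Perm.mul_apply, Perm.mul_apply, e1.1, e1.2] at h9
  rw [e3] at h10
  refine ⟨Asc_append.2 ⟨h3, h7, h8, h9, h4, h5, ?_, h10⟩, ?_⟩
  · rw [Perm.mul_apply, Perm.mul_apply, e2.1, e2.2]
    exact h6
  · intro i hi1 hi2
    rw [← h2 i hi1 hi2, run_append, run_append, run, run, run, run, e3]

end Pool.Agent.Lib.MP_72b45c_co.Q
end

section

/-! # MP_72b45c_co, block W (words), job W2b: normal form -/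

namespace Pool.Agent.Lib.MP_72b45c_co.Q

open Equiv Equiv.Perm

/-- commutation of one letter with a whole word -/
theorem comm_word (a b w : List ℕ) (k : ℕ) (h : ∀ j ∈ w, k + 2 ≤ j ∨ j + 2 ≤ k) :
    Relation.ReflTransGen Comm (a ++ (k :: w) ++ b) (a ++ (w ++ [k]) ++ b) := by
  induction w generalizing a with
  | nil => exact Relation.ReflTransGen.refl
  | cons j w ih =>
    have h1 : Comm (a ++ (k :: j :: w) ++ b) ((a ++ [j]) ++ (k :: w) ++ b) := by
      have h2 := Comm.mk a (w ++ b) k j (h j (by simp))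
      simpa using h2
    have h3 := ih (a ++ [j]) (fun i hi => h i (List.mem_cons_of_mem _ hi))
    have h4 : (a ++ [j]) ++ (w ++ [k]) ++ b = a ++ ((j :: w) ++ [k]) ++ b := by simp
    rw [h4] at h3
    exact Relation.ReflTransGen.head h1 h3

/-- commutation inside a longer word -/
theorem comm_context (a b : List ℕ) {w w' : List ℕ} (h : Relation.ReflTransGen Comm w w') :
    Relation.ReflTransGen Comm (a ++ w ++ b) (a ++ w' ++ b) := by
  induction h with
  | refl => exact Relation.ReflTransGen.refl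
  | tail _ h1 ih =>
    refine ih.tail ?_
    obtain ⟨c, d, k, k', hk⟩ := h1
    have h2 := Comm.mk (a ++ c) (d ++ b) k k' hk
    simpa using h2

/-- Normal form, general position. Induction on `u`, `u = k :: v`. The letter `k = x - 1` is impossible
(`π (x-1) < π x = 1`; labels at the positions `≥ 1` are `≥ 1`). If `k = x`: IH for `x + 1`, the letter `k` commutes with
all letters of `P` (they are `≥ x + 2`). If `k > x`: put `k` in front of `P`. If `k + 2 ≤ x`: `k` commutes with `P` and
with the middle block (letters `≥ x`), put it in front of `L`. -/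
theorem normal_form_aux {n : ℕ} (u : List ℕ) (π : Perm ℕ) (h : Asc n π u) (h0 : π 0 = 0)
    (x y : ℕ) (hx : π x = 1) (hx1 : 1 ≤ x) (hy : run π u y = 1) :
    x ≤ y ∧ ∃ P L : List ℕ,
      Relation.ReflTransGen Comm u (P ++ List.range' x (y - x) ++ L) ∧
      (∀ k ∈ P, x + 1 ≤ k) ∧ ∀ k ∈ L, k + 2 ≤ y := by
  induction u generalizing π x with
  | nil =>
    have h1 : y = x := π.injective (by rw [hx]; exact hy)
    subst h1
    refine ⟨le_rfl, [], [], ?_, by simp, by simp⟩
    simp only [Nat.sub_self, List.range'_zero, List.append_nil]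
    exact Relation.ReflTransGen.refl
  | cons k v ih =>
    obtain ⟨hk1, hkn, hk2, hv⟩ := h
    have h0' : (π * swap k (k + 1)) 0 = 0 := by
      rw [Perm.mul_apply, swap_apply_of_ne_of_ne (by omega) (by omega), h0]
    have hy' : run (π * swap k (k + 1)) v y = 1 := hy
    by_cases hkx : k = x
    · subst hkx
      have hx' : (π * swap k (k + 1)) (k + 1) = 1 := by
        rw [Perm.mul_apply, swap_apply_right, hx]
      obtain ⟨h1, P, L, h2, h3, h4⟩ := ih _ hv h0' (k + 1) hx' (by omega) hy'
      refine ⟨by omega, P, L, ?_, fun j hj => by have := h3 j hj; omega, h4⟩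
      have h5 : Relation.ReflTransGen Comm (k :: v) (k :: (P ++ List.range' (k + 1) (y - (k + 1)) ++ L)) := by
        simpa using comm_context [k] [] h2
      refine h5.trans ?_
      have h6 := comm_word [] (List.range' (k + 1) (y - (k + 1)) ++ L) P k
        (fun j hj => Or.inl (by have := h3 j hj; omega))
      have h7 : List.range' k (y - k) = k :: List.range' (k + 1) (y - (k + 1)) := by
        have h8 : y - k = (y - (k + 1)) + 1 := by omega
        rw [h8, List.range'_succ]
      rw [h7]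
      simpa using h6
    · by_cases hkx1 : k + 1 = x
      · exfalso
        subst hkx1
        rw [hx] at hk2
        have h1 : π k = π 0 := by rw [h0]; omega
        have h2 := π.injective h1
        omega
      · have hx' : (π * swap k (k + 1)) x = 1 := by
          rw [Perm.mul_apply, swap_apply_of_ne_of_ne (Ne.symm hkx) (Ne.symm hkx1), hx]
        obtain ⟨h1, P, L, h2, h3, h4⟩ := ih _ hv h0' x hx' hx1 hy'
        have h5 : Relation.ReflTransGen Comm (k :: v) (k :: (P ++ List.range' x (y - x) ++ L)) := by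
          simpa using comm_context [k] [] h2
        refine ⟨h1, ?_⟩
        by_cases hkx2 : x < k
        · refine ⟨k :: P, L, by simpa using h5, ?_, h4⟩
          intro j hj
          rcases List.mem_cons.mp hj with rfl | hj
          · omega
          · exact h3 j hj
        · refine ⟨P, k :: L, ?_, h3, ?_⟩
          · refine h5.trans ?_
            have h6 := comm_word [] L (P ++ List.range' x (y - x)) k (by
              intro j hj
              rcases List.mem_append.mp hj with hj | hj
              · exact Or.inl (by have := h3 j hj; omega)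
              · rw [List.mem_range'_1] at hj
                exact Or.inl (by omega))
            simpa using h6
          · intro j hj
            rcases List.mem_cons.mp hj with rfl | hj
            · omega
            · exact h4 j hj

theorem normal_form {n : ℕ} (hn : 2 ≤ n) {u : List ℕ} (h : Red n u) :
    ∃ P L : List ℕ, Relation.ReflTransGen Comm u (P ++ List.range' 1 (n - 1) ++ L) ∧
      (∀ k ∈ P, 2 ≤ k) ∧ ∀ k ∈ L, k + 2 ≤ n := by
  have h1 : run 1 u n = 1 := by
    rw [h.2 n (by omega) le_rfl]; omega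
  obtain ⟨_, P, L, h2, h3, h4⟩ := normal_form_aux u 1 h.1 rfl 1 n rfl le_rfl h1
  exact ⟨P, L, h2, fun k hk => by have := h3 k hk; omega, h4⟩

end Pool.Agent.Lib.MP_72b45c_co.Q
end

section

/-! # MP_72b45c_co, block W (words), job W2c: base change -/

namespace Pool.Agent.Lib.MP_72b45c_co.Q

open Equiv Equiv.Perm

/-- the word after the base change -/
def bword (n : ℕ) (P L : List ℕ) : List ℕ :=
  P.map (· - 1) ++ (List.range' 1 (n - 1)).reverse ++ L.map (· + 1)

/-- the product of the letters `1, …, m` -/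
private theorem w2c_gam (m i : ℕ) : run 1 (List.range' 1 m) i =
    if 1 ≤ i ∧ i ≤ m then i + 1 else if i = m + 1 then 1 else i := by
  induction m generalizing i with
  | zero =>
    rw [List.range'_zero]
    change i = _
    split_ifs <;> omega
  | succ m ih =>
    rw [List.range'_concat, run_append]
    change (run 1 (List.range' 1 m) * swap (1 + 1 * m) (1 + 1 * m + 1)) i = _
    rw [Perm.mul_apply, ih, swap_apply_def]
    split_ifs <;> omega

private theorem w2c_reverse (w : List ℕ) : run 1 w.reverse = (run 1 w)⁻¹ := by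
  induction w with
  | nil => simp [run]
  | cons k w ih =>
    rw [List.reverse_cons, run_append, ih]
    have h : run 1 (k :: w) = swap k (k + 1) * run 1 w := by
      change run (1 * swap k (k + 1)) w = _
      rw [one_mul, ← run_mul, mul_one]
    rw [h, mul_inv_rev, swap_inv]
    rfl

/-- the middle block moves the largest label to the left -/
private theorem w2c_mid {n : ℕ} (m : ℕ) (hm : m + 1 ≤ n) (π : Perm ℕ)
    (h : ∀ i, 1 ≤ i → i ≤ m → π i < π (m + 1)) : Asc n π (List.range' 1 m).reverse := by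
  induction m generalizing π with
  | zero => trivial
  | succ m ih =>
    have e : (List.range' 1 (m + 1)).reverse = (m + 1) :: (List.range' 1 m).reverse := by
      rw [List.range'_concat, List.reverse_append]
      simp [Nat.add_comm]
    rw [e]
    refine ⟨by omega, by omega, h (m + 1) (by omega) le_rfl, ih (by omega) _ ?_⟩
    intro i h1 h2
    rw [Perm.mul_apply, Perm.mul_apply, swap_apply_left,
      swap_apply_of_ne_of_ne (by omega) (by omega)]
    exact h i h1 (by omega)

/-- the first part, conjugated -/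
private theorem w2c_first {n : ℕ} (γ : Perm ℕ)
    (hγ : ∀ i, 1 ≤ i → i < n → γ i = i + 1) (π : Perm ℕ)
    (P : List ℕ) (h : Asc n π P) (h1 : π 1 = 1) (hb : ∀ i, 1 ≤ i → i ≤ n → 1 ≤ π i ∧ π i ≤ n)
    (hP : ∀ k ∈ P, 2 ≤ k) :
    Asc n (γ⁻¹ * π * γ) (P.map (· - 1)) ∧
      run (γ⁻¹ * π * γ) (P.map (· - 1)) = γ⁻¹ * run π P * γ ∧ run π P 1 = 1 ∧
      ∀ i, 1 ≤ i → i ≤ n → 1 ≤ run π P i ∧ run π P i ≤ n := by
  have hγ' : ∀ i, 2 ≤ i → i ≤ n → γ⁻¹ i = i - 1 := by
    intro i h2 h3
    rw [Perm.inv_eq_iff_eq, hγ _ (by omega) (by omega)]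
    omega
  induction P generalizing π with
  | nil => exact ⟨trivial, rfl, h1, hb⟩
  | cons k P ih =>
    obtain ⟨g1, g2, g3, g4⟩ := h
    have hk2 := hP k List.mem_cons_self
    have hne : ∀ i, 2 ≤ i → i ≤ n → 2 ≤ π i := by
      intro i h2 h3
      have h4 := (hb i (by omega) h3).1
      by_contra h5
      have h6 : π i = π 1 := by rw [h1]; omega
      have h7 := π.injective h6
      omega
    have hs : γ⁻¹ * π * γ * swap (k - 1) (k - 1 + 1) = γ⁻¹ * (π * swap k (k + 1)) * γ := by
      have e1 : γ * swap (k - 1) (k - 1 + 1) = swap k (k + 1) * γ := by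
        have e2 := Equiv.mul_swap_eq_swap_mul γ (k - 1) (k - 1 + 1)
        rw [hγ (k - 1) (by omega) (by omega), hγ (k - 1 + 1) (by omega) (by omega),
          show k - 1 + 1 = k by omega] at e2
        rw [show k - 1 + 1 = k by omega]
        exact e2
      rw [mul_assoc (γ⁻¹ * π), e1]
      simp only [mul_assoc]
    have h1' : (π * swap k (k + 1)) 1 = 1 := by
      rw [Perm.mul_apply, swap_apply_of_ne_of_ne (by omega) (by omega), h1]
    have hb' : ∀ i, 1 ≤ i → i ≤ n → 1 ≤ (π * swap k (k + 1)) i ∧ (π * swap k (k + 1)) i ≤ n := by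
      intro i h2 h3
      rw [Perm.mul_apply]
      refine hb _ ?_ ?_ <;> rw [swap_apply_def] <;> split_ifs <;> omega
    obtain ⟨i1, i2, i3, i4⟩ := ih (π * swap k (k + 1)) g4 h1' hb'
      (fun j hj => hP j (List.mem_cons_of_mem _ hj))
    refine ⟨⟨(by omega : 1 ≤ k - 1), (by omega : k - 1 < n), ?_, ?_⟩, ?_, i3, i4⟩
    · change (γ⁻¹ * π * γ) (k - 1) < (γ⁻¹ * π * γ) (k - 1 + 1)
      rw [show k - 1 + 1 = k by omega]
      simp only [Perm.mul_apply]
      rw [hγ (k - 1) (by omega) (by omega), hγ k (by omega) (by omega),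
        show k - 1 + 1 = k by omega, hγ' (π k) (hne k hk2 (by omega)) (hb k g1 (by omega)).2,
        hγ' (π (k + 1)) (hne (k + 1) (by omega) (by omega)) (hb (k + 1) (by omega) (by omega)).2]
      have := hne k hk2 (by omega)
      omega
    · show Asc n (γ⁻¹ * π * γ * swap (k - 1) (k - 1 + 1)) (P.map (· - 1))
      rw [hs]
      exact i1
    · show run (γ⁻¹ * π * γ * swap (k - 1) (k - 1 + 1)) (P.map (· - 1)) = _
      rw [hs]
      exact i2

/-- the last part -/
private theorem w2c_last {n : ℕ} (γ : Perm ℕ)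
    (hγ : ∀ i, 1 ≤ i → i < n → γ i = i + 1) (π : Perm ℕ)
    (L : List ℕ) (h : Asc n π L) (h1 : π n = 1) (hb : ∀ i, 1 ≤ i → i ≤ n → 1 ≤ π i ∧ π i ≤ n)
    (hL : ∀ k ∈ L, k + 2 ≤ n) :
    Asc n (γ⁻¹ * π * γ⁻¹) (L.map (· + 1)) ∧
      run (γ⁻¹ * π * γ⁻¹) (L.map (· + 1)) = γ⁻¹ * run π L * γ⁻¹ := by
  have hγ' : ∀ i, 2 ≤ i → i ≤ n → γ⁻¹ i = i - 1 := by
    intro i h2 h3
    rw [Perm.inv_eq_iff_eq, hγ _ (by omega) (by omega)]
    omega
  induction L generalizing π with
  | nil => exact ⟨trivial, rfl⟩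
  | cons k L ih =>
    obtain ⟨g1, g2, g3, g4⟩ := h
    have hk2 := hL k List.mem_cons_self
    have hne : ∀ i, 1 ≤ i → i < n → 2 ≤ π i := by
      intro i h2 h3
      have h4 := (hb i h2 (by omega)).1
      by_contra h5
      have h6 : π i = π n := by rw [h1]; omega
      have h7 := π.injective h6
      omega
    have hs : γ⁻¹ * π * γ⁻¹ * swap (k + 1) (k + 1 + 1) = γ⁻¹ * (π * swap k (k + 1)) * γ⁻¹ := by
      have e1 : γ⁻¹ * swap (k + 1) (k + 1 + 1) = swap k (k + 1) * γ⁻¹ := by
        have e2 := Equiv.mul_swap_eq_swap_mul γ⁻¹ (k + 1) (k + 1 + 1)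
        rw [hγ' (k + 1) (by omega) (by omega), hγ' (k + 1 + 1) (by omega) (by omega),
          Nat.add_sub_cancel, Nat.add_sub_cancel] at e2
        exact e2
      rw [mul_assoc (γ⁻¹ * π), e1]
      simp only [mul_assoc]
    have h1' : (π * swap k (k + 1)) n = 1 := by
      rw [Perm.mul_apply, swap_apply_of_ne_of_ne (by omega) (by omega), h1]
    have hb' : ∀ i, 1 ≤ i → i ≤ n → 1 ≤ (π * swap k (k + 1)) i ∧ (π * swap k (k + 1)) i ≤ n := by
      intro i h2 h3
      rw [Perm.mul_apply]
      refine hb _ ?_ ?_ <;> rw [swap_apply_def] <;> split_ifs <;> omega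
    obtain ⟨i1, i2⟩ := ih (π * swap k (k + 1)) g4 h1' hb'
      (fun j hj => hL j (List.mem_cons_of_mem _ hj))
    refine ⟨⟨(by omega : 1 ≤ k + 1), (by omega : k + 1 < n), ?_, ?_⟩, ?_⟩
    · change (γ⁻¹ * π * γ⁻¹) (k + 1) < (γ⁻¹ * π * γ⁻¹) (k + 1 + 1)
      simp only [Perm.mul_apply]
      rw [hγ' (k + 1) (by omega) (by omega), hγ' (k + 1 + 1) (by omega) (by omega),
        Nat.add_sub_cancel, Nat.add_sub_cancel,
        hγ' (π k) (hne k g1 (by omega)) (hb k g1 (by omega)).2,
        hγ' (π (k + 1)) (hne (k + 1) (by omega) (by omega)) (hb (k + 1) (by omega) (by omega)).2]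
      have := hne k g1 (by omega)
      omega
    · show Asc n (γ⁻¹ * π * γ⁻¹ * swap (k + 1) (k + 1 + 1)) (L.map (· + 1))
      rw [hs]
      exact i1
    · show run (γ⁻¹ * π * γ⁻¹ * swap (k + 1) (k + 1 + 1)) (L.map (· + 1)) = _
      rw [hs]
      exact i2

/-- (M3). New labels: old label `x ≥ 2` becomes `x - 1`, old label `1` becomes `n`. During `P`: new position
`i` (`i < n`) carries `π (i + 1) - 1`, new position `n` carries `n`. The middle block moves the label `n` from
position `n` to position `1`; then new position `i + 1` carries `π i - 1` during `L`. -/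
theorem Red.base {n : ℕ} (hn : 2 ≤ n) {P L : List ℕ}
    (h : Red n (P ++ List.range' 1 (n - 1) ++ L)) (hP : ∀ k ∈ P, 2 ≤ k)
    (hL : ∀ k ∈ L, k + 2 ≤ n) : Red n (bword n P L) := by
  obtain ⟨γ, hγd⟩ : ∃ γ : Perm ℕ, γ = run 1 (List.range' 1 (n - 1)) := ⟨_, rfl⟩
  have hγ : ∀ i, 1 ≤ i → i < n → γ i = i + 1 := by
    intro i h1 h2
    rw [hγd, w2c_gam, if_pos (by omega)]
  have hγn : γ n = 1 := by
    rw [hγd, w2c_gam, if_neg (by omega), if_pos (by omega)]
  have hγ' : ∀ i, 2 ≤ i → i ≤ n → γ⁻¹ i = i - 1 := by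
    intro i h2 h3
    rw [Perm.inv_eq_iff_eq, hγ _ (by omega) (by omega)]
    omega
  have hγ1 : γ⁻¹ 1 = n := by
    rw [Perm.inv_eq_iff_eq, hγn]
  obtain ⟨h1, h2⟩ := h
  obtain ⟨h3, h4⟩ := Asc_append.1 h1
  obtain ⟨h5, -⟩ := Asc_append.1 h3
  have e1 : run 1 (P ++ List.range' 1 (n - 1)) = run 1 P * γ := by
    rw [run_append, hγd, ← run_mul, mul_one]
  rw [e1] at h4
  obtain ⟨a1, a2, a3, a4⟩ := w2c_first γ hγ 1 P h5 rfl (fun i hi1 hi2 => ⟨hi1, hi2⟩) hP
  rw [mul_one, inv_mul_cancel] at a1 a2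
  have hb : ∀ i, 1 ≤ i → i ≤ n → 1 ≤ (run 1 P * γ) i ∧ (run 1 P * γ) i ≤ n := by
    intro i hi1 hi2
    rw [Perm.mul_apply]
    rcases Nat.lt_or_ge i n with h6 | h6
    · rw [hγ i hi1 h6]
      exact a4 _ (by omega) (by omega)
    · have h7 : i = n := le_antisymm hi2 h6
      rw [h7, hγn]
      exact a4 _ le_rfl (by omega)
  obtain ⟨b1, b2⟩ := w2c_last γ hγ (run 1 P * γ) L h4
    (by rw [Perm.mul_apply, hγn, a3]) hb hL
  have e2 : γ⁻¹ * (run 1 P * γ) * γ⁻¹ = γ⁻¹ * run 1 P := by
    rw [← mul_assoc, mul_assoc (γ⁻¹ * run 1 P), mul_inv_cancel, mul_one]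
  rw [e2] at b1 b2
  have e3 : run (γ⁻¹ * run 1 P * γ) (List.range' 1 (n - 1)).reverse = γ⁻¹ * run 1 P := by
    have e4 := run_mul (γ⁻¹ * run 1 P * γ) 1 (List.range' 1 (n - 1)).reverse
    rw [mul_one] at e4
    rw [e4, w2c_reverse, ← hγd, mul_assoc, mul_inv_cancel, mul_one]
  have hmid : Asc n (γ⁻¹ * run 1 P * γ) (List.range' 1 (n - 1)).reverse := by
    refine w2c_mid (n - 1) (by omega) _ ?_
    intro i hi1 hi2
    rw [show n - 1 + 1 = n by omega]
    simp only [Perm.mul_apply]
    rw [hγn, a3, hγ1, hγ i hi1 (by omega)]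
    have h6 := a4 (i + 1) (by omega) (by omega)
    have h7 : run 1 P (i + 1) ≠ 1 := by
      intro h8
      rw [← a3] at h8
      have h9 := (run 1 P).injective h8
      omega
    rw [hγ' _ (by omega) h6.2]
    omega
  refine ⟨?_, ?_⟩
  · unfold bword
    rw [Asc_append, Asc_append, run_append, a2, e3]
    exact ⟨⟨a1, hmid⟩, b1⟩
  · intro i hi1 hi2
    unfold bword
    rw [run_append, run_append, a2, e3, b2]
    simp only [Perm.mul_apply]
    have e5 : run (run 1 P * γ) L = run 1 (P ++ List.range' 1 (n - 1) ++ L) := by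
      rw [run_append, e1]
    rw [e5]
    rcases Nat.lt_or_ge 1 i with h6 | h6
    · rw [hγ' i h6 hi2, h2 (i - 1) (by omega) (by omega), hγ' _ (by omega) (by omega)]
      omega
    · have h7 : i = 1 := le_antisymm h6 hi1
      rw [h7, hγ1, h2 n (by omega) le_rfl, show n + 1 - n = 1 by omega, hγ1]
      omega

end Pool.Agent.Lib.MP_72b45c_co.Q
end

section

/-! # MP_72b45c_co, block W (words), job W2d: completion -/

namespace Pool.Agent.Lib.MP_72b45c_co.Q

open Equiv Equiv.Perm

/-- the labels at the positions `1..n` are in `1..n` -/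
private theorem mem_of_fix {n : ℕ} (π : Perm ℕ) (hπ : ∀ i, i = 0 ∨ n < i → π i = i) {i : ℕ}
    (h1 : 1 ≤ i) (h2 : i ≤ n) : 1 ≤ π i ∧ π i ≤ n := by
  constructor
  · by_contra h
    have h0 : π i = 0 := by omega
    have h3 : π i = π 0 := by rw [h0, hπ 0 (Or.inl rfl)]
    have := π.injective h3
    omega
  · by_contra h
    have h3 : n < π i := by omega
    have h4 : π (π i) = π i := hπ _ (Or.inr h3)
    have := π.injective h4
    omega

private theorem swap_le (π : Perm ℕ) {n k : ℕ} (h1 : 1 ≤ k) (h2 : k < n) (hk : π k < π (k + 1)) :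
    ∑ i ∈ Finset.Icc 1 n, i * (π * swap k (k + 1)) i < ∑ i ∈ Finset.Icc 1 n, i * π i := by
  have hk1 : k ∈ Finset.Icc 1 n := Finset.mem_Icc.mpr ⟨h1, h2.le⟩
  have hk2 : k + 1 ∈ (Finset.Icc 1 n).erase k :=
    Finset.mem_erase.mpr ⟨by omega, Finset.mem_Icc.mpr ⟨by omega, h2⟩⟩
  rw [← Finset.add_sum_erase _ _ hk1, ← Finset.add_sum_erase _ _ hk1,
    ← Finset.add_sum_erase _ _ hk2, ← Finset.add_sum_erase _ _ hk2]
  have h3 : ∑ i ∈ ((Finset.Icc 1 n).erase k).erase (k + 1), i * (π * swap k (k + 1)) i =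
      ∑ i ∈ ((Finset.Icc 1 n).erase k).erase (k + 1), i * π i := by
    refine Finset.sum_congr rfl fun i hi => ?_
    have h4 : i ≠ k + 1 := (Finset.mem_erase.mp hi).1
    have h5 : i ≠ k := (Finset.mem_erase.mp (Finset.mem_erase.mp hi).2).1
    rw [Perm.mul_apply, swap_apply_of_ne_of_ne h5 h4]
  rw [h3, Perm.mul_apply, Perm.mul_apply, swap_apply_left, swap_apply_right]
  nlinarith

/-- Every ascending state can be continued to the reversal: induction on the number of pairs
`1 ≤ i < j ≤ n` with `π i < π j`; if there is one, there is a letter `k` with `π k < π (k + 1)`; otherwise `π` is the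
reversal on `1..n`. -/
theorem exists_completion {n : ℕ} (π : Perm ℕ) (hπ : ∀ i, i = 0 ∨ n < i → π i = i) :
    ∃ R, Asc n π R ∧ ∀ i, 1 ≤ i → i ≤ n → run π R i = n + 1 - i := by
  induction hM : ∑ i ∈ Finset.Icc 1 n, i * π i using Nat.strong_induction_on generalizing π with
  | _ M ih =>
    by_cases hk : ∃ k, 1 ≤ k ∧ k < n ∧ π k < π (k + 1)
    · obtain ⟨k, h1, h2, h3⟩ := hk
      have hlt := swap_le π h1 h2 h3
      have hfix : ∀ i, i = 0 ∨ n < i → (π * swap k (k + 1)) i = i := by
        intro i hi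
        rw [Perm.mul_apply, swap_apply_of_ne_of_ne (by omega) (by omega)]
        exact hπ i hi
      obtain ⟨R, hR1, hR2⟩ := ih _ (hM ▸ hlt) (π * swap k (k + 1)) hfix rfl
      exact ⟨k :: R, ⟨h1, h2, h3, hR1⟩, fun i hi1 hi2 => hR2 i hi1 hi2⟩
    · have hdec : ∀ k, 1 ≤ k → k < n → π (k + 1) < π k := by
        intro k h1 h2
        rcases lt_trichotomy (π k) (π (k + 1)) with h | h | h
        · exact absurd ⟨k, h1, h2, h⟩ hk
        · have := π.injective h
          omega
        · exact h
      refine ⟨[], trivial, fun i h1 h2 => ?_⟩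
      change π i = n + 1 - i
      have hup : ∀ j, 1 ≤ j → j ≤ n → π j ≤ n + 1 - j := by
        intro j hj
        induction j, hj using Nat.le_induction with
        | base => intro h; have := (mem_of_fix π hπ le_rfl h).2; omega
        | succ j hj ihj =>
          intro h
          have h3 := ihj (by omega)
          have h4 := hdec j hj (by omega)
          omega
      have hlow : ∀ d, ∀ j, 1 ≤ j → j + d = n → d + 1 ≤ π j := by
        intro d
        induction d with
        | zero => intro j hj h; have := (mem_of_fix π hπ hj (by omega)).1; omega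
        | succ d ihd =>
          intro j hj h
          have h3 := ihd (j + 1) (by omega) (by omega)
          have h4 := hdec j hj (by omega)
          omega
      have h3 := hup i h1 h2
      have h4 := hlow (n - i) i h1 (by omega)
      omega

end Pool.Agent.Lib.MP_72b45c_co.Q
end

section

/-! # MP_72b45c_co, block W (words), job W2: moves of words (parts) -/
end
end

section

/-!
# MP_72b45c_co, block C (counting), definitions (paper 321, section 5)

Labels have types: `x ≡ 0 mod 9`: type `1`; odd residue modulo 9: type `0`; residues `2, 4, 6, 8`: type `2`. All letters exchange a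
smaller type on the left with a larger type on the right. Before the macro step `τ` the position `x` (in the window
`2 τ < x ≤ n - 2 τ`) carries the type `pat τ x`.
-/

namespace Pool.Agent.Lib.MP_72b45c_co.Q

open SimpleGraph Equiv Equiv.Perm

/-- type of a label -/
def ty (x : ℕ) : ℕ := if x % 9 = 0 then 1 else if x % 9 % 2 = 1 then 0 else 2

/-- type of the label at position `x` before the macro step `τ` -/
def pat (τ x : ℕ) : ℕ := if x % 9 = 0 then 1 else if (x % 9 + τ) % 2 = 1 then 0 else 2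

/-- the letters with the centre `k` in the macro step `τ` -/
def grp (n τ : ℕ) (bit : ℕ → ℕ → Bool) (k : ℕ) : List ℕ :=
  if 2 * τ + 2 ≤ k ∧ k + 1 + 2 * τ ≤ n then
    if τ % 2 = 0 then (if k % 9 % 2 = 1 then [k] else [])
    else if k % 9 = 0 then (if bit k τ then [k, k - 1, k] else [k - 1, k, k - 1])
    else if k % 9 % 2 = 0 ∧ k % 9 ≠ 8 then [k] else []
  else []

/-- the macro step `τ` -/
def mstep (n τ : ℕ) (bit : ℕ → ℕ → Bool) : List ℕ := (List.range (n + 1)).flatMap (grp n τ bit)

/-- the first `τ` macro steps -/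
def mword (n : ℕ) (bit : ℕ → ℕ → Bool) : ℕ → List ℕ
  | 0 => []
  | τ + 1 => mword n bit τ ++ mstep n τ bit

/-- every letter exchanges a smaller type with a larger type -/
def TAsc (n : ℕ) : Perm ℕ → List ℕ → Prop
  | _, [] => True
  | π, k :: u => 1 ≤ k ∧ k < n ∧ ty (π k) < ty (π (k + 1)) ∧ TAsc n (π * swap k (k + 1)) u

/-- number of letters `v` at the indices in `[a, b)` -/
def cnu (u : List ℕ) (v a b : ℕ) : ℕ := ((Finset.Ico a b).filter (fun x => u[x]? = some v)).card

/-- The word `u` near the line at position `p`, `2 T` macro steps with the boundaries `L 0 ≤ L 1 ≤ ..`, and the bits `b`. -/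
structure Corr (u : List ℕ) (L : ℕ → ℕ) (T p : ℕ) (b : ℕ → Bool) : Prop where
  mono : ∀ τ < 2 * T, L τ ≤ L (τ + 1)
  top : L (2 * T) ≤ u.length
  even1 : ∀ t < T, ∀ v, v + 2 = p ∨ v + 4 = p ∨ v + 6 = p → cnu u v (L (2 * t)) (L (2 * t + 1)) = 1
  even0 : ∀ t < T, ∀ v, v + 1 = p ∨ v + 3 = p ∨ v + 5 = p ∨ v + 7 = p →
    cnu u v (L (2 * t)) (L (2 * t + 1)) = 0
  odd1 : ∀ t < T, ∀ v, v + 3 = p ∨ v + 5 = p ∨ v + 7 = p →
    cnu u v (L (2 * t + 1)) (L (2 * t + 2)) = 1
  odd0 : ∀ t < T, ∀ v, v + 2 = p ∨ v + 4 = p ∨ v + 6 = p →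
    cnu u v (L (2 * t + 1)) (L (2 * t + 2)) = 0
  bit : ∀ t < T, cnu u (p - 1) (L (2 * t + 1)) (L (2 * t + 2)) = if b t then 1 else 2

/-- the rigid ladder of a corridor -/
structure Lad {V : Type*} (G : SimpleGraph V) (T : ℕ) (S S' S'' U : ℕ → V) : Prop where
  nS : ∀ t, 2 ≤ t → t + 2 ≤ T → ∀ v, G.Adj (S t) v ↔
    v = S (t - 1) ∨ v = S (t + 1) ∨ v = U t ∨ v = S' t
  nS' : ∀ t, 2 ≤ t → t + 2 ≤ T → ∀ v, G.Adj (S' t) v ↔
    v = S' (t - 1) ∨ v = S' (t + 1) ∨ v = S t ∨ v = S'' t
  nU' : ∀ t t', 1 ≤ t → t + 1 ≤ T → 1 ≤ t' → t' + 1 ≤ T → ¬ G.Adj (U t) (S' t')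
  nU'' : ∀ t t', 1 ≤ t → t + 1 ≤ T → 1 ≤ t' → t' + 1 ≤ T → ¬ G.Adj (U t) (S'' t')
  inj : ∀ t t', 1 ≤ t → t + 1 ≤ T → 1 ≤ t' → t' + 1 ≤ T →
    (S t = S t' → t = t') ∧ (S' t = S' t' → t = t') ∧ (U t = U t' → t = t') ∧
    S t ≠ S' t' ∧ S t ≠ U t' ∧ S' t ≠ U t' ∧ S t ≠ S'' t' ∧ S' t ≠ S'' t' ∧ U t ≠ S'' t'

end Pool.Agent.Lib.MP_72b45c_co.Q
end

section

/-!
# MP_72b45c_co, quadratic-size obstructions. Block L: maps as pairs of permutations (paper 321, section 1)

`σ` = rotation, `α` = reversal of darts, `σ * α` = face permutation.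
-/

namespace Pool.Agent.Lib.MP_72b45c_co.Q

open SimpleGraph Equiv Equiv.Perm

/-- the orbit relation of the group generated by `σ` and `α` -/
def con {X : Type*} (σ α : Perm X) : Setoid X :=
  Relation.EqvGen.setoid (fun x y => y = σ x ∨ y = α x)

/-- the number of components -/
noncomputable def ncomp {X : Type*} (σ α : Perm X) : ℕ := Nat.card (Quotient (con σ α))

/-- twice the total genus: `2 c - V + E - F` -/
noncomputable def gen2 {X : Type*} (σ α : Perm X) : ℤ :=
  2 * (ncomp σ α : ℤ) + cyc α - cyc σ - cyc (σ * α)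

/-- the boundaries modulo 2: `z = c + c ∘ α` with `c` constant on the faces -/
def Bd {X : Type*} (σ α : Perm X) : Submodule (ZMod 2) (X → ZMod 2) where
  carrier := {z | ∃ c : X → ZMod 2, (∀ x, c (σ (α x)) = c x) ∧ ∀ x, z x = c x + c (α x)}
  add_mem' := by
    rintro z z' ⟨c, h1, h2⟩ ⟨c', h1', h2'⟩
    refine ⟨fun x => c x + c' x, fun x => ?_, fun x => ?_⟩
    · simp only [h1, h1']
    · rw [Pi.add_apply, h2, h2']
      ring
  zero_mem' := ⟨0, fun _ => rfl, fun _ => by simp⟩
  smul_mem' := by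
    rintro a z ⟨c, h1, h2⟩
    refine ⟨fun x => a * c x, fun x => ?_, fun x => ?_⟩
    · simp only [h1]
    · rw [Pi.smul_apply, smul_eq_mul, h2]
      ring

/-- `σ'` is at least as simple as `σ`: the genus drops by one, or it does not grow and every boundary of
`σ'` is a boundary of `σ` -/
def Prel {X : Type*} (α σ σ' : Perm X) : Prop :=
  gen2 σ' α + 2 ≤ gen2 σ α ∨ (gen2 σ' α ≤ gen2 σ α ∧ Bd σ' α ≤ Bd σ α)

/-- contraction of the edge `ab`: `a` is the new vertex, `b` becomes isolated -/
def conG {V : Type*} (G : SimpleGraph V) (a b : V) : SimpleGraph V where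
  Adj i j := i ≠ j ∧ i ≠ b ∧ j ≠ b ∧ (G.Adj i j ∨ (i = a ∧ G.Adj b j) ∨ (j = a ∧ G.Adj i b))
  symm := ⟨by
    rintro i j ⟨h1, h2, h3, h4⟩
    refine ⟨h1.symm, h3, h2, ?_⟩
    rcases h4 with h | ⟨h, h'⟩ | ⟨h, h'⟩
    · exact Or.inl h.symm
    · exact Or.inr (Or.inr ⟨h, h'.symm⟩)
    · exact Or.inr (Or.inl ⟨h, h'.symm⟩)⟩
  loopless := ⟨fun i h => h.1 rfl⟩

end Pool.Agent.Lib.MP_72b45c_co.Q
end

section

section

/-! # MP_72b45c_co, block W (words), job W3a: recursion of the cells -/

namespace Pool.Agent.Lib.MP_72b45c_co.Q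

open Equiv Equiv.Perm

theorem lastOcc_succ_of_ne {u : List ℕ} {k t : ℕ} (ht : t < u.length) (h : u[t] ≠ k) :
    lastOcc u k (t + 1) = lastOcc u k t := by
  rw [lastOcc, if_neg]
  rw [List.getElem?_eq_getElem ht]
  exact fun h' => h (Option.some.inj h')

theorem lastOcc_succ_self {u : List ℕ} {k t : ℕ} (ht : t < u.length) (h : u[t] = k) :
    lastOcc u k (t + 1) = t + 1 := by
  rw [lastOcc, if_pos]
  rw [List.getElem?_eq_getElem ht, h]

/-- either no letter `k` among the first `t`, or the value is `s + 1` with `u[s] = k`, `s < t` -/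
theorem lastOcc_spec (u : List ℕ) (k t : ℕ) :
    (lastOcc u k t = 0 ∧ ∀ s (hs : s < u.length), s < t → u[s] ≠ k) ∨
    ∃ s, ∃ hs : s < u.length, s < t ∧ u[s] = k ∧ lastOcc u k t = s + 1 ∧
      ∀ r (hr : r < u.length), s < r → r < t → u[r] ≠ k := by
  induction t with
  | zero => exact Or.inl ⟨rfl, fun s hs h => absurd h (Nat.not_lt_zero _)⟩
  | succ t ih =>
    by_cases ht : t < u.length
    · by_cases hk : u[t] = k
      · refine Or.inr ⟨t, ht, Nat.lt_succ_self t, hk, lastOcc_succ_self ht hk, ?_⟩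
        intro r hr h1 h2
        omega
      · rw [lastOcc_succ_of_ne ht hk]
        rcases ih with ⟨h1, h2⟩ | ⟨s, hs, h1, h2, h3, h4⟩
        · refine Or.inl ⟨h1, fun s hs hst => ?_⟩
          rcases Nat.lt_succ_iff_lt_or_eq.1 hst with h | rfl
          · exact h2 s hs h
          · exact hk
        · refine Or.inr ⟨s, hs, by omega, h2, h3, fun r hr h5 h6 => ?_⟩
          rcases Nat.lt_succ_iff_lt_or_eq.1 h6 with h | rfl
          · exact h4 r hr h5 h
          · exact hk
    · have h0 : lastOcc u k (t + 1) = lastOcc u k t := by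
        rw [lastOcc, if_neg]
        rw [List.getElem?_eq_none (not_lt.1 ht)]
        simp
      rw [h0]
      rcases ih with ⟨h1, h2⟩ | ⟨s, hs, h1, h2, h3, h4⟩
      · exact Or.inl ⟨h1, fun s hs hst => h2 s hs (by omega)⟩
      · exact Or.inr ⟨s, hs, by omega, h2, h3, fun r hr h5 h6 => h4 r hr h5 (by omega)⟩

theorem lastOcc_pos_iff {u : List ℕ} {k : ℕ} : lastOcc u k u.length ≠ 0 ↔ k ∈ u := by
  rcases lastOcc_spec u k u.length with ⟨h1, h2⟩ | ⟨s, hs, h1, h2, h3, h4⟩
  · constructor
    · exact fun h => absurd h1 h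
    · intro h
      obtain ⟨s, hs, h5⟩ := List.getElem_of_mem h
      exact absurd h5 (h2 s hs hs)
  · constructor
    · intro _
      rw [← h2]
      exact List.getElem_mem hs
    · intro _
      rw [h3]
      exact Nat.succ_ne_zero s

theorem cell_zero (n : ℕ) (u : List ℕ) (t : ℕ) : cell n u 0 t = 0 := by
  apply Fin.ext
  show cellN n u 0 t = 0
  unfold cellN
  rw [if_pos (Or.inl rfl)]

theorem cell_of_le (n : ℕ) (u : List ℕ) {k : ℕ} (t : ℕ) (h : n ≤ k) : cell n u k t = 0 := by
  apply Fin.ext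
  show cellN n u k t = 0
  unfold cellN
  rw [if_pos (Or.inr h)]

theorem cell_succ_of_ne (n : ℕ) {u : List ℕ} {k t : ℕ} (ht : t < u.length) (h : u[t] ≠ k) :
    cell n u k (t + 1) = cell n u k t := by
  apply Fin.ext
  show cellN n u k (t + 1) = cellN n u k t
  unfold cellN
  rw [lastOcc_succ_of_ne ht h]

theorem cell_succ_self {n : ℕ} {u : List ℕ} {k t : ℕ} (ht : t < u.length) (h : u[t] = k)
    (h1 : 1 ≤ k) (h2 : k < n) : (cell n u k (t + 1)).val = t + 1 := by
  show cellN n u k (t + 1) = t + 1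
  unfold cellN
  rw [if_neg (by omega), lastOcc_succ_self ht h, if_pos (Nat.succ_ne_zero t)]

theorem cell_wrap {n : ℕ} {u : List ℕ} (hf : Full n u) {k : ℕ} (h1 : 1 ≤ k) (h2 : k < n) :
    cell n u k u.length = cell n u (n - k) 0 := by
  apply Fin.ext
  show cellN n u k u.length = cellN n u (n - k) 0
  unfold cellN
  have e1 : ¬ (k = 0 ∨ n ≤ k) := by omega
  have e2 : ¬ (n - k = 0 ∨ n ≤ n - k) := by omega
  have e3 : n - (n - k) = k := by omega
  have e4 : ¬ (lastOcc u (n - k) 0 ≠ 0) := by
    rw [lastOcc]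
    exact fun h => h rfl
  rw [if_neg e1, if_neg e2, if_pos (lastOcc_pos_iff.2 (hf.2 k h1 h2)), if_neg e4, e3]

theorem cell_ne_zero {n : ℕ} {u : List ℕ} (hf : Full n u) {k : ℕ} (t : ℕ) (h1 : 1 ≤ k)
    (h2 : k < n) : cell n u k t ≠ 0 := by
  intro h
  have h3 : cellN n u k t = 0 := congrArg Fin.val h
  unfold cellN at h3
  rw [if_neg (by omega)] at h3
  split_ifs at h3 with h4
  · exact h4 h3
  · exact lastOcc_pos_iff.2 (hf.2 (n - k) (by omega) (by omega)) h3

/-- every cell is the cell of a node (cell `c ≥ 1`: gap `u[c-1]`, time `c`) -/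
theorem exists_node {n : ℕ} {u : List ℕ} (hf : Full n u) (c : Fin (u.length + 1)) :
    ∃ k t, k ≤ n ∧ t ≤ u.length ∧ cell n u k t = c := by
  obtain ⟨c, hc⟩ := c
  rcases Nat.eq_zero_or_pos c with rfl | hpos
  · exact ⟨0, 0, Nat.zero_le _, Nat.zero_le _, cell_zero n u 0⟩
  · obtain ⟨t, rfl⟩ : ∃ t, c = t + 1 := ⟨c - 1, by omega⟩
    have ht : t < u.length := by omega
    have hm := hf.1 _ (List.getElem_mem ht)
    exact ⟨u[t], t + 1, hm.2.le, ht, Fin.ext (cell_succ_self ht rfl hm.1 hm.2)⟩

end Pool.Agent.Lib.MP_72b45c_co.Q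
end

section

/-! # MP_72b45c_co, block W (words), job W3b: universal property, colours -/

namespace Pool.Agent.Lib.MP_72b45c_co.Q

open Equiv Equiv.Perm

private theorem w3b_cellN {n : ℕ} {u : List ℕ} (hf : Full n u) {k : ℕ} (t : ℕ) (h1 : 1 ≤ k)
    (h2 : k < n) :
    (∃ s, ∃ hs : s < u.length, s < t ∧ u[s] = k ∧ cellN n u k t = s + 1 ∧
      ∀ r (hr : r < u.length), s < r → r < t → u[r] ≠ k) ∨
    ((∀ s (hs : s < u.length), s < t → u[s] ≠ k) ∧
      ∃ s, ∃ hs : s < u.length, u[s] = n - k ∧ cellN n u k t = s + 1 ∧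
        ∀ r (hr : r < u.length), s < r → u[r] ≠ n - k) := by
  have hc : ¬ (k = 0 ∨ n ≤ k) := by omega
  rcases lastOcc_spec u k t with ⟨h3, h4⟩ | ⟨s, hs, h3, h4, h5, h6⟩
  · right
    refine ⟨h4, ?_⟩
    have hm := lastOcc_pos_iff.2 (hf.2 (n - k) (by omega) (by omega))
    rcases lastOcc_spec u (n - k) u.length with ⟨h7, -⟩ | ⟨s, hs, h7, h8, h9, h10⟩
    · exact absurd h7 hm
    · refine ⟨s, hs, h8, ?_, fun r hr h11 => h10 r hr h11 hr⟩
      unfold cellN
      rw [if_neg hc, if_neg (not_not.2 h3), h9]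
  · left
    refine ⟨s, hs, h3, h4, ?_, h6⟩
    unfold cellN
    rw [if_neg hc, if_pos (by omega), h5]

private theorem w3b_const {n : ℕ} {u : List ℕ} {β : Type*} (f : ℕ → ℕ → β)
    (h1 : ∀ k t (ht : t < u.length), 1 ≤ k → k < n → u[t] ≠ k → f k (t + 1) = f k t)
    {k a : ℕ} (hk1 : 1 ≤ k) (hkn : k < n) :
    ∀ b, a ≤ b → b ≤ u.length → (∀ r (hr : r < u.length), a ≤ r → r < b → u[r] ≠ k) →
      f k b = f k a := by
  intro b hab
  induction b, hab using Nat.le_induction with
  | base => exact fun _ _ => rfl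
  | succ b hab ih =>
    intro hb hr
    rw [h1 k b (by omega) hk1 hkn (hr b (by omega) hab (Nat.lt_succ_self b))]
    exact ih (by omega) (fun r hr1 h2 h3 => hr r hr1 h2 (by omega))

/-- The universal property of the cells. `g 0 = f 0 0`, `g c = f u[c-1] c` for `c ≥ 1`; `f k t = f k (lastOcc u k t)`
by `h1`, and if `lastOcc u k t = 0` then `f k t = f k 0 = f (n-k) N = f (n-k) (lastOcc u (n-k) N)` by `h2` for `n - k`. -/
theorem cell_lift {n : ℕ} {u : List ℕ} (hf : Full n u) {β : Type*} (f : ℕ → ℕ → β)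
    (h0 : ∀ t ≤ u.length, f 0 t = f 0 0 ∧ f n t = f 0 0)
    (h1 : ∀ k t (ht : t < u.length), 1 ≤ k → k < n → u[t] ≠ k → f k (t + 1) = f k t)
    (h2 : ∀ k, 1 ≤ k → k < n → f k u.length = f (n - k) 0) :
    ∃ g : Fin (u.length + 1) → β, ∀ k t, k ≤ n → t ≤ u.length → g (cell n u k t) = f k t := by
  classical
  refine ⟨fun c => if c.val = 0 then f 0 0 else f (u.getD (c.val - 1) 0) c.val, ?_⟩
  have hg : ∀ (c : Fin (u.length + 1)) (s : ℕ) (hs : s < u.length), c.val = s + 1 →
      (if c.val = 0 then f 0 0 else f (u.getD (c.val - 1) 0) c.val) = f u[s] (s + 1) := by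
    intro c s hs hc
    rw [hc, if_neg (Nat.succ_ne_zero s), Nat.add_sub_cancel, List.getD_eq_getElem _ _ hs]
  intro k t hk ht
  show (if (cell n u k t).val = 0 then f 0 0
    else f (u.getD ((cell n u k t).val - 1) 0) (cell n u k t).val) = f k t
  by_cases hk0 : k = 0
  · subst hk0
    rw [cell_zero, if_pos (show ((0 : Fin (u.length + 1)) : ℕ) = 0 from rfl)]
    exact (h0 t ht).1.symm
  by_cases hkn : n ≤ k
  · have hkn' : k = n := le_antisymm hk hkn
    subst hkn'
    rw [cell_of_le k u t le_rfl, if_pos (show ((0 : Fin (u.length + 1)) : ℕ) = 0 from rfl)]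
    exact (h0 t ht).2.symm
  have hk1 : 1 ≤ k := by omega
  have hkn' : k < n := by omega
  rcases w3b_cellN hf t hk1 hkn' with ⟨s, hs, h3, h4, h5, h6⟩ | ⟨h3, s, hs, h4, h5, h6⟩
  · rw [hg (cell n u k t) s hs h5, h4]
    exact (w3b_const f h1 hk1 hkn' t (by omega) ht
      (fun r hr h7 h8 => h6 r hr (by omega) h8)).symm
  · rw [hg (cell n u k t) s hs h5, h4]
    have e1 := w3b_const f h1 (k := n - k) (a := s + 1) (by omega) (by omega) u.length
      (by omega) le_rfl (fun r hr h7 _ => h6 r hr (by omega))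
    have e2 := w3b_const f h1 (k := k) (a := 0) hk1 hkn' t (Nat.zero_le _) ht
      (fun r hr _ h8 => h3 r hr h8)
    have e3 := h2 (n - k) (by omega) (by omega)
    rw [show n - (n - k) = k by omega] at e3
    rw [← e1, e3, e2]

theorem col_lt_two (u : List ℕ) (c : ℕ) : col u c = 0 ∨ col u c = 1 := by
  unfold col
  split_ifs
  · exact Or.inl rfl
  · omega

theorem col_cell {n : ℕ} {u : List ℕ} (hn : Even n) (hf : Full n u) {k t : ℕ} (hk : k ≤ n)
    (ht : t ≤ u.length) : col u (cell n u k t) = k % 2 := by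
  have hg : ∀ (c s : ℕ) (hs : s < u.length), c = s + 1 → col u c = u[s] % 2 := by
    intro c s hs hc
    unfold col
    rw [hc, if_neg (Nat.succ_ne_zero s), Nat.add_sub_cancel, List.getD_eq_getElem _ _ hs]
  have h00 : col u 0 = 0 := by
    unfold col
    rw [if_pos rfl]
  obtain ⟨m, hm⟩ := hn
  by_cases hk0 : k = 0
  · subst hk0
    rw [cell_zero]
    exact h00
  by_cases hkn : n ≤ k
  · rw [cell_of_le n u t hkn]
    have h3 : k % 2 = 0 := by omega
    rw [h3]
    exact h00
  rcases w3b_cellN hf t (by omega : 1 ≤ k) (by omega : k < n) with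
    ⟨s, hs, h3, h4, h5, h6⟩ | ⟨h3, s, hs, h4, h5, h6⟩
  · rw [hg _ s hs (show (cell n u k t).val = s + 1 from h5), h4]
  · rw [hg _ s hs (show (cell n u k t).val = s + 1 from h5), h4]
    omega

theorem pr_congr (n : ℕ) (u : List ℕ) {e e' : ℕ} (h : e % 2 = e' % 2) (t : Fin u.length) :
    pr n u e t = pr n u e' t := by
  have h1 : (u[t] + e) % 2 = (u[t] + e') % 2 := by omega
  unfold pr
  rw [h1]

theorem col_of_mem_pr {n : ℕ} {u : List ℕ} (hn : Even n) (hf : Full n u) {e : ℕ}
    {t : Fin u.length} {c : Fin (u.length + 1)} (h : c ∈ pr n u e t) : col u c = e % 2 := by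
  have hm := hf.1 _ (List.getElem_mem t.2)
  have hm' : 1 ≤ u[t] ∧ u[t] < n := hm
  unfold pr at h
  split_ifs at h with h1
  · rcases Sym2.mem_iff.1 h with rfl | rfl
    · rw [col_cell hn hf hm'.2.le t.2.le]
      omega
    · rw [col_cell hn hf hm'.2.le t.2]
      omega
  · rcases Sym2.mem_iff.1 h with rfl | rfl
    · rw [col_cell hn hf (by omega) t.2.le]
      omega
    · rw [col_cell hn hf (by omega) t.2.le]
      omega

/-- the outer cell is a corner of a letter only on the left of position `1` or on the right of `n - 1` -/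
theorem zero_mem_pr {n : ℕ} {u : List ℕ} (hf : Full n u) {e : ℕ} {t : Fin u.length}
    (h : 0 ∈ pr n u e t) : (u[t] + e) % 2 = 1 ∧ (u[t] = 1 ∨ u[t] + 1 = n) := by
  have hm' : 1 ≤ u[t] ∧ u[t] < n := hf.1 _ (List.getElem_mem t.2)
  unfold pr at h
  split_ifs at h with h1
  · exfalso
    rcases Sym2.mem_iff.1 h with h2 | h2
    · exact cell_ne_zero hf _ hm'.1 hm'.2 h2.symm
    · exact cell_ne_zero hf _ hm'.1 hm'.2 h2.symm
  · refine ⟨by omega, ?_⟩
    rcases Sym2.mem_iff.1 h with h2 | h2
    · left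
      by_contra h3
      exact cell_ne_zero hf _ (by omega) (by omega) h2.symm
    · right
      by_contra h3
      exact cell_ne_zero hf _ (by omega) (by omega) h2.symm

end Pool.Agent.Lib.MP_72b45c_co.Q
end

section

/-! # MP_72b45c_co, block W (words), job W3c: numbers of cells -/

namespace Pool.Agent.Lib.MP_72b45c_co.Q

open Equiv Equiv.Perm

private theorem card_fin_countP (p : ℕ → Bool) (u : List ℕ) :
    (Finset.univ.filter (fun i : Fin u.length => p (u.getD i 0) = true)).card = u.countP p := by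
  induction u with
  | nil => simp
  | cons a u ih =>
    have h := Fin.card_filter_univ_succ (fun i : Fin (u.length + 1) =>
      p ((a :: u).getD i 0) = true)
    have h2 : (Finset.univ.filter (fun i : Fin (a :: u).length =>
        p ((a :: u).getD i 0) = true)).card =
        (Finset.univ.filter (fun i : Fin (u.length + 1) => p ((a :: u).getD i 0) = true)).card :=
      rfl
    rw [h2, h, List.countP_cons]
    have h3 : (Finset.univ.filter (fun i : Fin u.length =>
        p ((a :: u).getD (Fin.succ i) 0) = true)).card = u.countP p := by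
      rw [← ih]
      congr 1
    rw [h3]
    simp only [Fin.val_zero, List.getD_cons_zero]
    split_ifs <;> simp

/-- The number of black cells and of white cells. -/
theorem card_black {n : ℕ} {u : List ℕ} (hf : Full n u) :
    Nat.card {c : Fin (u.length + 1) // col u c = 1} = u.countP (fun k => k % 2 == 1) := by
  classical
  rw [Nat.card_eq_fintype_card, Fintype.card_subtype, Fin.card_filter_univ_succ]
  have h0 : ¬ col u ((0 : Fin (u.length + 1)) : ℕ) = 1 := by simp [col]
  rw [if_neg h0, ← card_fin_countP]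
  congr 1
  ext i
  simp [col]

theorem card_white {n : ℕ} {u : List ℕ} (hf : Full n u) :
    Nat.card {c : Fin (u.length + 1) // col u c = 0} = u.countP (fun k => k % 2 == 0) + 1 := by
  classical
  rw [Nat.card_eq_fintype_card, Fintype.card_subtype, Fin.card_filter_univ_succ]
  have h0 : col u ((0 : Fin (u.length + 1)) : ℕ) = 0 := by simp [col]
  rw [if_pos h0, ← card_fin_countP]
  congr 2
  ext i
  simp [col]

end Pool.Agent.Lib.MP_72b45c_co.Q
end

section

/-! # MP_72b45c_co, block W (words), job W3: cells (parts) -/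
end

section

/-! # MP_72b45c_co, block W (words), job W4a: label sets -/

namespace Pool.Agent.Lib.MP_72b45c_co.Q

open Equiv Equiv.Perm

theorem card_lset {n : ℕ} {u : List ℕ} (h : Red n u) {k : ℕ} (t : ℕ) (hk : k ≤ n) :
    (lset u k t).card = k ∧ lset u k t ⊆ Finset.Icc 1 n := by
  constructor
  · unfold lset
    rw [Finset.card_image_of_injective _ (Equiv.injective _), Nat.card_Icc]
    omega
  · intro x hx
    obtain ⟨i, hi, rfl⟩ := Finset.mem_image.1 hx
    rw [Finset.mem_Icc] at hi ⊢
    exact run_mem (fun j hj => h.1.mem j (List.mem_of_mem_take hj)) hi.1 (hi.2.trans hk)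

/-- the left label set of a letter changes only in its own gap -/
theorem lset_succ_of_ne {u : List ℕ} {k t : ℕ} (ht : t < u.length) (hk : u[t] ≠ k)
    (h1 : 1 ≤ u[t]) : lset u k (t + 1) = lset u k t := by
  obtain ⟨a, ha⟩ : ∃ a, a = u[t] := ⟨_, rfl⟩
  unfold lset
  rw [run_take_succ u ht]
  rw [← ha] at hk h1 ⊢
  obtain ⟨π, hπ⟩ : ∃ π : Perm ℕ, π = run 1 (u.take t) := ⟨_, rfl⟩
  rw [← hπ]
  have e1 : (Finset.Icc 1 k).image (swap a (a + 1)) = Finset.Icc 1 k := by
    have hsub : (Finset.Icc 1 k).image (swap a (a + 1)) ⊆ Finset.Icc 1 k := by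
      intro x hx
      obtain ⟨i, hi, rfl⟩ := Finset.mem_image.1 hx
      rw [Finset.mem_Icc] at hi ⊢
      by_cases h2 : i = a
      · rw [h2, swap_apply_left]
        omega
      · by_cases h3 : i = a + 1
        · rw [h3, swap_apply_right]
          omega
        · rw [swap_apply_of_ne_of_ne h2 h3]
          exact hi
    refine Finset.eq_of_subset_of_card_le hsub ?_
    rw [Finset.card_image_of_injective _ (Equiv.injective _)]
  have e2 : ((π * swap a (a + 1) : Perm ℕ) : ℕ → ℕ) = (π : ℕ → ℕ) ∘ (swap a (a + 1)) := rfl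
  rw [e2, ← Finset.image_image, e1]

private theorem W4a_Icc {a : ℕ} (ha : 1 ≤ a) : Finset.Icc 1 a = insert a (Finset.Icc 1 (a - 1)) := by
  ext x
  simp only [Finset.mem_insert, Finset.mem_Icc]
  omega

/-- The four corners of a letter: with `x`, `y` the exchanged labels, `A_S = A_W + x`, `A_N = A_W + y`,
`A_E = A_W + x + y`. -/
theorem lset_corners {n : ℕ} {u : List ℕ} (h : Red n u) {t : ℕ} (ht : t < u.length) :
    ∃ x y, x < y ∧ x = run 1 (u.take t) u[t] ∧ y = run 1 (u.take t) (u[t] + 1) ∧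
      x ∉ lset u (u[t] - 1) t ∧ y ∉ lset u (u[t] - 1) t ∧
      lset u u[t] t = insert x (lset u (u[t] - 1) t) ∧
      lset u u[t] (t + 1) = insert y (lset u (u[t] - 1) t) ∧
      lset u (u[t] + 1) t = insert y (insert x (lset u (u[t] - 1) t)) := by
  have hm := h.1.mem _ (List.getElem_mem ht)
  have hasc : run 1 (u.take t) u[t] < run 1 (u.take t) (u[t] + 1) := by
    have h2 := h.1
    rw [← List.take_append_drop t u, Asc_append, List.drop_eq_getElem_cons ht] at h2
    exact h2.2.2.2.1
  have hsucc := run_take_succ u ht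
  obtain ⟨a, ha⟩ : ∃ a, a = u[t] := ⟨_, rfl⟩
  obtain ⟨π, hπ⟩ : ∃ π : Perm ℕ, π = run 1 (u.take t) := ⟨_, rfl⟩
  unfold lset
  rw [hsucc]
  rw [← ha] at hm hasc ⊢
  rw [← hπ] at hasc ⊢
  have hinj := π.injective
  refine ⟨π a, π (a + 1), hasc, rfl, rfl, ?_, ?_, ?_, ?_, ?_⟩
  · intro hx
    obtain ⟨i, hi, hi'⟩ := Finset.mem_image.1 hx
    have := hinj hi'
    rw [Finset.mem_Icc] at hi
    omega
  · intro hx
    obtain ⟨i, hi, hi'⟩ := Finset.mem_image.1 hx
    have := hinj hi'
    rw [Finset.mem_Icc] at hi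
    omega
  · rw [W4a_Icc hm.1, Finset.image_insert]
  · rw [W4a_Icc hm.1, Finset.image_insert]
    have e1 : (π * swap a (a + 1) : Perm ℕ) a = π (a + 1) := by
      rw [Perm.mul_apply, swap_apply_left]
    rw [e1]
    congr 1
    refine Finset.image_congr fun i hi => ?_
    have hi' := Finset.mem_Icc.1 (Finset.mem_coe.1 hi)
    rw [Perm.mul_apply, swap_apply_of_ne_of_ne (by omega) (by omega)]
  · have e2 : Finset.Icc 1 (a + 1) = insert (a + 1) (Finset.Icc 1 a) := W4a_Icc (by omega)
    rw [e2, W4a_Icc hm.1, Finset.image_insert, Finset.image_insert]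

/-- `cell_lift` with `f k t = s(A, A^c)`; at the end the labels at the positions `1..k` are `n, .., n - k + 1`. -/
theorem lset_lift {n : ℕ} {u : List ℕ} (h : Red n u) :
    ∃ g : Fin (u.length + 1) → Sym2 (Finset ℕ), ∀ k t, k ≤ n → t ≤ u.length →
      g (cell n u k t) = s(lset u k t, Finset.Icc 1 n \ lset u k t) := by
  have hz : ∀ t, lset u 0 t = ∅ := by
    intro t
    unfold lset
    rw [Finset.Icc_eq_empty (by omega), Finset.image_empty]
  have hn : ∀ t, lset u n t = Finset.Icc 1 n := by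
    intro t
    obtain ⟨h1, h2⟩ := card_lset h t (le_refl n)
    refine Finset.eq_of_subset_of_card_le h2 ?_
    rw [h1, Nat.card_Icc]
    omega
  refine cell_lift h.full (fun k t => s(lset u k t, Finset.Icc 1 n \ lset u k t)) ?_ ?_ ?_
  · intro t _
    constructor
    · show s(lset u 0 t, Finset.Icc 1 n \ lset u 0 t) = s(lset u 0 0, Finset.Icc 1 n \ lset u 0 0)
      rw [hz, hz]
    · show s(lset u n t, Finset.Icc 1 n \ lset u n t) = s(lset u 0 0, Finset.Icc 1 n \ lset u 0 0)
      rw [hz, hn, Finset.sdiff_self, Finset.sdiff_empty]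
      exact Sym2.eq_swap
  · intro k t ht _ _ hk
    show s(lset u k (t + 1), Finset.Icc 1 n \ lset u k (t + 1)) =
      s(lset u k t, Finset.Icc 1 n \ lset u k t)
    rw [lset_succ_of_ne ht hk (h.1.mem _ (List.getElem_mem ht)).1]
  · intro k hk1 hkn
    show s(lset u k u.length, Finset.Icc 1 n \ lset u k u.length) =
      s(lset u (n - k) 0, Finset.Icc 1 n \ lset u (n - k) 0)
    have e1 : lset u k u.length = Finset.Icc 1 n \ Finset.Icc 1 (n - k) := by
      unfold lset
      rw [List.take_length]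
      ext x
      simp only [Finset.mem_image, Finset.mem_Icc, Finset.mem_sdiff]
      constructor
      · rintro ⟨i, hi, rfl⟩
        rw [h.2 i hi.1 (by omega)]
        omega
      · rintro ⟨h1, h2⟩
        refine ⟨n + 1 - x, by omega, ?_⟩
        rw [h.2 _ (by omega) (by omega)]
        omega
    have e2 : lset u (n - k) 0 = Finset.Icc 1 (n - k) := by
      unfold lset
      rw [List.take_zero]
      ext x
      simp [run]
    rw [e1, e2, Finset.sdiff_sdiff_eq_self (Finset.Icc_subset_Icc_right (by omega))]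
    exact Sym2.eq_swap

end Pool.Agent.Lib.MP_72b45c_co.Q
end

section

/-! # MP_72b45c_co, block W (words), job W4b: no loops, no parallel edges -/

namespace Pool.Agent.Lib.MP_72b45c_co.Q

open Equiv Equiv.Perm

private theorem W4b_eq {I A B : Finset ℕ} (h : s(A, I \ A) = s(B, I \ B)) :
    (∀ z ∈ I, (z ∈ A ↔ z ∈ B)) ∨ (∀ z ∈ I, (z ∈ A ↔ ¬ z ∈ B)) := by
  rcases Sym2.eq_iff.1 h with ⟨h1, -⟩ | ⟨h1, -⟩
  · left
    intro z _
    rw [h1]
  · right
    intro z hz
    rw [h1, Finset.mem_sdiff]
    exact ⟨fun h => h.2, fun h => ⟨hz, h⟩⟩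

/-- the two corners of the pair, seen through the label sets -/
private theorem W4b_key {n : ℕ} {u : List ℕ} (h : Red n u) (e : ℕ) (t : Fin u.length)
    (g : Fin (u.length + 1) → Sym2 (Finset ℕ)) (hg : ∀ k t, k ≤ n → t ≤ u.length →
      g (cell n u k t) = s(lset u k t, Finset.Icc 1 n \ lset u k t)) :
    ∃ x y, ∃ A B : Finset ℕ, x < y ∧ x = run 1 (u.take t) u[t] ∧ y = run 1 (u.take t) (u[t] + 1) ∧
      x ∈ Finset.Icc 1 n ∧ y ∈ Finset.Icc 1 n ∧
      (∀ z, (z ∈ A ↔ z ∈ B) ↔ (z ≠ x ∧ z ≠ y)) ∧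
      (pr n u e t).map g = s(s(A, Finset.Icc 1 n \ A), s(B, Finset.Icc 1 n \ B)) := by
  obtain ⟨x, y, hxy, hx, hy, hx0, hy0, hS, hN, hE⟩ := lset_corners h t.2
  have hm := h.1.mem _ (List.getElem_mem t.2)
  have hxI : x ∈ Finset.Icc 1 n := by
    refine (card_lset h t.1 (k := u[(t : ℕ)]) hm.2.le).2 ?_
    rw [hS]
    exact Finset.mem_insert_self _ _
  have hyI : y ∈ Finset.Icc 1 n := by
    refine (card_lset h (t.1 + 1) (k := u[(t : ℕ)]) hm.2.le).2 ?_
    rw [hN]
    exact Finset.mem_insert_self _ _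
  by_cases hp : (u[(t : ℕ)] + e) % 2 = 0
  · refine ⟨x, y, lset u u[(t : ℕ)] t, lset u u[(t : ℕ)] (t + 1), hxy, hx, hy, hxI, hyI, ?_, ?_⟩
    · intro z
      rw [hS, hN, Finset.mem_insert, Finset.mem_insert]
      by_cases h1 : z = x
      · subst h1
        have : z ≠ y := by omega
        simp [hx0, this]
      · by_cases h2 : z = y
        · subst h2
          simp [hy0, h1]
        · simp [h1, h2]
    · have e1 : pr n u e t = s(cell n u u[(t : ℕ)] t, cell n u u[(t : ℕ)] (t + 1)) := by
        unfold pr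
        exact if_pos hp
      rw [e1, Sym2.map_mk]
      rw [hg _ _ hm.2.le t.2.le, hg _ _ hm.2.le t.2]
  · refine ⟨x, y, lset u (u[(t : ℕ)] - 1) t, lset u (u[(t : ℕ)] + 1) t, hxy, hx, hy, hxI, hyI, ?_, ?_⟩
    · intro z
      rw [hE, Finset.mem_insert, Finset.mem_insert]
      by_cases h1 : z = x
      · subst h1
        simp [hx0]
      · by_cases h2 : z = y
        · subst h2
          simp [hy0]
        · simp [h1, h2]
    · have e1 : pr n u e t = s(cell n u (u[(t : ℕ)] - 1) t, cell n u (u[(t : ℕ)] + 1) t) := by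
        unfold pr
        exact if_neg hp
      rw [e1, Sym2.map_mk]
      rw [hg _ _ (by omega) t.2.le, hg _ _ hm.2 t.2.le]

/-- The two opposite corners have label sets `A`, `A'` with symmetric difference `{x, y}` (`lset_corners`); if the cells were
equal, `{A, A^c} = {A', A'^c}` (`lset_lift`), so `A = A'` or the symmetric difference is everything, `n = 2`. -/
theorem pr_not_isDiag {n : ℕ} {u : List ℕ} (hn : 3 ≤ n) (h : Red n u) (e : ℕ) (t : Fin u.length) :
    ¬ (pr n u e t).IsDiag := by
  intro hd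
  obtain ⟨g, hg⟩ := lset_lift h
  obtain ⟨x, y, A, B, hxy, -, -, hxI, hyI, hAB, hpr⟩ := W4b_key h e t g hg
  have hd2 : ((pr n u e t).map g).IsDiag := hd.map
  rw [hpr, Sym2.mk_isDiag_iff] at hd2
  rcases W4b_eq hd2 with h1 | h1
  · exact ((hAB x).1 (h1 x hxI)).1 rfl
  · obtain ⟨z, hz, hz2⟩ : ∃ z ∈ Finset.Icc 1 n, z ∉ ({x, y} : Finset ℕ) := by
      apply Finset.exists_mem_notMem_of_card_lt_card
      have := Finset.card_le_two (a := x) (b := y)
      rw [Nat.card_Icc]
      omega
    simp only [Finset.mem_insert, Finset.mem_singleton, not_or] at hz2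
    have h2 := h1 z hz
    have h3 := (hAB z).2 hz2
    tauto

/-- Equal pairs have equal symmetric differences up to complement; these are `{x, y}` and `{x', y'}`; `n ≥ 5`
excludes complements, and a pair of labels is exchanged only once (`Asc.cross_once`). -/
theorem pr_injective {n : ℕ} {u : List ℕ} (hn : 5 ≤ n) (h : Red n u) (e : ℕ) :
    Function.Injective (pr n u e) := by
  intro t t' htt
  obtain ⟨g, hg⟩ := lset_lift h
  obtain ⟨x, y, A, B, hxy, hx, hy, hxI, hyI, hAB, hpr⟩ := W4b_key h e t g hg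
  obtain ⟨x', y', A', B', hxy', hx', hy', hxI', hyI', hAB', hpr'⟩ := W4b_key h e t' g hg
  rw [htt, hpr'] at hpr
  -- a label outside all four
  obtain ⟨w, hw, hw2⟩ : ∃ z ∈ Finset.Icc 1 n, z ∉ ({x, y, x', y'} : Finset ℕ) := by
    apply Finset.exists_mem_notMem_of_card_lt_card
    have := Finset.card_le_four (a := x) (b := y) (c := x') (d := y')
    rw [Nat.card_Icc]
    omega
  simp only [Finset.mem_insert, Finset.mem_singleton, not_or] at hw2
  have key : ∀ z ∈ Finset.Icc 1 n, ((z ∈ A ↔ z ∈ B) ↔ (z ∈ A' ↔ z ∈ B')) := by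
    have hwA := (hAB w).2 ⟨hw2.1, hw2.2.1⟩
    have hwA' := (hAB' w).2 ⟨hw2.2.2.1, hw2.2.2.2⟩
    intro z hz
    rcases Sym2.eq_iff.1 hpr with ⟨h1, h2⟩ | ⟨h1, h2⟩
    · rcases W4b_eq h1 with h3 | h3 <;> rcases W4b_eq h2 with h4 | h4
      · have := h3 z hz
        have := h4 z hz
        tauto
      · exfalso
        have := h3 w hw
        have := h4 w hw
        tauto
      · exfalso
        have := h3 w hw
        have := h4 w hw
        tauto
      · have := h3 z hz
        have := h4 z hz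
        tauto
    · rcases W4b_eq h1 with h3 | h3 <;> rcases W4b_eq h2 with h4 | h4
      · have := h3 z hz
        have := h4 z hz
        tauto
      · exfalso
        have := h3 w hw
        have := h4 w hw
        tauto
      · exfalso
        have := h3 w hw
        have := h4 w hw
        tauto
      · have := h3 z hz
        have := h4 z hz
        tauto
  have key2 : ∀ z ∈ Finset.Icc 1 n, ((z ≠ x ∧ z ≠ y) ↔ (z ≠ x' ∧ z ≠ y')) := by
    intro z hz
    rw [← hAB, ← hAB']
    exact key z hz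
  have k1 := key2 x hxI
  have k2 := key2 y hyI
  have k3 := key2 x' hxI'
  have k4 := key2 y' hyI'
  have hxx : x = x' ∧ y = y' := by omega
  by_contra hne
  have hne' : (t : ℕ) ≠ t' := fun h => hne (Fin.ext h)
  rcases lt_or_gt_of_ne hne' with hlt | hlt
  · exact h.1.cross_once hlt t'.2 x y hx.symm hy.symm (by rw [hxx.1]; exact hx'.symm)
      (by rw [hxx.2]; exact hy'.symm)
  · exact h.1.cross_once hlt t.2 x y (by rw [hxx.1]; exact hx'.symm)
      (by rw [hxx.2]; exact hy'.symm) hx.symm hy.symm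

end Pool.Agent.Lib.MP_72b45c_co.Q
end

section

/-! # MP_72b45c_co, block W (words), job W4c: edges -/

namespace Pool.Agent.Lib.MP_72b45c_co.Q

open Equiv Equiv.Perm

theorem BG_adj_iff {n : ℕ} {u : List ℕ} (hn : 3 ≤ n) (h : Red n u) (e : ℕ)
    (i j : Fin (u.length + 1)) : (BG n u e).Adj i j ↔ ∃ t, pr n u e t = s(i, j) := by
  constructor
  · rintro ⟨_, h1⟩
    exact h1
  · rintro ⟨t, ht⟩
    refine ⟨?_, t, ht⟩
    rintro rfl
    refine pr_not_isDiag hn h e t ?_
    rw [ht]
    exact Sym2.mk_isDiag_iff.2 rfl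

theorem edgeSet_BG {n : ℕ} {u : List ℕ} (hn : 3 ≤ n) (h : Red n u) (e : ℕ) :
    (BG n u e).edgeSet = Set.range (pr n u e) := by
  ext z
  induction z using Sym2.ind with
  | _ i j =>
    rw [SimpleGraph.mem_edgeSet, BG_adj_iff hn h]
    exact Iff.rfl

theorem card_edgeSet_BG {n : ℕ} {u : List ℕ} (hn : 5 ≤ n) (h : Red n u) (e : ℕ) :
    Nat.card (BG n u e).edgeSet = u.length := by
  rw [edgeSet_BG (by omega) h, Nat.card_range_of_injective (pr_injective hn h e),
    Nat.card_eq_fintype_card, Fintype.card_fin]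

end Pool.Agent.Lib.MP_72b45c_co.Q
end

section

/-! # MP_72b45c_co, block W (words), job W4: the graphs of the cells are simple (parts) -/
end
end
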