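import Pool.Agent.Lib.MP_72b45c_co.Q.W5
import Pool.Agent.Lib.MP_72b45c_co.Q.W4

section

/-! # MP_72b45c_co, block W (words), job W6a: rotation by one letter -/

namespace Pool.Agent.Lib.MP_72b45c_co.Q

open Equiv Equiv.Perm

variable {n : ℕ} {u u' : List ℕ}

/-- the shift of the letters -/
private def rotTh (n k : ℕ) (v : List ℕ) : Fin (k :: v).length ≃ Fin (v ++ [n - k]).length where
  toFun t := ⟨if t.val = 0 then v.length else t.val - 1, by
    have := t.isLt
    simp only [List.length_cons, List.length_append, List.length_nil] at this ⊢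
    split_ifs <;> omega⟩
  invFun s := ⟨if s.val = v.length then 0 else s.val + 1, by
    have := s.isLt
    simp only [List.length_cons, List.length_append, List.length_nil] at this ⊢
    split_ifs <;> omega⟩
  left_inv t := by
    have := t.isLt
    simp only [List.length_cons] at this
    apply Fin.ext
    dsimp only
    split_ifs <;> omega
  right_inv s := by
    apply Fin.ext
    dsimp only
    by_cases h2 : s.val = v.length
    · simp [h2]
    · simp [h2]

/-- the map of the nodes -/
private def rotF (n k : ℕ) (v : List ℕ) (j t : ℕ) : Fin ((v ++ [n - k]).length + 1) :=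
  if t = 0 then cell n (v ++ [n - k]) (n - j) v.length else cell n (v ++ [n - k]) j (t - 1)

private theorem rotF_zero (n k : ℕ) (v : List ℕ) (j : ℕ) :
    rotF n k v j 0 = cell n (v ++ [n - k]) (n - j) v.length := by
  unfold rotF
  rw [if_pos rfl]

private theorem rotF_succ (n k : ℕ) (v : List ℕ) (j t : ℕ) :
    rotF n k v j (t + 1) = cell n (v ++ [n - k]) j t := by
  unfold rotF
  rw [if_neg (Nat.succ_ne_zero t), Nat.add_sub_cancel]

/-- (M1), one letter. `exists_CIso` with `θ 0 = v.length`, `θ (t + 1) = t` (`finRotate`) and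
`f j t = cell' j (t - 1)` for `t ≥ 1`, `f j 0 = cell' (n - j) v.length` (`cell' = cell n (v ++ [n - k])`). The last letter of
the new word has the corners `W' = (n-k-1, v.length)`, `E' = (n-k+1, v.length)`, `S' = (n-k, v.length)`,
`N' = (n-k, v.length + 1) ~ (k, 0)`; the first letter of the old one `W = (k-1, 0) ↦ E'`, `E = (k+1, 0) ↦ W'`, `S = (k, 0) ↦ S'`,
`N = (k, 1) ↦ (k, 0)' = N'`. -/
theorem rot_iso (hn : Even n) {k : ℕ} {v : List ℕ} (h : Red n (k :: v)) :
    ∃ Φ : CIso n (k :: v) (v ++ [n - k]) 0,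
      (∀ j t, j ≤ n → t ≤ v.length →
        Φ.κ (cell n (k :: v) j (t + 1)) = cell n (v ++ [n - k]) j t) ∧
      ∀ t : Fin (k :: v).length, (Φ.θ t).val = if t.val = 0 then v.length else t.val - 1 := by
  have hf : Full n (k :: v) := h.full
  have hf' : Full n (v ++ [n - k]) := h.rotate.full
  have hk1 : 1 ≤ k := (hf.1 k (by simp)).1
  have hk2 : k < n := (hf.1 k (by simp)).2
  have hlen' : (v ++ [n - k]).length = v.length + 1 := by simp
  have hlast : (v ++ [n - k])[v.length]'(by simp) = n - k := by simp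
  have hget : ∀ t (ht : t < v.length), (v ++ [n - k])[t]'(by simp; omega) = v[t] := by
    intro t ht
    exact List.getElem_append_left ht
  have hwL : ∀ j, 1 ≤ j → j < n →
      cell n (v ++ [n - k]) j (v.length + 1) = cell n (v ++ [n - k]) (n - j) 0 := by
    intro j h1 h2
    have key : ∀ m, (v ++ [n - k]).length = m →
        cell n (v ++ [n - k]) j m = cell n (v ++ [n - k]) (n - j) 0 := by
      rintro m rfl
      exact cell_wrap hf' h1 h2
    exact key _ hlen'
  have hwrap : ∀ j, 1 ≤ j → j < n → j ≠ k →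
      cell n (v ++ [n - k]) j 0 = cell n (v ++ [n - k]) (n - j) v.length := by
    intro j h1 h2 h3
    have e1 := hwL (n - j) (by omega) (by omega)
    have e2 := cell_succ_of_ne n (u := v ++ [n - k]) (k := n - j) (t := v.length) (by simp)
      (by rw [hlast]; omega)
    rw [e2, show n - (n - j) = j by omega] at e1
    exact e1.symm
  have H0 : ∀ t ≤ (k :: v).length, rotF n k v 0 t = rotF n k v 0 0 ∧
      rotF n k v n t = rotF n k v 0 0 := by
    intro t _
    have z0 : rotF n k v 0 0 = 0 := by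
      rw [rotF_zero]
      exact cell_of_le n _ _ (by omega)
    rw [z0]
    rcases t with _ | t
    · refine ⟨z0, ?_⟩
      rw [rotF_zero, Nat.sub_self]
      exact cell_zero n _ _
    · rw [rotF_succ, rotF_succ]
      exact ⟨cell_zero n _ _, cell_of_le n _ _ le_rfl⟩
  have H1 : ∀ j t (ht : t < (k :: v).length), 1 ≤ j → j < n → (k :: v)[t] ≠ j →
      rotF n k v j (t + 1) = rotF n k v j t := by
    intro j t ht h1 h2 h3
    simp only [List.length_cons] at ht
    rw [rotF_succ]
    rcases t with _ | s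
    · rw [rotF_zero]
      refine hwrap j h1 h2 ?_
      intro h4
      apply h3
      simp [h4]
    · rw [rotF_succ]
      apply cell_succ_of_ne n (by simp; omega)
      rw [hget s (by omega)]
      simpa using h3
  have H2 : ∀ j, 1 ≤ j → j < n → rotF n k v j (k :: v).length = rotF n k v (n - j) 0 := by
    intro j h1 h2
    rw [List.length_cons, rotF_succ, rotF_zero, show n - (n - j) = j by omega]
  have Hs : ∀ c, ∃ j t, j ≤ n ∧ t ≤ (k :: v).length ∧ rotF n k v j t = c := by
    intro c
    obtain ⟨j, t, hj, ht, hc⟩ := exists_node hf' c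
    rw [hlen'] at ht
    rcases Nat.lt_or_ge t (v.length + 1) with h1 | h1
    · refine ⟨j, t + 1, hj, by simp only [List.length_cons]; omega, ?_⟩
      rw [rotF_succ]
      exact hc
    · have ht' : t = v.length + 1 := by omega
      subst ht'
      rcases Nat.eq_zero_or_pos j with hj0 | hj0
      · subst hj0
        refine ⟨0, 0 + 1, Nat.zero_le _, by simp, ?_⟩
        rw [rotF_succ, cell_zero, ← hc, cell_zero]
      · rcases Nat.lt_or_ge j n with hjn | hjn
        · refine ⟨n - j, 0 + 1, by omega, by simp, ?_⟩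
          rw [rotF_succ, ← hc]
          exact (hwL j hj0 hjn).symm
        · refine ⟨0, 0 + 1, Nat.zero_le _, by simp, ?_⟩
          rw [rotF_succ, cell_zero, ← hc, cell_of_le n _ _ hjn]
  have Hp : ∀ e (t : Fin (k :: v).length), pr n (v ++ [n - k]) (e + 0) (rotTh n k v t) =
      if ((k :: v)[t] + e) % 2 = 0 then s(rotF n k v (k :: v)[t] t, rotF n k v (k :: v)[t] (t + 1))
      else s(rotF n k v ((k :: v)[t] - 1) t, rotF n k v ((k :: v)[t] + 1) t) := by
    intro e t
    rcases Nat.eq_zero_or_pos t.val with ht0 | ht0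
    · have hθ : (rotTh n k v t) = ⟨v.length, by simp⟩ := by
        apply Fin.ext
        show (if t.val = 0 then v.length else t.val - 1) = v.length
        rw [if_pos ht0]
      have hut : (k :: v)[t] = k := by
        show (k :: v)[t.val] = k
        simp [ht0]
      have e1 := hwL (n - k) (by omega) (by omega)
      rw [show n - (n - k) = k by omega] at e1
      rw [hθ, hut]
      unfold pr
      have hw : (v ++ [n - k])[(⟨v.length, by simp⟩ : Fin (v ++ [n - k]).length)] = n - k := hlast
      rw [hw, ht0]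
      obtain ⟨m, hm⟩ := hn
      have hpar : (n - k + (e + 0)) % 2 = (k + e) % 2 := by omega
      rw [hpar]
      split_ifs with h3
      · rw [e1, rotF_zero, rotF_succ]
      · have a1 : n - (k - 1) = n - k + 1 := by omega
        have a2 : n - (k + 1) = n - k - 1 := by omega
        rw [rotF_zero, rotF_zero, a1, a2]
        exact Sym2.eq_swap
    · obtain ⟨s, hs⟩ : ∃ s, t.val = s + 1 := ⟨t.val - 1, by omega⟩
      have hsl : s < v.length := by
        have := t.isLt
        simp only [List.length_cons] at this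
        omega
      have hθ : (rotTh n k v t) = ⟨s, by simp; omega⟩ := by
        apply Fin.ext
        show (if t.val = 0 then v.length else t.val - 1) = s
        rw [if_neg (by omega)]
        omega
      have hut : (k :: v)[t] = v[s] := by
        show (k :: v)[t.val] = v[s]
        simp [hs]
      rw [hθ, hut]
      unfold pr
      have hw : (v ++ [n - k])[(⟨s, by simp; omega⟩ : Fin (v ++ [n - k]).length)] = v[s] :=
        hget s hsl
      rw [hw, hs, rotF_succ, rotF_succ, rotF_succ, rotF_succ, add_zero]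
  obtain ⟨Φ, h1, h2⟩ := exists_CIso hf (by simp) 0 (rotTh n k v) (rotF n k v) H0 H1 H2 Hs Hp
  refine ⟨Φ, ?_, ?_⟩
  · intro j t hj ht
    rw [h2 j (t + 1) hj (by simp only [List.length_cons]; omega), rotF_succ]
  · intro t
    rw [h1]
    rfl

end Pool.Agent.Lib.MP_72b45c_co.Q
end

section

section

/-! # MP_72b45c_co, block W (words), job W6b: rotation -/

namespace Pool.Agent.Lib.MP_72b45c_co.Q

open Equiv Equiv.Perm

variable {n : ℕ} {u u' : List ℕ}

private theorem w6b_aux (hn : Even n) (h : Red n u) (i : ℕ) (hi : i ≤ u.length) :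
    ∀ w : List ℕ, w = u.drop i ++ (u.take i).map (n - ·) → Red n w ∧
    ∃ Φ : CIso n u w 0,
      (∀ j ≤ n, ∀ t, i ≤ t → t ≤ u.length → Φ.κ (cell n u j t) = cell n w j (t - i)) ∧
      ∀ t : Fin u.length, (Φ.θ t).val = if t.val < i then t.val + (u.length - i) else t.val - i := by
  induction i with
  | zero =>
    intro w hw
    have hw' : w = u := by simpa using hw
    subst hw'
    refine ⟨h, CIso.refl n w, ?_, ?_⟩
    · intro j _ t _ _
      rfl
    · intro t
      simp [CIso.refl]
  | succ i ih =>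
    intro w hw
    have hlt : i < u.length := hi
    obtain ⟨hR, Φ, h1, h2⟩ := ih (by omega) (u[i] :: (u.drop (i + 1) ++ (u.take i).map (n - ·)))
      (by rw [List.drop_eq_getElem_cons hlt]; rfl)
    obtain ⟨Ψ, h3, h4⟩ := rot_iso hn hR
    have e2 : w = (u.drop (i + 1) ++ (u.take i).map (n - ·)) ++ [n - u[i]] := by
      rw [hw, List.take_succ_eq_append_getElem hlt, List.map_append, List.append_assoc]
      rfl
    have hlen : (u.drop (i + 1) ++ (u.take i).map (n - ·)).length = u.length - 1 := by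
      simp only [List.length_append, List.length_drop, List.length_map, List.length_take]
      omega
    subst e2
    refine ⟨hR.rotate, (Φ.trans Ψ : CIso n u _ (0 + 0)), ?_, ?_⟩
    · intro j hj t ht1 ht2
      show Ψ.κ (Φ.κ (cell n u j t)) = _
      rw [h1 j hj t (by omega) ht2, show t - i = (t - (i + 1)) + 1 by omega]
      exact h3 j _ hj (by rw [hlen]; omega)
    · intro t
      show (Ψ.θ (Φ.θ t)).val = _
      rw [h4, h2, hlen]
      have := t.2
      split_ifs <;> omega

/-- (M1) `i` times: induction on `i` (or on the first part of the word) with `rot_iso`, `Red.rotate`. -/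
theorem rot_many (hn : Even n) (h : Red n u) (i : ℕ) (hi : i ≤ u.length) :
    Red n (u.drop i ++ (u.take i).map (n - ·)) ∧
    ∃ Φ : CIso n u (u.drop i ++ (u.take i).map (n - ·)) 0,
      (∀ j ≤ n, Φ.κ (cell n u j i) = cell n (u.drop i ++ (u.take i).map (n - ·)) j 0) ∧
      ∀ t : Fin u.length, (Φ.θ t).val = if t.val < i then t.val + (u.length - i) else t.val - i := by
  obtain ⟨hR, Φ, h1, h2⟩ := w6b_aux hn h i hi _ rfl
  refine ⟨hR, Φ, ?_, h2⟩
  intro j hj
  rw [h1 j hj i le_rfl hi, Nat.sub_self]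

end Pool.Agent.Lib.MP_72b45c_co.Q
end

section

/-! # MP_72b45c_co, block W (words), job W6c: commutation -/

namespace Pool.Agent.Lib.MP_72b45c_co.Q

open Equiv Equiv.Perm

variable {n : ℕ} {u u' : List ℕ}

private lemma W6c_get (a b : List ℕ) (k k' t : ℕ) : (a ++ k :: k' :: b)[t]? =
    if t < a.length then a[t]? else if t = a.length then some k else
      if t = a.length + 1 then some k' else b[t - (a.length + 2)]? := by
  split_ifs with h1 h2 h3
  · exact List.getElem?_append_left h1
  · subst h2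
    rw [List.getElem?_append_right le_rfl]
    simp
  · subst h3
    rw [List.getElem?_append_right (Nat.le_succ _)]
    simp
  · obtain ⟨r, rfl⟩ : ∃ r, t = a.length + (r + 2) := ⟨t - (a.length + 2), by omega⟩
    rw [List.getElem?_append_right (by omega)]
    have e1 : a.length + (r + 2) - a.length = r + 2 := by omega
    have e2 : a.length + (r + 2) - (a.length + 2) = r := by omega
    rw [e1, e2]
    rfl

private lemma W6c_of_get? {l : List ℕ} {t x : ℕ} (h : l[t]? = some x) (ht : t < l.length) :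
    l[t] = x := by
  rw [List.getElem?_eq_getElem ht] at h
  exact Option.some.inj h

private theorem W6c_core (hf : Full n u) (hf' : Full n u') (hlen : u.length = u'.length)
    {p k k' : ℕ} (hp : p + 1 < u.length)
    (e1 : u[p]? = some k) (e2 : u[p + 1]? = some k') (e3 : u'[p]? = some k')
    (e4 : u'[p + 1]? = some k) (e5 : ∀ t, t ≠ p → t ≠ p + 1 → u'[t]? = u[t]?)
    (hk : k + 2 ≤ k' ∨ k' + 2 ≤ k) :
    ∃ Φ : CIso n u u' 0, (∀ t : Fin u.length, (Φ.θ t).val =
        if t.val = p then p + 1 else if t.val = p + 1 then p else t.val) ∧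
      ∀ j ≤ n, Φ.κ (cell n u j 0) = cell n u' j 0 := by
  have hp' : p + 1 < u'.length := hlen ▸ hp
  have g1 : u[p]'(by omega) = k := W6c_of_get? e1 _
  have g2 : u[p + 1]'(by omega) = k' := W6c_of_get? e2 _
  have g3 : u'[p]'(by omega) = k' := W6c_of_get? e3 _
  have g4 : u'[p + 1]'(by omega) = k := W6c_of_get? e4 _
  have g5 : ∀ t (ht : t < u.length) (ht' : t < u'.length), t ≠ p → t ≠ p + 1 → u'[t] = u[t] := by
    intro t ht ht' h1 h2
    have := e5 t h1 h2
    rw [List.getElem?_eq_getElem ht, List.getElem?_eq_getElem ht'] at this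
    exact Option.some.inj this
  have hkf : 1 ≤ k ∧ k < n := hf.1 k (g1 ▸ List.getElem_mem _)
  have hkf' : 1 ≤ k' ∧ k' < n := hf.1 k' (g2 ▸ List.getElem_mem _)
  have c1 : ∀ j, j ≠ k' → cell n u' j (p + 1) = cell n u' j p := fun j hj =>
    cell_succ_of_ne n (by omega) (by rw [g3]; exact Ne.symm hj)
  have c2 : ∀ j, j ≠ k → cell n u' j (p + 2) = cell n u' j (p + 1) := fun j hj =>
    cell_succ_of_ne n hp' (by rw [g4]; exact Ne.symm hj)
  let θ : Fin u.length ≃ Fin u'.length :=
    (Equiv.swap (⟨p, by omega⟩ : Fin u.length) ⟨p + 1, hp⟩).trans (finCongr hlen)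
  have hθ : ∀ t : Fin u.length, (θ t).val =
      if t.val = p then p + 1 else if t.val = p + 1 then p else t.val := by
    intro t
    simp only [θ, Equiv.trans_apply, finCongr_apply, Fin.val_cast, Equiv.swap_apply_def,
      Fin.ext_iff]
    split_ifs <;> rfl
  let f : ℕ → ℕ → Fin (u'.length + 1) := fun j t =>
    if t = p + 1 then (if j = k then cell n u' k (p + 2) else cell n u' j p) else cell n u' j t
  have f1 : ∀ j t, t ≠ p + 1 → f j t = cell n u' j t := fun j t h => if_neg h
  have f2 : f k (p + 1) = cell n u' k (p + 2) := by simp [f]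
  have f3 : ∀ j, j ≠ k → f j (p + 1) = cell n u' j p := fun j h => by simp [f, h]
  have h00 : f 0 0 = 0 := by
    rw [f1 0 0 (by omega), cell_zero]
  have A1 : ∀ t ≤ u.length, f 0 t = f 0 0 ∧ f n t = f 0 0 := by
    intro t _
    rw [h00]
    by_cases ht : t = p + 1
    · subst ht
      rw [f3 0 (by omega), f3 n (by omega), cell_zero, cell_of_le n u' p le_rfl]
      exact ⟨rfl, rfl⟩
    · rw [f1 0 t ht, f1 n t ht, cell_zero, cell_of_le n u' t le_rfl]
      exact ⟨rfl, rfl⟩
  have A2 : ∀ j t (ht : t < u.length), 1 ≤ j → j < n → u[t] ≠ j → f j (t + 1) = f j t := by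
    intro j t ht hj1 hj2 hne
    by_cases h1 : t = p
    · subst h1
      rw [g1] at hne
      rw [f3 j (Ne.symm hne), f1 j t (by omega)]
    by_cases h2 : t = p + 1
    · subst h2
      rw [g2] at hne
      rw [f1 j (p + 1 + 1) (by omega)]
      by_cases hjk : j = k
      · subst hjk
        exact f2.symm
      · rw [f3 j hjk, ← c1 j (Ne.symm hne)]
        exact c2 j hjk
    · rw [f1 j (t + 1) (by omega), f1 j t h2]
      apply cell_succ_of_ne n (by omega)
      rw [g5 t ht (by omega) h1 h2]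
      exact hne
  have A3 : ∀ j, 1 ≤ j → j < n → f j u.length = f (n - j) 0 := by
    intro j hj1 hj2
    rw [f1 j _ (by omega), f1 _ 0 (by omega), hlen]
    exact cell_wrap hf' hj1 hj2
  have A4 : ∀ c, ∃ j t, j ≤ n ∧ t ≤ u.length ∧ f j t = c := by
    intro c
    obtain ⟨j, t, hj, ht, hc⟩ := exists_node hf' c
    by_cases h2 : t = p + 1
    · subst h2
      by_cases hjk : j = k'
      · subst hjk
        refine ⟨j, p + 2, hj, by omega, ?_⟩
        rw [f1 j _ (by omega), c2 j (by omega)]
        exact hc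
      · refine ⟨j, p, hj, by omega, ?_⟩
        rw [f1 j _ (by omega), ← c1 j hjk]
        exact hc
    · exact ⟨j, t, hj, by omega, by rw [f1 j t h2]; exact hc⟩
  have hq : p < u.length := by omega
  have hq' : p < u'.length := by omega
  have A5 : ∀ e (t : Fin u.length), pr n u' (e + 0) (θ t) =
      if (u[t] + e) % 2 = 0 then s(f u[t] t, f u[t] (t + 1))
      else s(f (u[t] - 1) t, f (u[t] + 1) t) := by
    intro e t
    have hv := hθ t
    rw [add_zero]
    by_cases h1 : t.val = p
    · have hθt : θ t = ⟨p + 1, hp'⟩ := Fin.ext (by rw [hv, if_pos h1])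
      have ht : t = ⟨p, hq⟩ := Fin.ext h1
      rw [hθt]
      subst ht
      unfold pr
      simp only [Fin.getElem_fin]
      rw [g4, g1]
      rw [f1 k p (by omega), f2, f1 (k - 1) p (by omega), f1 (k + 1) p (by omega),
        c1 k (by omega), c1 (k - 1) (by omega), c1 (k + 1) (by omega)]
    by_cases h2 : t.val = p + 1
    · have hθt : θ t = ⟨p, hq'⟩ := Fin.ext (by rw [hv, if_neg h1, if_pos h2])
      have ht : t = ⟨p + 1, hp⟩ := Fin.ext h2
      rw [hθt]
      subst ht
      unfold pr
      simp only [Fin.getElem_fin]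
      rw [g3, g2]
      rw [f3 k' (by omega), f1 k' (p + 1 + 1) (by omega), f3 (k' - 1) (by omega),
        f3 (k' + 1) (by omega), ← c2 k' (by omega)]
    · have hθt : (θ t).val = t.val := by rw [hv, if_neg h1, if_neg h2]
      have ht' : t.val < u'.length := hlen ▸ t.2
      have hθt' : θ t = ⟨t.val, ht'⟩ := Fin.ext hθt
      rw [hθt']
      unfold pr
      simp only [Fin.getElem_fin]
      rw [g5 t.val t.2 ht' h1 h2]
      rw [f1 _ t.val h2, f1 _ (t.val + 1) (by omega), f1 _ t.val h2, f1 _ t.val h2]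
  obtain ⟨Φ, hΦ1, hΦ2⟩ := exists_CIso (u := u) (u' := u') hf hlen 0 θ f A1 A2 A3 A4 A5
  refine ⟨Φ, fun t => by rw [hΦ1]; exact hθ t, fun j hj => ?_⟩
  rw [hΦ2 j 0 hj (Nat.zero_le _), f1 j 0 (by omega)]

/-- (M2). `exists_CIso` with `θ` = transposition of `a.length`, `a.length + 1` and `f j t = cell' j t` for
`t ≠ a.length + 1`, `f k (a.length + 1) = cell' k (a.length + 2)`, `f j (a.length + 1) = cell' j a.length` for `j ≠ k`. -/
theorem comm_iso (h : Red n u) (hc : Comm u u') :
    ∃ Φ : CIso n u u' 0, (∀ j ≤ n, Φ.κ (cell n u j 0) = cell n u' j 0) ∧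
      ∀ t : Fin u.length, u'[Φ.θ t] = u[t] ∧
        run 1 (u'.take (Φ.θ t)) u[t] = run 1 (u.take t) u[t] := by
  have hr' := h.comm hc
  have hf := h.full
  have hf' := hr'.full
  obtain ⟨a, b, k, k', hk⟩ := hc
  have hp : a.length + 1 < (a ++ k :: k' :: b).length := by simp
  have hlen : (a ++ k :: k' :: b).length = (a ++ k' :: k :: b).length := by simp
  have hp' : a.length + 1 < (a ++ k' :: k :: b).length := hlen ▸ hp
  have e1 : (a ++ k :: k' :: b)[a.length]? = some k := by rw [W6c_get]; simp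
  have e2 : (a ++ k :: k' :: b)[a.length + 1]? = some k' := by rw [W6c_get]; simp
  have e3 : (a ++ k' :: k :: b)[a.length]? = some k' := by rw [W6c_get]; simp
  have e4 : (a ++ k' :: k :: b)[a.length + 1]? = some k := by rw [W6c_get]; simp
  have e5 : ∀ t, t ≠ a.length → t ≠ a.length + 1 →
      (a ++ k' :: k :: b)[t]? = (a ++ k :: k' :: b)[t]? := by
    intro t h1 h2
    rw [W6c_get, W6c_get]
    simp [h1, h2]
  obtain ⟨Φ, hΦ1, hΦ2⟩ := W6c_core hf hf' hlen hp e1 e2 e3 e4 e5 hk
  have hq : a.length < (a ++ k :: k' :: b).length := by omega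
  have hq' : a.length < (a ++ k' :: k :: b).length := by omega
  refine ⟨Φ, hΦ2, fun t => ?_⟩
  have hv := hΦ1 t
  have g1 : (a ++ k :: k' :: b)[a.length]'(by omega) = k := W6c_of_get? e1 _
  have g2 : (a ++ k :: k' :: b)[a.length + 1]'(by omega) = k' := W6c_of_get? e2 _
  have g3 : (a ++ k' :: k :: b)[a.length]'(by omega) = k' := W6c_of_get? e3 _
  have g4 : (a ++ k' :: k :: b)[a.length + 1]'(by omega) = k := W6c_of_get? e4 _
  have ha : (a ++ k :: k' :: b).take a.length = a := by simp
  have ha' : (a ++ k' :: k :: b).take a.length = a := by simp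
  have r1 : run 1 ((a ++ k :: k' :: b).take (a.length + 1)) = run 1 a * swap k (k + 1) := by
    rw [run_take_succ _ (by omega : a.length < _), g1, ha]
  have r2 : run 1 ((a ++ k' :: k :: b).take (a.length + 1)) = run 1 a * swap k' (k' + 1) := by
    rw [run_take_succ _ (by omega : a.length < _), g3, ha']
  show (a ++ k' :: k :: b)[(Φ.θ t).val]'(Φ.θ t).2 = (a ++ k :: k' :: b)[t.val]'t.2 ∧
    run 1 ((a ++ k' :: k :: b).take (Φ.θ t).val) ((a ++ k :: k' :: b)[t.val]'t.2) =
      run 1 ((a ++ k :: k' :: b).take t.val) ((a ++ k :: k' :: b)[t.val]'t.2)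
  by_cases h1 : t.val = a.length
  · have hθt : Φ.θ t = ⟨a.length + 1, hp'⟩ := Fin.ext (by rw [hv, if_pos h1])
    have ht : t = ⟨a.length, hq⟩ := Fin.ext h1
    rw [hθt]
    subst ht
    rw [g4, g1, ha, r2]
    refine ⟨rfl, ?_⟩
    rw [Perm.mul_apply, swap_apply_of_ne_of_ne (by omega) (by omega)]
  by_cases h2 : t.val = a.length + 1
  · have hθt : Φ.θ t = ⟨a.length, hq'⟩ := Fin.ext (by rw [hv, if_neg h1, if_pos h2])
    have ht : t = ⟨a.length + 1, hp⟩ := Fin.ext h2
    rw [hθt]
    subst ht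
    rw [g3, g2, ha', r1]
    refine ⟨rfl, ?_⟩
    rw [Perm.mul_apply, swap_apply_of_ne_of_ne (by omega) (by omega)]
  · have hθt : (Φ.θ t).val = t.val := by rw [hv, if_neg h1, if_neg h2]
    have ht' : t.val < (a ++ k' :: k :: b).length := hlen ▸ t.2
    have hθt' : Φ.θ t = ⟨t.val, ht'⟩ := Fin.ext hθt
    have g5 : (a ++ k' :: k :: b)[t.val]'ht' = (a ++ k :: k' :: b)[t.val]'t.2 := by
      have := e5 t.val h1 h2
      rw [List.getElem?_eq_getElem t.2, List.getElem?_eq_getElem ht'] at this
      exact Option.some.inj this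
    rw [hθt']
    refine ⟨g5, ?_⟩
    have hrun : run 1 ((a ++ k' :: k :: b).take t.val) = run 1 ((a ++ k :: k' :: b).take t.val) := by
      rcases Nat.lt_or_ge t.val a.length with h3 | h3
      · rw [List.take_append_of_le_length h3.le, List.take_append_of_le_length h3.le]
      · obtain ⟨r, hr⟩ : ∃ r, t.val = a.length + (r + 2) := ⟨t.val - (a.length + 2), by omega⟩
        rw [hr, List.take_length_add_append, List.take_length_add_append]
        simp only [List.take_succ_cons]
        rw [run_append, run_append]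
        simp only [run]
        congr 1
        rw [mul_assoc, mul_assoc]
        congr 1
        have hd : Disjoint (swap k' (k' + 1)) (swap k (k + 1)) := by
          intro x
          by_cases hx : x = k' ∨ x = k' + 1
          · right
            apply swap_apply_of_ne_of_ne <;> omega
          · left
            push Not at hx
            exact swap_apply_of_ne_of_ne hx.1 hx.2
        exact hd.commute
    rw [hrun]

theorem comm_many (h : Red n u) (hc : Relation.ReflTransGen Comm u u') :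
    Red n u' ∧ ∃ Φ : CIso n u u' 0, (∀ j ≤ n, Φ.κ (cell n u j 0) = cell n u' j 0) ∧
      ∀ t : Fin u.length, u'[Φ.θ t] = u[t] ∧
        run 1 (u'.take (Φ.θ t)) u[t] = run 1 (u.take t) u[t] := by
  induction hc with
  | refl => exact ⟨h, CIso.refl n u, fun j _ => rfl, fun t => ⟨rfl, rfl⟩⟩
  | tail _ hvw ih =>
    obtain ⟨hr, Φ, h1, h2⟩ := ih
    obtain ⟨Ψ, h3, h4⟩ := comm_iso hr hvw
    refine ⟨hr.comm hvw, (Φ.trans Ψ).cast (by simp), fun j hj => ?_, fun t => ?_⟩
    · show Ψ.κ (Φ.κ (cell n u j 0)) = _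
      rw [h1 j hj, h3 j hj]
    · have h5 := h4 (Φ.θ t)
      rw [(h2 t).1] at h5
      refine ⟨h5.1, ?_⟩
      rw [← (h2 t).2]
      exact h5.2

end Pool.Agent.Lib.MP_72b45c_co.Q
end

section

/-! # MP_72b45c_co, block W (words), job W6d: base change -/

namespace Pool.Agent.Lib.MP_72b45c_co.Q

open Equiv Equiv.Perm

variable {n : ℕ} {u u' : List ℕ}

/-- the letters of the two words -/
private structure W6dD (n : ℕ) (u u' : List ℕ) (p l : ℕ) : Prop where
  hn : 2 ≤ n
  hu : u.length = p + (n - 1) + l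
  hu' : u'.length = p + (n - 1) + l
  f : Full n u
  f' : Full n u'
  g1 : ∀ t (h : t < u.length) (h' : t < u'.length), t < p → 2 ≤ u[t] ∧ u[t] < n ∧ u'[t] + 1 = u[t]
  g2 : ∀ t (h : t < u.length), p ≤ t → t < p + (n - 1) → u[t] = t - p + 1
  g2' : ∀ t (h' : t < u'.length), p ≤ t → t < p + (n - 1) → u'[t] + (t - p) + 1 = n
  g3 : ∀ t (h : t < u.length) (h' : t < u'.length), p + (n - 1) ≤ t →
    1 ≤ u[t] ∧ u[t] + 2 ≤ n ∧ u'[t] = u[t] + 1

private def w6dF (n : ℕ) (u' : List ℕ) (p k t : ℕ) : Fin (u'.length + 1) :=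
  if k = 0 ∨ n ≤ k then cell n u' (n - 1) 0
  else if t ≤ p then cell n u' (k - 1) t
  else if t < p + (n - 1) then
    (if k ≤ t - p then cell n u' (k + 1) (p + (n - 1)) else cell n u' (k - 1) p)
  else cell n u' (k + 1) t

private def w6dT (p m t : ℕ) : ℕ := if t < p ∨ p + m ≤ t then t else 2 * p + m - 1 - t

private theorem w6dT_lt {p m l t : ℕ} (h : t < p + m + l) : w6dT p m t < p + m + l := by
  unfold w6dT
  split_ifs <;> omega

private theorem w6dT_invol (p m t : ℕ) : w6dT p m (w6dT p m t) = t := by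
  unfold w6dT
  split_ifs <;> omega

private theorem w6d_c1 {p l : ℕ} (D : W6dD n u u' p l) (t : ℕ) (ht : t ≤ p) :
    cell n u' (n - 1) t = cell n u' (n - 1) 0 := by
  induction t with
  | zero => rfl
  | succ t ih =>
    have h1 := D.hu
    have h2 := D.hu'
    rw [cell_succ_of_ne n (show t < u'.length by omega) _, ih (by omega)]
    have h3 := D.g1 t (by omega) (by omega) (by omega)
    omega

private theorem w6d_c2 {p l : ℕ} (D : W6dD n u u' p l) (j : ℕ) (hj : j ≤ l) :
    cell n u' 1 (p + (n - 1) + j) = cell n u' 1 (p + (n - 1)) := by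
  induction j with
  | zero => rfl
  | succ j ih =>
    have h1 := D.hu
    have h2 := D.hu'
    rw [← ih (by omega), ← add_assoc, cell_succ_of_ne n (show p + (n - 1) + j < u'.length by omega) _]
    have h3 := D.g3 (p + (n - 1) + j) (by omega) (by omega) (by omega)
    omega

private theorem w6d_c3 {p l : ℕ} (D : W6dD n u u' p l) (t : ℕ) (h1 : p + (n - 1) ≤ t)
    (h2 : t ≤ p + (n - 1) + l) : cell n u' 1 t = cell n u' (n - 1) 0 := by
  have hn := D.hn
  have h3 := w6d_c2 D (t - (p + (n - 1))) (by omega)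
  rw [show p + (n - 1) + (t - (p + (n - 1))) = t by omega] at h3
  rw [h3, ← w6d_c2 D l le_rfl, ← D.hu']
  exact cell_wrap D.f' le_rfl (by omega)

private theorem w6d_m0 {p l : ℕ} (D : W6dD n u u' p l) (k i j : ℕ) (hij : i + j ≤ n - 1)
    (hk : k + (i + j) < n ∨ n ≤ k + i) : cell n u' k (p + i + j) = cell n u' k (p + i) := by
  induction j with
  | zero => rfl
  | succ j ih =>
    have h1 := D.hu
    have h2 := D.hu'
    rw [← ih (by omega) (by omega), ← add_assoc,
      cell_succ_of_ne n (show p + i + j < u'.length by omega) _]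
    have h3 := D.g2' (p + i + j) (by omega) (by omega) (by omega)
    omega

private theorem w6d_m1 {p l : ℕ} (D : W6dD n u u' p l) (k i : ℕ) (hi : i ≤ n - 1)
    (hk : k + i < n) : cell n u' k (p + i) = cell n u' k p := by
  have h := w6d_m0 D k 0 i (by omega) (by omega)
  simpa using h

private theorem w6d_m2 {p l : ℕ} (D : W6dD n u u' p l) (k i : ℕ) (hi : i ≤ n - 1)
    (hk : n ≤ k + i) : cell n u' k (p + i) = cell n u' k (p + (n - 1)) := by
  have h := w6d_m0 D k i (n - 1 - i) (by omega) (by omega)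
  rw [← h]
  congr 1
  omega

private theorem w6dF_zero (n : ℕ) (u' : List ℕ) (p k t : ℕ) (h : k = 0 ∨ n ≤ k) :
    w6dF n u' p k t = cell n u' (n - 1) 0 := by
  unfold w6dF
  rw [if_pos h]

private theorem w6dF_lo (n : ℕ) (u' : List ℕ) (p k t : ℕ) (h1 : 1 ≤ k) (h2 : k < n)
    (ht : t ≤ p) : w6dF n u' p k t = cell n u' (k - 1) t := by
  unfold w6dF
  rw [if_neg (by omega), if_pos ht]

private theorem w6dF_mid (n : ℕ) (u' : List ℕ) (p k t : ℕ) (h1 : 1 ≤ k) (h2 : k < n)
    (ht : p ≤ t) (ht' : t ≤ p + (n - 1)) : w6dF n u' p k t =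
      if k ≤ t - p then cell n u' (k + 1) (p + (n - 1)) else cell n u' (k - 1) p := by
  unfold w6dF
  rw [if_neg (by omega)]
  by_cases h3 : t ≤ p
  · obtain rfl : t = p := by omega
    rw [if_pos h3, if_neg (by omega)]
  · rw [if_neg h3]
    by_cases h4 : t < p + (n - 1)
    · rw [if_pos h4]
    · obtain rfl : t = p + (n - 1) := by omega
      rw [if_neg h4, if_pos (by omega)]

private theorem w6dF_hi (n : ℕ) (u' : List ℕ) (p k t : ℕ) (h1 : 1 ≤ k) (h2 : k < n)
    (ht : p + (n - 1) ≤ t) : w6dF n u' p k t = cell n u' (k + 1) t := by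
  unfold w6dF
  rw [if_neg (by omega), if_neg (by omega), if_neg (by omega)]

private theorem w6dF_h1 {p l : ℕ} (D : W6dD n u u' p l) (k t : ℕ) (ht : t < u.length) (h1 : 1 ≤ k)
    (h2 : k < n) (h : u[t] ≠ k) : w6dF n u' p k (t + 1) = w6dF n u' p k t := by
  have hu := D.hu
  have hu' := D.hu'
  rcases lt_or_ge t p with h3 | h3
  · have h4 := D.g1 t ht (by omega) h3
    rw [w6dF_lo n u' p k (t + 1) h1 h2 h3, w6dF_lo n u' p k t h1 h2 h3.le,
      cell_succ_of_ne n (show t < u'.length by omega) (by omega)]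
  · rcases lt_or_ge t (p + (n - 1)) with h5 | h5
    · have h4 := D.g2 t ht h3 h5
      rw [w6dF_mid n u' p k (t + 1) h1 h2 (by omega) (by omega),
        w6dF_mid n u' p k t h1 h2 (by omega) (by omega)]
      by_cases h6 : k ≤ t - p
      · rw [if_pos h6, if_pos (by omega)]
      · rw [if_neg h6, if_neg (by omega)]
    · have h4 := D.g3 t ht (by omega) h5
      rw [w6dF_hi n u' p k (t + 1) h1 h2 (by omega), w6dF_hi n u' p k t h1 h2 h5,
        cell_succ_of_ne n (show t < u'.length by omega) (by omega)]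

private theorem w6dF_h2 {p l : ℕ} (D : W6dD n u u' p l) (k : ℕ) (h1 : 1 ≤ k)
    (h2 : k < n) : w6dF n u' p k u.length = w6dF n u' p (n - k) 0 := by
  have hu := D.hu
  have hu' := D.hu'
  rw [w6dF_hi n u' p k u.length h1 h2 (by omega),
    w6dF_lo n u' p (n - k) 0 (by omega) (by omega) (by omega), show u.length = u'.length by omega]
  rcases lt_or_ge (k + 1) n with h3 | h3
  · rw [cell_wrap D.f' (by omega) h3]
    congr 1
  · obtain rfl : n = k + 1 := by omega
    rw [cell_of_le _ _ _ le_rfl, show k + 1 - k - 1 = 0 by omega, cell_zero]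

private theorem w6dF_surj0 {p l : ℕ} (D : W6dD n u u' p l) (k t : ℕ) (hk : k ≤ n) (ht : t ≤ p) :
    ∃ k' t', k' ≤ n ∧ t' ≤ u.length ∧ w6dF n u' p k' t' = cell n u' k t := by
  have hu := D.hu
  have hn := D.hn
  rcases lt_or_ge (k + 1) n with h1 | h1
  · exact ⟨k + 1, t, by omega, by omega, w6dF_lo n u' p (k + 1) t (by omega) h1 ht⟩
  · rcases lt_or_ge k n with h2 | h2
    · refine ⟨0, 0, by omega, by omega, ?_⟩
      rw [w6dF_zero n u' p 0 0 (Or.inl rfl), show k = n - 1 by omega, w6d_c1 D t ht]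
    · refine ⟨1, t, by omega, by omega, ?_⟩
      rw [w6dF_lo n u' p 1 t le_rfl (by omega) ht, cell_of_le n u' t h2]
      exact cell_zero n u' t

private theorem w6dF_surj1 {p l : ℕ} (D : W6dD n u u' p l) (k t : ℕ) (hk : k ≤ n)
    (ht : p + (n - 1) ≤ t) (ht' : t ≤ p + (n - 1) + l) :
    ∃ k' t', k' ≤ n ∧ t' ≤ u.length ∧ w6dF n u' p k' t' = cell n u' k t := by
  have hu := D.hu
  have hn := D.hn
  rcases lt_or_ge k 1 with h1 | h1
  · refine ⟨n - 1, t, by omega, by omega, ?_⟩
    rw [w6dF_hi n u' p (n - 1) t (by omega) (by omega) ht, cell_of_le n u' t (by omega),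
      show k = 0 by omega, cell_zero]
  · rcases lt_or_ge k 2 with h2 | h2
    · refine ⟨0, 0, by omega, by omega, ?_⟩
      rw [w6dF_zero n u' p 0 0 (Or.inl rfl), show k = 1 by omega, w6d_c3 D t ht ht']
    · refine ⟨k - 1, t, by omega, by omega, ?_⟩
      rw [w6dF_hi n u' p (k - 1) t (by omega) (by omega) ht, show k - 1 + 1 = k by omega]

private theorem w6dF_surj {p l : ℕ} (D : W6dD n u u' p l) (c : Fin (u'.length + 1)) :
    ∃ k t, k ≤ n ∧ t ≤ u.length ∧ w6dF n u' p k t = c := by
  have hu := D.hu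
  have hu' := D.hu'
  have hn := D.hn
  obtain ⟨k, t, hk, ht, rfl⟩ := exists_node D.f' c
  rcases le_or_gt t p with h1 | h1
  · exact w6dF_surj0 D k t hk h1
  · rcases le_or_gt (p + (n - 1)) t with h2 | h2
    · exact w6dF_surj1 D k t hk h2 (by omega)
    · obtain ⟨i, rfl⟩ : ∃ i, t = p + i := ⟨t - p, by omega⟩
      rcases lt_or_ge (k + i) n with h3 | h3
      · rw [w6d_m1 D k i (by omega) h3]
        exact w6dF_surj0 D k p hk le_rfl
      · rw [w6d_m2 D k i (by omega) h3]
        exact w6dF_surj1 D k (p + (n - 1)) hk le_rfl (by omega)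

private theorem w6dF_pr {p l : ℕ} (D : W6dD n u u' p l) (e t s : ℕ) (ht : t < u.length)
    (hs : s < u'.length) (hst : s = w6dT p (n - 1) t) :
    (if (u'[s] + (e + 1)) % 2 = 0 then s(cell n u' u'[s] s, cell n u' u'[s] (s + 1))
      else s(cell n u' (u'[s] - 1) s, cell n u' (u'[s] + 1) s)) =
      if (u[t] + e) % 2 = 0 then s(w6dF n u' p u[t] t, w6dF n u' p u[t] (t + 1))
      else s(w6dF n u' p (u[t] - 1) t, w6dF n u' p (u[t] + 1) t) := by
  have hu := D.hu
  have hu' := D.hu'
  have hn := D.hn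
  rcases lt_or_ge t p with h3 | h3
  · have h5 : s = t := by rw [hst, w6dT, if_pos (Or.inl h3)]
    subst h5
    have h4 := D.g1 s ht hs h3
    obtain ⟨h6, h7, h8⟩ := h4
    generalize u[s] = k at *
    have h9 : u'[s] = k - 1 := by omega
    rw [h9]
    by_cases h10 : (k + e) % 2 = 0
    · rw [if_pos h10, if_pos (by omega), w6dF_lo n u' p k s (by omega) h7 h3.le,
        w6dF_lo n u' p k (s + 1) (by omega) h7 h3]
    · rw [if_neg h10, if_neg (by omega), w6dF_lo n u' p (k - 1) s (by omega) (by omega) h3.le]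
      rcases lt_or_ge (k + 1) n with h11 | h11
      · rw [w6dF_lo n u' p (k + 1) s (by omega) h11 h3.le, show k + 1 - 1 = k - 1 + 1 by omega]
      · rw [w6dF_zero n u' p (k + 1) s (Or.inr h11), ← w6d_c1 D s h3.le,
          show k - 1 + 1 = n - 1 by omega]
  · rcases lt_or_ge t (p + (n - 1)) with h5 | h5
    · have h6 := D.g2 t ht h3 h5
      have h7 : s = 2 * p + (n - 1) - 1 - t := by rw [hst, w6dT, if_neg (by omega)]
      have h8 := D.g2' s hs (by omega) (by omega)
      have h9 : u'[s] = u[t] := by omega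
      rw [h9]
      generalize u[t] = k at *
      obtain ⟨h10, h11⟩ : 1 ≤ k ∧ k < n := by omega
      obtain rfl : t = p + (k - 1) := by omega
      obtain rfl : s = p + (n - 1 - k) := by omega
      by_cases h12 : (k + e) % 2 = 0
      · rw [if_pos h12, if_neg (by omega),
          w6dF_mid n u' p k (p + (k - 1)) h10 h11 (by omega) (by omega), if_neg (by omega),
          w6dF_mid n u' p k (p + (k - 1) + 1) h10 h11 (by omega) (by omega), if_pos (by omega),
          w6d_m1 D (k - 1) (n - 1 - k) (by omega) (by omega),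
          w6d_m2 D (k + 1) (n - 1 - k) (by omega) (by omega)]
      · rw [if_neg h12, if_pos (by omega), w6d_m1 D k (n - 1 - k) (by omega) (by omega),
          show p + (n - 1 - k) + 1 = p + (n - k) by omega,
          w6d_m2 D k (n - k) (by omega) (by omega)]
        have hA : w6dF n u' p (k - 1) (p + (k - 1)) = cell n u' k (p + (n - 1)) := by
          rcases lt_or_ge k 2 with h13 | h13
          · rw [w6dF_zero n u' p (k - 1) _ (Or.inl (by omega)), show k = 1 by omega,
              w6d_c3 D (p + (n - 1)) le_rfl (by omega)]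
          · rw [w6dF_mid n u' p (k - 1) (p + (k - 1)) (by omega) (by omega) (by omega) (by omega),
              if_pos (by omega), show k - 1 + 1 = k by omega]
        have hB : w6dF n u' p (k + 1) (p + (k - 1)) = cell n u' k p := by
          rcases lt_or_ge (k + 1) n with h13 | h13
          · rw [w6dF_mid n u' p (k + 1) (p + (k - 1)) (by omega) (by omega) (by omega) (by omega),
              if_neg (by omega), show k + 1 - 1 = k by omega]
          · rw [w6dF_zero n u' p (k + 1) _ (Or.inr h13), ← w6d_c1 D p le_rfl,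
              show k = n - 1 by omega]
        rw [hA, hB, Sym2.eq_swap]
    · have h6 : s = t := by rw [hst, w6dT, if_pos (Or.inr h5)]
      subst h6
      obtain ⟨h6, h7, h8⟩ := D.g3 s ht hs h5
      rw [h8]
      generalize u[s] = k at *
      by_cases h10 : (k + e) % 2 = 0
      · rw [if_pos h10, if_pos (by omega), w6dF_hi n u' p k s h6 (by omega) h5,
          w6dF_hi n u' p k (s + 1) h6 (by omega) (by omega)]
      · rw [if_neg h10, if_neg (by omega), w6dF_hi n u' p (k + 1) s (by omega) (by omega) h5,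
          show k + 1 - 1 = k by omega]
        rcases lt_or_ge k 2 with h11 | h11
        · rw [w6dF_zero n u' p (k - 1) s (Or.inl (by omega)), show k = 1 by omega,
            w6d_c3 D s h5 (by omega)]
        · rw [w6dF_hi n u' p (k - 1) s (by omega) (by omega) h5, show k - 1 + 1 = k by omega]

private theorem w6d_run {p l : ℕ} (D : W6dD n u u' p l) (t : ℕ) (ht : t ≤ u.length) :
    run 1 (u.take t) (1 + min (t - p) (n - 1)) = 1 := by
  have hu := D.hu
  have hu' := D.hu'
  have hn := D.hn
  induction t with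
  | zero => simp [run]
  | succ t ih =>
    rw [run_take_succ u ht, Perm.mul_apply]
    have ih' := ih (by omega)
    rcases lt_or_ge t p with h3 | h3
    · obtain ⟨h4, h5, h6⟩ := D.g1 t ht (by omega) h3
      rw [show t + 1 - p = 0 by omega, show t - p = 0 by omega] at *
      rw [swap_apply_of_ne_of_ne (by simp; omega) (by simp; omega)]
      exact ih'
    · rcases lt_or_ge t (p + (n - 1)) with h5 | h5
      · have h6 := D.g2 t ht h3 h5
        rw [h6, show 1 + min (t + 1 - p) (n - 1) = t - p + 1 + 1 by omega, swap_apply_right,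
          show t - p + 1 = 1 + min (t - p) (n - 1) by omega]
        exact ih'
      · obtain ⟨h6, h7, h8⟩ := D.g3 t ht (by omega) h5
        rw [show 1 + min (t - p) (n - 1) = n by omega] at ih'
        rw [show 1 + min (t + 1 - p) (n - 1) = n by omega,
          swap_apply_of_ne_of_ne (by omega) (by omega)]
        exact ih'

private theorem w6d_par {p l : ℕ} (D : W6dD n u u' p l) (t s : ℕ) (ht : t < u.length)
    (hs : s < u'.length) (hst : s = w6dT p (n - 1) t) :
    (u'[s] + u[t]) % 2 = 1 ↔ run 1 (u.take t) u[t] ≠ 1 := by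
  have hu := D.hu
  have hu' := D.hu'
  have hn := D.hn
  have hr := w6d_run D t ht.le
  have hi : run 1 (u.take t) u[t] = 1 ↔ u[t] = 1 + min (t - p) (n - 1) :=
    ⟨fun h => (run 1 (u.take t)).injective (h.trans hr.symm), fun h => by rw [h]; exact hr⟩
  rw [Ne, hi]
  rcases lt_or_ge t p with h3 | h3
  · have h5 : s = t := by rw [hst, w6dT, if_pos (Or.inl h3)]
    subst h5
    have h4 := D.g1 s ht hs h3
    omega
  · rcases lt_or_ge t (p + (n - 1)) with h5 | h5
    · have h6 := D.g2 t ht h3 h5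
      have h7 : s = 2 * p + (n - 1) - 1 - t := by rw [hst, w6dT, if_neg (by omega)]
      have h8 := D.g2' s hs (by omega) (by omega)
      omega
    · have h6 : s = t := by rw [hst, w6dT, if_pos (Or.inr h5)]
      subst h6
      have h4 := D.g3 s ht hs h5
      omega

private theorem w6d_main {p l : ℕ} (D : W6dD n u u' p l) :
    ∃ Φ : CIso n u u' 1,
      (∀ j, 1 ≤ j → j ≤ n → Φ.κ (cell n u j 0) = cell n u' (j - 1) 0) ∧
      ∀ t : Fin u.length, (u'[Φ.θ t] + u[t]) % 2 = 1 ↔ run 1 (u.take t) u[t] ≠ 1 := by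
  have hu := D.hu
  have hu' := D.hu'
  have hn := D.hn
  let θ : Fin u.length ≃ Fin u'.length :=
    { toFun := fun t => ⟨w6dT p (n - 1) t, by rw [hu']; exact w6dT_lt (hu ▸ t.isLt)⟩
      invFun := fun t => ⟨w6dT p (n - 1) t, by rw [hu]; exact w6dT_lt (hu' ▸ t.isLt)⟩
      left_inv := fun t => Fin.ext (w6dT_invol p (n - 1) t)
      right_inv := fun t => Fin.ext (w6dT_invol p (n - 1) t) }
  obtain ⟨Φ, h1, h2⟩ := exists_CIso D.f (hu.trans hu'.symm) 1 θ (w6dF n u' p)
    (fun t ht => ⟨by rw [w6dF_zero n u' p 0 t (Or.inl rfl), w6dF_zero n u' p 0 0 (Or.inl rfl)],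
      by rw [w6dF_zero n u' p n t (Or.inr le_rfl), w6dF_zero n u' p 0 0 (Or.inl rfl)]⟩)
    (fun k t ht ha hb hc => w6dF_h1 D k t ht ha hb hc)
    (fun k ha hb => w6dF_h2 D k ha hb)
    (w6dF_surj D)
    (fun e t => w6dF_pr D e t (θ t) t.isLt (θ t).isLt rfl)
  refine ⟨Φ, ?_, ?_⟩
  · intro j hj hj'
    rw [h2 j 0 hj' (Nat.zero_le _)]
    rcases lt_or_ge j n with h3 | h3
    · exact w6dF_lo n u' p j 0 hj h3 (Nat.zero_le _)
    · rw [w6dF_zero n u' p j 0 (Or.inr h3), show j = n by omega]
  · intro t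
    exact w6d_par D t (Φ.θ t) t.isLt (Φ.θ t).isLt (by rw [h1]; rfl)

private theorem w6d_data (h2 : 2 ≤ n) {P L : List ℕ}
    (h : Red n (P ++ List.range' 1 (n - 1) ++ L)) (hP : ∀ k ∈ P, 2 ≤ k)
    (hL : ∀ k ∈ L, k + 2 ≤ n) :
    W6dD n (P ++ List.range' 1 (n - 1) ++ L) (bword n P L) P.length L.length where
  hn := h2
  hu := by simp; omega
  hu' := by simp [bword]; omega
  f := h.full
  f' := (Red.base h2 h hP hL).full
  g1 := by
    intro t ht ht' h1
    have h3 : (P ++ List.range' 1 (n - 1) ++ L)[t] = P[t] := by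
      rw [List.getElem_append_left (by simp; omega), List.getElem_append_left h1]
    have h4 : (bword n P L)[t] = P[t] - 1 := by
      rw [List.getElem_of_eq (show bword n P L = P.map (· - 1) ++ (List.range' 1 (n - 1)).reverse ++
        L.map (· + 1) from rfl), List.getElem_append_left (by simp; omega), List.getElem_append_left (by simpa using h1),
        List.getElem_map]
    have h5 := (h.full.1 _ (List.getElem_mem ht)).2
    have h6 := hP _ (List.getElem_mem h1)
    rw [h3] at h5 ⊢
    rw [h4]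
    exact ⟨h6, h5, by omega⟩
  g2 := by
    intro t ht h1 h3
    rw [List.getElem_append_left (by simp; omega), List.getElem_append_right h1,
      List.getElem_range']
    omega
  g2' := by
    intro t ht h1 h3
    have h4 : (bword n P L)[t] = n - 1 - (t - P.length) := by
      rw [List.getElem_of_eq (show bword n P L = P.map (· - 1) ++ (List.range' 1 (n - 1)).reverse ++
        L.map (· + 1) from rfl), List.getElem_append_left (by simp; omega), List.getElem_append_right (by simpa using h1),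
        List.getElem_reverse, List.getElem_range']
      simp only [List.length_map, List.length_range']
      omega
    rw [h4]
    omega
  g3 := by
    intro t ht ht' h1
    have ht2 : t - (P.length + (n - 1)) < L.length := by
      have := ht
      simp at this
      omega
    have h3 : (P ++ List.range' 1 (n - 1) ++ L)[t] = L[t - (P.length + (n - 1))] := by
      rw [List.getElem_append_right (by simp; omega)]
      congr 1
      simp
    have h4 : (bword n P L)[t] = L[t - (P.length + (n - 1))] + 1 := by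
      rw [List.getElem_of_eq (show bword n P L = P.map (· - 1) ++ (List.range' 1 (n - 1)).reverse ++
        L.map (· + 1) from rfl), List.getElem_append_right (by simp; omega), List.getElem_map]
      congr 2
      simp
    have h5 := (h.full.1 _ (List.getElem_mem ht)).1
    have h6 := hL _ (List.getElem_mem ht2)
    rw [h3] at h5 ⊢
    rw [h4]
    exact ⟨h5, h6, rfl⟩

/-- (M3), the map of the nodes. `p = P.length`, `m = n - 1`. `θ t = t` for `t < p` or `p + m ≤ t`, `θ (p + j - 1) = p + n - 1 - j`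
for `1 ≤ j ≤ n - 1`. `f 0 t = cell' (n-1) t`, `f j t = cell' (j-1) t` (`j ≥ 1`) for `t ≤ p`; `f n t = cell' (n-1) p` for `t > p`;
for `j < n`: `f j (p + i) = cell' (j+1) (p+m)` if `j ≤ i`, `cell' (j-1) p` if `i < j` (`0 < i < m`), and
`f j t = cell' (j+1) t` for `t ≥ p + m`. All conditions of `exists_CIso` were checked by computer. The middle letter
`j` has `W ↦ N'`, `S ↦ W'`, `N ↦ E'`, `E ↦ S'`. The letters of `P`, `L` change their position by one and do not move
label `1` (it is at position `1` during `P`, at position `n` during `L`); the letters of the middle block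
move it. -/
theorem base_iso (hn : Even n) (h2 : 2 ≤ n) {P L : List ℕ}
    (h : Red n (P ++ List.range' 1 (n - 1) ++ L)) (hP : ∀ k ∈ P, 2 ≤ k)
    (hL : ∀ k ∈ L, k + 2 ≤ n) :
    ∃ Φ : CIso n (P ++ List.range' 1 (n - 1) ++ L) (bword n P L) 1,
      (∀ j, 1 ≤ j → j ≤ n →
        Φ.κ (cell n (P ++ List.range' 1 (n - 1) ++ L) j 0) = cell n (bword n P L) (j - 1) 0) ∧
      ∀ t : Fin (P ++ List.range' 1 (n - 1) ++ L).length,
        (((bword n P L)[Φ.θ t] + (P ++ List.range' 1 (n - 1) ++ L)[t]) % 2 = 1 ↔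
          run 1 ((P ++ List.range' 1 (n - 1) ++ L).take t)
            (P ++ List.range' 1 (n - 1) ++ L)[t] ≠ 1) :=
  w6d_main (w6d_data h2 h hP hL)

end Pool.Agent.Lib.MP_72b45c_co.Q
end

section

/-! # MP_72b45c_co, block W (words), job W6e: base change for all words -/

namespace Pool.Agent.Lib.MP_72b45c_co.Q

open Equiv Equiv.Perm

variable {n : ℕ} {u u' : List ℕ}

/-- (M3) for every reduced word: `normal_form`, `comm_many`, `Red.base`, `base_iso`. -/
theorem base_change (hn : Even n) (h2 : 2 ≤ n) (h : Red n u) :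
    ∃ (u' : List ℕ) (Φ : CIso n u u' 1), Red n u' ∧
      (∀ j, 1 ≤ j → j ≤ n → Φ.κ (cell n u j 0) = cell n u' (j - 1) 0) ∧
      ∀ t : Fin u.length, ((u'[Φ.θ t] + u[t]) % 2 = 1 ↔ run 1 (u.take t) u[t] ≠ 1) := by
  obtain ⟨P, L, hC, hP, hL⟩ := normal_form h2 h
  obtain ⟨hw, Φ₁, hκ₁, hθ₁⟩ := comm_many h hC
  obtain ⟨Φ₂, hκ₂, hθ₂⟩ := base_iso hn h2 hw hP hL
  refine ⟨bword n P L, (Φ₁.trans Φ₂).cast (by norm_num), Red.base h2 hw hP hL, ?_, ?_⟩
  · intro j hj1 hj2
    have e1 := hκ₁ j hj2
    have e2 := hκ₂ j hj1 hj2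
    rw [← e1] at e2
    exact e2
  · intro t
    obtain ⟨e1, e2⟩ := hθ₁ t
    have e3 := hθ₂ (Φ₁.θ t)
    rw [e1, e2] at e3
    exact e3

end Pool.Agent.Lib.MP_72b45c_co.Q
end

section

/-! # MP_72b45c_co, block W (words), job W6: the three moves as isomorphisms (all tested by computer) (parts) -/
end

section

/-! # MP_72b45c_co, block W (words), job W7a: any cell to the outer cell -/

namespace Pool.Agent.Lib.MP_72b45c_co.Q

open Equiv Equiv.Perm

variable {n : ℕ} {u : List ℕ}

/-- induction on `k` with `base_change`; `k = 0`: `cell_zero` -/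
theorem face_aux (hn : Even n) (h2 : 2 ≤ n) (k : ℕ) (hk : k ≤ n) (h : Red n u) :
    ∃ (u' : List ℕ) (Φ : CIso n u u' k), Red n u' ∧ Φ.κ (cell n u k 0) = 0 := by
  induction k generalizing u with
  | zero =>
    refine ⟨u, CIso.refl n u, h, ?_⟩
    show cell n u 0 0 = 0
    exact cell_zero n u 0
  | succ k ih =>
    obtain ⟨u₁, Φ₁, hR₁, hκ, -⟩ := base_change hn h2 h
    obtain ⟨u', Φ₂, hR', h0⟩ := ih (by omega) hR₁
    refine ⟨u', (Φ₁.trans Φ₂).cast (by omega), hR', ?_⟩
    show Φ₂.κ (Φ₁.κ (cell n u (k + 1) 0)) = 0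
    rw [hκ (k + 1) (by omega) hk, Nat.add_sub_cancel]
    exact h0

/-- FACE. `c = cell n u k t` (`exists_node`), rotate by `t` (`rot_many`), then `face_aux`; `col u c = k % 2`. -/
theorem face (hn : Even n) (h2 : 2 ≤ n) (h : Red n u) (c : Fin (u.length + 1)) :
    ∃ (u' : List ℕ) (Φ : CIso n u u' (col u c)), Red n u' ∧ Φ.κ c = 0 := by
  obtain ⟨k, t, hk, ht, rfl⟩ := exists_node h.full c
  obtain ⟨hR, Φ₁, h1, -⟩ := rot_many hn h t ht
  obtain ⟨u', Φ₂, hR', h0⟩ := face_aux hn h2 k hk hR
  have hcol := col_cell hn h.full hk ht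
  refine ⟨u', (Φ₁.trans Φ₂).cast ?_, hR', ?_⟩
  · rw [hcol]
    omega
  · show Φ₂.κ (Φ₁.κ (cell n u k t)) = 0
    rw [h1 k hk]
    exact h0

end Pool.Agent.Lib.MP_72b45c_co.Q
end

section

/-! # MP_72b45c_co, block W (words), job W7b: moving a letter -/

namespace Pool.Agent.Lib.MP_72b45c_co.Q

open Equiv Equiv.Perm

variable {n : ℕ} {u : List ℕ}

/-- `rot_many` with `i = t + 1`: the letter `t` becomes the last one, `n - u[t]` -/
theorem to_last (hn : Even n) (h : Red n u) (t : Fin u.length) :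
    ∃ (u' : List ℕ) (Φ : CIso n u u' 0), Red n u' ∧ (Φ.θ t).val + 1 = u'.length ∧
      u'[Φ.θ t] % 2 = u[t] % 2 := by
  obtain ⟨hR, Φ, -, hθ⟩ := rot_many hn h (t.val + 1) t.isLt
  have ht := t.isLt
  have hlen : (u.drop (t.val + 1) ++ (u.take (t.val + 1)).map (n - ·)).length = u.length := by
    simp
  have hθt : (Φ.θ t).val = u.length - 1 := by
    rw [hθ t, if_pos (Nat.lt_succ_self _)]
    omega
  have hlet := h.1.mem u[t] (List.getElem_mem _)
  refine ⟨_, Φ, hR, by omega, ?_⟩
  have hx : (u.drop (t.val + 1) ++ (u.take (t.val + 1)).map (n - ·))[Φ.θ t] = n - u[t] := by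
    have h1 : (u.drop (t.val + 1) ++ (u.take (t.val + 1)).map (n - ·))[Φ.θ t] =
        (u.drop (t.val + 1) ++ (u.take (t.val + 1)).map (n - ·))[u.length - 1]'(by
          rw [hlen]; omega) := by
      simp only [Fin.getElem_fin, hθt]
    rw [h1, List.getElem_append_right (by simp; omega)]
    simp only [List.getElem_map, List.getElem_take, List.length_drop]
    congr 2
    have : u.length - 1 - (u.length - (t.val + 1)) = t.val := by omega
    simp only [this]
  rw [hx]
  obtain ⟨m, hm⟩ := hn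
  omega

private theorem W7b_rot (hn : Even n) (h : Red n u) (t : Fin u.length) (ht : u[t] = 1) :
    ∃ (v : List ℕ) (Φ : CIso n u (1 :: v) 0), Red n (1 :: v) ∧ (Φ.θ t).val = 0 := by
  have key := rot_many hn h t.val t.isLt.le
  have e : u.drop t.val ++ (u.take t.val).map (n - ·) =
      1 :: (u.drop (t.val + 1) ++ (u.take t.val).map (n - ·)) := by
    rw [List.drop_eq_getElem_cons t.isLt, List.cons_append]
    congr 1
  rw [e] at key
  obtain ⟨hR, Φ, -, hθ⟩ := key
  refine ⟨_, Φ, hR, ?_⟩
  rw [hθ t, if_neg (lt_irrefl _), Nat.sub_self]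

/-- `rot_many` with `i = t` if `u[t] = 1`; if `u[t] = n - 1` rotate first by `i = u.length` -/
theorem to_first_one (hn : Even n) (h : Red n u) (t : Fin u.length)
    (ht : u[t] = 1 ∨ u[t] + 1 = n) :
    ∃ (v : List ℕ) (Φ : CIso n u (1 :: v) 0), Red n (1 :: v) ∧ (Φ.θ t).val = 0 := by
  rcases ht with ht | ht
  · exact W7b_rot hn h t ht
  · have key := rot_many hn h u.length le_rfl
    have e : u.drop u.length ++ (u.take u.length).map (n - ·) = u.map (n - ·) := by simp
    rw [e] at key
    obtain ⟨hR, Φ, -, hθ⟩ := key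
    have hθt : (Φ.θ t).val = t.val := by
      rw [hθ t, if_pos t.isLt]
      omega
    have h1 : (u.map (n - ·))[Φ.θ t] = 1 := by
      simp only [Fin.getElem_fin, hθt, List.getElem_map]
      simp only [Fin.getElem_fin] at ht
      omega
    obtain ⟨v, Ψ, hv, h2⟩ := W7b_rot hn hR (Φ.θ t) h1
    exact ⟨v, Φ.trans Ψ, hv, h2⟩

/-- `v = v1 ++ [n-1] ++ v2` with `n - 1 ∉ v2` (the last letter `n - 1`, `Red.mem`). Rotate the word `1 :: v` by `v1.length + 1`:
`[n-1] ++ v2 ++ [n-1] ++ fl v1` (`fl` = map `n - ·`), then by the full length: `[1] ++ fl v2 ++ [1] ++ v1`; `F = fl v2`. -/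
theorem to_second_one (hn : Even n) (h4 : 4 ≤ n) {v : List ℕ} (h : Red n (1 :: v)) :
    ∃ (F v1 : List ℕ) (Φ : CIso n (1 :: v) (1 :: F ++ 1 :: v1) 0), Red n (1 :: F ++ 1 :: v1) ∧
      1 ∉ F ∧ (Φ.θ ⟨0, Nat.succ_pos _⟩).val = F.length + 1 := by
  have hmem : n - 1 ∈ v := by
    have h1 := h.mem (k := n - 1) (by omega) (by omega)
    rcases List.mem_cons.mp h1 with h2 | h2
    · omega
    · exact h2
  obtain ⟨w1, w2, hw, hw1⟩ : ∃ w1 w2 : List ℕ, v = w1 ++ (n - 1) :: w2 ∧ n - 1 ∉ w2 := by
    obtain ⟨as, bs, h1, h2⟩ := List.eq_append_cons_of_mem (List.mem_reverse.mpr hmem)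
    refine ⟨bs.reverse, as.reverse, ?_, by simpa using h2⟩
    have h3 := congrArg List.reverse h1
    simpa using h3
  subst hw
  have key := rot_many hn h (w1.length + 1) (by simp)
  have e : (1 :: (w1 ++ (n - 1) :: w2)).drop (w1.length + 1) ++
      ((1 :: (w1 ++ (n - 1) :: w2)).take (w1.length + 1)).map (n - ·) =
      (n - 1) :: w2 ++ (n - 1) :: w1.map (n - ·) := by
    simp
  rw [e] at key
  obtain ⟨hR, Φ, -, hθ⟩ := key
  have key2 := rot_many hn hR _ le_rfl
  have e2 : ((n - 1) :: w2 ++ (n - 1) :: w1.map (n - ·)).drop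
      ((n - 1) :: w2 ++ (n - 1) :: w1.map (n - ·)).length ++
      (((n - 1) :: w2 ++ (n - 1) :: w1.map (n - ·)).take
        ((n - 1) :: w2 ++ (n - 1) :: w1.map (n - ·)).length).map (n - ·) =
      1 :: w2.map (n - ·) ++ 1 :: (w1.map (n - ·)).map (n - ·) := by
    have h1 : n - (n - 1) = 1 := by omega
    rw [List.drop_length, List.take_length, List.nil_append, List.map_append, List.map_cons,
      List.map_cons, h1]
  rw [e2] at key2
  obtain ⟨hR2, Ψ, -, hψ⟩ := key2
  refine ⟨_, _, Φ.trans Ψ, hR2, ?_, ?_⟩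
  · intro h1
    obtain ⟨a, ha, ha1⟩ := List.mem_map.mp h1
    have h2 := h.1.mem a (by simp [ha])
    have h3 : a = n - 1 := by omega
    exact hw1 (h3 ▸ ha)
  · show (Ψ.θ (Φ.θ ⟨0, Nat.succ_pos _⟩)).val = _
    rw [hψ _, if_pos (Fin.isLt _), hθ _]
    simp

end Pool.Agent.Lib.MP_72b45c_co.Q
end

section

/-! # MP_72b45c_co, block W (words), job W7c: EDGE -/

namespace Pool.Agent.Lib.MP_72b45c_co.Q

open Equiv Equiv.Perm

variable {n : ℕ} {u : List ℕ}

private theorem W7c_mem {α : Type*} (z : Sym2 α) : ∃ c, c ∈ z :=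
  ⟨_, Sym2.out_fst_mem z⟩

private theorem W7c_run (F : List ℕ) (hF : ∀ k ∈ F, 2 ≤ k) (π : Perm ℕ) : run π F 1 = π 1 := by
  induction F generalizing π with
  | nil => rfl
  | cons k F ih =>
    have hk := hF k List.mem_cons_self
    rw [run, ih (fun j hj => hF j (List.mem_cons_of_mem k hj)), Perm.mul_apply,
      swap_apply_of_ne_of_ne (by omega) (by omega)]

/-- EDGE, white pair. Some `c ∈ pr n u 0 t` is white; `face` makes it the outer cell, by `zero_mem_pr` the letter has
an odd position, then `to_last`. -/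
theorem edge0 (hn : Even n) (h4 : 4 ≤ n) (h : Red n u) (t : Fin u.length) :
    ∃ (u' : List ℕ) (Φ : CIso n u u' 0), Red n u' ∧ (Φ.θ t).val + 1 = u'.length ∧
      u'[Φ.θ t] % 2 = 1 := by
  obtain ⟨c, hc⟩ := W7c_mem (pr n u 0 t)
  have hcol : col u c = 0 := col_of_mem_pr hn h.full hc
  obtain ⟨u1, Φ, h1, hΦ⟩ := face hn (by omega) h c
  have hz := (Φ.mem_pr 0 t c).2 hc
  rw [hΦ] at hz
  have hz2 := (zero_mem_pr h1.full hz).1
  have hz3 : u1[Φ.θ t] % 2 = 1 := by omega
  obtain ⟨u2, Ψ, h2, hl, hp⟩ := to_last hn h1 (Φ.θ t)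
  refine ⟨u2, (Φ.trans Ψ).cast (by rw [hcol]), h2, hl, ?_⟩
  show u2[Ψ.θ (Φ.θ t)] % 2 = 1
  rw [hp]
  exact hz3

/-- EDGE, black pair. Some `c ∈ pr n u 1 t` is black; `face` (colours exchanged) makes it the outer cell, by
`zero_mem_pr` the letter is at position `1` or `n - 1`; `to_first_one`, `to_second_one`: the word is
`1 :: F ++ 1 :: v1`, `1 ∉ F`, and `t` is the second letter `1`. Before it the label `2` is at position `1` (the
first letter brings it there and the letters of `F` do not move position `1`), so `run 1 (..) 1 = 2 ≠ 1`, and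
`base_change` (colours exchanged again) moves the letter to an even position; then `to_last`. -/
theorem edge1 (hn : Even n) (h4 : 4 ≤ n) (h : Red n u) (t : Fin u.length) :
    ∃ (u' : List ℕ) (Φ : CIso n u u' 0), Red n u' ∧ (Φ.θ t).val + 1 = u'.length ∧
      u'[Φ.θ t] % 2 = 0 := by
  obtain ⟨c, hc⟩ := W7c_mem (pr n u 1 t)
  have hcol : col u c = 1 := col_of_mem_pr hn h.full hc
  obtain ⟨u1, Φ, h1, hΦ⟩ := face hn (by omega) h c
  have hz := (Φ.mem_pr 1 t c).2 hc
  rw [hΦ] at hz
  have hz2 := (zero_mem_pr h1.full hz).2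
  obtain ⟨v, Φ2, h2, hv⟩ := to_first_one hn h1 (Φ.θ t) hz2
  obtain ⟨F, v1, Φ3, h3, hF, hv3⟩ := to_second_one hn h4 h2
  have e2 : Φ2.θ (Φ.θ t) = ⟨0, Nat.succ_pos _⟩ := Fin.ext hv
  rw [← e2] at hv3
  obtain ⟨t3, ht3⟩ : ∃ t3, t3 = Φ3.θ (Φ2.θ (Φ.θ t)) := ⟨_, rfl⟩
  rw [← ht3] at hv3
  obtain ⟨u4, Φ4, h4', -, hb⟩ := base_change hn (by omega) h3
  have hb3 := hb t3
  have ew : (1 :: F ++ 1 :: v1)[t3] = 1 := by
    have e3 : (1 :: F ++ 1 :: v1)[t3] = (1 :: F ++ 1 :: v1)[t3.val] := rfl
    rw [e3]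
    have e4 : (1 :: F ++ 1 :: v1)[t3.val]? = some 1 := by
      rw [hv3, List.getElem?_append_right (by simp)]
      simp
    rw [List.getElem?_eq_getElem t3.2] at e4
    exact Option.some.inj e4
  have et : (1 :: F ++ 1 :: v1).take t3 = 1 :: F := by
    rw [hv3]
    exact List.take_left' (by simp)
  have hne : run 1 ((1 :: F ++ 1 :: v1).take t3) (1 :: F ++ 1 :: v1)[t3] ≠ 1 := by
    rw [et, ew, run, W7c_run F]
    · rw [one_mul, swap_apply_left]
      norm_num
    · intro k hk
      have h5 := (h3.1.mem k (by simp [hk])).1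
      have h6 : k ≠ 1 := fun e => hF (e ▸ hk)
      omega
  have hodd := hb3.2 hne
  rw [ew] at hodd
  have hev : u4[Φ4.θ t3] % 2 = 0 := by omega
  obtain ⟨u5, Φ5, h5, hl, hp⟩ := to_last hn h4' (Φ4.θ t3)
  rw [hev] at hp
  subst ht3
  refine ⟨u5, ((((Φ.trans Φ2).trans Φ3).trans Φ4).trans Φ5).cast (by rw [hcol]), h5, hl, hp⟩

end Pool.Agent.Lib.MP_72b45c_co.Q
end

section

/-! # MP_72b45c_co, block W (words), job W7: any cell to the outer cell, any letter to the last one (parts) -/
end
end
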