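import Pool.Agent.Lib.MP_72b45c_co.Q.S3b
import Pool.Agent.Lib.MP_72b45c_co.Q.L6
import Pool.Agent.Lib.MP_72b45c_co.Q.W7
import Pool.Agent.Lib.MP_72b45c_co.Sharp

section

/-! # MP_72b45c_co, block S (lower bound), job S2a: the cycles of the white cells -/

namespace Pool.Agent.Lib.MP_72b45c_co.Q

open SimpleGraph Equiv Equiv.Perm

variable {n : ℕ} {u : List ℕ}

open Classical in
/-- the cycle of the white cell `c`, as a function on the darts of the black graph -/
noncomputable def zc (n : ℕ) (u : List ℕ) (c : Fin (u.length + 1)) (d : (BG n u 1).Dart) : ZMod 2 :=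
  if ∃ t, pr n u 1 t = d.edge ∧ c ∈ pr n u 0 t then 1 else 0

theorem zc_symm (c : Fin (u.length + 1)) (d : (BG n u 1).Dart) :
    zc n u c d.symm = zc n u c d := by
  unfold zc
  rw [Dart.edge_symm]

private theorem s2a_zc {c : Fin (u.length + 1)} {d : (BG n u 1).Dart} (h : zc n u c d ≠ 0) :
    ∃ t, pr n u 1 t = d.edge ∧ c ∈ pr n u 0 t := by
  by_contra hcon
  exact h (if_neg hcon)

theorem near_of_zc (c : Fin (u.length + 1)) (d : (BG n u 1).Dart) (h : zc n u c d ≠ 0) :
    Near n u c d.fst := by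
  obtain ⟨t, h1, h2⟩ := s2a_zc h
  refine ⟨t, ?_, h2⟩
  rw [h1]
  exact Sym2.mem_mk_left _ _

/-- The darts at `v` with `zc ≠ 0` correspond to the letters `t` with `v ∈ pr 1 t`, `c ∈ pr 0 t` (`pr_injective`,
`pr_not_isDiag`): `even_near`. -/
theorem even_zc (hn : Even n) (h5 : 5 ≤ n) (h : Red n u) (c v : Fin (u.length + 1)) :
    Even (Nat.card {d : (BG n u 1).Dart // d.fst = v ∧ zc n u c d ≠ 0}) := by
  classical
  have hinj := pr_injective h5 h 1
  have hch : ∀ x : {d : (BG n u 1).Dart // d.fst = v ∧ zc n u c d ≠ 0},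
      ∃ t, pr n u 1 t = x.1.edge ∧ c ∈ pr n u 0 t := fun x => s2a_zc x.2.2
  choose T hT1 hT2 using hch
  have hmem : ∀ x, v ∈ pr n u 1 (T x) := by
    intro x
    have h1 : x.1.fst ∈ x.1.edge := Sym2.mem_mk_left _ _
    rw [x.2.1] at h1
    rw [hT1]
    exact h1
  have hbij : Function.Bijective
      (fun x : {d : (BG n u 1).Dart // d.fst = v ∧ zc n u c d ≠ 0} =>
        (⟨T x, hmem x, hT2 x⟩ : {t : Fin u.length // v ∈ pr n u 1 t ∧ c ∈ pr n u 0 t})) := by
    constructor
    · intro x y hxy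
      have h1 : T x = T y := congrArg Subtype.val hxy
      have h2 : x.1.edge = y.1.edge := by rw [← hT1, ← hT1, h1]
      rw [dart_edge_eq_iff] at h2
      rcases h2 with h2 | h2
      · exact Subtype.ext h2
      · exfalso
        have h3 : x.1.fst = y.1.snd := by rw [h2]; rfl
        exact y.1.adj.ne ((y.2.1.trans x.2.1.symm).trans h3)
    · rintro ⟨t, ht1, ht2⟩
      obtain ⟨w, hw⟩ := Sym2.mem_iff_exists.1 ht1
      have hadj : (BG n u 1).Adj v w := (BG_adj_iff (by omega) h 1 v w).2 ⟨t, hw⟩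
      have hz : zc n u c (⟨(v, w), hadj⟩ : (BG n u 1).Dart) ≠ 0 := by
        unfold zc
        rw [if_pos ⟨t, hw, ht2⟩]
        exact one_ne_zero
      refine ⟨⟨⟨(v, w), hadj⟩, rfl, hz⟩, Subtype.ext (hinj ?_)⟩
      rw [hT1, hw]
      rfl
  rw [Nat.card_congr (Equiv.ofBijective _ hbij)]
  exact even_near hn (by omega) h v c

end Pool.Agent.Lib.MP_72b45c_co.Q
end

section

/-! # MP_72b45c_co, block S (lower bound), job S2b: rank -/

namespace Pool.Agent.Lib.MP_72b45c_co.Q

open SimpleGraph Equiv Equiv.Perm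

variable {n : ℕ} {u : List ℕ}

/-- R. The linear map `a ↦ ∑ c white, a c • zc c` from the functions on the white cells: on a dart `d` of the letter `t`
its value is `a c1 + a c2`, `{c1, c2} = pr n u 0 t` (`pr_injective`, `pr_not_isDiag`), so its kernel consists of the constant
functions (`const_of_edges` for `e = 0`; all letters have darts). Rank-nullity. -/
theorem rank_zc (hn : Even n) (h5 : 5 ≤ n) (h : Red n u)
    (S : Submodule (ZMod 2) ((BG n u 1).Dart → ZMod 2))
    (hS : ∀ c : Fin (u.length + 1), col u c = 0 → zc n u c ∈ S) :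
    Nat.card {c : Fin (u.length + 1) // col u c = 0} ≤ Module.finrank (ZMod 2) S + 1 := by
  classical
  have hfull := h.full
  haveI : Finite (BG n u 1).Dart :=
    Finite.of_injective (fun d : (BG n u 1).Dart => d.toProd) SimpleGraph.Dart.toProd_injective
  let L : ({c : Fin (u.length + 1) // col u c = 0} → ZMod 2) →ₗ[ZMod 2]
      ((BG n u 1).Dart → ZMod 2) :=
    { toFun := fun a => ∑ c, a c • zc n u c.1
      map_add' := fun a b => by
        rw [← Finset.sum_add_distrib]
        exact Finset.sum_congr rfl fun c _ => by rw [Pi.add_apply, add_smul]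
      map_smul' := fun r a => by
        rw [Finset.smul_sum]
        exact Finset.sum_congr rfl fun c _ => by
          rw [Pi.smul_apply, smul_eq_mul, mul_smul, RingHom.id_apply] }
  have hL : ∀ a, L a = ∑ c, a c • zc n u c.1 := fun a => rfl
  have hrange : LinearMap.range L ≤ S := by
    rintro _ ⟨a, rfl⟩
    rw [hL]
    exact Submodule.sum_mem _ fun c _ => Submodule.smul_mem _ _ (hS c.1 c.2)
  -- the kernel consists of constant functions
  have hker : ∀ a, L a = 0 → ∀ c c', a c = a c' := by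
    intro a ha c c'
    have key := const_of_edges hn (by omega) hfull 0
      (fun c : Fin (u.length + 1) => if hc : col u c = 0 then a ⟨c, hc⟩ else 0)
      (fun t c1 c2 hpr => by
        have hm1 : c1 ∈ pr n u 0 t := by rw [hpr]; exact Sym2.mem_mk_left _ _
        have hm2 : c2 ∈ pr n u 0 t := by rw [hpr]; exact Sym2.mem_mk_right _ _
        have hc1 : col u c1 = 0 := col_of_mem_pr hn hfull hm1
        have hc2 : col u c2 = 0 := col_of_mem_pr hn hfull hm2
        show (if hc : col u c1 = 0 then a ⟨c1, hc⟩ else 0) =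
          (if hc : col u c2 = 0 then a ⟨c2, hc⟩ else 0)
        rw [dif_pos hc1, dif_pos hc2]
        have hne : c1 ≠ c2 := by
          rintro rfl
          refine pr_not_isDiag (by omega) h 0 t ?_
          rw [hpr]
          exact Sym2.mk_isDiag_iff.2 rfl
        -- a dart of the letter `t`
        have hedge : pr n u 1 t ∈ (BG n u 1).edgeSet := by
          rw [edgeSet_BG (by omega) h]
          exact ⟨t, rfl⟩
        obtain ⟨d, hd⟩ : ∃ d : (BG n u 1).Dart, d.edge = pr n u 1 t := by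
          induction hz : pr n u 1 t using Sym2.ind with
          | _ x y =>
            rw [hz, SimpleGraph.mem_edgeSet] at hedge
            exact ⟨⟨(x, y), hedge⟩, rfl⟩
        have hzc : ∀ c : Fin (u.length + 1), zc n u c d = if c = c1 ∨ c = c2 then 1 else 0 := by
          intro c
          unfold zc
          refine if_congr ?_ rfl rfl
          rw [← Sym2.mem_iff, ← hpr]
          constructor
          · rintro ⟨t', h1, h2⟩
            rw [hd] at h1
            rw [pr_injective h5 h 1 h1] at h2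
            exact h2
          · intro h1
            exact ⟨t, hd.symm, h1⟩
        have hsum : (L a) d = a ⟨c1, hc1⟩ + a ⟨c2, hc2⟩ := by
          rw [hL, Finset.sum_apply]
          have h3 : ∀ c : {c : Fin (u.length + 1) // col u c = 0},
              (a c • zc n u c.1) d = (if c = ⟨c1, hc1⟩ then a c else 0) +
                (if c = ⟨c2, hc2⟩ then a c else 0) := by
            intro c
            rw [Pi.smul_apply, smul_eq_mul, hzc]
            by_cases e1 : c = ⟨c1, hc1⟩
            · have e2 : c ≠ ⟨c2, hc2⟩ := fun e => hne (by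
                have := e1.symm.trans e
                exact congrArg Subtype.val this)
              have e3 : c.1 = c1 := by rw [e1]
              rw [if_pos (Or.inl e3), if_pos e1, if_neg e2, mul_one, add_zero]
            · by_cases e2 : c = ⟨c2, hc2⟩
              · have e3 : c.1 = c2 := by rw [e2]
                rw [if_pos (Or.inr e3), if_neg e1, if_pos e2, mul_one, zero_add]
              · have e3 : ¬ (c.1 = c1 ∨ c.1 = c2) := by
                  rintro (e | e)
                  · exact e1 (Subtype.ext e)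
                  · exact e2 (Subtype.ext e)
                rw [if_neg e3, if_neg e1, if_neg e2, mul_zero, add_zero]
          rw [Finset.sum_congr rfl fun c _ => h3 c, Finset.sum_add_distrib,
            Finset.sum_ite_eq', Finset.sum_ite_eq', if_pos (Finset.mem_univ _),
            if_pos (Finset.mem_univ _)]
        rw [ha, Pi.zero_apply] at hsum
        exact (CharTwo.add_eq_zero.1 hsum.symm))
      c.1 c'.1 c.2 c'.2
    simp only [dif_pos c.2, dif_pos c'.2] at key
    exact key
  have h1 : Module.finrank (ZMod 2) (LinearMap.range L) +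
      Module.finrank (ZMod 2) (LinearMap.ker L) =
      Module.finrank (ZMod 2) ({c : Fin (u.length + 1) // col u c = 0} → ZMod 2) :=
    LinearMap.finrank_range_add_finrank_ker L
  have h2 : Module.finrank (ZMod 2) ({c : Fin (u.length + 1) // col u c = 0} → ZMod 2) =
      Nat.card {c : Fin (u.length + 1) // col u c = 0} := by
    rw [Module.finrank_fintype_fun_eq_card, Nat.card_eq_fintype_card]
  have h3 : Module.finrank (ZMod 2) (LinearMap.range L) ≤ Module.finrank (ZMod 2) S :=
    Submodule.finrank_mono hrange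
  have h4 : Module.finrank (ZMod 2) (LinearMap.ker L) ≤ 1 := by
    have h6 : LinearMap.ker L ≤ Submodule.span (ZMod 2)
        {(fun _ => 1 : {c : Fin (u.length + 1) // col u c = 0} → ZMod 2)} := by
      intro a ha
      rw [Submodule.mem_span_singleton]
      by_cases hne : Nonempty {c : Fin (u.length + 1) // col u c = 0}
      · obtain ⟨c0⟩ := hne
        refine ⟨a c0, ?_⟩
        funext c
        rw [Pi.smul_apply, smul_eq_mul, mul_one]
        exact hker a (LinearMap.mem_ker.1 ha) c0 c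
      · refine ⟨0, ?_⟩
        funext c
        exact absurd ⟨c⟩ hne
    calc Module.finrank (ZMod 2) (LinearMap.ker L)
        ≤ Module.finrank (ZMod 2) (Submodule.span (ZMod 2)
          {(fun _ => 1 : {c : Fin (u.length + 1) // col u c = 0} → ZMod 2)}) :=
          Submodule.finrank_mono h6
      _ ≤ ({(fun _ => 1 : {c : Fin (u.length + 1) // col u c = 0} → ZMod 2)} :
            Set _).toFinset.card := finrank_span_le_card _
      _ = 1 := by rw [Set.toFinset_singleton, Finset.card_singleton]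
  omega

end Pool.Agent.Lib.MP_72b45c_co.Q
end

section

/-! # MP_72b45c_co, block S (lower bound), job S2c: STEP -/

namespace Pool.Agent.Lib.MP_72b45c_co.Q

open SimpleGraph Equiv Equiv.Perm

variable {n : ℕ} {u : List ℕ}

/-- If all white cycles are boundaries, the map is planar: `gen2 = F + 1 - numFaces` with `F` = number of white cells
(`gen2_rotation`, `card_edgeSet_BG`, `card_cc_BG`, `numIsolated_BG`, `card_black`, `card_white`), `F ≤ finrank Bd + 1`
(`rank_zc`) `≤ numFaces` (`finrank_Bd_add_ncomp_le`; `1 ≤ ncomp` because there are darts; `cyc (R.next * rev G) = numFaces`), so `gen2 ≤ 1`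
and `gen2 ≤ 0` by `gen2_even`. -/
theorem gen2_of_all (hn : Even n) (h5 : 5 ≤ n) (h : Red n u) (R : RotationSystem (BG n u 1))
    (hall : ∀ c : Fin (u.length + 1), col u c = 0 → zc n u c ∈ Bd R.next (rev (BG n u 1))) :
    gen2 R.next (rev (BG n u 1)) ≤ 0 := by
  classical
  haveI : Finite (BG n u 1).Dart := dartIso_finite _
  have h1 := gen2_rotation (BG n u 1) R
  have h2 := card_edgeSet_BG h5 h 1
  have h3 := card_cc_BG hn (by omega) h
  have h4 := numIsolated_BG hn (by omega) h
  have h6 := rank_zc hn h5 h (Bd R.next (rev (BG n u 1))) hall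
  have h7 := finrank_Bd_add_ncomp_le R.next (rev (BG n u 1))
  have h8 : cyc (R.next * rev (BG n u 1)) = R.numFaces := rfl
  have h9 : 1 ≤ ncomp R.next (rev (BG n u 1)) := by
    have h10 : 1 ∈ u := h.full.2 1 le_rfl (by omega)
    have h11 : 0 < u.length := List.length_pos_of_mem h10
    have h12 : 0 < Nat.card (BG n u 1).edgeSet := by rw [h2]; exact h11
    obtain ⟨⟨e, he⟩⟩ := (Nat.card_pos_iff.mp h12).1
    induction e using Sym2.ind with
    | _ a b =>
      have hab : (BG n u 1).Adj a b := he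
      haveI : Nonempty (Quotient (con R.next (rev (BG n u 1)))) :=
        ⟨Quotient.mk _ (⟨(a, b), hab⟩ : (BG n u 1).Dart)⟩
      exact Nat.card_pos
  have h10 : Nat.card (Fin (u.length + 1)) = u.length + 1 := by simp
  have h11 : Even (gen2 R.next (rev (BG n u 1))) := by
    refine gen2_even (fun x => ?_) (fun x => ?_)
    · exact x.symm_symm
    · exact x.symm_ne
  rw [h2, h3, h4, h10] at h1
  rw [h8] at h7
  obtain ⟨m, hm⟩ := h11
  push_cast at h1
  omega

private theorem S2c_minor {V : Type*} (G : SimpleGraph V) (S : Set V) : IsMinor (G.induce S) G := by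
  refine ⟨fun x => {x.1}, fun x => ?_, fun x y hxy => ?_, fun x y hxy => ?_⟩
  · haveI : Nonempty ({x.1} : Set V) := ⟨⟨x.1, rfl⟩⟩
    refine ⟨fun a b => ?_⟩
    have ha : a = b := Subtype.ext (a.2.trans b.2.symm)
    rw [ha]
  · rw [Set.disjoint_singleton]
    exact fun h => hxy (Subtype.ext h)
  · exact ⟨x.1, rfl, y.1, rfl, hxy⟩

/-- STEP. `embeds_iff` gives `R`. If all `zc c`, `c` white, are boundaries: `gen2_of_all`, any white `c` will do (`c = 0`;
`embeds_minor` for the induced subgraph, branch sets = single vertices). Otherwise `nonsep` with `V0 = {s | Near n u c s}`,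
`z = zc n u c` (`zc_symm`, `near_of_zc`, `even_zc`). -/
theorem step (hn : Even n) (h5 : 5 ≤ n) (h : Red n u) {g : ℕ} (hg : 1 ≤ g)
    (hE : Embeds g (BG n u 1)) :
    ∃ c : Fin (u.length + 1), col u c = 0 ∧
      Embeds (g - 1) ((BG n u 1).induce {s | ¬ Near n u c s}) := by
  classical
  obtain ⟨R, hR⟩ := (embeds_iff (BG n u 1) g).mp hE
  by_cases hall : ∀ c : Fin (u.length + 1), col u c = 0 → zc n u c ∈ Bd R.next (rev (BG n u 1))
  · have h0 := gen2_of_all hn h5 h R hall
    refine ⟨0, by simp [col], embeds_minor (S2c_minor _ _) ?_⟩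
    exact (embeds_iff (BG n u 1) (g - 1)).mpr ⟨R, by
      have : (0 : ℤ) ≤ 2 * ((g - 1 : ℕ) : ℤ) := by positivity
      exact h0.trans this⟩
  · push Not at hall
    obtain ⟨c, hc, hcB⟩ := hall
    exact ⟨c, hc, nonsep (BG n u 1) hg R hR {s | Near n u c s} (zc n u c) (zc_symm c)
      (near_of_zc c) (even_zc hn h5 h c) hcB⟩

end Pool.Agent.Lib.MP_72b45c_co.Q
end

section

/-! # MP_72b45c_co, block S (lower bound), job S2: removing one white cell (STEP) (parts) -/
end

section

/-! # MP_72b45c_co, block A (assembly), job A1: the obstruction property -/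

namespace Pool.Agent.Lib.MP_72b45c_co.Q

open SimpleGraph Equiv Equiv.Perm

variable {n : ℕ} {u u' : List ℕ}

/-- the graph of the black cells -/
def Blk (n : ℕ) (u : List ℕ) : SimpleGraph {c : Fin (u.length + 1) // col u c = 1} :=
  (BG n u 1).comap Subtype.val

theorem Blk_adj {a b : {c : Fin (u.length + 1) // col u c = 1}} :
    (Blk n u).Adj a b ↔ (BG n u 1).Adj a.1 b.1 := Iff.rfl

/-- the upper bound for words whose last letter is odd (block U) -/
def UpperOdd (n g : ℕ) : Prop := ∀ u, Red n u → ∀ t : Fin u.length, t.val + 1 = u.length →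
  u[t] % 2 = 1 → Embeds g ((BG n u 1).deleteEdges {pr n u 1 t})

/-- the upper bound for words whose last letter is even (block U) -/
def UpperEven (n g : ℕ) : Prop := ∀ u, Red n u → ∀ t : Fin u.length, t.val + 1 = u.length →
  u[t] % 2 = 0 → ∀ a b, pr n u 1 t = s(a, b) → Embeds g (conG (BG n u 1) a b)

theorem black_of_adj (hn : Even n) (h4 : 4 ≤ n) (h : Red n u) {a b : Fin (u.length + 1)}
    (hab : (BG n u 1).Adj a b) : col u a = 1 ∧ col u b = 1 :=
  ⟨(exists_adj_iff hn h4 h a).mp ⟨b, hab⟩, (exists_adj_iff hn h4 h b).mp ⟨a, hab.symm⟩⟩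

theorem embeds_BG_of_Blk (hn : Even n) (h4 : 4 ≤ n) (h : Red n u) {g : ℕ}
    (hE : Embeds g (Blk n u)) : Embeds g (BG n u 1) := by
  refine embeds_of_induce {c : Fin (u.length + 1) | col u c = 1}
    (fun a b hab => (black_of_adj hn h4 h hab).1) ?_
  exact hE

/-- deletion of an edge of the black graph -/
theorem delete_embeds (hn : Even n) (h4 : 4 ≤ n) (h : Red n u) {g : ℕ} (ho : UpperOdd n g)
    {a b : {c : Fin (u.length + 1) // col u c = 1}} (hab : (Blk n u).Adj a b) :
    Embeds g ((Blk n u).deleteEdges {s(a, b)}) := by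
  obtain ⟨hne, t, ht⟩ := hab
  obtain ⟨u', Φ, hu', hlast, hpar⟩ := edge0 hn h4 h t
  have h1 := ho u' hu' (Φ.θ t) hlast hpar
  have h2 : pr n u' 1 (Φ.θ t) = s(Φ.κ a.1, Φ.κ b.1) := by
    have := Φ.h 1 t
    rw [add_zero, ht] at this
    exact this
  refine embeds_minor (ObsBasic_minor (fun x => Φ.κ x.1)
    (fun x y hxy => Subtype.ext (Φ.κ.injective hxy)) ?_) h1
  intro x y hxy
  rw [SimpleGraph.deleteEdges_adj] at hxy ⊢
  refine ⟨(Φ.graphIso 1).map_adj_iff.mpr hxy.1, ?_⟩
  rw [h2]
  intro h3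
  apply hxy.2
  rw [Set.mem_singleton_iff] at h3 ⊢
  rcases Sym2.eq_iff.mp h3 with ⟨h4, h5⟩ | ⟨h4, h5⟩
  · rw [Subtype.ext (Φ.κ.injective h4), Subtype.ext (Φ.κ.injective h5)]
  · rw [Subtype.ext (Φ.κ.injective h4), Subtype.ext (Φ.κ.injective h5), Sym2.eq_swap]

/-- contraction of an edge of the black graph -/
theorem contract_embeds (hn : Even n) (h4 : 4 ≤ n) (h : Red n u) {g : ℕ} (he : UpperEven n g)
    {a b : {c : Fin (u.length + 1) // col u c = 1}} (hab : (Blk n u).Adj a b) :
    Embeds g (conG (Blk n u) a b) := by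
  obtain ⟨hne, t, ht⟩ := hab
  obtain ⟨u', Φ, hu', hlast, hpar⟩ := edge1 hn h4 h t
  have h2 : pr n u' 1 (Φ.θ t) = s(Φ.κ a.1, Φ.κ b.1) := by
    have := Φ.h 1 t
    rw [add_zero, ht] at this
    exact this
  have h1 := he u' hu' (Φ.θ t) hlast hpar _ _ h2
  refine embeds_minor (ObsBasic_minor (fun x => Φ.κ x.1)
    (fun x y hxy => Subtype.ext (Φ.κ.injective hxy)) ?_) h1
  rintro x y ⟨h3, h5, h6, h7⟩
  have hinj : ∀ {p q : {c : Fin (u.length + 1) // col u c = 1}}, p ≠ q → Φ.κ p.1 ≠ Φ.κ q.1 :=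
    fun hpq h8 => hpq (Subtype.ext (Φ.κ.injective h8))
  refine ⟨hinj h3, hinj h5, hinj h6, ?_⟩
  rcases h7 with h7 | ⟨rfl, h7⟩ | ⟨rfl, h7⟩
  · exact Or.inl ((Φ.graphIso 1).map_adj_iff.mpr h7)
  · exact Or.inr (Or.inl ⟨rfl, (Φ.graphIso 1).map_adj_iff.mpr h7⟩)
  · exact Or.inr (Or.inr ⟨rfl, (Φ.graphIso 1).map_adj_iff.mpr h7⟩)

/-- The black graph is an excluded minor. -/
theorem isObstruction_Blk (hn : Even n) (h4 : 4 ≤ n) (h : Red n u) {g : ℕ}
    (hlow : ¬ Embeds g (BG n u 1)) (ho : UpperOdd n g) (he : UpperEven n g) :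
    IsObstruction g (Blk n u) := by
  refine ⟨fun hE => hlow (embeds_BG_of_Blk hn h4 h hE), fun m H hm hne => ?_⟩
  have hiso : ∀ v, ∃ w, (Blk n u).Adj v w := by
    rintro ⟨v, hv⟩
    obtain ⟨w, hw⟩ := (exists_adj_iff hn h4 h v).mpr hv
    exact ⟨⟨w, (black_of_adj hn h4 h hw).2⟩, hw⟩
  obtain ⟨a, b, hab, hc | hd⟩ := minor_cases hiso hm hne
  · exact embeds_minor hc (contract_embeds hn h4 h he hab)
  · exact embeds_minor hd (delete_embeds hn h4 h ho hab)

/-- the number of edges of the black graph -/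
theorem card_edgeSet_Blk (hn : Even n) (h5 : 5 ≤ n) (h : Red n u) :
    Nat.card (Blk n u).edgeSet = u.length := by
  refine Eq.trans ?_ (card_edgeSet_BG h5 h 1)
  let f : Blk n u ↪g BG n u 1 := SimpleGraph.Embedding.comap ⟨Subtype.val, Subtype.val_injective⟩ _
  refine Nat.card_congr (Equiv.ofBijective f.mapEdgeSet ⟨f.mapEdgeSet.injective, ?_⟩)
  rintro ⟨x, hx⟩
  induction x with
  | _ a b =>
    have hab : (BG n u 1).Adj a b := hx
    have hbl := black_of_adj hn (by omega) h hab
    refine ⟨⟨s(⟨a, hbl.1⟩, ⟨b, hbl.2⟩), hab⟩, ?_⟩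
    apply Subtype.ext
    rfl

end Pool.Agent.Lib.MP_72b45c_co.Q
end

section

/-! # MP_72b45c_co, block S (lower bound), job S3c: DESCENT -/

namespace Pool.Agent.Lib.MP_72b45c_co.Q

open SimpleGraph Equiv Equiv.Perm

variable {n : ℕ} {u u' : List ℕ}

/-- double induced subgraph -/
theorem connected_induce_induce {V : Type*} (G : SimpleGraph V) (S T : Set V) (hTS : T ⊆ S)
    (h : (G.induce T).Connected) :
    ((G.induce S).induce {s : S | s.1 ∈ T}).Connected := by
  let e : ((G.induce S).induce {s : S | s.1 ∈ T}) ≃g G.induce T :=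
    { toFun := fun x => ⟨x.1.1, x.2⟩
      invFun := fun y => ⟨⟨y.1, hTS y.2⟩, y.2⟩
      left_inv := fun x => rfl
      right_inv := fun y => rfl
      map_rel_iff' := by
        intro a b
        simp [SimpleGraph.comap_adj] }
  exact (Iso.connected_iff e).mpr h

/-- Branch sets `{s | g s = some c}` (`inner_connected`, contained in `{s | ¬ Near n u 0 s}` by `not_near_zero`). A letter
`j` of `v`, position `v[j] = k - 2`: for odd `k` the corners `S`, `N` of the letter `f j` are adjacent and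
mapped to the corners `S`, `N` of `j`; for even `k` the same with `W`, `E` (`k - 1`, `k + 1` are in `3..n-3`). -/
theorem descent_minor (hn : Even n) (h6 : 8 ≤ n) (h : Red n u) :
    ∃ v, Red (n - 4) v ∧ IsMinor ((BG (n - 4) v 1).induce {s : Fin (v.length + 1) | col v s = 1})
      ((BG n u 1).induce {s | ¬ Near n u 0 s}) := by
  obtain ⟨v, hv, f, hf⟩ := Red.restrict (by omega) h
  refine ⟨v, hv, ?_⟩
  obtain ⟨g, hg, hg'⟩ := exists_inner (n := n) (u := u) (by omega) h.full hv.full f hf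
  have hsub : ∀ c, {s | g s = some c} ⊆ {s | ¬ Near n u 0 s} := by
    intro c s hs
    obtain ⟨k, t, hk, ht, rfl⟩ := exists_node h.full s
    by_cases hk' : k < 3 ∨ n < k + 3
    · have := hg' k t hk' hk ht
      rw [Set.mem_ofPred_eq, this] at hs
      exact absurd hs (by simp)
    · push Not at hk'
      exact not_near_zero hn h.full hk'.1 (by omega) ht
  refine ⟨fun x => {s | g s.1 = some x.1}, ?_, ?_, ?_⟩
  · rintro ⟨c, hc⟩
    exact connected_induce_induce _ _ _ (hsub c)
      (inner_connected hn (by omega) h hv.full f hf g hg hg' c hc)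
  · intro x y hxy
    rw [Set.disjoint_left]
    intro s hs hs'
    rw [Set.mem_ofPred_eq] at hs hs'
    rw [hs] at hs'
    exact hxy (Subtype.ext (Option.some.inj hs'))
  · rintro ⟨x, hx⟩ ⟨y, hy⟩ hadj
    have hadj' : x ≠ y ∧ ∃ t, pr (n - 4) v 1 t = s(x, y) := hadj
    obtain ⟨hxy, j, hj⟩ := hadj'
    -- it suffices to find two cells of `u`
    have key : ∀ a b : Fin (u.length + 1), pr n u 1 (f j) = s(a, b) → ∀ a' b', g a = some a' →
        g b = some b' → pr (n - 4) v 1 j = s(a', b') →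
        ∃ p : {s // ¬ Near n u 0 s}, g p.1 = some x ∧ ∃ q : {s // ¬ Near n u 0 s},
          g q.1 = some y ∧ (BG n u 1).Adj p.1 q.1 := by
      intro a b hab a' b' ha hb hab'
      rw [hab'] at hj
      have hne : a ≠ b := by
        rintro rfl
        rw [ha] at hb
        have := Option.some.inj hb
        subst this
        rcases Sym2.eq_iff.mp hj with ⟨h1, h2⟩ | ⟨h1, h2⟩
        · exact hxy (h1.symm.trans h2)
        · exact hxy (h2.symm.trans h1)
      rcases Sym2.eq_iff.mp hj with ⟨h1, h2⟩ | ⟨h1, h2⟩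
      · subst h1
        subst h2
        exact ⟨⟨a, hsub _ ha⟩, ha, ⟨b, hsub _ hb⟩, hb, hne, f j, hab⟩
      · subst h1
        subst h2
        exact ⟨⟨b, hsub _ hb⟩, hb, ⟨a, hsub _ ha⟩, ha, hne.symm, f j, by rw [hab, Sym2.eq_swap]⟩
    have hk1 := hv.full.1 (v[j]) (List.getElem_mem _)
    have hfj := hf j
    have hnum := (num_facts f).2.2.1 j
    have hlt : (f j).val < u.length := (f j).2
    obtain ⟨m, hm⟩ := hn
    suffices hsuff : ∃ p : {s // ¬ Near n u 0 s}, g p.1 = some x ∧ ∃ q : {s // ¬ Near n u 0 s},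
          g q.1 = some y ∧ (BG n u 1).Adj p.1 q.1 by
      obtain ⟨p, hp, q, hq, hpq⟩ := hsuff
      exact ⟨p, hp, q, hq, hpq⟩
    by_cases hpar : (v[j] + 1) % 2 = 0
    · have e1 : pr n u 1 (f j) = s(cell n u u[f j] (f j), cell n u u[f j] ((f j).val + 1)) := by
        unfold pr
        rw [if_pos (by rw [hfj]; omega)]
      have e2 : pr (n - 4) v 1 j = s(cell (n - 4) v v[j] j, cell (n - 4) v v[j] (j.val + 1)) := by
        unfold pr
        rw [if_pos hpar]
      refine key _ _ e1 _ _ ?_ ?_ e2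
      · rw [hg _ _ (by rw [hfj]; omega) (by rw [hfj]; omega) hlt.le, hnum.1, hfj]
        simp
      · rw [hg _ _ (by rw [hfj]; omega) (by rw [hfj]; omega) hlt, hnum.2, hfj]
        simp
    · have e1 : pr n u 1 (f j) = s(cell n u (u[f j] - 1) (f j), cell n u (u[f j] + 1) (f j)) := by
        unfold pr
        rw [if_neg (by rw [hfj]; omega)]
      have e2 : pr (n - 4) v 1 j =
          s(cell (n - 4) v (v[j] - 1) j, cell (n - 4) v (v[j] + 1) j) := by
        unfold pr
        rw [if_neg hpar]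
      refine key _ _ e1 _ _ ?_ ?_ e2
      · rw [hg _ _ (by rw [hfj]; omega) (by rw [hfj]; omega) hlt.le, hnum.1, hfj]
        congr 2
      · rw [hg _ _ (by rw [hfj]; omega) (by rw [hfj]; omega) hlt.le, hnum.1, hfj]
        rfl

/-- DESCENT. `face` for `c` (white, no exchange of colours), `near_iso`, `Embeds.iso`, `descent_minor`,
`embeds_minor`, `embeds_of_induce` (white cells are isolated in `BG _ _ 1`). -/
theorem descent (hn : Even n) (h6 : 8 ≤ n) (h : Red n u) {g : ℕ} (c : Fin (u.length + 1))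
    (hc : col u c = 0) (hE : Embeds g ((BG n u 1).induce {s | ¬ Near n u c s})) :
    ∃ v, Red (n - 4) v ∧ Embeds g (BG (n - 4) v 1) := by
  obtain ⟨u', Φ, hu', hΦ⟩ := face hn (by omega) h c
  have hΦ' : (Φ.cast (by rw [hc]) : CIso n u u' 0).κ c = 0 := hΦ
  obtain ⟨e⟩ := near_iso (Φ.cast (by rw [hc]) : CIso n u u' 0) c
  rw [hΦ'] at e
  have hE' := Embeds.iso e hE
  obtain ⟨v, hv, hm⟩ := descent_minor hn h6 hu'
  refine ⟨v, hv, ?_⟩
  have hE'' := embeds_minor hm hE'
  refine embeds_of_induce {s : Fin (v.length + 1) | col v s = 1} ?_ hE''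
  rintro a b ⟨-, t, ht⟩
  have hev : Even (n - 4) := by
    obtain ⟨m, hm⟩ := hn
    exact ⟨m - 2, by omega⟩
  have : a ∈ pr (n - 4) v 1 t := by rw [ht]; simp
  have := col_of_mem_pr hev hv.full this
  simpa using this

end Pool.Agent.Lib.MP_72b45c_co.Q
end

section

/-! # MP_72b45c_co, block S (lower bound), job S3: the inner word is a minor (DESCENT) (parts) -/
end

section

/-! # MP_72b45c_co, block S (lower bound), job S4a: rungs -/

namespace Pool.Agent.Lib.MP_72b45c_co.Q

open SimpleGraph Equiv Equiv.Perm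

variable {n : ℕ} {u : List ℕ}

/-- the letter `k` occurs in `u` at some index in `[a, b)` -/
def occ (u : List ℕ) (k a b : ℕ) : Prop := ∃ i, a ≤ i ∧ i < b ∧ u[i]? = some k

private lemma S4a_swap {l k : ℕ} (h : l ≠ k) (hl : 1 ≤ l) (x : ℕ) (hx : x ∈ Finset.Icc 1 k) :
    swap l (l + 1) x ∈ Finset.Icc 1 k := by
  rw [Finset.mem_Icc] at hx ⊢
  rw [Equiv.swap_apply_def]
  split_ifs <;> omega

private lemma S4a_succ {u : List ℕ} (hm : ∀ k ∈ u, 1 ≤ k ∧ k < 8) {k t : ℕ} (ht : t < u.length)
    (hk : u[t] ≠ k) : lset u k (t + 1) = lset u k t := by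
  have hl := (hm _ (List.getElem_mem ht)).1
  unfold lset
  rw [run_take_succ u ht]
  ext z
  rw [Finset.mem_image, Finset.mem_image]
  constructor
  · rintro ⟨y, hy, rfl⟩
    exact ⟨swap u[t] (u[t] + 1) y, S4a_swap hk hl y hy, rfl⟩
  · rintro ⟨y, hy, rfl⟩
    refine ⟨swap u[t] (u[t] + 1) y, S4a_swap hk hl y hy, ?_⟩
    rw [Equiv.Perm.mul_apply, Equiv.swap_apply_self]

private lemma S4a_mono {u : List ℕ} {k a b c : ℕ} (h : occ u k a b) (hbc : b ≤ c) : occ u k a c := by
  obtain ⟨i, h1, h2, h3⟩ := h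
  exact ⟨i, h1, by omega, h3⟩

private lemma S4a_const {u : List ℕ} (hm : ∀ k ∈ u, 1 ≤ k ∧ k < 8) {k a b : ℕ} (hab : a ≤ b)
    (hb : b ≤ u.length) (hno : ¬ occ u k a b) : lset u k b = lset u k a := by
  induction b, hab using Nat.le_induction with
  | base => rfl
  | succ b hab ih =>
    rw [S4a_succ hm (by omega), ih (by omega) (fun h => hno (S4a_mono h (by omega)))]
    intro h
    exact hno ⟨b, hab, by omega, by rw [List.getElem?_eq_getElem (by omega), h]⟩

private lemma S4a_card (u : List ℕ) (k t : ℕ) : (lset u k t).card = k := by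
  unfold lset
  rw [Finset.card_image_of_injective _ (Equiv.injective _), Nat.card_Icc]
  omega

private lemma S4a_sub (u : List ℕ) {k l : ℕ} (h : k ≤ l) (t : ℕ) : lset u k t ⊆ lset u l t := by
  unfold lset
  exact Finset.image_subset_image (Finset.Icc_subset_Icc_right h)

/-- If the letter `3` or the letter `5` does not occur in `[a, b)`, the label set of the positions `1..4` changes by at
most one label: both sets contain the common `lset u 3`, or are contained in the common `lset u 5`. -/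
theorem lset_sdiff_le {u : List ℕ} (h : Red 8 u) {a b : ℕ} (hab : a ≤ b) (hb : b ≤ u.length)
    (hno : ¬ occ u 3 a b ∨ ¬ occ u 5 a b) : (lset u 4 b \ lset u 4 a).card ≤ 1 := by
  have hm := h.1.mem
  rcases hno with hno | hno
  · have h1 := S4a_const hm hab hb hno
    have h2 : lset u 4 b \ lset u 4 a ⊆ lset u 4 b \ lset u 3 b := by
      rw [h1]
      exact Finset.sdiff_subset_sdiff (Finset.Subset.refl _) (S4a_sub u (by norm_num) a)
    have h3 := Finset.card_le_card h2
    rw [Finset.card_sdiff_of_subset (S4a_sub u (by norm_num) b), S4a_card, S4a_card] at h3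
    exact h3
  · have h1 := S4a_const hm hab hb hno
    have h2 : lset u 4 b \ lset u 4 a ⊆ lset u 5 a \ lset u 4 a := by
      rw [← h1]
      exact Finset.sdiff_subset_sdiff (S4a_sub u (by norm_num) b) (Finset.Subset.refl _)
    have h3 := Finset.card_le_card h2
    rw [Finset.card_sdiff_of_subset (S4a_sub u (by norm_num) a), S4a_card, S4a_card] at h3
    exact h3

/-- One rung further. Let `e` be the least number such that `3` and `5` both occur in `[a, e)`; it exists, otherwise
`lset_sdiff_le` for `[a, N)`. `lset u 4 e = lset u 4 (e - 1)` (the letter `e - 1` is `3` or `5`), at most one new label. The letter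
`4` occurs in `[e, N)`, otherwise `lset u 4 N = lset u 4 e`; take the first one. -/
theorem next_rung {u : List ℕ} (h : Red 8 u) {a : ℕ} (ha : a ≤ u.length)
    (h2 : 2 ≤ (lset u 4 u.length \ lset u 4 a).card) :
    ∃ b, a < b ∧ b < u.length ∧ u[b]? = some 4 ∧ occ u 3 a b ∧ occ u 5 a b ∧
      (lset u 4 b \ lset u 4 a).card ≤ 1 := by
  classical
  have hm := h.1.mem
  have hex : ∃ e, a ≤ e ∧ e ≤ u.length ∧ occ u 3 a e ∧ occ u 5 a e := by
    refine ⟨u.length, ha, le_refl _, ?_⟩
    by_contra hcon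
    have := lset_sdiff_le h ha (le_refl _) (not_and_or.1 hcon)
    omega
  obtain ⟨e, he, hmin⟩ : ∃ e, (a ≤ e ∧ e ≤ u.length ∧ occ u 3 a e ∧ occ u 5 a e) ∧
      ∀ e', e' < e → ¬ (a ≤ e' ∧ e' ≤ u.length ∧ occ u 3 a e' ∧ occ u 5 a e') :=
    ⟨Nat.find hex, Nat.find_spec hex, fun e' he' => Nat.find_min hex he'⟩
  obtain ⟨he1, he2, he3, he5⟩ := he
  have hae : a < e := by
    obtain ⟨i, h3, h4, -⟩ := he3
    omega
  obtain ⟨f, rfl⟩ : ∃ f, e = f + 1 := ⟨e - 1, by omega⟩
  have hnf : ¬ occ u 3 a f ∨ ¬ occ u 5 a f := by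
    rw [← not_and_or]
    exact fun hc => hmin f (by omega) ⟨by omega, by omega, hc.1, hc.2⟩
  have hcf := lset_sdiff_le h (by omega : a ≤ f) (by omega) hnf
  have hlast : ∀ k, occ u k a (f + 1) → ¬ occ u k a f → u[f]? = some k := by
    intro k hk hk'
    obtain ⟨i, h3, h4, h5⟩ := hk
    rcases Nat.lt_succ_iff_lt_or_eq.1 h4 with h6 | rfl
    · exact absurd ⟨i, h3, h6, h5⟩ hk'
    · exact h5
  have hf : f < u.length := by omega
  have hne : u[f] ≠ 4 := by
    rcases hnf with hn | hn
    · have := hlast 3 he3 hn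
      rw [List.getElem?_eq_getElem hf] at this
      have := Option.some.inj this
      omega
    · have := hlast 5 he5 hn
      rw [List.getElem?_eq_getElem hf] at this
      have := Option.some.inj this
      omega
  have hce : (lset u 4 (f + 1) \ lset u 4 a).card ≤ 1 := by
    rw [S4a_succ hm hf hne]
    exact hcf
  have hex4 : ∃ b, f + 1 ≤ b ∧ u[b]? = some 4 := by
    by_contra hcon
    have h6 : ¬ occ u 4 (f + 1) u.length := by
      rintro ⟨i, h3, h4, h5⟩
      exact hcon ⟨i, h3, h5⟩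
    rw [S4a_const hm he2 (le_refl _) h6] at h2
    omega
  obtain ⟨b, ⟨hb1, hb2⟩, hbmin⟩ : ∃ b, (f + 1 ≤ b ∧ u[b]? = some 4) ∧
      ∀ b', b' < b → ¬ (f + 1 ≤ b' ∧ u[b']? = some 4) :=
    ⟨Nat.find hex4, Nat.find_spec hex4, fun e' he' => Nat.find_min hex4 he'⟩
  have hbl : b < u.length := by
    by_contra hcon
    rw [List.getElem?_eq_none (not_lt.1 hcon)] at hb2
    exact absurd hb2 (by simp)
  have h7 : lset u 4 b = lset u 4 (f + 1) := by
    refine S4a_const hm hb1 hbl.le ?_
    rintro ⟨i, h3, h4, h5⟩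
    exact hbmin i h4 ⟨h3, h5⟩
  refine ⟨b, by omega, hbl, hb2, S4a_mono he3 hb1, S4a_mono he5 hb1, ?_⟩
  rw [h7]
  exact hce

/-- three times `next_rung` (`lset u 4 0 = {1,2,3,4}`, `lset u 4 N = {5,6,7,8}`) -/
theorem exists_rungs {u : List ℕ} (h : Red 8 u) :
    ∃ b c, 0 < b ∧ b < c ∧ c < u.length ∧ u[b]? = some 4 ∧ u[c]? = some 4 ∧
      occ u 3 0 b ∧ occ u 5 0 b ∧ occ u 3 b c ∧ occ u 5 b c ∧ occ u 3 c u.length ∧
      occ u 5 c u.length := by
  have h0 : lset u 4 0 = {1, 2, 3, 4} := by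
    unfold lset
    rw [List.take_zero, run]
    decide
  have hN : lset u 4 u.length = {5, 6, 7, 8} := by
    unfold lset
    rw [List.take_length]
    have h1 : (Finset.Icc 1 4).image (run 1 u) = (Finset.Icc 1 4).image (fun i => 8 + 1 - i) := by
      refine Finset.image_congr ?_
      intro i hi
      have hi' := Finset.mem_Icc.1 (Finset.mem_coe.1 hi)
      exact h.2 i hi'.1 (by omega)
    rw [h1]
    decide
  have hc0 : (lset u 4 u.length \ lset u 4 0).card = 4 := by
    rw [h0, hN]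
    decide
  have tri : ∀ A B C : Finset ℕ, (A \ C).card ≤ (A \ B).card + (B \ C).card := by
    intro A B C
    refine (Finset.card_le_card (t := (A \ B) ∪ (B \ C)) ?_).trans (Finset.card_union_le _ _)
    intro x hx
    rw [Finset.mem_sdiff] at hx
    rw [Finset.mem_union, Finset.mem_sdiff, Finset.mem_sdiff]
    by_cases hxB : x ∈ B
    · exact Or.inr ⟨hxB, hx.2⟩
    · exact Or.inl ⟨hx.1, hxB⟩
  obtain ⟨b, b1, b2, b3, b4, b5, b6⟩ := next_rung h (Nat.zero_le _) (by omega)
  have t1 := tri (lset u 4 u.length) (lset u 4 b) (lset u 4 0)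
  obtain ⟨c, c1, c2, c3, c4, c5, c6⟩ := next_rung h b2.le (by omega)
  have t2 := tri (lset u 4 u.length) (lset u 4 c) (lset u 4 b)
  have hfin : occ u 3 c u.length ∧ occ u 5 c u.length := by
    by_contra hcon
    have := lset_sdiff_le h c2.le (le_refl _) (not_and_or.1 hcon)
    omega
  exact ⟨b, c, b1, c1, c2, b3, c3, b4, b5, c4, c5, hfin.1, hfin.2⟩

end Pool.Agent.Lib.MP_72b45c_co.Q
end

section

/-! # MP_72b45c_co, block S (lower bound), job S4b: arcs -/

namespace Pool.Agent.Lib.MP_72b45c_co.Q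

open SimpleGraph Equiv Equiv.Perm

variable {n : ℕ} {u : List ℕ}

open Classical in
/-- the arc of a node: `0,1,2` = `X1,X2,X3` (gap 3), `3,4,5` = `Y1,Y2,Y3` (gap 5) -/
noncomputable def arcN (u : List ℕ) (b c k t : ℕ) : ℕ :=
  if k = 3 then
    if ¬ occ u 3 t u.length then 3 else if ¬ occ u 3 t c then 2 else if ¬ occ u 3 t b then 1 else 0
  else if k = 5 then
    if ¬ occ u 5 t u.length then 0 else if ¬ occ u 5 t c then 5 else if ¬ occ u 5 t b then 4 else 3
  else 6

private theorem S4b_occ_succ {u : List ℕ} {k t : ℕ} (e : ℕ) (ht : t < u.length) (hk : u[t] ≠ k) :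
    occ u k (t + 1) e ↔ occ u k t e := by
  constructor
  · rintro ⟨i, hi, hie, hik⟩
    exact ⟨i, by omega, hie, hik⟩
  · rintro ⟨i, hi, hie, hik⟩
    rcases Nat.eq_or_lt_of_le hi with hti | hti
    · subst hti
      rw [List.getElem?_eq_getElem ht] at hik
      exact absurd (Option.some.inj hik) hk
    · exact ⟨i, hti, hie, hik⟩

private theorem S4b_occ_mono {u : List ℕ} {k a e e' : ℕ} (h : occ u k a e) (hee : e ≤ e') :
    occ u k a e' := by
  obtain ⟨i, hi, hie, hik⟩ := h
  exact ⟨i, hi, by omega, hik⟩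

private theorem S4b_not_occ_self {u : List ℕ} {k a : ℕ} : ¬ occ u k a a := by
  rintro ⟨i, hi, hie, -⟩
  omega

/-- `cell_lift`; here `u` is a reduced word of `S_8`, `b`, `c` as in `exists_rungs` -/
theorem exists_arc {u : List ℕ} (h : Red 8 u) {b c : ℕ} (hb : 0 < b) (hbc : b < c)
    (hc : c < u.length) (h1 : occ u 3 0 b) (h2 : occ u 5 0 b) (h3 : occ u 3 b c) (h4 : occ u 5 b c)
    (h5 : occ u 3 c u.length) (h6 : occ u 5 c u.length) :
    ∃ g : Fin (u.length + 1) → ℕ, ∀ k t, k ≤ 8 → t ≤ u.length →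
      g (cell 8 u k t) = arcN u b c k t := by
  refine cell_lift h.full (arcN u b c) ?_ ?_ ?_
  · intro t _
    constructor
    · simp [arcN]
    · simp [arcN]
  · intro k t ht _ _ hk
    by_cases k3 : k = 3
    · subst k3
      have q1 := S4b_occ_succ u.length ht hk
      have q2 := S4b_occ_succ c ht hk
      have q3 := S4b_occ_succ b ht hk
      unfold arcN
      rw [if_pos rfl, if_pos rfl]
      by_cases p1 : occ u 3 t u.length <;> by_cases p2 : occ u 3 t c <;>
        by_cases p3 : occ u 3 t b <;> simp [p1, p2, p3, q1, q2, q3]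
    · by_cases k5 : k = 5
      · subst k5
        have q1 := S4b_occ_succ u.length ht hk
        have q2 := S4b_occ_succ c ht hk
        have q3 := S4b_occ_succ b ht hk
        unfold arcN
        rw [if_neg k3, if_pos rfl, if_neg k3, if_pos rfl]
        by_cases p1 : occ u 5 t u.length <;> by_cases p2 : occ u 5 t c <;>
          by_cases p3 : occ u 5 t b <;> simp [p1, p2, p3, q1, q2, q3]
      · simp [arcN, k3, k5]
  · intro k hk1 hk8
    by_cases k3 : k = 3
    · subst k3
      have e1 : arcN u b c 3 u.length = 3 := by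
        unfold arcN
        rw [if_pos rfl, if_pos S4b_not_occ_self]
      have e2 : arcN u b c (8 - 3) 0 = 3 := by
        unfold arcN
        rw [if_neg (by norm_num), if_pos (by norm_num),
          if_neg (not_not_intro (S4b_occ_mono h2 (by omega))),
          if_neg (not_not_intro (S4b_occ_mono h2 (by omega))), if_neg (not_not_intro h2)]
      rw [e1, e2]
    · by_cases k5 : k = 5
      · subst k5
        have e1 : arcN u b c 5 u.length = 0 := by
          unfold arcN
          rw [if_neg (by norm_num), if_pos rfl, if_pos S4b_not_occ_self]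
        have e2 : arcN u b c (8 - 5) 0 = 0 := by
          unfold arcN
          rw [if_pos (by norm_num),
            if_neg (not_not_intro (S4b_occ_mono h1 (by omega))),
            if_neg (not_not_intro (S4b_occ_mono h1 (by omega))), if_neg (not_not_intro h1)]
        rw [e1, e2]
      · have a3 : 8 - k ≠ 3 := by omega
        have a5 : 8 - k ≠ 5 := by omega
        simp [arcN, k3, k5, a3, a5]

end Pool.Agent.Lib.MP_72b45c_co.Q
end

section

/-! # MP_72b45c_co, block S (lower bound), job S4c: arcs are connected -/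

namespace Pool.Agent.Lib.MP_72b45c_co.Q

open SimpleGraph Equiv Equiv.Perm

variable {n : ℕ} {u : List ℕ}

private def S4cR (u : List ℕ) (g : Fin (u.length + 1) → ℕ) (i : ℕ) (x y : Fin (u.length + 1)) :
    Prop :=
  ∃ (hx : g x = i) (hy : g y = i),
    ((BG 8 u 1).induce {s | g s = i}).Reachable ⟨x, hx⟩ ⟨y, hy⟩

private theorem S4c_cell_eq {u : List ℕ} {k a b : ℕ} (hab : a ≤ b) (hb : b ≤ u.length)
    (h : ¬ occ u k a b) : cell 8 u k a = cell 8 u k b := by
  induction b, hab using Nat.le_induction with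
  | base => rfl
  | succ b hab ih =>
    have hbl : b < u.length := by omega
    rw [cell_succ_of_ne 8 hbl]
    · refine ih (by omega) ?_
      rintro ⟨j, h1, h2, h3⟩
      exact h ⟨j, h1, by omega, h3⟩
    · intro h1
      refine h ⟨b, hab, Nat.lt_succ_self b, ?_⟩
      rw [List.getElem?_eq_getElem hbl, h1]

private theorem S4c_chain {u : List ℕ} {g : Fin (u.length + 1) → ℕ} {i k : ℕ} (hk : k % 2 = 1)
    {r t : ℕ} (hrt : r ≤ t) (ht : t ≤ u.length)
    (hall : ∀ t', r ≤ t' → t' ≤ t → g (cell 8 u k t') = i) :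
    S4cR u g i (cell 8 u k r) (cell 8 u k t) := by
  induction t, hrt using Nat.le_induction with
  | base => exact ⟨hall r le_rfl le_rfl, hall r le_rfl le_rfl, Reachable.refl _⟩
  | succ t hrt ih =>
    have htl : t < u.length := by omega
    obtain ⟨hx, hy, hR⟩ := ih (by omega) fun t' h1 h2 => hall t' h1 (by omega)
    have hz := hall (t + 1) (by omega) le_rfl
    refine ⟨hx, hz, ?_⟩
    by_cases hne : cell 8 u k (t + 1) = cell 8 u k t
    · have e : (⟨cell 8 u k (t + 1), hz⟩ : {s | g s = i}) = ⟨cell 8 u k t, hy⟩ :=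
        Subtype.ext hne
      rw [e]
      exact hR
    · have hut : u[t] = k := by
        by_contra h1
        exact hne (cell_succ_of_ne 8 htl h1)
      refine hR.trans (Adj.reachable ?_)
      rw [comap_adj]
      refine ⟨fun h => hne h.symm, ⟨t, htl⟩, ?_⟩
      unfold pr
      have e1 : u[(⟨t, htl⟩ : Fin u.length)] = k := hut
      rw [e1, if_pos (by omega)]
      rfl

/-- Each arc is connected. Roots: `X1`: `(3,0)`, `X2`: `(3,b)`, `X3`: `(3,c)`, `Y1`: `(5,0)`, `Y2`: `(5,b)`, `Y3`: `(5,c)`. For a node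
`(3, t)` with `t` at least the time of the root go back in time letter by letter (a letter `3` joins two adjacent
black cells; the arc number is monotone in `t`); for `t` smaller than the time of the root of its arc no
letter `3` occurs in between, it is the same cell; nodes of gap `5` in `X1` are in the cell `(5,N) ~ (3,0)`. -/
theorem arc_connected {u : List ℕ} (h : Red 8 u) {b c : ℕ} (hb : 0 < b) (hbc : b < c)
    (hc : c < u.length) (h1 : occ u 3 0 b) (h2 : occ u 5 0 b) (h3 : occ u 3 b c) (h4 : occ u 5 b c)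
    (h5 : occ u 3 c u.length) (h6 : occ u 5 c u.length) (g : Fin (u.length + 1) → ℕ)
    (hg : ∀ k t, k ≤ 8 → t ≤ u.length → g (cell 8 u k t) = arcN u b c k t) (i : ℕ) (hi : i < 6) :
    ((BG 8 u 1).induce {s | g s = i}).Connected := by
  have hf := h.full
  have mono : ∀ {k a a' e e' : ℕ}, a ≤ a' → e' ≤ e → occ u k a' e' → occ u k a e := by
    rintro k a a' e e' ha he ⟨j, g1, g2, g3⟩
    exact ⟨j, ha.trans g1, g2.trans_le he, g3⟩
  have emp : ∀ {k a e : ℕ}, e ≤ a → ¬ occ u k a e := by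
    rintro k a e ha ⟨j, g1, g2, g3⟩
    omega
  have main : ∃ r : Fin (u.length + 1), g r = i ∧ ∀ s, g s = i → S4cR u g i r s := by
    have w35 : cell 8 u 5 u.length = cell 8 u 3 0 := cell_wrap hf (by omega) (by omega)
    have w53 : cell 8 u 3 u.length = cell 8 u 5 0 := cell_wrap hf (by omega) (by omega)
    have node : ∀ s, g s = i → ∃ k t, t ≤ u.length ∧ (k = 3 ∨ k = 5) ∧ cell 8 u k t = s ∧
        arcN u b c k t = i := by
      intro s hs
      obtain ⟨k, t, hk, ht, e⟩ := exists_node hf s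
      rw [← e, hg k t hk ht] at hs
      refine ⟨k, t, ht, ?_, e, hs⟩
      by_contra hne
      rw [arcN, if_neg (by omega), if_neg (by omega)] at hs
      omega
    have v3 : ∀ t, (occ u 3 t b → arcN u b c 3 t = 0) ∧
        (¬ occ u 3 t b → occ u 3 t c → arcN u b c 3 t = 1) ∧
        (¬ occ u 3 t c → occ u 3 t u.length → arcN u b c 3 t = 2) ∧
        (¬ occ u 3 t u.length → arcN u b c 3 t = 3) := by
      intro t
      rw [arcN, if_pos rfl]
      have m1 : occ u 3 t b → occ u 3 t c := mono le_rfl hbc.le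
      have m2 : occ u 3 t c → occ u 3 t u.length := mono le_rfl hc.le
      refine ⟨fun q => ?_, fun q q' => ?_, fun q q' => ?_, fun q => ?_⟩
      · rw [if_neg (not_not.2 (m2 (m1 q))), if_neg (not_not.2 (m1 q)), if_neg (not_not.2 q)]
      · rw [if_neg (not_not.2 (m2 q')), if_neg (not_not.2 q'), if_pos q]
      · rw [if_neg (not_not.2 q'), if_pos q]
      · rw [if_pos q]
    have v5 : ∀ t, (occ u 5 t b → arcN u b c 5 t = 3) ∧
        (¬ occ u 5 t b → occ u 5 t c → arcN u b c 5 t = 4) ∧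
        (¬ occ u 5 t c → occ u 5 t u.length → arcN u b c 5 t = 5) ∧
        (¬ occ u 5 t u.length → arcN u b c 5 t = 0) := by
      intro t
      rw [arcN, if_neg (by omega : ¬ (5 = 3)), if_pos rfl]
      have m1 : occ u 5 t b → occ u 5 t c := mono le_rfl hbc.le
      have m2 : occ u 5 t c → occ u 5 t u.length := mono le_rfl hc.le
      refine ⟨fun q => ?_, fun q q' => ?_, fun q q' => ?_, fun q => ?_⟩
      · rw [if_neg (not_not.2 (m2 (m1 q))), if_neg (not_not.2 (m1 q)), if_neg (not_not.2 q)]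
      · rw [if_neg (not_not.2 (m2 q')), if_neg (not_not.2 q'), if_pos q]
      · rw [if_neg (not_not.2 q'), if_pos q]
      · rw [if_pos q]
    -- root at time r: nodes (k, t) with value i
    have go : ∀ {k r t : ℕ}, (k = 3 ∨ k = 5) → r ≤ u.length → t ≤ u.length →
        (∀ t', r ≤ t' → t' ≤ t → arcN u b c k t' = i) → (t < r → ¬ occ u k t r) →
        arcN u b c k r = i → S4cR u g i (cell 8 u k r) (cell 8 u k t) := by
      intro k r t hk hr ht hall hno hri
      rcases le_or_gt r t with hrt | hrt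
      · refine S4c_chain (by omega) hrt ht fun t' q1 q2 => ?_
        rw [hg k t' (by omega) (by omega)]
        exact hall t' q1 q2
      · rw [S4c_cell_eq hrt.le hr (hno hrt)]
        have e : g (cell 8 u k r) = i := by
          rw [hg k r (by omega) hr, hri]
        exact ⟨e, e, Reachable.refl _⟩
    have dec3 : ∀ t, arcN u b c 3 t = i →
        (occ u 3 t b ∧ i = 0) ∨ (¬ occ u 3 t b ∧ occ u 3 t c ∧ i = 1) ∨
        (¬ occ u 3 t c ∧ occ u 3 t u.length ∧ i = 2) ∨ (¬ occ u 3 t u.length ∧ i = 3) := by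
      intro t ht
      by_cases q1 : occ u 3 t b
      · exact Or.inl ⟨q1, by rw [← ht, (v3 t).1 q1]⟩
      · by_cases q2 : occ u 3 t c
        · exact Or.inr (Or.inl ⟨q1, q2, by rw [← ht, (v3 t).2.1 q1 q2]⟩)
        · by_cases q3 : occ u 3 t u.length
          · exact Or.inr (Or.inr (Or.inl ⟨q2, q3, by rw [← ht, (v3 t).2.2.1 q2 q3]⟩))
          · exact Or.inr (Or.inr (Or.inr ⟨q3, by rw [← ht, (v3 t).2.2.2 q3]⟩))
    have dec5 : ∀ t, arcN u b c 5 t = i →
        (occ u 5 t b ∧ i = 3) ∨ (¬ occ u 5 t b ∧ occ u 5 t c ∧ i = 4) ∨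
        (¬ occ u 5 t c ∧ occ u 5 t u.length ∧ i = 5) ∨ (¬ occ u 5 t u.length ∧ i = 0) := by
      intro t ht
      by_cases q1 : occ u 5 t b
      · exact Or.inl ⟨q1, by rw [← ht, (v5 t).1 q1]⟩
      · by_cases q2 : occ u 5 t c
        · exact Or.inr (Or.inl ⟨q1, q2, by rw [← ht, (v5 t).2.1 q1 q2]⟩)
        · by_cases q3 : occ u 5 t u.length
          · exact Or.inr (Or.inr (Or.inl ⟨q2, q3, by rw [← ht, (v5 t).2.2.1 q2 q3]⟩))
          · exact Or.inr (Or.inr (Or.inr ⟨q3, by rw [← ht, (v5 t).2.2.2 q3]⟩))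
    have hbl : b ≤ u.length := by omega
    have hcl : c ≤ u.length := hc.le
    -- the six cases
    rcases (by omega : i = 0 ∨ i = 1 ∨ i = 2 ∨ i = 3 ∨ i = 4 ∨ i = 5) with
      rfl | rfl | rfl | rfl | rfl | rfl
    · refine ⟨cell 8 u 3 0, by rw [hg 3 0 (by omega) (Nat.zero_le _), (v3 0).1 h1], fun s hs => ?_⟩
      obtain ⟨k, t, ht, hk, rfl, hi'⟩ := node s hs
      rcases hk with rfl | rfl
      · rcases dec3 t hi' with ⟨q, -⟩ | ⟨-, -, q⟩ | ⟨-, -, q⟩ | ⟨-, q⟩
        · refine go (Or.inl rfl) (Nat.zero_le _) ht (fun t' q1 q2 => (v3 t').1 (mono q2 le_rfl q))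
            (fun q1 => absurd q1 (Nat.not_lt_zero _)) ((v3 0).1 h1)
        all_goals omega
      · rcases dec5 t hi' with ⟨-, q⟩ | ⟨-, -, q⟩ | ⟨-, -, q⟩ | ⟨q, -⟩
        · omega
        · omega
        · omega
        · rw [S4c_cell_eq ht le_rfl q, w35]
          have e : g (cell 8 u 3 0) = 0 := by
            rw [hg 3 0 (by omega) (Nat.zero_le _), (v3 0).1 h1]
          exact ⟨e, e, Reachable.refl _⟩
    · refine ⟨cell 8 u 3 b, by rw [hg 3 b (by omega) hbl, (v3 b).2.1 (emp le_rfl) h3],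
        fun s hs => ?_⟩
      obtain ⟨k, t, ht, hk, rfl, hi'⟩ := node s hs
      rcases hk with rfl | rfl
      · rcases dec3 t hi' with ⟨-, q⟩ | ⟨q, q', -⟩ | ⟨-, -, q⟩ | ⟨-, q⟩
        · omega
        · refine go (Or.inl rfl) hbl ht
            (fun t' q1 q2 => (v3 t').2.1 (emp q1) (mono q2 le_rfl q')) (fun _ => q)
            ((v3 b).2.1 (emp le_rfl) h3)
        all_goals omega
      · rcases dec5 t hi' with ⟨-, q⟩ | ⟨-, -, q⟩ | ⟨-, -, q⟩ | ⟨-, q⟩ <;> omega
    · refine ⟨cell 8 u 3 c, by rw [hg 3 c (by omega) hcl, (v3 c).2.2.1 (emp le_rfl) h5],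
        fun s hs => ?_⟩
      obtain ⟨k, t, ht, hk, rfl, hi'⟩ := node s hs
      rcases hk with rfl | rfl
      · rcases dec3 t hi' with ⟨-, q⟩ | ⟨-, -, q⟩ | ⟨q, q', -⟩ | ⟨-, q⟩
        · omega
        · omega
        · refine go (Or.inl rfl) hcl ht
            (fun t' q1 q2 => (v3 t').2.2.1 (emp q1) (mono q2 le_rfl q')) (fun _ => q)
            ((v3 c).2.2.1 (emp le_rfl) h5)
        · omega
      · rcases dec5 t hi' with ⟨-, q⟩ | ⟨-, -, q⟩ | ⟨-, -, q⟩ | ⟨-, q⟩ <;> omega
    · refine ⟨cell 8 u 5 0, by rw [hg 5 0 (by omega) (Nat.zero_le _), (v5 0).1 h2], fun s hs => ?_⟩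
      obtain ⟨k, t, ht, hk, rfl, hi'⟩ := node s hs
      rcases hk with rfl | rfl
      · rcases dec3 t hi' with ⟨-, q⟩ | ⟨-, -, q⟩ | ⟨-, -, q⟩ | ⟨q, -⟩
        · omega
        · omega
        · omega
        · rw [S4c_cell_eq ht le_rfl q, w53]
          have e : g (cell 8 u 5 0) = 3 := by
            rw [hg 5 0 (by omega) (Nat.zero_le _), (v5 0).1 h2]
          exact ⟨e, e, Reachable.refl _⟩
      · rcases dec5 t hi' with ⟨q, -⟩ | ⟨-, -, q⟩ | ⟨-, -, q⟩ | ⟨-, q⟩
        · refine go (Or.inr rfl) (Nat.zero_le _) ht (fun t' q1 q2 => (v5 t').1 (mono q2 le_rfl q))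
            (fun q1 => absurd q1 (Nat.not_lt_zero _)) ((v5 0).1 h2)
        all_goals omega
    · refine ⟨cell 8 u 5 b, by rw [hg 5 b (by omega) hbl, (v5 b).2.1 (emp le_rfl) h4],
        fun s hs => ?_⟩
      obtain ⟨k, t, ht, hk, rfl, hi'⟩ := node s hs
      rcases hk with rfl | rfl
      · rcases dec3 t hi' with ⟨-, q⟩ | ⟨-, -, q⟩ | ⟨-, -, q⟩ | ⟨-, q⟩ <;> omega
      · rcases dec5 t hi' with ⟨-, q⟩ | ⟨q, q', -⟩ | ⟨-, -, q⟩ | ⟨-, q⟩
        · omega
        · refine go (Or.inr rfl) hbl ht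
            (fun t' q1 q2 => (v5 t').2.1 (emp q1) (mono q2 le_rfl q')) (fun _ => q)
            ((v5 b).2.1 (emp le_rfl) h4)
        all_goals omega
    · refine ⟨cell 8 u 5 c, by rw [hg 5 c (by omega) hcl, (v5 c).2.2.1 (emp le_rfl) h6],
        fun s hs => ?_⟩
      obtain ⟨k, t, ht, hk, rfl, hi'⟩ := node s hs
      rcases hk with rfl | rfl
      · rcases dec3 t hi' with ⟨-, q⟩ | ⟨-, -, q⟩ | ⟨-, -, q⟩ | ⟨-, q⟩ <;> omega
      · rcases dec5 t hi' with ⟨-, q⟩ | ⟨-, -, q⟩ | ⟨q, q', -⟩ | ⟨-, q⟩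
        · omega
        · omega
        · refine go (Or.inr rfl) hcl ht
            (fun t' q1 q2 => (v5 t').2.2.1 (emp q1) (mono q2 le_rfl q')) (fun _ => q)
            ((v5 c).2.2.1 (emp le_rfl) h6)
        · omega
  obtain ⟨r, hrr, hr⟩ := main
  rw [connected_iff_exists_forall_reachable]
  refine ⟨⟨r, hrr⟩, fun s => ?_⟩
  obtain ⟨_, _, hR⟩ := hr s.1 s.2
  exact hR

end Pool.Agent.Lib.MP_72b45c_co.Q
end

section

/-! # MP_72b45c_co, block S (lower bound), job S4d: adjacent arcs -/

namespace Pool.Agent.Lib.MP_72b45c_co.Q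

open SimpleGraph Equiv Equiv.Perm

variable {n : ℕ} {u : List ℕ}

/-- The last occurrence of a letter in an interval. -/
private theorem S4d_last (u : List ℕ) (k a : ℕ) : ∀ b, occ u k a b →
    ∃ t, a ≤ t ∧ t < b ∧ u[t]? = some k ∧ ¬ occ u k (t + 1) b := by
  intro b
  induction b with
  | zero =>
    rintro ⟨i, _, hi, _⟩
    omega
  | succ b ih =>
    rintro ⟨i, hai, hib, hik⟩
    by_cases hb : u[b]? = some k
    · refine ⟨b, by omega, by omega, hb, ?_⟩
      rintro ⟨j, h1, h2, _⟩
      omega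
    · have hne : i ≠ b := by
        rintro rfl
        exact hb hik
      obtain ⟨t, h1, h2, h3, h4⟩ := ih ⟨i, hai, by omega, hik⟩
      refine ⟨t, h1, by omega, h3, ?_⟩
      rintro ⟨j, h5, h6, h7⟩
      by_cases hj : j = b
      · rw [hj] at h7
        exact hb h7
      · exact h4 ⟨j, h5, by omega, h7⟩

private theorem S4d_mono {u : List ℕ} {k a a' b b' : ℕ} (h : occ u k a b) (ha : a' ≤ a)
    (hb : b ≤ b') : occ u k a' b' := by
  obtain ⟨i, h1, h2, h3⟩ := h
  exact ⟨i, by omega, by omega, h3⟩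

private theorem S4d_none {u : List ℕ} {k a b : ℕ} (h : b ≤ a) : ¬ occ u k a b := by
  rintro ⟨i, h1, h2, _⟩
  omega

private theorem S4d_lt {u : List ℕ} {k t : ℕ} (h : u[t]? = some k) : t < u.length := by
  by_contra h2
  rw [List.getElem?_eq_none (not_lt.mp h2)] at h
  exact absurd h (by simp)

/-- Adjacency at an odd letter. -/
private theorem S4d_odd {u : List ℕ} {b c k t x y : ℕ} (g : Fin (u.length + 1) → ℕ)
    (hg : ∀ k t, k ≤ 8 → t ≤ u.length → g (cell 8 u k t) = arcN u b c k t)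
    (hk8 : k ≤ 8) (hk : (k + 1) % 2 = 0) (ht : u[t]? = some k) (hx : arcN u b c k t = x)
    (hy : arcN u b c k (t + 1) = y) (hne : x ≠ y) :
    ∃ s s', g s = x ∧ g s' = y ∧ (BG 8 u 1).Adj s s' := by
  have htl := S4d_lt ht
  have e1 : g (cell 8 u k t) = x := by rw [hg k t hk8 htl.le, hx]
  have e2 : g (cell 8 u k (t + 1)) = y := by rw [hg k (t + 1) hk8 htl, hy]
  refine ⟨cell 8 u k t, cell 8 u k (t + 1), e1, e2, ?_, ⟨t, htl⟩, ?_⟩
  · intro h
    rw [h, e2] at e1
    exact hne e1.symm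
  · have h1 : u[(⟨t, htl⟩ : Fin u.length)] = k := by
      rw [List.getElem?_eq_getElem htl] at ht
      exact Option.some.inj ht
    unfold pr
    rw [h1, if_pos hk]

/-- Adjacency at the letter `4`. -/
private theorem S4d_four {u : List ℕ} {b c t x y : ℕ} (g : Fin (u.length + 1) → ℕ)
    (hg : ∀ k t, k ≤ 8 → t ≤ u.length → g (cell 8 u k t) = arcN u b c k t)
    (ht : u[t]? = some 4) (hx : arcN u b c 3 t = x)
    (hy : arcN u b c 5 t = y) (hne : x ≠ y) :
    ∃ s s', g s = x ∧ g s' = y ∧ (BG 8 u 1).Adj s s' := by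
  have htl := S4d_lt ht
  have e1 : g (cell 8 u 3 t) = x := by rw [hg 3 t (by norm_num) htl.le, hx]
  have e2 : g (cell 8 u 5 t) = y := by rw [hg 5 t (by norm_num) htl.le, hy]
  refine ⟨cell 8 u 3 t, cell 8 u 5 t, e1, e2, ?_, ⟨t, htl⟩, ?_⟩
  · intro h
    rw [h, e2] at e1
    exact hne e1.symm
  · have h1 : u[(⟨t, htl⟩ : Fin u.length)] = 4 := by
      rw [List.getElem?_eq_getElem htl] at ht
      exact Option.some.inj ht
    unfold pr
    rw [h1, if_neg (by norm_num)]

private theorem S4d_swap {u : List ℕ} {g : Fin (u.length + 1) → ℕ} {x y : ℕ}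
    (h : ∃ s s', g s = x ∧ g s' = y ∧ (BG 8 u 1).Adj s s') :
    ∃ s s', g s = y ∧ g s' = x ∧ (BG 8 u 1).Adj s s' := by
  obtain ⟨s, s', h1, h2, h3⟩ := h
  exact ⟨s', s, h2, h1, h3.symm⟩

/-- Neighbouring arcs are joined by the last letter `3` (or `5`) before the next root, and `X_i`, `Y_i` by the
letter `4` at the times `0`, `b`, `c`. -/
theorem arc_adj {u : List ℕ} (h : Red 8 u) {b c : ℕ} (hb : 0 < b) (hbc : b < c)
    (hc : c < u.length) (h0 : u[0]? = some 4) (hb4 : u[b]? = some 4) (hc4 : u[c]? = some 4)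
    (h1 : occ u 3 0 b) (h2 : occ u 5 0 b) (h3 : occ u 3 b c) (h4 : occ u 5 b c)
    (h5 : occ u 3 c u.length) (h6 : occ u 5 c u.length) (g : Fin (u.length + 1) → ℕ)
    (hg : ∀ k t, k ≤ 8 → t ≤ u.length → g (cell 8 u k t) = arcN u b c k t) (i j : ℕ) (hi : i < 6)
    (hj : j < 6) (hij : (i + 1) % 6 = j ∨ (i + 3) % 6 = j) :
    ∃ s s', g s = i ∧ g s' = j ∧ (BG 8 u 1).Adj s s' := by
  -- neighbouring arcs
  have a01 : ∃ s s', g s = 0 ∧ g s' = 1 ∧ (BG 8 u 1).Adj s s' := by
    obtain ⟨t, _, ht, htk, hno⟩ := S4d_last u 3 0 b h1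
    have o1 : occ u 3 t b := ⟨t, le_rfl, ht, htk⟩
    have o2 : occ u 3 (t + 1) c := S4d_mono h3 (by omega) le_rfl
    refine S4d_odd g hg (by norm_num) (by norm_num) htk ?_ ?_ (by norm_num)
    · simp [arcN, o1, S4d_mono o1 le_rfl hbc.le, S4d_mono o1 le_rfl (hbc.le.trans hc.le)]
    · simp [arcN, hno, o2, S4d_mono o2 le_rfl hc.le]
  have a12 : ∃ s s', g s = 1 ∧ g s' = 2 ∧ (BG 8 u 1).Adj s s' := by
    obtain ⟨t, hbt, ht, htk, hno⟩ := S4d_last u 3 b c h3
    have o1 : occ u 3 t c := ⟨t, le_rfl, ht, htk⟩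
    have o2 : occ u 3 (t + 1) u.length := S4d_mono h5 (by omega) le_rfl
    refine S4d_odd g hg (by norm_num) (by norm_num) htk ?_ ?_ (by norm_num)
    · simp [arcN, o1, S4d_none (u := u) (k := 3) hbt, S4d_mono o1 le_rfl hc.le]
    · simp [arcN, hno, o2]
  have a23 : ∃ s s', g s = 2 ∧ g s' = 3 ∧ (BG 8 u 1).Adj s s' := by
    obtain ⟨t, hct, ht, htk, hno⟩ := S4d_last u 3 c u.length h5
    have o1 : occ u 3 t u.length := ⟨t, le_rfl, ht, htk⟩
    refine S4d_odd g hg (by norm_num) (by norm_num) htk ?_ ?_ (by norm_num)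
    · simp [arcN, o1, S4d_none (u := u) (k := 3) hct]
    · simp [arcN, hno]
  have a34 : ∃ s s', g s = 3 ∧ g s' = 4 ∧ (BG 8 u 1).Adj s s' := by
    obtain ⟨t, _, ht, htk, hno⟩ := S4d_last u 5 0 b h2
    have o1 : occ u 5 t b := ⟨t, le_rfl, ht, htk⟩
    have o2 : occ u 5 (t + 1) c := S4d_mono h4 (by omega) le_rfl
    refine S4d_odd g hg (by norm_num) (by norm_num) htk ?_ ?_ (by norm_num)
    · simp [arcN, o1, S4d_mono o1 le_rfl hbc.le, S4d_mono o1 le_rfl (hbc.le.trans hc.le)]
    · simp [arcN, hno, o2, S4d_mono o2 le_rfl hc.le]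
  have a45 : ∃ s s', g s = 4 ∧ g s' = 5 ∧ (BG 8 u 1).Adj s s' := by
    obtain ⟨t, hbt, ht, htk, hno⟩ := S4d_last u 5 b c h4
    have o1 : occ u 5 t c := ⟨t, le_rfl, ht, htk⟩
    have o2 : occ u 5 (t + 1) u.length := S4d_mono h6 (by omega) le_rfl
    refine S4d_odd g hg (by norm_num) (by norm_num) htk ?_ ?_ (by norm_num)
    · simp [arcN, o1, S4d_none (u := u) (k := 5) hbt, S4d_mono o1 le_rfl hc.le]
    · simp [arcN, hno, o2]
  have a50 : ∃ s s', g s = 5 ∧ g s' = 0 ∧ (BG 8 u 1).Adj s s' := by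
    obtain ⟨t, hct, ht, htk, hno⟩ := S4d_last u 5 c u.length h6
    have o1 : occ u 5 t u.length := ⟨t, le_rfl, ht, htk⟩
    refine S4d_odd g hg (by norm_num) (by norm_num) htk ?_ ?_ (by norm_num)
    · simp [arcN, o1, S4d_none (u := u) (k := 5) hct]
    · simp [arcN, hno]
  -- opposite arcs
  have a03 : ∃ s s', g s = 0 ∧ g s' = 3 ∧ (BG 8 u 1).Adj s s' := by
    refine S4d_four g hg h0 ?_ ?_ (by norm_num)
    · simp [arcN, h1, S4d_mono h1 le_rfl hbc.le, S4d_mono h1 le_rfl (hbc.le.trans hc.le)]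
    · simp [arcN, h2, S4d_mono h2 le_rfl hbc.le, S4d_mono h2 le_rfl (hbc.le.trans hc.le)]
  have a14 : ∃ s s', g s = 1 ∧ g s' = 4 ∧ (BG 8 u 1).Adj s s' := by
    refine S4d_four g hg hb4 ?_ ?_ (by norm_num)
    · simp [arcN, h3, S4d_mono h3 le_rfl hc.le, S4d_none (u := u) (k := 3) (le_refl b)]
    · simp [arcN, h4, S4d_mono h4 le_rfl hc.le, S4d_none (u := u) (k := 5) (le_refl b)]
  have a25 : ∃ s s', g s = 2 ∧ g s' = 5 ∧ (BG 8 u 1).Adj s s' := by
    refine S4d_four g hg hc4 ?_ ?_ (by norm_num)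
    · simp [arcN, h5, S4d_none (u := u) (k := 3) (le_refl c)]
    · simp [arcN, h6, S4d_none (u := u) (k := 5) (le_refl c)]
  interval_cases i <;> rcases hij with hij | hij <;> (norm_num at hij; subst hij)
  · exact a01
  · exact a03
  · exact a12
  · exact a14
  · exact a23
  · exact a25
  · exact a34
  · exact S4d_swap a03
  · exact a45
  · exact S4d_swap a14
  · exact a50
  · exact S4d_swap a25

end Pool.Agent.Lib.MP_72b45c_co.Q
end

section

/-! # MP_72b45c_co, block S (lower bound), job S4e: base case -/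

namespace Pool.Agent.Lib.MP_72b45c_co.Q

open SimpleGraph Equiv Equiv.Perm

variable {n : ℕ} {u : List ℕ}

/-- the number of the arc of a vertex of `K_(3,3)` -/
private def arcIdx : Fin 3 ⊕ Fin 3 → ℕ
  | Sum.inl a => 2 * a
  | Sum.inr b => 2 * b + 1

private theorem arcIdx_lt (x : Fin 3 ⊕ Fin 3) : arcIdx x < 6 := by
  rcases x with a | b
  · have := a.isLt
    simp only [arcIdx]
    omega
  · have := b.isLt
    simp only [arcIdx]
    omega

private theorem arcIdx_inj {x y : Fin 3 ⊕ Fin 3} (h : arcIdx x = arcIdx y) : x = y := by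
  rcases x with a | a <;> rcases y with b | b <;> simp only [arcIdx] at h
  · exact congrArg Sum.inl (Fin.ext (by omega))
  · omega
  · omega
  · exact congrArg Sum.inr (Fin.ext (by omega))

/-- an induced subgraph of an induced subgraph -/
private def indIso {V : Type*} (G : SimpleGraph V) (S T : Set V) (h : T ⊆ S) :
    G.induce T ≃g (G.induce S).induce {x : S | x.1 ∈ T} where
  toFun x := ⟨⟨x.1, h x.2⟩, x.2⟩
  invFun x := ⟨x.1.1, x.2⟩
  left_inv _ := rfl
  right_inv _ := rfl
  map_rel_iff' := Iff.rfl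

/-- `K_(3,3)`: `{X1, X3, Y2}` and `{X2, Y1, Y3}`. -/
theorem base_first {u : List ℕ} (h : Red 8 u) (h0 : u[0]? = some 4) :
    IsMinor (completeBipartiteGraph (Fin 3) (Fin 3))
      ((BG 8 u 1).induce {s | ¬ Near 8 u 0 s}) := by
  have hf : Full 8 u := h.full
  obtain ⟨b, c, hb, hbc, hc, hb4, hc4, h1, h2, h3, h4, h5, h6⟩ := exists_rungs h
  obtain ⟨g, hg⟩ := exists_arc h hb hbc hc h1 h2 h3 h4 h5 h6
  have hnear : ∀ s : Fin (u.length + 1), g s < 6 → ¬ Near 8 u 0 s := by
    intro s hs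
    obtain ⟨k, t, hk, ht, rfl⟩ := exists_node hf s
    rw [hg k t hk ht] at hs
    have hk35 : k = 3 ∨ k = 5 := by
      by_contra hne
      push Not at hne
      unfold arcN at hs
      rw [if_neg hne.1, if_neg hne.2] at hs
      omega
    refine not_near_zero (by decide) hf ?_ ?_ ht
    · rcases hk35 with rfl | rfl <;> omega
    · rcases hk35 with rfl | rfl <;> omega
  have hadj : ∀ i j : ℕ, i < 6 → j < 6 → i % 2 = 0 → j % 2 = 1 →
      ∃ s s', g s = i ∧ g s' = j ∧ (BG 8 u 1).Adj s s' := by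
    intro i j hi hj hi2 hj2
    by_cases hij : (i + 1) % 6 = j ∨ (i + 3) % 6 = j
    · exact arc_adj h hb hbc hc h0 hb4 hc4 h1 h2 h3 h4 h5 h6 g hg i j hi hj hij
    · obtain ⟨s, s', hs, hs', hadj⟩ := arc_adj h hb hbc hc h0 hb4 hc4 h1 h2 h3 h4 h5 h6 g hg j i
        hj hi (by omega)
      exact ⟨s', s, hs', hs, hadj.symm⟩
  refine ⟨fun x => {s | g s.1 = arcIdx x}, fun x => ?_, fun x y hxy => ?_, fun x y hxy => ?_⟩
  · have e := indIso (BG 8 u 1) {s | ¬ Near 8 u 0 s} {s | g s = arcIdx x} (fun s hs =>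
      hnear s (by rw [show g s = arcIdx x from hs]; exact arcIdx_lt x))
    exact e.connected_iff.1
      (arc_connected h hb hbc hc h1 h2 h3 h4 h5 h6 g hg (arcIdx x) (arcIdx_lt x))
  · rw [Set.disjoint_left]
    intro s hs hs'
    exact hxy (arcIdx_inj ((show g s.1 = arcIdx x from hs).symm.trans hs'))
  · rcases x with a | a <;> rcases y with b' | b'
    · simp at hxy
    · obtain ⟨s, s', hs, hs', hss⟩ := hadj (arcIdx (Sum.inl a)) (arcIdx (Sum.inr b'))
        (arcIdx_lt _) (arcIdx_lt _) (by simp only [arcIdx]; omega) (by simp only [arcIdx]; omega)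
      exact ⟨⟨s, hnear s (by rw [hs]; exact arcIdx_lt _)⟩, hs,
        ⟨s', hnear s' (by rw [hs']; exact arcIdx_lt _)⟩, hs', hss⟩
    · obtain ⟨s, s', hs, hs', hss⟩ := hadj (arcIdx (Sum.inl b')) (arcIdx (Sum.inr a))
        (arcIdx_lt _) (arcIdx_lt _) (by simp only [arcIdx]; omega) (by simp only [arcIdx]; omega)
      exact ⟨⟨s', hnear s' (by rw [hs']; exact arcIdx_lt _)⟩, hs',
        ⟨s, hnear s (by rw [hs]; exact arcIdx_lt _)⟩, hs, hss.symm⟩
    · simp at hxy

/-- `face` for `c`, rotation so that the first letter is `4` (`rot_many`, it fixes the outer cell; `Red.mem`), `near_iso`,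
`base_first`, `embeds_minor`, `K33_not_planar`. -/
theorem base_not_planar {u : List ℕ} (h : Red 8 u) (c : Fin (u.length + 1)) (hc : col u c = 0) :
    ¬ Embeds 0 ((BG 8 u 1).induce {s | ¬ Near 8 u c s}) := by
  intro hE
  have hface := face (n := 8) (by decide) (by norm_num) h c
  rw [hc] at hface
  obtain ⟨u', Φ, h', hΦ⟩ := hface
  obtain ⟨e⟩ := near_iso Φ c
  rw [hΦ] at e
  have hE' := Embeds.iso e hE
  obtain ⟨i, hi, hi4⟩ := List.getElem_of_mem (h'.mem (k := 4) (by norm_num) (by norm_num))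
  obtain ⟨h'', Φ', hΦ', -⟩ := rot_many (n := 8) (by decide) h' i hi.le
  have hz : Φ'.κ 0 = 0 := by
    have := hΦ' 0 (Nat.zero_le _)
    rwa [cell_zero, cell_zero] at this
  obtain ⟨e'⟩ := near_iso Φ' 0
  rw [hz] at e'
  have hE'' := Embeds.iso e' hE'
  have h0 : (u'.drop i ++ (u'.take i).map (8 - ·))[0]? = some 4 := by
    rw [List.getElem?_append_left (by rw [List.length_drop]; omega), List.getElem?_drop, Nat.add_zero,
      List.getElem?_eq_getElem hi, hi4]
  exact K33_not_planar (embeds_minor (base_first h'' h0) hE'')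

end Pool.Agent.Lib.MP_72b45c_co.Q
end

section

/-! # MP_72b45c_co, block S (lower bound), job S4f: lower bound -/

namespace Pool.Agent.Lib.MP_72b45c_co.Q

open SimpleGraph Equiv Equiv.Perm

variable {n : ℕ} {u : List ℕ}

/-- LOWER BOUND. Induction on `h`: `step`, then `base_not_planar` or `descent`. -/
theorem lower (h : ℕ) (hh : 2 ≤ h) (u : List ℕ) (hu : Red (4 * h) u) :
    ¬ Embeds (h - 1) (BG (4 * h) u 1) := by
  induction h, hh using Nat.le_induction generalizing u with
  | base =>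
    intro hE
    obtain ⟨c, hc, hc'⟩ := step (n := 4 * 2) (by decide) (by norm_num) hu (g := 2 - 1)
      (by norm_num) hE
    exact base_not_planar (u := u) hu c hc hc'
  | succ m hm ih =>
    intro hE
    obtain ⟨c, hc, hc'⟩ := step (n := 4 * (m + 1)) ⟨2 * (m + 1), by ring⟩ (by omega) hu
      (g := m + 1 - 1) (by omega) hE
    obtain ⟨v, hv, hv'⟩ := descent (n := 4 * (m + 1)) ⟨2 * (m + 1), by ring⟩ (by omega) hu c hc hc'
    have e : 4 * (m + 1) - 4 = 4 * m := by omega
    rw [e] at hv hv'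
    exact ih v hv hv'

end Pool.Agent.Lib.MP_72b45c_co.Q
end

section

/-! # MP_72b45c_co, block S (lower bound), job S4: the base case `n = 8`, and the lower bound (parts) -/
end

section

/-! # MP_72b45c_co, block A (assembly), job A2: isomorphism classes -/

namespace Pool.Agent.Lib.MP_72b45c_co.Q

open SimpleGraph Equiv Equiv.Perm

theorem isObstruction_iso {V W : Type*} [Finite V] [Finite W] {G : SimpleGraph V}
    {G' : SimpleGraph W} {g : ℕ} (e : G ≃g G') (h : IsObstruction g G) : IsObstruction g G' := by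
  refine ⟨fun hE => h.1 (Embeds.iso e.symm hE), fun m H hm hne => ?_⟩
  refine h.2 m H (hm.trans (ObsBasic_minor e.symm e.symm.injective
    fun x y hxy => e.symm.map_adj_iff.mpr hxy)) ?_
  rintro ⟨f⟩
  exact hne ⟨f.trans e⟩

open Classical in
/-- the isomorphism class of the black graph -/
noncomputable def cls (n : ℕ) (u : List ℕ) : Quotient isoSetoid :=
  Quotient.mk isoSetoid ⟨Fintype.card {c : Fin (u.length + 1) // col u c = 1},
    (Blk n u).overFin rfl⟩

theorem cls_eq_iff (n : ℕ) (u u' : List ℕ) :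
    cls n u = cls n u' ↔ Nonempty (Blk n u ≃g Blk n u') := by
  classical
  unfold cls
  rw [Quotient.eq]
  constructor
  · rintro ⟨e⟩
    exact ⟨((Blk n u).overFinIso rfl).trans (e.trans ((Blk n u').overFinIso rfl).symm)⟩
  · rintro ⟨e⟩
    exact ⟨((Blk n u).overFinIso rfl).symm.trans (e.trans ((Blk n u').overFinIso rfl))⟩

/-- an isomorphism of black graphs, in the form used for counting -/
theorem exists_iso_of_cls_eq {n : ℕ} {u u' : List ℕ} (h : cls n u = cls n u') :
    Nonempty (Blk n u ≃g Blk n u') := (cls_eq_iff n u u').mp h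

theorem cls_mem {n g : ℕ} {u : List ℕ} (hn : Even n) (h5 : 5 ≤ n) (h : Red n u)
    (hlow : ¬ Embeds g (BG n u 1)) (ho : UpperOdd n g) (he : UpperEven n g) :
    cls n u ∈ ObsUpTo g u.length := by
  classical
  have h1 := isObstruction_Blk hn (by omega) h hlow ho he
  refine ⟨⟨_, (Blk n u).overFin rfl⟩, rfl, isObstruction_iso ((Blk n u).overFinIso rfl) h1, ?_⟩
  refine le_trans ?_ (card_edgeSet_Blk hn h5 h).le
  exact (Nat.card_congr ((Blk n u).overFinIso rfl).mapEdgeSet).ge

theorem length_red {h : ℕ} {u : List ℕ} (hu : Red (4 * h) u) : u.length = 8 * h ^ 2 - 2 * h := by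
  have h1 := hu.length
  rcases Nat.eq_zero_or_pos h with rfl | hpos
  · simp at h1
    simp [h1]
  · have h2 : 4 * h * (4 * h - 1) = 2 * (8 * h ^ 2 - 2 * h) := by
      zify [show 1 ≤ 4 * h by omega, show 2 * h ≤ 8 * h ^ 2 by nlinarith]
      ring
    omega

/-- Theorem A, from the lower bound and the two upper bounds. -/
theorem cls_mem_obs (h : ℕ) (hh : 2 ≤ h) (ho : UpperOdd (4 * h) (h - 1))
    (he : UpperEven (4 * h) (h - 1)) {u : List ℕ} (hu : Red (4 * h) u) :
    cls (4 * h) u ∈ ObsUpTo (h - 1) (8 * h ^ 2 - 2 * h) := by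
  have h1 := cls_mem ⟨2 * h, by ring⟩ (by omega) hu (lower h hh u hu) ho he
  exact obsUpTo_mono _ (length_red hu).le h1

end Pool.Agent.Lib.MP_72b45c_co.Q
end
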