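import Pool.Agent.Lib.MP_72b45c_co.Q.U5
import Pool.Agent.Lib.MP_72b45c_co.Q.L6
import Pool.Agent.Lib.MP_72b45c_co.Q.A2
import Pool.Agent.Lib.MP_72b45c_co.Q.BBDefs

section

section

/-! # MP_72b45c_co, block U (upper bound), job U6a: gluing, odd -/

namespace Pool.Agent.Lib.MP_72b45c_co.Q

open SimpleGraph Equiv Equiv.Perm

variable {n r K : ℕ} {w : List ℕ}

private theorem U6a_occ (w : List ℕ) (k t : ℕ) :
    lastOcc w k t ≠ 0 → w[lastOcc w k t - 1]? = some k ∧ lastOcc w k t ≤ w.length := by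
  intro h
  rcases lastOcc_spec w k t with ⟨h1, _⟩ | ⟨s, hs, h1, h2, h3, _⟩
  · exact absurd h1 h
  · rw [h3]
    refine ⟨?_, hs⟩
    rw [Nat.add_sub_cancel, List.getElem?_eq_getElem hs, h2]

private theorem U6a_last (w : List ℕ) (K k : ℕ) :
    lastOcc (w ++ [K]) k (w ++ [K]).length = if k = K then w.length + 1 else lastOcc w k w.length := by
  have hl : (w ++ [K]).length = w.length + 1 := by simp
  have hlt : w.length < (w ++ [K]).length := by omega
  have hg : (w ++ [K])[w.length] = K := by simp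
  rw [hl]
  split_ifs with h
  · exact lastOcc_succ_self hlt (by rw [hg, h])
  · rw [lastOcc_succ_of_ne hlt (by rw [hg]; exact fun h' => h h'.symm), lastOcc_append le_rfl]

private theorem U6a_nm_aux {n K : ℕ} {w : List ℕ} {k k' s t : ℕ}
    (hk1 : 1 ≤ k) (hk2 : k < n) (hk1' : 1 ≤ k') (hk2' : k' < n)
    (hp : lastOcc w k s ≠ 0) (hp' : lastOcc w k' t = 0) :
    nm n (w ++ [K]) (k, lastOcc w k s) = nm n (w ++ [K]) (k', lastOcc w k' t) ↔
      k + k' = n ∧ k ≠ K ∧ lastOcc w k s = lastOcc w k w.length := by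
  obtain ⟨h1, h2⟩ := U6a_occ w k s hp
  unfold nm
  rw [if_pos hp, if_neg (not_not.2 hp')]
  show lastOcc w k s = lastOcc (w ++ [K]) (n - k') (w ++ [K]).length ↔ _
  rw [U6a_last]
  split_ifs with h
  · constructor
    · intro h3
      omega
    · rintro ⟨h3, h4, h5⟩
      omega
  · constructor
    · intro h3
      obtain ⟨h4, h5⟩ := U6a_occ w (n - k') w.length (by rw [← h3]; exact hp)
      rw [← h3, h1] at h4
      have h6 : k = n - k' := Option.some.inj h4
      refine ⟨by omega, by rw [h6]; exact h, ?_⟩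
      rw [h3, h6]
    · rintro ⟨h3, h4, h5⟩
      have h6 : n - k' = k := by omega
      rw [h6, h5]

private theorem U6a_nm {n K : ℕ} {w : List ℕ} (h : Red n (w ++ [K])) {k k' s t : ℕ}
    (hk1 : 1 ≤ k) (hk2 : k < n) (hk1' : 1 ≤ k') (hk2' : k' < n) :
    nm n (w ++ [K]) (k, lastOcc w k s) = nm n (w ++ [K]) (k', lastOcc w k' t) ↔
      (k, lastOcc w k s) = (k', lastOcc w k' t) ∨
      (lastOcc w k s ≠ 0 ∧ lastOcc w k' t = 0 ∧ k + k' = n ∧ k ≠ K ∧
        lastOcc w k s = lastOcc w k w.length) ∨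
      (lastOcc w k' t ≠ 0 ∧ lastOcc w k s = 0 ∧ k' + k = n ∧ k' ≠ K ∧
        lastOcc w k' t = lastOcc w k' w.length) := by
  by_cases hp : lastOcc w k s = 0
  · by_cases hp' : lastOcc w k' t = 0
    · constructor
      · intro h1
        left
        have h2 : lastOcc (w ++ [K]) (n - k) (w ++ [K]).length =
            lastOcc (w ++ [K]) (n - k') (w ++ [K]).length := by
          unfold nm at h1
          rwa [if_neg (not_not.2 hp), if_neg (not_not.2 hp')] at h1
        have h3 : lastOcc (w ++ [K]) (n - k) (w ++ [K]).length ≠ 0 :=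
          lastOcc_pos_iff.2 (h.mem (by omega) (by omega))
        have h4 : lastOcc (w ++ [K]) (n - k') (w ++ [K]).length ≠ 0 := by
          rw [← h2]
          exact h3
        have h5 := (U6a_occ _ _ _ h3).1
        have h6 := (U6a_occ _ _ _ h4).1
        rw [h2, h6] at h5
        have h7 : n - k' = n - k := Option.some.inj h5
        have h8 : k = k' := by omega
        rw [hp, hp', h8]
      · rintro (h1 | ⟨h1, _⟩ | ⟨h1, _⟩)
        · rw [h1]
        · exact absurd hp h1
        · exact absurd hp' h1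
    · rw [eq_comm, U6a_nm_aux hk1' hk2' hk1 hk2 hp' hp]
      constructor
      · intro h1
        exact Or.inr (Or.inr ⟨hp', hp, h1⟩)
      · rintro (h1 | ⟨h1, _⟩ | ⟨_, _, h1⟩)
        · exact absurd ((Prod.mk.inj h1).2.symm.trans hp) hp'
        · exact absurd hp h1
        · exact h1
  · by_cases hp' : lastOcc w k' t = 0
    · rw [U6a_nm_aux hk1 hk2 hk1' hk2' hp hp']
      constructor
      · intro h1
        exact Or.inr (Or.inl ⟨hp, hp', h1⟩)
      · rintro (h1 | ⟨_, _, h1⟩ | ⟨h1, _⟩)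
        · exact absurd ((Prod.mk.inj h1).2.trans hp') hp
        · exact h1
        · exact absurd hp' h1
    · constructor
      · intro h1
        left
        unfold nm at h1
        rw [if_pos hp, if_pos hp'] at h1
        have h1' : lastOcc w k s = lastOcc w k' t := h1
        have h3 := (U6a_occ _ _ _ hp).1
        have h4 := (U6a_occ _ _ _ hp').1
        rw [h1', h4] at h3
        rw [h1', Option.some.inj h3]
      · rintro (h1 | ⟨_, h1, _⟩ | ⟨_, h1, _⟩)
        · rw [h1]
        · exact absurd h1 hp'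
        · exact absurd h1 hp

/-- `glue` with `ν = dnu w`, `a = m`, `b i = bt (Fin.rev i)`, `S` = all `i` with `2 i + 1 ≠ K`. For these `i` the letter `2 i + 1` occurs in
`w` (`mem_of_ne`), so `dnu (m i) = (2i+1, s)` with `s ≠ 0` and `dnu (bt j) = (2j+1, 0)`. Cells: for disc cells `(k, s)`, `(k', s')` of nonleaf
darts, `nm (k, s) = nm (k', s')` iff they are equal or one is `(k, lastOcc w k M)`, `s ≠ 0`, and the other `(n-k, 0)` with
`k ≠ K` (for `k = K` the name of `(n-K, 0)` is `w.length + 1`, larger than all `s`). -/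
theorem glue_odd (hn : n = 2 * r) (h : Red n (w ++ [K])) (hK : K % 2 = 1)
    {σ : Perm (DD w.length r)} {m : Fin r → DD w.length r} (hI : Inv n w K r w.length σ m) :
    ∃ τ : Perm (DD w.length r),
      (∀ y, (∀ i, y ≠ m i) → (∀ i, y ≠ bt i) → τ y = y) ∧
      (∀ y, (∃ i, y = m i ∨ y = bt i) → ∃ i, τ y = m i ∨ τ y = bt i) ∧
      (∀ x y, nonleaf x → nonleaf y → ((σ * τ).SameCycle x y ↔ vx n w K x = vx n w K y)) ∧
      cyc (σ * τ) + (r - 1) = cyc σ := by
  classical
  obtain ⟨hK1, hK2⟩ := K_bounds h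
  obtain ⟨j0, hj0⟩ : ∃ j0 : Fin r, 2 * j0.val + 1 = K := ⟨⟨K / 2, by omega⟩, by simp only; omega⟩
  have hν : ∀ x y, σ.SameCycle x y ↔ dnu w x = dnu w y := hI.same_all
  have hocc : ∀ i : Fin r, i ≠ j0 → lastOcc w (2 * i.val + 1) w.length ≠ 0 := by
    intro i hi
    refine lastOcc_pos_iff.2 (mem_of_ne h (by omega) (by omega) ?_)
    intro h1
    apply hi
    apply Fin.ext
    omega
  have hrev : ∀ i : Fin r, (2 * i.val + 1) + (2 * (Fin.rev i).val + 1) = n := by
    intro i
    rw [Fin.val_rev]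
    omega
  obtain ⟨τ, hτ1, hτ2, hτ3, hτ4⟩ := glue hν m (fun i => bt (Fin.rev i)) (Finset.univ.erase j0)
    (by
      intro i hi j _ h1
      rw [hI.dnu_m, dnu_bt] at h1
      exact hocc i (Finset.ne_of_mem_erase hi) (Prod.mk.inj h1).2)
    (by
      intro i _ j _ hij
      rw [hI.dnu_m, hI.dnu_m, dnu_bt, dnu_bt]
      constructor
      · intro h1
        apply hij
        apply Fin.ext
        have := (Prod.mk.inj h1).1
        omega
      · intro h1
        apply hij
        have h2 := (Prod.mk.inj h1).1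
        have h3 := hrev i
        have h4 := hrev j
        apply Fin.ext
        omega)
  refine ⟨τ, ?_, ?_, ?_, ?_⟩
  · intro y h1 h2
    exact hτ2 y fun i _ => ⟨h1 i, h2 _⟩
  · intro y hy
    by_cases hS : ∃ i ∈ Finset.univ.erase j0, y = m i ∨ y = bt (Fin.rev i)
    · obtain ⟨i, hi, h1⟩ := hS
      obtain ⟨h2, h3⟩ := hτ1 i hi
      rcases h1 with h1 | h1
      · exact ⟨Fin.rev i, Or.inr (by rw [h1]; exact h2)⟩
      · exact ⟨i, Or.inl (by rw [h1]; exact h3)⟩
    · obtain ⟨i, hi⟩ := hy
      refine ⟨i, ?_⟩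
      rw [hτ2 y fun j hj => ⟨fun h1 => hS ⟨j, hj, Or.inl h1⟩, fun h1 => hS ⟨j, hj, Or.inr h1⟩⟩]
      exact hi
  · intro x y hx hy
    obtain ⟨a, s, hs, ha⟩ := dnu_spec hn h x hx
    obtain ⟨b, t, ht, hb⟩ := dnu_spec hn h y hy
    have hal := a.isLt
    have hbl := b.isLt
    rw [hτ3]
    unfold vx
    rw [ha, hb, U6a_nm h (by omega) (by omega) (by omega) (by omega)]
    refine or_congr Iff.rfl ?_
    constructor
    · rintro ⟨i, hi, ⟨h1, h2⟩ | ⟨h1, h2⟩⟩
      · left
        have hi0 := Finset.ne_of_mem_erase hi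
        rw [hI.dnu_m] at h1
        rw [dnu_bt] at h2
        have e1 : a = i := Fin.ext (by have := (Prod.mk.inj h1).1; omega)
        have e2 : b = Fin.rev i := Fin.ext (by have := (Prod.mk.inj h2).1; omega)
        subst e1
        subst e2
        have e3 := (Prod.mk.inj h1).2
        have e4 := (Prod.mk.inj h2).2
        refine ⟨by rw [e3]; exact hocc a hi0, e4, hrev a, ?_, e3⟩
        intro h5
        exact hi0 (Fin.ext (by omega))
      · right
        have hi0 := Finset.ne_of_mem_erase hi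
        rw [dnu_bt] at h1
        rw [hI.dnu_m] at h2
        have e1 : b = i := Fin.ext (by have := (Prod.mk.inj h2).1; omega)
        have e2 : a = Fin.rev i := Fin.ext (by have := (Prod.mk.inj h1).1; omega)
        subst e1
        subst e2
        have e3 := (Prod.mk.inj h2).2
        have e4 := (Prod.mk.inj h1).2
        refine ⟨by rw [e3]; exact hocc b hi0, e4, hrev b, ?_, e3⟩
        intro h5
        exact hi0 (Fin.ext (by omega))
    · rintro (⟨_, h2, h3, h4, h5⟩ | ⟨_, h2, h3, h4, h5⟩)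
      · refine ⟨a, Finset.mem_erase.2 ⟨fun h6 => h4 (by rw [h6]; exact hj0), Finset.mem_univ _⟩,
          Or.inl ⟨?_, ?_⟩⟩
        · rw [hI.dnu_m, h5]
        · have e2 : b = Fin.rev a := Fin.ext (by have := hrev a; omega)
          rw [dnu_bt, h2, e2]
      · refine ⟨b, Finset.mem_erase.2 ⟨fun h6 => h4 (by rw [h6]; exact hj0), Finset.mem_univ _⟩,
          Or.inr ⟨?_, ?_⟩⟩
        · have e2 : a = Fin.rev b := Fin.ext (by have := hrev b; omega)
          rw [dnu_bt, h2, e2]
        · rw [hI.dnu_m, h5]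
  · rw [Finset.card_erase_of_mem (Finset.mem_univ _), Finset.card_univ, Fintype.card_fin] at hτ4
    exact hτ4

end Pool.Agent.Lib.MP_72b45c_co.Q
end

section

/-! # MP_72b45c_co, block U (upper bound), job U8: connectivity -/

namespace Pool.Agent.Lib.MP_72b45c_co.Q

open SimpleGraph Equiv Equiv.Perm

variable {n r K : ℕ} {w : List ℕ}

theorem U8_nonleaf_inl {M r : ℕ} (t : Fin M) (b : Bool) : nonleaf ((Sum.inl t, b) : DD M r) := by
  intro i h
  exact Sum.inl_ne_inr (congrArg Prod.fst h)

theorem U8_nonleaf_bt {M r : ℕ} (i : Fin r) : nonleaf (bt i : DD M r) := by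
  intro j h
  exact Bool.false_ne_true (congrArg Prod.snd h)

/-- All nonleaf darts `x` with `vx x = cellN (2i+1) t` (`i < r`, `t ≤ M`) are joined to `bt i`: induction on `t` (`vx_bt`; if `w[t] = 2i+1`
the darts `S_t`, `N_t = rv S_t` join the old and the new cell, `vx_letter_odd`). `bt i` and `bt (i+1)` are joined by `W_t`, `E_t` for a letter
`w[t] = 2i+2` (`mem_of_ne`, `vx_letter_even`), or, if `K = 2i+2`, by `h2`. `vx_spec`, `rv (lf i) = bt i`. -/
theorem ncomp_one (hn : n = 2 * r) (hr : 1 ≤ r) (h : Red n (w ++ [K]))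
    {σ : Perm (DD w.length r)}
    (h1 : ∀ x y, nonleaf x → nonleaf y → vx n w K x = vx n w K y → σ.SameCycle x y)
    (h2 : K % 2 = 0 → ∃ x y, nonleaf x ∧ nonleaf y ∧
      vx n w K x = cellN n (w ++ [K]) (K - 1) w.length ∧
      vx n w K y = cellN n (w ++ [K]) (K + 1) w.length ∧ σ.SameCycle x y) :
    ncomp σ (rv w.length r) = 1 := by
  have hsym : ∀ {x y}, con σ (rv w.length r) x y → con σ (rv w.length r) y x := fun {x y} h =>
    (con σ (rv w.length r)).symm h
  have htr : ∀ {x y z}, con σ (rv w.length r) x y → con σ (rv w.length r) y z → con σ (rv w.length r) x z :=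
    fun {x y z} h h' => (con σ (rv w.length r)).trans h h'
  have hA : ∀ (i : Fin r) (t : ℕ), t ≤ w.length → ∀ x : DD w.length r, nonleaf x →
      vx n w K x = cellN n (w ++ [K]) (2 * i.val + 1) t → con σ (rv w.length r) x (bt i) := by
    intro i t
    induction t with
    | zero =>
      intro _ x hx hv
      exact con_of_sameCycle _ _ (h1 x (bt i) hx (U8_nonleaf_bt i) (hv.trans (vx_bt hn i).symm))
    | succ t ih =>
      intro ht x hx hv
      have ht' : t < w.length := ht
      have htu : t < (w ++ [K]).length := by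
        rw [List.length_append]
        omega
      have hu : (w ++ [K])[t] = w[t] := List.getElem_append_left ht'
      by_cases hk : w[t] = 2 * i.val + 1
      · have hodd : w[(⟨t, ht'⟩ : Fin w.length)] % 2 = 1 := by
          change w[t] % 2 = 1
          omega
        obtain ⟨e1, e2⟩ := vx_letter_odd (r := r) hn h ⟨t, ht'⟩ hodd
        have e1' : vx n w K ((Sum.inl ⟨t, ht'⟩, false) : DD w.length r) =
            cellN n (w ++ [K]) (2 * i.val + 1) t := by
          rw [e1]
          change cellN n (w ++ [K]) w[t] t = _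
          rw [hk]
        have e2' : vx n w K ((Sum.inl ⟨t, ht'⟩, true) : DD w.length r) =
            cellN n (w ++ [K]) (2 * i.val + 1) (t + 1) := by
          rw [e2]
          change cellN n (w ++ [K]) w[t] (t + 1) = _
          rw [hk]
        have c1 := con_of_sameCycle σ (rv w.length r)
          (h1 x (Sum.inl ⟨t, ht'⟩, true) hx (U8_nonleaf_inl _ _) (hv.trans e2'.symm))
        have c2 := con_apply_right σ (rv w.length r) ((Sum.inl ⟨t, ht'⟩, true) : DD w.length r)
        have c3 := ih ht'.le (Sum.inl ⟨t, ht'⟩, false) (U8_nonleaf_inl _ _) e1'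
        exact htr c1 (htr c2 c3)
      · have e3 : cellN n (w ++ [K]) (2 * i.val + 1) (t + 1) = cellN n (w ++ [K]) (2 * i.val + 1) t :=
          congrArg Fin.val (cell_succ_of_ne n htu (by rw [hu]; exact hk))
        exact ih ht'.le x hx (hv.trans e3)
  have hB : ∀ i j : Fin r, j.val = i.val + 1 → con σ (rv w.length r) (bt j) (bt i) := by
    intro i j hij
    have hj := j.2
    by_cases hK : K = 2 * i.val + 2
    · obtain ⟨x, y, hx, hy, e1, e2, e3⟩ := h2 (by omega)
      have e4 : K - 1 = 2 * i.val + 1 := by omega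
      have e5 : K + 1 = 2 * j.val + 1 := by omega
      rw [e4] at e1
      rw [e5] at e2
      have c1 := hA i _ le_rfl x hx e1
      have c2 := hA j _ le_rfl y hy e2
      exact htr (hsym c2) (htr (hsym (con_of_sameCycle σ (rv w.length r) e3)) c1)
    · have hm : 2 * i.val + 2 ∈ w := mem_of_ne h (by omega) (by omega) (fun h => hK h.symm)
      obtain ⟨t, ht, htk⟩ := List.getElem_of_mem hm
      have heven : w[(⟨t, ht⟩ : Fin w.length)] % 2 = 0 := by
        change w[t] % 2 = 0
        omega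
      obtain ⟨e1, e2⟩ := vx_letter_even (r := r) hn h ⟨t, ht⟩ heven
      have e1' : vx n w K ((Sum.inl ⟨t, ht⟩, false) : DD w.length r) =
          cellN n (w ++ [K]) (2 * i.val + 1) t := by
        rw [e1]
        change cellN n (w ++ [K]) (w[t] - 1) t = _
        rw [htk]
        rfl
      have e2' : vx n w K ((Sum.inl ⟨t, ht⟩, true) : DD w.length r) =
          cellN n (w ++ [K]) (2 * j.val + 1) t := by
        rw [e2]
        change cellN n (w ++ [K]) (w[t] + 1) t = _
        rw [htk, hij]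
        rfl
      have c1 := hA i t ht.le _ (U8_nonleaf_inl _ _) e1'
      have c2 := hA j t ht.le _ (U8_nonleaf_inl _ _) e2'
      have c3 := con_apply_right σ (rv w.length r) ((Sum.inl ⟨t, ht⟩, true) : DD w.length r)
      exact htr (hsym c2) (htr c3 c1)
  have hC : ∀ i : ℕ, ∀ hi : i < r, con σ (rv w.length r) (bt ⟨i, hi⟩) (bt ⟨0, hr⟩) := by
    intro i
    induction i with
    | zero => intro hi; exact (con σ (rv w.length r)).refl _
    | succ i ih =>
      intro hi
      exact htr (hB ⟨i, by omega⟩ ⟨i + 1, hi⟩ rfl) (ih (by omega))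
  have hD : ∀ x : DD w.length r, con σ (rv w.length r) x (bt ⟨0, hr⟩) := by
    intro x
    by_cases hx : nonleaf x
    · obtain ⟨i, t, ht, e⟩ := vx_spec hn h x hx
      exact htr (hA i t ht x hx e) (hC i.val i.2)
    · unfold nonleaf at hx
      push Not at hx
      obtain ⟨i, rfl⟩ := hx
      have c := con_apply_right σ (rv w.length r) (lf i)
      rw [rv_lf] at c
      exact htr c (hC i.val i.2)
  unfold ncomp
  rw [Nat.card_eq_one_iff_exists]
  refine ⟨Quotient.mk _ (bt ⟨0, hr⟩), fun q => ?_⟩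
  induction q using Quotient.inductionOn with
  | h x => exact Quotient.sound (hD x)

end Pool.Agent.Lib.MP_72b45c_co.Q
end
end

section

section

/-! # MP_72b45c_co, block U (upper bound), job U7a: gluing, even -/

namespace Pool.Agent.Lib.MP_72b45c_co.Q

open SimpleGraph Equiv Equiv.Perm

variable {n r K : ℕ} {w : List ℕ}

private theorem U7a_inj {u : List ℕ} {k k' t t' : ℕ} (h : lastOcc u k t = lastOcc u k' t')
    (h0 : lastOcc u k t ≠ 0) : k = k' := by
  rcases lastOcc_spec u k t with ⟨h1, _⟩ | ⟨s, hs, _, h2, h3, _⟩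
  · exact absurd h1 h0
  · rcases lastOcc_spec u k' t' with ⟨h1', _⟩ | ⟨s', hs', _, h2', h3', _⟩
    · exact absurd (h.trans h1') h0
    · have h4 : s = s' := by omega
      subst h4
      exact h2.symm.trans h2'

private theorem U7a_L (hn : n = 2 * r) (h : Red n (w ++ [K])) (hK : K % 2 = 0) (i : Fin r) :
    lastOcc w (2 * i.val + 1) w.length ≠ 0 := by
  have h1 := i.isLt
  exact lastOcc_pos_iff.2 (mem_of_ne h (by omega) (by omega) (by omega))

private theorem U7a_nm0 (hn : n = 2 * r) (hK : K % 2 = 0) (i : Fin r) :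
    nm n (w ++ [K]) (2 * i.val + 1, 0) = lastOcc w (2 * (Fin.rev i).val + 1) w.length := by
  have h1 : n - (2 * i.val + 1) = 2 * (Fin.rev i).val + 1 := by
    rw [Fin.val_rev]
    have := i.isLt
    omega
  have h2 : (w ++ [K]).length = w.length + 1 := by simp
  have h3 : w.length < (w ++ [K]).length := by omega
  have h4 : (w ++ [K])[w.length] ≠ 2 * (Fin.rev i).val + 1 := by
    have h5 : (w ++ [K])[w.length] = K := by simp
    rw [h5]
    omega
  have h6 : nm n (w ++ [K]) (2 * i.val + 1, 0) =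
      lastOcc (w ++ [K]) (n - (2 * i.val + 1)) (w ++ [K]).length := by
    unfold nm
    exact if_neg (fun h => h rfl)
  rw [h6, h1, h2, lastOcc_succ_of_ne h3 h4, lastOcc_append le_rfl]

private theorem U7a_nm1 {u : List ℕ} {k s : ℕ} (hs : s ≠ 0) : nm n u (k, s) = s := by
  unfold nm
  exact if_pos hs

private theorem U7a_vxL (hn : n = 2 * r) (h : Red n (w ++ [K])) (hK : K % 2 = 0)
    {x : DD w.length r} (hx : nonleaf x) (j : Fin r) :
    vx n w K x = lastOcc w (2 * j.val + 1) w.length ↔
      dnu w x = (2 * j.val + 1, lastOcc w (2 * j.val + 1) w.length) ∨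
      dnu w x = (2 * (Fin.rev j).val + 1, 0) := by
  obtain ⟨i, t, ht, h1⟩ := dnu_spec hn h x hx
  have hL := U7a_L hn h hK
  unfold vx
  rw [h1]
  by_cases s0 : lastOcc w (2 * i.val + 1) t = 0
  · rw [s0, U7a_nm0 hn hK]
    constructor
    · intro h2
      have h3 := U7a_inj h2 (hL _)
      have h4 : Fin.rev i = j := Fin.ext (by omega)
      right
      rw [← h4, Fin.rev_rev]
    · rintro (h2 | h2)
      · exact absurd (Prod.mk.inj h2).2.symm (hL _)
      · have h3 := (Prod.mk.inj h2).1
        have h4 : i = Fin.rev j := Fin.ext (by omega)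
        rw [h4, Fin.rev_rev]
  · rw [U7a_nm1 s0]
    constructor
    · intro h2
      have h3 := U7a_inj h2 s0
      left
      rw [h2, h3]
    · rintro (h2 | h2)
      · exact (Prod.mk.inj h2).2
      · exact absurd (Prod.mk.inj h2).2 s0

private theorem U7a_vx (hn : n = 2 * r) (h : Red n (w ++ [K])) (hK : K % 2 = 0)
    {x y : DD w.length r} (hx : nonleaf x) (hy : nonleaf y) :
    vx n w K x = vx n w K y ↔ dnu w x = dnu w y ∨ ∃ i : Fin r,
      (dnu w x = (2 * i.val + 1, lastOcc w (2 * i.val + 1) w.length) ∧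
        dnu w y = (2 * (Fin.rev i).val + 1, 0)) ∨
      (dnu w x = (2 * (Fin.rev i).val + 1, 0) ∧
        dnu w y = (2 * i.val + 1, lastOcc w (2 * i.val + 1) w.length)) := by
  constructor
  · intro h0
    obtain ⟨i, t, ht, h1⟩ := dnu_spec hn h x hx
    obtain ⟨i', t', ht', h1'⟩ := dnu_spec hn h y hy
    by_cases s0' : lastOcc w (2 * i'.val + 1) t' = 0
    · rw [s0'] at h1'
      have h2 : vx n w K y = lastOcc w (2 * (Fin.rev i').val + 1) w.length := by
        unfold vx
        rw [h1', U7a_nm0 hn hK]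
      rcases (U7a_vxL hn h hK hx (Fin.rev i')).1 (h0.trans h2) with h3 | h3
      · exact Or.inr ⟨Fin.rev i', Or.inl ⟨h3, by rw [h1', Fin.rev_rev]⟩⟩
      · left
        rw [h3, h1', Fin.rev_rev]
    · by_cases s0 : lastOcc w (2 * i.val + 1) t = 0
      · rw [s0] at h1
        have h2 : vx n w K x = lastOcc w (2 * (Fin.rev i).val + 1) w.length := by
          unfold vx
          rw [h1, U7a_nm0 hn hK]
        rcases (U7a_vxL hn h hK hy (Fin.rev i)).1 (h0.symm.trans h2) with h3 | h3
        · exact Or.inr ⟨Fin.rev i, Or.inr ⟨by rw [h1, Fin.rev_rev], h3⟩⟩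
        · left
          rw [h3, h1, Fin.rev_rev]
      · left
        unfold vx at h0
        rw [h1, h1', U7a_nm1 s0, U7a_nm1 s0'] at h0
        rw [h1, h1', h0, U7a_inj h0 s0]
  · rintro (h0 | ⟨i, ⟨h1, h2⟩ | ⟨h1, h2⟩⟩)
    · unfold vx
      rw [h0]
    · rw [(U7a_vxL hn h hK hx i).2 (Or.inl h1), (U7a_vxL hn h hK hy i).2 (Or.inr h2)]
    · rw [(U7a_vxL hn h hK hx i).2 (Or.inr h1), (U7a_vxL hn h hK hy i).2 (Or.inl h2)]

/-- three merges along a 4-cycle -/
private theorem U7a_merge4 {X Λ : Type*} [Finite X] [DecidableEq X] [DecidableEq Λ] {σ : Perm X}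
    {ν : X → Λ} (hν : ∀ x y, σ.SameCycle x y ↔ ν x = ν y) {a b c d : X} (hab : ν a ≠ ν b)
    (hac : ν a ≠ ν c) (had : ν a ≠ ν d) (hbc : ν b ≠ ν c) (hbd : ν b ≠ ν d) (hcd : ν c ≠ ν d) :
    ∃ (ρ : Perm X) (μ : X → Λ), ρ a = b ∧ ρ b = c ∧ ρ c = d ∧ ρ d = a ∧
      (∀ x, x ≠ a → x ≠ b → x ≠ c → x ≠ d → ρ x = x) ∧
      (∀ x y, (σ * ρ).SameCycle x y ↔ μ x = μ y) ∧
      (∀ x, ν x = ν a ∨ ν x = ν b ∨ ν x = ν c ∨ ν x = ν d → μ x = ν a) ∧
      (∀ x, ¬ (ν x = ν a ∨ ν x = ν b ∨ ν x = ν c ∨ ν x = ν d) → μ x = ν x) ∧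
      cyc (σ * ρ) + 3 = cyc σ := by
  have ne : ∀ {x y : X}, ν x ≠ ν y → x ≠ y := fun h h' => h (congrArg ν h')
  obtain ⟨e1, c1⟩ := merge_label hν hab
  let ν1 : X → Λ := fun x => if ν x = ν b then ν a else ν x
  have e1' : ∀ x y, (σ * swap a b).SameCycle x y ↔ ν1 x = ν1 y := e1
  have v1b : ν1 b = ν a := if_pos rfl
  have v1c : ν1 c = ν c := if_neg hbc.symm
  obtain ⟨e2, c2⟩ := merge_label (a := b) (b := c) e1' (by rw [v1b, v1c]; exact hac)
  rw [v1b, v1c] at e2
  let ν2 : X → Λ := fun x => if ν1 x = ν c then ν a else ν1 x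
  have e2' : ∀ x y, (σ * swap a b * swap b c).SameCycle x y ↔ ν2 x = ν2 y := e2
  have v2c : ν2 c = ν a := if_pos v1c
  have v1d : ν1 d = ν d := if_neg hbd.symm
  have v2d : ν2 d = ν d := by
    show (if ν1 d = ν c then ν a else ν1 d) = ν d
    rw [v1d, if_neg hcd.symm]
  obtain ⟨e3, c3⟩ := merge_label (a := c) (b := d) e2' (by rw [v2c, v2d]; exact had)
  rw [v2c, v2d] at e3
  refine ⟨swap a b * (swap b c * swap c d), fun x => if ν2 x = ν d then ν a else ν2 x,
    ?_, ?_, ?_, ?_, ?_, ?_, ?_, ?_, ?_⟩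
  · rw [Perm.mul_apply, Perm.mul_apply, swap_apply_of_ne_of_ne (ne hac) (ne had),
      swap_apply_of_ne_of_ne (ne hab) (ne hac), swap_apply_left]
  · rw [Perm.mul_apply, Perm.mul_apply, swap_apply_of_ne_of_ne (ne hbc) (ne hbd),
      swap_apply_left, swap_apply_of_ne_of_ne (ne hac).symm (ne hbc).symm]
  · rw [Perm.mul_apply, Perm.mul_apply, swap_apply_left,
      swap_apply_of_ne_of_ne (ne hbd).symm (ne hcd).symm,
      swap_apply_of_ne_of_ne (ne had).symm (ne hbd).symm]
  · rw [Perm.mul_apply, Perm.mul_apply, swap_apply_right, swap_apply_right, swap_apply_right]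
  · intro x h1 h2 h3 h4
    rw [Perm.mul_apply, Perm.mul_apply, swap_apply_of_ne_of_ne h3 h4,
      swap_apply_of_ne_of_ne h2 h3, swap_apply_of_ne_of_ne h1 h2]
  · intro x y
    rw [← mul_assoc, ← mul_assoc]
    exact e3 x y
  · rintro x (h | h | h | h)
    · have h1 : ν1 x = ν a := by
        show (if ν x = ν b then ν a else ν x) = ν a
        rw [h, if_neg hab]
      have h2 : ν2 x = ν a := by
        show (if ν1 x = ν c then ν a else ν1 x) = ν a
        rw [h1, if_neg hac]
      show (if ν2 x = ν d then ν a else ν2 x) = ν a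
      rw [h2, if_neg had]
    · have h1 : ν1 x = ν a := if_pos h
      have h2 : ν2 x = ν a := by
        show (if ν1 x = ν c then ν a else ν1 x) = ν a
        rw [h1, if_neg hac]
      show (if ν2 x = ν d then ν a else ν2 x) = ν a
      rw [h2, if_neg had]
    · have h1 : ν1 x = ν c := by
        show (if ν x = ν b then ν a else ν x) = ν c
        rw [h, if_neg hbc.symm]
      have h2 : ν2 x = ν a := if_pos h1
      show (if ν2 x = ν d then ν a else ν2 x) = ν a
      rw [h2, if_neg had]
    · have h1 : ν1 x = ν d := by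
        show (if ν x = ν b then ν a else ν x) = ν d
        rw [h, if_neg hbd.symm]
      have h2 : ν2 x = ν d := by
        show (if ν1 x = ν c then ν a else ν1 x) = ν d
        rw [h1, if_neg hcd.symm]
      exact if_pos h2
  · intro x h
    have h1 : ν1 x = ν x := if_neg fun h' => h (Or.inr (Or.inl h'))
    have h2 : ν2 x = ν x := by
      show (if ν1 x = ν c then ν a else ν1 x) = ν x
      rw [h1, if_neg fun h' => h (Or.inr (Or.inr (Or.inl h')))]
    show (if ν2 x = ν d then ν a else ν2 x) = ν x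
    rw [h2, if_neg fun h' => h (Or.inr (Or.inr (Or.inr h')))]
  · rw [← mul_assoc, ← mul_assoc]
    omega

/-- `K = 2 j + 2`. All letters `2 i + 1` occur in `w` (`mem_of_ne`), so all markers are different from all dummy darts,
`dnu (m i) = (2i+1, s)` with `s ≠ 0`. First three merges (`merge_label`): `swap (m j) (m (j+1))`, `swap (bt (rev j)) (bt (rev (j+1)))`,
`swap (m (j+1)) (bt (rev (j+1)))`, a 4-cycle `m j ↦ m (j+1) ↦ bt (rev j) ↦ bt (rev (j+1)) ↦ m j`; then `glue` for the `i ≠ j, j+1` with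
`a = m`, `b i = bt (Fin.rev i)`. The names: `nm (k, s) = nm (k', s')` iff equal or `(k, lastOcc w k M)`, `(n-k, 0)`; the cells of `m j`,
`bt (rev j)` are `cellN (K-1) M`, the cells of `m (j+1)`, `bt (rev (j+1))` are `cellN (K+1) M`. -/
theorem glue_even (hn : n = 2 * r) (h : Red n (w ++ [K])) {j j' : Fin r} (hj : j'.val = j.val + 1)
    (hK : K = 2 * j.val + 2) {σ : Perm (DD w.length r)} {m : Fin r → DD w.length r}
    (hI : Inv n w K r w.length σ m) :
    ∃ τ : Perm (DD w.length r),
      (∀ y, (∀ i, y ≠ m i) → (∀ i, y ≠ bt i) → τ y = y) ∧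
      τ (m j) = m j' ∧ τ (m j') = bt (Fin.rev j) ∧ τ (bt (Fin.rev j)) = bt (Fin.rev j') ∧
      τ (bt (Fin.rev j')) = m j ∧
      (∀ i, i ≠ j → i ≠ j' → τ (m i) = bt (Fin.rev i) ∧ τ (bt (Fin.rev i)) = m i) ∧
      (∀ x y, nonleaf x → nonleaf y → ((σ * τ).SameCycle x y ↔ vxE n w K x = vxE n w K y)) ∧
      cyc (σ * τ) + (r + 1) = cyc σ := by
  have hKe : K % 2 = 0 := by omega
  have hL := U7a_L hn h hKe
  have hm := hI.dnu_m
  have hb : ∀ i : Fin r, dnu w (bt i : DD w.length r) = (2 * i.val + 1, 0) := dnu_bt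
  have hjj : j ≠ j' := fun h' => by
    have := congrArg Fin.val h'
    omega
  have hrev : ∀ {i i' : Fin r}, i ≠ i' → Fin.rev i ≠ Fin.rev i' := fun h1 h2 =>
    h1 (Fin.rev_injective h2)
  -- the labels of the markers and of the dummy darts are pairwise different
  have nmm : ∀ {i i' : Fin r}, i ≠ i' → dnu w (m i) ≠ dnu w (m i') := fun {i i'} h1 h2 => by
    rw [hm, hm] at h2
    have h3 := (Prod.mk.inj h2).1
    exact h1 (Fin.ext (by omega))
  have nbb : ∀ {i i' : Fin r}, i ≠ i' →
      dnu w (bt i : DD w.length r) ≠ dnu w (bt i' : DD w.length r) := fun {i i'} h1 h2 => by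
    rw [hb, hb] at h2
    have h3 := (Prod.mk.inj h2).1
    exact h1 (Fin.ext (by omega))
  have nmb : ∀ i i' : Fin r, dnu w (m i) ≠ dnu w (bt i' : DD w.length r) := fun i i' h2 => by
    rw [hm, hb] at h2
    exact hL i (Prod.mk.inj h2).2
  have ne : ∀ {x y : DD w.length r}, dnu w x ≠ dnu w y → x ≠ y :=
    fun h h' => h (congrArg (dnu w) h')
  obtain ⟨ρ, μ, ra, rb, rc, rd, rfix, rsame, rF, rN, rcyc⟩ :=
    U7a_merge4 (a := m j) (b := m j') (c := bt (Fin.rev j)) (d := bt (Fin.rev j'))
      hI.same_all (nmm hjj) (nmb _ _) (nmb _ _) (nmb _ _) (nmb _ _) (nbb (hrev hjj))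
  have μm : ∀ i, i ≠ j → i ≠ j' → μ (m i) = dnu w (m i) := fun i h1 h2 =>
    rN _ (by
      rintro (h' | h' | h' | h')
      · exact nmm h1 h'
      · exact nmm h2 h'
      · exact nmb _ _ h'
      · exact nmb _ _ h')
  have μb : ∀ i, i ≠ j → i ≠ j' → μ (bt (Fin.rev i)) = dnu w (bt (Fin.rev i) : DD w.length r) :=
    fun i h1 h2 => rN _ (by
      rintro (h' | h' | h' | h')
      · exact nmb _ _ h'.symm
      · exact nmb _ _ h'.symm
      · exact nbb (hrev h1) h'
      · exact nbb (hrev h2) h')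
  have hS : ∀ i, i ∈ (Finset.univ \ {j, j'} : Finset (Fin r)) ↔ i ≠ j ∧ i ≠ j' := by
    intro i
    simp
  obtain ⟨τ, t1, t2, t3, t4⟩ := glue rsame m (fun i => bt (Fin.rev i))
    (Finset.univ \ {j, j'})
    (by
      intro i hi i' hi'
      rw [hS] at hi hi'
      rw [μm i hi.1 hi.2, μb i' hi'.1 hi'.2]
      exact nmb _ _)
    (by
      intro i hi i' hi' hne
      rw [hS] at hi hi'
      rw [μm i hi.1 hi.2, μb i' hi'.1 hi'.2, μm i' hi'.1 hi'.2, μb i hi.1 hi.2]
      exact ⟨nmm hne, nbb (hrev hne)⟩)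
  have hcard : (Finset.univ \ {j, j'} : Finset (Fin r)).card + 2 = r := by
    have h1 := Finset.card_sdiff_add_card_eq_card (Finset.subset_univ ({j, j'} : Finset (Fin r)))
    rw [Finset.card_pair hjj, Finset.card_univ, Fintype.card_fin] at h1
    exact h1
  have τm : ∀ i, i = j ∨ i = j' → τ (m i) = m i ∧ τ (bt (Fin.rev i)) = bt (Fin.rev i) := by
    intro i hi
    have hne : ∀ i', i' ∈ (Finset.univ \ {j, j'} : Finset (Fin r)) → i ≠ i' := by
      intro i' hi' h1
      rw [hS] at hi'
      subst h1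
      rcases hi with h1 | h1
      · exact hi'.1 h1
      · exact hi'.2 h1
    exact ⟨t2 _ fun i' hi' => ⟨ne (nmm (hne i' hi')), ne (nmb _ _)⟩,
      t2 _ fun i' hi' => ⟨(ne (nmb _ _)).symm, ne (nbb (hrev (hne i' hi')))⟩⟩
  refine ⟨ρ * τ, ?_, ?_, ?_, ?_, ?_, ?_, ?_, ?_⟩
  · intro y h1 h2
    rw [Perm.mul_apply, t2 y fun i _ => ⟨h1 i, h2 _⟩]
    exact rfix y (h1 _) (h1 _) (h2 _) (h2 _)
  · rw [Perm.mul_apply, (τm j (Or.inl rfl)).1, ra]
  · rw [Perm.mul_apply, (τm j' (Or.inr rfl)).1, rb]
  · rw [Perm.mul_apply, (τm j (Or.inl rfl)).2, rc]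
  · rw [Perm.mul_apply, (τm j' (Or.inr rfl)).2, rd]
  · intro i h1 h2
    have h3 := t1 i ((hS i).2 ⟨h1, h2⟩)
    rw [Perm.mul_apply, Perm.mul_apply, h3.1, h3.2]
    exact ⟨rfix _ (ne (nmb _ _)).symm (ne (nmb _ _)).symm (ne (nbb (hrev h1)))
      (ne (nbb (hrev h2))), rfix _ (ne (nmm h1)) (ne (nmm h2)) (ne (nmb _ _)) (ne (nmb _ _))⟩
  · intro x y hx hy
    rw [← mul_assoc, t3]
    -- the cells of the four special darts
    have hC : cellN n (w ++ [K]) (K + 1) w.length = lastOcc w (2 * j'.val + 1) w.length := by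
      have h1 := nm_eq_cellN (K := K) hn j'.isLt (le_refl w.length)
      rw [U7a_nm1 (hL j')] at h1
      have h2 : K + 1 = 2 * j'.val + 1 := by omega
      rw [h2]
      exact h1.symm
    have hD : cellN n (w ++ [K]) (K - 1) w.length = lastOcc w (2 * j.val + 1) w.length := by
      have h1 := nm_eq_cellN (K := K) hn j.isLt (le_refl w.length)
      rw [U7a_nm1 (hL j)] at h1
      have h2 : K - 1 = 2 * j.val + 1 := by omega
      rw [h2]
      exact h1.symm
    have hE : ∀ z : DD w.length r, nonleaf z →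
        ((dnu w z = dnu w (m j) ∨ dnu w z = dnu w (m j') ∨
          dnu w z = dnu w (bt (Fin.rev j) : DD w.length r) ∨
          dnu w z = dnu w (bt (Fin.rev j') : DD w.length r)) →
          vxE n w K z = lastOcc w (2 * j.val + 1) w.length) ∧
        (¬ (dnu w z = dnu w (m j) ∨ dnu w z = dnu w (m j') ∨
          dnu w z = dnu w (bt (Fin.rev j) : DD w.length r) ∨
          dnu w z = dnu w (bt (Fin.rev j') : DD w.length r)) →
          vxE n w K z = vx n w K z ∧ vx n w K z ≠ lastOcc w (2 * j.val + 1) w.length) := by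
      intro z hz
      have h1 := U7a_vxL hn h hKe hz j
      have h2 := U7a_vxL hn h hKe hz j'
      rw [← hm j, ← hb (Fin.rev j)] at h1
      rw [← hm j', ← hb (Fin.rev j')] at h2
      unfold vxE
      rw [hC, hD]
      constructor
      · intro h3
        by_cases h4 : vx n w K z = lastOcc w (2 * j'.val + 1) w.length
        · rw [if_pos h4]
        · rw [if_neg h4]
          rw [h2] at h4
          rw [h1]
          tauto
      · intro h3
        have h4 : ¬ vx n w K z = lastOcc w (2 * j'.val + 1) w.length := by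
          rw [h2]
          tauto
        rw [if_neg h4]
        refine ⟨rfl, ?_⟩
        rw [Ne, h1]
        tauto
    by_cases hFx : dnu w x = dnu w (m j) ∨ dnu w x = dnu w (m j') ∨
        dnu w x = dnu w (bt (Fin.rev j) : DD w.length r) ∨
        dnu w x = dnu w (bt (Fin.rev j') : DD w.length r)
    · rw [rF x hFx, (hE x hx).1 hFx]
      by_cases hFy : dnu w y = dnu w (m j) ∨ dnu w y = dnu w (m j') ∨
        dnu w y = dnu w (bt (Fin.rev j) : DD w.length r) ∨
        dnu w y = dnu w (bt (Fin.rev j') : DD w.length r)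
      · rw [rF y hFy, (hE y hy).1 hFy]
        exact ⟨fun _ => rfl, fun _ => Or.inl rfl⟩
      · obtain ⟨h1, h2⟩ := (hE y hy).2 hFy
        rw [rN y hFy, h1]
        constructor
        · rintro (h3 | ⟨i, hi, ⟨h3, _⟩ | ⟨h3, _⟩⟩)
          · exact absurd (Or.inl h3.symm) hFy
          · rw [hS] at hi
            rw [μm i hi.1 hi.2] at h3
            exact absurd h3.symm (nmm hi.1)
          · rw [hS] at hi
            rw [μb i hi.1 hi.2] at h3
            exact absurd h3 (nmb _ _)
        · intro h3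
          exact absurd h3.symm h2
    · obtain ⟨h1, h2⟩ := (hE x hx).2 hFx
      rw [rN x hFx, h1]
      by_cases hFy : dnu w y = dnu w (m j) ∨ dnu w y = dnu w (m j') ∨
        dnu w y = dnu w (bt (Fin.rev j) : DD w.length r) ∨
        dnu w y = dnu w (bt (Fin.rev j') : DD w.length r)
      · rw [rF y hFy, (hE y hy).1 hFy]
        constructor
        · rintro (h3 | ⟨i, hi, ⟨_, h3⟩ | ⟨_, h3⟩⟩)
          · exact absurd (Or.inl h3) hFx
          · rw [hS] at hi
            rw [μb i hi.1 hi.2] at h3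
            exact absurd h3 (nmb _ _)
          · rw [hS] at hi
            rw [μm i hi.1 hi.2] at h3
            exact absurd h3.symm (nmm hi.1)
        · intro h3
          exact absurd h3 h2
      · obtain ⟨h1', h2'⟩ := (hE y hy).2 hFy
        rw [rN y hFy, h1', U7a_vx hn h hKe hx hy]
        constructor
        · rintro (h3 | ⟨i, hi, h3⟩)
          · exact Or.inl h3
          · rw [hS] at hi
            rw [μb i hi.1 hi.2, μm i hi.1 hi.2, hm, hb] at h3
            exact Or.inr ⟨i, h3⟩
        · rintro (h3 | ⟨i, h3⟩)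
          · exact Or.inl h3
          · have hij : i ≠ j := by
              rintro rfl
              rw [← hm, ← hb] at h3
              rcases h3 with h3 | h3
              · exact hFx (Or.inl h3.1)
              · exact hFy (Or.inl h3.2)
            have hij' : i ≠ j' := by
              rintro rfl
              rw [← hm, ← hb] at h3
              rcases h3 with h3 | h3
              · exact hFx (Or.inr (Or.inl h3.1))
              · exact hFy (Or.inr (Or.inl h3.2))
            refine Or.inr ⟨i, (hS i).2 ⟨hij, hij'⟩, ?_⟩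
            rw [μb i hij hij', μm i hij hij', hm, hb]
            exact h3
  · rw [← mul_assoc]
    omega

end Pool.Agent.Lib.MP_72b45c_co.Q
end

section

/-! # MP_72b45c_co, block U (upper bound), job U6b: faces, odd -/

namespace Pool.Agent.Lib.MP_72b45c_co.Q

open SimpleGraph Equiv Equiv.Perm

variable {n r K : ℕ} {w : List ℕ}

private theorem U6b_countP (p : ℕ → Bool) (u : List ℕ) :
    (Finset.univ.filter (fun i : Fin u.length => p (u.getD i 0) = true)).card = u.countP p := by
  induction u with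
  | nil => simp
  | cons a u ih =>
    have h := Fin.card_filter_univ_succ (fun i : Fin (u.length + 1) =>
      p ((a :: u).getD i 0) = true)
    have h2 : (Finset.univ.filter (fun i : Fin (a :: u).length =>
        p ((a :: u).getD i 0) = true)).card =
        (Finset.univ.filter (fun i : Fin (u.length + 1) => p ((a :: u).getD i 0) = true)).card :=
      rfl
    rw [h2, h, List.countP_cons]
    have h3 : (Finset.univ.filter (fun i : Fin u.length =>
        p ((a :: u).getD (Fin.succ i) 0) = true)).card = u.countP p := by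
      rw [← ih]
      congr 1
    rw [h3]
    simp only [Fin.val_zero, List.getD_cons_zero]
    split_ifs <;> simp

private theorem U6b_zero (n : ℕ) (u : List ℕ) (k t : ℕ) (h : k = 0 ∨ n ≤ k) :
    cellN n u k t = 0 := by
  unfold cellN
  rw [if_pos h]

private theorem U6b_wrap {n : ℕ} {u : List ℕ} (hf : Full n u) {k : ℕ} (h1 : 1 ≤ k) (h2 : k < n) :
    cellN n u k u.length = cellN n u (n - k) 0 :=
  congrArg Fin.val (cell_wrap hf h1 h2)

private theorem U6b_succ {n : ℕ} {u : List ℕ} {k t : ℕ} (ht : t < u.length) (h : u[t] ≠ k) :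
    cellN n u k (t + 1) = cellN n u k t :=
  congrArg Fin.val (cell_succ_of_ne n ht h)

/-- the exceptional labels -/
private def U6b_Ex (n : ℕ) (u : List ℕ) (r : ℕ) : Finset ℕ :=
  (Finset.range r).image (fun i => cellN n u (2 * i) u.length)

private theorem U6b_mem_end {n r : ℕ} {u : List ℕ} (hn : n = 2 * r) (hr : 1 ≤ r) {i : ℕ}
    (hi : i ≤ r) : cellN n u (2 * i) u.length ∈ U6b_Ex n u r := by
  unfold U6b_Ex
  rw [Finset.mem_image]
  by_cases h : i = r
  · refine ⟨0, Finset.mem_range.2 (by omega), ?_⟩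
    rw [U6b_zero n u (2 * 0) _ (Or.inl rfl), U6b_zero n u (2 * i) _ (Or.inr (by omega))]
  · exact ⟨i, Finset.mem_range.2 (by omega), rfl⟩

private theorem U6b_zero_mem {n r : ℕ} {u : List ℕ} (hn : n = 2 * r) (hr : 1 ≤ r) :
    0 ∈ U6b_Ex n u r := by
  have h := U6b_mem_end (u := u) hn hr (i := 0) (Nat.zero_le _)
  rwa [U6b_zero n u (2 * 0) _ (Or.inl rfl)] at h

private theorem U6b_mem_start {n r : ℕ} {u : List ℕ} (hn : n = 2 * r) (hr : 1 ≤ r)
    (hf : Full n u) {i : ℕ} (hi : i ≤ r) : cellN n u (2 * i) 0 ∈ U6b_Ex n u r := by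
  by_cases h0 : i = 0 ∨ i = r
  · rw [U6b_zero n u (2 * i) 0 (by omega)]
    exact U6b_zero_mem hn hr
  · have h1 : cellN n u (2 * (r - i)) u.length = cellN n u (2 * i) 0 := by
      rw [U6b_wrap hf (by omega) (by omega)]
      congr 1
      omega
    rw [← h1]
    exact U6b_mem_end hn hr (by omega)

private theorem U6b_mem_M {n r K : ℕ} {w : List ℕ} (hn : n = 2 * r) (hr : 1 ≤ r)
    (hK : K % 2 = 1) {i : ℕ} (hi : i ≤ r) :
    cellN n (w ++ [K]) (2 * i) w.length ∈ U6b_Ex n (w ++ [K]) r := by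
  have h1 : cellN n (w ++ [K]) (2 * i) (w.length + 1) = cellN n (w ++ [K]) (2 * i) w.length := by
    refine U6b_succ (by simp) ?_
    simp only [List.getElem_append_right (le_refl _), Nat.sub_self, List.getElem_cons_zero]
    omega
  have h2 := U6b_mem_end (u := w ++ [K]) hn hr hi
  have h3 : (w ++ [K]).length = w.length + 1 := by simp
  rw [h3, h1] at h2
  exact h2

/-- Exceptional labels `Ex = {cellN (2i) (M+1) : i ≤ r}` (contains `0`, at most `r` elements); `f x = 0` if `lam x ∈ Ex`,
`f x = lam x` otherwise. `f` is invariant under `x ↦ (σ * τ) (rv x)`: if `rv x` is no marker and no dummy dart this is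
`lam_x`; otherwise `(σ * τ) (rv x) = σ y` with `y` a marker or a dummy dart, and all labels are in `Ex`: `lam (σ (m i)) = cell (2i) M`,
`lam (σ (bt i)) = cell (2i+2) 0` or `cell (2i) M`, `lam (rv (m i)) = cell (2i+2) M`, `lam (lf i) = cell (2i) 0`; here
`cell (2i) M = cell (2i) (M+1)` (`K` is odd) and `cell (2i) 0 = cell (n-2i) (M+1)` (`cell_wrap`). Its values contain `0` and all white names
(`t + 1` with `w[t]` even: `lam E_t`) outside `Ex`; `card_range_le_cyc`. -/
theorem faces_odd (hn : n = 2 * r) (hr : 1 ≤ r) (h : Red n (w ++ [K])) (hK : K % 2 = 1)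
    {σ : Perm (DD w.length r)} {m : Fin r → DD w.length r} (hI : Inv n w K r w.length σ m)
    (τ : Perm (DD w.length r))
    (h1 : ∀ y, (∀ i, y ≠ m i) → (∀ i, y ≠ bt i) → τ y = y)
    (h2 : ∀ y, (∃ i, y = m i ∨ y = bt i) → ∃ i, τ y = m i ∨ τ y = bt i) :
    w.countP (fun k => k % 2 == 0) + 2 ≤ cyc ((σ * τ) * rv w.length r) + r := by
  classical
  have hf : Full n (w ++ [K]) := h.full
  obtain ⟨f, hfdef⟩ : ∃ f : DD w.length r → ℕ, ∀ x, f x =
      if lam n w K x ∈ U6b_Ex n (w ++ [K]) r then 0 else lam n w K x := ⟨_, fun _ => rfl⟩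
  have hf0 : ∀ x, lam n w K x ∈ U6b_Ex n (w ++ [K]) r → f x = 0 := by
    intro x hx
    rw [hfdef, if_pos hx]
  have hused : ∀ x : DD w.length r, used w.length x := fun x => used_all x
  -- labels after a marker or a dummy dart
  have hσm : ∀ i, lam n w K (σ (m i)) ∈ U6b_Ex n (w ++ [K]) r := by
    intro i
    rw [hI.lam_m i]
    exact U6b_mem_M hn hr hK i.isLt.le
  have hσb : ∀ i, lam n w K (σ (bt i)) ∈ U6b_Ex n (w ++ [K]) r := by
    intro i
    rcases hI.lam_a i with ⟨h3, _⟩ | ⟨_, _, h3⟩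
    · rw [← h3]
      exact hσm i
    · rw [h3]
      exact U6b_mem_start hn hr hf (i := i.val + 1) (by have := i.isLt; omega)
  have hlf : ∀ i : Fin r, lam n w K (lf i : DD w.length r) ∈ U6b_Ex n (w ++ [K]) r := by
    intro i
    exact U6b_mem_start hn hr hf i.isLt.le
  have hrm : ∀ i, lam n w K (rv w.length r (m i)) ∈ U6b_Ex n (w ++ [K]) r := by
    intro i
    rcases hI.lam_a i with ⟨h3, _⟩ | ⟨_, h3, _⟩
    · rw [h3, rv_bt]
      exact hlf i
    · rw [h3]
      exact U6b_mem_M hn hr hK (i := i.val + 1) (by have := i.isLt; omega)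
  have hrb : ∀ i : Fin r, lam n w K (rv w.length r (bt i)) ∈ U6b_Ex n (w ++ [K]) r := by
    intro i
    rw [rv_bt]
    exact hlf i
  -- invariance
  have hinv : ∀ x, f (((σ * τ) * rv w.length r) x) = f x := by
    intro x
    rw [Perm.mul_apply, Perm.mul_apply]
    obtain ⟨y, hy⟩ : ∃ y, y = rv w.length r x := ⟨_, rfl⟩
    have hx : x = rv w.length r y := by rw [hy, rv_rv]
    rw [← hy]
    by_cases hyS : ∃ i, y = m i ∨ y = bt i
    · have e1 : f (σ (τ y)) = 0 := by
        obtain ⟨i, hi | hi⟩ := h2 y hyS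
        · rw [hi]
          exact hf0 _ (hσm i)
        · rw [hi]
          exact hf0 _ (hσb i)
      have e2 : f x = 0 := by
        rw [hx]
        obtain ⟨i, hi | hi⟩ := hyS
        · rw [hi]
          exact hf0 _ (hrm i)
        · rw [hi]
          exact hf0 _ (hrb i)
      rw [e1, e2]
    · have hym : ∀ i, y ≠ m i := fun i hi => hyS ⟨i, Or.inl hi⟩
      have hyb : ∀ i, y ≠ bt i := fun i hi => hyS ⟨i, Or.inr hi⟩
      rw [h1 y hym hyb]
      have hnl : nonleaf x := by
        intro i hi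
        apply hyb i
        rw [hy, hi, rv_lf]
      have e1 : lam n w K (σ y) = lam n w K x := by
        rw [hy]
        exact hI.lam_x x (hused x) hnl (fun i => by rw [← hy]; exact hym i)
      rw [hfdef, hfdef, e1]
  have hcard := card_range_le_cyc ((σ * τ) * rv w.length r) f hinv
  -- the values
  have hfin : (Set.range f).Finite := Set.finite_range f
  obtain ⟨R, hR⟩ : ∃ R : Finset ℕ, ∀ y, y ∈ R ↔ y ∈ Set.range f :=
    ⟨hfin.toFinset, fun y => by rw [Set.Finite.mem_toFinset]⟩
  have hRcard : R.card = Nat.card (Set.range f) := by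
    have e : (R : Set ℕ) = Set.range f := Set.ext fun y => by
      rw [Finset.mem_coe]
      exact hR y
    rw [← e]
    simp
  have h0R : 0 ∈ R := by
    rw [hR]
    exact ⟨lf ⟨0, hr⟩, hf0 _ (hlf _)⟩
  have h0E := U6b_zero_mem (u := w ++ [K]) hn hr
  have hEcard : (U6b_Ex n (w ++ [K]) r).card ≤ r := by
    unfold U6b_Ex
    exact Finset.card_image_le.trans (by rw [Finset.card_range])
  obtain ⟨p, hp⟩ : ∃ p : ℕ → Bool, p = fun k => k % 2 == 0 := ⟨_, rfl⟩
  rw [← hp]
  have hsub : (Finset.univ.filter (fun i : Fin w.length =>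
      p (w.getD i 0) = true)).image (fun i => i.val + 1) ⊆
      R.erase 0 ∪ (U6b_Ex n (w ++ [K]) r).erase 0 := by
    intro y hy
    obtain ⟨t, ht, rfl⟩ := Finset.mem_image.1 hy
    have ht2 := (Finset.mem_filter.1 ht).2
    have hwt : w[t] % 2 = 0 := by
      have e : w.getD t.val 0 = w[t] := by
        simp [List.getD_eq_getElem?_getD]
      rw [e, hp] at ht2
      exact eq_of_beq ht2
    have hb := letter_bounds h t
    have hlen : t.val < (w ++ [K]).length := by
      have := t.isLt
      rw [List.length_append]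
      omega
    have hlet : (w ++ [K])[t.val] = w[t] := List.getElem_append_left t.isLt
    have hlam : lam n w K ((Sum.inl t, true) : DD w.length r) = t.val + 1 := by
      change (if w[t] % 2 = 1 then (if (true : Bool) = true then cellN n (w ++ [K]) (w[t] - 1) t
        else cellN n (w ++ [K]) (w[t] + 1) t) else (if (true : Bool) = true then
        cellN n (w ++ [K]) w[t] (t + 1) else cellN n (w ++ [K]) w[t] t)) = t.val + 1
      have hne : ¬ w[t] % 2 = 1 := by rw [hwt]; omega
      rw [if_neg hne, if_pos rfl]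
      exact cell_succ_self hlen hlet hb.1 hb.2
    rw [Finset.mem_union, Finset.mem_erase, Finset.mem_erase]
    by_cases hE : t.val + 1 ∈ U6b_Ex n (w ++ [K]) r
    · exact Or.inr ⟨by omega, hE⟩
    · refine Or.inl ⟨by omega, (hR _).2 ⟨(Sum.inl t, true), ?_⟩⟩
      rw [hfdef, hlam, if_neg hE]
  have hc1 := Finset.card_le_card hsub
  rw [Finset.card_image_of_injective _ (fun a b hab => Fin.ext (by simpa using hab)),
    U6b_countP] at hc1
  have hc2 := Finset.card_union_le (R.erase 0) ((U6b_Ex n (w ++ [K]) r).erase 0)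
  rw [Finset.card_erase_of_mem h0R, Finset.card_erase_of_mem h0E] at hc2
  have hR1 : 1 ≤ R.card := Finset.card_pos.2 ⟨0, h0R⟩
  have hE1 : 1 ≤ (U6b_Ex n (w ++ [K]) r).card := Finset.card_pos.2 ⟨0, h0E⟩
  omega

end Pool.Agent.Lib.MP_72b45c_co.Q
end

section

/-! # MP_72b45c_co, block U (upper bound), job U7b: faces, even -/

namespace Pool.Agent.Lib.MP_72b45c_co.Q

open SimpleGraph Equiv Equiv.Perm

variable {n r K : ℕ} {w : List ℕ}

theorem U7b_countP (p : ℕ → Bool) (w : List ℕ) :
    w.countP p = (Finset.univ.filter fun t : Fin w.length => p w[t.val] = true).card := by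
  rw [Finset.card_filter]
  induction w with
  | nil => simp
  | cons a w ih =>
    rw [List.countP_cons, ih]
    simp only [List.length_cons, Fin.sum_univ_succ]
    rw [add_comm]
    rfl

/-- `C (n - 2a, 0) = C (2a, M + 1)` -/
theorem U7b_wrap (hn : n = 2 * r) (h : Red n (w ++ [K])) {a : ℕ} (ha : a ≤ r) :
    cellN n (w ++ [K]) (n - 2 * a) 0 = cellN n (w ++ [K]) (2 * a) (w.length + 1) := by
  have hl : (w ++ [K]).length = w.length + 1 := by
    rw [List.length_append]
    rfl
  by_cases h0 : a = 0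
  · subst h0
    have e1 := congrArg Fin.val (cell_of_le n (w ++ [K]) (k := n - 2 * 0) 0 (by omega))
    have e2 := congrArg Fin.val (cell_zero n (w ++ [K]) (w.length + 1))
    exact e1.trans e2.symm
  · by_cases h1 : a = r
    · subst h1
      have e0 : n - 2 * a = 0 := by omega
      have e1 := congrArg Fin.val (cell_zero n (w ++ [K]) 0)
      have e2 := congrArg Fin.val (cell_of_le n (w ++ [K]) (k := 2 * a) (w.length + 1) (by omega))
      rw [e0]
      exact e1.trans e2.symm
    · have e : cellN n (w ++ [K]) (2 * a) (w ++ [K]).length = cellN n (w ++ [K]) (n - 2 * a) 0 :=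
        congrArg Fin.val (cell_wrap h.full (k := 2 * a) (by omega) (by omega))
      rw [hl] at e
      exact e.symm

theorem U7b_last {a : ℕ} (hK : a ≠ K) :
    cellN n (w ++ [K]) a w.length = cellN n (w ++ [K]) a (w.length + 1) := by
  have hl : w.length < (w ++ [K]).length := by
    rw [List.length_append]
    exact Nat.lt_succ_self _
  have hu : (w ++ [K])[w.length] = K := by simp
  exact (congrArg Fin.val (cell_succ_of_ne n hl (k := a) (by rw [hu]; exact hK.symm))).symm

theorem U7b_K (h : Red n (w ++ [K])) : cellN n (w ++ [K]) K (w.length + 1) = w.length + 1 := by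
  have hl : w.length < (w ++ [K]).length := by
    rw [List.length_append]
    exact Nat.lt_succ_self _
  have hu : (w ++ [K])[w.length] = K := by simp
  obtain ⟨hb1, hb2⟩ := K_bounds h
  exact cell_succ_self hl hu hb1 hb2

theorem U7b_ne (h : Red n (w ++ [K])) {a : ℕ} (hK : a ≠ K) :
    cellN n (w ++ [K]) a (w.length + 1) ≠ w.length + 1 := by
  rw [← U7b_last hK]
  by_cases h0 : a = 0 ∨ n ≤ a
  · rcases h0 with h0 | h0
    · subst h0
      have e1 := congrArg Fin.val (cell_zero n (w ++ [K]) w.length)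
      intro h2
      exact absurd (h2.symm.trans e1) (Nat.succ_ne_zero _)
    · have e1 := congrArg Fin.val (cell_of_le n (w ++ [K]) (k := a) w.length h0)
      intro h2
      exact absurd (h2.symm.trans e1) (Nat.succ_ne_zero _)
  · have ha : a ∈ w := mem_of_ne h (by omega) (by omega) hK
    have hne : lastOcc (w ++ [K]) a w.length ≠ 0 := by
      rw [lastOcc_append le_rfl]
      exact lastOcc_pos_iff.mpr ha
    unfold cellN
    rw [if_neg h0, if_pos hne]
    have := lastOcc_le (w ++ [K]) a w.length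
    omega

/-- Exceptional labels `Ex = {cellN (2i) (M+1) : i ≤ r, i ≠ j+1}` (contains `0`, at most `r - 1` elements); `f` as in `faces_odd`.
Invariance at `rv x = y` a marker or a dummy dart (`M = w.length`):
`y = m j`: `σ (m j')` has `cell (2j+2) M`, `rv (m j)` has `cell (2j+2) M`. `y = m j'`: `σ (bt (rev j))` has `cell (n-2j) 0 = cell (2j) (M+1)`, `rv (m j')`
has `cell (2j+4) M`, both in `Ex`. `y = bt (rev j)`: `σ (bt (rev j'))` has `cell (n-K) 0`, `lf (rev j)` has `cell (n-K) 0`. `y = bt (rev j')`: `σ (m j)` has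
`cell (2j) M`, `lf (rev j')` has `cell (n-2j-4) 0 = cell (2j+4) (M+1)`, both in `Ex`. `y = m i`: `σ (bt (rev i))`: `cell (n-2i) 0`, `rv (m i)`: `cell (2i+2) M`;
`y = bt (rev i)`: `σ (m i)`: `cell (2i) M`, `lf (rev i)`: `cell (n-2-2i) 0`, all in `Ex` (`i ≠ j, j'`). The values contain `0` and all
white names outside `Ex`: `t + 1` with `w[t]` even, and `M + 1 = cell K (M+1) = cell (n-K) 0`, a dummy label. (Checked by computer.) -/
theorem faces_even (hn : n = 2 * r) (h : Red n (w ++ [K])) {j j' : Fin r}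
    (hj : j'.val = j.val + 1) (hK : K = 2 * j.val + 2) {σ : Perm (DD w.length r)}
    {m : Fin r → DD w.length r} (hI : Inv n w K r w.length σ m) (τ : Perm (DD w.length r))
    (h1 : ∀ y, (∀ i, y ≠ m i) → (∀ i, y ≠ bt i) → τ y = y)
    (h2 : τ (m j) = m j') (h3 : τ (m j') = bt (Fin.rev j))
    (h4 : τ (bt (Fin.rev j)) = bt (Fin.rev j')) (h5 : τ (bt (Fin.rev j')) = m j)
    (h6 : ∀ i, i ≠ j → i ≠ j' → τ (m i) = bt (Fin.rev i) ∧ τ (bt (Fin.rev i)) = m i) :
    w.countP (fun k => k % 2 == 0) + 4 ≤ cyc ((σ * τ) * rv w.length r) + r := by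
  classical
  have hjr : j.val < r := j.2
  have hjr' : j.val + 1 < r := by
    rw [← hj]
    exact j'.2
  have hodd : ∀ i : Fin r, 2 * i.val + 1 ∈ w := fun i => by
    have := i.2
    exact mem_of_ne h (by omega) (by omega) (by omega)
  have hmb : ∀ i k : Fin r, m i ≠ bt k := fun i k => hI.m_ne_bt (hodd i) k
  have hla : ∀ i, lam n w K (rv w.length r (m i)) = cellN n (w ++ [K]) (2 * i.val + 2) w.length := by
    intro i
    rcases hI.lam_a i with h7 | h7
    · exact absurd h7.1 (hmb i i)
    · exact h7.2.1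
  have hlb : ∀ i, lam n w K (σ (bt i)) = cellN n (w ++ [K]) (2 * i.val + 2) 0 := by
    intro i
    rcases hI.lam_a i with h7 | h7
    · exact absurd h7.1 (hmb i i)
    · exact h7.2.2
  have hlf : ∀ i : Fin r, lam n w K (lf i : DD w.length r) = cellN n (w ++ [K]) (2 * i.val) 0 := fun i => rfl
  -- exceptional labels
  let Ex : Set ℕ := {z | ∃ a, a ≤ r ∧ a ≠ j.val + 1 ∧ z = cellN n (w ++ [K]) (2 * a) (w.length + 1)}
  have hrev : ∀ i : Fin r, 2 * (Fin.rev i).val + 2 = n - 2 * i.val := fun i => by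
    have := i.2
    rw [Fin.val_rev]
    omega
  have hrev2 : ∀ i : Fin r, 2 * (Fin.rev i).val = n - 2 * (i.val + 1) := fun i => by
    have := i.2
    rw [Fin.val_rev]
    omega
  have x1 : ∀ i : Fin r, i ≠ j' → lam n w K (σ (bt (Fin.rev i))) ∈ Ex := by
    intro i hi
    have hi' : i.val ≠ j.val + 1 := fun h7 => hi (Fin.ext (h7.trans hj.symm))
    refine ⟨i.val, i.2.le, hi', ?_⟩
    rw [hlb, hrev, U7b_wrap hn h i.2.le]
  have x2 : ∀ i : Fin r, i ≠ j → lam n w K (rv w.length r (m i)) ∈ Ex := by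
    intro i hi
    have hi' : i.val ≠ j.val := fun h7 => hi (Fin.ext h7)
    have := i.2
    refine ⟨i.val + 1, by omega, by omega, ?_⟩
    rw [hla, U7b_last (by omega)]
    rfl
  have x3 : ∀ i : Fin r, i ≠ j' → lam n w K (σ (m i)) ∈ Ex := by
    intro i hi
    have hi' : i.val ≠ j.val + 1 := fun h7 => hi (Fin.ext (h7.trans hj.symm))
    refine ⟨i.val, i.2.le, hi', ?_⟩
    rw [hI.lam_m, U7b_last (by omega)]
  have x4 : ∀ i : Fin r, i ≠ j → lam n w K (lf (Fin.rev i) : DD w.length r) ∈ Ex := by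
    intro i hi
    have hi' : i.val ≠ j.val := fun h7 => hi (Fin.ext h7)
    have := i.2
    refine ⟨i.val + 1, by omega, by omega, ?_⟩
    rw [hlf, hrev2, U7b_wrap hn h (by omega)]
  let f : DD w.length r → ℕ := fun x => if lam n w K x ∈ Ex then 0 else lam n w K x
  have fEx : ∀ x y, lam n w K x ∈ Ex → lam n w K y ∈ Ex → f x = f y := by
    intro x y hx hy
    simp only [f, if_pos hx, if_pos hy]
  have feq : ∀ x y, lam n w K x = lam n w K y → f x = f y := by
    intro x y hxy
    simp only [f, hxy]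
  have hjj : j ≠ j' := fun h7 => by
    rw [← h7] at hj
    omega
  have key : ∀ y, f (σ (τ y)) = f (rv w.length r y) := by
    intro y
    by_cases hm : ∃ i, y = m i
    · obtain ⟨i, rfl⟩ := hm
      by_cases hi : i = j
      · subst hi
        rw [h2]
        refine feq _ _ ?_
        rw [hI.lam_m, hla, hj]
        rfl
      · by_cases hi' : i = j'
        · subst hi'
          rw [h3]
          exact fEx _ _ (x1 _ hjj) (x2 _ hi)
        · rw [(h6 i hi hi').1]
          exact fEx _ _ (x1 _ hi') (x2 _ hi)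
    · by_cases hb : ∃ i, y = bt i
      · obtain ⟨i, rfl⟩ := hb
        obtain ⟨k, rfl⟩ : ∃ k, i = Fin.rev k := ⟨Fin.rev i, (Fin.rev_rev i).symm⟩
        rw [rv_bt]
        by_cases hi : k = j
        · subst hi
          rw [h4]
          refine feq _ _ ?_
          rw [hlb, hlf, hrev, hrev2, hj]
        · by_cases hi' : k = j'
          · subst hi'
            rw [h5]
            exact fEx _ _ (x3 _ hjj) (x4 _ hi)
          · rw [(h6 k hi hi').2]
            exact fEx _ _ (x3 _ hi') (x4 _ hi)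
      · push Not at hm hb
        rw [h1 y hm hb]
        refine feq _ _ ?_
        have h8 := hI.lam_x (rv w.length r y) (used_all _) (fun i hi => hb i (by
          rw [← rv_rv w.length r y, hi, rv_lf])) (fun i => by rw [rv_rv]; exact hm i)
        rw [rv_rv] at h8
        exact h8
  have hinv : ∀ x, f (((σ * τ) * rv w.length r) x) = f x := by
    intro x
    have h7 := key (rv w.length r x)
    rw [rv_rv] at h7
    exact h7
  have hcyc := card_range_le_cyc ((σ * τ) * rv w.length r) f hinv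
  -- the values
  let A : Finset ℕ := (Finset.Ico 1 r).erase (j.val + 1)
  let E' : Finset ℕ := A.image fun a => cellN n (w ++ [K]) (2 * a) (w.length + 1)
  have hE' : E'.card ≤ r - 2 := by
    refine Finset.card_image_le.trans ?_
    rw [Finset.card_erase_of_mem (Finset.mem_Ico.mpr ⟨by omega, hjr'⟩), Nat.card_Ico]
    omega
  let T : Finset ℕ := (Finset.univ.filter fun t : Fin w.length => (w[t.val] % 2 == 0) = true).image
    fun t => t.val + 1
  have hT : T.card = w.countP (fun k => k % 2 == 0) := by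
    rw [U7b_countP]
    refine Finset.card_image_of_injective _ fun a b hab => ?_
    exact Fin.ext (Nat.succ_injective hab)
  have hz : ∀ a, a = 0 ∨ n ≤ a → cellN n (w ++ [K]) a (w.length + 1) = 0 := by
    intro a ha
    unfold cellN
    rw [if_pos ha]
  have hExE : ∀ z, z ≠ 0 → z ∉ E' → z ∉ Ex := by
    rintro z hz0 hz1 ⟨a, ha, haj, e⟩
    by_cases h0 : a = 0
    · rw [h0] at e
      exact hz0 (e.trans (hz _ (Or.inl rfl)))
    · by_cases h7 : a = r
      · exact hz0 (e.trans (hz _ (Or.inr (by omega))))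
      · refine hz1 (Finset.mem_image.mpr ⟨a, ?_, e.symm⟩)
        exact Finset.mem_erase.mpr ⟨haj, Finset.mem_Ico.mpr ⟨by omega, by omega⟩⟩
  let V : Finset ℕ := insert 0 (insert (w.length + 1) (T \ E'))
  have hTle : ∀ z ∈ T, z ≠ 0 ∧ z ≤ w.length := by
    intro z hz
    obtain ⟨t, _, rfl⟩ := Finset.mem_image.mp hz
    exact ⟨Nat.succ_ne_zero _, t.2⟩
  have hV : V.card = (T \ E').card + 2 := by
    rw [Finset.card_insert_of_notMem, Finset.card_insert_of_notMem]
    · intro h7
      have := (hTle _ (Finset.mem_sdiff.mp h7).1).2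
      omega
    · rw [Finset.mem_insert]
      rintro (h7 | h7)
      · exact absurd h7.symm (Nat.succ_ne_zero _)
      · exact (hTle _ (Finset.mem_sdiff.mp h7).1).1 rfl
  have hTE : T.card - E'.card ≤ (T \ E').card := Finset.le_card_sdiff _ _
  have hsub : (V : Set ℕ) ⊆ Set.range f := by
    intro z hz
    rw [Finset.mem_coe, Finset.mem_insert, Finset.mem_insert, Finset.mem_sdiff] at hz
    rcases hz with rfl | rfl | ⟨hz1, hz2⟩
    · refine ⟨lf (Fin.rev j'), ?_⟩
      have e2 : lam n w K (lf (Fin.rev j') : DD w.length r) ∈ Ex := x4 j' hjj.symm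
      simp only [f, if_pos e2]
    · refine ⟨lf (Fin.rev j), ?_⟩
      have e1 : lam n w K (lf (Fin.rev j) : DD w.length r) = w.length + 1 := by
        rw [hlf, hrev2, U7b_wrap hn h (by omega)]
        have : 2 * (j.val + 1) = K := by omega
        rw [this, U7b_K h]
      have e2 : lam n w K (lf (Fin.rev j) : DD w.length r) ∉ Ex := by
        rintro ⟨a, ha, haj, e⟩
        rw [e1] at e
        exact U7b_ne h (by omega) e.symm
      simp only [f, if_neg e2]
      exact e1
    · have hz3 := (hTle z hz1).1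
      obtain ⟨t, ht, rfl⟩ := Finset.mem_image.mp hz1
      have ht2 : w[t.val] % 2 = 0 := by
        have := (Finset.mem_filter.mp ht).2
        simpa using this
      refine ⟨(Sum.inl t, true), ?_⟩
      have e1 : lam n w K ((Sum.inl t, true) : DD w.length r) = t.val + 1 := by
        have hodd' : ¬ w[t] % 2 = 1 := by
          change ¬ w[t.val] % 2 = 1
          omega
        change (if w[t] % 2 = 1 then _ else _) = _
        rw [if_neg hodd']
        change cellN n (w ++ [K]) w[t] (t.val + 1) = _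
        have htu : t.val < (w ++ [K]).length := by
          rw [List.length_append]
          have := t.2
          omega
        have hu : (w ++ [K])[t.val] = w[t.val] := List.getElem_append_left t.2
        obtain ⟨b1, b2⟩ := letter_bounds h t
        exact cell_succ_self htu hu b1 b2
      have e2 : lam n w K ((Sum.inl t, true) : DD w.length r) ∉ Ex := by
        rw [e1]
        exact hExE _ hz3 hz2
      simp only [f, if_neg e2]
      exact e1
  have hcard : V.card ≤ Nat.card (Set.range f) := by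
    rw [Nat.card_coe_set_eq, ← Set.ncard_coe_finset]
    exact Set.ncard_le_ncard hsub (Set.toFinite _)
  omega

end Pool.Agent.Lib.MP_72b45c_co.Q
end

section

/-! # MP_72b45c_co, block U (upper bound), job U6: final gluing, last letter at an odd position (parts) -/
end

section

/-! # MP_72b45c_co, block U (upper bound), job U7: final gluing, last letter at an even position (parts) -/
end

section

/-! # MP_72b45c_co, block U (upper bound), job U9a: genus of the two maps -/

namespace Pool.Agent.Lib.MP_72b45c_co.Q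

open SimpleGraph Equiv Equiv.Perm

variable {n r K : ℕ} {w : List ℕ}

private theorem U9a_count (w : List ℕ) :
    w.countP (fun k => k % 2 == 1) + w.countP (fun k => k % 2 == 0) = w.length := by
  induction w with
  | nil => rfl
  | cons a w ih =>
    rw [List.countP_cons, List.countP_cons, List.length_cons]
    rcases Nat.mod_two_eq_zero_or_one a with h | h
    · rw [h]
      simp only [beq_iff_eq]
      norm_num
      omega
    · rw [h]
      simp only [beq_iff_eq]
      norm_num
      omega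

/-- `exists_inv`, `glue_odd`, `faces_odd`, `ncomp_one`, `cyc_rv`, `Inv.cyc_eq` (`w.take w.length = w`, `M` = number of odd + number of even
letters): `gen2 = 2 + (M + r) - cyc σ' - cyc φ' ≤ r - 1`. -/
theorem final_odd (hn : n = 2 * r) (hr : 1 ≤ r) (h : Red n (w ++ [K])) (hK : K % 2 = 1) :
    ∃ σ : Perm (DD w.length r), gen2 σ (rv w.length r) ≤ (r : ℤ) - 1 ∧
      ∀ x y, nonleaf x → nonleaf y → (σ.SameCycle x y ↔ vx n w K x = vx n w K y) := by
  obtain ⟨σ, m, hI⟩ := exists_inv hn h w.length le_rfl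
  obtain ⟨τ, h1, h2, h3, h4⟩ := glue_odd hn h hK hI
  refine ⟨σ * τ, ?_, h3⟩
  have hf := faces_odd hn hr h hK hI τ h1 h2
  have hc : ncomp (σ * τ) (rv w.length r) = 1 :=
    ncomp_one hn hr h (fun x y hx hy e => (h3 x y hx hy).2 e) (fun hK' => by omega)
  have he := hI.cyc_eq
  rw [List.take_length] at he
  have hw := U9a_count w
  have hv := cyc_rv w.length r
  unfold gen2
  rw [hc, hv]
  omega

/-- the same with `glue_even`, `faces_even` (`K` is even and `< n = 2 r`, so `K = 2 j + 2`, `j + 1 < r`) -/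
theorem final_even (hn : n = 2 * r) (h : Red n (w ++ [K])) (hK : K % 2 = 0) :
    ∃ σ : Perm (DD w.length r), gen2 σ (rv w.length r) ≤ (r : ℤ) - 1 ∧
      ∀ x y, nonleaf x → nonleaf y → (σ.SameCycle x y ↔ vxE n w K x = vxE n w K y) := by
  obtain ⟨σ, m, hI⟩ := exists_inv hn h w.length le_rfl
  obtain ⟨hK1, hK2⟩ := K_bounds h
  have hr : 1 ≤ r := by omega
  let j : Fin r := ⟨K / 2 - 1, by omega⟩
  let j' : Fin r := ⟨K / 2, by omega⟩
  have hj : j'.val = j.val + 1 := by
    show K / 2 = K / 2 - 1 + 1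
    omega
  have hKj : K = 2 * j.val + 2 := by
    show K = 2 * (K / 2 - 1) + 2
    omega
  obtain ⟨τ, h1, h2, h3, h4, h5, h6, h7, h8⟩ := glue_even hn h hj hKj hI
  refine ⟨σ * τ, ?_, h7⟩
  have hf := faces_even hn h hj hKj hI τ h1 h2 h3 h4 h5 h6
  have hvm : ∀ i : Fin r, vx n w K (m i) = cellN n (w ++ [K]) (2 * i.val + 1) w.length := by
    intro i
    unfold vx
    rw [hI.dnu_m i]
    exact nm_eq_cellN hn i.2 le_rfl
  have hc : ncomp (σ * τ) (rv w.length r) = 1 := by
    refine ncomp_one hn hr h (fun x y hx hy e => (h7 x y hx hy).2 ?_) (fun _ => ?_)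
    · unfold vxE
      rw [e]
    · have e1 : 2 * j.val + 1 = K - 1 := by omega
      have e2 : 2 * j'.val + 1 = K + 1 := by omega
      have hx := hvm j
      have hy := hvm j'
      rw [e1] at hx
      rw [e2] at hy
      refine ⟨m j, m j', hI.nonleaf_m j, hI.nonleaf_m j', hx, hy,
        (h7 _ _ (hI.nonleaf_m j) (hI.nonleaf_m j')).2 ?_⟩
      unfold vxE
      rw [hx, hy, if_pos rfl]
      split_ifs
      · rfl
      · rfl
  have he := hI.cyc_eq
  rw [List.take_length] at he
  have hw := U9a_count w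
  have hv := cyc_rv w.length r
  unfold gen2
  rw [hc, hv]
  omega

end Pool.Agent.Lib.MP_72b45c_co.Q
end

section

/-! # MP_72b45c_co, block U (upper bound), job U9b: upper bound, odd -/

namespace Pool.Agent.Lib.MP_72b45c_co.Q

open SimpleGraph Equiv Equiv.Perm

variable {n r K : ℕ} {w : List ℕ}

/-- the index of the last letter -/
def lastIx (w : List ℕ) (K : ℕ) : Fin (w ++ [K]).length := ⟨w.length, by simp⟩

private lemma u9b_rv {M r : ℕ} (s : Fin M ⊕ Fin r) (b : Bool) : rv M r (s, b) = (s, !b) := rfl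

private lemma u9b_bound (hn : n = 2 * r) (h : Red n (w ++ [K])) (t : Fin w.length) (b : Bool) :
    vx n w K ((Sum.inl t, b) : DD w.length r) < (w ++ [K]).length + 1 := by
  have h1 := vx_letter hn h t
  have h2 : vx n w K ((Sum.inl t, b) : DD w.length r) ∈
      (pr n (w ++ [K]) 1 ⟨t.val, by simp⟩).map Fin.val := by
    rw [h1]
    cases b
    · exact Sym2.mem_mk_left _ _
    · exact Sym2.mem_mk_right _ _
  obtain ⟨c, -, hc⟩ := Sym2.mem_map.1 h2
  rw [← hc]
  exact c.2

/-- the vertex of a dart, as an element of `Fin` -/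
private noncomputable def u9b_v (n : ℕ) (w : List ℕ) (K : ℕ) {r : ℕ} (x : DD w.length r) :
    Fin ((w ++ [K]).length + 1) :=
  if h : vx n w K x < (w ++ [K]).length + 1 then ⟨vx n w K x, h⟩ else 0

private lemma u9b_v_eq (hn : n = 2 * r) (h : Red n (w ++ [K])) (t : Fin w.length) (b : Bool) :
    (u9b_v n w K ((Sum.inl t, b) : DD w.length r)).val =
      vx n w K ((Sum.inl t, b) : DD w.length r) := by
  unfold u9b_v
  rw [dif_pos (u9b_bound hn h t b)]

/-- `exists_iota` (vertices `Fin _`, `v x = vx x` as an element of `Fin`, `P x` = letter dart), `vx_letter`; an edge of the graph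
without the last edge is `pr n u 1 t` with `t ≠ lastIx` (`BG_adj_iff`). `embeds_of_map` with `final_odd`, `gen2_even`: `gen2 ≤ 2 h - 1` is even,
so `≤ 2 (h - 1)`. -/
theorem upper_odd {h : ℕ} (hh : 2 ≤ h) (hr : Red (4 * h) (w ++ [K])) (hK : K % 2 = 1) :
    Embeds (h - 1) ((BG (4 * h) (w ++ [K]) 1).deleteEdges
      {pr (4 * h) (w ++ [K]) 1 (lastIx w K)}) := by
  have hn : 4 * h = 2 * (2 * h) := by ring
  obtain ⟨σ, hg, hσ⟩ := final_odd hn (by omega) hr hK
  set H := (BG (4 * h) (w ++ [K]) 1).deleteEdges {pr (4 * h) (w ++ [K]) 1 (lastIx w K)} with hH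
  have hα := rv_rv w.length (2 * h)
  have hα' := rv_ne w.length (2 * h)
  obtain ⟨ι, hι, hs, hv, hP⟩ := exists_iota H (rv w.length (2 * h)) hα
    (fun x => ∃ t b, x = (Sum.inl t, b))
    (by
      rintro x ⟨t, b, rfl⟩
      exact ⟨t, !b, rfl⟩)
    (u9b_v (4 * h) w K)
    (by
      intro i j hij
      rw [hH, deleteEdges_adj] at hij
      obtain ⟨⟨hne, t, ht⟩, hnot⟩ := hij
      have htl : t ≠ lastIx w K := by
        rintro rfl
        exact hnot (by rw [← ht]; exact Set.mem_singleton _)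
      have hlt : t.val < w.length := by
        have h1 : t.val < (w ++ [K]).length := t.2
        have h0 : (w ++ [K]).length = w.length + 1 := by simp
        have h2 : t.val ≠ w.length := fun h3 => htl (Fin.ext h3)
        omega
      have hvl := vx_letter hn hr ⟨t.val, hlt⟩
      have ht' : pr (4 * h) (w ++ [K]) 1 ⟨t.val, by simp; omega⟩ = s(i, j) := ht
      have h3 : s(i.val, j.val) = s(vx (4 * h) w K ((Sum.inl ⟨t.val, hlt⟩, false) : DD w.length (2 * h)),
          vx (4 * h) w K ((Sum.inl ⟨t.val, hlt⟩, true) : DD w.length (2 * h))) := by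
        rw [← hvl]
        show _ = Sym2.map Fin.val (pr (4 * h) (w ++ [K]) 1 ⟨t.val, _⟩)
        rw [ht']
        rfl
      rcases Sym2.eq_iff.1 h3 with ⟨e1, e2⟩ | ⟨e1, e2⟩
      · refine ⟨(Sum.inl ⟨t.val, hlt⟩, false), ⟨_, _, rfl⟩, Fin.ext ?_, Fin.ext ?_⟩
        · rw [u9b_v_eq hn hr, e1]
        · rw [u9b_rv, u9b_v_eq hn hr, e2]
          rfl
      · refine ⟨(Sum.inl ⟨t.val, hlt⟩, true), ⟨_, _, rfl⟩, Fin.ext ?_, Fin.ext ?_⟩
        · rw [u9b_v_eq hn hr, e1]
        · rw [u9b_rv, u9b_v_eq hn hr, e2]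
          rfl)
  refine embeds_of_map (σ := σ) hα hα' (g := h - 1) ?_ H ι hι hs ?_
  · obtain ⟨k, hk⟩ := gen2_even (σ := σ) hα hα'
    push_cast at hg
    omega
  · intro d d'
    have hnl : ∀ d, nonleaf (ι d) := by
      intro d i hi
      obtain ⟨t, b, hx⟩ := hP d
      rw [hx] at hi
      have := congrArg Prod.fst hi
      simp [lf] at this
    have hvv : ∀ d, vx (4 * h) w K (ι d) = d.fst.val := by
      intro d
      obtain ⟨t, b, hx⟩ := hP d
      rw [← hv d, hx, u9b_v_eq hn hr]
    rw [hσ _ _ (hnl d) (hnl d'), hvv, hvv]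
    exact ⟨fun h => Fin.ext h, fun h => by rw [h]⟩

end Pool.Agent.Lib.MP_72b45c_co.Q
end

section

/-! # MP_72b45c_co, block U (upper bound), job U9c: upper bound, even -/

namespace Pool.Agent.Lib.MP_72b45c_co.Q

open SimpleGraph Equiv Equiv.Perm

variable {n r K : ℕ} {w : List ℕ}

private theorem U9c_conG_swap {V : Type*} [DecidableEq V] (G : SimpleGraph V) (a b : V) {i j : V}
    (h : (conG G b a).Adj i j) : (conG G a b).Adj (swap a b i) (swap a b j) := by
  obtain ⟨h1, h2, h3, h4⟩ := h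
  by_cases hi : i = b
  · have hj : j ≠ b := fun h => h1 (hi.trans h.symm)
    rw [hi, swap_apply_right, swap_apply_of_ne_of_ne h3 hj]
    have hab : a ≠ b := fun h => h2 (hi.trans h.symm)
    refine ⟨h3.symm, hab, hj, ?_⟩
    rcases h4 with h | ⟨_, h⟩ | ⟨h, _⟩
    · exact Or.inr (Or.inl ⟨rfl, hi ▸ h⟩)
    · exact Or.inl h
    · exact absurd h hj
  · by_cases hj : j = b
    · rw [hj, swap_apply_right, swap_apply_of_ne_of_ne h2 hi]
      have hab : a ≠ b := fun h => h3 (hj.trans h.symm)
      refine ⟨h2, hi, hab, ?_⟩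
      rcases h4 with h | ⟨h, _⟩ | ⟨_, h⟩
      · exact Or.inr (Or.inr ⟨rfl, hj ▸ h⟩)
      · exact absurd h hi
      · exact Or.inl h
    · rw [swap_apply_of_ne_of_ne h2 hi, swap_apply_of_ne_of_ne h3 hj]
      refine ⟨h1, hi, hj, ?_⟩
      rcases h4 with h | ⟨h, _⟩ | ⟨h, _⟩
      · exact Or.inl h
      · exact absurd h hi
      · exact absurd h hj

private theorem U9c_iso {V : Type*} [DecidableEq V] (G : SimpleGraph V) (a b : V) :
    Nonempty (conG G b a ≃g conG G a b) := by
  refine ⟨⟨swap a b, ?_⟩⟩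
  intro i j
  constructor
  · intro h
    have h1 := U9c_conG_swap G b a h
    rw [swap_comm b a, swap_apply_self, swap_apply_self] at h1
    exact h1
  · exact U9c_conG_swap G a b

/-- the contraction with `a` the left cell, `b` the right one -/
private theorem U9c_aux {h : ℕ} (hh : 2 ≤ h) (hr : Red (4 * h) (w ++ [K])) (hK : K % 2 = 0)
    (a b : Fin ((w ++ [K]).length + 1))
    (ha : a = cell (4 * h) (w ++ [K]) (K - 1) w.length)
    (hb : b = cell (4 * h) (w ++ [K]) (K + 1) w.length)
    (hab : pr (4 * h) (w ++ [K]) 1 (lastIx w K) = s(a, b)) :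
    Embeds (h - 1) (conG (BG (4 * h) (w ++ [K]) 1) a b) := by
  classical
  have hn : 4 * h = 2 * (2 * h) := by ring
  obtain ⟨σ, hg, hσ⟩ := final_even hn hr hK
  -- `gen2` is even
  have hg2 : gen2 σ (rv w.length (2 * h)) ≤ 2 * ((h - 1 : ℕ) : ℤ) := by
    have h1 : Even (gen2 σ (rv w.length (2 * h))) :=
      gen2_even (fun x => rv_rv _ _ x) (fun x => rv_ne _ _ x)
    obtain ⟨k, hk⟩ := h1
    rw [hk] at hg ⊢
    have h2 : ((h - 1 : ℕ) : ℤ) = (h : ℤ) - 1 := by
      rw [Nat.cast_sub (by omega)]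
      rfl
    rw [h2]
    push_cast at hg
    omega
  -- the vertex of a dart
  have hlt : ∀ x : DD w.length (2 * h), nonleaf x → vx (4 * h) w K x < (w ++ [K]).length + 1 := by
    intro x hx
    obtain ⟨i, t, _, h1⟩ := vx_spec (K := K) hn hr x hx
    rw [h1]
    exact cellN_lt _ _ _ _
  have hltE : ∀ x : DD w.length (2 * h), nonleaf x →
      vxE (4 * h) w K x < (w ++ [K]).length + 1 := by
    intro x hx
    unfold vxE
    split_ifs with h1
    · exact cellN_lt _ _ _ _
    · exact hlt x hx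
  let v : DD w.length (2 * h) → Fin ((w ++ [K]).length + 1) := fun x =>
    if hx : vxE (4 * h) w K x < (w ++ [K]).length + 1 then ⟨vxE (4 * h) w K x, hx⟩ else 0
  have hv : ∀ x, nonleaf x → (v x).val = vxE (4 * h) w K x := by
    intro x hx
    have h1 := hltE x hx
    simp only [v, dif_pos h1]
  let c : Fin ((w ++ [K]).length + 1) → Fin ((w ++ [K]).length + 1) := fun x =>
    if x = b then a else x
  have hcv : ∀ x, nonleaf x → ∀ i : Fin ((w ++ [K]).length + 1), vx (4 * h) w K x = i.val →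
      v x = c i := by
    intro x hx i hi
    apply Fin.ext
    rw [hv x hx]
    have hbv : b.val = cellN (4 * h) (w ++ [K]) (K + 1) w.length := by rw [hb]; rfl
    have hav : a.val = cellN (4 * h) (w ++ [K]) (K - 1) w.length := by rw [ha]; rfl
    unfold vxE
    simp only [c]
    rw [hi, ← hbv, ← hav]
    by_cases h1 : i = b
    · rw [if_pos h1, if_pos (congrArg Fin.val h1)]
    · rw [if_neg h1, if_neg (fun h => h1 (Fin.ext h))]
  let P : DD w.length (2 * h) → Prop := fun x => ∃ (t : Fin w.length) (β : Bool), x = (Sum.inl t, β)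
  have hPn : ∀ x, P x → nonleaf x := by
    rintro x ⟨t, β, rfl⟩ i hi
    have h1 := congrArg Prod.fst hi
    exact absurd h1 (by simp [lf])
  have hPr : ∀ x, P x → P (rv w.length (2 * h) x) := by
    rintro x ⟨t, β, rfl⟩
    exact ⟨t, !β, rfl⟩
  -- an edge of the graph, not the last one
  have key : ∀ i j : Fin ((w ++ [K]).length + 1), (BG (4 * h) (w ++ [K]) 1).Adj i j →
      c i ≠ c j → ∃ x, P x ∧ v x = c i ∧ v (rv w.length (2 * h) x) = c j := by
    rintro i j ⟨hij, t, ht⟩ hcij
    have htl : t ≠ lastIx w K := by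
      rintro rfl
      rw [hab] at ht
      apply hcij
      have hca : c a = a := by
        simp only [c]
        by_cases h1 : a = b
        · rw [if_pos h1]
        · rw [if_neg h1]
      have hcb : c b = a := by simp only [c, if_pos]
      rcases Sym2.eq_iff.1 ht with ⟨h1, h2⟩ | ⟨h1, h2⟩
      · rw [← h1, ← h2, hca, hcb]
      · rw [← h1, ← h2, hca, hcb]
    have htw : t.val < w.length := by
      have h1 : t.val < w.length + 1 := by
        have h0 := t.isLt
        have h0' : (w ++ [K]).length = w.length + 1 := by simp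
        omega
      rcases Nat.lt_succ_iff_lt_or_eq.1 h1 with h2 | h2
      · exact h2
      · exact absurd (Fin.ext h2) htl
    have h1 := vx_letter (K := K) hn hr ⟨t.val, htw⟩
    have h2 : (⟨(⟨t.val, htw⟩ : Fin w.length).val, by simp; omega⟩ : Fin (w ++ [K]).length) = t := rfl
    rw [h2, ht, Sym2.map_mk] at h1
    have hnf : ∀ β : Bool, nonleaf ((Sum.inl ⟨t.val, htw⟩, β) : DD w.length (2 * h)) := fun β =>
      hPn _ ⟨_, β, rfl⟩
    rcases Sym2.eq_iff.1 h1 with ⟨h3, h4⟩ | ⟨h3, h4⟩
    · exact ⟨(Sum.inl ⟨t.val, htw⟩, false), ⟨_, _, rfl⟩, hcv _ (hnf _) _ h3.symm,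
        hcv _ (hnf true) _ h4.symm⟩
    · exact ⟨(Sum.inl ⟨t.val, htw⟩, true), ⟨_, _, rfl⟩, hcv _ (hnf _) _ h3.symm,
        hcv _ (hnf false) _ h4.symm⟩
  have hcne : ∀ x, x ≠ b → c x = x := fun x hx => by simp only [c, if_neg hx]
  have hcb : c b = a := by simp only [c, if_pos]
  obtain ⟨ι, hι, hιs, hιv, hιP⟩ := exists_iota (conG (BG (4 * h) (w ++ [K]) 1) a b)
    (rv w.length (2 * h)) (fun x => rv_rv _ _ x) P hPr v (by
      rintro i j ⟨h1, h2, h3, h4⟩
      rcases h4 with h4 | ⟨h4, h5⟩ | ⟨h4, h5⟩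
      · obtain ⟨x, hx, hx1, hx2⟩ := key i j h4 (by rw [hcne i h2, hcne j h3]; exact h1)
        rw [hcne i h2] at hx1
        rw [hcne j h3] at hx2
        exact ⟨x, hx, hx1, hx2⟩
      · obtain ⟨x, hx, hx1, hx2⟩ := key b j h5 (by rw [hcb, hcne j h3, ← h4]; exact h1)
        rw [hcb, ← h4] at hx1
        rw [hcne j h3] at hx2
        exact ⟨x, hx, hx1, hx2⟩
      · obtain ⟨x, hx, hx1, hx2⟩ := key i b h5 (by rw [hcb, hcne i h2, ← h4]; exact h1)
        rw [hcne i h2] at hx1
        rw [hcb, ← h4] at hx2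
        exact ⟨x, hx, hx1, hx2⟩)
  refine embeds_of_map (α := rv w.length (2 * h)) (σ := σ) (fun x => rv_rv _ _ x)
    (fun x => rv_ne _ _ x) hg2 _ ι hι hιs ?_
  intro d d'
  rw [hσ _ _ (hPn _ (hιP d)) (hPn _ (hιP d')), ← hv _ (hPn _ (hιP d)), ← hv _ (hPn _ (hιP d')),
    hιv, hιv]
  exact Fin.ext_iff.symm

/-- The same for the contraction of the last edge; `v x = vxE x` (the contracted vertex is `a = W`, the left cell of the last
letter, `b = E` the right one; in the other order use the isomorphism `conG G a b ≃g conG G b a` by `swap a b`,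
`Embeds.iso`). -/
theorem upper_even {h : ℕ} (hh : 2 ≤ h) (hr : Red (4 * h) (w ++ [K])) (hK : K % 2 = 0)
    (a b : Fin ((w ++ [K]).length + 1))
    (hab : pr (4 * h) (w ++ [K]) 1 (lastIx w K) = s(a, b)) :
    Embeds (h - 1) (conG (BG (4 * h) (w ++ [K]) 1) a b) := by
  classical
  have h1 : pr (4 * h) (w ++ [K]) 1 (lastIx w K) =
      s(cell (4 * h) (w ++ [K]) (K - 1) w.length, cell (4 * h) (w ++ [K]) (K + 1) w.length) := by
    have h2 : (w ++ [K])[lastIx w K] = K := by
      show (w ++ [K])[w.length]'(by simp) = K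
      simp
    unfold pr
    rw [h2, if_neg (by omega)]
    rfl
  have h3 := hab
  rw [h1] at h3
  rcases Sym2.eq_iff.1 h3 with ⟨h4, h5⟩ | ⟨h4, h5⟩
  · exact U9c_aux hh hr hK a b h4.symm h5.symm hab
  · obtain ⟨e⟩ := U9c_iso (BG (4 * h) (w ++ [K]) 1) a b
    exact Embeds.iso e (U9c_aux hh hr hK b a h4.symm h5.symm (hab.trans Sym2.eq_swap))

end Pool.Agent.Lib.MP_72b45c_co.Q
end

section

/-! # MP_72b45c_co, block U (upper bound), job U9: the genus of the two maps, and the upper bounds (parts) -/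
end

section

/-! # MP_72b45c_co, block A (assembly), job A3: the same for `BB` and `FG` -/

namespace Pool.Agent.Lib.MP_72b45c_co.Q

open SimpleGraph Equiv Equiv.Perm

/-- Theorem A for `BB`, from the upper bounds -/
theorem isObstruction_BB (h : ℕ) (hh : 2 ≤ h) (ho : UpperOdd (4 * h) (h - 1))
    (he : UpperEven (4 * h) (h - 1)) {u : List ℕ} (hu : Red (4 * h) u) :
    IsObstruction (h - 1) (BB (4 * h) u) ∧
      Nat.card (BB (4 * h) u).edgeSet = 8 * h ^ 2 - 2 * h := by
  have hn : Even (4 * h) := ⟨2 * h, by ring⟩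
  refine ⟨isObstruction_Blk hn (by omega) hu (lower h hh u hu) ho he, ?_⟩
  rw [← length_red hu]
  exact card_edgeSet_Blk hn (by omega) hu

/-- Theorem A for `FG` -/
theorem isObstruction_FG (h : ℕ) (hh : 2 ≤ h) (ho : UpperOdd (4 * h) (h - 1))
    (he : UpperEven (4 * h) (h - 1)) {u : List ℕ} (hu : Red (4 * h) u) :
    IsObstruction (h - 1) (FG (4 * h) u) ∧
      Nat.card (FG (4 * h) u).edgeSet = 8 * h ^ 2 - 2 * h := by
  obtain ⟨h1, h2⟩ := isObstruction_BB h hh ho he hu
  refine ⟨isObstruction_iso (FGiso (4 * h) u).symm h1, ?_⟩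
  rw [← h2]
  exact Nat.card_congr (FGiso (4 * h) u).mapEdgeSet

/-- the isomorphism class -/
theorem FG_mem_obs (h : ℕ) (hh : 2 ≤ h) (ho : UpperOdd (4 * h) (h - 1))
    (he : UpperEven (4 * h) (h - 1)) {u : List ℕ} (hu : Red (4 * h) u) :
    Quotient.mk isoSetoid (⟨_, FG (4 * h) u⟩ : Σ n : ℕ, SimpleGraph (Fin n)) ∈
      ObsUpTo (h - 1) (8 * h ^ 2 - 2 * h) := by
  obtain ⟨h1, h2⟩ := isObstruction_FG h hh ho he hu
  exact ⟨_, rfl, h1, h2.le⟩

/-- last letters, in the form of block U -/
theorem upperOdd_of {n g : ℕ}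
    (H : ∀ (w : List ℕ) (K : ℕ), Red n (w ++ [K]) → K % 2 = 1 →
      Embeds g ((BG n (w ++ [K]) 1).deleteEdges {pr n (w ++ [K]) 1 ⟨w.length, by simp⟩})) :
    UpperOdd n g := by
  intro u hu t ht hodd
  obtain ⟨w, K, rfl⟩ : ∃ w K, u = w ++ [K] := by
    rcases List.eq_nil_or_concat u with rfl | ⟨w, K, hw⟩
    · exact absurd t.2 (by simp)
    · exact ⟨w, K, by simpa using hw⟩
  have h0 : (w ++ [K]).length = w.length + 1 := by simp
  have h1 : t = ⟨w.length, by simp⟩ := Fin.ext (by
    show t.val = w.length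
    omega)
  subst h1
  exact H w K hu (by simpa using hodd)

theorem upperEven_of {n g : ℕ}
    (H : ∀ (w : List ℕ) (K : ℕ), Red n (w ++ [K]) → K % 2 = 0 → ∀ a b,
      pr n (w ++ [K]) 1 ⟨w.length, by simp⟩ = s(a, b) → Embeds g (conG (BG n (w ++ [K]) 1) a b)) :
    UpperEven n g := by
  intro u hu t ht heven
  obtain ⟨w, K, rfl⟩ : ∃ w K, u = w ++ [K] := by
    rcases List.eq_nil_or_concat u with rfl | ⟨w, K, hw⟩
    · exact absurd t.2 (by simp)
    · exact ⟨w, K, by simpa using hw⟩
  have h0 : (w ++ [K]).length = w.length + 1 := by simp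
  have h1 : t = ⟨w.length, by simp⟩ := Fin.ext (by
    show t.val = w.length
    omega)
  subst h1
  exact H w K hu (by simpa using heven)

end Pool.Agent.Lib.MP_72b45c_co.Q
end

section

/-! # MP_72b45c_co, block A (assembly), job A4: Theorem A -/

namespace Pool.Agent.Lib.MP_72b45c_co.Q

open SimpleGraph Equiv Equiv.Perm

theorem upperOdd {h : ℕ} (hh : 2 ≤ h) : UpperOdd (4 * h) (h - 1) :=
  upperOdd_of fun _ _ hr hK => upper_odd hh hr hK

theorem upperEven {h : ℕ} (hh : 2 ≤ h) : UpperEven (4 * h) (h - 1) :=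
  upperEven_of fun _ _ hr hK a b hab => upper_even hh hr hK a b hab

/-- THEOREM A: the black graph of a reduced word of `w_0 ∈ S_{4h}` is an excluded minor for the surface of genus `h - 1`. -/
theorem obstruction {h : ℕ} (hh : 2 ≤ h) {u : List ℕ} (hu : Red (4 * h) u) :
    IsObstruction (h - 1) (FG (4 * h) u) :=
  (isObstruction_FG h hh (upperOdd hh) (upperEven hh) hu).1

theorem obstruction_BB {h : ℕ} (hh : 2 ≤ h) {u : List ℕ} (hu : Red (4 * h) u) :
    IsObstruction (h - 1) (BB (4 * h) u) :=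
  (isObstruction_BB h hh (upperOdd hh) (upperEven hh) hu).1

theorem card_edgeSet_BB {h : ℕ} (hh : 2 ≤ h) {u : List ℕ} (hu : Red (4 * h) u) :
    Nat.card (BB (4 * h) u).edgeSet = 8 * h ^ 2 - 2 * h :=
  (isObstruction_BB h hh (upperOdd hh) (upperEven hh) hu).2

theorem card_edgeSet_FG {h : ℕ} (hh : 2 ≤ h) {u : List ℕ} (hu : Red (4 * h) u) :
    Nat.card (FG (4 * h) u).edgeSet = 8 * h ^ 2 - 2 * h :=
  (isObstruction_FG h hh (upperOdd hh) (upperEven hh) hu).2

theorem mem_obsUpTo {h : ℕ} (hh : 2 ≤ h) {u : List ℕ} (hu : Red (4 * h) u) :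
    Quotient.mk isoSetoid (⟨_, FG (4 * h) u⟩ : Σ n : ℕ, SimpleGraph (Fin n)) ∈
      ObsUpTo (h - 1) (8 * h ^ 2 - 2 * h) :=
  FG_mem_obs h hh (upperOdd hh) (upperEven hh) hu

end Pool.Agent.Lib.MP_72b45c_co.Q
end
end
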