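import Pool.Agent.Lib.MP_72b45c_co.Q.W4
import Pool.Agent.Lib.MP_72b45c_co.Sharp

section

section

/-! # MP_72b45c_co, block C (counting), job C2a: cells between two letters -/

namespace Pool.Agent.Lib.MP_72b45c_co.Q

open SimpleGraph Equiv Equiv.Perm

variable {n : ℕ} {u : List ℕ} {L : ℕ → ℕ} {T : ℕ}

/-- the cell of the gap `k` between two consecutive letters `k` (at the indices `s < s'`) has no other nodes -/
theorem mid_cell (hf : Full n u) {k s s' : ℕ} (h1 : 1 ≤ k) (h2 : k < n) (hss : s < s')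
    (hs' : s' < u.length) (hs : u[s]? = some k) (hs1 : u[s']? = some k)
    (hno : ∀ x, s < x → x < s' → u[x]? ≠ some k) {k' x : ℕ} (hk' : k' ≤ n) (hx : x ≤ u.length) :
    cell n u k' x = cell n u k (s + 1) ↔ k' = k ∧ s < x ∧ x ≤ s' := by
  have hsl : s < u.length := hss.trans hs'
  have e0 : u[s] = k := by
    rw [List.getElem?_eq_getElem hsl] at hs
    exact Option.some.inj hs
  have e1 : u[s'] = k := by
    rw [List.getElem?_eq_getElem hs'] at hs1
    exact Option.some.inj hs1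
  have hv : (cell n u k (s + 1)).val = s + 1 := cell_succ_self hsl e0 h1 h2
  constructor
  · intro h
    have h3 : cellN n u k' x = s + 1 := by
      rw [← hv, ← h]
      rfl
    unfold cellN at h3
    split_ifs at h3 with h4 h5
    · rcases lastOcc_spec u k' x with ⟨h6, -⟩ | ⟨r, hr, h6, h7, h8, h9⟩
      · exact absurd h6 h5
      · have hrs : r = s := by omega
        subst hrs
        refine ⟨h7.symm.trans e0, h6, ?_⟩
        by_contra h10
        exact h9 s' hs' hss (by omega) (e1.trans (e0.symm.trans h7))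
    · exfalso
      rcases lastOcc_spec u (n - k') u.length with ⟨h6, -⟩ | ⟨r, hr, h6, h7, h8, h9⟩
      · omega
      · have hrs : r = s := by omega
        subst hrs
        exact h9 s' hs' hss hs' (e1.trans (e0.symm.trans h7))
  · rintro ⟨rfl, h3, h4⟩
    apply Fin.ext
    rw [hv]
    show cellN n u k' x = s + 1
    have h5 : lastOcc u k' x = s + 1 := by
      rcases lastOcc_spec u k' x with ⟨-, h6⟩ | ⟨r, hr, h6, h7, h8, h9⟩
      · exact absurd e0 (h6 s hsl h3)
      · rcases lt_trichotomy r s with h10 | h10 | h10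
        · exact absurd e0 (h9 s hsl h10 h3)
        · rw [h8, h10]
        · exfalso
          refine hno r h10 (by omega) ?_
          rw [List.getElem?_eq_getElem hr, h7]
    unfold cellN
    rw [if_neg (by omega), h5, if_pos (Nat.succ_ne_zero s)]

/-- a gap whose letters occur in the odd macro steps only, and in each of them -/
structure Gap (u : List ℕ) (L : ℕ → ℕ) (T k : ℕ) : Prop where
  mono : ∀ τ < 2 * T, L τ ≤ L (τ + 1)
  top : L (2 * T) ≤ u.length
  even0 : ∀ t < T, cnu u k (L (2 * t)) (L (2 * t + 1)) = 0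
  odd1 : ∀ t < T, 1 ≤ cnu u k (L (2 * t + 1)) (L (2 * t + 2))

private theorem C2a_mono {L : ℕ → ℕ} {N : ℕ} (hm : ∀ τ < N, L τ ≤ L (τ + 1)) {i j : ℕ}
    (hij : i ≤ j) (hj : j ≤ N) : L i ≤ L j := by
  induction j, hij using Nat.le_induction with
  | base => exact le_rfl
  | succ j hij ih => exact (ih (by omega)).trans (hm j (by omega))

private theorem C2a_last {u : List ℕ} {k a b : ℕ} (h : 1 ≤ cnu u k a b) :
    ∃ s, a ≤ s ∧ s < b ∧ u[s]? = some k ∧ ∀ x, s < x → x < b → u[x]? ≠ some k := by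
  have hne : ((Finset.Ico a b).filter (fun x => u[x]? = some k)).Nonempty :=
    Finset.card_pos.1 h
  have hm := Finset.max'_mem _ hne
  obtain ⟨s, hs⟩ : ∃ s, s = ((Finset.Ico a b).filter (fun x => u[x]? = some k)).max' hne := ⟨_, rfl⟩
  rw [← hs, Finset.mem_filter, Finset.mem_Ico] at hm
  refine ⟨s, hm.1.1, hm.1.2, hm.2, fun x h1 h2 h3 => ?_⟩
  have h4 : x ∈ (Finset.Ico a b).filter (fun x => u[x]? = some k) := by
    rw [Finset.mem_filter, Finset.mem_Ico]
    exact ⟨⟨by omega, h2⟩, h3⟩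
  have h5 := Finset.le_max' _ x h4
  omega

private theorem C2a_first {u : List ℕ} {k a b : ℕ} (h : 1 ≤ cnu u k a b) :
    ∃ s, a ≤ s ∧ s < b ∧ u[s]? = some k ∧ ∀ x, a ≤ x → x < s → u[x]? ≠ some k := by
  have hne : ((Finset.Ico a b).filter (fun x => u[x]? = some k)).Nonempty :=
    Finset.card_pos.1 h
  have hm := Finset.min'_mem _ hne
  obtain ⟨s, hs⟩ : ∃ s, s = ((Finset.Ico a b).filter (fun x => u[x]? = some k)).min' hne := ⟨_, rfl⟩
  rw [← hs, Finset.mem_filter, Finset.mem_Ico] at hm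
  refine ⟨s, hm.1.1, hm.1.2, hm.2, fun x h1 h2 h3 => ?_⟩
  have h4 : x ∈ (Finset.Ico a b).filter (fun x => u[x]? = some k) := by
    rw [Finset.mem_filter, Finset.mem_Ico]
    exact ⟨⟨h1, by omega⟩, h3⟩
  have h5 := Finset.min'_le _ x h4
  omega

private theorem C2a_none {u : List ℕ} {k a b : ℕ} (h : cnu u k a b = 0) {x : ℕ} (h1 : a ≤ x)
    (h2 : x < b) : u[x]? ≠ some k := by
  intro h3
  have h4 : x ∈ (Finset.Ico a b).filter (fun x => u[x]? = some k) := by
    rw [Finset.mem_filter, Finset.mem_Ico]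
    exact ⟨⟨h1, h2⟩, h3⟩
  have h5 : 0 < cnu u k a b := Finset.card_pos.2 ⟨x, h4⟩
  omega

/-- `cell n u k (L (2 t))`, `1 ≤ t ≤ T - 1`, lies between the last letter `k` of the macro step `2 t - 1` and the first letter `k` of
the macro step `2 t + 1` (`mid_cell`). -/
theorem gap_cell (hf : Full n u) {k : ℕ} (h1 : 1 ≤ k) (h2 : k < n) (hG : Gap u L T k) {t : ℕ}
    (ht : 1 ≤ t) (ht' : t + 1 ≤ T) :
    ∃ s s', L (2 * t - 1) ≤ s ∧ s < L (2 * t) ∧ L (2 * t + 1) ≤ s' ∧ s' < L (2 * t + 2) ∧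
      u[s]? = some k ∧ u[s']? = some k ∧ (∀ x, s < x → x < s' → u[x]? ≠ some k) ∧
      (cell n u k (L (2 * t))).val = s + 1 ∧
      ∀ k' x, k' ≤ n → x ≤ u.length →
        (cell n u k' x = cell n u k (L (2 * t)) ↔ k' = k ∧ s < x ∧ x ≤ s') := by
  obtain ⟨t0, rfl⟩ : ∃ t0, t = t0 + 1 := ⟨t - 1, by omega⟩
  obtain ⟨s, a1, a2, a3, a4⟩ := C2a_last (hG.odd1 t0 (by omega))
  obtain ⟨s', b1, b2, b3, b4⟩ := C2a_first (hG.odd1 (t0 + 1) (by omega))
  have hz := hG.even0 (t0 + 1) (by omega)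
  have m1 : L (2 * (t0 + 1)) ≤ L (2 * (t0 + 1) + 1) := hG.mono _ (by omega)
  have m2 : L (2 * (t0 + 1) + 2) ≤ L (2 * T) := C2a_mono hG.mono (by omega) le_rfl
  have m3 := hG.top
  have hno : ∀ x, s < x → x < s' → u[x]? ≠ some k := by
    intro x hx1 hx2
    by_cases c1 : x < L (2 * t0 + 2)
    · exact a4 x hx1 c1
    · by_cases c2 : x < L (2 * (t0 + 1) + 1)
      · exact C2a_none hz (by rw [show 2 * (t0 + 1) = 2 * t0 + 2 by ring]; omega) c2
      · exact b4 x (by omega) hx2
  have e2 : 2 * (t0 + 1) = 2 * t0 + 2 := by ring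
  have hss : s < s' := by
    rw [e2] at m1 b1
    omega
  have hs' : s' < u.length := by omega
  have key := fun {k' x : ℕ} (hk' : k' ≤ n) (hx : x ≤ u.length) =>
    mid_cell hf h1 h2 hss hs' a3 b3 hno hk' hx
  have hL : cell n u k (L (2 * (t0 + 1))) = cell n u k (s + 1) := by
    rw [key h2.le (by omega)]
    refine ⟨rfl, ?_, by omega⟩
    rw [e2]
    exact a2
  refine ⟨s, s', ?_, ?_, b1, b2, a3, b3, hno, ?_, ?_⟩
  · have e3 : 2 * (t0 + 1) - 1 = 2 * t0 + 1 := by omega
    rw [e3]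
    exact a1
  · rw [e2]
    exact a2
  · rw [hL]
    have hsl : s < u.length := hss.trans hs'
    refine cell_succ_self hsl ?_ h1 h2
    rw [List.getElem?_eq_getElem hsl] at a3
    exact Option.some.inj a3
  · intro k' x hk' hx
    rw [hL]
    exact key hk' hx

/-- no letter `k` between two times: same cell -/
theorem cell_eq_of_cnu {k a b : ℕ} (hab : a ≤ b) (hb : b ≤ u.length) (h : cnu u k a b = 0) :
    ∀ x, a ≤ x → x ≤ b → cell n u k x = cell n u k a := by
  intro x hx
  induction x, hx using Nat.le_induction with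
  | base => exact fun _ => rfl
  | succ x hx ih =>
    intro hxb
    have hxl : x < u.length := by omega
    have h1 := C2a_none h hx (show x < b by omega)
    rw [List.getElem?_eq_getElem hxl] at h1
    rw [cell_succ_of_ne n hxl (fun h2 => h1 (by rw [h2])), ih (by omega)]

/-- The cells of different corridor gaps, or of different times, are different. -/
theorem gap_inj (hf : Full n u) {k k' : ℕ} (h1 : 1 ≤ k) (h2 : k < n) (h1' : 1 ≤ k') (h2' : k' < n)
    (hG : Gap u L T k) (hG' : Gap u L T k') {t t' : ℕ} (ht : 1 ≤ t) (ht1 : t + 1 ≤ T)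
    (ht' : 1 ≤ t') (ht1' : t' + 1 ≤ T)
    (h : cell n u k (L (2 * t)) = cell n u k' (L (2 * t'))) : k = k' ∧ t = t' := by
  obtain ⟨s, s', a1, a2, b1, b2, -, -, -, -, key⟩ := gap_cell hf h1 h2 hG ht ht1
  have m1 : L (2 * t') ≤ L (2 * T) := C2a_mono hG.mono (by omega) le_rfl
  obtain ⟨h3, h4, h5⟩ := (key k' (L (2 * t')) h2'.le (m1.trans hG.top)).1 h.symm
  refine ⟨h3.symm, ?_⟩
  rcases lt_trichotomy t t' with h6 | h6 | h6
  · exfalso
    have m2 : L (2 * t + 2) ≤ L (2 * t') := C2a_mono hG.mono (by omega) (by omega)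
    omega
  · exact h6
  · exfalso
    have m2 : L (2 * t') ≤ L (2 * t - 1) := C2a_mono hG.mono (by omega) (by omega)
    omega

end Pool.Agent.Lib.MP_72b45c_co.Q
end

section

/-! # MP_72b45c_co, block C (counting), job C2b: neighbours -/

namespace Pool.Agent.Lib.MP_72b45c_co.Q

open SimpleGraph Equiv Equiv.Perm

variable {n : ℕ} {u : List ℕ} {L : ℕ → ℕ} {T : ℕ}

private theorem C2b_zero {v a b x : ℕ} (h : cnu u v a b = 0) (h1 : a ≤ x) (h2 : x < b) :
    u[x]? ≠ some v := by
  intro h3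
  have h4 := Finset.card_eq_zero.1 h
  have h5 : x ∈ (Finset.Ico a b).filter (fun x => u[x]? = some v) :=
    Finset.mem_filter.2 ⟨Finset.mem_Ico.2 ⟨h1, h2⟩, h3⟩
  rw [h4] at h5
  exact absurd h5 (Finset.notMem_empty x)

private theorem C2b_mk {v a b : ℕ} (h : ∀ x, a ≤ x → x < b → u[x]? ≠ some v) :
    cnu u v a b = 0 := by
  refine Finset.card_eq_zero.2 (Finset.filter_eq_empty_iff.2 fun x hx => ?_)
  rw [Finset.mem_Ico] at hx
  exact h x hx.1 hx.2

private theorem C2b_uniq {v a b x y : ℕ} (h : cnu u v a b = 1) (h1 : a ≤ x) (h2 : x < b)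
    (h3 : a ≤ y) (h4 : y < b) (hx : u[x]? = some v) (hy : u[y]? = some v) : x = y := by
  have h5 := Finset.card_le_one.1 (le_of_eq h)
  exact h5 x (Finset.mem_filter.2 ⟨Finset.mem_Ico.2 ⟨h1, h2⟩, hx⟩) y
    (Finset.mem_filter.2 ⟨Finset.mem_Ico.2 ⟨h3, h4⟩, hy⟩)

private theorem C2b_ex {v a b : ℕ} (h : cnu u v a b = 1) :
    ∃ x, a ≤ x ∧ x < b ∧ u[x]? = some v := by
  have h1 : 0 < ((Finset.Ico a b).filter (fun x => u[x]? = some v)).card := by
    have : ((Finset.Ico a b).filter (fun x => u[x]? = some v)).card = 1 := h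
    omega
  obtain ⟨x, hx⟩ := Finset.card_pos.1 h1
  rw [Finset.mem_filter, Finset.mem_Ico] at hx
  exact ⟨x, hx.1.1, hx.1.2, hx.2⟩

private theorem C2b_get {x v : ℕ} (h : u[x]? = some v) : ∃ hx : x < u.length, u[x] = v :=
  List.getElem?_eq_some_iff.1 h

/-- Neighbours in `BG` have gaps at distance `0` or `2`: if `s(c, c') = pr n u 1 x` and `c`, `c'` are cells of the gaps `k`, `k'` as
in `gap_cell`, then the corners of the letter `x` are nodes of the gaps `u[x]`, `u[x]` or `u[x] - 1`, `u[x] + 1`. -/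
theorem gap_not_adj (hu : Red n u) {k k' : ℕ} (h1 : 1 ≤ k) (h2 : k < n) (h1' : 1 ≤ k')
    (h2' : k' < n) (hk : k + 2 < k' ∨ k' + 2 < k) (hG : Gap u L T k) (hG' : Gap u L T k') {t t' : ℕ}
    (ht : 1 ≤ t) (ht1 : t + 1 ≤ T) (ht' : 1 ≤ t') (ht1' : t' + 1 ≤ T) :
    ¬ (BG n u 1).Adj (cell n u k (L (2 * t))) (cell n u k' (L (2 * t'))) := by
  rintro ⟨-, x, hx⟩
  have hf := hu.full
  obtain ⟨s, s', -, -, -, -, -, -, -, -, hc⟩ := gap_cell hf h1 h2 hG ht ht1
  obtain ⟨r, r', -, -, -, -, -, -, -, -, hc'⟩ := gap_cell hf h1' h2' hG' ht' ht1'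
  have hm := hf.1 _ (List.getElem_mem x.2)
  have hx1 : (x : ℕ) ≤ u.length := x.2.le
  have hx2 : (x : ℕ) + 1 ≤ u.length := x.2
  obtain ⟨a, ha⟩ : ∃ a, a = u[x] := ⟨_, rfl⟩
  have hm' : 1 ≤ a ∧ a < n := by rw [ha]; exact hm
  unfold pr at hx
  rw [← ha] at hx
  split_ifs at hx with h
  · rcases Sym2.eq_iff.1 hx with ⟨e1, e2⟩ | ⟨e1, e2⟩
    · have q1 := ((hc a x (by omega) hx1).1 e1).1
      have q2 := ((hc' a (x + 1) (by omega) hx2).1 e2).1
      omega
    · have q1 := ((hc' a x (by omega) hx1).1 e1).1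
      have q2 := ((hc a (x + 1) (by omega) hx2).1 e2).1
      omega
  · rcases Sym2.eq_iff.1 hx with ⟨e1, e2⟩ | ⟨e1, e2⟩
    · have q1 := ((hc (a - 1) x (by omega) hx1).1 e1).1
      have q2 := ((hc' (a + 1) x (by omega) hx1).1 e2).1
      omega
    · have q1 := ((hc' (a - 1) x (by omega) hx1).1 e1).1
      have q2 := ((hc (a + 1) x (by omega) hx1).1 e2).1
      omega

/-- All neighbours of the cell `cell n u k (L (2 t))`, `k` odd, when the letters `k` occur exactly once in every odd step and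
not in the even steps, the letters `k ± 1` exactly once in every even step and not in the odd steps, the letters
`k ± 2` not in the even steps. Its nodes are `(k, x)`, `s < x ≤ s'` (`gap_cell`); the letters with this cell in their black pair
are `s`, `s'` (pairs with `cell k (L (2t-2))`, `cell k (L (2t+2))`), and the letters `k ± 1` of the step `2 t` (pairs with
`cell (k ± 2) (L (2t))`); `cell_eq_of_cnu`. -/
theorem gap_adj (hu : Red n u) (hn : Even n) {k : ℕ} (hk : k % 2 = 1) (h1 : 3 ≤ k) (h2 : k + 3 ≤ n)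
    (hG : Gap u L T k) (hodd : ∀ t < T, cnu u k (L (2 * t + 1)) (L (2 * t + 2)) = 1)
    (he : ∀ t < T, cnu u (k - 1) (L (2 * t)) (L (2 * t + 1)) = 1 ∧
      cnu u (k + 1) (L (2 * t)) (L (2 * t + 1)) = 1 ∧
      cnu u (k - 2) (L (2 * t)) (L (2 * t + 1)) = 0 ∧ cnu u (k + 2) (L (2 * t)) (L (2 * t + 1)) = 0)
    (ho : ∀ t < T, cnu u (k - 1) (L (2 * t + 1)) (L (2 * t + 2)) = 0 ∧
      cnu u (k + 1) (L (2 * t + 1)) (L (2 * t + 2)) = 0)
    {t : ℕ} (ht : 1 ≤ t) (ht' : t + 1 ≤ T) (v : Fin (u.length + 1)) :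
    (BG n u 1).Adj (cell n u k (L (2 * t))) v ↔
      v = cell n u k (L (2 * (t - 1))) ∨ v = cell n u k (L (2 * (t + 1))) ∨
      v = cell n u (k + 2) (L (2 * t)) ∨ v = cell n u (k - 2) (L (2 * t)) := by
  obtain ⟨r, rfl⟩ : ∃ r, t = r + 1 := ⟨t - 1, by omega⟩
  have hf := hu.full
  obtain ⟨s, s', b1, b2, b3, b4, hs, hs1, hno, hval, hc⟩ :=
    gap_cell hf (by omega : 1 ≤ k) (by omega : k < n) hG ht ht'
  have e1 : 2 * (r + 1) - 1 = 2 * r + 1 := by omega
  have e2 : 2 * (r + 1) = 2 * r + 2 := by ring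
  have e3 : 2 * (r + 1 - 1) = 2 * r := by omega
  have e4 : 2 * (r + 1 + 1) = 2 * r + 2 + 2 := by ring
  rw [e1] at b1
  rw [e3, e4]
  rw [e2] at b2 b3 b4 hc hval ⊢
  have m0 := hG.mono (2 * r) (by omega)
  have m1 := hG.mono (2 * r + 1) (by omega)
  have m2 := hG.mono (2 * r + 2) (by omega)
  have m3 := hG.mono (2 * r + 2 + 1) (by omega)
  have hod0 := hodd r (by omega)
  have hod1 := hodd (r + 1) (by omega)
  have hev0 := hG.even0 r (by omega)
  obtain ⟨he1, he2, he3, he4⟩ := he (r + 1) (by omega)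
  obtain ⟨ho1, ho2⟩ := ho r (by omega)
  obtain ⟨ho3, ho4⟩ := ho (r + 1) (by omega)
  rw [e2] at hod1 he1 he2 he3 he4 ho3 ho4
  rw [show 2 * r + 1 + 1 = 2 * r + 2 from rfl] at m1
  rw [show 2 * r + 2 + 1 + 1 = 2 * r + 2 + 2 from rfl] at m3
  obtain ⟨hs_lt, hsk⟩ := C2b_get hs
  obtain ⟨hs1_lt, hs1k⟩ := C2b_get hs1
  -- the end of the window lies in the word
  have hlen : L (2 * r + 2 + 2) ≤ u.length := by
    have hmono : ∀ d, 2 * r + 2 + 2 + d ≤ 2 * T → L (2 * r + 2 + 2) ≤ L (2 * r + 2 + 2 + d) := by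
      intro d
      induction d with
      | zero => exact fun _ => le_rfl
      | succ d ih =>
        intro hd
        exact (ih (by omega)).trans (hG.mono (2 * r + 2 + 2 + d) (by omega))
    have h3 := hmono (2 * T - (2 * r + 2 + 2)) (by omega)
    rw [show 2 * r + 2 + 2 + (2 * T - (2 * r + 2 + 2)) = 2 * T by omega] at h3
    exact h3.trans hG.top
  -- the cell itself
  obtain ⟨c, hcdef⟩ : ∃ c, c = cell n u k (L (2 * r + 2)) := ⟨_, rfl⟩
  rw [← hcdef] at hc ⊢
  -- the four neighbours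
  have n1 : cell n u k s = cell n u k (L (2 * r)) := by
    refine cell_eq_of_cnu (b := s) (by omega) (by omega) (C2b_mk fun x hx1 hx2 hx3 => ?_) s
      (by omega) le_rfl
    by_cases hx4 : x < L (2 * r + 1)
    · exact C2b_zero hev0 hx1 hx4 hx3
    · have := C2b_uniq hod0 (x := x) (y := s) (by omega) (by omega) b1 b2 hx3 hs
      omega
  have n2 : cell n u k (s' + 1) = cell n u k (L (2 * r + 2 + 2)) := by
    refine (cell_eq_of_cnu (b := L (2 * r + 2 + 2)) (by omega) hlen
      (C2b_mk fun x hx1 hx2 hx3 => ?_) _ (by omega) le_rfl).symm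
    have := C2b_uniq hod1 (x := x) (y := s') (by omega) (by omega) b3 b4 hx3 hs1
    omega
  have n3 : ∀ x, L (2 * r + 2) ≤ x → x < L (2 * r + 2 + 1) →
      cell n u (k + 2) x = cell n u (k + 2) (L (2 * r + 2)) := fun x hx1 hx2 =>
    cell_eq_of_cnu m2 (by omega) he4 x hx1 hx2.le
  have n4 : ∀ x, L (2 * r + 2) ≤ x → x < L (2 * r + 2 + 1) →
      cell n u (k - 2) x = cell n u (k - 2) (L (2 * r + 2)) := fun x hx1 hx2 =>
    cell_eq_of_cnu m2 (by omega) he3 x hx1 hx2.le
  have win : ∀ x v, (v = k - 1 ∨ v = k + 1) → s < x → x ≤ s' → u[x]? = some v →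
      L (2 * r + 2) ≤ x ∧ x < L (2 * r + 2 + 1) := by
    intro x v hv hx1 hx2 hx3
    constructor
    · by_contra hx4
      rcases hv with rfl | rfl
      · exact C2b_zero ho1 (by omega) (by omega) hx3
      · exact C2b_zero ho2 (by omega) (by omega) hx3
    · by_contra hx4
      rcases hv with rfl | rfl
      · exact C2b_zero ho3 (by omega) (by omega) hx3
      · exact C2b_zero ho4 (by omega) (by omega) hx3
  have key : (∃ x, pr n u 1 x = s(c, v)) ↔
      v = cell n u k (L (2 * r)) ∨ v = cell n u k (L (2 * r + 2 + 2)) ∨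
      v = cell n u (k + 2) (L (2 * r + 2)) ∨ v = cell n u (k - 2) (L (2 * r + 2)) := by
    constructor
    · rintro ⟨x, hx⟩
      have hm := hf.1 _ (List.getElem_mem x.2)
      have hx1 : (x : ℕ) ≤ u.length := x.2.le
      have hx2 : (x : ℕ) + 1 ≤ u.length := x.2
      obtain ⟨a, ha⟩ : ∃ a, a = u[x] := ⟨_, rfl⟩
      have hm' : 1 ≤ a ∧ a < n := by rw [ha]; exact hm
      have ha' : u[(x : ℕ)]? = some a := by
        rw [ha]
        exact List.getElem?_eq_getElem x.2
      unfold pr at hx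
      rw [← ha] at hx
      have case1 : cell n u a x = c → v = cell n u a (x + 1) →
          v = cell n u k (L (2 * r + 2 + 2)) := by
        intro q1 q2
        obtain ⟨rfl, q3, q4⟩ := (hc a x (by omega) hx1).1 q1
        have q5 : (x : ℕ) = s' := by
          by_contra q6
          exact hno x q3 (by omega) ha'
        rw [q2, q5, n2]
      have case2 : cell n u a (x + 1) = c → v = cell n u a x → v = cell n u k (L (2 * r)) := by
        intro q1 q2
        obtain ⟨rfl, q3, q4⟩ := (hc a (x + 1) (by omega) hx2).1 q1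
        have q5 : (x : ℕ) = s := by
          by_contra q6
          exact hno x (by omega) (by omega) ha'
        rw [q2, q5, n1]
      split_ifs at hx with h
      · rcases Sym2.eq_iff.1 hx with ⟨q1, q2⟩ | ⟨q1, q2⟩
        · exact Or.inr (Or.inl (case1 q1 q2.symm))
        · exact Or.inl (case2 q2 q1.symm)
      · rcases Sym2.eq_iff.1 hx with ⟨q1, q2⟩ | ⟨q1, q2⟩
        · obtain ⟨q3, q4, q5⟩ := (hc (a - 1) x (by omega) hx1).1 q1
          have q6 := win x a (Or.inr (by omega)) q4 q5 ha'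
          rw [show a + 1 = k + 2 by omega] at q2
          exact Or.inr (Or.inr (Or.inl (q2.symm.trans (n3 x q6.1 q6.2))))
        · obtain ⟨q3, q4, q5⟩ := (hc (a + 1) x (by omega) hx1).1 q2
          have q6 := win x a (Or.inl (by omega)) q4 q5 ha'
          rw [show a - 1 = k - 2 by omega] at q1
          exact Or.inr (Or.inr (Or.inr (q1.symm.trans (n4 x q6.1 q6.2))))
    · rintro (h | h | h | h)
      · refine ⟨⟨s, hs_lt⟩, ?_⟩
        have hk' : u[(⟨s, hs_lt⟩ : Fin u.length)] = k := hsk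
        unfold pr
        rw [hk', if_pos (by omega), h, ← n1]
        have q1 : cell n u k (s + 1) = c := (hc k (s + 1) (by omega) (by omega)).2
          ⟨rfl, by omega, by omega⟩
        show s(cell n u k s, cell n u k (s + 1)) = _
        rw [q1]
        exact Sym2.eq_swap
      · refine ⟨⟨s', hs1_lt⟩, ?_⟩
        have hk' : u[(⟨s', hs1_lt⟩ : Fin u.length)] = k := hs1k
        unfold pr
        rw [hk', if_pos (by omega), h, ← n2]
        have q1 : cell n u k s' = c := (hc k s' (by omega) (by omega)).2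
          ⟨rfl, by omega, by omega⟩
        show s(cell n u k s', cell n u k (s' + 1)) = _
        rw [q1]
      · obtain ⟨x, hx1, hx2, hx3⟩ := C2b_ex he2
        obtain ⟨hx4, hx5⟩ := C2b_get hx3
        refine ⟨⟨x, hx4⟩, ?_⟩
        have hk' : u[(⟨x, hx4⟩ : Fin u.length)] = k + 1 := hx5
        unfold pr
        rw [hk', if_neg (by omega), h]
        have q1 : cell n u k x = c := (hc k x (by omega) (by omega)).2
          ⟨rfl, by omega, by omega⟩
        show s(cell n u (k + 1 - 1) x, cell n u (k + 1 + 1) x) = _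
        rw [show k + 1 - 1 = k by omega, show k + 1 + 1 = k + 2 by omega, q1, n3 x hx1 hx2]
      · obtain ⟨x, hx1, hx2, hx3⟩ := C2b_ex he1
        obtain ⟨hx4, hx5⟩ := C2b_get hx3
        refine ⟨⟨x, hx4⟩, ?_⟩
        have hk' : u[(⟨x, hx4⟩ : Fin u.length)] = k - 1 := hx5
        unfold pr
        rw [hk', if_neg (by omega), h]
        have q1 : cell n u k x = c := (hc k x (by omega) (by omega)).2
          ⟨rfl, by omega, by omega⟩
        show s(cell n u (k - 1 - 1) x, cell n u (k - 1 + 1) x) = _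
        rw [show k - 1 + 1 = k by omega, show k - 1 - 1 = k - 2 by omega, q1, n4 x hx1 hx2]
        exact Sym2.eq_swap
  have hne : (v = cell n u k (L (2 * r)) ∨ v = cell n u k (L (2 * r + 2 + 2)) ∨
      v = cell n u (k + 2) (L (2 * r + 2)) ∨ v = cell n u (k - 2) (L (2 * r + 2))) → c ≠ v := by
    intro h hcv
    rw [← hcv] at h
    rcases h with h | h | h | h
    · have := (hc k (L (2 * r)) (by omega) (by omega)).1 h.symm
      omega
    · have := (hc k (L (2 * r + 2 + 2)) (by omega) (by omega)).1 h.symm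
      omega
    · have := (hc (k + 2) (L (2 * r + 2)) (by omega) (by omega)).1 h.symm
      omega
    · have := (hc (k - 2) (L (2 * r + 2)) (by omega) (by omega)).1 h.symm
      omega
  constructor
  · rintro ⟨-, h⟩
    exact key.1 h
  · intro h
    exact ⟨hne h, key.2 h⟩

end Pool.Agent.Lib.MP_72b45c_co.Q
end
end

section

section

/-! # MP_72b45c_co, block C (counting), job C3a: type-ascending words -/

namespace Pool.Agent.Lib.MP_72b45c_co.Q

open SimpleGraph Equiv Equiv.Perm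

theorem TAsc_append {n : ℕ} {π : Perm ℕ} {u v : List ℕ} :
    TAsc n π (u ++ v) ↔ TAsc n π u ∧ TAsc n (run π u) v := by
  induction u generalizing π with
  | nil => simp [TAsc, run]
  | cons k u ih => simp [TAsc, run, ih, and_assoc]

/-- Type-ascending words are ascending: invariant: labels `x < y` with `ty y ≤ ty x` are not inverted
(`π.symm x < π.symm y`). A letter `k` with `ty (π k) < ty (π (k+1))` therefore has `π k < π (k+1)`, and it preserves the invariant. -/
theorem Asc_of_TAsc {n : ℕ} (u : List ℕ) (π : Perm ℕ)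
    (hπ : ∀ x y, x < y → ty y ≤ ty x → π.symm x < π.symm y) (h : TAsc n π u) : Asc n π u := by
  induction u generalizing π with
  | nil => trivial
  | cons k u ih =>
    obtain ⟨h1, h2, h3, h4⟩ := h
    refine ⟨h1, h2, ?_, ih _ (fun x y hxy ht => ?_) h4⟩
    · by_contra hlt
      have hne : π (k + 1) ≠ π k := fun h => by
        have := π.injective h
        omega
      have h5 : π (k + 1) < π k := lt_of_le_of_ne (not_lt.mp hlt) hne
      have h6 := hπ _ _ h5 h3.le
      rw [Equiv.symm_apply_apply, Equiv.symm_apply_apply] at h6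
      omega
    · have h5 := hπ x y hxy ht
      have h6 : ∀ z, (π * swap k (k + 1)).symm z = swap k (k + 1) (π.symm z) := by
        intro z
        rw [Equiv.symm_apply_eq, Perm.mul_apply, swap_apply_self, Equiv.apply_symm_apply]
      have h7 : ¬ (π.symm x = k ∧ π.symm y = k + 1) := by
        rintro ⟨hx, hy⟩
        have e1 : π k = x := by rw [← hx, Equiv.apply_symm_apply]
        have e2 : π (k + 1) = y := by rw [← hy, Equiv.apply_symm_apply]
        rw [e1, e2] at h3
        omega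
      rw [h6, h6, swap_apply_def, swap_apply_def]
      split_ifs <;> omega

/-- the two braids give the same state -/
theorem run_braid (π : Perm ℕ) {k : ℕ} (hk : 1 ≤ k) : run π [k, k - 1, k] = run π [k - 1, k, k - 1] := by
  obtain ⟨j, rfl⟩ : ∃ j, k = j + 1 := ⟨k - 1, by omega⟩
  simp only [run, Nat.add_sub_cancel, mul_assoc]
  congr 1
  ext x
  simp only [Perm.mul_apply, swap_apply_def]
  split_ifs <;> omega

theorem mstep_bit (n τ : ℕ) (bit bit' : ℕ → ℕ → Bool) :
    (mstep n τ bit).length = (mstep n τ bit').length ∧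
    ∀ π : Perm ℕ, run π (mstep n τ bit) = run π (mstep n τ bit') := by
  have h1 : ∀ k, (grp n τ bit k).length = (grp n τ bit' k).length ∧
      ∀ π : Perm ℕ, run π (grp n τ bit k) = run π (grp n τ bit' k) := by
    intro k
    unfold grp
    by_cases h : 2 * τ + 2 ≤ k ∧ k + 1 + 2 * τ ≤ n
    · rw [if_pos h, if_pos h]
      by_cases h2 : τ % 2 = 0
      · rw [if_pos h2, if_pos h2]
        exact ⟨rfl, fun _ => rfl⟩
      · rw [if_neg h2, if_neg h2]
        by_cases h3 : k % 9 = 0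
        · rw [if_pos h3, if_pos h3]
          have hk : 1 ≤ k := by omega
          cases bit k τ <;> cases bit' k τ
          · exact ⟨rfl, fun _ => rfl⟩
          · exact ⟨rfl, fun π => (run_braid π hk).symm⟩
          · exact ⟨rfl, fun π => run_braid π hk⟩
          · exact ⟨rfl, fun _ => rfl⟩
        · rw [if_neg h3, if_neg h3]
          exact ⟨rfl, fun _ => rfl⟩
    · rw [if_neg h, if_neg h]
      exact ⟨rfl, fun _ => rfl⟩
  have h2 : ∀ L : List ℕ, (L.flatMap (grp n τ bit)).length = (L.flatMap (grp n τ bit')).length ∧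
      ∀ π : Perm ℕ, run π (L.flatMap (grp n τ bit)) = run π (L.flatMap (grp n τ bit')) := by
    intro L
    induction L with
    | nil => exact ⟨rfl, fun _ => rfl⟩
    | cons k L ih =>
      refine ⟨?_, fun π => ?_⟩
      · rw [List.flatMap_cons, List.flatMap_cons, List.length_append, List.length_append, ih.1,
          (h1 k).1]
      · rw [List.flatMap_cons, List.flatMap_cons, run_append, run_append, (h1 k).2, ih.2]
  exact h2 _

theorem mword_bit (n τ : ℕ) (bit bit' : ℕ → ℕ → Bool) :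
    (mword n bit τ).length = (mword n bit' τ).length ∧
    run 1 (mword n bit τ) = run 1 (mword n bit' τ) := by
  induction τ with
  | zero => exact ⟨rfl, rfl⟩
  | succ τ ih =>
    obtain ⟨h1, h2⟩ := mstep_bit n τ bit bit'
    refine ⟨?_, ?_⟩
    · rw [mword, mword, List.length_append, List.length_append, ih.1, h1]
    · rw [mword, mword, run_append, run_append, ih.2, h2]

end Pool.Agent.Lib.MP_72b45c_co.Q
end

section

/-! # MP_72b45c_co, block C (counting), job C3b: one macro step -/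

namespace Pool.Agent.Lib.MP_72b45c_co.Q

open SimpleGraph Equiv Equiv.Perm

private theorem C3b_zero {τ x : ℕ} (h : x % 9 = 0) : pat τ x = 1 := if_pos h

private theorem C3b_lo {τ x : ℕ} (h : x % 9 ≠ 0) (h' : (x % 9 + τ) % 2 = 1) : pat τ x = 0 := by
  unfold pat
  rw [if_neg h, if_pos h']

private theorem C3b_hi {τ x : ℕ} (h : x % 9 ≠ 0) (h' : (x % 9 + τ) % 2 = 0) : pat τ x = 2 := by
  unfold pat
  rw [if_neg h, if_neg (by omega)]

/-- the centre of a position -/
private def C3b_ctr (τ x : ℕ) : ℕ :=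
  if τ % 2 = 0 then (if x % 9 = 0 ∨ x % 9 % 2 = 1 then x else x - 1)
  else (if x % 9 = 8 then x + 1 else if x % 9 % 2 = 1 then x - 1 else x)

private def C3b_inv (n τ m : ℕ) (ρ : Perm ℕ) : Prop :=
  ∀ x, 2 * τ < x → x + 2 * τ ≤ n → ty (ρ x) =
    if 2 * τ + 2 ≤ C3b_ctr τ x ∧ C3b_ctr τ x + 1 + 2 * τ ≤ n ∧ C3b_ctr τ x < m then
      pat (τ + 1) x else pat τ x

/-- nothing happens, if no position changes its type -/
private theorem C3b_nil {n τ m : ℕ} {ρ : Perm ℕ} (h : C3b_inv n τ m ρ)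
    (hx : ∀ x, 2 * τ < x → x + 2 * τ ≤ n → 2 * τ + 2 ≤ m → m + 1 + 2 * τ ≤ n →
      C3b_ctr τ x = m → pat (τ + 1) x = pat τ x) : C3b_inv n τ (m + 1) ρ := by
  intro x h1 h2
  rw [h x h1 h2]
  by_cases hc : C3b_ctr τ x = m
  · rw [if_neg (by omega)]
    by_cases h3 : 2 * τ + 2 ≤ m ∧ m + 1 + 2 * τ ≤ n
    · rw [if_pos (by omega), hx x h1 h2 h3.1 h3.2 hc]
    · rw [if_neg (by omega)]
  · by_cases h3 : 2 * τ + 2 ≤ C3b_ctr τ x ∧ C3b_ctr τ x + 1 + 2 * τ ≤ n ∧ C3b_ctr τ x < m
    · rw [if_pos h3, if_pos (by omega)]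
    · rw [if_neg h3, if_neg (by omega)]

/-- a permutation which changes only positions with the centre `m` -/
private theorem C3b_step {n τ m : ℕ} {ρ ρ' : Perm ℕ} (h : C3b_inv n τ m ρ)
    (h1 : 2 * τ + 2 ≤ m) (h2 : m + 1 + 2 * τ ≤ n)
    (hout : ∀ x, C3b_ctr τ x ≠ m → ρ' x = ρ x)
    (hin : ∀ x, 2 * τ < x → x + 2 * τ ≤ n → C3b_ctr τ x = m → ty (ρ' x) = pat (τ + 1) x) :
    C3b_inv n τ (m + 1) ρ' := by
  intro x hx1 hx2
  by_cases hc : C3b_ctr τ x = m
  · rw [if_pos (by omega), hin x hx1 hx2 hc]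
  · rw [hout x hc, h x hx1 hx2]
    by_cases h3 : 2 * τ + 2 ≤ C3b_ctr τ x ∧ C3b_ctr τ x + 1 + 2 * τ ≤ n ∧ C3b_ctr τ x < m
    · rw [if_pos h3, if_pos (by omega)]
    · rw [if_neg h3, if_neg (by omega)]

private theorem C3b_old {n τ m : ℕ} {ρ : Perm ℕ} (h : C3b_inv n τ m ρ) {x : ℕ}
    (hx1 : 2 * τ < x) (hx2 : x + 2 * τ ≤ n) (hc : C3b_ctr τ x = m) : ty (ρ x) = pat τ x := by
  rw [h x hx1 hx2, if_neg (by omega)]

/-- one letter -/
private theorem C3b_one {n τ m : ℕ} {ρ : Perm ℕ} (h : C3b_inv n τ m ρ)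
    (h1 : 2 * τ + 2 ≤ m) (h2 : m + 1 + 2 * τ ≤ n)
    (hc1 : C3b_ctr τ m = m) (hc2 : C3b_ctr τ (m + 1) = m)
    (hc3 : ∀ x, C3b_ctr τ x = m → x = m ∨ x = m + 1)
    (hm : m % 9 ≠ 0) (hm' : (m % 9 + τ) % 2 = 1) (hm8 : m % 9 ≠ 8) :
    TAsc n ρ [m] ∧ C3b_inv n τ (m + 1) (run ρ [m]) := by
  have t1 : ty (ρ m) = 0 := by
    rw [C3b_old h (by omega) (by omega) hc1, C3b_lo hm hm']
  have t2 : ty (ρ (m + 1)) = 2 := by
    rw [C3b_old h (by omega) (by omega) hc2, C3b_hi (by omega) (by omega)]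
  have e1 : run ρ [m] = ρ * swap m (m + 1) := rfl
  refine ⟨⟨by omega, by omega, by omega, trivial⟩, C3b_step h h1 h2 ?_ ?_⟩
  · intro x hx
    have hx1 : x ≠ m := fun e => hx (by rw [e]; exact hc1)
    have hx2 : x ≠ m + 1 := fun e => hx (by rw [e]; exact hc2)
    rw [e1, Perm.mul_apply, swap_apply_of_ne_of_ne hx1 hx2]
  · intro x hx1 hx2 hc
    rw [e1, Perm.mul_apply]
    rcases hc3 x hc with rfl | rfl
    · rw [swap_apply_left, t2, C3b_hi hm (by omega)]
    · rw [swap_apply_right, t1, C3b_lo (by omega) (by omega)]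

/-- three letters -/
private theorem C3b_three {n τ j : ℕ} {ρ : Perm ℕ} (h : C3b_inv n τ (j + 1) ρ)
    (h1 : 2 * τ + 2 ≤ j + 1) (h2 : j + 1 + 1 + 2 * τ ≤ n) (hτ : τ % 2 = 1)
    (hj : (j + 1) % 9 = 0) :
    TAsc n ρ [j + 1, j, j + 1] ∧ TAsc n ρ [j, j + 1, j] ∧
      C3b_inv n τ (j + 1 + 1) (run ρ [j + 1, j, j + 1]) := by
  have hc : ∀ x, C3b_ctr τ x = j + 1 ↔ x = j ∨ x = j + 1 ∨ x = j + 2 := by
    intro x
    unfold C3b_ctr
    rw [if_neg (by omega)]
    split_ifs <;> omega
  have t1 : ty (ρ j) = 0 := by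
    rw [C3b_old h (by omega) (by omega) ((hc j).2 (by omega)), C3b_lo (by omega) (by omega)]
  have t2 : ty (ρ (j + 1)) = 1 := by
    rw [C3b_old h (by omega) (by omega) ((hc (j + 1)).2 (by omega)), C3b_zero (by omega)]
  have t3 : ty (ρ (j + 2)) = 2 := by
    rw [C3b_old h (by omega) (by omega) ((hc (j + 2)).2 (by omega)), C3b_hi (by omega) (by omega)]
  have s1 : swap (j + 1) (j + 1 + 1) j = j := swap_apply_of_ne_of_ne (by omega) (by omega)
  have s2 : swap (j + 1) (j + 1 + 1) (j + 1) = j + 2 := swap_apply_left _ _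
  have s3 : swap (j + 1) (j + 1 + 1) (j + 2) = j + 1 := swap_apply_right _ _
  have s4 : swap j (j + 1) j = j + 1 := swap_apply_left _ _
  have s5 : swap j (j + 1) (j + 1) = j := swap_apply_right _ _
  have s6 : swap j (j + 1) (j + 2) = j + 2 := swap_apply_of_ne_of_ne (by omega) (by omega)
  have e1 : ∀ x, run ρ [j + 1, j, j + 1] x =
      ρ (swap (j + 1) (j + 1 + 1) (swap j (j + 1) (swap (j + 1) (j + 1 + 1) x))) := fun x => rfl
  refine ⟨⟨by omega, by omega, ?_, by omega, by omega, ?_, by omega, by omega, ?_, trivial⟩,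
    ⟨by omega, by omega, ?_, by omega, by omega, ?_, by omega, by omega, ?_, trivial⟩,
    C3b_step h h1 h2 ?_ ?_⟩
  · rw [t2, show j + 1 + 1 = j + 2 from rfl, t3]
    omega
  · rw [Perm.mul_apply, Perm.mul_apply, s1, s2, t1, t3]
    omega
  · rw [Perm.mul_apply, Perm.mul_apply, Perm.mul_apply, Perm.mul_apply,
      show j + 1 + 1 = j + 2 from rfl, s5, s6, show j + 2 = j + 1 + 1 from rfl, s1,
      show (swap (j + 1) (j + 1 + 1)) (j + 1 + 1) = j + 1 from swap_apply_right _ _, t1, t2]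
    omega
  · rw [t1, t2]
    omega
  · rw [Perm.mul_apply, Perm.mul_apply, s5, show j + 1 + 1 = j + 2 from rfl, s6, t1, t3]
    omega
  · rw [Perm.mul_apply, Perm.mul_apply, Perm.mul_apply, Perm.mul_apply, s1, s2, s4, s6, t2, t3]
    omega
  · intro x hx
    have hx' : ¬ (x = j ∨ x = j + 1 ∨ x = j + 2) := fun e => hx ((hc x).2 e)
    rw [e1, swap_apply_of_ne_of_ne (a := j + 1) (b := j + 1 + 1) (x := x) (by omega) (by omega),
      swap_apply_of_ne_of_ne (a := j) (b := j + 1) (x := x) (by omega) (by omega),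
      swap_apply_of_ne_of_ne (a := j + 1) (b := j + 1 + 1) (x := x) (by omega) (by omega)]
  · intro x hx1 hx2 hcx
    rw [e1]
    rcases (hc x).1 hcx with rfl | rfl | rfl
    · rw [s1, s4, s2, t3, C3b_hi (by omega) (by omega)]
    · rw [s2, s6, s3, t2, C3b_zero (by omega)]
    · rw [s3, s5, s1, t1, C3b_lo (by omega) (by omega)]

private theorem C3b_grp {n τ m : ℕ} (bit : ℕ → ℕ → Bool) {ρ : Perm ℕ} (h : C3b_inv n τ m ρ) :
    TAsc n ρ (grp n τ bit m) ∧ C3b_inv n τ (m + 1) (run ρ (grp n τ bit m)) := by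
  unfold grp
  by_cases hw : 2 * τ + 2 ≤ m ∧ m + 1 + 2 * τ ≤ n
  · obtain ⟨h1, h2⟩ := hw
    rw [if_pos ⟨h1, h2⟩]
    by_cases hτ : τ % 2 = 0
    · rw [if_pos hτ]
      by_cases hm : m % 9 % 2 = 1
      · rw [if_pos hm]
        refine C3b_one h h1 h2 ?_ ?_ ?_ (by omega) (by omega) (by omega)
        · unfold C3b_ctr
          rw [if_pos hτ, if_pos (Or.inr hm)]
        · unfold C3b_ctr
          rw [if_pos hτ, if_neg (by omega)]
          omega
        · intro x
          unfold C3b_ctr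
          rw [if_pos hτ]
          split_ifs <;> omega
      · rw [if_neg hm]
        refine ⟨trivial, C3b_nil h ?_⟩
        intro x _ _ _ _ hc
        unfold C3b_ctr at hc
        rw [if_pos hτ] at hc
        have h9 : x % 9 = 0 := by
          split_ifs at hc <;> omega
        rw [C3b_zero h9, C3b_zero h9]
    · rw [if_neg hτ]
      by_cases hm0 : m % 9 = 0
      · rw [if_pos hm0]
        obtain ⟨j, rfl⟩ : ∃ j, m = j + 1 := ⟨m - 1, by omega⟩
        obtain ⟨a, b, c⟩ := C3b_three h h1 h2 (by omega) hm0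
        rw [Nat.add_sub_cancel]
        by_cases hb : bit (j + 1) τ = true
        · rw [if_pos hb]
          exact ⟨a, c⟩
        · rw [if_neg hb]
          have hbr := run_braid ρ (k := j + 1) (by omega)
          rw [Nat.add_sub_cancel] at hbr
          rw [← hbr]
          exact ⟨b, c⟩
      · rw [if_neg hm0]
        by_cases hm : m % 9 % 2 = 0 ∧ m % 9 ≠ 8
        · rw [if_pos hm]
          refine C3b_one h h1 h2 ?_ ?_ ?_ (by omega) (by omega) (by omega)
          · unfold C3b_ctr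
            rw [if_neg hτ, if_neg (by omega), if_neg (by omega)]
          · unfold C3b_ctr
            rw [if_neg hτ, if_neg (by omega), if_pos (by omega)]
            omega
          · intro x
            unfold C3b_ctr
            rw [if_neg hτ]
            split_ifs <;> omega
        · rw [if_neg hm]
          refine ⟨trivial, C3b_nil h ?_⟩
          intro x _ _ _ _ hc
          exfalso
          unfold C3b_ctr at hc
          rw [if_neg hτ] at hc
          split_ifs at hc <;> omega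
  · rw [if_neg hw]
    exact ⟨trivial, C3b_nil h fun x _ _ h3 h4 _ => absurd ⟨h3, h4⟩ hw⟩

private theorem C3b_ind {n τ : ℕ} (bit : ℕ → ℕ → Bool) (π : Perm ℕ)
    (hπ : ∀ x, 2 * τ < x → x + 2 * τ ≤ n → ty (π x) = pat τ x) (m : ℕ) :
    TAsc n π ((List.range m).flatMap (grp n τ bit)) ∧
      C3b_inv n τ m (run π ((List.range m).flatMap (grp n τ bit))) := by
  induction m with
  | zero =>
    refine ⟨trivial, fun x h1 h2 => ?_⟩
    rw [if_neg (by omega)]
    exact hπ x h1 h2
  | succ m ih =>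
    obtain ⟨i1, i2⟩ := ih
    obtain ⟨g1, g2⟩ := C3b_grp bit i2
    rw [List.range_succ, List.flatMap_append, List.flatMap_singleton, TAsc_append, run_append]
    exact ⟨⟨i1, g1⟩, g2⟩

/-- One macro step. Induction over the centres `0, 1, .., n` (prefixes of `List.range (n+1)`): after the centres `< k` a position `x`
that belongs to no used centre `< k` still has its label; a position of a used centre `< k` has the type `pat (τ+1) x`. The centre of
`x`: for even `τ`: `x` if `x % 9` is odd, `x - 1` if `x % 9 ∈ {2,4,6,8}`, none for `x % 9 = 0`; for odd `τ`: `x` if `x % 9 ∈ {0,2,4,6}`, `x - 1` if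
`x % 9 ∈ {1,3,5,7}`, `x + 1` if `x % 9 = 8`. Centres are used iff `2 τ + 2 ≤ k ∧ k + 1 + 2 τ ≤ n`; all positions `k - 1, k, k + 1` of a used centre
are in the window of `τ`, and the centres of all positions in the window of `τ + 1` are used. (Tested by computer.) -/
theorem step_pattern {n τ : ℕ} (bit : ℕ → ℕ → Bool) (π : Perm ℕ)
    (hπ : ∀ x, 2 * τ < x → x + 2 * τ ≤ n → ty (π x) = pat τ x) :
    TAsc n π (mstep n τ bit) ∧
    ∀ x, 2 * (τ + 1) < x → x + 2 * (τ + 1) ≤ n →
      ty (run π (mstep n τ bit) x) = pat (τ + 1) x := by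
  obtain ⟨h1, h2⟩ := C3b_ind bit π hπ (n + 1)
  refine ⟨h1, fun x hx1 hx2 => ?_⟩
  have h3 := h2 x (by omega) (by omega)
  rw [if_pos] at h3
  · exact h3
  · have h4 : x ≤ C3b_ctr τ x + 1 ∧ C3b_ctr τ x ≤ x + 1 := by
      unfold C3b_ctr
      split_ifs <;> omega
    omega

end Pool.Agent.Lib.MP_72b45c_co.Q
end

section

/-! # MP_72b45c_co, block C (counting), job C3c: ascending, completion -/

namespace Pool.Agent.Lib.MP_72b45c_co.Q

open SimpleGraph Equiv Equiv.Perm

private theorem c3c_tasc (n : ℕ) (bit : ℕ → ℕ → Bool) (τ : ℕ) : TAsc n 1 (mword n bit τ) ∧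
    ∀ x, 2 * τ < x → x + 2 * τ ≤ n → ty (run 1 (mword n bit τ) x) = pat τ x := by
  induction τ with
  | zero =>
    refine ⟨trivial, fun x _ _ => ?_⟩
    rfl
  | succ τ ih =>
    have h := step_pattern bit (run 1 (mword n bit τ)) ih.2
    rw [mword, TAsc_append, run_append]
    exact ⟨⟨ih.1, h.1⟩, h.2⟩

theorem mword_asc (n τ : ℕ) (bit : ℕ → ℕ → Bool) : Asc n 1 (mword n bit τ) :=
  Asc_of_TAsc _ 1 (fun _ _ hxy _ => hxy) (c3c_tasc n bit τ).1

/-- completion by the same word for all bits -/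
theorem exists_rest (n τ : ℕ) : ∃ R, ∀ bit, Red n (mword n bit τ ++ R) := by
  obtain ⟨R, hR1, hR2⟩ := exists_completion (n := n)
    (run 1 (mword n (fun _ _ => false) τ)) (fun i hi => by
      rw [run_of_not_mem 1 (mword_asc n τ fun _ _ => false).mem hi, Perm.one_apply])
  refine ⟨R, fun bit => ?_⟩
  have h := (mword_bit n τ bit fun _ _ => false).2
  refine ⟨Asc_append.2 ⟨mword_asc n τ bit, ?_⟩, fun i h1 h2 => ?_⟩
  · rw [h]
    exact hR1
  · rw [run_append, h]
    exact hR2 i h1 h2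

end Pool.Agent.Lib.MP_72b45c_co.Q
end

section

/-! # MP_72b45c_co, block C (counting), job C3d: letters in a macro step -/

namespace Pool.Agent.Lib.MP_72b45c_co.Q

open SimpleGraph Equiv Equiv.Perm

private theorem C3d_flat (f : ℕ → List ℕ) (v N : ℕ) :
    ((List.range N).flatMap f).count v = ∑ k ∈ Finset.range N, (f k).count v := by
  induction N with
  | zero => rfl
  | succ N ih =>
    rw [List.range_succ, List.flatMap_append, List.count_append, ih, Finset.sum_range_succ]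
    simp

private theorem C3d_grp_other {n τ : ℕ} (bit : ℕ → ℕ → Bool) {k v : ℕ} (hv : 1 ≤ v) (h1 : k ≠ v)
    (h2 : k ≠ v + 1) : (grp n τ bit k).count v = 0 := by
  rw [List.count_eq_zero]
  unfold grp
  split_ifs <;> simp <;> omega

private theorem C3d_two {n τ : ℕ} (bit : ℕ → ℕ → Bool) {v : ℕ} (h1 : 2 * τ + 2 ≤ v)
    (h2 : v + 2 + 2 * τ ≤ n) :
    (mstep n τ bit).count v = (grp n τ bit v).count v + (grp n τ bit (v + 1)).count v := by
  unfold mstep
  rw [C3d_flat]
  have hsub : ({v, v + 1} : Finset ℕ) ⊆ Finset.range (n + 1) := by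
    intro x hx
    rw [Finset.mem_insert, Finset.mem_singleton] at hx
    rw [Finset.mem_range]
    omega
  rw [← Finset.sum_subset hsub, Finset.sum_pair (by omega)]
  intro x _ hx
  rw [Finset.mem_insert, Finset.mem_singleton, not_or] at hx
  exact C3d_grp_other bit (by omega) hx.1 hx.2

/-- number of letters in one macro step: letters `v` with `v % 9` odd occur once in the even steps and not in the odd
steps, `v % 9 ∈ {2,4,6}`: once in the odd steps and not in the even steps; `v % 9 = 8`: not in the even steps, in the odd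
steps once or twice according to the bit of the centre `v + 1` (if the centre is used). -/
theorem count_mstep {n τ : ℕ} (bit : ℕ → ℕ → Bool) {v : ℕ} (h1 : 2 * τ + 2 ≤ v)
    (h2 : v + 2 + 2 * τ ≤ n) :
    (v % 9 % 2 = 1 → (mstep n τ bit).count v = if τ % 2 = 0 then 1 else 0) ∧
    (v % 9 % 2 = 0 ∧ v % 9 ≠ 0 ∧ v % 9 ≠ 8 → (mstep n τ bit).count v = if τ % 2 = 0 then 0 else 1) ∧
    (v % 9 = 8 → (mstep n τ bit).count v =
      if τ % 2 = 0 then 0 else if bit (v + 1) τ then 1 else 2) := by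
  rw [C3d_two bit h1 h2]
  have c1 : 2 * τ + 2 ≤ v ∧ v + 1 + 2 * τ ≤ n := by omega
  have c2 : 2 * τ + 2 ≤ v + 1 ∧ v + 1 + 1 + 2 * τ ≤ n := by omega
  unfold grp
  rw [if_pos c1, if_pos c2]
  by_cases hτ : τ % 2 = 0
  · simp only [if_pos hτ]
    refine ⟨fun h => ?_, fun h => ?_, fun h => ?_⟩
    · rw [if_pos h, if_neg (by omega)]
      simp
    · rw [if_neg (by omega)]
      split_ifs
      · simp
      · simp
    · rw [if_neg (by omega), if_neg (by omega)]
      simp
  · simp only [if_neg hτ]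
    refine ⟨fun h => ?_, fun h => ?_, fun h => ?_⟩
    · rw [if_neg (by omega : ¬ v % 9 = 0), if_neg (by omega), if_neg (by omega : ¬ (v + 1) % 9 = 0)]
      split_ifs
      · simp
      · simp
    · rw [if_neg (by omega : ¬ v % 9 = 0), if_pos (by omega), if_neg (by omega : ¬ (v + 1) % 9 = 0),
        if_neg (by omega)]
      simp
    · rw [if_neg (by omega : ¬ v % 9 = 0), if_neg (by omega), if_pos (by omega : (v + 1) % 9 = 0)]
      split_ifs
      · simp
      · simp

private theorem C3d_cnu (A B C : List ℕ) (v : ℕ) :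
    cnu (A ++ B ++ C) v A.length (A.length + B.length) = B.count v := by
  induction B generalizing A with
  | nil =>
    unfold cnu
    simp
  | cons b B ih =>
    have h1 := ih (A ++ [b])
    have e1 : A ++ [b] ++ B ++ C = A ++ (b :: B) ++ C := by simp
    rw [e1] at h1
    unfold cnu at h1 ⊢
    rw [Finset.card_filter] at h1 ⊢
    rw [List.length_append, List.length_singleton] at h1
    rw [Finset.sum_eq_sum_Ico_succ_bot (by rw [List.length_cons]; omega)]
    have e2 : A.length + (b :: B).length = A.length + 1 + B.length := by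
      rw [List.length_cons]
      omega
    rw [e2, h1, List.count_cons]
    have e3 : (A ++ (b :: B) ++ C)[A.length]? = some b := by
      rw [List.append_assoc, List.getElem?_append_right le_rfl, Nat.sub_self]
      rfl
    rw [e3, add_comm]
    congr 1
    by_cases hb : b = v
    · simp [hb]
    · simp [hb]

private theorem C3d_pre {n : ℕ} (bit : ℕ → ℕ → Bool) {τ N : ℕ} (h : τ ≤ N) :
    ∃ C, mword n bit N = mword n bit τ ++ C := by
  induction N, h using Nat.le_induction with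
  | base => exact ⟨[], by simp⟩
  | succ N _ ih =>
    obtain ⟨C, hC⟩ := ih
    refine ⟨C ++ mstep n N bit, ?_⟩
    rw [mword, hC, List.append_assoc]

/-- the count of a letter in one macro step as a count of indices -/
theorem cnu_mword {n : ℕ} (bit : ℕ → ℕ → Bool) (R : List ℕ) {τ N : ℕ} (hτ : τ < N) (v : ℕ) :
    cnu (mword n bit N ++ R) v (mword n bit τ).length (mword n bit (τ + 1)).length =
      (mstep n τ bit).count v := by
  obtain ⟨C, hC⟩ := C3d_pre (n := n) bit (Nat.succ_le_of_lt hτ)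
  have h1 := C3d_cnu (mword n bit τ) (mstep n τ bit) (C ++ R) v
  rw [hC, Nat.succ_eq_add_one, mword, List.length_append]
  rw [← List.append_assoc] at h1
  exact h1

end Pool.Agent.Lib.MP_72b45c_co.Q
end
end

section

section

/-! # MP_72b45c_co, block C (counting), job C1a: rigidity of the ladder -/

namespace Pool.Agent.Lib.MP_72b45c_co.Q

open SimpleGraph Equiv Equiv.Perm

private theorem rigid_step {V V₂ : Type*} {G : SimpleGraph V} {G₂ : SimpleGraph V₂} {T : ℕ}
    {S S' S'' U : ℕ → V} {S₂ S₂' S₂'' U₂ : ℕ → V₂} (h : Lad G T S S' S'' U)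
    (h₂ : Lad G₂ T S₂ S₂' S₂'' U₂) (F : G ≃g G₂) {t : ℕ} (ht : 2 ≤ t) (htT : t + 4 ≤ T)
    (h1 : F (S t) = S₂ t) (h2 : F (S (t + 1)) = S₂ (t + 1)) (h3 : F (S' t) = S₂' t) :
    F (S (t + 2)) = S₂ (t + 2) ∧ F (S' (t + 1)) = S₂' (t + 1) ∧ F (U (t + 1)) = U₂ (t + 1) := by
  have inj1 := fun a b (ha : 1 ≤ a) (ha' : a + 1 ≤ T) (hb : 1 ≤ b) (hb' : b + 1 ≤ T) =>
    h.inj a b ha ha' hb hb'
  have inj2 := fun a b (ha : 1 ≤ a) (ha' : a + 1 ≤ T) (hb : 1 ≤ b) (hb' : b + 1 ≤ T) =>
    h₂.inj a b ha ha' hb hb'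
  -- the neighbours of `S₂ (t+1)`
  have nS2 : ∀ v, G₂.Adj (S₂ (t + 1)) v ↔
      v = S₂ t ∨ v = S₂ (t + 2) ∨ v = U₂ (t + 1) ∨ v = S₂' (t + 1) := by
    intro v
    have := h₂.nS (t + 1) (by omega) (by omega) v
    simpa using this
  have nS1 : ∀ v, G.Adj (S (t + 1)) v ↔
      v = S t ∨ v = S (t + 2) ∨ v = U (t + 1) ∨ v = S' (t + 1) := by
    intro v
    have := h.nS (t + 1) (by omega) (by omega) v
    simpa using this
  have nS2' : ∀ v, G₂.Adj (S₂' t) v ↔
      v = S₂' (t - 1) ∨ v = S₂' (t + 1) ∨ v = S₂ t ∨ v = S₂'' t :=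
    h₂.nS' t ht (by omega)
  have nS1' : ∀ v, G.Adj (S' t) v ↔
      v = S' (t - 1) ∨ v = S' (t + 1) ∨ v = S t ∨ v = S'' t :=
    h.nS' t ht (by omega)
  have nS2'' : ∀ v, G₂.Adj (S₂' (t + 1)) v ↔
      v = S₂' t ∨ v = S₂' (t + 2) ∨ v = S₂ (t + 1) ∨ v = S₂'' (t + 1) := by
    intro v
    have := h₂.nS' (t + 1) (by omega) (by omega) v
    simpa using this
  have nS1'' : ∀ v, G.Adj (S' (t + 1)) v ↔
      v = S' t ∨ v = S' (t + 2) ∨ v = S (t + 1) ∨ v = S'' (t + 1) := by
    intro v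
    have := h.nS' (t + 1) (by omega) (by omega) v
    simpa using this
  have nS1''' : ∀ v, G.Adj (S' (t + 2)) v ↔
      v = S' (t + 1) ∨ v = S' (t + 3) ∨ v = S (t + 2) ∨ v = S'' (t + 2) := by
    intro v
    have := h.nS' (t + 2) (by omega) (by omega) v
    simpa using this
  -- `F (S' (t+1)) = S₂' (t+1)`
  have e1 : F (S' (t + 1)) = S₂' (t + 1) := by
    have a1 : G₂.Adj (S₂ (t + 1)) (F (S' (t + 1))) := by
      rw [← h2]
      exact F.map_rel_iff.mpr ((nS1 _).mpr (Or.inr (Or.inr (Or.inr rfl))))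
    have a2 : G₂.Adj (S₂' t) (F (S' (t + 1))) := by
      rw [← h3]
      exact F.map_rel_iff.mpr ((nS1' _).mpr (Or.inr (Or.inl rfl)))
    rcases (nS2 _).mp a1 with b | b | b | b
    · exfalso
      rw [← h1] at b
      have := F.injective b
      exact (inj1 t (t + 1) (by omega) (by omega) (by omega) (by omega)).2.2.2.1 this.symm
    · exfalso
      rw [b] at a2
      rcases (nS2' _).mp a2 with c | c | c | c
      · exact (inj2 (t + 2) (t - 1) (by omega) (by omega) (by omega) (by omega)).2.2.2.1 c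
      · exact (inj2 (t + 2) (t + 1) (by omega) (by omega) (by omega) (by omega)).2.2.2.1 c
      · have := (inj2 (t + 2) t (by omega) (by omega) (by omega) (by omega)).1 c
        omega
      · exact (inj2 (t + 2) t (by omega) (by omega) (by omega) (by omega)).2.2.2.2.2.2.1 c
    · exfalso
      rw [b] at a2
      exact h₂.nU' (t + 1) t (by omega) (by omega) (by omega) (by omega) a2.symm
    · exact b
  -- the images of `S (t+2)` and `U (t+1)`
  have key : ∀ v, G.Adj (S (t + 1)) v → v ≠ S t → v ≠ S' (t + 1) →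
      F v = S₂ (t + 2) ∨ F v = U₂ (t + 1) := by
    intro v hv hv1 hv2
    have a1 : G₂.Adj (S₂ (t + 1)) (F v) := by
      rw [← h2]
      exact F.map_rel_iff.mpr hv
    rcases (nS2 _).mp a1 with b | b | b | b
    · exact absurd (F.injective (b.trans h1.symm)) hv1
    · exact Or.inl b
    · exact Or.inr b
    · exact absurd (F.injective (b.trans e1.symm)) hv2
  have k1 := key (S (t + 2)) ((nS1 _).mpr (Or.inr (Or.inl rfl)))
    (fun c => by
      have := (inj1 (t + 2) t (by omega) (by omega) (by omega) (by omega)).1 c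
      omega)
    (fun c => (inj1 (t + 2) (t + 1) (by omega) (by omega) (by omega) (by omega)).2.2.2.1 c)
  have k2 := key (U (t + 1)) ((nS1 _).mpr (Or.inr (Or.inr (Or.inl rfl))))
    (fun c => (inj1 t (t + 1) (by omega) (by omega) (by omega) (by omega)).2.2.2.2.1 c.symm)
    (fun c => (inj1 (t + 1) (t + 1) (by omega) (by omega) (by omega) (by omega)).2.2.2.2.2.1 c.symm)
  have e2 : F (S (t + 2)) = S₂ (t + 2) := by
    rcases k1 with b | b
    · exact b
    · exfalso
      have z1 : G₂.Adj (F (S' (t + 2))) (U₂ (t + 1)) := by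
        rw [← b]
        exact F.map_rel_iff.mpr ((nS1''' _).mpr (Or.inr (Or.inr (Or.inl rfl))))
      have z2 : G₂.Adj (S₂' (t + 1)) (F (S' (t + 2))) := by
        rw [← e1]
        exact F.map_rel_iff.mpr ((nS1'' _).mpr (Or.inr (Or.inl rfl)))
      rcases (nS2'' _).mp z2 with c | c | c | c
      · rw [c] at z1
        exact h₂.nU' (t + 1) t (by omega) (by omega) (by omega) (by omega) z1.symm
      · rw [c] at z1
        exact h₂.nU' (t + 1) (t + 2) (by omega) (by omega) (by omega) (by omega) z1.symm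
      · rw [← h2] at c
        exact (inj1 (t + 1) (t + 2) (by omega) (by omega) (by omega) (by omega)).2.2.2.1
          (F.injective c).symm
      · rw [c] at z1
        exact h₂.nU'' (t + 1) (t + 1) (by omega) (by omega) (by omega) (by omega) z1.symm
  refine ⟨e2, e1, ?_⟩
  rcases k2 with b | b
  · exfalso
    exact (inj1 (t + 2) (t + 1) (by omega) (by omega) (by omega) (by omega)).2.2.2.2.1
      (F.injective (e2.trans b.symm))
  · exact b

/-- Induction on `t`: `F (S t) = S₂ t`, `F (S (t+1)) = S₂ (t+1)`, `F (S' t) = S₂' t`, and then for `t + 4 ≤ T` also `F (U (t+1)) = U₂ (t+1)`.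
Step: the common neighbours of `S₂ (t+1)` and `S₂' t` are `S₂ t` and `S₂' (t+1)`, so `F (S' (t+1)) = S₂' (t+1)`. Then `F` maps `{S (t+2), U (t+1)}` to
`{S₂ (t+2), U₂ (t+1)}` (the other neighbours of `S₂ (t+1)`). If `F (S (t+2)) = U₂ (t+1)`: `z = F (S' (t+2))` is adjacent to
`U₂ (t+1)` and to `S₂' (t+1)`, and `z ≠ S₂ (t+1)`, so `z ∈ {S₂' t, S₂' (t+2), S₂'' (t+1)}`, contradiction to `nU'`, `nU''`. -/
theorem rigid {V V₂ : Type*} {G : SimpleGraph V} {G₂ : SimpleGraph V₂} {T : ℕ}
    {S S' S'' U : ℕ → V} {S₂ S₂' S₂'' U₂ : ℕ → V₂} (h : Lad G T S S' S'' U)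
    (h₂ : Lad G₂ T S₂ S₂' S₂'' U₂) (F : G ≃g G₂) (h1 : F (S 2) = S₂ 2) (h2 : F (S 3) = S₂ 3)
    (h3 : F (S' 2) = S₂' 2) : ∀ t, 3 ≤ t → t + 3 ≤ T → F (U t) = U₂ t := by
  have main : ∀ t, 2 ≤ t → t + 4 ≤ T →
      F (S t) = S₂ t ∧ F (S (t + 1)) = S₂ (t + 1) ∧ F (S' t) = S₂' t := by
    intro t ht
    induction t, ht using Nat.le_induction with
    | base => intro _; exact ⟨h1, h2, h3⟩
    | succ n hn ih =>
      intro hT
      obtain ⟨a, b, c⟩ := ih (by omega)
      obtain ⟨d, e, -⟩ := rigid_step h h₂ F hn (by omega) a b c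
      exact ⟨b, d, e⟩
  intro t ht htT
  obtain ⟨s, rfl⟩ : ∃ s, t = s + 1 := ⟨t - 1, by omega⟩
  obtain ⟨a, b, c⟩ := main s (by omega) (by omega)
  exact (rigid_step h h₂ F (by omega) (by omega) a b c).2.2

end Pool.Agent.Lib.MP_72b45c_co.Q
end

section

/-! # MP_72b45c_co, block C (counting), job C1b: abstract counting -/

namespace Pool.Agent.Lib.MP_72b45c_co.Q

open SimpleGraph Equiv Equiv.Perm

/-- every fibre of `q` has at most `B` elements -/
theorem count_classes {W Q : Type*} [Fintype W] (q : W → Q) (B : ℕ)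
    (h : ∀ w0, Nat.card {w // q w = q w0} ≤ B) : Fintype.card W ≤ B * (Set.range q).ncard := by
  classical
  have h1 := Finset.card_le_mul_card_image (f := q) (Finset.univ : Finset W) B (by
    intro a ha
    obtain ⟨w0, _, rfl⟩ := Finset.mem_image.mp ha
    have h2 := h w0
    rw [Nat.card_eq_fintype_card, Fintype.card_subtype] at h2
    exact h2)
  have h3 : (Set.range q).ncard = (Finset.univ.image q).card := by
    rw [← Set.ncard_coe_finset, Finset.coe_image, Finset.coe_univ, Set.image_univ]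
  rw [h3]
  exact h1

/-- Number of bit patterns with isomorphic graphs. For every `w` with an isomorphism `F : G w ≃g G w0` take the vertices
`F (S 2)`, `F (S 3)`, `F (S' 2)` of all `m` corridors. If they agree for `w` and `w'`, apply `rigid` to `F'⁻¹ ∘ F : G w ≃g G w'`:
it maps `U t` to `U' t` for `3 ≤ t`, `t + 3 ≤ T`, so all bits agree. -/
theorem fiber_le {m T : ℕ} (V : (Fin m → Fin (T - 6) → Bool) → Type) [∀ w, Finite (V w)]
    (G : ∀ w, SimpleGraph (V w)) (B : ℕ)
    (hG : ∀ w (i : Fin m), ∃ S S' S'' U : ℕ → V w, Lad (G w) T S S' S'' U ∧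
      ∀ s : Fin (T - 6), (G w).Adj (U (s.val + 3)) (U (s.val + 4)) ↔ w i s = true)
    (w0 : Fin m → Fin (T - 6) → Bool) (hB : Nat.card (V w0) ≤ B) :
    Nat.card {w // Nonempty (G w ≃g G w0)} ≤ B ^ (3 * m) := by
  classical
  choose S S' S'' U hL hb using hG
  let F : ∀ w : {w // Nonempty (G w ≃g G w0)}, G w.1 ≃g G w0 := fun w => w.2.some
  let Φ : {w // Nonempty (G w ≃g G w0)} → (Fin m × Fin 3 → V w0) := fun w p =>
    if p.2 = 0 then F w (S w.1 p.1 2) else if p.2 = 1 then F w (S w.1 p.1 3)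
      else F w (S' w.1 p.1 2)
  have hinj : Function.Injective Φ := by
    intro w w' hw
    have e1 : ∀ i, F w (S w.1 i 2) = F w' (S w'.1 i 2) := fun i => by
      have := congrFun hw (i, 0)
      simpa [Φ] using this
    have e2 : ∀ i, F w (S w.1 i 3) = F w' (S w'.1 i 3) := fun i => by
      have := congrFun hw (i, 1)
      simpa [Φ] using this
    have e3 : ∀ i, F w (S' w.1 i 2) = F w' (S' w'.1 i 2) := fun i => by
      have := congrFun hw (i, 2)
      simpa [Φ] using this
    let H : G w.1 ≃g G w'.1 := (F w).trans (F w').symm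
    have hH : ∀ (v : V w.1) (v' : V w'.1), F w v = F w' v' → H v = v' := by
      intro v v' h
      change (F w').symm (F w v) = v'
      rw [h]
      exact (F w').symm_apply_apply v'
    have hU : ∀ i t, 3 ≤ t → t + 3 ≤ T → H (U w.1 i t) = U w'.1 i t := fun i =>
      rigid (hL w.1 i) (hL w'.1 i) H (hH _ _ (e1 i)) (hH _ _ (e2 i)) (hH _ _ (e3 i))
    apply Subtype.ext
    funext i s
    have hs := s.2
    have h1 := hb w.1 i s
    have h2 := hb w'.1 i s
    rw [← hU i (s.val + 3) (by omega) (by omega), ← hU i (s.val + 4) (by omega) (by omega),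
      H.map_adj_iff] at h2
    have h3 : w.1 i s = true ↔ w'.1 i s = true := h1.symm.trans h2
    exact Bool.eq_iff_iff.mpr h3
  have h1 := Nat.card_le_card_of_injective Φ hinj
  refine h1.trans ?_
  rw [Nat.card_fun, Nat.card_prod, Nat.card_eq_fintype_card (α := Fin m), Nat.card_eq_fintype_card (α := Fin 3),
    Fintype.card_fin, Fintype.card_fin, mul_comm m 3]
  exact Nat.pow_le_pow_left hB _

end Pool.Agent.Lib.MP_72b45c_co.Q
end

section

/-! # MP_72b45c_co, block C (counting), job C1: rigidity of the ladder, abstract counting (parts) -/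
end

section

/-! # MP_72b45c_co, block C (counting), job C3e: corridors -/

namespace Pool.Agent.Lib.MP_72b45c_co.Q

open SimpleGraph Equiv Equiv.Perm

/-- The corridor at `p = 18 j`. -/
theorem corr_mword {n T p : ℕ} (bit : ℕ → ℕ → Bool) (R : List ℕ) (hp : p % 18 = 0)
    (h1 : 4 * T + 7 ≤ p) (h2 : p + 4 * T ≤ n + 1) :
    Corr (mword n bit (2 * T) ++ R) (fun τ => (mword n bit τ).length) T p
      (fun t => bit p (2 * t + 1)) := by
  have key : ∀ τ < 2 * T, ∀ v, cnu (mword n bit (2 * T) ++ R) v (mword n bit τ).length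
      (mword n bit (τ + 1)).length = (mstep n τ bit).count v := fun τ hτ v =>
    cnu_mword bit R hτ v
  refine ⟨?_, ?_, ?_, ?_, ?_, ?_, ?_⟩
  · intro τ _
    show (mword n bit τ).length ≤ (mword n bit τ ++ mstep n τ bit).length
    rw [List.length_append]
    omega
  · rw [List.length_append]
    omega
  · intro t ht v hv
    have h3 := (count_mstep (n := n) (τ := 2 * t) bit (v := v) (by omega) (by omega)).1 (by omega)
    rw [if_pos (by omega)] at h3
    exact (key (2 * t) (by omega) v).trans h3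
  · intro t ht v hv
    have hc := count_mstep (n := n) (τ := 2 * t) bit (v := v) (by omega) (by omega)
    have h3 : (mstep n (2 * t) bit).count v = 0 := by
      by_cases h8 : v % 9 = 8
      · have h4 := hc.2.2 h8
        rw [if_pos (by omega)] at h4
        exact h4
      · have h4 := hc.2.1 (by omega)
        rw [if_pos (by omega)] at h4
        exact h4
    exact (key (2 * t) (by omega) v).trans h3
  · intro t ht v hv
    have h3 := (count_mstep (n := n) (τ := 2 * t + 1) bit (v := v) (by omega) (by omega)).2.1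
      (by omega)
    rw [if_neg (by omega)] at h3
    exact (key (2 * t + 1) (by omega) v).trans h3
  · intro t ht v hv
    have h3 := (count_mstep (n := n) (τ := 2 * t + 1) bit (v := v) (by omega) (by omega)).1
      (by omega)
    rw [if_neg (by omega)] at h3
    exact (key (2 * t + 1) (by omega) v).trans h3
  · intro t ht
    have h3 := (count_mstep (n := n) (τ := 2 * t + 1) bit (v := p - 1) (by omega) (by omega)).2.2
      (by omega)
    rw [if_neg (by omega)] at h3
    have h4 : p - 1 + 1 = p := by omega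
    rw [h4] at h3
    exact (key (2 * t + 1) (by omega) (p - 1)).trans h3

end Pool.Agent.Lib.MP_72b45c_co.Q
end

section

/-! # MP_72b45c_co, block C (counting), job C2c: bits -/

namespace Pool.Agent.Lib.MP_72b45c_co.Q

open SimpleGraph Equiv Equiv.Perm

variable {n : ℕ} {u : List ℕ} {L : ℕ → ℕ} {T : ℕ}

/-- The bits. If there is one letter `k` in the step `2 t + 1`, its pair is `cell k (L (2t))`, `cell k (L (2t+2))`. If there are two,
the cell after the first one is in between, and the two cells have no common letter (`gap_cell`: a common letter would be a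
letter `k` which is `s'` for `t` and `s` for `t + 1`; letters `k ± 1` have corners in the gaps `k` and `k ± 2`). -/
theorem gap_bit (hu : Red n u) (hn : Even n) {k : ℕ} (hk : k % 2 = 1) (h1 : 1 ≤ k) (h2 : k < n)
    (hG : Gap u L T k) {t : ℕ} (ht : 1 ≤ t) (ht' : t + 2 ≤ T) (b : Bool)
    (hb : cnu u k (L (2 * t + 1)) (L (2 * t + 2)) = if b then 1 else 2) :
    (BG n u 1).Adj (cell n u k (L (2 * t))) (cell n u k (L (2 * (t + 1)))) ↔ b = true := by
  have hf := hu.full
  obtain ⟨a, a', ha1, ha2, ha3, ha4, hua, hua', hno, -, hc⟩ :=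
    gap_cell hf h1 h2 hG (t := t) ht (by omega)
  obtain ⟨d, d', hd1, hd2, hd3, hd4, hud, hud', hno', -, hc'⟩ :=
    gap_cell hf h1 h2 hG (t := t + 1) (by omega) (by omega)
  have e1 : 2 * (t + 1) - 1 = 2 * t + 1 := by omega
  have e2 : 2 * (t + 1) = 2 * t + 2 := by ring
  have e3 : 2 * (t + 1) + 1 = 2 * t + 3 := by ring
  have e4 : 2 * (t + 1) + 2 = 2 * t + 4 := by ring
  rw [e1] at hd1
  rw [e3] at hd3
  rw [e4] at hd4
  rw [e2] at hd2 hc' ⊢
  have m0 := hG.mono (2 * t) (by omega)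
  have m2 := hG.mono (2 * t + 2) (by omega)
  have m2' : L (2 * t + 2) ≤ L (2 * t + 3) := m2
  have ha'l : a' < u.length := by
    by_contra hcon
    rw [List.getElem?_eq_none (not_lt.mp hcon)] at hua'
    exact absurd hua' (by simp)
  have hd'l : d' < u.length := by
    by_contra hcon
    rw [List.getElem?_eq_none (not_lt.mp hcon)] at hud'
    exact absurd hud' (by simp)
  obtain ⟨c, hcd⟩ : ∃ c, c = cell n u k (L (2 * t)) := ⟨_, rfl⟩
  obtain ⟨c', hcd'⟩ : ∃ c', c' = cell n u k (L (2 * t + 2)) := ⟨_, rfl⟩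
  rw [← hcd] at hc ⊢
  rw [← hcd'] at hc' ⊢
  have hkn : k ≤ n := h2.le
  cases b with
  | true =>
    refine ⟨fun _ => rfl, fun _ => ?_⟩
    rw [if_pos rfl] at hb
    have had : a' = d := by
      unfold cnu at hb
      obtain ⟨z, hz⟩ := Finset.card_eq_one.1 hb
      have h3 : a' ∈ (Finset.Ico (L (2 * t + 1)) (L (2 * t + 2))).filter
          (fun x => u[x]? = some k) := by
        rw [Finset.mem_filter, Finset.mem_Ico]
        exact ⟨⟨ha3, ha4⟩, hua'⟩
      have h4 : d ∈ (Finset.Ico (L (2 * t + 1)) (L (2 * t + 2))).filter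
          (fun x => u[x]? = some k) := by
        rw [Finset.mem_filter, Finset.mem_Ico]
        exact ⟨⟨hd1, hd2⟩, hud⟩
      rw [hz, Finset.mem_singleton] at h3 h4
      rw [h3, h4]
    subst had
    refine ⟨?_, ⟨a', ha'l⟩, ?_⟩
    · intro hcc
      have h3 := (hc' k (L (2 * t)) hkn (by
        have h4 := hG.top
        omega)).1 (by rw [← hcd, hcc])
      omega
    · have hlet : u[a'] = k := by
        rw [List.getElem?_eq_getElem ha'l] at hua'
        exact Option.some.inj hua'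
      have h3 : cell n u k a' = c := (hc k a' hkn ha'l.le).2 ⟨rfl, by omega, le_rfl⟩
      have h4 : cell n u k (a' + 1) = c' := (hc' k (a' + 1) hkn (by omega)).2
        ⟨rfl, by omega, by omega⟩
      unfold pr
      have h5 : (u[(⟨a', ha'l⟩ : Fin u.length)] + 1) % 2 = 0 := by
        show (u[a'] + 1) % 2 = 0
        rw [hlet]
        omega
      rw [if_pos h5]
      show s(cell n u u[a'] a', cell n u u[a'] (a' + 1)) = s(c, c')
      rw [hlet, h3, h4]
  | false =>
    refine ⟨fun hadj => ?_, fun h => absurd h (by simp)⟩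
    exfalso
    have hb2 : cnu u k (L (2 * t + 1)) (L (2 * t + 2)) = 2 := hb
    have had : a' < d := by
      unfold cnu at hb2
      have h3 : 1 < ((Finset.Ico (L (2 * t + 1)) (L (2 * t + 2))).filter
          (fun x => u[x]? = some k)).card := by omega
      obtain ⟨p, hp, q, hq, hpq⟩ := Finset.one_lt_card.1 h3
      rw [Finset.mem_filter, Finset.mem_Ico] at hp hq
      have g1 : ∀ p, (L (2 * t + 1) ≤ p ∧ p < L (2 * t + 2)) ∧ u[p]? = some k →
          a' ≤ p ∧ p ≤ d := by
        intro p hp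
        constructor
        · by_contra hcon
          exact hno p (by omega) (by omega) hp.2
        · by_contra hcon
          exact hno' p (by omega) (by omega) hp.2
      have g2 := g1 p hp
      have g3 := g1 q hq
      omega
    obtain ⟨-, x, hx⟩ := hadj
    have hxl : u[x] < n ∧ 1 ≤ u[x] := by
      have h3 := hf.1 u[x] (List.getElem_mem _)
      exact ⟨h3.2, h3.1⟩
    have hx1 : (x : ℕ) < u.length := x.2
    unfold pr at hx
    split_ifs at hx with h3
    · rcases Sym2.eq_iff.1 hx with ⟨g1, g2⟩ | ⟨g1, g2⟩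
      · have g3 := (hc _ _ (by omega) (by omega)).1 g1
        have g4 := (hc' _ _ (by omega) (by omega)).1 g2
        omega
      · have g3 := (hc' _ _ (by omega) (by omega)).1 g1
        have g4 := (hc _ _ (by omega) (by omega)).1 g2
        omega
    · rcases Sym2.eq_iff.1 hx with ⟨g1, g2⟩ | ⟨g1, g2⟩
      · have g3 := (hc _ _ (by omega) (by omega)).1 g1
        have g4 := (hc' _ _ (by omega) (by omega)).1 g2
        omega
      · have g3 := (hc' _ _ (by omega) (by omega)).1 g1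
        have g4 := (hc _ _ (by omega) (by omega)).1 g2
        omega

end Pool.Agent.Lib.MP_72b45c_co.Q
end

section

/-! # MP_72b45c_co, block C (counting), job C3: the macro words (parts) -/
end

section

/-! # MP_72b45c_co, block C (counting), job C2d: the ladder -/

namespace Pool.Agent.Lib.MP_72b45c_co.Q

open SimpleGraph Equiv Equiv.Perm

variable {n : ℕ} {u : List ℕ} {L : ℕ → ℕ} {T : ℕ}

private theorem C2d_mono {p : ℕ} {b : ℕ → Bool} (h : Corr u L T p b) {t : ℕ} (ht : t ≤ T) :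
    L (2 * t) ≤ u.length := by
  have key : ∀ d a, a + d = 2 * T → L a ≤ L (2 * T) := by
    intro d
    induction d with
    | zero =>
      intro a ha
      rw [← ha, add_zero]
    | succ d ih =>
      intro a ha
      exact (h.mono a (by omega)).trans (ih (a + 1) (by omega))
  exact (key (2 * T - 2 * t) (2 * t) (by omega)).trans h.top

private theorem C2d_gap {p : ℕ} {b : ℕ → Bool} (h : Corr u L T p b) {k : ℕ}
    (hk : k + 1 = p ∨ k + 3 = p ∨ k + 5 = p ∨ k + 7 = p) : Gap u L T k := by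
  refine ⟨h.mono, h.top, fun t ht => h.even0 t ht k hk, fun t ht => ?_⟩
  rcases hk with hk | hk
  · have h1 := h.bit t ht
    have h2 : p - 1 = k := by omega
    rw [h2] at h1
    rw [h1]
    split_ifs <;> norm_num
  · rw [h.odd1 t ht k hk]

/-- The ladder of a corridor: `S t`, `S' t`, `S'' t`, `U t` = cells of the gaps `p - 3`, `p - 5`, `p - 7`, `p - 1` at the time `L (2 t)`. -/
theorem lad_of_corr (hn : Even n) (hu : Red n u) {p : ℕ} (hp : 9 ≤ p) (hp' : p + 2 ≤ n)
    (hpe : Even p) {b : ℕ → Bool} (h : Corr u L T p b) :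
    ∃ S S' S'' U : ℕ → {c : Fin (u.length + 1) // col u c = 1}, Lad (BB n u) T S S' S'' U ∧
      ∀ t, 1 ≤ t → t + 2 ≤ T → ((BB n u).Adj (U t) (U (t + 1)) ↔ b t = true) := by
  have hf := hu.full
  have hp2 : p % 2 = 0 := Nat.even_iff.1 hpe
  have hcol : ∀ k, k ≤ n → k % 2 = 1 → ∀ t : ℕ,
      col u (cell n u k (min (L (2 * t)) u.length)) = 1 := by
    intro k hk hk2 t
    rw [col_cell hn hf hk (min_le_right _ _), hk2]
  set c : (k : ℕ) → k ≤ n → k % 2 = 1 → ℕ → {c : Fin (u.length + 1) // col u c = 1} :=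
    fun k hk hk2 t => ⟨cell n u k (min (L (2 * t)) u.length), hcol k hk hk2 t⟩ with hc
  have hcv : ∀ k (hk : k ≤ n) (hk2 : k % 2 = 1) (t : ℕ), t ≤ T →
      (c k hk hk2 t).1 = cell n u k (L (2 * t)) := by
    intro k hk hk2 t ht
    show cell n u k (min (L (2 * t)) u.length) = cell n u k (L (2 * t))
    rw [min_eq_left (C2d_mono h ht)]
  have g1 := C2d_gap h (k := p - 1) (by omega)
  have g3 := C2d_gap h (k := p - 3) (by omega)
  have g5 := C2d_gap h (k := p - 5) (by omega)
  have g7 := C2d_gap h (k := p - 7) (by omega)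
  have hadj : ∀ x y : {c : Fin (u.length + 1) // col u c = 1},
      (BB n u).Adj x y ↔ (BG n u 1).Adj x.1 y.1 := fun x y => Iff.rfl
  have hn1 : p - 1 ≤ n := by omega
  have hn3 : p - 3 ≤ n := by omega
  have hn5 : p - 5 ≤ n := by omega
  have hn7 : p - 7 ≤ n := by omega
  have ho1 : (p - 1) % 2 = 1 := by omega
  have ho3 : (p - 3) % 2 = 1 := by omega
  have ho5 : (p - 5) % 2 = 1 := by omega
  have ho7 : (p - 7) % 2 = 1 := by omega
  have hne : ∀ (k k' : ℕ) (hk : k ≤ n) (hk2 : k % 2 = 1) (hk' : k' ≤ n) (hk2' : k' % 2 = 1),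
      1 ≤ k → k < n → 1 ≤ k' → k' < n → Gap u L T k → Gap u L T k' → ∀ t t', 1 ≤ t → t + 1 ≤ T →
      1 ≤ t' → t' + 1 ≤ T → c k hk hk2 t = c k' hk' hk2' t' → k = k' ∧ t = t' := by
    intro k k' hk hk2 hk' hk2' a1 a2 a3 a4 hG hG' t t' ht ht1 ht' ht1' heq
    have h1 := congrArg Subtype.val heq
    rw [hcv k hk hk2 t (by omega), hcv k' hk' hk2' t' (by omega)] at h1
    exact gap_inj hf a1 a2 a3 a4 hG hG' ht ht1 ht' ht1' h1
  have hnadj : ∀ (k k' : ℕ) (hk : k ≤ n) (hk2 : k % 2 = 1) (hk' : k' ≤ n) (hk2' : k' % 2 = 1),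
      1 ≤ k → k < n → 1 ≤ k' → k' < n → (k + 2 < k' ∨ k' + 2 < k) → Gap u L T k → Gap u L T k' →
      ∀ t t', 1 ≤ t → t + 1 ≤ T → 1 ≤ t' → t' + 1 ≤ T →
      ¬ (BB n u).Adj (c k hk hk2 t) (c k' hk' hk2' t') := by
    intro k k' hk hk2 hk' hk2' a1 a2 a3 a4 hkk hG hG' t t' ht ht1 ht' ht1'
    rw [hadj, hcv k hk hk2 t (by omega), hcv k' hk' hk2' t' (by omega)]
    exact gap_not_adj hu a1 a2 a3 a4 hkk hG hG' ht ht1 ht' ht1'
  have hladder : ∀ (k k1 k2 : ℕ) (hk : k ≤ n) (hk2 : k % 2 = 1) (hk1 : k1 ≤ n)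
      (hk12 : k1 % 2 = 1) (hkk : k2 ≤ n) (hk22 : k2 % 2 = 1), k + 2 = k1 → k2 + 2 = k →
      (k + 3 = p ∨ k + 5 = p) → ∀ t, 1 ≤ t → t + 1 ≤ T → ∀ v,
      (BB n u).Adj (c k hk hk2 t) v ↔
        v = c k hk hk2 (t - 1) ∨ v = c k hk hk2 (t + 1) ∨ v = c k1 hk1 hk12 t ∨
          v = c k2 hkk hk22 t := by
    intro k k1 k2 hk hk2 hk1 hk12 hkk hk22 e1 e2 e3 t ht ht' v
    have hG := C2d_gap h (k := k) (by omega)
    have h1 := gap_adj hu hn hk2 (by omega) (by omega) hG
      (fun t ht => h.odd1 t ht k (by omega))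
      (fun t ht => ⟨h.even1 t ht (k - 1) (by omega), h.even1 t ht (k + 1) (by omega),
        h.even0 t ht (k - 2) (by omega), h.even0 t ht (k + 2) (by omega)⟩)
      (fun t ht => ⟨h.odd0 t ht (k - 1) (by omega), h.odd0 t ht (k + 1) (by omega)⟩)
      ht ht' v.1
    have e4 : k + 2 = k1 := e1
    have e5 : k - 2 = k2 := by omega
    rw [e4, e5] at h1
    rw [hadj, hcv k hk hk2 t (by omega), h1, Subtype.ext_iff, Subtype.ext_iff, Subtype.ext_iff,
      Subtype.ext_iff, hcv k hk hk2 (t - 1) (by omega), hcv k hk hk2 (t + 1) (by omega),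
      hcv k1 hk1 hk12 t (by omega), hcv k2 hkk hk22 t (by omega)]
  refine ⟨c (p - 3) hn3 ho3, c (p - 5) hn5 ho5, c (p - 7) hn7 ho7, c (p - 1) hn1 ho1,
    ⟨?_, ?_, ?_, ?_, ?_⟩, ?_⟩
  · intro t ht ht' v
    exact hladder (p - 3) (p - 1) (p - 5) hn3 ho3 hn1 ho1 hn5 ho5 (by omega) (by omega)
      (by omega) t (by omega) (by omega) v
  · intro t ht ht' v
    exact hladder (p - 5) (p - 3) (p - 7) hn5 ho5 hn3 ho3 hn7 ho7 (by omega) (by omega)
      (by omega) t (by omega) (by omega) v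
  · intro t t' ht ht1 ht' ht1'
    exact hnadj (p - 1) (p - 5) hn1 ho1 hn5 ho5 (by omega) (by omega) (by omega) (by omega)
      (by omega) g1 g5 t t' ht ht1 ht' ht1'
  · intro t t' ht ht1 ht' ht1'
    exact hnadj (p - 1) (p - 7) hn1 ho1 hn7 ho7 (by omega) (by omega) (by omega) (by omega)
      (by omega) g1 g7 t t' ht ht1 ht' ht1'
  · intro t t' ht ht1 ht' ht1'
    refine ⟨fun e => ?_, fun e => ?_, fun e => ?_, fun e => ?_, fun e => ?_, fun e => ?_,
      fun e => ?_, fun e => ?_, fun e => ?_⟩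
    · exact (hne _ _ hn3 ho3 hn3 ho3 (by omega) (by omega) (by omega) (by omega) g3 g3 t t' ht ht1
        ht' ht1' e).2
    · exact (hne _ _ hn5 ho5 hn5 ho5 (by omega) (by omega) (by omega) (by omega) g5 g5 t t' ht ht1
        ht' ht1' e).2
    · exact (hne _ _ hn1 ho1 hn1 ho1 (by omega) (by omega) (by omega) (by omega) g1 g1 t t' ht ht1
        ht' ht1' e).2
    · have := (hne _ _ hn3 ho3 hn5 ho5 (by omega) (by omega) (by omega) (by omega) g3 g5 t t' ht
        ht1 ht' ht1' e).1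
      omega
    · have := (hne _ _ hn3 ho3 hn1 ho1 (by omega) (by omega) (by omega) (by omega) g3 g1 t t' ht
        ht1 ht' ht1' e).1
      omega
    · have := (hne _ _ hn5 ho5 hn1 ho1 (by omega) (by omega) (by omega) (by omega) g5 g1 t t' ht
        ht1 ht' ht1' e).1
      omega
    · have := (hne _ _ hn3 ho3 hn7 ho7 (by omega) (by omega) (by omega) (by omega) g3 g7 t t' ht
        ht1 ht' ht1' e).1
      omega
    · have := (hne _ _ hn5 ho5 hn7 ho7 (by omega) (by omega) (by omega) (by omega) g5 g7 t t' ht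
        ht1 ht' ht1' e).1
      omega
    · have := (hne _ _ hn1 ho1 hn7 ho7 (by omega) (by omega) (by omega) (by omega) g1 g7 t t' ht
        ht1 ht' ht1' e).1
      omega
  · intro t ht ht'
    rw [hadj, hcv (p - 1) hn1 ho1 t (by omega), hcv (p - 1) hn1 ho1 (t + 1) (by omega)]
    exact gap_bit hu hn ho1 (by omega) (by omega) g1 ht ht' (b t) (h.bit t (by omega))

end Pool.Agent.Lib.MP_72b45c_co.Q
end

section

/-! # MP_72b45c_co, block C (counting), job C2: the cells of a corridor form a ladder (parts) -/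
end

section

/-! # MP_72b45c_co, block C (counting), job C4a: the family -/

namespace Pool.Agent.Lib.MP_72b45c_co.Q

open SimpleGraph Equiv Equiv.Perm

open Classical in
/-- the bits at the corridors `p = 18 (h / 18 + 2 + i)`, `i < m`, and the steps `2 (s + 3) + 1`, `s < T - 6` -/
noncomputable def bitOf (h m T : ℕ) (w : Fin m → Fin (T - 6) → Bool) (p τ : ℕ) : Bool :=
  if hx : ∃ (i : Fin m) (s : Fin (T - 6)), p = 18 * (h / 18 + 2 + i.val) ∧ τ = 2 * (s.val + 3) + 1
  then w hx.choose hx.choose_spec.choose else false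

theorem bitOf_eq (h m T : ℕ) (w : Fin m → Fin (T - 6) → Bool) (i : Fin m) (s : Fin (T - 6)) :
    bitOf h m T w (18 * (h / 18 + 2 + i.val)) (2 * (s.val + 3) + 1) = w i s := by
  have hx : ∃ (i' : Fin m) (s' : Fin (T - 6)),
      18 * (h / 18 + 2 + i.val) = 18 * (h / 18 + 2 + i'.val) ∧
        2 * (s.val + 3) + 1 = 2 * (s'.val + 3) + 1 := ⟨i, s, rfl, rfl⟩
  unfold bitOf
  rw [dif_pos hx]
  have h1 := hx.choose_spec.choose_spec
  have e1 : hx.choose = i := Fin.ext (by omega)
  have e2 : hx.choose_spec.choose = s := Fin.ext (by omega)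
  rw [e2, e1]

/-- The family: `n = 4 h`, `T = h / 4`, `m` corridors. `exists_rest`, `corr_mword`, `lad_of_corr`. -/
theorem family (h m : ℕ) (hm : 18 * m + 17 ≤ 2 * h) :
    ∃ uw : (Fin m → Fin (h / 4 - 6) → Bool) → List ℕ, (∀ w, Red (4 * h) (uw w)) ∧
      ∀ w (i : Fin m), ∃ S S' S'' U : ℕ → {c : Fin ((uw w).length + 1) // col (uw w) c = 1},
        Lad (BB (4 * h) (uw w)) (h / 4) S S' S'' U ∧
        ∀ s : Fin (h / 4 - 6), (BB (4 * h) (uw w)).Adj (U (s.val + 3)) (U (s.val + 4)) ↔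
          w i s = true := by
  obtain ⟨R, hR⟩ := exists_rest (4 * h) (2 * (h / 4))
  refine ⟨fun w => mword (4 * h) (bitOf h m (h / 4) w) (2 * (h / 4)) ++ R, fun w => hR _,
    fun w i => ?_⟩
  have hi := i.isLt
  have hc := corr_mword (n := 4 * h) (T := h / 4) (p := 18 * (h / 18 + 2 + i.val))
    (bitOf h m (h / 4) w) R (by omega) (by omega) (by omega)
  obtain ⟨S, S', S'', U, hL, hU⟩ := lad_of_corr (n := 4 * h) ⟨2 * h, by ring⟩ (hR _)
    (by omega) (by omega) ⟨9 * (h / 18 + 2 + i.val), by ring⟩ hc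
  refine ⟨S, S', S'', U, hL, fun s => ?_⟩
  have hs := s.isLt
  have h1 := hU (s.val + 3) (by omega) (by omega)
  simp only [bitOf_eq] at h1
  exact h1

end Pool.Agent.Lib.MP_72b45c_co.Q
end

section

/-! # MP_72b45c_co, block C (counting), job C4b: number of classes -/

namespace Pool.Agent.Lib.MP_72b45c_co.Q

open SimpleGraph Equiv Equiv.Perm

/-- `count_classes` for `w ↦ ⟦FG (4 h) (uw w)⟧`, `fiber_le` with `G w = BB (4 h) (uw w)`, `B = 8 h ^ 2` (at most `N + 1 = 8 h² - 2 h + 1` black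
cells, `Red.length`). -/
theorem many_classes (h m : ℕ) (hm : 18 * m + 17 ≤ 2 * h) :
    ∃ uw : (Fin m → Fin (h / 4 - 6) → Bool) → List ℕ, (∀ w, Red (4 * h) (uw w)) ∧
      2 ^ (m * (h / 4 - 6)) ≤ (8 * h ^ 2) ^ (3 * m) *
        (Set.range (fun w => Quotient.mk isoSetoid
          (⟨_, FG (4 * h) (uw w)⟩ : Σ n : ℕ, SimpleGraph (Fin n)))).ncard := by
  classical
  obtain ⟨uw, hred, hfam⟩ := family h m hm
  refine ⟨uw, hred, ?_⟩
  have hcardle : ∀ w, Nat.card {c : Fin ((uw w).length + 1) // col (uw w) c = 1} ≤ 8 * h ^ 2 := by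
    intro w
    have h1 : Nat.card {c : Fin ((uw w).length + 1) // col (uw w) c = 1} ≤ (uw w).length + 1 := by
      have h2 := Nat.card_le_card_of_injective
        (Subtype.val : {c : Fin ((uw w).length + 1) // col (uw w) c = 1} → Fin ((uw w).length + 1))
        Subtype.val_injective
      rwa [Nat.card_eq_fintype_card (α := Fin ((uw w).length + 1)), Fintype.card_fin] at h2
    have h3 := (hred w).length
    have hpos : 9 ≤ h := by omega
    have h4 : 4 * h * (4 * h - 1) = 2 * (8 * h ^ 2 - 2 * h) := by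
      zify [show 1 ≤ 4 * h by omega, show 2 * h ≤ 8 * h ^ 2 by nlinarith]
      ring
    have h5 : 2 * h ≤ 8 * h ^ 2 := by nlinarith
    omega
  have hcount := count_classes (W := Fin m → Fin (h / 4 - 6) → Bool)
    (fun w => Quotient.mk isoSetoid (⟨_, FG (4 * h) (uw w)⟩ : Σ n : ℕ, SimpleGraph (Fin n)))
    ((8 * h ^ 2) ^ (3 * m)) (by
      intro w0
      have hf := fiber_le (m := m) (T := h / 4)
        (fun w => {c : Fin ((uw w).length + 1) // col (uw w) c = 1})
        (fun w => BB (4 * h) (uw w)) (8 * h ^ 2) hfam w0 (hcardle w0)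
      refine le_trans (Nat.card_le_card_of_injective
        (fun w : {w // Quotient.mk isoSetoid (⟨_, FG (4 * h) (uw w)⟩ : Σ n : ℕ, SimpleGraph (Fin n))
            = Quotient.mk isoSetoid (⟨_, FG (4 * h) (uw w0)⟩ : Σ n : ℕ, SimpleGraph (Fin n))} =>
          (⟨w.1, by
            obtain ⟨e⟩ := Quotient.exact w.2
            exact ⟨((FGiso (4 * h) (uw w.1)).symm.trans e).trans (FGiso (4 * h) (uw w0))⟩⟩ :
            {w // Nonempty (BB (4 * h) (uw w) ≃g BB (4 * h) (uw w0))})) ?_) hf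
      intro w w' hww
      have h6 := congrArg (fun x : {w // Nonempty (BB (4 * h) (uw w) ≃g BB (4 * h) (uw w0))} => x.1) hww
      exact Subtype.ext h6)
  have hW : Fintype.card (Fin m → Fin (h / 4 - 6) → Bool) = 2 ^ (m * (h / 4 - 6)) := by
    rw [Fintype.card_fun, Fintype.card_fun, Fintype.card_bool, Fintype.card_fin, Fintype.card_fin, ← pow_mul,
      mul_comm (h / 4 - 6) m]
  rw [hW] at hcount
  exact hcount

end Pool.Agent.Lib.MP_72b45c_co.Q
end

section

/-! # MP_72b45c_co, block C (counting), job C4: the family of words and the number of isomorphism classes (parts) -/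
end

section

/-! # MP_72b45c_co, block F (final), job F1a: lower bound, natural numbers -/

namespace Pool.Agent.Lib.MP_72b45c_co.Q

open SimpleGraph Equiv Equiv.Perm

/-- `exists_completion` for `π = 1` -/
theorem exists_red (n : ℕ) : ∃ u, Red n u := by
  obtain ⟨R, h1, h2⟩ := exists_completion (n := n) 1 (fun i _ => rfl)
  exact ⟨R, h1, h2⟩

/-- From `many_classes`; the classes are in `ObsUpTo (h - 1) (8 h ^ 2)` by `hobs` (block A), a finite set
(`obsUpTo_finite`). -/
theorem lower_nat (hobs : ∀ h, 2 ≤ h → ∀ u, Red (4 * h) u →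
      Quotient.mk isoSetoid (⟨_, FG (4 * h) u⟩ : Σ n : ℕ, SimpleGraph (Fin n)) ∈
        ObsUpTo (h - 1) (8 * h ^ 2))
    (h m : ℕ) (hh : 2 ≤ h) (hm : 18 * m + 17 ≤ 2 * h) :
    2 ^ (m * (h / 4 - 6)) ≤ (8 * h ^ 2) ^ (3 * m) * (ObsUpTo (h - 1) (8 * h ^ 2)).ncard := by
  obtain ⟨uw, h1, h2⟩ := many_classes h m hm
  refine h2.trans (Nat.mul_le_mul_left _ (Set.ncard_le_ncard ?_ (obsUpTo_finite _ _)))
  rintro q ⟨w, rfl⟩
  exact hobs h hh (uw w) (h1 w)

end Pool.Agent.Lib.MP_72b45c_co.Q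
end

section

/-! # MP_72b45c_co, block F (final), job F1b: lower bound, real numbers -/

namespace Pool.Agent.Lib.MP_72b45c_co.Q

open SimpleGraph Equiv Equiv.Perm

private theorem lower_core (L h m q l : ℝ) (hL : 0 < L) (hh : 1500 ≤ h)
    (hm1 : 18 * m + 17 ≤ 2 * h) (hm2 : 2 * h ≤ 18 * m + 34) (hq : h ≤ 4 * q + 27)
    (hl : l ≤ L / 240 * h) (hl0 : 0 ≤ l) :
    (h - 1) ^ 2 / 40 * L ≤ m * q * L - 3 * m * l := by
  have hm0 : 0 ≤ m := by linarith
  have hmh : m ≤ h / 9 := by linarith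
  have e1 : 3 * m * l ≤ 3 * (h / 9) * (L / 240 * h) := by
    have : m * l ≤ (h / 9) * (L / 240 * h) := mul_le_mul hmh hl hl0 (by linarith)
    linarith
  have e2 : (h - 17) / 9 * ((h - 27) / 4) ≤ m * q := by
    apply mul_le_mul <;> linarith
  have e3 : (h - 17) / 9 * ((h - 27) / 4) * L ≤ m * q * L := mul_le_mul_of_nonneg_right e2 hL.le
  have e4 : (h - 1) ^ 2 / 40 * L ≤ (h - 17) / 9 * ((h - 27) / 4) * L - 3 * (h / 9) * (L / 240 * h) := by
    have : 0 ≤ L * ((h - 17) / 9 * ((h - 27) / 4) - 3 * (h / 9) * (h / 240) - (h - 1) ^ 2 / 40) := by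
      apply mul_nonneg hL.le
      nlinarith
    linarith
  linarith

/-- Take `m = (2 h - 17) / 18` (natural division), `h = g + 1`: `m (h/4 - 6) log 2 - 3 m log (8 h²)` is at least
`(h - 34) / 9 * (h / 4 - 7) * log 2 - h / 3 * log (8 h²)` `≥ g² / 40 * log 2` for large `g`. -/
theorem lower_arith : ∃ g₀ : ℕ, ∀ g ≥ g₀, ∀ N : ℕ,
    (∀ m : ℕ, 18 * m + 17 ≤ 2 * (g + 1) →
      2 ^ (m * ((g + 1) / 4 - 6)) ≤ (8 * (g + 1) ^ 2) ^ (3 * m) * N) →
    (2 : ℝ) ^ ((g : ℝ) ^ 2 / 40) ≤ N := by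
  have hL : 0 < Real.log 2 := Real.log_pos one_lt_two
  have hc : (0 : ℝ) < Real.log 2 / 960 := by positivity
  have h1 := Real.isLittleO_log_id_atTop.bound hc
  have h2 : ∀ᶠ n : ℕ in Filter.atTop, ‖Real.log (n : ℝ)‖ ≤ Real.log 2 / 960 * ‖id (n : ℝ)‖ :=
    (tendsto_natCast_atTop_atTop.eventually h1)
  obtain ⟨n0, hn0⟩ := Filter.eventually_atTop.1 h2
  refine ⟨max 1500 n0, fun g hg N hN => ?_⟩
  have hg1 : 1500 ≤ g := le_trans (le_max_left _ _) hg
  have hg2 : n0 ≤ g + 1 := le_trans (le_trans (le_max_right _ _) hg) (Nat.le_succ g)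
  have hlog := hn0 (g + 1) hg2
  have hgR : (1500 : ℝ) ≤ g := by exact_mod_cast hg1
  obtain ⟨m, hm⟩ : ∃ m, m = (2 * (g + 1) - 17) / 18 := ⟨_, rfl⟩
  have hm1 : 18 * m + 17 ≤ 2 * (g + 1) := by omega
  have hm2 : 2 * (g + 1) ≤ 18 * m + 34 := by omega
  have key := hN m hm1
  obtain ⟨q, hq⟩ : ∃ q, q = (g + 1) / 4 - 6 := ⟨_, rfl⟩
  rw [← hq] at key
  have hq1 : g + 1 ≤ 4 * q + 27 := by omega
  have keyR : (2 : ℝ) ^ (m * q) ≤ (8 * ((g : ℝ) + 1) ^ 2) ^ (3 * m) * N := by exact_mod_cast key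
  have hb : (0 : ℝ) < 8 * ((g : ℝ) + 1) ^ 2 := by positivity
  have hN0 : (0 : ℝ) < N := by
    rcases (Nat.cast_nonneg N : (0 : ℝ) ≤ N).lt_or_eq with h | h
    · exact h
    · rw [← h, mul_zero] at keyR
      have : (0 : ℝ) < 2 ^ (m * q) := by positivity
      linarith
  have hlg := Real.log_le_log (by positivity) keyR
  rw [Real.log_mul (by positivity) hN0.ne', Real.log_pow, Real.log_pow] at hlg
  push_cast at hlg hlog
  have hl8 : Real.log (8 * ((g : ℝ) + 1) ^ 2) = 3 * Real.log 2 + 2 * Real.log ((g : ℝ) + 1) := by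
    rw [Real.log_mul (by norm_num) (by positivity), Real.log_pow,
      show (8 : ℝ) = 2 ^ 3 by norm_num, Real.log_pow]
    push_cast; ring
  have hlg0 : 0 ≤ Real.log ((g : ℝ) + 1) := Real.log_nonneg (by linarith)
  have hlog' : Real.log ((g : ℝ) + 1) ≤ Real.log 2 / 960 * ((g : ℝ) + 1) := by
    rw [Real.norm_of_nonneg hlg0] at hlog
    rw [id, Real.norm_of_nonneg (by positivity)] at hlog
    exact hlog
  have hl : Real.log (8 * ((g : ℝ) + 1) ^ 2) ≤ Real.log 2 / 240 * ((g : ℝ) + 1) := by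
    rw [hl8]
    have : 3 * Real.log 2 ≤ Real.log 2 / 480 * ((g : ℝ) + 1) := by
      have := mul_le_mul_of_nonneg_left (show (1440 : ℝ) ≤ (g : ℝ) + 1 by linarith) hL.le
      linarith
    linarith
  have hl0 : 0 ≤ Real.log (8 * ((g : ℝ) + 1) ^ 2) := by rw [hl8]; positivity
  have hm1R : 18 * (m : ℝ) + 17 ≤ 2 * ((g : ℝ) + 1) := by exact_mod_cast hm1
  have hm2R : 2 * ((g : ℝ) + 1) ≤ 18 * (m : ℝ) + 34 := by exact_mod_cast hm2
  have hqR : (g : ℝ) + 1 ≤ 4 * (q : ℝ) + 27 := by exact_mod_cast hq1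
  have hcore := lower_core (Real.log 2) ((g : ℝ) + 1) m q _ hL (by linarith) hm1R hm2R hqR hl hl0
  have hfin : (g : ℝ) ^ 2 / 40 * Real.log 2 ≤ Real.log N := by
    have : ((g : ℝ) + 1 - 1) ^ 2 = (g : ℝ) ^ 2 := by ring
    rw [this] at hcore
    linarith
  rw [Real.rpow_def_of_pos two_pos, mul_comm, ← Real.exp_log hN0]
  exact Real.exp_le_exp.2 hfin

end Pool.Agent.Lib.MP_72b45c_co.Q
end

section

/-! # MP_72b45c_co, block F (final), job F1c: upper bound, real numbers -/

namespace Pool.Agent.Lib.MP_72b45c_co.Q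

open SimpleGraph Equiv Equiv.Perm

/-- `obsUpTo_ncard_le` with `e ≤ C g²`: the logarithm of the right side is at most
`4 log (2 C g² + 1) + 2 C g² log 54 + 2 g log (2 g + 1) ≤ C' g²`. -/
theorem upper_arith (C : ℝ) (hC : 0 < C) : ∃ C' : ℝ, 0 < C' ∧ ∃ g₀ : ℕ, ∀ g ≥ g₀, ∀ e : ℕ,
    (e : ℝ) ≤ C * (g : ℝ) ^ 2 → ((ObsUpTo g e).ncard : ℝ) ≤ (2 : ℝ) ^ (C' * (g : ℝ) ^ 2) := by
  refine ⟨20 * C + 4, by positivity, 0, fun g _ e he => ?_⟩
  have h1 := obsUpTo_ncard_le g e
  have h2 : ∀ m : ℕ, m + 1 ≤ 2 ^ m := fun m => Nat.lt_two_pow_self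
  have h3 : (2 * e + 1) ^ 4 * (54 ^ (2 * e) * (2 * g + 1) ^ (2 * g)) ≤
      2 ^ (20 * e + 4 * g ^ 2) := by
    calc (2 * e + 1) ^ 4 * (54 ^ (2 * e) * (2 * g + 1) ^ (2 * g))
        ≤ (2 ^ (2 * e)) ^ 4 * ((2 ^ 6) ^ (2 * e) * (2 ^ (2 * g)) ^ (2 * g)) := by
          refine Nat.mul_le_mul (Nat.pow_le_pow_left (h2 _) 4)
            (Nat.mul_le_mul (Nat.pow_le_pow_left (by norm_num) _)
              (Nat.pow_le_pow_left (h2 _) _))
      _ = 2 ^ (20 * e + 4 * g ^ 2) := by
          rw [← pow_mul, ← pow_mul, ← pow_mul, ← pow_add, ← pow_add]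
          congr 1
          ring
  have h4 : ((ObsUpTo g e).ncard : ℝ) ≤ (2 : ℝ) ^ (20 * e + 4 * g ^ 2) := by
    exact_mod_cast h1.trans h3
  refine h4.trans ?_
  rw [← Real.rpow_natCast (2 : ℝ) (20 * e + 4 * g ^ 2)]
  refine Real.rpow_le_rpow_of_exponent_le (by norm_num) ?_
  push_cast
  nlinarith

end Pool.Agent.Lib.MP_72b45c_co.Q
end

section

/-! # MP_72b45c_co, block F (final), job F1: the numbers (parts) -/
end
end
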