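import Pool.Agent.Lib.MP_72b45c_co.Q.L6
import Pool.Agent.Lib.MP_72b45c_co.Q.A2
import Pool.Agent.Lib.MP_72b45c_co.Q.F1
import Pool.Agent.Lib.MP_72b45c_co.Q.W4
import Pool.Agent.Lib.MP_72b45c_co.Sharp

section

/-! # MP_72b45c_co, block D (disjoint unions), job D1a: sums of maps -/

namespace Pool.Agent.Lib.MP_72b45c_co.Q

open SimpleGraph Equiv Equiv.Perm

/-- the number of classes of an equivalence relation on a sum that does not relate the two summands -/
private theorem D1a_card {Y Z : Type*} [Finite Y] [Finite Z] (s : Setoid (Y ⊕ Z)) (s1 : Setoid Y)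
    (s2 : Setoid Z) (h1 : ∀ a b, s (Sum.inl a) (Sum.inl b) ↔ s1 a b)
    (h2 : ∀ a b, s (Sum.inr a) (Sum.inr b) ↔ s2 a b) (h3 : ∀ a b, ¬ s (Sum.inl a) (Sum.inr b)) :
    Nat.card (Quotient s) = Nat.card (Quotient s1) + Nat.card (Quotient s2) := by
  have f1 : Finite (Quotient s1) := Quotient.finite _
  have f2 : Finite (Quotient s2) := Quotient.finite _
  rw [← Nat.card_sum]
  symm
  let F : Quotient s1 ⊕ Quotient s2 → Quotient s := Sum.elim
    (Quotient.lift (fun a => (Quotient.mk s (Sum.inl a))) fun a b hab =>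
      Quotient.sound ((h1 a b).2 hab))
    (Quotient.lift (fun a => (Quotient.mk s (Sum.inr a))) fun a b hab =>
      Quotient.sound ((h2 a b).2 hab))
  refine Nat.card_congr (Equiv.ofBijective F ⟨?_, ?_⟩)
  · rintro (q | q) (q' | q') h
    · induction q using Quotient.inductionOn with
      | _ a =>
        induction q' using Quotient.inductionOn with
        | _ b =>
          have h4 : s (Sum.inl a) (Sum.inl b) := Quotient.exact h
          exact congrArg Sum.inl (Quotient.sound ((h1 a b).1 h4))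
    · induction q using Quotient.inductionOn with
      | _ a =>
        induction q' using Quotient.inductionOn with
        | _ b =>
          have h4 : s (Sum.inl a) (Sum.inr b) := Quotient.exact h
          exact absurd h4 (h3 a b)
    · induction q using Quotient.inductionOn with
      | _ a =>
        induction q' using Quotient.inductionOn with
        | _ b =>
          have h4 : s (Sum.inr a) (Sum.inl b) := Quotient.exact h
          exact absurd (s.symm h4) (h3 b a)
    · induction q using Quotient.inductionOn with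
      | _ a =>
        induction q' using Quotient.inductionOn with
        | _ b =>
          have h4 : s (Sum.inr a) (Sum.inr b) := Quotient.exact h
          exact congrArg Sum.inr (Quotient.sound ((h2 a b).1 h4))
  · intro q
    induction q using Quotient.inductionOn with
    | _ x =>
      rcases x with a | b
      · exact ⟨Sum.inl (Quotient.mk s1 a), rfl⟩
      · exact ⟨Sum.inr (Quotient.mk s2 b), rfl⟩

private theorem D1a_zpow {Y Z : Type*} (σ : Perm Y) (τ : Perm Z) (i : ℤ) :
    (Equiv.sumCongr σ τ : Perm (Y ⊕ Z)) ^ i = Equiv.sumCongr (σ ^ i) (τ ^ i) := by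
  have h := map_zpow (Perm.sumCongrHom Y Z) (σ, τ) i
  exact h.symm

theorem cyc_sum {Y Z : Type*} [Finite Y] [Finite Z] (σ : Perm Y) (τ : Perm Z) :
    cyc (Equiv.sumCongr σ τ) = cyc σ + cyc τ := by
  refine D1a_card (SameCycle.setoid (Equiv.sumCongr σ τ : Perm (Y ⊕ Z))) (SameCycle.setoid σ)
    (SameCycle.setoid τ) ?_ ?_ ?_
  · intro a b
    constructor
    · rintro ⟨i, hi⟩
      rw [D1a_zpow] at hi
      exact ⟨i, Sum.inl_injective hi⟩
    · rintro ⟨i, hi⟩
      refine ⟨i, ?_⟩
      rw [D1a_zpow]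
      exact congrArg Sum.inl hi
  · intro a b
    constructor
    · rintro ⟨i, hi⟩
      rw [D1a_zpow] at hi
      exact ⟨i, Sum.inr_injective hi⟩
    · rintro ⟨i, hi⟩
      refine ⟨i, ?_⟩
      rw [D1a_zpow]
      exact congrArg Sum.inr hi
  · rintro a b ⟨i, hi⟩
    rw [D1a_zpow] at hi
    exact Sum.inl_ne_inr hi

private theorem D1a_con {Y Z : Type*} (σ α : Perm Y) (τ β : Perm Z) {x y : Y ⊕ Z}
    (h : con (Equiv.sumCongr σ τ : Perm (Y ⊕ Z)) (Equiv.sumCongr α β) x y) :
    Sum.map (Quotient.mk (con σ α)) (Quotient.mk (con τ β)) x =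
      Sum.map (Quotient.mk (con σ α)) (Quotient.mk (con τ β)) y := by
  have h' : Relation.EqvGen (fun x y : Y ⊕ Z => y = (Equiv.sumCongr σ τ : Perm (Y ⊕ Z)) x ∨
      y = (Equiv.sumCongr α β : Perm (Y ⊕ Z)) x) x y := h
  induction h' with
  | rel x y hxy =>
    rcases x with a | a
    · rcases hxy with hxy | hxy
      · subst hxy
        exact congrArg Sum.inl (Quotient.sound (Relation.EqvGen.rel _ _ (Or.inl rfl)))
      · subst hxy
        exact congrArg Sum.inl (Quotient.sound (Relation.EqvGen.rel _ _ (Or.inr rfl)))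
    · rcases hxy with hxy | hxy
      · subst hxy
        exact congrArg Sum.inr (Quotient.sound (Relation.EqvGen.rel _ _ (Or.inl rfl)))
      · subst hxy
        exact congrArg Sum.inr (Quotient.sound (Relation.EqvGen.rel _ _ (Or.inr rfl)))
  | refl x => rfl
  | symm x y h1 ih => exact (ih h1).symm
  | trans x y z h1 h2 ih1 ih2 => exact (ih1 h1).trans (ih2 h2)

private theorem D1a_lift {X X' : Type*} {σ α : Perm X} {σ' α' : Perm X'} (f : X → X')
    (h1 : ∀ x, f (σ x) = σ' (f x)) (h2 : ∀ x, f (α x) = α' (f x)) {x y : X}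
    (h : con σ α x y) : con σ' α' (f x) (f y) := by
  have h' : Relation.EqvGen (fun x y : X => y = σ x ∨ y = α x) x y := h
  induction h' with
  | rel x y hxy =>
    rcases hxy with hxy | hxy
    · subst hxy
      exact Relation.EqvGen.rel _ _ (Or.inl (h1 x))
    · subst hxy
      exact Relation.EqvGen.rel _ _ (Or.inr (h2 x))
  | refl x => exact Relation.EqvGen.refl _
  | symm x y h1 ih => exact (con σ' α').symm (ih h1)
  | trans x y z h1 h2 ih1 ih2 => exact (con σ' α').trans (ih1 h1) (ih2 h2)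

theorem ncomp_sum {Y Z : Type*} [Finite Y] [Finite Z] (σ α : Perm Y) (τ β : Perm Z) :
    ncomp (Equiv.sumCongr σ τ) (Equiv.sumCongr α β) = ncomp σ α + ncomp τ β := by
  refine D1a_card (con (Equiv.sumCongr σ τ : Perm (Y ⊕ Z)) (Equiv.sumCongr α β)) (con σ α)
    (con τ β) ?_ ?_ ?_
  · intro a b
    constructor
    · intro h
      exact Quotient.exact (Sum.inl_injective (D1a_con σ α τ β h))
    · exact fun h => D1a_lift Sum.inl (fun _ => rfl) (fun _ => rfl) h
  · intro a b
    constructor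
    · intro h
      exact Quotient.exact (Sum.inr_injective (D1a_con σ α τ β h))
    · exact fun h => D1a_lift Sum.inr (fun _ => rfl) (fun _ => rfl) h
  · intro a b h
    exact Sum.inl_ne_inr (D1a_con σ α τ β h)

theorem gen2_sum {Y Z : Type*} [Finite Y] [Finite Z] (σ α : Perm Y) (τ β : Perm Z) :
    gen2 (Equiv.sumCongr σ τ) (Equiv.sumCongr α β) = gen2 σ α + gen2 τ β := by
  have h1 : (Equiv.sumCongr σ τ : Perm (Y ⊕ Z)) * Equiv.sumCongr α β =
      Equiv.sumCongr (σ * α) (τ * β) := Perm.sumCongr_mul σ τ α β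
  unfold gen2
  rw [h1, ncomp_sum, cyc_sum, cyc_sum, cyc_sum]
  push_cast
  ring

end Pool.Agent.Lib.MP_72b45c_co.Q
end

section

section

/-! # MP_72b45c_co, block D (disjoint unions), job D1b: genus of disjoint unions -/

namespace Pool.Agent.Lib.MP_72b45c_co.Q

open SimpleGraph Equiv Equiv.Perm

/-- the darts of a disjoint union -/
private def d1bIncl {V W : Type*} (G : SimpleGraph V) (H : SimpleGraph W) :
    G.Dart ⊕ H.Dart → (G ⊕g H).Dart :=
  Sum.elim (fun d => ⟨(Sum.inl d.fst, Sum.inl d.snd), SimpleGraph.sum_adj_inl.2 d.adj⟩)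
    (fun d => ⟨(Sum.inr d.fst, Sum.inr d.snd), SimpleGraph.sum_adj_inr.2 d.adj⟩)

private theorem d1b_inj {V W : Type*} (G : SimpleGraph V) (H : SimpleGraph W) :
    Function.Injective (d1bIncl G H) := by
  rintro (d | d) (d' | d') h
  · have h1 := congrArg (fun e : (G ⊕g H).Dart => e.fst) h
    have h2 := congrArg (fun e : (G ⊕g H).Dart => e.snd) h
    have h1' : d.fst = d'.fst := Sum.inl.inj h1
    have h2' : d.snd = d'.snd := Sum.inl.inj h2
    exact congrArg Sum.inl (Dart.ext _ _ (Prod.ext h1' h2'))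
  · have h1 := congrArg (fun e : (G ⊕g H).Dart => e.fst) h
    exact absurd h1 (by simp [d1bIncl])
  · have h1 := congrArg (fun e : (G ⊕g H).Dart => e.fst) h
    exact absurd h1 (by simp [d1bIncl])
  · have h1 := congrArg (fun e : (G ⊕g H).Dart => e.fst) h
    have h2 := congrArg (fun e : (G ⊕g H).Dart => e.snd) h
    have h1' : d.fst = d'.fst := Sum.inr.inj h1
    have h2' : d.snd = d'.snd := Sum.inr.inj h2
    exact congrArg Sum.inr (Dart.ext _ _ (Prod.ext h1' h2'))

private theorem d1b_surj {V W : Type*} (G : SimpleGraph V) (H : SimpleGraph W) :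
    Function.Surjective (d1bIncl G H) := by
  rintro ⟨⟨u | u, v | v⟩, h⟩
  · exact ⟨Sum.inl ⟨(u, v), SimpleGraph.sum_adj_inl.1 h⟩, rfl⟩
  · exact absurd h (by simp)
  · exact absurd h (by simp)
  · exact ⟨Sum.inr ⟨(u, v), SimpleGraph.sum_adj_inr.1 h⟩, rfl⟩

private theorem d1b_symm {V W : Type*} (G : SimpleGraph V) (H : SimpleGraph W)
    (x : G.Dart ⊕ H.Dart) :
    d1bIncl G H (Equiv.sumCongr (rev G) (rev H) x) = (d1bIncl G H x).symm := by
  rcases x with d | d <;> rfl

private theorem d1b_zpow {Y Z : Type*} (σ : Perm Y) (τ : Perm Z) (k : ℤ) :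
    (Equiv.sumCongr σ τ : Perm (Y ⊕ Z)) ^ k = Equiv.sumCongr (σ ^ k) (τ ^ k) :=
  ((sumCongrHom Y Z).map_zpow (σ, τ) k).symm

private theorem d1b_same_inl {Y Z : Type*} (σ : Perm Y) (τ : Perm Z) (y y' : Y) :
    SameCycle (Equiv.sumCongr σ τ : Perm (Y ⊕ Z)) (Sum.inl y) (Sum.inl y') ↔
      σ.SameCycle y y' := by
  constructor
  · rintro ⟨k, hk⟩
    rw [d1b_zpow] at hk
    exact ⟨k, Sum.inl.inj hk⟩
  · rintro ⟨k, hk⟩
    refine ⟨k, ?_⟩
    rw [d1b_zpow]
    exact congrArg Sum.inl hk

private theorem d1b_same_inr {Y Z : Type*} (σ : Perm Y) (τ : Perm Z) (y y' : Z) :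
    SameCycle (Equiv.sumCongr σ τ : Perm (Y ⊕ Z)) (Sum.inr y) (Sum.inr y') ↔
      τ.SameCycle y y' := by
  constructor
  · rintro ⟨k, hk⟩
    rw [d1b_zpow] at hk
    exact ⟨k, Sum.inr.inj hk⟩
  · rintro ⟨k, hk⟩
    refine ⟨k, ?_⟩
    rw [d1b_zpow]
    exact congrArg Sum.inr hk

private theorem d1b_not_inl_inr {Y Z : Type*} (σ : Perm Y) (τ : Perm Z) (y : Y) (z : Z) :
    ¬ SameCycle (Equiv.sumCongr σ τ : Perm (Y ⊕ Z)) (Sum.inl y) (Sum.inr z) := by
  rintro ⟨k, hk⟩
  rw [d1b_zpow] at hk
  cases hk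

private theorem d1b_fst {V : Type*} {G : SimpleGraph V} (R : RotationSystem G) (d d' : G.Dart) :
    R.next.SameCycle d d' ↔ d.fst = d'.fst :=
  ⟨fun h => dartIso_invariant (f := fun d : G.Dart => d.fst) R.fst_next h, R.sameCycle d d'⟩

/-- `embeds_iff` for both graphs, `embeds_of_map` with `X = G.Dart ⊕ H.Dart`, `gen2_sum` -/
theorem embeds_sum {V W : Type*} [Finite V] [Finite W] {G : SimpleGraph V} {H : SimpleGraph W}
    {a b : ℕ} (hG : Embeds a G) (hH : Embeds b H) : Embeds (a + b) (G ⊕g H) := by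
  classical
  have : Finite G.Dart := dartIso_finite _
  have : Finite H.Dart := dartIso_finite _
  rw [embeds_iff] at hG hH
  obtain ⟨R1, h1⟩ := hG
  obtain ⟨R2, h2⟩ := hH
  let e : G.Dart ⊕ H.Dart ≃ (G ⊕g H).Dart :=
    Equiv.ofBijective (d1bIncl G H) ⟨d1b_inj G H, d1b_surj G H⟩
  have he : ∀ x, e x = d1bIncl G H x := fun x => rfl
  refine embeds_of_map (α := Equiv.sumCongr (rev G) (rev H))
    (σ := Equiv.sumCongr R1.next R2.next) ?_ ?_ ?_ (G ⊕g H) e.symm e.symm.injective ?_ ?_
  · rintro (d | d)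
    · exact congrArg Sum.inl (Dart.symm_involutive d)
    · exact congrArg Sum.inr (Dart.symm_involutive d)
  · rintro (d | d) h
    · exact Dart.symm_ne d (Sum.inl.inj h)
    · exact Dart.symm_ne d (Sum.inr.inj h)
  · rw [gen2_sum]
    push_cast
    linarith
  · intro d
    obtain ⟨x, rfl⟩ := e.surjective d
    rw [Equiv.symm_apply_apply, Equiv.symm_apply_eq, he, he, d1b_symm]
  · intro d d'
    obtain ⟨x, rfl⟩ := e.surjective d
    obtain ⟨x', rfl⟩ := e.surjective d'
    rw [Equiv.symm_apply_apply, Equiv.symm_apply_apply, he, he]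
    rcases x with d | d <;> rcases x' with d' | d'
    · rw [d1b_same_inl, d1b_fst]
      exact (Sum.inl_injective.eq_iff (a := d.fst) (b := d'.fst)).symm
    · refine iff_of_false (d1b_not_inl_inr _ _ _ _) ?_
      intro h
      cases h
    · refine iff_of_false (fun h => d1b_not_inl_inr _ _ _ _ h.symm) ?_
      intro h
      cases h
    · rw [d1b_same_inr, d1b_fst]
      exact (Sum.inr_injective.eq_iff (a := d.fst) (b := d'.fst)).symm

/-- `embeds_iff` gives a rotation `R` of the sum with `gen2 ≤ 2 (a + b + 1)`. Its restrictions to the darts of `G` and of `H`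
are rotations, `gen2 R = gen2 R1 + gen2 R2` (`gen2_sum`, relabelling by `(G ⊕g H).Dart ≃ G.Dart ⊕ H.Dart`, e.g. `gen2_restrict` with a
bijection `ι`), both even (`gen2_even`), so `gen2 R1 ≤ 2 a` or `gen2 R2 ≤ 2 b`. -/
theorem embeds_of_sum {V W : Type*} [Finite V] [Finite W] {G : SimpleGraph V} {H : SimpleGraph W}
    {a b : ℕ} (h : Embeds (a + b + 1) (G ⊕g H)) : Embeds a G ∨ Embeds b H := by
  classical
  have : Finite G.Dart := dartIso_finite _
  have : Finite H.Dart := dartIso_finite _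
  have : Finite (G ⊕g H).Dart := dartIso_finite _
  rw [embeds_iff] at h
  obtain ⟨R, hR⟩ := h
  let e : G.Dart ⊕ H.Dart ≃ (G ⊕g H).Dart :=
    Equiv.ofBijective (d1bIncl G H) ⟨d1b_inj G H, d1b_surj G H⟩
  have he : ∀ x, e x = d1bIncl G H x := fun x => rfl
  obtain ⟨π, hπ⟩ : ∃ π : Perm (G.Dart ⊕ H.Dart), ∀ x, e (π x) = R.next (e x) :=
    ⟨e.symm.permCongr R.next, fun x => by simp [Equiv.permCongr_apply]⟩
  have hfst : ∀ x, (d1bIncl G H (π x)).fst = (d1bIncl G H x).fst := by
    intro x
    have h1 := hπ x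
    rw [he, he] at h1
    rw [h1]
    exact R.fst_next _
  have hmaps : Set.MapsTo π (Set.range Sum.inl) (Set.range Sum.inl) := by
    rintro _ ⟨d, rfl⟩
    have h1 := hfst (Sum.inl d)
    rcases h2 : π (Sum.inl d) with d' | d'
    · exact ⟨d', rfl⟩
    · rw [h2] at h1
      cases h1
  obtain ⟨⟨σ1, σ2⟩, hσ⟩ := mem_sumCongrHom_range_of_perm_mapsTo_inl hmaps
  have hσ' : Equiv.sumCongr σ1 σ2 = π := hσ
  have hpow : ∀ (k : ℕ) (x : G.Dart ⊕ H.Dart), e ((π ^ k) x) = (R.next ^ k) (e x) := by
    intro k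
    induction k with
    | zero => exact fun x => rfl
    | succ k ih =>
      intro x
      rw [pow_succ, pow_succ, Perm.mul_apply, Perm.mul_apply, ih, hπ]
  have hsame : ∀ x x' : G.Dart ⊕ H.Dart, (d1bIncl G H x).fst = (d1bIncl G H x').fst →
      π.SameCycle x x' := by
    intro x x' hx
    obtain ⟨k, hk⟩ := (R.sameCycle (e x) (e x') hx).exists_nat_pow_eq
    rw [← hpow] at hk
    exact ⟨(k : ℤ), by rw [zpow_natCast]; exact e.injective hk⟩
  let R1 : RotationSystem G :=
    { next := σ1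
      fst_next := fun d => by
        have h1 := hfst (Sum.inl d)
        rw [← hσ'] at h1
        exact Sum.inl.inj h1
      sameCycle := fun d d' hd => by
        have h1 := hsame (Sum.inl d) (Sum.inl d') (congrArg Sum.inl hd)
        rw [← hσ', d1b_same_inl] at h1
        exact h1 }
  let R2 : RotationSystem H :=
    { next := σ2
      fst_next := fun d => by
        have h1 := hfst (Sum.inr d)
        rw [← hσ'] at h1
        exact Sum.inr.inj h1
      sameCycle := fun d d' hd => by
        have h1 := hsame (Sum.inr d) (Sum.inr d') (congrArg Sum.inr hd)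
        rw [← hσ', d1b_same_inr] at h1
        exact h1 }
  have h3 : gen2 π (Equiv.sumCongr (rev G) (rev H)) = gen2 R.next (rev (G ⊕g H)) := by
    refine gen2_restrict (σ := R.next) (α := rev (G ⊕g H)) (fun d => Dart.symm_involutive d)
      (fun d => Dart.symm_ne d) e e.injective π _ hπ (fun x => ?_) (fun x hx => ?_)
    · rw [he, he, d1b_symm]
      rfl
    · exact absurd (e.surjective x) hx
  rw [← h3, ← hσ', gen2_sum] at hR
  have h4 : Even (gen2 σ1 (rev G)) := gen2_even (fun d => Dart.symm_involutive d)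
      (fun d => Dart.symm_ne d)
  have h5 : Even (gen2 σ2 (rev H)) := gen2_even (fun d => Dart.symm_involutive d)
      (fun d => Dart.symm_ne d)
  by_cases h6 : gen2 σ1 (rev G) ≤ 2 * (a : ℤ)
  · exact Or.inl ((embeds_iff G a).2 ⟨R1, h6⟩)
  · refine Or.inr ((embeds_iff H b).2 ⟨R2, ?_⟩)
    show gen2 σ2 (rev H) ≤ 2 * (b : ℤ)
    obtain ⟨m, hm⟩ := h4
    obtain ⟨n, hn⟩ := h5
    push_cast at hR
    omega

end Pool.Agent.Lib.MP_72b45c_co.Q
end

section

/-! # MP_72b45c_co, block D (disjoint unions), job D1c: one more edge -/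

namespace Pool.Agent.Lib.MP_72b45c_co.Q

open SimpleGraph Equiv Equiv.Perm

/-- Merging two cycles raises `gen2` by at most `2`: `cyc σ` drops by one, `cyc (σ * α)` changes by one, `ncomp` does not
grow (`ncomp_merge_of_con`, `ncomp_merge_of_not_con`). -/
theorem gen2_merge_le {X : Type*} [Finite X] [DecidableEq X] {σ α : Perm X}
    (hα : ∀ x, α (α x) = x) {a b : X} (h : ¬ σ.SameCycle a b) :
    gen2 (σ * swap a b) α ≤ gen2 σ α + 2 := by
  have hab : a ≠ b := fun h1 => h (h1 ▸ SameCycle.refl σ a)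
  have hab' : α a ≠ α b := fun h1 => hab (α.injective h1)
  have h2 := cyc_mul_swap_of_not_sameCycle σ h
  have h3 : cyc (σ * α) ≤ cyc ((σ * swap a b) * α) + 1 := by
    rw [face_mul_swap σ α hα a b]
    by_cases hf : (σ * α).SameCycle (α a) (α b)
    · have := cyc_mul_swap_of_sameCycle (σ * α) hab' hf
      omega
    · have := cyc_mul_swap_of_not_sameCycle (σ * α) hf
      omega
  have h4 : ncomp (σ * swap a b) α ≤ ncomp σ α := by
    by_cases hc : con σ α a b
    · exact (ncomp_merge_of_con σ α h hc).le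
    · have := ncomp_merge_of_not_con σ α hc
      omega
  unfold gen2
  omega

/-- Merging two different components does not change `gen2`: `α a`, `α b` are in different components, hence in different cycles of
`σ * α`; both `cyc` drop by one and `ncomp` drops by one. -/
theorem gen2_merge_components {X : Type*} [Finite X] [DecidableEq X] {σ α : Perm X}
    (hα : ∀ x, α (α x) = x) {a b : X} (h : ¬ con σ α a b) :
    gen2 (σ * swap a b) α = gen2 σ α := by
  have hsc : ¬ σ.SameCycle a b := fun h1 => h (con_of_sameCycle σ α h1)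
  have hf : ¬ (σ * α).SameCycle (α a) (α b) := by
    intro hf
    apply h
    have h1 : con σ α a (α a) := con_apply_right σ α a
    have h2 : con σ α b (α b) := con_apply_right σ α b
    have h3 : con σ α (α a) (α b) := con_of_sameCycle_face σ α hf
    exact (con σ α).trans ((con σ α).trans h1 h3) ((con σ α).symm h2)
  have h2 := cyc_mul_swap_of_not_sameCycle σ hsc
  have h3 := cyc_mul_swap_of_not_sameCycle (σ * α) hf
  have h4 := ncomp_merge_of_not_con σ α h
  unfold gen2
  rw [face_mul_swap σ α hα a b]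
  omega

/-- insertion of a fixed point into the right cycle -/
private theorem D1c_step {X F : Type*} [Finite X] [DecidableEq X] (f : X → F) (E : Set X)
    (σ : Perm X) (d : X) (hdE : d ∉ E) (h1 : ∀ x ∈ insert d E, σ x = x)
    (h2 : ∀ x y, x ∉ insert d E → y ∉ insert d E → (σ.SameCycle x y ↔ f x = f y)) :
    ∃ σ' : Perm X, (σ' = σ ∨ ∃ a, a ∉ insert d E ∧ σ' = σ * swap a d) ∧
      (∀ x ∈ E, σ' x = x) ∧
      ∀ x y, x ∉ E → y ∉ E → (σ'.SameCycle x y ↔ f x = f y) := by
  have hd : σ d = d := h1 d (Set.mem_insert d E)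
  have hfix : ∀ y, σ.SameCycle d y → d = y := fun y h =>
    CycleCount_closed σ {y | d = y} (fun z hz => by
      have hz' : d = z := hz
      show d = σ z
      rw [← hz', hd]) rfl h
  have hmem : ∀ x, x ∉ E → x ≠ d → x ∉ insert d E := by
    intro x hx hxd hx'
    rcases Set.mem_insert_iff.1 hx' with h | h
    · exact hxd h
    · exact hx h
  by_cases hex : ∃ a, a ∉ insert d E ∧ f a = f d
  · obtain ⟨a, ha, hfa⟩ := hex
    have had : a ≠ d := fun h => ha (h ▸ Set.mem_insert d E)
    have haE : a ∉ E := fun h => ha (Set.mem_insert_of_mem d h)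
    have hns : ¬ σ.SameCycle a d := fun h => had (hfix a h.symm).symm
    obtain ⟨hs1, hs2⟩ := sameCycle_mul_swap σ hns
    refine ⟨σ * swap a d, Or.inr ⟨a, ha, rfl⟩, ?_, ?_⟩
    · intro x hx
      have hxa : x ≠ a := fun h => haE (h ▸ hx)
      have hxd : x ≠ d := fun h => hdE (h ▸ hx)
      rw [CycleCount_swap_ne σ hxa hxd]
      exact h1 x (Set.mem_insert_of_mem d hx)
    · -- points outside `E` stay outside `E`
      have hσE : ∀ x, x ∉ E → σ x ∉ E := by
        intro x hx h
        have h5 := h1 (σ x) (Set.mem_insert_of_mem d h)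
        rw [σ.injective h5] at h
        exact hx h
      have hσd : ∀ x, x ≠ d → σ x ≠ d := by
        intro x hx h
        exact hx (σ.injective (h.trans hd.symm))
      have hfσ : ∀ x, x ∉ E → x ≠ d → f (σ x) = f x := by
        intro x hx hxd
        refine (h2 (σ x) x (hmem _ (hσE x hx) (hσd x hxd)) (hmem x hx hxd)).1 ?_
        exact sameCycle_apply_left.2 (SameCycle.refl σ x)
      intro x y hx hy
      constructor
      · intro h
        have h6 : ∀ z, (σ * swap a d).SameCycle x z → z ∉ E ∧ f x = f z := by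
          intro z hz
          refine CycleCount_closed (σ * swap a d) {z | z ∉ E ∧ f x = f z} ?_ ⟨hx, rfl⟩ hz
          rintro z ⟨hz1, hz2⟩
          by_cases hza : z = a
          · rw [hza, CycleCount_swap_left, hd]
            rw [hza] at hz2
            exact ⟨hdE, hz2.trans hfa⟩
          · by_cases hzd : z = d
            · rw [hzd, CycleCount_swap_right]
              rw [hzd] at hz2
              exact ⟨hσE a haE, by rw [hfσ a haE had, hfa]; exact hz2⟩
            · rw [CycleCount_swap_ne σ hza hzd]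
              exact ⟨hσE z hz1, by rw [hfσ z hz1 hzd]; exact hz2⟩
        exact (h6 y h).2
      · intro h
        have key : ∀ z, z ∉ E → f z = f d → (σ * swap a d).SameCycle d z := by
          intro z hz hfz
          by_cases hzd : z = d
          · rw [hzd]
          · have h7 := (h2 a z ha (hmem z hz hzd)).2 (hfa.trans hfz.symm)
            exact hs1.symm.trans (hs2 _ _ h7)
        by_cases hxd : x = d
        · rw [hxd]
          exact key y hy (by rw [← h, hxd])
        · by_cases hyd : y = d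
          · rw [hyd]
            exact (key x hx (by rw [h, hyd])).symm
          · exact hs2 _ _ ((h2 x y (hmem x hx hxd) (hmem y hy hyd)).2 h)
  · push Not at hex
    refine ⟨σ, Or.inl rfl, fun x hx => h1 x (Set.mem_insert_of_mem d hx), ?_⟩
    intro x y hx hy
    by_cases hxd : x = d
    · by_cases hyd : y = d
      · rw [hxd, hyd]
        exact iff_of_true (SameCycle.refl σ d) rfl
      · rw [hxd]
        exact iff_of_false (fun h => hyd (hfix y h).symm)
          (fun h => hex y (hmem y hy hyd) h.symm)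
    · by_cases hyd : y = d
      · rw [hyd]
        exact iff_of_false (fun h => hxd (hfix x h.symm).symm)
          (fun h => hex x (hmem x hx hxd) h)
      · exact h2 x y (hmem x hx hxd) (hmem y hy hyd)

/-- Adding one edge `uv`. Let `R'` be a rotation of `G - uv` with `gen2 ≤ 2 g`; extend it to the darts of `G` by fixing the two
darts `d`, `d'` of `uv` (`gen2_restrict`: same `gen2`). If `u` has another dart `a`, merge `a` and `d` (different components,
`gen2_merge_components`); if `v` has another dart, merge it with `d'` (`gen2_merge_le`). Now the cycles are the sets of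
darts with a common start: `embeds_of_map` with `ι = id`. -/
theorem embeds_add_edge {V : Type*} [Finite V] {G : SimpleGraph V} {g : ℕ} {u v : V}
    (huv : G.Adj u v) (h : Embeds g (G.deleteEdges {s(u, v)})) : Embeds (g + 1) G := by
  classical
  have : Finite G.Dart := dartIso_finite _
  have : Finite (G.deleteEdges {s(u, v)}).Dart := dartIso_finite _
  rw [embeds_iff] at h
  obtain ⟨R, hR⟩ := h
  have hα : ∀ x, rev G (rev G x) = x := fun x => Dart.symm_involutive x
  have hα' : ∀ x, rev G x ≠ x := fun x => Dart.symm_ne x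
  -- the darts of the smaller graph
  have hadj : ∀ d : (G.deleteEdges {s(u, v)}).Dart, G.Adj d.fst d.snd := fun d =>
    (deleteEdges_adj.1 d.adj).1
  let ι : (G.deleteEdges {s(u, v)}).Dart → G.Dart := fun d => ⟨(d.fst, d.snd), hadj d⟩
  have hι : Function.Injective ι := by
    intro d d' hdd
    have e1 := congrArg (fun e : G.Dart => e.fst) hdd
    have e2 := congrArg (fun e : G.Dart => e.snd) hdd
    exact Dart.ext _ _ (Prod.ext e1 e2)
  have hne : u ≠ v := huv.ne
  let d : G.Dart := ⟨(u, v), huv⟩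
  let d' : G.Dart := ⟨(v, u), huv.symm⟩
  have hdd' : d ≠ d' := fun h => hne (congrArg (fun e : G.Dart => e.fst) h)
  have hrange : ∀ x : G.Dart, x ∈ Set.range ι ↔ x ∉ insert d ({d'} : Set G.Dart) := by
    intro x
    constructor
    · rintro ⟨y, rfl⟩ hx
      have h1 := (deleteEdges_adj.1 y.adj).2
      apply h1
      rw [Set.mem_singleton_iff]
      rcases Set.mem_insert_iff.1 hx with hx | hx
      · have e1 : y.fst = u := congrArg (fun e : G.Dart => e.fst) hx
        have e2 : y.snd = v := congrArg (fun e : G.Dart => e.snd) hx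
        rw [e1, e2]
      · rw [Set.mem_singleton_iff] at hx
        have e1 : y.fst = v := congrArg (fun e : G.Dart => e.fst) hx
        have e2 : y.snd = u := congrArg (fun e : G.Dart => e.snd) hx
        rw [e1, e2]
        exact Sym2.eq_swap
    · intro hx
      have h1 : (G.deleteEdges {s(u, v)}).Adj x.fst x.snd := by
        rw [deleteEdges_adj]
        refine ⟨x.adj, fun h2 => hx ?_⟩
        rw [Set.mem_singleton_iff, Sym2.eq_iff] at h2
        rcases h2 with ⟨e1, e2⟩ | ⟨e1, e2⟩
        · exact Set.mem_insert_iff.2 (Or.inl (Dart.ext _ _ (Prod.ext e1 e2)))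
        · exact Set.mem_insert_iff.2 (Or.inr (Dart.ext _ _ (Prod.ext e1 e2)))
      exact ⟨⟨(x.fst, x.snd), h1⟩, rfl⟩
  -- the extended rotation
  let e : (G.deleteEdges {s(u, v)}).Dart ≃ Set.range ι := Equiv.ofInjective ι hι
  let σ₀ : Perm G.Dart := R.next.extendDomain e
  have hσ₀ : ∀ y, σ₀ (ι y) = ι (R.next y) := fun y => extendDomain_apply_image R.next e y
  have hσ₀' : ∀ x, x ∉ Set.range ι → σ₀ x = x := fun x hx =>
    extendDomain_apply_not_subtype R.next e hx
  have hg0 : gen2 R.next (rev (G.deleteEdges {s(u, v)})) = gen2 σ₀ (rev G) :=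
    gen2_restrict hα hα' ι hι R.next _ (fun y => (hσ₀ y).symm) (fun y => rfl) hσ₀'
  have hfix0 : ∀ x ∈ insert d ({d'} : Set G.Dart), σ₀ x = x := by
    intro x hx
    refine hσ₀' x fun h => ?_
    exact (hrange x).1 h hx
  have hfst : ∀ x y, R.next.SameCycle x y ↔ x.fst = y.fst := fun x y =>
    ⟨fun h => dartIso_invariant (f := fun d : (G.deleteEdges {s(u, v)}).Dart => d.fst)
      R.fst_next h, R.sameCycle x y⟩
  have hsc0 : ∀ x y, x ∉ insert d ({d'} : Set G.Dart) → y ∉ insert d ({d'} : Set G.Dart) →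
      (σ₀.SameCycle x y ↔ x.fst = y.fst) := by
    intro x y hx hy
    obtain ⟨x, rfl⟩ := (hrange x).2 hx
    obtain ⟨y, rfl⟩ := (hrange y).2 hy
    have h1 : σ₀.SameCycle (ι x) (ι y) ↔ R.next.SameCycle x y :=
      sameCycle_extendDomain (g := R.next) (f := e) (x := x) (y := y)
    rw [h1, hfst]
  have hd1 : d ∉ ({d'} : Set G.Dart) := fun h => hdd' h
  obtain ⟨σ₁, hσ₁, hfix1, hsc1⟩ := D1c_step (fun x : G.Dart => x.fst) {d'} σ₀ d hd1 hfix0 hsc0
  have hg1 : gen2 σ₁ (rev G) = gen2 σ₀ (rev G) := by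
    rcases hσ₁ with rfl | ⟨a, ha, rfl⟩
    · rfl
    · refine gen2_merge_components hα ?_
      intro hcon
      have hle : con σ₀ (rev G) ≤ Setoid.ker (fun x : G.Dart => x = d ∨ x = d') := by
        refine con_le _ _ _ (fun x => ?_) (fun x => ?_)
        · show (x = d ∨ x = d') = (σ₀ x = d ∨ σ₀ x = d')
          have e1 : σ₀ d = d := hfix0 d (Set.mem_insert _ _)
          have e2 : σ₀ d' = d' := hfix0 d' (Set.mem_insert_of_mem _ rfl)
          have e3 : σ₀ x = d ↔ x = d := by
            constructor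
            · intro h
              exact σ₀.injective (h.trans e1.symm)
            · rintro rfl
              exact e1
          have e4 : σ₀ x = d' ↔ x = d' := by
            constructor
            · intro h
              exact σ₀.injective (h.trans e2.symm)
            · rintro rfl
              exact e2
          rw [e3, e4]
        · show (x = d ∨ x = d') = (rev G x = d ∨ rev G x = d')
          have e3 : rev G x = d ↔ x = d' := by
            constructor
            · intro h
              rw [← hα x, h]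
              rfl
            · rintro rfl
              rfl
          have e4 : rev G x = d' ↔ x = d := by
            constructor
            · intro h
              rw [← hα x, h]
              rfl
            · rintro rfl
              rfl
          rw [e3, e4, or_comm]
      have h5 : (a = d ∨ a = d') = (d = d ∨ d = d') := hle hcon
      have h6 : a = d ∨ a = d' := by
        rw [h5]
        exact Or.inl rfl
      exact ha h6
  have hsc1' : ∀ x y, x ∉ insert d' (∅ : Set G.Dart) → y ∉ insert d' (∅ : Set G.Dart) →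
      (σ₁.SameCycle x y ↔ x.fst = y.fst) := by
    intro x y hx hy
    refine hsc1 x y (fun h => hx ?_) (fun h => hy ?_)
    · rw [Set.mem_singleton_iff] at h
      exact Set.mem_insert_iff.2 (Or.inl h)
    · rw [Set.mem_singleton_iff] at h
      exact Set.mem_insert_iff.2 (Or.inl h)
  have hfix1' : ∀ x ∈ insert d' (∅ : Set G.Dart), σ₁ x = x := by
    intro x hx
    rcases Set.mem_insert_iff.1 hx with h | h
    · exact hfix1 x h
    · exact absurd h (Set.notMem_empty x)
  obtain ⟨σ₂, hσ₂, _, hsc2⟩ := D1c_step (fun x : G.Dart => x.fst) ∅ σ₁ d'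
    (Set.notMem_empty d') hfix1' hsc1'
  have hg2 : gen2 σ₂ (rev G) ≤ gen2 σ₁ (rev G) + 2 := by
    rcases hσ₂ with rfl | ⟨b, hb, rfl⟩
    · omega
    · refine gen2_merge_le hα ?_
      intro hcon
      apply hb
      have h7 : σ₁ d' = d' := hfix1 d' rfl
      have h8 : d' = b := CycleCount_closed σ₁ {y | d' = y} (fun z hz => by
        have hz' : d' = z := hz
        show d' = σ₁ z
        rw [← hz', h7]) rfl hcon.symm
      exact Set.mem_insert_iff.2 (Or.inl h8.symm)
  have hg3 : gen2 σ₂ (rev G) ≤ 2 * ((g + 1 : ℕ) : ℤ) := by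
    push_cast
    omega
  refine embeds_of_map hα hα' hg3 G id Function.injective_id (fun x => rfl) ?_
  intro x y
  exact hsc2 x y (Set.notMem_empty x) (Set.notMem_empty y)

end Pool.Agent.Lib.MP_72b45c_co.Q
end

section

/-! # MP_72b45c_co, block D (disjoint unions), job D1: genus of disjoint unions, one more edge (parts) -/
end

section

/-! # MP_72b45c_co, block D (disjoint unions), job D2a: edges of obstructions -/

namespace Pool.Agent.Lib.MP_72b45c_co.Q

open SimpleGraph Equiv Equiv.Perm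

/-- an obstruction has no isolated vertices (`IsObstruction.exists_adj` after transport to `Fin m`) -/
theorem obstruction_no_isolated {V : Type*} [Finite V] {G : SimpleGraph V} {g : ℕ}
    (h : IsObstruction g G) (v : V) : ∃ w, G.Adj v w := by
  classical
  cases nonempty_fintype V
  have h1 := isObstruction_iso (G.overFinIso rfl) h
  obtain ⟨w, hw⟩ := h1.exists_adj (G.overFinIso rfl v)
  refine ⟨(G.overFinIso rfl).symm w, ?_⟩
  have h2 := (G.overFinIso rfl).symm.map_adj_iff.mpr hw
  simpa using h2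

/-- a minor of an obstruction on any finite vertex set -/
private theorem obstruction_minor {V W : Type*} [Finite V] [Finite W] {G : SimpleGraph V}
    {H : SimpleGraph W} {g : ℕ} (h : IsObstruction g G) (hm : IsMinor H G)
    (hne : ¬ Nonempty (H ≃g G)) : Embeds g H := by
  classical
  cases nonempty_fintype W
  refine Embeds.iso (H.overFinIso rfl).symm (h.2 _ (H.overFin rfl) ?_ ?_)
  · exact IsMinor.of_iso (H.overFinIso rfl) hm
  · rintro ⟨e⟩
    exact hne ⟨(H.overFinIso rfl).trans e⟩

/-- contraction and deletion of an edge of an obstruction (these are proper minors: fewer edges / not isomorphic by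
the number of edges; `conG G a b` is a minor of `G` with an extra isolated vertex `b`: use `embeds_of_induce` for `{b}ᶜ`) -/
theorem obstruction_con {V : Type*} [Finite V] {G : SimpleGraph V} {g : ℕ}
    (h : IsObstruction g G) {a b : V} (hab : G.Adj a b) : Embeds g (conG G a b) := by
  classical
  cases nonempty_fintype V
  refine embeds_of_induce ({b}ᶜ : Set V) (fun v w hvw => ?_) ?_
  · exact fun hv => hvw.2.1 hv
  refine obstruction_minor h ?_ ?_
  · refine ⟨fun x => if (x : V) = a then {a, b} else {(x : V)}, fun x => ?_, fun x y hxy => ?_,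
      fun x y hxy => ?_⟩
    · have hs : (G.induce ({(x : V)} : Set V)).Connected := by
        have : Subsingleton ({(x : V)} : Set V) :=
          ⟨fun a b => Subtype.ext (a.2.trans b.2.symm)⟩
        exact { preconnected := fun a b => by rw [Subsingleton.elim a b], nonempty := ⟨⟨_, rfl⟩⟩ }
      by_cases hx : (x : V) = a
      · have h1 : (if (x : V) = a then {a, b} else {(x : V)} : Set V) = {a, b} := if_pos hx
        dsimp only
        rw [h1]
        exact SimpleGraph.induce_pair_connected_of_adj hab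
      · have h1 : (if (x : V) = a then {a, b} else {(x : V)} : Set V) = {(x : V)} := if_neg hx
        dsimp only
        rw [h1]
        exact hs
    · have hxy' : (x : V) ≠ y := fun h => hxy (Subtype.ext h)
      have hxb : (x : V) ≠ b := x.2
      have hyb : (y : V) ≠ b := y.2
      dsimp only
      rw [Set.disjoint_left]
      intro z hz hz'
      split_ifs at hz hz' with h1 h2 h2
      · exact hxy' (h1.trans h2.symm)
      · rw [Set.mem_singleton_iff] at hz'
        rcases hz with hz | hz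
        · exact h2 (hz'.symm.trans hz)
        · exact hyb (hz'.symm.trans hz)
      · rw [Set.mem_singleton_iff] at hz
        rcases hz' with hz' | hz'
        · exact h1 (hz.symm.trans hz')
        · exact hxb (hz.symm.trans hz')
      · rw [Set.mem_singleton_iff] at hz hz'
        exact hxy' (hz.symm.trans hz')
    · have hmem : ∀ z : ({b}ᶜ : Set V), (z : V) ∈ (if (z : V) = a then {a, b} else {(z : V)} : Set V) := by
        intro z
        split_ifs with hz
        · exact Or.inl hz
        · rfl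
      have hmb : ∀ z : ({b}ᶜ : Set V), (z : V) = a →
          b ∈ (if (z : V) = a then {a, b} else {(z : V)} : Set V) := by
        intro z hz
        rw [if_pos hz]
        exact Or.inr rfl
      obtain ⟨-, -, -, h4⟩ := (hxy : (conG G a b).Adj x y)
      rcases h4 with h4 | ⟨h4, h5⟩ | ⟨h4, h5⟩
      · exact ⟨_, hmem x, _, hmem y, h4⟩
      · exact ⟨b, hmb x h4, _, hmem y, h5⟩
      · exact ⟨_, hmem x, b, hmb y h4, h5⟩
  · rintro ⟨e⟩
    have h1 := Nat.card_congr e.toEquiv
    have h2 : Nat.card ({b}ᶜ : Set V) < Nat.card V := by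
      rw [Nat.card_eq_fintype_card, Nat.card_eq_fintype_card]
      exact Fintype.card_subtype_lt (x := b) (by simp)
    omega

theorem obstruction_del {V : Type*} [Finite V] {G : SimpleGraph V} {g : ℕ}
    (h : IsObstruction g G) {a b : V} (hab : G.Adj a b) : Embeds g (G.deleteEdges {s(a, b)}) := by
  refine obstruction_minor h (ObsBasic_minor id Function.injective_id fun x y hxy => ?_) ?_
  · exact (SimpleGraph.deleteEdges_adj.1 hxy).1
  · rintro ⟨e⟩
    have h2 := Nat.card_congr e.mapEdgeSet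
    have h3 : Nat.card (G.deleteEdges {s(a, b)}).edgeSet < Nat.card G.edgeSet := by
      rw [Nat.card_coe_set_eq, Nat.card_coe_set_eq]
      refine Set.ncard_lt_ncard ?_ (Set.toFinite _)
      rw [SimpleGraph.edgeSet_deleteEdges]
      refine ⟨Set.sdiff_subset, fun h4 => ?_⟩
      exact (h4 hab).2 rfl
    omega

/-- an obstruction for `S_g` embeds in `S_(g+1)` (`obstruction_del`, `embeds_add_edge`) -/
theorem obstruction_embeds_succ {V : Type*} [Finite V] {G : SimpleGraph V} {g : ℕ}
    (h : IsObstruction g G) : Embeds (g + 1) G := by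
  have h1 : G ≠ ⊥ := by
    rintro rfl
    exact h.1 (embeds_bot g)
  obtain ⟨u, v, huv⟩ := SimpleGraph.ne_bot_iff_exists_adj.1 h1
  exact embeds_add_edge huv (obstruction_del h huv)

end Pool.Agent.Lib.MP_72b45c_co.Q
end

section

/-! # MP_72b45c_co, block D (disjoint unions), job D2b: sum of obstructions -/

namespace Pool.Agent.Lib.MP_72b45c_co.Q

open SimpleGraph Equiv Equiv.Perm

theorem conG_sum {V W : Type*} (G : SimpleGraph V) (H : SimpleGraph W) (a b : V) :
    conG (G ⊕g H) (Sum.inl a) (Sum.inl b) = (conG G a b) ⊕g H := by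
  ext x y
  rcases x with x | x <;> rcases y with y | y <;> simp [conG, SimpleGraph.sum]
  exact fun h => H.ne_of_adj h

theorem deleteEdges_sum {V W : Type*} (G : SimpleGraph V) (H : SimpleGraph W) (a b : V) :
    (G ⊕g H).deleteEdges {s(Sum.inl a, Sum.inl b)} = (G.deleteEdges {s(a, b)}) ⊕g H := by
  ext x y
  rcases x with x | x <;> rcases y with y | y <;> simp [SimpleGraph.sum, deleteEdges_adj]

private theorem D2b_conG_sum {V W : Type*} (G : SimpleGraph V) (H : SimpleGraph W) (a b : W) :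
    conG (G ⊕g H) (Sum.inr a) (Sum.inr b) = G ⊕g (conG H a b) := by
  ext x y
  rcases x with x | x <;> rcases y with y | y <;> simp [conG, SimpleGraph.sum]
  exact fun h => G.ne_of_adj h

private theorem D2b_deleteEdges_sum {V W : Type*} (G : SimpleGraph V) (H : SimpleGraph W)
    (a b : W) :
    (G ⊕g H).deleteEdges {s(Sum.inr a, Sum.inr b)} = G ⊕g (H.deleteEdges {s(a, b)}) := by
  ext x y
  rcases x with x | x <;> rcases y with y | y <;> simp [SimpleGraph.sum, deleteEdges_adj]

/-- Not embeddable: `embeds_of_sum`. A proper minor is a minor of the sum with one edge contracted or deleted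
(`minor_cases`); the edge is in `G` (then `embeds_sum` for `g₁` and `g₂ + 1`) or in `H` (symmetric, `Iso.sumComm`). -/
theorem obstruction_sum {V W : Type*} [Finite V] [Finite W] {G : SimpleGraph V} {H : SimpleGraph W}
    {g₁ g₂ : ℕ} (hG : IsObstruction g₁ G) (hH : IsObstruction g₂ H) :
    IsObstruction (g₁ + g₂ + 1) (G ⊕g H) := by
  refine ⟨fun h => ?_, fun m K hm hne => ?_⟩
  · rcases embeds_of_sum h with h1 | h1
    · exact hG.1 h1
    · exact hH.1 h1
  · have hiso : ∀ v, ∃ w, (G ⊕g H).Adj v w := by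
      rintro (v | v)
      · obtain ⟨w, hw⟩ := obstruction_no_isolated hG v
        exact ⟨Sum.inl w, hw⟩
      · obtain ⟨w, hw⟩ := obstruction_no_isolated hH v
        exact ⟨Sum.inr w, hw⟩
    obtain ⟨a, b, hab, hc⟩ := minor_cases hiso hm hne
    rcases a with a | a <;> rcases b with b | b
    · have hab' : G.Adj a b := hab
      rcases hc with hc | hc
      · rw [conG_sum] at hc
        exact Embeds.mono (embeds_minor hc
          (embeds_sum (obstruction_con hG hab') (obstruction_embeds_succ hH))) (by omega)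
      · rw [deleteEdges_sum] at hc
        exact Embeds.mono (embeds_minor hc
          (embeds_sum (obstruction_del hG hab') (obstruction_embeds_succ hH))) (by omega)
    · exact absurd hab (by simp)
    · exact absurd hab (by simp)
    · have hab' : H.Adj a b := hab
      rcases hc with hc | hc
      · rw [D2b_conG_sum] at hc
        exact Embeds.mono (embeds_minor hc
          (embeds_sum (obstruction_embeds_succ hG) (obstruction_con hH hab'))) (by omega)
      · rw [D2b_deleteEdges_sum] at hc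
        exact Embeds.mono (embeds_minor hc
          (embeds_sum (obstruction_embeds_succ hG) (obstruction_del hH hab'))) (by omega)

end Pool.Agent.Lib.MP_72b45c_co.Q
end

section

/-! # MP_72b45c_co, block D (disjoint unions), job D2c: number of edges -/

namespace Pool.Agent.Lib.MP_72b45c_co.Q

open SimpleGraph Equiv Equiv.Perm

/-- number of edges of a disjoint union -/
theorem card_edgeSet_sum {V W : Type*} [Finite V] [Finite W] (G : SimpleGraph V)
    (H : SimpleGraph W) :
    Nat.card (G ⊕g H).edgeSet = Nat.card G.edgeSet + Nat.card H.edgeSet := by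
  have h1 : (G ⊕g H).edgeSet = Sym2.map Sum.inl '' G.edgeSet ∪ Sym2.map Sum.inr '' H.edgeSet := by
    ext e
    induction e with
    | _ x y =>
      constructor
      · intro h
        have h2 : (G ⊕g H).Adj x y := h
        rcases x with x | x <;> rcases y with y | y
        · refine Or.inl ⟨s(x, y), sum_adj_inl.mp h2, rfl⟩
        · simp at h2
        · simp at h2
        · refine Or.inr ⟨s(x, y), sum_adj_inr.mp h2, rfl⟩
      · rintro (⟨e, he, h3⟩ | ⟨e, he, h3⟩)
        · rw [← h3]
          induction e with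
          | _ a b =>
            have h4 : (G ⊕g H).Adj (Sum.inl a) (Sum.inl b) := sum_adj_inl.mpr he
            exact h4
        · rw [← h3]
          induction e with
          | _ a b =>
            have h4 : (G ⊕g H).Adj (Sum.inr a) (Sum.inr b) := sum_adj_inr.mpr he
            exact h4
  have h2 : Disjoint (Sym2.map Sum.inl '' G.edgeSet : Set (Sym2 (V ⊕ W))) (Sym2.map Sum.inr '' H.edgeSet) := by
    rw [Set.disjoint_left]
    rintro e ⟨e1, _, h3⟩ ⟨e2, _, h4⟩
    rw [← h4] at h3
    induction e1 with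
    | _ a b =>
      induction e2 with
      | _ c d =>
        rw [Sym2.map_mk, Sym2.map_mk, Sym2.eq_iff] at h3
        rcases h3 with ⟨h5, _⟩ | ⟨h5, _⟩
        · exact Sum.inl_ne_inr h5
        · exact Sum.inl_ne_inr h5
  rw [Nat.card_coe_set_eq, h1, Set.ncard_union_eq h2 (Set.toFinite _) (Set.toFinite _),
    Set.ncard_image_of_injective _ (Sym2.map.injective Sum.inl_injective),
    Set.ncard_image_of_injective _ (Sym2.map.injective Sum.inr_injective),
    Nat.card_coe_set_eq, Nat.card_coe_set_eq]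

end Pool.Agent.Lib.MP_72b45c_co.Q
end

section

/-! # MP_72b45c_co, block D (disjoint unions), job D2: disjoint unions of obstructions are obstructions (parts) -/
end

section

/-! # MP_72b45c_co, block D (disjoint unions), job D3a: copies -/

namespace Pool.Agent.Lib.MP_72b45c_co.Q

open SimpleGraph Equiv Equiv.Perm

/-- disjoint union on `Fin` -/
def plus (A B : Σ n : ℕ, SimpleGraph (Fin n)) : Σ n : ℕ, SimpleGraph (Fin n) :=
  ⟨A.1 + B.1, (A.2 ⊕g B.2).comap finSumFinEquiv.symm⟩

/-- the isomorphism with the sum -/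
def plusIso (A B : Σ n : ℕ, SimpleGraph (Fin n)) : (plus A B).2 ≃g A.2 ⊕g B.2 :=
  SimpleGraph.Iso.comap finSumFinEquiv.symm (A.2 ⊕g B.2)

/-- `k + 1` disjoint copies of `A` -/
def mult (A : Σ n : ℕ, SimpleGraph (Fin n)) : ℕ → Σ n : ℕ, SimpleGraph (Fin n)
  | 0 => A
  | k + 1 => plus A (mult A k)

theorem D3a_side {V W : Type*} {G : SimpleGraph V} {H : SimpleGraph W} {x y : V ⊕ W}
    (h : (G ⊕g H).Adj x y) : x.isLeft = y.isLeft := by
  rcases x with x | x <;> rcases y with y | y
  · rfl
  · simp at h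
  · simp at h
  · rfl

theorem D3a_conn {V W X : Type*} {G : SimpleGraph V} {H : SimpleGraph W} {P : SimpleGraph X}
    (e : P ≃g G ⊕g H) (S : Set X) (hS : (P.induce S).Connected) :
    (∀ x ∈ S, ∃ a, e x = Sum.inl a) ∨
      ((∀ x ∈ S, ∃ b, e x = Sum.inr b) ∧ (H.induce (Sum.inr ⁻¹' (e '' S))).Connected) := by
  obtain ⟨⟨x0, hx0⟩⟩ := hS.nonempty
  have hside : ∀ x ∈ S, (e x).isLeft = (e x0).isLeft := by
    intro x hx
    obtain ⟨p⟩ := hS.preconnected ⟨x, hx⟩ ⟨x0, hx0⟩
    have key : ∀ (a b : S), (P.induce S).Walk a b → (e a.1).isLeft = (e b.1).isLeft := by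
      intro a b p
      induction p with
      | nil => rfl
      | @cons u v w h p ih =>
        have h1 : P.Adj u.1 v.1 := h
        have h2 := D3a_side (e.map_adj_iff.mpr h1)
        exact h2.trans ih
    exact key _ _ p
  by_cases h0 : (e x0).isLeft = true
  · left
    intro x hx
    exact Sum.isLeft_iff.mp ((hside x hx).trans h0)
  · right
    have hr : ∀ x ∈ S, ∃ b, e x = Sum.inr b := by
      intro x hx
      have h1 : (e x).isLeft = false := (hside x hx).trans (Bool.not_eq_true _ ▸ h0)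
      exact Sum.isRight_iff.mp (Sum.isLeft_eq_false.mp h1)
    refine ⟨hr, ?_⟩
    have hy : ∀ x : S, ∃ b, e x.1 = Sum.inr b := fun x => hr x.1 x.2
    choose y hy using hy
    have hyS : ∀ x : S, y x ∈ Sum.inr ⁻¹' (e '' S) := fun x => ⟨x.1, x.2, hy x⟩
    refine { preconnected := ?_, nonempty := ⟨⟨y ⟨x0, hx0⟩, hyS _⟩⟩ }
    rintro ⟨b, x, hx, hb⟩ ⟨b', x', hx', hb'⟩
    have h1 := L6e_reach (G₁ := P.induce S) (G₂ := H.induce (Sum.inr ⁻¹' (e '' S)))
      (fun x => (⟨y x, hyS x⟩ : ↥(Sum.inr ⁻¹' (e '' S)))) (fun u v huv => by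
        refine Adj.reachable ?_
        have h2 : P.Adj u.1 v.1 := huv
        have h3 := e.map_adj_iff.mpr h2
        rw [hy u, hy v] at h3
        have h4 : H.Adj (y u) (y v) := sum_adj_inr.mp h3
        exact h4) (hS.preconnected ⟨x, hx⟩ ⟨x', hx'⟩)
    have e1 : y ⟨x, hx⟩ = b := Sum.inr_injective ((hy ⟨x, hx⟩).symm.trans hb)
    have e2 : y ⟨x', hx'⟩ = b' := Sum.inr_injective ((hy ⟨x', hx'⟩).symm.trans hb')
    have e3 : (⟨y ⟨x, hx⟩, hyS _⟩ : ↥(Sum.inr ⁻¹' (e '' S))) = ⟨b, x, hx, hb⟩ := Subtype.ext e1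
    have e4 : (⟨y ⟨x', hx'⟩, hyS _⟩ : ↥(Sum.inr ⁻¹' (e '' S))) = ⟨b', x', hx', hb'⟩ := Subtype.ext e2
    rw [← e3, ← e4]
    exact h1

theorem obstruction_mult {A : Σ n : ℕ, SimpleGraph (Fin n)} (hA : IsObstruction 1 A.2) (k : ℕ) :
    IsObstruction (2 * k + 1) (mult A k).2 ∧
      Nat.card (mult A k).2.edgeSet = (k + 1) * Nat.card A.2.edgeSet := by
  induction k with
  | zero =>
    refine ⟨hA, ?_⟩
    rw [Nat.zero_add, Nat.one_mul]
    rfl
  | succ k ih =>
    obtain ⟨h1, h2⟩ := ih
    have e := plusIso A (mult A k)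
    have h3 := obstruction_sum hA h1
    have h4 : 1 + (2 * k + 1) + 1 = 2 * (k + 1) + 1 := by ring
    rw [h4] at h3
    refine ⟨isObstruction_iso e.symm h3, ?_⟩
    have h5 : Nat.card (plus A (mult A k)).2.edgeSet = Nat.card (A.2 ⊕g (mult A k).2).edgeSet :=
      Nat.card_congr e.mapEdgeSet
    change Nat.card (plus A (mult A k)).2.edgeSet = _
    rw [h5, card_edgeSet_sum, h2]
    ring

/-- connected sets of `mult A k` have at most `A.1` vertices: a connected set of a disjoint union lies in one of the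
two sides -/
theorem connected_mult (A : Σ n : ℕ, SimpleGraph (Fin n)) (k : ℕ) (S : Set (Fin (mult A k).1))
    (hS : ((mult A k).2.induce S).Connected) : S.ncard ≤ A.1 := by
  induction k with
  | zero =>
    have h1 := Set.ncard_le_card S
    rw [Nat.card_fin] at h1
    exact h1
  | succ k ih =>
    have e : (mult A (k + 1)).2 ≃g A.2 ⊕g (mult A k).2 := plusIso A (mult A k)
    have hn : (e '' S).ncard = S.ncard := Set.ncard_image_of_injective S e.injective
    rcases D3a_conn e S hS with h | ⟨h, hc⟩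
    · have h1 : e '' S ⊆ Set.range Sum.inl := by
        rintro _ ⟨x, hx, rfl⟩
        obtain ⟨a, ha⟩ := h x hx
        exact ⟨a, ha.symm⟩
      have h2 := Set.ncard_le_ncard h1 (Set.toFinite _)
      rw [hn, ← Set.image_univ, Set.ncard_image_of_injective _ Sum.inl_injective, Set.ncard_univ,
        Nat.card_fin] at h2
      exact h2
    · have h1 := ih _ hc
      have h2 : Sum.inr '' (Sum.inr ⁻¹' (e '' S)) = e '' S := by
        refine Set.image_preimage_eq_of_subset ?_
        rintro _ ⟨x, hx, rfl⟩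
        obtain ⟨b, hb⟩ := h x hx
        exact ⟨b, hb.symm⟩
      rw [← hn, ← h2, Set.ncard_image_of_injective _ Sum.inr_injective]
      exact h1

end Pool.Agent.Lib.MP_72b45c_co.Q
end

section

/-! # MP_72b45c_co, block D (disjoint unions), job D3b: cancellation -/

namespace Pool.Agent.Lib.MP_72b45c_co.Q

open SimpleGraph Equiv Equiv.Perm

/-- Adjacent vertices of the left summand go to the same side. -/
private theorem D3b_adj {V V' W W' : Type*}
    {G : SimpleGraph V} {G' : SimpleGraph V'} {D : SimpleGraph W} {D' : SimpleGraph W'}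
    (F : G ⊕g D ≃g G' ⊕g D') (u v : V) (h : G.Adj u v) :
    (F (Sum.inl u)).isLeft = (F (Sum.inl v)).isLeft := by
  have h1 : (G ⊕g D).Adj (Sum.inl u) (Sum.inl v) := sum_adj_inl.2 h
  have h2 : (G' ⊕g D').Adj (F (Sum.inl u)) (F (Sum.inl v)) := F.map_adj_iff.2 h1
  rcases hu : F (Sum.inl u) with a | a <;> rcases hv : F (Sum.inl v) with b | b
  · rfl
  · rw [hu, hv] at h2
    simp at h2
  · rw [hu, hv] at h2
    simp at h2
  · rfl

private theorem D3b_reach {V V' W W' : Type*}
    {G : SimpleGraph V} {G' : SimpleGraph V'} {D : SimpleGraph W} {D' : SimpleGraph W'}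
    (F : G ⊕g D ≃g G' ⊕g D') (u v : V) (h : G.Reachable u v) :
    (F (Sum.inl u)).isLeft = (F (Sum.inl v)).isLeft := by
  obtain ⟨p⟩ := h
  induction p with
  | nil => rfl
  | cons h _ ih => exact (D3b_adj F _ _ h).trans ih

/-- A large connected left summand goes to the left summand. -/
private theorem D3b_left {V V' W W' : Type*} [Finite W']
    {G : SimpleGraph V} {G' : SimpleGraph V'} {D : SimpleGraph W} {D' : SimpleGraph W'} {M : ℕ}
    (hG : G.Connected) (hV : M < Nat.card V)
    (hD' : ∀ S : Set W', (D'.induce S).Connected → S.ncard ≤ M)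
    (F : G ⊕g D ≃g G' ⊕g D') (v : V) : ∃ v' : V', F (Sum.inl v) = Sum.inl v' := by
  rcases hv : F (Sum.inl v) with a | a
  · exact ⟨a, rfl⟩
  · exfalso
    have h1 : ∀ u : V, ∃ b : W', F (Sum.inl u) = Sum.inr b := by
      intro u
      have h2 := D3b_reach F v u (hG.preconnected v u)
      rw [hv] at h2
      rcases hu : F (Sum.inl u) with b | b
      · rw [hu] at h2
        simp at h2
      · exact ⟨b, rfl⟩
    choose h hh using h1
    have hinj : Function.Injective h := by
      intro x y hxy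
      have h3 : F (Sum.inl x) = F (Sum.inl y) := by rw [hh x, hh y, hxy]
      exact Sum.inl_injective (F.injective h3)
    have hadj : ∀ x y : V, G.Adj x y → D'.Adj (h x) (h y) := by
      intro x y hxy
      have h4 : (G' ⊕g D').Adj (F (Sum.inl x)) (F (Sum.inl y)) := F.map_adj_iff.2 (sum_adj_inl.2 hxy)
      rw [hh x, hh y] at h4
      exact sum_adj_inr.1 h4
    let f : G →g D'.induce (Set.range h) :=
      ⟨fun x => ⟨h x, x, rfl⟩, fun {x y} hxy => hadj x y hxy⟩
    have hf : Function.Surjective f := by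
      rintro ⟨_, x, rfl⟩
      exact ⟨x, rfl⟩
    have h5 := hD' (Set.range h) (hG.map f hf)
    have h6 : (Set.range h).ncard = Nat.card V := by
      rw [← Set.image_univ, Set.ncard_image_of_injective _ hinj, Set.ncard_univ]
    omega

/-- Cancellation. The image of the left summand under the isomorphism is connected with more than `M` vertices, so
it lies in the left summand; the same for the inverse. -/
theorem sum_cancel {V V' W W' : Type*} [Finite V] [Finite V'] [Finite W] [Finite W']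
    {G : SimpleGraph V} {G' : SimpleGraph V'} {D : SimpleGraph W} {D' : SimpleGraph W'} {M : ℕ}
    (hG : G.Connected) (hG' : G'.Connected) (hV : M < Nat.card V) (hV' : M < Nat.card V')
    (hD : ∀ S : Set W, (D.induce S).Connected → S.ncard ≤ M)
    (hD' : ∀ S : Set W', (D'.induce S).Connected → S.ncard ≤ M)
    (F : G ⊕g D ≃g G' ⊕g D') : Nonempty (G ≃g G') := by
  choose f hf using D3b_left hG hV hD' F
  choose g hg using D3b_left hG' hV' hD F.symm
  have hgf : Function.LeftInverse g f := by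
    intro v
    have h1 := hg (f v)
    rw [← hf v, RelIso.symm_apply_apply] at h1
    exact (Sum.inl_injective h1).symm
  have hfg : Function.RightInverse g f := by
    intro v
    have h1 := hf (g v)
    rw [← hg v, RelIso.apply_symm_apply] at h1
    exact (Sum.inl_injective h1).symm
  refine ⟨⟨⟨f, g, hgf, hfg⟩, ?_⟩⟩
  intro a b
  have h2 : (G' ⊕g D').Adj (F (Sum.inl a)) (F (Sum.inl b)) ↔ (G ⊕g D).Adj (Sum.inl a) (Sum.inl b) :=
    F.map_adj_iff
  rw [hf a, hf b, sum_adj_inl, sum_adj_inl] at h2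
  exact h2

end Pool.Agent.Lib.MP_72b45c_co.Q
end

section

/-! # MP_72b45c_co, block D (disjoint unions), job D3: sums on `Fin n`, cancellation (parts) -/
end

section

/-! # MP_72b45c_co, block D (disjoint unions), job D4a: connected, many vertices -/

namespace Pool.Agent.Lib.MP_72b45c_co.Q

open SimpleGraph Equiv Equiv.Perm

/-- the graph of the black cells is connected (`reachable_black`; there is a black cell) -/
theorem BB_connected {n : ℕ} {u : List ℕ} (hn : Even n) (h4 : 4 ≤ n) (h : Red n u) :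
    (BB n u).Connected := by
  have hstep : ∀ (c : Fin (u.length + 1)) (hc : col u c = 1) (v : Fin (u.length + 1)),
      (BG n u 1).Walk c v → ∃ hv : col u v = 1, (BB n u).Reachable ⟨c, hc⟩ ⟨v, hv⟩ := by
    intro c hc v w
    induction w with
    | nil => exact ⟨hc, Reachable.refl _⟩
    | @cons a b d hab w ih =>
      have hb : col u b = 1 := (black_of_adj hn h4 h hab).2
      obtain ⟨hv, hr⟩ := ih hb
      refine ⟨hv, Reachable.trans (Adj.reachable ?_) hr⟩
      exact hab
  have hpre : (BB n u).Preconnected := by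
    rintro ⟨c, hc⟩ ⟨c', hc'⟩
    obtain ⟨w⟩ := reachable_black hn h4 h hc hc'
    obtain ⟨_, hr⟩ := hstep c hc c' w
    exact hr
  have hne : Nonempty {c : Fin (u.length + 1) // col u c = 1} := by
    have hm : 1 ∈ u := h.mem (le_refl 1) (by omega)
    obtain ⟨i, hi, hi1⟩ := List.getElem_of_mem hm
    refine ⟨⟨⟨i + 1, by omega⟩, ?_⟩⟩
    unfold col
    rw [if_neg (by simp)]
    simp only [Nat.add_sub_cancel]
    rw [List.getD_eq_getElem _ _ hi, hi1]
  exact (connected_iff _).mpr ⟨hpre, hne⟩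

/-- `8 h² - 2 h` edges and `≤ V (V - 1) / 2` (simple graph), so `V² ≥ 16 h² - 4 h` -/
theorem card_black_ge {h : ℕ} {u : List ℕ} (hh : 2 ≤ h) (hu : Red (4 * h) u) :
    3 * h ≤ Nat.card {c : Fin (u.length + 1) // col u c = 1} := by
  classical
  have h1 : Nat.card (Blk (4 * h) u).edgeSet = 8 * h ^ 2 - 2 * h :=
    (card_edgeSet_Blk ⟨2 * h, by ring⟩ (by omega) hu).trans (length_red hu)
  have h2 : Nat.card (Blk (4 * h) u).edgeSet ≤
      (Nat.card {c : Fin (u.length + 1) // col u c = 1}).choose 2 := by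
    rw [Nat.card_eq_fintype_card (α := {c : Fin (u.length + 1) // col u c = 1}), Nat.card_eq_fintype_card,
      ← SimpleGraph.edgeFinset_card]
    exact SimpleGraph.card_edgeFinset_le_card_choose_two
  rw [h1] at h2
  by_contra h3
  push Not at h3
  set V := Nat.card {c : Fin (u.length + 1) // col u c = 1} with hV
  have h4 : V.choose 2 ≤ (3 * h - 1).choose 2 := Nat.choose_le_choose 2 (by omega)
  have h5 : (3 * h - 1).choose 2 = (3 * h - 1) * (3 * h - 1 - 1) / 2 := Nat.choose_two_right _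
  have h6 : (3 * h - 1) * (3 * h - 1 - 1) / 2 ≤ (3 * h - 1) * (3 * h - 1 - 1) := Nat.div_le_self _ _
  have h7 : 2 * ((3 * h - 1) * (3 * h - 1 - 1) / 2) ≤ (3 * h - 1) * (3 * h - 1 - 1) :=
    Nat.mul_div_le _ _
  have h8 : 8 * h ^ 2 - 2 * h ≤ (3 * h - 1) * (3 * h - 1 - 1) / 2 := by
    rw [← h5]
    exact h2.trans h4
  obtain ⟨k, rfl⟩ : ∃ k, h = k + 2 := ⟨h - 2, by omega⟩
  have e1 : 3 * (k + 2) - 1 = 3 * k + 5 := by omega
  have e2 : 3 * k + 5 - 1 = 3 * k + 4 := by omega
  rw [e1, e2] at h7 h8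
  have e3 : 8 * (k + 2) ^ 2 - 2 * (k + 2) = 8 * k ^ 2 + 30 * k + 28 := by
    have : 8 * (k + 2) ^ 2 = 8 * k ^ 2 + 30 * k + 28 + 2 * (k + 2) := by ring
    omega
  rw [e3] at h8
  nlinarith

end Pool.Agent.Lib.MP_72b45c_co.Q
end

section

/-! # MP_72b45c_co, block D (disjoint unions), job D4b: many unions -/

namespace Pool.Agent.Lib.MP_72b45c_co.Q

open SimpleGraph Equiv Equiv.Perm

/-- a type of small graphs used below -/
private theorem D4b_A :
    ∀ {u0 : List ℕ}, Red (4 * 2) u0 →
      Nat.card {c : Fin (u0.length + 1) // col u0 c = 1} ≤ 29 := by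
  intro u0 hu0
  have h1 : u0.length = 8 * 2 ^ 2 - 2 * 2 := length_red hu0
  have h2 := Nat.card_le_card_of_injective
    (Subtype.val : {c : Fin (u0.length + 1) // col u0 c = 1} → Fin (u0.length + 1))
    Subtype.val_injective
  rw [Nat.card_eq_fintype_card (α := Fin (u0.length + 1)), Fintype.card_fin] at h2
  omega

/-- Unions of a graph `FG (4 q) u` with `k + 1` copies of an obstruction `A` for `S_1` with `28` edges (`A = FG 8 u0`, at most `28`
vertices): `obstruction_sum`, `obstruction_mult`, genus `(q - 1) + (2 k + 1) + 1 = q + 2 k + 1`. Different classes of the `FG (4 q) u` give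
different classes of the unions (`sum_cancel` with `M = 28`, `connected_mult`, `card_black_ge`, `BB_connected`). -/
theorem union_injective
    (hobs : ∀ h, 2 ≤ h → ∀ u, Red (4 * h) u → IsObstruction (h - 1) (FG (4 * h) u) ∧
      Nat.card (FG (4 * h) u).edgeSet = 8 * h ^ 2 - 2 * h)
    (q k : ℕ) (hq : 10 ≤ q) (S : Set (Quotient isoSetoid))
    (hS : ∀ c ∈ S, ∃ u, Red (4 * q) u ∧
      c = Quotient.mk isoSetoid (⟨_, FG (4 * q) u⟩ : Σ n : ℕ, SimpleGraph (Fin n))) :
    S.ncard ≤ (ObsUpTo (q + 2 * k + 1) (8 * q ^ 2 + 28 * (k + 1))).ncard := by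
  classical
  obtain ⟨u0, hu0⟩ := exists_red (4 * 2)
  obtain ⟨hA1, hA2⟩ := hobs 2 le_rfl u0 hu0
  obtain ⟨A, hAd⟩ : ∃ A : Σ n : ℕ, SimpleGraph (Fin n), A = ⟨_, FG (4 * 2) u0⟩ := ⟨_, rfl⟩
  have hA1' : IsObstruction 1 A.2 := by
    rw [hAd]
    exact hA1
  have hA2' : Nat.card A.2.edgeSet = 28 := by
    rw [hAd]
    exact hA2
  have hA3 : A.1 ≤ 29 := by
    rw [hAd]
    exact D4b_A hu0
  obtain ⟨hD1, hD2⟩ := obstruction_mult hA1' k
  have hDc : ∀ T : Set (Fin (mult A k).1), ((mult A k).2.induce T).Connected → T.ncard ≤ 29 :=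
    fun T hT => (connected_mult A k T hT).trans hA3
  -- the choice of words
  have hch : ∀ c : Quotient isoSetoid, ∃ u, c ∈ S → Red (4 * q) u ∧
      c = Quotient.mk isoSetoid (⟨_, FG (4 * q) u⟩ : Σ n : ℕ, SimpleGraph (Fin n)) := by
    intro c
    by_cases hc : c ∈ S
    · obtain ⟨u, hu⟩ := hS c hc
      exact ⟨u, fun _ => hu⟩
    · exact ⟨[], fun h => absurd h hc⟩
  choose w hw using hch
  refine Set.ncard_le_ncard_of_injOn (fun c => Quotient.mk isoSetoid
    (plus (⟨_, FG (4 * q) (w c)⟩ : Σ n : ℕ, SimpleGraph (Fin n)) (mult A k))) ?_ ?_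
    (obsUpTo_finite _ _)
  · intro c hc
    obtain ⟨h1, h2⟩ := hw c hc
    obtain ⟨h3, h4⟩ := hobs q (by omega) _ h1
    refine ⟨_, rfl, ?_, ?_⟩
    · have h5 := obstruction_sum h3 hD1
      have h6 : q - 1 + (2 * k + 1) + 1 = q + 2 * k + 1 := by omega
      rw [h6] at h5
      exact isObstruction_iso (plusIso _ _).symm h5
    · rw [Nat.card_congr (plusIso _ _).mapEdgeSet, card_edgeSet_sum]
      have h7 : Nat.card (FG (4 * q) (w c)).edgeSet = 8 * q ^ 2 - 2 * q := h4
      have h8 : 8 * q ^ 2 - 2 * q ≤ 8 * q ^ 2 := Nat.sub_le _ _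
      rw [hD2, hA2']
      show Nat.card (FG (4 * q) (w c)).edgeSet + _ ≤ _
      rw [h7]
      linarith
  · intro c hc c' hc' heq
    obtain ⟨h1, h2⟩ := hw c hc
    obtain ⟨h1', h2'⟩ := hw c' hc'
    rw [h2, h2']
    apply Quotient.sound
    have h3 := Quotient.exact heq
    obtain ⟨F⟩ := h3
    have hconn : ∀ {u : List ℕ}, Red (4 * q) u → (FG (4 * q) u).Connected := fun hu =>
      ((FGiso (4 * q) _).connected_iff).2 (BB_connected ⟨2 * q, by ring⟩ (by omega) hu)
    have hcard : ∀ {u : List ℕ}, Red (4 * q) u →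
        29 < Nat.card (Fin (Nat.card {c : Fin (u.length + 1) // col u c = 1})) := by
      intro u hu
      rw [Nat.card_eq_fintype_card (α := Fin _), Fintype.card_fin]
      have := card_black_ge (h := q) (by omega) hu
      omega
    exact sum_cancel (hconn h1) (hconn h1') (hcard h1) (hcard h1') hDc hDc
      (((plusIso _ _).symm.trans F).trans (plusIso _ _))

/-- `many_classes` and `union_injective` -/
theorem many_unions
    (hobs : ∀ h, 2 ≤ h → ∀ u, Red (4 * h) u → IsObstruction (h - 1) (FG (4 * h) u) ∧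
      Nat.card (FG (4 * h) u).edgeSet = 8 * h ^ 2 - 2 * h)
    (q k m : ℕ) (hq : 10 ≤ q) (hm : 18 * m + 17 ≤ 2 * q) :
    2 ^ (m * (q / 4 - 6)) ≤ (8 * q ^ 2) ^ (3 * m) *
      (ObsUpTo (q + 2 * k + 1) (8 * q ^ 2 + 28 * (k + 1))).ncard := by
  obtain ⟨uw, h1, h2⟩ := many_classes q m hm
  refine h2.trans (Nat.mul_le_mul_left _ (union_injective hobs q k hq _ ?_))
  rintro c ⟨w, rfl⟩
  exact ⟨uw w, h1 w, rfl⟩

/-- as in `lower_arith` -/
theorem unions_real
    (hobs : ∀ h, 2 ≤ h → ∀ u, Red (4 * h) u → IsObstruction (h - 1) (FG (4 * h) u) ∧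
      Nat.card (FG (4 * h) u).edgeSet = 8 * h ^ 2 - 2 * h) :
    ∃ q₀ : ℕ, ∀ q ≥ q₀, ∀ k : ℕ, (2 : ℝ) ^ (((q : ℝ) - 1) ^ 2 / 40) ≤
      (ObsUpTo (q + 2 * k + 1) (8 * q ^ 2 + 28 * (k + 1))).ncard := by
  obtain ⟨g₀, hg⟩ := lower_arith
  refine ⟨g₀ + 10, fun q hq k => ?_⟩
  obtain ⟨g, rfl⟩ : ∃ g, q = g + 1 := ⟨q - 1, by omega⟩
  have h1 := hg g (by omega) (ObsUpTo (g + 1 + 2 * k + 1) (8 * (g + 1) ^ 2 + 28 * (k + 1))).ncard
    (fun m hm => many_unions hobs (g + 1) k m (by omega) hm)
  have h2 : (((g + 1 : ℕ) : ℝ) - 1) = (g : ℝ) := by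
    push_cast
    ring
  rw [h2]
  exact h1

end Pool.Agent.Lib.MP_72b45c_co.Q
end

section

/-! # MP_72b45c_co, block D (disjoint unions), job D4c: lower bound for all e -/

namespace Pool.Agent.Lib.MP_72b45c_co.Q

open SimpleGraph Equiv Equiv.Perm

/-- For `40 g ≤ e ≤ C g²` (`g` large) take `q ≡ g + 1 mod 2`, `10 ≤ q ≤ g - 1`, `16 q² ≤ e`, as large as possible, `k = (g - 1 - q) / 2`:
`8 q² + 14 (g + 1 - q) ≤ e / 2 + 14 (g + 1) ≤ e`, `q ≥ min (g - 2) (√e / 4 - 2)`, so `(q - 1)² / 40 ≥ c e`. (`obsUpTo_mono`.) -/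
theorem lower_e
    (hobs : ∀ h, 2 ≤ h → ∀ u, Red (4 * h) u → IsObstruction (h - 1) (FG (4 * h) u) ∧
      Nat.card (FG (4 * h) u).edgeSet = 8 * h ^ 2 - 2 * h) (C : ℝ) (hC : 0 < C) :
    ∃ c : ℝ, 0 < c ∧ ∃ g₀ : ℕ, ∀ g ≥ g₀, ∀ e : ℕ, 40 * g ≤ e → (e : ℝ) ≤ C * (g : ℝ) ^ 2 →
      (2 : ℝ) ^ (c * e) ≤ (ObsUpTo g e).ncard := by
  obtain ⟨q₀, hq₀⟩ := unions_real hobs
  refine ⟨min (1 / 2560) (1 / (160 * C)), by positivity, (q₀ + 1) ^ 2 + 10, ?_⟩
  intro g hg e he heC
  have hg10 : 10 ≤ g := by omega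
  have hgq : q₀ + 1 ≤ (q₀ + 1) ^ 2 := Nat.le_self_pow (by norm_num) _
  obtain ⟨s, hs⟩ : ∃ s, s = Nat.sqrt (e / 16) := ⟨_, rfl⟩
  have hs1 : s ^ 2 ≤ e / 16 := hs ▸ Nat.sqrt_le' _
  have hs2 : e / 16 < (s + 1) ^ 2 := hs ▸ Nat.lt_succ_sqrt' _
  have hs3 : q₀ + 1 ≤ s := by
    rw [hs, Nat.le_sqrt', Nat.le_div_iff_mul_le (by norm_num)]
    omega
  have hs5 : 5 ≤ s := by
    rw [hs, Nat.le_sqrt', Nat.le_div_iff_mul_le (by norm_num)]
    omega
  have hs4 : 16 * s ^ 2 ≤ e := by omega
  have hs6 : e < 16 * (s + 1) ^ 2 := by omega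
  obtain ⟨m, hm⟩ : ∃ m, m = min (g - 1) s := ⟨_, rfl⟩
  have hm1 : m ≤ g - 1 := hm ▸ min_le_left _ _
  have hm2 : m ≤ s := hm ▸ min_le_right _ _
  have hm3 : 1 ≤ m := by
    rw [hm]
    exact le_min (by omega) (by omega)
  obtain ⟨q, k, h1, h2, h3⟩ : ∃ q k, q ≤ m ∧ m ≤ q + 1 ∧ q + 2 * k + 1 = g := by
    rcases Nat.even_or_odd (g - 1 - m) with ⟨r, hr⟩ | ⟨r, hr⟩
    · exact ⟨m, r, le_rfl, by omega, by omega⟩
    · exact ⟨m - 1, r + 1, by omega, by omega, by omega⟩
  have hq : q₀ ≤ q := by
    have : q₀ + 1 ≤ m := by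
      rw [hm]
      exact le_min (by omega) hs3
    omega
  have h4 := hq₀ q hq k
  rw [h3] at h4
  have hqs : q ^ 2 ≤ s ^ 2 := Nat.pow_le_pow_left (h1.trans hm2) 2
  have h5 : 8 * q ^ 2 + 28 * (k + 1) ≤ e := by omega
  have h6 : (ObsUpTo g (8 * q ^ 2 + 28 * (k + 1))).ncard ≤ (ObsUpTo g e).ncard :=
    Set.ncard_le_ncard (obsUpTo_mono g h5) (obsUpTo_finite g e)
  refine le_trans ?_ (h4.trans (by exact_mod_cast h6))
  refine Real.rpow_le_rpow_of_exponent_le (by norm_num) ?_
  have he0 : (0 : ℝ) ≤ e := Nat.cast_nonneg e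
  rcases le_total (g - 1) s with h7 | h7
  · have hm4 : m = g - 1 := by rw [hm, min_eq_left h7]
    have h8 : (g : ℝ) ≤ q + 2 := by
      have : g ≤ q + 2 := by omega
      exact_mod_cast this
    have h9 : (10 : ℝ) ≤ g := by exact_mod_cast hg10
    have h10 : ((g : ℝ) / 2) ^ 2 ≤ ((q : ℝ) - 1) ^ 2 :=
      pow_le_pow_left₀ (by linarith) (by linarith) 2
    have h11 : min (1 / 2560) (1 / (160 * C)) * (e : ℝ) ≤ 1 / (160 * C) * (C * (g : ℝ) ^ 2) :=
      mul_le_mul (min_le_right _ _) heC he0 (by positivity)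
    have h12 : 1 / (160 * C) * (C * (g : ℝ) ^ 2) = (g : ℝ) ^ 2 / 160 := by
      field_simp
    rw [h12] at h11
    nlinarith
  · have hm4 : m = s := by rw [hm, min_eq_right h7]
    have h8 : (s : ℝ) ≤ q + 1 := by
      have : s ≤ q + 1 := by omega
      exact_mod_cast this
    have h9 : (5 : ℝ) ≤ s := by exact_mod_cast hs5
    have h10 : (((s : ℝ) + 1) / 2) ^ 2 ≤ ((q : ℝ) - 1) ^ 2 :=
      pow_le_pow_left₀ (by linarith) (by linarith) 2
    have h13 : (e : ℝ) ≤ 16 * ((s : ℝ) + 1) ^ 2 := by exact_mod_cast hs6.le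
    have h11 : min (1 / 2560) (1 / (160 * C)) * (e : ℝ) ≤ 1 / 2560 * (16 * ((s : ℝ) + 1) ^ 2) :=
      mul_le_mul (min_le_left _ _) h13 he0 (by norm_num)
    nlinarith

end Pool.Agent.Lib.MP_72b45c_co.Q
end

section

/-! # MP_72b45c_co, block D (disjoint unions), job D4d: two-parameter theorem -/

namespace Pool.Agent.Lib.MP_72b45c_co.Q

open SimpleGraph Equiv Equiv.Perm

theorem two_pow_of_rpow_self {g : ℕ} (hg : 1 ≤ g) :
    (2 : ℝ) ^ ((g : ℝ) * Real.log g) ≤ (g : ℝ) ^ (g : ℝ) := by
  have hg' : (0 : ℝ) < g := by exact_mod_cast hg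
  have hl : 0 ≤ Real.log g := Real.log_nonneg (by exact_mod_cast hg)
  rw [Real.rpow_def_of_pos (by norm_num : (0 : ℝ) < 2), Real.rpow_def_of_pos hg']
  apply Real.exp_le_exp.mpr
  have h2 := Real.log_two_lt_d9
  have h3 : 0 ≤ (g : ℝ) * Real.log g := mul_nonneg hg'.le hl
  nlinarith

theorem rpow_self_le_two_pow {g : ℕ} (hg : 1 ≤ g) :
    (g : ℝ) ^ (g : ℝ) ≤ (2 : ℝ) ^ (2 * ((g : ℝ) * Real.log g)) := by
  have hg' : (0 : ℝ) < g := by exact_mod_cast hg
  have hl : 0 ≤ Real.log g := Real.log_nonneg (by exact_mod_cast hg)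
  rw [Real.rpow_def_of_pos (by norm_num : (0 : ℝ) < 2), Real.rpow_def_of_pos hg']
  apply Real.exp_le_exp.mpr
  have h2 := Real.log_two_gt_d9
  have h3 : 0 ≤ (g : ℝ) * Real.log g := mul_nonneg hg'.le hl
  nlinarith

theorem upper_half {g e : ℕ} (hg : 3 ≤ g) (he : 1 ≤ e) :
    ((ObsUpTo g e).ncard : ℝ) ≤ (2 : ℝ) ^ (20 * ((e : ℝ) + g * Real.log g)) := by
  have h1 := obsUpTo_ncard_le g e
  have h2 : 2 * e + 1 ≤ 2 ^ (2 * e) := by
    have : ∀ m : ℕ, 1 ≤ m → 2 * m + 1 ≤ 4 ^ m := by
      intro m hm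
      induction m, hm using Nat.le_induction with
      | base => norm_num
      | succ m hm ih => rw [pow_succ]; omega
    rw [pow_mul]
    exact this e he
  have h3 : (2 * e + 1) ^ 4 ≤ 2 ^ (8 * e) := by
    calc (2 * e + 1) ^ 4 ≤ (2 ^ (2 * e)) ^ 4 := Nat.pow_le_pow_left h2 4
      _ = 2 ^ (8 * e) := by rw [← pow_mul]; ring_nf
  have h4 : 54 ^ (2 * e) ≤ 2 ^ (12 * e) := by
    calc 54 ^ (2 * e) ≤ (2 ^ 6) ^ (2 * e) := Nat.pow_le_pow_left (by norm_num) _
      _ = 2 ^ (12 * e) := by rw [← pow_mul]; ring_nf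
  have h5 : (2 * g + 1) ^ (2 * g) ≤ (g ^ g) ^ 4 := by
    calc (2 * g + 1) ^ (2 * g) ≤ (g ^ 2) ^ (2 * g) := Nat.pow_le_pow_left (by nlinarith) _
      _ = (g ^ g) ^ 4 := by rw [← pow_mul, ← pow_mul]; ring_nf
  have h6 : (ObsUpTo g e).ncard ≤ 2 ^ (8 * e) * (2 ^ (12 * e) * (g ^ g) ^ 4) :=
    h1.trans (Nat.mul_le_mul h3 (Nat.mul_le_mul h4 h5))
  have h7 : ((ObsUpTo g e).ncard : ℝ) ≤ 2 ^ (8 * e) * (2 ^ (12 * e) * ((g : ℝ) ^ g) ^ 4) := by
    exact_mod_cast h6
  have h8 : ((g : ℝ) ^ g) ^ 4 ≤ (2 : ℝ) ^ (8 * ((g : ℝ) * Real.log g)) := by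
    have h9 := rpow_self_le_two_pow (g := g) (by omega)
    rw [Real.rpow_natCast] at h9
    calc ((g : ℝ) ^ g) ^ 4 ≤ ((2 : ℝ) ^ (2 * ((g : ℝ) * Real.log g))) ^ 4 :=
          pow_le_pow_left₀ (by positivity) h9 4
      _ = (2 : ℝ) ^ (8 * ((g : ℝ) * Real.log g)) := by
          rw [← Real.rpow_natCast, ← Real.rpow_mul (by norm_num)]
          congr 1
          push_cast
          ring
  have hx : 0 ≤ (g : ℝ) * Real.log g :=
    mul_nonneg (Nat.cast_nonneg _) (Real.log_nonneg (by exact_mod_cast (by omega : 1 ≤ g)))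
  calc ((ObsUpTo g e).ncard : ℝ) ≤ 2 ^ (8 * e) * (2 ^ (12 * e) * ((g : ℝ) ^ g) ^ 4) := h7
    _ ≤ 2 ^ (8 * e) * (2 ^ (12 * e) * (2 : ℝ) ^ (8 * ((g : ℝ) * Real.log g))) := by gcongr
    _ = (2 : ℝ) ^ (20 * (e : ℝ) + 8 * ((g : ℝ) * Real.log g)) := by
        rw [← Real.rpow_natCast, ← Real.rpow_natCast, ← Real.rpow_add (by norm_num),
          ← Real.rpow_add (by norm_num)]
        congr 1
        push_cast
        ring
    _ ≤ (2 : ℝ) ^ (20 * ((e : ℝ) + g * Real.log g)) :=
        Real.rpow_le_rpow_of_exponent_le (by norm_num) (by nlinarith)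

/-- The logarithm of the number of obstructions for `S_g` with at most `e` edges has exact order `e + g log g` for
`3 g ≤ e ≤ C g²`. Lower bound: `lower_e` if `e ≥ 40 g`, and `LinearSizeGrowth` (`sharp` in Sharp.lean with `ε = 1`): `g ^ g ≤ |ObsUpTo g e|`
for all `e ≥ 3 g`; take the mean of the two exponents (for `e < 40 g`, `e ≤ g log g` for large `g`). Upper bound:
`obsUpTo_ncard_le`: `4 log (2 e + 1) + 2 e log 54 + 2 g log (2 g + 1) ≤ C' (e + g log g) log 2`. -/
theorem two_parameter
    (hobs : ∀ h, 2 ≤ h → ∀ u, Red (4 * h) u → IsObstruction (h - 1) (FG (4 * h) u) ∧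
      Nat.card (FG (4 * h) u).edgeSet = 8 * h ^ 2 - 2 * h) (C : ℝ) (hC : 0 < C) :
    ∃ c C' : ℝ, 0 < c ∧ 0 < C' ∧ ∃ g₀ : ℕ, ∀ g ≥ g₀, ∀ e : ℕ, 3 * g ≤ e →
      (e : ℝ) ≤ C * (g : ℝ) ^ 2 →
      (2 : ℝ) ^ (c * (e + g * Real.log g)) ≤ (ObsUpTo g e).ncard ∧
      ((ObsUpTo g e).ncard : ℝ) ≤ (2 : ℝ) ^ (C' * (e + g * Real.log g)) := by
  obtain ⟨c₁, hc₁, g₁, h₁⟩ := lower_e hobs C hC
  obtain ⟨δ, -, g₂, h₂⟩ := sharp 1 one_pos
  refine ⟨min c₁ 1 / 2, 20, by positivity, by norm_num,
    max (max g₁ g₂) (max 3 ⌈Real.exp 40⌉₊), fun g hg e he he' => ?_⟩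
  have hg1 : g₁ ≤ g := (le_max_left _ _).trans ((le_max_left _ _).trans hg)
  have hg2 : g₂ ≤ g := (le_max_right _ _).trans ((le_max_left _ _).trans hg)
  have hg3 : 3 ≤ g := (le_max_left _ _).trans ((le_max_right _ _).trans hg)
  have hg4 : Real.exp 40 ≤ g :=
    (Nat.le_ceil _).trans (by exact_mod_cast (le_max_right _ _).trans ((le_max_right _ _).trans hg))
  have hgpos : (0 : ℝ) < g := lt_of_lt_of_le (Real.exp_pos _) hg4
  have hlog : 40 ≤ Real.log g := (Real.le_log_iff_exp_le hgpos).mpr hg4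
  refine ⟨?_, upper_half hg3 (by omega)⟩
  have hB : (2 : ℝ) ^ ((g : ℝ) * Real.log g) ≤ (ObsUpTo g e).ncard := by
    refine (two_pow_of_rpow_self (by omega)).trans ?_
    have h3 := (h₂ g hg2).1 e he
    rwa [show ((2 : ℝ) - 1) * g = g by ring] at h3
  have hx : 0 ≤ (g : ℝ) * Real.log g := by positivity
  have hm1 : min c₁ 1 ≤ c₁ := min_le_left _ _
  have hm2 : min c₁ 1 ≤ 1 := min_le_right _ _
  have hm0 : 0 < min c₁ 1 := by positivity
  have heR : (0 : ℝ) ≤ e := Nat.cast_nonneg _
  by_cases h40 : 40 * g ≤ e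
  · have hA := h₁ g hg1 e h40 he'
    set N : ℝ := ((ObsUpTo g e).ncard : ℝ)
    have h5 : (2 : ℝ) ^ (min c₁ 1 / 2 * (e + g * Real.log g)) ≤
        (2 : ℝ) ^ ((c₁ * e + g * Real.log g) / 2) :=
      Real.rpow_le_rpow_of_exponent_le (by norm_num) (by nlinarith)
    refine h5.trans ?_
    have h6 : ((2 : ℝ) ^ ((c₁ * e + g * Real.log g) / 2)) ^ 2 ≤ N ^ 2 := by
      rw [← Real.rpow_natCast, ← Real.rpow_mul (by norm_num)]
      rw [show (c₁ * (e : ℝ) + g * Real.log g) / 2 * ((2 : ℕ) : ℝ) = c₁ * e + g * Real.log g by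
        push_cast; ring, Real.rpow_add (by norm_num), sq]
      exact mul_le_mul hA hB (by positivity) (Nat.cast_nonneg _)
    exact le_of_sq_le_sq h6 (Nat.cast_nonneg _)
  · refine le_trans (Real.rpow_le_rpow_of_exponent_le (by norm_num) ?_) hB
    have h7 : (e : ℝ) ≤ 40 * g := by exact_mod_cast (not_le.mp h40).le
    have h8 : (e : ℝ) ≤ g * Real.log g := by nlinarith
    nlinarith

end Pool.Agent.Lib.MP_72b45c_co.Q
end

section

/-! # MP_72b45c_co, block D (disjoint unions), job D4: many obstructions with `e` edges, `g ≤ e ≤ g²` (parts) -/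
end
end
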