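import Pool.Agent.Lib.MP_72b45c_co.Q.F1
import Pool.Agent.Lib.MP_72b45c_co.Q.A4

/-! # MP_72b45c_co, block F (final), F2: the final theorems -/

namespace Pool.Agent.Lib.MP_72b45c_co.Q

open SimpleGraph Equiv Equiv.Perm

/-- every reduced word of `w_0 ∈ S_{4h}` gives an excluded minor for `S_{h-1}` with `8h² - 2h` edges, and there are such words -/
theorem theoremA :
    (∀ h : ℕ, 2 ≤ h → ∀ u : List ℕ, Red (4 * h) u → IsObstruction (h - 1) (FG (4 * h) u) ∧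
      Nat.card (FG (4 * h) u).edgeSet = 8 * h ^ 2 - 2 * h) ∧
    ∀ n : ℕ, ∃ u, Red n u :=
  ⟨fun _ hh _ hu => ⟨obstruction hh hu, card_edgeSet_FG hh hu⟩, exists_red⟩

theorem mem_obsUpTo' (h : ℕ) (hh : 2 ≤ h) (u : List ℕ) (hu : Red (4 * h) u) :
    Quotient.mk isoSetoid (⟨_, FG (4 * h) u⟩ : Σ n : ℕ, SimpleGraph (Fin n)) ∈
      ObsUpTo (h - 1) (8 * h ^ 2) :=
  obsUpTo_mono _ (Nat.sub_le _ _) (mem_obsUpTo hh hu)

theorem lower_final : ∃ g₀ : ℕ, ∀ g ≥ g₀,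
    (2 : ℝ) ^ ((g : ℝ) ^ 2 / 40) ≤ (ObsUpTo g (8 * (g + 1) ^ 2)).ncard := by
  obtain ⟨g₀, hg₀⟩ := lower_arith
  refine ⟨max g₀ 1, fun g hg => hg₀ g (le_of_max_le_left hg) _ fun m hm => ?_⟩
  have hg1 : 1 ≤ g := le_of_max_le_right hg
  exact lower_nat mem_obsUpTo' (g + 1) m (by omega) hm

theorem lower_final' : ∃ g₀ : ℕ, ∀ g ≥ g₀,
    (2 : ℝ) ^ ((g : ℝ) ^ 2 / 40) ≤ (ObsUpTo g (8 * (g + 1) ^ 2)).ncard ∧
    ((Obs g).Finite → (2 : ℝ) ^ ((g : ℝ) ^ 2 / 40) ≤ (Obs g).ncard) := by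
  obtain ⟨g₀, hg₀⟩ := lower_final
  refine ⟨g₀, fun g hg => ⟨hg₀ g hg, fun hfin => (hg₀ g hg).trans ?_⟩⟩
  exact_mod_cast Set.ncard_le_ncard (obsUpTo_subset g _) hfin

end Pool.Agent.Lib.MP_72b45c_co.Q
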