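import Pool.Agent.Lib.MP_72b45c_co.Q.W4
import Pool.Agent.Lib.MP_72b45c_co.Q.W7

section

section

/-! # MP_72b45c_co, block S (lower bound), job S1a: telescoping -/

namespace Pool.Agent.Lib.MP_72b45c_co.Q

open SimpleGraph Equiv Equiv.Perm

variable {n : ℕ} {u : List ℕ}

/-- indicator modulo 2 of `{a, b} = {s, c}` -/
def two {V : Type*} [DecidableEq V] (s c a b : V) : ZMod 2 :=
  (if a = s ∧ b = c then 1 else 0) + (if a = c ∧ b = s then 1 else 0)

/-- number modulo 2 of neighbouring gaps with the cells `s`, `c` at time `t` -/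
def row (n : ℕ) (u : List ℕ) (s c : Fin (u.length + 1)) (t : ℕ) : ZMod 2 :=
  ∑ k ∈ Finset.range n, two s c (cell n u k t) (cell n u (k + 1) t)

private theorem two_corner {V : Type*} [DecidableEq V] (s c W E S N : V) (hWE : W ≠ E) (hSN : S ≠ N)
    (h : (W ≠ s ∧ E ≠ s ∧ S ≠ c ∧ N ≠ c) ∨ (W ≠ c ∧ E ≠ c ∧ S ≠ s ∧ N ≠ s)) :
    two s c W N - two s c W S + (two s c N E - two s c S E) =
      if (s = S ∨ s = N) ∧ (c = W ∨ c = E) ∨ (s = W ∨ s = E) ∧ (c = S ∨ c = N) then 1 else 0 := by
  unfold two
  rcases h with ⟨h1, h2, h3, h4⟩ | ⟨h1, h2, h3, h4⟩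
  · simp only [h1, h2, h3, h4, h1.symm, h2.symm, h3.symm, h4.symm, false_and, and_false, if_false,
      or_false, false_or, zero_add, add_zero]
    by_cases a1 : W = c
    · have b1 : E ≠ c := fun e => hWE (a1.trans e.symm)
      by_cases a2 : N = s
      · have b2 : S ≠ s := fun e => hSN (e.trans a2.symm)
        simp [a1, b1, a2, b2, b1.symm, b2.symm]
      · by_cases a3 : S = s
        · simp [a1, b1, a2, a3, Ne.symm a2]
        · simp [a1, b1, a2, a3, Ne.symm a2, Ne.symm a3]
    · by_cases a4 : E = c
      · by_cases a2 : N = s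
        · have b2 : S ≠ s := fun e => hSN (e.trans a2.symm)
          simp [a1, a4, a2, b2, b2.symm]
        · by_cases a3 : S = s
          · simp [a1, a4, a2, a3, Ne.symm a2]
          · simp [a1, a4, a2, a3, Ne.symm a2, Ne.symm a3]
      · simp [a1, a4, Ne.symm a1, Ne.symm a4]
  · simp only [h1, h2, h3, h4, h1.symm, h2.symm, h3.symm, h4.symm, false_and, and_false, if_false,
      or_false, false_or, zero_add, add_zero]
    by_cases a1 : W = s
    · have b1 : E ≠ s := fun e => hWE (a1.trans e.symm)
      by_cases a2 : N = c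
      · have b2 : S ≠ c := fun e => hSN (e.trans a2.symm)
        simp [a1, b1, a2, b2, b1.symm, b2.symm]
      · by_cases a3 : S = c
        · simp [a1, b1, a2, a3, Ne.symm a2]
        · simp [a1, b1, a2, a3, Ne.symm a2, Ne.symm a3]
    · by_cases a4 : E = s
      · by_cases a2 : N = c
        · have b2 : S ≠ c := fun e => hSN (e.trans a2.symm)
          simp [a1, a4, a2, b2, b2.symm]
        · by_cases a3 : S = c
          · simp [a1, a4, a2, a3, Ne.symm a2]
          · simp [a1, a4, a2, a3, Ne.symm a2, Ne.symm a3]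
      · simp [a1, a4, Ne.symm a1, Ne.symm a4]

/-- A letter at position `k` changes the cell of gap `k` only: the difference of the rows is the number of
adjacent corner pairs equal to `{s, c}`. `s` black, `c` white: `s` is in one opposite pair and `c` in the other one;
both pairs consist of two different cells (`pr_not_isDiag`). -/
theorem row_succ (hn : Even n) (h3 : 3 ≤ n) (h : Red n u) {s c : Fin (u.length + 1)}
    (hs : col u s = 1) (hc : col u c = 0) (t : Fin u.length) :
    row n u s c (t + 1) = row n u s c t +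
      (if s ∈ pr n u 1 t ∧ c ∈ pr n u 0 t then 1 else 0) := by
  have hf : Full n u := h.full
  obtain ⟨hk1, hk2⟩ := hf.1 u[t] (List.getElem_mem _)
  obtain ⟨m, hm⟩ : ∃ m, u[t] = m + 1 := ⟨u[t] - 1, by omega⟩
  have hmn : m + 1 < n := by omega
  have hut : u[(t : ℕ)] = m + 1 := hm
  have hW : cell n u m (t + 1) = cell n u m t := cell_succ_of_ne n t.2 (by rw [hut]; omega)
  have hE : cell n u (m + 2) (t + 1) = cell n u (m + 2) t :=
    cell_succ_of_ne n t.2 (by rw [hut]; omega)
  have hd0 := pr_not_isDiag h3 h 0 t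
  have hd1 := pr_not_isDiag h3 h 1 t
  have e0 := n.even_or_odd
  have cW : col u (cell n u m t) = m % 2 := col_cell hn hf (by omega) t.2.le
  have cE : col u (cell n u (m + 2) t) = (m + 2) % 2 := col_cell hn hf (by omega) t.2.le
  have cS : col u (cell n u (m + 1) t) = (m + 1) % 2 := col_cell hn hf (by omega) t.2.le
  have cN : col u (cell n u (m + 1) (t + 1)) = (m + 1) % 2 := col_cell hn hf (by omega) t.2
  have hsum : row n u s c (t + 1) - row n u s c t =
      (two s c (cell n u m t) (cell n u (m + 1) (t + 1)) -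
        two s c (cell n u m t) (cell n u (m + 1) t)) +
      (two s c (cell n u (m + 1) (t + 1)) (cell n u (m + 2) t) -
        two s c (cell n u (m + 1) t) (cell n u (m + 2) t)) := by
    unfold row
    rw [← Finset.sum_sub_distrib]
    rw [Finset.sum_eq_add_of_mem m (m + 1) (Finset.mem_range.2 (by omega))
      (Finset.mem_range.2 (by omega)) (by omega)]
    · rw [hW, show m + 1 + 1 = m + 2 from rfl, hE]
    · intro j _ hj
      have h1 : cell n u j (t + 1) = cell n u j t :=
        cell_succ_of_ne n t.2 (by rw [hut]; omega)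
      have h2 : cell n u (j + 1) (t + 1) = cell n u (j + 1) t :=
        cell_succ_of_ne n t.2 (by rw [hut]; omega)
      rw [h1, h2, sub_self]
  have hne : ∀ a b : Fin (u.length + 1), col u a ≠ col u b → a ≠ b := by
    intro a b hab e
    rw [e] at hab
    exact hab rfl
  rcases Nat.mod_two_eq_zero_or_one m with hp | hp
  · have hpr0 : pr n u 0 t = s(cell n u m t, cell n u (m + 2) t) := by
      unfold pr
      rw [if_neg (by rw [hm]; omega), hm]
      rfl
    have hpr1 : pr n u 1 t = s(cell n u (m + 1) t, cell n u (m + 1) (t + 1)) := by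
      unfold pr
      rw [if_pos (by rw [hm]; omega), hm]
    rw [hpr0] at hd0
    rw [hpr1] at hd1
    have hWE : cell n u m t ≠ cell n u (m + 2) t := fun e => hd0 (by rw [e]; exact rfl)
    have hSN : cell n u (m + 1) t ≠ cell n u (m + 1) (t + 1) := fun e => hd1 (by rw [← e]; exact rfl)
    have q := two_corner s c _ _ _ _ hWE hSN (Or.inl ⟨hne _ _ (by omega), hne _ _ (by omega),
      hne _ _ (by omega), hne _ _ (by omega)⟩)
    rw [q] at hsum
    rw [← sub_eq_iff_eq_add', hsum, hpr0, hpr1]
    have z1 : ¬ (s = cell n u m t) := hne _ _ (by omega)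
    have z2 : ¬ (s = cell n u (m + 2) t) := hne _ _ (by omega)
    simp [z1, z2]
  · have hpr1 : pr n u 1 t = s(cell n u m t, cell n u (m + 2) t) := by
      unfold pr
      rw [if_neg (by rw [hm]; omega), hm]
      rfl
    have hpr0 : pr n u 0 t = s(cell n u (m + 1) t, cell n u (m + 1) (t + 1)) := by
      unfold pr
      rw [if_pos (by rw [hm]; omega), hm]
    rw [hpr0] at hd0
    rw [hpr1] at hd1
    have hWE : cell n u m t ≠ cell n u (m + 2) t := fun e => hd1 (by rw [e]; exact rfl)
    have hSN : cell n u (m + 1) t ≠ cell n u (m + 1) (t + 1) := fun e => hd0 (by rw [← e]; exact rfl)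
    have q := two_corner s c _ _ _ _ hWE hSN (Or.inr ⟨hne _ _ (by omega), hne _ _ (by omega),
      hne _ _ (by omega), hne _ _ (by omega)⟩)
    rw [q] at hsum
    rw [← sub_eq_iff_eq_add', hsum, hpr0, hpr1]
    have z1 : ¬ (s = cell n u (m + 1) t) := hne _ _ (by omega)
    have z2 : ¬ (s = cell n u (m + 1) (t + 1)) := hne _ _ (by omega)
    simp [z1, z2]

private theorem two_swap {V : Type*} [DecidableEq V] (s c a b : V) : two s c a b = two s c b a := by
  unfold two
  rw [add_comm]
  congr 1
  · congr 1
    exact propext and_comm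
  · congr 1
    exact propext and_comm

/-- the projective identification reverses the row (`cell_wrap`) -/
theorem row_length (hn : Even n) (h3 : 3 ≤ n) (h : Red n u) (s c : Fin (u.length + 1)) :
    row n u s c u.length = row n u s c 0 := by
  have hf : Full n u := h.full
  have hw : ∀ k ≤ n, cell n u k u.length = cell n u (n - k) 0 := by
    intro k hk
    rcases Nat.eq_zero_or_pos k with h0 | h0
    · subst h0
      rw [cell_zero, cell_of_le n u 0 (by omega)]
    · rcases Nat.lt_or_ge k n with h1 | h1
      · exact cell_wrap hf h0 h1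
      · have : k = n := le_antisymm hk h1
        subst this
        rw [cell_of_le k u _ le_rfl, Nat.sub_self, cell_zero]
  unfold row
  rw [← Finset.sum_range_reflect (fun k => two s c (cell n u k 0) (cell n u (k + 1) 0)) n]
  refine Finset.sum_congr rfl fun k hk => ?_
  have hk' := Finset.mem_range.1 hk
  rw [hw k (by omega), hw (k + 1) (by omega), two_swap]
  rw [show n - 1 - k + 1 = n - k by omega, show n - (k + 1) = n - 1 - k by omega]

/-- T. Sum of `row_succ` over all letters. (If `s` is not black or `c` is not white the set is empty.) -/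
theorem even_near (hn : Even n) (h3 : 3 ≤ n) (h : Red n u) (s c : Fin (u.length + 1)) :
    Even (Nat.card {t : Fin u.length // s ∈ pr n u 1 t ∧ c ∈ pr n u 0 t}) := by
  classical
  have hf : Full n u := h.full
  by_cases hs : col u s = 1 ∧ col u c = 0
  · obtain ⟨hs, hc⟩ := hs
    have key : ∀ k ≤ u.length, row n u s c k = row n u s c 0 +
        ∑ j : Fin u.length, (if (j : ℕ) < k then
          (if s ∈ pr n u 1 j ∧ c ∈ pr n u 0 j then (1 : ZMod 2) else 0) else 0) := by
      intro k
      induction k with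
      | zero => intro _; simp
      | succ k ih =>
        intro hk
        have hk' : k < u.length := by omega
        have e1 := row_succ hn h3 h hs hc ⟨k, hk'⟩
        simp only at e1
        rw [e1, ih (by omega), add_assoc]
        congr 1
        rw [← Finset.sum_erase_add _ _ (Finset.mem_univ (⟨k, hk'⟩ : Fin u.length)),
          ← Finset.sum_erase_add (Finset.univ) (fun j : Fin u.length => (if (j : ℕ) < k + 1 then
          (if s ∈ pr n u 1 j ∧ c ∈ pr n u 0 j then (1 : ZMod 2) else 0) else 0))
            (Finset.mem_univ (⟨k, hk'⟩ : Fin u.length))]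
        simp only [lt_irrefl, if_false, add_zero, Nat.lt_succ_self, if_true]
        congr 1
        refine Finset.sum_congr rfl fun j hj => ?_
        have hj' : (j : ℕ) ≠ k := fun e => (Finset.mem_erase.1 hj).1 (Fin.ext e)
        have : ((j : ℕ) < k) ↔ ((j : ℕ) < k + 1) := by omega
        simp only [this]
    have k1 := key u.length le_rfl
    rw [row_length hn h3 h] at k1
    have k2 : ∑ j : Fin u.length, (if s ∈ pr n u 1 j ∧ c ∈ pr n u 0 j then (1 : ZMod 2) else 0) = 0 := by
      have k3 : ∑ j : Fin u.length, (if (j : ℕ) < u.length then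
          (if s ∈ pr n u 1 j ∧ c ∈ pr n u 0 j then (1 : ZMod 2) else 0) else 0) =
          ∑ j : Fin u.length, (if s ∈ pr n u 1 j ∧ c ∈ pr n u 0 j then (1 : ZMod 2) else 0) :=
        Finset.sum_congr rfl fun j _ => if_pos j.2
      rw [k3] at k1
      exact (left_eq_add.1 k1)
    rw [Finset.sum_boole] at k2
    rw [Nat.card_eq_fintype_card, Fintype.card_subtype]
    exact (ZMod.natCast_eq_zero_iff_even).1 k2
  · have : IsEmpty {t : Fin u.length // s ∈ pr n u 1 t ∧ c ∈ pr n u 0 t} := by
      refine ⟨fun ⟨t, h1, h2⟩ => hs ⟨?_, ?_⟩⟩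
      · exact col_of_mem_pr hn hf h1
      · exact col_of_mem_pr hn hf h2
    rw [Nat.card_of_isEmpty]
    exact Even.zero

end Pool.Agent.Lib.MP_72b45c_co.Q
end

section

/-! # MP_72b45c_co, block S (lower bound), job S1b: connectivity, numbers -/

namespace Pool.Agent.Lib.MP_72b45c_co.Q

open SimpleGraph Equiv Equiv.Perm

variable {n : ℕ} {u : List ℕ}

/-- Connectivity of the graph of one colour. `f (cell k t) = f (cell k 0)` for `k ≡ e` (letters `k`), and the gaps
`k`, `k + 2` are joined by a letter `k + 1` (`Full`). -/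
theorem const_of_edges (hn : Even n) (h2 : 2 ≤ n) (hf : Full n u) (e : ℕ) {β : Type*}
    (f : Fin (u.length + 1) → β) (hf' : ∀ t c c', pr n u e t = s(c, c') → f c = f c')
    (c c' : Fin (u.length + 1)) (hc : col u c = e % 2) (hc' : col u c' = e % 2) : f c = f c' := by
  have hA1 : ∀ k, k ≤ n → k % 2 = e % 2 → ∀ t, t < u.length →
      f (cell n u k (t + 1)) = f (cell n u k t) := by
    intro k _ hke t ht
    by_cases h : u[t] = k
    · refine (hf' ⟨t, ht⟩ _ _ ?_).symm
      have h1 : (u[(⟨t, ht⟩ : Fin u.length)] + e) % 2 = 0 := by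
        show (u[t] + e) % 2 = 0
        rw [h]
        omega
      rw [pr, if_pos h1]
      show s(cell n u u[t] t, cell n u u[t] (t + 1)) = _
      rw [h]
    · rw [cell_succ_of_ne n ht h]
  have hA : ∀ k, k ≤ n → k % 2 = e % 2 → ∀ t, t ≤ u.length →
      f (cell n u k t) = f (cell n u k 0) := by
    intro k hk hke t
    induction t with
    | zero => exact fun _ => rfl
    | succ t ih => exact fun ht => (hA1 k hk hke t (by omega)).trans (ih (by omega))
  have hB : ∀ k, k + 2 ≤ n → k % 2 = e % 2 → f (cell n u k 0) = f (cell n u (k + 2) 0) := by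
    intro k hk hke
    obtain ⟨t, ht, hut⟩ := List.getElem_of_mem (hf.2 (k + 1) (by omega) (by omega))
    rw [← hA k (by omega) hke t ht.le, ← hA (k + 2) hk (by omega) t ht.le]
    refine hf' ⟨t, ht⟩ _ _ ?_
    have h1 : ¬ (u[(⟨t, ht⟩ : Fin u.length)] + e) % 2 = 0 := by
      show ¬ (u[t] + e) % 2 = 0
      rw [hut]
      omega
    rw [pr, if_neg h1]
    show s(cell n u (u[t] - 1) t, cell n u (u[t] + 1) t) = _
    rw [hut]
    rfl
  have hC : ∀ m, e % 2 + 2 * m ≤ n → f (cell n u (e % 2 + 2 * m) 0) = f (cell n u (e % 2) 0) := by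
    intro m
    induction m with
    | zero => exact fun _ => rfl
    | succ m ih =>
      intro hm
      rw [← ih (by omega)]
      exact (hB (e % 2 + 2 * m) (by omega) (by omega)).symm
  have hD : ∀ c : Fin (u.length + 1), col u c = e % 2 → f c = f (cell n u (e % 2) 0) := by
    intro c hc
    obtain ⟨k, t, hk, ht, rfl⟩ := exists_node hf c
    rw [col_cell hn hf hk ht] at hc
    rw [hA k hk hc t ht]
    have h1 := hC (k / 2) (by omega)
    have h2 : e % 2 + 2 * (k / 2) = k := by omega
    rwa [h2] at h1
  rw [hD c hc, hD c' hc']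

/-- every cell is a corner -/
theorem exists_mem_pr (hn : Even n) (h3 : 4 ≤ n) (h : Red n u) (c : Fin (u.length + 1)) :
    ∃ t, c ∈ pr n u (col u c) t := by
  have hf := h.full
  by_cases hc : c = 0
  · subst hc
    obtain ⟨t, ht, hut⟩ := List.getElem_of_mem (hf.2 1 le_rfl (by omega))
    refine ⟨⟨t, ht⟩, ?_⟩
    have h0 : col u ((0 : Fin (u.length + 1)) : ℕ) = 0 := by
      simp [col]
    rw [h0, pr, if_neg (by
      show ¬ (u[t] + 0) % 2 = 0
      rw [hut]
      omega)]
    show (0 : Fin (u.length + 1)) ∈ s(cell n u (u[t] - 1) t, cell n u (u[t] + 1) t)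
    rw [hut, Sym2.mem_iff]
    left
    exact (cell_zero n u t).symm
  · have hc0 : c.val ≠ 0 := fun h => hc (Fin.ext h)
    obtain ⟨t, ht⟩ : ∃ t, c.val = t + 1 := Nat.exists_eq_succ_of_ne_zero hc0
    have htl : t < u.length := by
      have := c.2
      omega
    have hm := hf.1 u[t] (List.getElem_mem htl)
    have hcc : cell n u u[t] (t + 1) = c := Fin.ext (by
      rw [cell_succ_self htl rfl hm.1 hm.2, ht])
    have hcol : col u c = u[t] % 2 := by
      unfold col
      rw [if_neg hc0, ht, Nat.add_sub_cancel, List.getD_eq_getElem _ _ htl]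
    refine ⟨⟨t, htl⟩, ?_⟩
    rw [hcol, pr, if_pos (by
      show (u[t] + u[t] % 2) % 2 = 0
      omega)]
    show c ∈ s(cell n u u[t] t, cell n u u[t] (t + 1))
    rw [hcc]
    exact Sym2.mem_mk_right _ _

/-- black cells have a neighbour, white cells are isolated (`BG n u 1`) -/
theorem exists_adj_iff (hn : Even n) (h3 : 4 ≤ n) (h : Red n u) (c : Fin (u.length + 1)) :
    (∃ c', (BG n u 1).Adj c c') ↔ col u c = 1 := by
  constructor
  · rintro ⟨c', hc'⟩
    obtain ⟨t, ht⟩ := (BG_adj_iff (by omega) h 1 c c').1 hc'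
    exact col_of_mem_pr hn h.full (e := 1) (t := t) (by
      rw [ht]
      exact Sym2.mem_mk_left _ _)
  · intro hc
    obtain ⟨t, ht⟩ := exists_mem_pr hn h3 h c
    rw [hc] at ht
    obtain ⟨c', hc'⟩ := Sym2.mem_iff_exists.1 ht
    exact ⟨c', (BG_adj_iff (by omega) h 1 c c').2 ⟨t, hc'⟩⟩

theorem reachable_black (hn : Even n) (h3 : 4 ≤ n) (h : Red n u) {c c' : Fin (u.length + 1)}
    (hc : col u c = 1) (hc' : col u c' = 1) : (BG n u 1).Reachable c c' := by
  have h1 := const_of_edges hn (by omega) h.full 1 (f := (BG n u 1).connectedComponentMk)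
    (fun t a b hab => ConnectedComponent.sound
      (((BG_adj_iff (by omega) h 1 a b).2 ⟨t, hab⟩).reachable)) c c' hc hc'
  exact ConnectedComponent.exact h1

theorem numIsolated_BG (hn : Even n) (h3 : 4 ≤ n) (h : Red n u) :
    numIsolated (BG n u 1) = Nat.card {c : Fin (u.length + 1) // col u c = 0} := by
  unfold numIsolated
  refine Nat.card_congr (Equiv.subtypeEquivRight fun c => ?_)
  have h1 := exists_adj_iff hn h3 h c
  rw [← not_exists, h1]
  rcases col_lt_two u c with h2 | h2 <;> omega

private theorem s1b_isolated {V : Type*} {G : SimpleGraph V} {a b : V} (h : ∀ w, ¬ G.Adj a w)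
    (hr : G.Reachable a b) : a = b := by
  obtain ⟨p⟩ := hr
  cases p with
  | nil => rfl
  | cons hadj _ => exact absurd hadj (h _)

/-- one component with all black cells, and the white cells -/
theorem card_cc_BG (hn : Even n) (h3 : 4 ≤ n) (h : Red n u) :
    Nat.card (BG n u 1).ConnectedComponent =
      Nat.card {c : Fin (u.length + 1) // col u c = 0} + 1 := by
  have hf := h.full
  obtain ⟨b, hb⟩ : ∃ b : Fin (u.length + 1), col u b = 1 :=
    ⟨cell n u 1 0, by rw [col_cell hn hf (by omega) (Nat.zero_le _)]⟩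
  have hiso : ∀ c : Fin (u.length + 1), col u c = 0 → ∀ w, ¬ (BG n u 1).Adj c w := by
    intro c hc w hw
    have h1 := (exists_adj_iff hn h3 h c).1 ⟨w, hw⟩
    omega
  have hbij : Function.Bijective
      (fun o : Option {c : Fin (u.length + 1) // col u c = 0} =>
        o.elim ((BG n u 1).connectedComponentMk b)
          fun c => (BG n u 1).connectedComponentMk c.1) := by
    constructor
    · intro x y hxy
      rcases x with _ | ⟨x, hx⟩ <;> rcases y with _ | ⟨y, hy⟩
      · rfl
      · have h1 : (BG n u 1).Reachable b y := ConnectedComponent.exact hxy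
        have h2 := s1b_isolated (hiso y hy) h1.symm
        rw [h2] at hy
        omega
      · have h1 : (BG n u 1).Reachable x b := ConnectedComponent.exact hxy
        have h2 := s1b_isolated (hiso x hx) h1
        rw [h2] at hx
        omega
      · have h1 : (BG n u 1).Reachable x y := ConnectedComponent.exact hxy
        have h2 := s1b_isolated (hiso x hx) h1
        subst h2
        rfl
    · intro q
      induction q using ConnectedComponent.ind with
      | h v =>
        rcases col_lt_two u v with h1 | h1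
        · exact ⟨some ⟨v, h1⟩, rfl⟩
        · exact ⟨none, ConnectedComponent.sound (reachable_black hn h3 h hb h1)⟩
  rw [← Nat.card_congr (Equiv.ofBijective _ hbij), Finite.card_option]

end Pool.Agent.Lib.MP_72b45c_co.Q
end

section

/-! # MP_72b45c_co, block S (lower bound), job S1: telescoping, connectivity, numbers (parts) -/
end
end

section

section

/-! # MP_72b45c_co, block W (words), job W8a: reduced words sort -/

namespace Pool.Agent.Lib.MP_72b45c_co.Q

open Equiv Equiv.Perm

/-- number of values `≥ θ` at the positions `1..i` -/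
def cnt (x : ℕ → ℕ) (i θ : ℕ) : ℕ := ((Finset.Icc 1 i).filter (fun j => θ ≤ x j)).card

private theorem w8a_zero (x : ℕ → ℕ) (θ : ℕ) : cnt x 0 θ = 0 := by
  unfold cnt
  simp

private theorem w8a_succ (x : ℕ → ℕ) (i θ : ℕ) :
    cnt x (i + 1) θ = cnt x i θ + if θ ≤ x (i + 1) then 1 else 0 := by
  unfold cnt
  have h1 : Finset.Icc 1 (i + 1) = insert (i + 1) (Finset.Icc 1 i) := by
    ext j
    simp only [Finset.mem_Icc, Finset.mem_insert]
    omega
  rw [h1, Finset.filter_insert]
  split_ifs with h2
  · rw [Finset.card_insert_of_notMem]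
    simp
  · rfl

private theorem w8a_congr {x y : ℕ → ℕ} {i θ : ℕ} (h : ∀ j, 1 ≤ j → j ≤ i → x j = y j) :
    cnt x i θ = cnt y i θ := by
  induction i with
  | zero => rw [w8a_zero, w8a_zero]
  | succ i ih =>
    rw [w8a_succ, w8a_succ, ih fun j h1 h2 => h j h1 (by omega), h (i + 1) (by omega) le_rfl]

/-- one letter changes only the count of its own gap, to `min (c (k-1) + 1) (c (k+1))` -/
theorem cnt_srt_one (x : ℕ → ℕ) {k : ℕ} (hk : 1 ≤ k) (i θ : ℕ) :
    cnt (if x k < x (k + 1) then x ∘ swap k (k + 1) else x) i θ =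
      if i = k then min (cnt x (k - 1) θ + 1) (cnt x (k + 1) θ) else cnt x i θ := by
  obtain ⟨k, rfl⟩ : ∃ l, k = l + 1 := ⟨k - 1, by omega⟩
  set y : ℕ → ℕ := if x (k + 1) < x (k + 1 + 1) then x ∘ swap (k + 1) (k + 1 + 1) else x with hy
  have hfar : ∀ j, j ≠ k + 1 → j ≠ k + 1 + 1 → y j = x j := by
    intro j h1 h2
    rw [hy]
    split_ifs
    · rw [Function.comp_apply, swap_apply_of_ne_of_ne h1 h2]
    · rfl
  have hmax : y (k + 1) = max (x (k + 1)) (x (k + 1 + 1)) ∧
      y (k + 1 + 1) = min (x (k + 1)) (x (k + 1 + 1)) := by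
    rw [hy]
    split_ifs with h
    · rw [Function.comp_apply, Function.comp_apply, swap_apply_left, swap_apply_right]
      constructor
      · rw [max_eq_right h.le]
      · rw [min_eq_left h.le]
    · constructor
      · rw [max_eq_left (not_lt.1 h)]
      · rw [min_eq_right (not_lt.1 h)]
  have h0 : cnt y k θ = cnt x k θ := w8a_congr fun j h1 h2 => hfar j (by omega) (by omega)
  have h2 : cnt y (k + 1 + 1) θ = cnt x (k + 1 + 1) θ := by
    rw [w8a_succ, w8a_succ, w8a_succ, w8a_succ, h0, hmax.1, hmax.2]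
    rcases le_total (x (k + 1)) (x (k + 1 + 1)) with h | h
    · rw [max_eq_right h, min_eq_left h]
      omega
    · rw [max_eq_left h, min_eq_right h]
  split_ifs with hi
  · rw [hi, Nat.add_sub_cancel, w8a_succ, w8a_succ, w8a_succ, h0, hmax.1]
    split_ifs <;> omega
  · rcases lt_or_gt_of_ne hi with h | h
    · exact w8a_congr fun j h1 h2 => hfar j (by omega) (by omega)
    · obtain ⟨d, rfl⟩ : ∃ d, i = k + 1 + 1 + d := ⟨i - (k + 1 + 1), by omega⟩
      clear hi h
      induction d with
      | zero => exact h2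
      | succ d ih =>
        rw [← add_assoc, w8a_succ, w8a_succ, ih, hfar _ (by omega) (by omega)]

/-- monotone: induction on the word with `cnt_srt_one` -/
theorem cnt_srt_mono (u : List ℕ) (hu : ∀ k ∈ u, 1 ≤ k) {x y : ℕ → ℕ}
    (h : ∀ i θ, cnt x i θ ≤ cnt y i θ) (i θ : ℕ) : cnt (srt x u) i θ ≤ cnt (srt y u) i θ := by
  induction u generalizing x y with
  | nil => exact h i θ
  | cons k u ih =>
    rw [srt, srt]
    refine ih (fun j hj => hu j (List.mem_cons_of_mem _ hj)) fun i θ => ?_
    have hk := hu k List.mem_cons_self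
    rw [cnt_srt_one x hk, cnt_srt_one y hk]
    split_ifs
    · have h1 := h (k - 1) θ
      have h2 := h (k + 1) θ
      omega
    · exact h i θ

/-- an ascending word sorts its start state by `run` -/
theorem srt_run {n : ℕ} {π : Perm ℕ} {u : List ℕ} (h : Asc n π u) : srt π u = run π u := by
  induction u generalizing π with
  | nil => rfl
  | cons k u ih =>
    obtain ⟨_, _, h3, h4⟩ := h
    rw [srt, run, if_pos h3, ← ih h4]
    rfl

/-- `srt` only permutes the values at the positions `1..n` -/
theorem srt_perm {n : ℕ} (u : List ℕ) (hu : ∀ k ∈ u, 1 ≤ k ∧ k < n) (ρ : Perm ℕ)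
    (hρ : ∀ i, i = 0 ∨ n < i → ρ i = i) :
    ∃ ρ' : Perm ℕ, srt ρ u = ρ' ∧ ∀ i, i = 0 ∨ n < i → ρ' i = i := by
  induction u generalizing ρ with
  | nil => exact ⟨ρ, rfl, hρ⟩
  | cons k u ih =>
    have hk := hu k List.mem_cons_self
    have hu' : ∀ j ∈ u, 1 ≤ j ∧ j < n := fun j hj => hu j (List.mem_cons_of_mem _ hj)
    rw [srt]
    split_ifs with h
    · refine ih hu' (ρ * swap k (k + 1)) fun i hi => ?_
      rw [Perm.mul_apply, swap_apply_of_ne_of_ne (by omega) (by omega), hρ i hi]
    · exact ih hu' ρ hρ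

/-- A reduced word of `w_0` sorts every permutation. `cnt id i θ ≤ cnt ρ i θ` for `i ≤ n` and for `i > n` (at most
`θ - 1` positive labels are smaller than `θ`; for `i > n` both count the same), so `cnt rev ≤ cnt (srt ρ u)`
(`cnt_srt_mono`, `srt_run`), and `cnt ρ' i θ ≤ min i (n + 1 - θ) = cnt rev i θ` for `i ≤ n` and every permutation `ρ'`; so the
counts agree, and the label of position `i` is `≥ θ` iff the count jumps there. -/
theorem srt_red {n : ℕ} {u : List ℕ} (h : Red n u) (ρ : Perm ℕ)
    (hρ : ∀ i, i = 0 ∨ n < i → ρ i = i) : ∀ i, 1 ≤ i → i ≤ n → srt ρ u i = n + 1 - i := by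
  have hmem := h.1.mem
  obtain ⟨ρ', he, hρ'⟩ := srt_perm (n := n) u hmem ρ hρ
  have hle : ∀ i θ, cnt (⇑(1 : Perm ℕ)) i θ ≤ cnt ρ i θ := by
    intro i θ
    have h1 : ∀ x : ℕ → ℕ, cnt x i θ + ((Finset.Icc 1 i).filter (fun j => ¬ θ ≤ x j)).card = i := by
      intro x
      unfold cnt
      rw [Finset.card_filter_add_card_filter_not, Nat.card_Icc]
      omega
    have h2 := h1 (⇑(1 : Perm ℕ))
    have h3 := h1 ρ
    have h4 : ((Finset.Icc 1 i).filter (fun j => ¬ θ ≤ ρ j)).card ≤
        ((Finset.Icc 1 i).filter (fun j => ¬ θ ≤ (1 : Perm ℕ) j)).card ∨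
        ((Finset.Icc 1 i).filter (fun j => ¬ θ ≤ (1 : Perm ℕ) j)).card = i := by
      rcases le_or_gt θ (i + 1) with hθ | hθ
      · left
        have h5 : (Finset.Icc 1 i).filter (fun j => ¬ θ ≤ (1 : Perm ℕ) j) = Finset.Icc 1 (θ - 1) := by
          ext j
          simp only [Finset.mem_filter, Finset.mem_Icc, Perm.one_apply]
          omega
        rw [h5, ← Finset.card_image_of_injective _ ρ.injective]
        refine Finset.card_le_card fun j hj => ?_
        obtain ⟨l, hl, rfl⟩ := Finset.mem_image.1 hj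
        simp only [Finset.mem_filter, Finset.mem_Icc] at hl ⊢
        have h6 : ρ l ≠ 0 := by
          intro h7
          have h8 : ρ l = ρ 0 := by rw [h7, hρ 0 (Or.inl rfl)]
          have h9 := ρ.injective h8
          omega
        omega
      · right
        rw [Finset.filter_true_of_mem, Nat.card_Icc]
        · omega
        · intro j hj
          rw [Finset.mem_Icc] at hj
          rw [Perm.one_apply]
          omega
    rcases h4 with h4 | h4 <;> omega
  have hmono := fun i θ => cnt_srt_mono u (fun k hk => (hmem k hk).1) hle i θ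
  rw [srt_run h.1, he] at hmono
  rw [he]
  have hge : ∀ i, 1 ≤ i → i ≤ n → n + 1 - i ≤ ρ' i := by
    intro i h1 h2
    have h3 := hmono i (n + 1 - i)
    have h4 : cnt (run 1 u) i (n + 1 - i) = i := by
      unfold cnt
      rw [Finset.filter_true_of_mem, Nat.card_Icc]
      · omega
      · intro j hj
        rw [Finset.mem_Icc] at hj
        rw [h.2 j hj.1 (by omega)]
        omega
    rw [h4] at h3
    unfold cnt at h3
    have h5 : (Finset.Icc 1 i).filter (fun j => n + 1 - i ≤ ρ' j) = Finset.Icc 1 i := by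
      refine Finset.eq_of_subset_of_card_le (Finset.filter_subset _ _) ?_
      rw [Nat.card_Icc]
      omega
    have h6 : i ∈ (Finset.Icc 1 i).filter (fun j => n + 1 - i ≤ ρ' j) := by
      rw [h5, Finset.mem_Icc]
      omega
    exact (Finset.mem_filter.1 h6).2
  intro i
  induction i using Nat.strong_induction_on with
  | _ i ih =>
    intro h1 h2
    have h3 := hge i h1 h2
    have h4 : ρ' i ≤ n := by
      by_contra h5
      have h6 := hρ' (ρ' i) (Or.inr (by omega))
      have h7 := ρ'.injective h6
      omega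
    by_contra h5
    have h6 := ih (n + 1 - ρ' i) (by omega) (by omega) (by omega)
    have h7 : ρ' (n + 1 - ρ' i) = ρ' i := by
      rw [h6]
      omega
    have h8 := ρ'.injective h7
    omega

end Pool.Agent.Lib.MP_72b45c_co.Q
end

section

/-! # MP_72b45c_co, block W (words), job W8b: acting letters -/

namespace Pool.Agent.Lib.MP_72b45c_co.Q

open Equiv Equiv.Perm

/-- the large system with the maximal label in front and the minimal label at the end -/
def ext (n : ℕ) (σ : Perm ℕ) (i : ℕ) : ℕ :=
  if i = 1 then n else if i = n then 1 else if 1 ≤ i ∧ i < n then σ (i - 1) + 1 else i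

private theorem W8b_range {n : ℕ} {σ : Perm ℕ} (hσ : ∀ i, i = 0 ∨ n - 2 < i → σ i = i) {i : ℕ}
    (h1 : 1 ≤ i) (h2 : i ≤ n - 2) : 1 ≤ σ i ∧ σ i ≤ n - 2 := by
  constructor
  · by_contra h
    have h3 : σ i = 0 := by omega
    have h4 : σ 0 = 0 := hσ 0 (Or.inl rfl)
    have h5 : i = 0 := σ.injective (h3.trans h4.symm)
    omega
  · by_contra h
    have h3 : σ (σ i) = σ i := hσ (σ i) (Or.inr (by omega))
    have h5 : σ i = i := σ.injective h3
    omega

private theorem W8b_mid {n : ℕ} (σ : Perm ℕ) {j : ℕ} (h1 : 1 ≤ j) (h2 : j + 1 < n) :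
    ext n σ (j + 1) = σ j + 1 := by
  unfold ext
  rw [if_neg (by omega), if_neg (by omega), if_pos (by omega)]
  rfl

private theorem W8b_swap {n m : ℕ} (hm : 1 ≤ m) (hmn : m + 3 ≤ n) (σ : Perm ℕ) :
    ext n σ ∘ swap (m + 1) (m + 1 + 1) = ext n (σ * swap m (m + 1)) := by
  funext i
  show ext n σ (swap (m + 1) (m + 1 + 1) i) = ext n (σ * swap m (m + 1)) i
  by_cases h1 : i = m + 1
  · subst h1
    rw [swap_apply_left, W8b_mid σ (by omega) (by omega), W8b_mid _ hm (by omega),
      Perm.mul_apply, swap_apply_left]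
  · by_cases h2 : i = m + 1 + 1
    · subst h2
      rw [swap_apply_right, W8b_mid σ hm (by omega), W8b_mid _ (by omega) (by omega),
        Perm.mul_apply, swap_apply_right]
    · rw [swap_apply_of_ne_of_ne h1 h2]
      unfold ext
      by_cases h3 : i = 1
      · rw [if_pos h3, if_pos h3]
      · rw [if_neg h3, if_neg h3]
        by_cases h4 : i = n
        · rw [if_pos h4, if_pos h4]
        · rw [if_neg h4, if_neg h4]
          by_cases h5 : 1 ≤ i ∧ i < n
          · rw [if_pos h5, if_pos h5, Perm.mul_apply,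
              swap_apply_of_ne_of_ne (by omega) (by omega)]
          · rw [if_neg h5, if_neg h5]

/-- Extraction of the acting letters. The letters `1` and `n - 1` never act on `ext n σ`; a letter `2 ≤ k ≤ n - 2`
acts iff `σ (k - 1) < σ k`, and then as the letter `k - 1` on `σ`. Induction on the word. -/
theorem exists_acting {n : ℕ} (hn : 4 ≤ n) (u : List ℕ) (hu : ∀ k ∈ u, 1 ≤ k ∧ k < n)
    (σ : Perm ℕ) (hσ : ∀ i, i = 0 ∨ n - 2 < i → σ i = i) :
    ∃ v : List ℕ, (v.map (· + 1)).Sublist (u.filter (fun k => decide (2 ≤ k ∧ k + 2 ≤ n))) ∧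
      Asc (n - 2) σ v ∧ ∀ i, 1 ≤ i → i ≤ n → srt (ext n σ) u i = ext n (run σ v) i := by
  induction u generalizing σ with
  | nil => exact ⟨[], by simp, trivial, fun i _ _ => rfl⟩
  | cons k u ih =>
    have hu' : ∀ k ∈ u, 1 ≤ k ∧ k < n := fun j hj => hu j (List.mem_cons_of_mem _ hj)
    have hk := hu k List.mem_cons_self
    by_cases hact : ext n σ k < ext n σ (k + 1)
    · -- the letter acts
      have hk2 : 2 ≤ k := by
        by_contra h
        have h1 : k = 1 := by omega
        subst h1
        have h2 : ext n σ 1 = n := by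
          unfold ext
          rw [if_pos rfl]
        have h3 : ext n σ (1 + 1) = σ 1 + 1 := by
          unfold ext
          rw [if_neg (by omega), if_neg (by omega), if_pos (by omega)]
        have h4 := W8b_range hσ (i := 1) (by omega) (by omega)
        omega
      have hkn : k + 2 ≤ n := by
        by_contra h
        have h1 : k + 1 = n := by omega
        have h2 : ext n σ (k + 1) = 1 := by
          unfold ext
          rw [if_neg (by omega), if_pos h1]
        have h3 : ext n σ k = σ (k - 1) + 1 := by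
          unfold ext
          rw [if_neg (by omega), if_neg (by omega), if_pos (by omega)]
        omega
      obtain ⟨m, rfl⟩ : ∃ m, k = m + 1 := ⟨k - 1, by omega⟩
      have hm : 1 ≤ m := by omega
      have hmn : m + 3 ≤ n := by omega
      have h2 : ext n σ (m + 1) = σ m + 1 := by
        unfold ext
        rw [if_neg (by omega), if_neg (by omega), if_pos (by omega)]
        rfl
      have h3 : ext n σ (m + 1 + 1) = σ (m + 1) + 1 := by
        unfold ext
        rw [if_neg (by omega), if_neg (by omega), if_pos (by omega)]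
        rfl
      have hlt : σ m < σ (m + 1) := by omega
      have hσ' : ∀ i, i = 0 ∨ n - 2 < i → (σ * swap m (m + 1)) i = i := by
        intro i hi
        rw [Perm.mul_apply, swap_apply_of_ne_of_ne (by omega) (by omega)]
        exact hσ i hi
      obtain ⟨v, hv1, hv2, hv3⟩ := ih hu' (σ * swap m (m + 1)) hσ'
      refine ⟨m :: v, ?_, ⟨hm, by omega, hlt, hv2⟩, ?_⟩
      · rw [List.filter_cons_of_pos (by simpa using And.intro hk2 hkn), List.map_cons]
        exact hv1.cons_cons _
      · intro i hi1 hi2
        show srt (if ext n σ (m + 1) < ext n σ (m + 1 + 1) then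
          ext n σ ∘ swap (m + 1) (m + 1 + 1) else ext n σ) u i = ext n (run σ (m :: v)) i
        rw [if_pos hact, W8b_swap hm hmn]
        exact hv3 i hi1 hi2
    · -- the letter does not act
      obtain ⟨v, hv1, hv2, hv3⟩ := ih hu' σ hσ
      refine ⟨v, ?_, hv2, ?_⟩
      · refine hv1.trans ?_
        exact (List.sublist_cons_self k u).filter _
      · intro i hi1 hi2
        show srt (if ext n σ k < ext n σ (k + 1) then
          ext n σ ∘ swap k (k + 1) else ext n σ) u i = ext n (run σ v) i
        rw [if_neg hact]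
        exact hv3 i hi1 hi2

end Pool.Agent.Lib.MP_72b45c_co.Q
end

section

/-! # MP_72b45c_co, block W (words), job W8c: restriction -/

namespace Pool.Agent.Lib.MP_72b45c_co.Q

open Equiv Equiv.Perm

private theorem ext_one (n : ℕ) : ext n 1 = ⇑(swap 1 n) := by
  funext i
  unfold ext
  by_cases h1 : i = 1
  · rw [if_pos h1, h1, swap_apply_left]
  · rw [if_neg h1]
    by_cases h2 : i = n
    · rw [if_pos h2, h2, swap_apply_right]
    · rw [if_neg h2, swap_apply_of_ne_of_ne h1 h2]
      split_ifs with h3
      · rw [Perm.one_apply]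
        omega
      · rfl

/-- `exists_acting` for `σ = 1` and `srt_red` for `ρ = swap 1 n` (`ext n 1` and `swap 1 n` agree on the positions `1..n`,
and `srt` on these positions depends only on them). -/
theorem Red.restrict_one {n : ℕ} (hn : 4 ≤ n) {u : List ℕ} (h : Red n u) :
    ∃ v : List ℕ, Red (n - 2) v ∧
      (v.map (· + 1)).Sublist (u.filter (fun k => decide (2 ≤ k ∧ k + 2 ≤ n))) := by
  obtain ⟨v, hv1, hv2, hv3⟩ := exists_acting hn u h.1.mem 1 (fun i _ => rfl)
  refine ⟨v, ⟨hv2, fun i h1 h2 => ?_⟩, hv1⟩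
  have e1 := hv3 (i + 1) (by omega) (by omega)
  rw [ext_one n, srt_red h (swap 1 n) (fun i hi => ?_) (i + 1) (by omega) (by omega)] at e1
  · unfold ext at e1
    rw [if_neg (by omega), if_neg (by omega), if_pos (by omega), Nat.add_sub_cancel] at e1
    omega
  · exact swap_apply_of_ne_of_ne (by omega) (by omega)

/-- twice `Red.restrict_one` -/
theorem Red.restrict {n : ℕ} (hn : 6 ≤ n) {u : List ℕ} (h : Red n u) :
    ∃ v : List ℕ, Red (n - 4) v ∧ ∃ f : Fin v.length ↪o Fin u.length,
      ∀ j : Fin v.length, u[f j] = v[j] + 2 := by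
  obtain ⟨v₁, hv₁, hs₁⟩ := h.restrict_one (by omega)
  obtain ⟨v, hv, hs⟩ := hv₁.restrict_one (by omega)
  refine ⟨v, ?_, ?_⟩
  · rwa [show n - 2 - 2 = n - 4 by omega] at hv
  · have s1 : (v₁.map (· + 1)).Sublist u := hs₁.trans List.filter_sublist
    have s2 : (v.map (· + 1)).Sublist v₁ := hs.trans List.filter_sublist
    have s3 : ((v.map (· + 1)).map (· + 1)).Sublist u := (s2.map (· + 1)).trans s1
    rw [List.sublist_iff_exists_fin_orderEmbedding_get_eq] at s3
    obtain ⟨f, hf⟩ := s3
    have hl : v.length = ((v.map (· + 1)).map (· + 1)).length := by simp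
    refine ⟨(Fin.castOrderIso hl).toOrderEmbedding.trans f, fun j => ?_⟩
    have e := hf (Fin.cast hl j)
    simp only [List.get_eq_getElem, List.getElem_map, Fin.val_cast] at e
    exact e.symm

end Pool.Agent.Lib.MP_72b45c_co.Q
end

section

/-! # MP_72b45c_co, block W (words), job W8: the inner letters sort (RESTRICT) (parts) -/
end

section

/-! # MP_72b45c_co, block S (lower bound), job S3a: inner cells -/

namespace Pool.Agent.Lib.MP_72b45c_co.Q

open SimpleGraph Equiv Equiv.Perm

variable {n : ℕ} {u u' : List ℕ}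

/-- `CIso.graphIso`, `CIso.near_iff` -/
theorem near_iso (Φ : CIso n u u' 0) (c : Fin (u.length + 1)) :
    Nonempty ((BG n u 1).induce {s | ¬ Near n u c s} ≃g
      (BG n u' 1).induce {s | ¬ Near n u' (Φ.κ c) s}) :=
  ⟨{ toEquiv := Φ.κ.subtypeEquiv fun s => not_congr (Φ.near_iff c s).symm
     map_rel_iff' := fun {a b} => (Φ.graphIso 1).map_rel_iff' (a := a.1) (b := b.1) }⟩

/-- cells of the gaps `3, .., n - 3` (odd) do not touch the outer cell (`zero_mem_pr`: a letter with the corner
`0` has position `1` or `n - 1`, its black pair lies in this gap; compare cells with `cell_lift` for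
`f k t = (k ∈ {1, n - 1})`) -/
theorem not_near_zero (hn : Even n) (hf : Full n u) {k t : ℕ} (hk : 3 ≤ k) (hk' : k + 3 ≤ n)
    (ht : t ≤ u.length) : ¬ Near n u 0 (cell n u k t) := by
  rintro ⟨t', h1, h2⟩
  obtain ⟨h3, h4⟩ := zero_mem_pr hf h2
  obtain ⟨g, hg⟩ := cell_lift hf (fun k _ => decide (k = 1 ∨ k + 1 = n))
    (fun t _ => ⟨rfl, by
      show decide (n = 1 ∨ n + 1 = n) = decide ((0 : ℕ) = 1 ∨ 0 + 1 = n)
      rw [decide_eq_false (by omega), decide_eq_false (by omega)]⟩)
    (fun _ _ _ _ _ _ => rfl)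
    (fun k hk1 hk2 => by
      show decide (k = 1 ∨ k + 1 = n) = decide (n - k = 1 ∨ n - k + 1 = n)
      exact decide_eq_decide.2 (by omega))
  have h5 : g (cell n u k t) = false := by
    rw [hg k t (by omega) ht]
    exact decide_eq_false (by omega)
  have ht' := t'.2
  have hu : 1 ≤ u[t'] ∧ u[t'] < n := hf.1 _ (List.getElem_mem t'.2)
  have h6 : ∀ r, r ≤ u.length → g (cell n u u[t'] r) = true := by
    intro r hr
    rw [hg _ r (by omega) hr]
    exact decide_eq_true h4
  unfold pr at h1
  rw [if_pos (by omega), Sym2.mem_iff] at h1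
  rcases h1 with h1 | h1
  · rw [h1, h6 _ (by omega)] at h5
    exact absurd h5 (by decide)
  · rw [h1, h6 _ (by omega)] at h5
    exact absurd h5 (by decide)

/-- number of chosen letters among the first `t` -/
def num {v : List ℕ} (f : Fin v.length ↪o Fin u.length) (t : ℕ) : ℕ :=
  (Finset.univ.filter (fun j : Fin v.length => (f j).val < t)).card

theorem num_facts {v : List ℕ} (f : Fin v.length ↪o Fin u.length) :
    num f 0 = 0 ∧ num f u.length = v.length ∧
    (∀ j : Fin v.length, num f (f j) = j ∧ num f ((f j).val + 1) = j + 1) ∧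
    ∀ t, (∀ j, (f j).val ≠ t) → num f (t + 1) = num f t := by
  refine ⟨?_, ?_, fun j => ⟨?_, ?_⟩, fun t ht => ?_⟩
  · unfold num
    rw [Finset.card_eq_zero, Finset.filter_eq_empty_iff]
    intro j _
    omega
  · unfold num
    rw [Finset.filter_true_of_mem fun j _ => (f j).2, Finset.card_univ, Fintype.card_fin]
  · unfold num
    have h : Finset.univ.filter (fun i : Fin v.length => (f i).val < (f j).val) = Finset.Iio j := by
      ext i
      rw [Finset.mem_filter, Finset.mem_Iio, ← Fin.lt_def, f.lt_iff_lt]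
      simp
    rw [h, Fin.card_Iio]
  · unfold num
    have h : Finset.univ.filter (fun i : Fin v.length => (f i).val < (f j).val + 1) =
        Finset.Iic j := by
      ext i
      rw [Finset.mem_filter, Finset.mem_Iic, Nat.lt_succ_iff, ← Fin.le_def, f.le_iff_le]
      simp
    rw [h, Fin.card_Iic]
  · unfold num
    congr 1
    refine Finset.filter_congr fun j _ => ?_
    have := ht j
    omega

/-- The cells of the inner gaps are mapped to the cells of the inner word. `cell_lift` with
`f k t = some (cell (n-4) v (k-2) (num f t))` for `3 ≤ k ≤ n - 3` and `none` otherwise. -/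
theorem exists_inner {v : List ℕ} (h6 : 6 ≤ n) (hu : Full n u) (hv : Full (n - 4) v)
    (f : Fin v.length ↪o Fin u.length) (hf : ∀ j : Fin v.length, u[f j] = v[j] + 2) :
    ∃ g : Fin (u.length + 1) → Option (Fin (v.length + 1)),
      (∀ k t, 3 ≤ k → k + 3 ≤ n → t ≤ u.length →
        g (cell n u k t) = some (cell (n - 4) v (k - 2) (num f t))) ∧
      ∀ k t, k < 3 ∨ n < k + 3 → k ≤ n → t ≤ u.length → g (cell n u k t) = none := by
  obtain ⟨n0, nl, nj, nt⟩ := num_facts f
  obtain ⟨g, hg⟩ := cell_lift hu
    (fun k t => if 3 ≤ k ∧ k + 3 ≤ n then some (cell (n - 4) v (k - 2) (num f t)) else none)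
    (fun t _ => ⟨by
      show (if 3 ≤ 0 ∧ 0 + 3 ≤ n then some (cell (n - 4) v (0 - 2) (num f t)) else none) =
        (if 3 ≤ 0 ∧ 0 + 3 ≤ n then some (cell (n - 4) v (0 - 2) (num f 0)) else none)
      rw [if_neg (by omega), if_neg (by omega)], by
      show (if 3 ≤ n ∧ n + 3 ≤ n then some (cell (n - 4) v (n - 2) (num f t)) else none) =
        (if 3 ≤ 0 ∧ 0 + 3 ≤ n then some (cell (n - 4) v (0 - 2) (num f 0)) else none)
      rw [if_neg (by omega), if_neg (by omega)]⟩)
    (fun k t ht h1 h2 h3 => by
      show (if 3 ≤ k ∧ k + 3 ≤ n then some (cell (n - 4) v (k - 2) (num f (t + 1))) else none) =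
        (if 3 ≤ k ∧ k + 3 ≤ n then some (cell (n - 4) v (k - 2) (num f t)) else none)
      by_cases hk : 3 ≤ k ∧ k + 3 ≤ n
      · rw [if_pos hk, if_pos hk]
        congr 1
        by_cases hj : ∃ j, (f j).val = t
        · obtain ⟨j, rfl⟩ := hj
          rw [(nj j).1, (nj j).2]
          refine cell_succ_of_ne (n - 4) j.2 fun he => h3 ?_
          have h4 := hf j
          have h5 : u[(f j).val] = v[j.val] + 2 := h4
          omega
        · rw [nt t fun j h => hj ⟨j, h⟩]
      · rw [if_neg hk, if_neg hk])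
    (fun k h1 h2 => by
      show (if 3 ≤ k ∧ k + 3 ≤ n then some (cell (n - 4) v (k - 2) (num f u.length)) else none) =
        (if 3 ≤ n - k ∧ n - k + 3 ≤ n then some (cell (n - 4) v (n - k - 2) (num f 0)) else none)
      by_cases hk : 3 ≤ k ∧ k + 3 ≤ n
      · rw [if_pos hk, if_pos (by omega), n0, nl, cell_wrap hv (by omega) (by omega)]
        congr 2
        omega
      · rw [if_neg hk, if_neg (by omega)])
  refine ⟨g, fun k t h1 h2 h3 => ?_, fun k t h1 h2 h3 => ?_⟩
  · rw [hg k t (by omega) h3]
    exact if_pos ⟨h1, h2⟩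
  · rw [hg k t h2 h3]
    exact if_neg (by omega)

end Pool.Agent.Lib.MP_72b45c_co.Q
end

section

/-! # MP_72b45c_co, block S (lower bound), job S3b: branch sets -/

namespace Pool.Agent.Lib.MP_72b45c_co.Q

open SimpleGraph Equiv Equiv.Perm

variable {n : ℕ} {u u' : List ℕ}

/-- adjacency inside a class of `g` -/
private def S3bR {β : Type*} (n : ℕ) (u : List ℕ) (g : Fin (u.length + 1) → β)
    (a b : Fin (u.length + 1)) : Prop :=
  (BG n u 1).Adj a b ∧ g a = g b

/-- the node `(k, t)` is joined to the root of its inner cell -/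
private def S3bP {v : List ℕ} {β : Type*} (n : ℕ) (u : List ℕ) (f : Fin v.length ↪o Fin u.length)
    (g : Fin (u.length + 1) → β) (k t : ℕ) : Prop :=
  ∀ j : Fin v.length, (cell (n - 4) v (k - 2) (num f t)).val = j.val + 1 →
    Relation.ReflTransGen (S3bR n u g) (cell n u k t)
      (⟨(f j).val + 1, Nat.succ_lt_succ (f j).isLt⟩ : Fin (u.length + 1))

private theorem S3b_lift {β : Type*} {g : Fin (u.length + 1) → Option β} {c : β}
    {a b : Fin (u.length + 1)} (h : Relation.ReflTransGen (S3bR n u g) a b) (ha : g a = some c) :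
    ∃ hb : g b = some c, ((BG n u 1).induce {s | g s = some c}).Reachable ⟨a, ha⟩ ⟨b, hb⟩ := by
  induction h with
  | refl => exact ⟨ha, Reachable.refl _⟩
  | tail _ hbc ih =>
    obtain ⟨hb, hr⟩ := ih
    refine ⟨hbc.2 ▸ hb, hr.trans (Adj.reachable ?_)⟩
    exact hbc.1

private theorem S3b_num_le {v : List ℕ} (f : Fin v.length ↪o Fin u.length) (t : ℕ) :
    num f t ≤ v.length := by
  unfold num
  calc _ ≤ (Finset.univ : Finset (Fin v.length)).card := Finset.card_le_card (Finset.filter_subset _ _)
    _ = v.length := by simp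

/-- one letter which is not a chosen letter `k` does not change the inner cell -/
private theorem S3b_inner_eq {v : List ℕ} (f : Fin v.length ↪o Fin u.length)
    (hf : ∀ j : Fin v.length, u[f j] = v[j] + 2) {k t : ℕ} (hk : 3 ≤ k) (ht : t < u.length)
    (h : u[t] ≠ k ∨ ∀ j, (f j).val ≠ t) :
    cell (n - 4) v (k - 2) (num f (t + 1)) = cell (n - 4) v (k - 2) (num f t) ∧
      lastOcc v (k - 2) (num f (t + 1)) = lastOcc v (k - 2) (num f t) := by
  obtain ⟨-, -, h3, h4⟩ := num_facts f
  by_cases hc : ∃ j, (f j).val = t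
  · obtain ⟨j, hj⟩ := hc
    have hk' : u[t] ≠ k := by
      rcases h with h | h
      · exact h
      · exact absurd hj (h j)
    obtain ⟨h5, h6⟩ := h3 j
    have h7 : v[j] ≠ k - 2 := by
      intro h8
      apply hk'
      have h9 := hf j
      have h10 : u[f j] = u[t] := by
        simp only [← hj]
        rfl
      rw [h10] at h9
      omega
    rw [← hj, h5, h6]
    exact ⟨cell_succ_of_ne (n - 4) j.isLt h7, lastOcc_succ_of_ne j.isLt h7⟩
  · push Not at hc
    rw [h4 t hc]
    exact ⟨rfl, rfl⟩

private theorem S3b_step {v : List ℕ} (hn : Even n) (h6 : 6 ≤ n) (hu : Red n u)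
    (hv : Full (n - 4) v)
    (f : Fin v.length ↪o Fin u.length) (hf : ∀ j : Fin v.length, u[f j] = v[j] + 2)
    (g : Fin (u.length + 1) → Option (Fin (v.length + 1)))
    (hg : ∀ k t, 3 ≤ k → k + 3 ≤ n → t ≤ u.length →
        g (cell n u k t) = some (cell (n - 4) v (k - 2) (num f t)))
    {k t : ℕ} (hk : 3 ≤ k) (hk' : k + 3 ≤ n) (hodd : k % 2 = 1) (ht : t < u.length)
    (ih : (∀ j, (f j).val ≠ t) ∨ u[t] ≠ k → S3bP n u f g k t) : S3bP n u f g k (t + 1) := by
  intro j hj
  by_cases hkt : u[t] = k
  · by_cases hc : ∃ j, (f j).val = t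
    · -- chosen letter
      obtain ⟨j0, hj0⟩ := hc
      obtain ⟨-, -, h3, -⟩ := num_facts f
      obtain ⟨h5, h6'⟩ := h3 j0
      rw [hj0] at h6'
      have h7 : v[j0] = k - 2 := by
        have h9 := hf j0
        have h10 : u[f j0] = u[t] := by
          simp only [← hj0]
          rfl
        rw [h10] at h9
        omega
      have h8 := hv.1 v[j0] (List.getElem_mem _)
      have h11 : (cell (n - 4) v (k - 2) (num f (t + 1))).val = j0.val + 1 := by
        rw [h6']
        exact cell_succ_self j0.isLt h7 (by omega) (by omega)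
      have h12 : j = j0 := by
        apply Fin.ext
        omega
      subst h12
      have h13 : cell n u k (t + 1) = ⟨(f j).val + 1, Nat.succ_lt_succ (f j).isLt⟩ := by
        apply Fin.ext
        rw [cell_succ_self ht hkt (by omega) (by omega)]
        simp [hj0]
      rw [h13]
    · push Not at hc
      -- not chosen: the new cell is adjacent to the old one
      have h1 := ih (Or.inl hc)
      have h2 := (S3b_inner_eq (n := n) f hf hk ht (Or.inr hc)).1
      rw [h2] at hj
      refine Relation.ReflTransGen.head ?_ (h1 j hj)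
      have h3 : pr n u 1 ⟨t, ht⟩ = s(cell n u k t, cell n u k (t + 1)) := by
        unfold pr
        have h4 : u[(⟨t, ht⟩ : Fin u.length)] = k := hkt
        rw [h4, if_pos (by omega)]
      have h5 : cell n u k t ≠ cell n u k (t + 1) := by
        intro h6
        apply pr_not_isDiag (by omega) hu 1 ⟨t, ht⟩
        rw [h3, Sym2.mk_isDiag_iff]
        exact h6
      refine ⟨⟨h5.symm, ⟨t, ht⟩, ?_⟩, ?_⟩
      · rw [h3, Sym2.eq_swap]
      · rw [hg k (t + 1) hk hk' ht, hg k t hk hk' ht.le, h2]
  · have h1 := ih (Or.inr hkt)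
    have h2 := (S3b_inner_eq (n := n) f hf hk ht (Or.inl hkt)).1
    rw [h2] at hj
    rw [cell_succ_of_ne n ht hkt]
    exact h1 j hj

/-- Connectivity of the branch set `{s | g s = some c}` of a black cell `c`. Root of `c` (`c ≥ 1`, `j = c - 1`): the cell of
the node `(u[f j], f j + 1)`. Claim for all nodes `(k, t)`, `k` odd, `3 ≤ k ≤ n - 3`: `cell n u k t` is joined inside the branch
set to the root of `cell (n-4) v (k-2) (num f t)`. Induction on `t`: if `u[t] ≠ k` nothing changes; if `u[t] = k` is not chosen,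
the old and the new cell are adjacent (`pr n u 1`, `k` odd) with the same image; if it is chosen, the new cell is
the root. Start `t = 0`: first do the induction for the nodes with `lastOcc v (k-2) (num f t) ≠ 0` only, then
`cell n u k 0 = cell n u (n-k) u.length` (`cell_wrap`). -/
theorem inner_connected {v : List ℕ} (hn : Even n) (h6 : 6 ≤ n) (hu : Red n u) (hv : Full (n - 4) v)
    (f : Fin v.length ↪o Fin u.length) (hf : ∀ j : Fin v.length, u[f j] = v[j] + 2)
    (g : Fin (u.length + 1) → Option (Fin (v.length + 1)))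
    (hg : ∀ k t, 3 ≤ k → k + 3 ≤ n → t ≤ u.length →
        g (cell n u k t) = some (cell (n - 4) v (k - 2) (num f t)))
    (hg' : ∀ k t, k < 3 ∨ n < k + 3 → k ≤ n → t ≤ u.length → g (cell n u k t) = none)
    (c : Fin (v.length + 1)) (hc : col v c = 1) :
    ((BG n u 1).induce {s | g s = some c}).Connected := by
  have hfu : Full n u := hu.full
  have hnn : n % 2 = 0 := Nat.even_iff.mp hn
  have hn4 : Even (n - 4) := by
    rw [Nat.even_iff]
    omega
  obtain ⟨hnum0, hnumL, hnumj, -⟩ := num_facts f
  -- first induction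
  have hQ : ∀ k t, 3 ≤ k → k + 3 ≤ n → k % 2 = 1 → t ≤ u.length →
      lastOcc v (k - 2) (num f t) ≠ 0 → S3bP n u f g k t := by
    intro k t hk hk' hodd
    induction t with
    | zero =>
      intro _ h
      rw [hnum0] at h
      exact absurd rfl h
    | succ t ih =>
      intro ht hocc
      apply S3b_step hn h6 hu hv f hf g hg hk hk' hodd (Nat.lt_of_succ_le ht)
      intro h
      apply ih (by omega)
      rw [← (S3b_inner_eq (n := n) f hf hk (Nat.lt_of_succ_le ht) h.symm).2]
      exact hocc
  have hP0 : ∀ k, 3 ≤ k → k + 3 ≤ n → k % 2 = 1 → S3bP n u f g k 0 := by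
    intro k hk hk' hodd
    have h1 := hQ (n - k) u.length (by omega) (by omega) (by omega) le_rfl (by
      rw [hnumL, lastOcc_pos_iff]
      exact hv.2 _ (by omega) (by omega))
    intro j hj
    have h2 : cell n u k 0 = cell n u (n - k) u.length := by
      rw [cell_wrap hfu (by omega) (by omega)]
      congr 1
      omega
    have h3 : cell (n - 4) v (k - 2) 0 = cell (n - 4) v (n - k - 2) v.length := by
      rw [cell_wrap hv (by omega) (by omega)]
      congr 1
      omega
    rw [h2]
    apply h1 j
    rw [hnumL, ← h3, ← hnum0]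
    exact hj
  have hP : ∀ k t, 3 ≤ k → k + 3 ≤ n → k % 2 = 1 → t ≤ u.length → S3bP n u f g k t := by
    intro k t hk hk' hodd
    induction t with
    | zero => exact fun _ => hP0 k hk hk' hodd
    | succ t ih =>
      intro ht
      exact S3b_step hn h6 hu hv f hf g hg hk hk' hodd (Nat.lt_of_succ_le ht)
        (fun _ => ih (by omega))
  -- the root
  have hc0 : c.val ≠ 0 := by
    intro h
    unfold col at hc
    rw [if_pos h] at hc
    exact absurd hc (by omega)
  obtain ⟨j, hj⟩ : ∃ j : Fin v.length, c.val = j.val + 1 :=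
    ⟨⟨c.val - 1, by have := c.isLt; omega⟩, by simp; omega⟩
  have hvj := hv.1 v[j] (List.getElem_mem _)
  have hcolj : v[j] % 2 = 1 := by
    unfold col at hc
    rw [if_neg hc0, hj] at hc
    simpa [List.getD_eq_getElem?_getD] using hc
  set r : Fin (u.length + 1) := ⟨(f j).val + 1, Nat.succ_lt_succ (f j).isLt⟩ with hr
  have hgr : g r = some c := by
    have h1 : r = cell n u (v[j] + 2) ((f j).val + 1) := by
      apply Fin.ext
      rw [cell_succ_self (f j).isLt (hf j) (by omega) (by omega)]
    rw [h1, hg _ _ (by omega) (by omega) (f j).isLt, (hnumj j).2]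
    congr 1
    apply Fin.ext
    rw [hj]
    exact cell_succ_self j.isLt (by simp) (by omega) (by omega)
  have key : ∀ s (hs : g s = some c),
      ((BG n u 1).induce {s | g s = some c}).Reachable ⟨s, hs⟩ ⟨r, hgr⟩ := by
    intro s hs
    obtain ⟨k, t, hk, ht, rfl⟩ := exists_node hfu s
    have h1 : ¬ (k < 3 ∨ n < k + 3) := by
      intro h
      rw [hg' k t h hk ht] at hs
      exact absurd hs (by simp)
    push Not at h1
    have h2 : cell (n - 4) v (k - 2) (num f t) = c := by
      have h3 := hg k t h1.1 h1.2 ht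
      rw [hs] at h3
      exact (Option.some.inj h3).symm
    have h4 : k % 2 = 1 := by
      have h5 := col_cell hn4 hv (k := k - 2) (t := num f t) (by omega) (S3b_num_le f t)
      rw [h2, hc] at h5
      omega
    have h6 := hP k t h1.1 h1.2 h4 ht j (by rw [h2, hj])
    obtain ⟨hb, h7⟩ := S3b_lift h6 hs
    exact h7
  haveI : Nonempty {s | g s = some c} := ⟨⟨r, hgr⟩⟩
  refine ⟨fun a b => (key a.1 a.2).trans (key b.1 b.2).symm⟩

end Pool.Agent.Lib.MP_72b45c_co.Q
end
end
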