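import Pool.Agent.Lib.MP_72b45c_co.Q.W4

/-! # MP_72b45c_co, block W (words), job W5: isomorphisms of the cell complexes -/

namespace Pool.Agent.Lib.MP_72b45c_co.Q

open Equiv Equiv.Perm

variable {n : ℕ} {u u' u'' : List ℕ} {δ δ' : ℕ}

/-- identity -/
def CIso.refl (n : ℕ) (u : List ℕ) : CIso n u u 0 where
  θ := Equiv.refl _
  κ := Equiv.refl _
  h e t := by simp

/-- change of the colour shift modulo 2 -/
def CIso.cast (Φ : CIso n u u' δ) (hd : δ % 2 = δ' % 2) : CIso n u u' δ' where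
  θ := Φ.θ
  κ := Φ.κ
  h e t := by
    rw [← Φ.h e t]
    exact pr_congr n u' (by omega) _

/-- composition -/
def CIso.trans (Φ : CIso n u u' δ) (Ψ : CIso n u' u'' δ') : CIso n u u'' (δ + δ') where
  θ := Φ.θ.trans Ψ.θ
  κ := Φ.κ.trans Ψ.κ
  h e t := by
    have h1 := Ψ.h (e + δ) (Φ.θ t)
    rw [Φ.h e t, Sym2.map_map] at h1
    rw [← add_assoc]
    exact h1

/-- inverse -/
def CIso.symm (Φ : CIso n u u' δ) : CIso n u' u δ where
  θ := Φ.θ.symm
  κ := Φ.κ.symm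
  h e t := by
    have h1 := Φ.h (e + δ) (Φ.θ.symm t)
    rw [Equiv.apply_symm_apply] at h1
    rw [pr_congr n u' (show e % 2 = (e + δ + δ) % 2 by omega) t, h1, Sym2.map_map]
    simp

theorem CIso.mem_pr (Φ : CIso n u u' δ) (e : ℕ) (t : Fin u.length) (c : Fin (u.length + 1)) :
    Φ.κ c ∈ pr n u' (e + δ) (Φ.θ t) ↔ c ∈ pr n u e t := by
  rw [Φ.h e t, Sym2.mem_map]
  constructor
  · rintro ⟨a, ha, hb⟩
    rwa [← Φ.κ.injective hb]
  · intro hc
    exact ⟨c, hc, rfl⟩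

/-- an isomorphism without exchange of the colours gives an isomorphism of the graphs -/
def CIso.graphIso (Φ : CIso n u u' 0) (e : ℕ) : BG n u e ≃g BG n u' e where
  toEquiv := Φ.κ
  map_rel_iff' := by
    intro i j
    constructor
    · rintro ⟨h1, t, h2⟩
      refine ⟨fun hij => h1 (by rw [hij]), Φ.θ.symm t, ?_⟩
      have h3 := Φ.h e (Φ.θ.symm t)
      rw [Equiv.apply_symm_apply, add_zero, h2] at h3
      apply Sym2.map.injective Φ.κ.injective
      rw [← h3]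
      rfl
    · rintro ⟨h1, t, h2⟩
      refine ⟨fun hij => h1 (Φ.κ.injective hij), Φ.θ t, ?_⟩
      have h3 := Φ.h e t
      rw [add_zero, h2] at h3
      rw [h3]
      rfl

theorem CIso.near_iff (Φ : CIso n u u' 0) (c s : Fin (u.length + 1)) :
    Near n u' (Φ.κ c) (Φ.κ s) ↔ Near n u c s := by
  constructor
  · rintro ⟨t, h1, h2⟩
    refine ⟨Φ.θ.symm t, ?_, ?_⟩
    · rw [← Φ.mem_pr]
      rwa [Equiv.apply_symm_apply]
    · rw [← Φ.mem_pr]
      rwa [Equiv.apply_symm_apply]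
  · rintro ⟨t, h1, h2⟩
    exact ⟨Φ.θ t, (Φ.mem_pr 1 t s).mpr h1, (Φ.mem_pr 0 t c).mpr h2⟩

/-- Construction of isomorphisms from a map of the nodes. `κ` comes from `cell_lift` for `f`; it is surjective by
`hsurj`, hence bijective (`u.length = u'.length`). -/
theorem exists_CIso (hf : Full n u) (hlen : u.length = u'.length) (δ : ℕ)
    (θ : Fin u.length ≃ Fin u'.length) (f : ℕ → ℕ → Fin (u'.length + 1))
    (h0 : ∀ t ≤ u.length, f 0 t = f 0 0 ∧ f n t = f 0 0)
    (h1 : ∀ k t (ht : t < u.length), 1 ≤ k → k < n → u[t] ≠ k → f k (t + 1) = f k t)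
    (h2 : ∀ k, 1 ≤ k → k < n → f k u.length = f (n - k) 0)
    (hsurj : ∀ c, ∃ k t, k ≤ n ∧ t ≤ u.length ∧ f k t = c)
    (hpr : ∀ e (t : Fin u.length), pr n u' (e + δ) (θ t) =
      if (u[t] + e) % 2 = 0 then s(f u[t] t, f u[t] (t + 1))
      else s(f (u[t] - 1) t, f (u[t] + 1) t)) :
    ∃ Φ : CIso n u u' δ, Φ.θ = θ ∧ ∀ k t, k ≤ n → t ≤ u.length → Φ.κ (cell n u k t) = f k t := by
  obtain ⟨g, hg⟩ := cell_lift hf f h0 h1 h2
  have hs : Function.Surjective g := by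
    intro c
    obtain ⟨k, t, hk, ht, hc⟩ := hsurj c
    exact ⟨cell n u k t, (hg k t hk ht).trans hc⟩
  have hb : Function.Bijective g := by
    rw [Fintype.bijective_iff_surjective_and_card]
    refine ⟨hs, ?_⟩
    rw [Fintype.card_fin, Fintype.card_fin, hlen]
  refine ⟨⟨θ, Equiv.ofBijective g hb, ?_⟩, rfl, fun k t hk ht => hg k t hk ht⟩
  intro e t
  have hu : 1 ≤ u[t] ∧ u[t] < n := hf.1 _ (List.getElem_mem t.2)
  have ht := t.2
  rw [hpr e t]
  unfold pr
  by_cases hpar : (u[t] + e) % 2 = 0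
  · rw [if_pos hpar, if_pos hpar, Sym2.map_mk]
    show s(f u[t] t, f u[t] (t + 1)) = s(g (cell n u u[t] t), g (cell n u u[t] (t + 1)))
    rw [hg _ _ (by omega) (by omega), hg _ _ (by omega) (by omega)]
  · rw [if_neg hpar, if_neg hpar, Sym2.map_mk]
    show s(f (u[t] - 1) t, f (u[t] + 1) t) = s(g (cell n u (u[t] - 1) t), g (cell n u (u[t] + 1) t))
    rw [hg _ _ (by omega) (by omega), hg _ _ (by omega) (by omega)]

end Pool.Agent.Lib.MP_72b45c_co.Q
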